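import Pool.Agent.Lib.MP_f80667_ag.Be.Gal
import Pool.Agent.Lib.MP_f80667_ag.Qb.Nrm

/-! Places of the algebraic closure of a function field. -/

open ZC

namespace BE

section place

variable {M E L Ω : Type} [Field M] [Field E] [Field L] [Field Ω] [Algebra M E] [Algebra M L]
  [Algebra M Ω]

/-- `W` is above `w`. -/
def Above (w : Place M E Ω) (W : Place M (AlgebraicClosure E) Ω) : Prop :=
  (∀ a : E, algebraMap E (AlgebraicClosure E) a ∈ W.V ↔ a ∈ w.V) ∧
    ∀ (a : E) (h : a ∈ w.V) (h' : algebraMap E (AlgebraicClosure E) a ∈ W.V),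
      W.res ⟨_, h'⟩ = w.res ⟨a, h⟩

/-- A polynomial with coefficients in a valuation ring, one of them equal to one. -/
private theorem plX_norm {E : Type} [Field E] (V : ValuationSubring E) {p : Polynomial E}
    (hp : p ≠ 0) : ∃ (c : E) (q : Polynomial V) (i : ℕ), c ≠ 0 ∧ q.coeff i = 1 ∧
      q.map V.subtype = Polynomial.C c * p := by
  classical
  have hne : p.support.Nonempty := Polynomial.support_nonempty.2 hp
  obtain ⟨i, hi, hmax⟩ := Finset.exists_max_image p.support (fun n => V.valuation (p.coeff n)) hne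
  have hi0 : p.coeff i ≠ 0 := Polynomial.mem_support_iff.1 hi
  have hv0 : V.valuation (p.coeff i) ≠ 0 := (V.valuation.ne_zero_iff).2 hi0
  have hmem : ∀ n, (p.coeff i)⁻¹ * p.coeff n ∈ V := by
    intro n
    by_cases hn : p.coeff n = 0
    · rw [hn, mul_zero]
      exact V.zero_mem
    · rw [← V.valuation_le_one_iff, map_mul, map_inv₀]
      have h1 := hmax n (Polynomial.mem_support_iff.2 hn)
      rw [mul_comm, ← div_eq_mul_inv]
      exact (div_le_one₀ (zero_lt_iff.2 hv0)).2 h1
  have hl : Polynomial.C (p.coeff i)⁻¹ * p ∈ Polynomial.lifts V.subtype := by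
    rw [Polynomial.lifts_iff_coeff_lifts]
    intro n
    rw [Polynomial.coeff_C_mul]
    exact ⟨⟨_, hmem n⟩, rfl⟩
  obtain ⟨q, hq⟩ := (Polynomial.mem_lifts _).1 hl
  refine ⟨(p.coeff i)⁻¹, q, i, inv_ne_zero hi0, ?_, hq⟩
  apply Subtype.ext
  have h1 := congrArg (fun r => Polynomial.coeff r i) hq
  simp only [Polynomial.coeff_map, Polynomial.coeff_C_mul] at h1
  rw [inv_mul_cancel₀ hi0] at h1
  exact h1

/-- Every place extends to the algebraic closure. Proof: a valuation ring of `AlgebraicClosure E` which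
dominates the image of `w.V` (Mathlib: `LocalSubring`, `ValuationSubring`) has intersection `w.V` with `E`;
its residue field is algebraic over that of `w.V`, so the embedding in `Ω` extends
(`IsAlgClosed.lift`). It is not everything because `w.V` is not. -/
theorem exists_above [IsAlgClosed Ω] (w : Place M E Ω) :
    ∃ W : Place M (AlgebraicClosure E) Ω, Above w W := by
  classical
  let f : w.V →+* AlgebraicClosure E := (algebraMap E (AlgebraicClosure E)).comp w.V.subtype
  obtain ⟨V', hV', hloc⟩ := IsLocalRing.exists_factor_valuationRing f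
  let r : w.V →+* V' := f.codRestrict V'.toSubring hV'
  have hr : IsLocalHom r := hloc
  have hrv : ∀ a : w.V, ((r a : V') : AlgebraicClosure E) = algebraMap E _ (a : E) := fun a => rfl
  have hiff : ∀ a : E, algebraMap E (AlgebraicClosure E) a ∈ V' ↔ a ∈ w.V := by
    intro a
    constructor
    · intro h
      by_contra ha
      have ha' : a⁻¹ ∈ w.V := (w.V.mem_or_inv_mem a).resolve_left ha
      have ha0 : a ≠ 0 := fun h0 => ha (by rw [h0]; exact w.V.zero_mem)
      have hu : IsUnit (r ⟨a⁻¹, ha'⟩) := by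
        refine IsUnit.of_mul_eq_one (⟨algebraMap E (AlgebraicClosure E) a, h⟩ : V') ?_
        apply Subtype.ext
        change algebraMap E (AlgebraicClosure E) a⁻¹ * algebraMap E (AlgebraicClosure E) a = 1
        rw [← map_mul, inv_mul_cancel₀ ha0, map_one]
      have hu' : IsUnit (⟨a⁻¹, ha'⟩ : w.V) := IsUnit.of_map r _ hu
      obtain ⟨b, hb⟩ := hu'.exists_left_inv
      apply ha
      have h1 : (b : E) = a := by
        have h2 : (b : E) * a⁻¹ = 1 := congrArg Subtype.val hb
        field_simp at h2
        exact h2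
      rw [← h1]
      exact b.2
    · intro h
      exact hV' ⟨a, h⟩
  -- the residue fields
  have hwl : IsLocalHom w.res := Fa.isLocalHom_res w
  let i1 : Algebra (IsLocalRing.ResidueField w.V) (IsLocalRing.ResidueField V') :=
    (IsLocalRing.ResidueField.map r).toAlgebra
  let i2 : Algebra (IsLocalRing.ResidueField w.V) Ω :=
    (IsLocalRing.ResidueField.lift w.res).toAlgebra
  have halg : Algebra.IsAlgebraic (IsLocalRing.ResidueField w.V) (IsLocalRing.ResidueField V') := by
    refine ⟨fun z => ?_⟩
    obtain ⟨x, rfl⟩ := IsLocalRing.residue_surjective z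
    obtain ⟨p, hp, hpx⟩ : IsAlgebraic E (x : AlgebraicClosure E) :=
      Algebra.IsAlgebraic.isAlgebraic _
    obtain ⟨c, q, i, hc, hqi, hq⟩ := plX_norm w.V hp
    have h1 : Polynomial.eval₂ r x q = 0 := by
      apply Subtype.ext
      have h2 : ((Polynomial.eval₂ r x q : V') : AlgebraicClosure E) =
          Polynomial.eval₂ f (x : AlgebraicClosure E) q :=
        Polynomial.hom_eval₂ q r V'.subtype x
      rw [h2]
      have h3 : Polynomial.eval₂ f (x : AlgebraicClosure E) q =
          Polynomial.aeval (x : AlgebraicClosure E) (q.map w.V.subtype) := by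
        rw [Polynomial.aeval_def, Polynomial.eval₂_map]
      rw [h3, hq, map_mul, hpx, mul_zero]
      rfl
    refine ⟨q.map (IsLocalRing.residue w.V), fun h0 => ?_, ?_⟩
    · have h2 := congrArg (fun r => Polynomial.coeff r i) h0
      simp only [Polynomial.coeff_map, Polynomial.coeff_zero] at h2
      rw [hqi, map_one] at h2
      exact one_ne_zero h2
    · have h2 := congrArg (IsLocalRing.residue V') h1
      rw [Polynomial.hom_eval₂, map_zero] at h2
      rw [Polynomial.aeval_def, Polynomial.eval₂_map]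
      exact h2
  let φ : IsLocalRing.ResidueField V' →ₐ[IsLocalRing.ResidueField w.V] Ω := IsAlgClosed.lift
  have hφ : ∀ a : w.V, φ (IsLocalRing.residue V' (r a)) = w.res a := by
    intro a
    have h1 := φ.commutes (IsLocalRing.residue w.V a)
    exact h1
  have hMmem : ∀ a : M, algebraMap M (AlgebraicClosure E) a ∈ V' := by
    intro a
    rw [IsScalarTower.algebraMap_apply M E (AlgebraicClosure E), hiff]
    exact w.mem a
  refine ⟨⟨V', fun htop => w.ne_top ?_, hMmem, (φ : IsLocalRing.ResidueField V' →+* Ω).comp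
    (IsLocalRing.residue V'), fun a => ?_, fun x hx => ?_⟩, hiff, fun a h h' => ?_⟩
  · rw [eq_top_iff]
    intro a _
    rw [← hiff, htop]
    exact ValuationSubring.mem_top _
  · rw [← w.res_k a, ← hφ]
    change φ (IsLocalRing.residue V' _) = φ (IsLocalRing.residue V' _)
    congr 2
  · change φ (IsLocalRing.residue V' x) = 0
    rw [(IsLocalRing.residue_eq_zero_iff x).2 hx, map_zero]
  · exact hφ ⟨a, h⟩

/-- A place of a field which contains `Ω` induces an automorphism of `Ω`. -/
theorem exists_rho [IsAlgClosure M Ω] (W : Place M L Ω) (j : Ω →ₐ[M] L) :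
    ∃ ρ : Ω ≃ₐ[M] Ω, ∀ x : Ω, ∃ h : j x ∈ W.V, W.res ⟨j x, h⟩ = ρ x := by
  have halg : Algebra.IsAlgebraic M Ω := IsAlgClosure.isAlgebraic
  have hmem : ∀ x : Ω, j x ∈ W.V := by
    intro x
    have ha : IsIntegral M (j x) := (Algebra.IsIntegral.isIntegral x).map j
    obtain ⟨p, hp, hy⟩ := ha
    let φ : M →+* W.V := (algebraMap M L).codRestrict W.V.toSubring W.mem
    have h1 : IsIntegral W.V (j x) := by
      refine ⟨p.map φ, hp.map φ, ?_⟩
      rw [Polynomial.eval₂_map]
      exact hy
    obtain ⟨z, hz⟩ := IsIntegrallyClosed.isIntegral_iff.1 h1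
    rw [← hz]
    exact z.2
  let g : Ω →ₐ[M] Ω :=
    { W.res.comp ((j : Ω →+* L).codRestrict W.V.toSubring hmem) with
      commutes' := fun a => by
        refine Eq.trans ?_ (W.res_k a)
        change W.res _ = W.res _
        congr 1
        apply Subtype.ext
        exact j.commutes a }
  refine ⟨AlgEquiv.ofBijective g (Algebra.IsAlgebraic.algHom_bijective g), fun x => ⟨hmem x, rfl⟩⟩

/-- An automorphism of a field which contains `Ω` induces an automorphism of `Ω`. -/
theorem exists_rho' [IsAlgClosure M Ω] (σ : L ≃ₐ[M] L) (j : Ω →ₐ[M] L) :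
    ∃ ρ : Ω ≃ₐ[M] Ω, ∀ x : Ω, σ (j x) = j (ρ x) := by
  have halg : Algebra.IsAlgebraic M Ω := IsAlgClosure.isAlgebraic
  have hac : IsAlgClosed Ω := IsAlgClosure.isAlgClosed M
  have hmem : ∀ x : Ω, σ (j x) ∈ j.range := by
    intro x
    have hp : minpoly M x ≠ 0 := minpoly.ne_zero (Algebra.IsIntegral.isIntegral x)
    have hs := IsAlgClosed.splits ((minpoly M x).map (algebraMap M Ω))
    have h1 := hs.mem_range_of_isRoot (i := (j : Ω →+* L))
      (by rwa [Ne, Polynomial.map_eq_zero]) (x := σ (j x)) (by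
        rw [Polynomial.map_map, Polynomial.IsRoot.def, Polynomial.eval_map, AlgHom.comp_algebraMap,
          ← Polynomial.aeval_def]
        change Polynomial.aeval ((σ : L →ₐ[M] L) (j x)) (minpoly M x) = 0
        rw [Polynomial.aeval_algHom_apply, Polynomial.aeval_algHom_apply, minpoly.aeval, map_zero,
          map_zero])
    exact h1
  let e : Ω ≃ₐ[M] j.range := AlgEquiv.ofInjective j j.injective
  let g : Ω →ₐ[M] Ω := (e.symm : j.range →ₐ[M] Ω).comp
    (((σ : L →ₐ[M] L).comp j).codRestrict j.range hmem)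
  refine ⟨AlgEquiv.ofBijective g (Algebra.IsAlgebraic.algHom_bijective g), fun x => ?_⟩
  have h1 : e (g x) = ⟨σ (j x), hmem x⟩ := e.apply_symm_apply _
  have h2 := congrArg Subtype.val h1
  exact h2.symm

end place

end BE
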