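import Pool.Agent.Lib.MP_f80667_ag.Be.Gal

/-! Traces of cycles: restriction and transitivity. Group theory. -/

open ZC

namespace BE

section abs

variable {Γ X : Type} [Group Γ] [MulAction Γ X]

/-- The trace of a cycle from `H` to the whole group. -/
noncomputable def trG (X : Type) [MulAction Γ X] (H : Subgroup Γ) : (X →₀ ℤ) →+ (X →₀ ℤ) :=
  ∑ᶠ q : Γ ⧸ H, Finsupp.mapDomain.addMonoidHom (fun x => (q.out : Γ) • x)

theorem trH_smul (γ δ : Γ) (z : X →₀ ℤ) : Finsupp.mapDomain (fun x => (γ * δ) • x) z =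
    Finsupp.mapDomain (fun x => γ • x) (Finsupp.mapDomain (fun x => δ • x) z) := by
  rw [← Finsupp.mapDomain_comp]
  congr 1
  funext x
  exact mul_smul γ δ x

/-- Two representatives of a coset. -/
theorem trH_rep {H : Subgroup Γ} {z : X →₀ ℤ}
    (hz : ∀ γ ∈ H, Finsupp.mapDomain (fun x => γ • x) z = z) {r r' : Γ}
    (h : (r : Γ ⧸ H) = r') :
    Finsupp.mapDomain (fun x => r • x) z = Finsupp.mapDomain (fun x => r' • x) z := by
  have h1 : r⁻¹ * r' ∈ H := QuotientGroup.eq.1 h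
  have h2 : r' = r * (r⁻¹ * r') := by group
  rw [h2, trH_smul, hz _ h1]

theorem trG_apply {H : Subgroup Γ} (hH : H.FiniteIndex) (z : X →₀ ℤ) :
    trG X H z = ∑ᶠ q : Γ ⧸ H, Finsupp.mapDomain (fun x => (q.out : Γ) • x) z := by
  classical
  let _ : Fintype (Γ ⧸ H) := Fintype.ofFinite _
  rw [trG, finsum_eq_sum_of_fintype, finsum_eq_sum_of_fintype, AddMonoidHom.finsetSum_apply]
  rfl

/-- Any system of representatives gives the same trace of an invariant cycle. -/
theorem trG_rep {H : Subgroup Γ} (hH : H.FiniteIndex) {z : X →₀ ℤ}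
    (hz : ∀ γ ∈ H, Finsupp.mapDomain (fun x => γ • x) z = z) (r : Γ ⧸ H → Γ)
    (hr : ∀ q, (r q : Γ ⧸ H) = q) :
    trG X H z = ∑ᶠ q : Γ ⧸ H, Finsupp.mapDomain (fun x => r q • x) z := by
  rw [trG_apply hH]
  refine finsum_congr fun q => trH_rep hz ?_
  rw [hr]
  exact Quotient.out_eq' q

/-- Restriction: an `H`-invariant cycle. -/
theorem trG_res {H S : Subgroup Γ} (hS : S.FiniteIndex) (hSH : S ≤ H) {z : X →₀ ℤ}
    (hz : ∀ γ ∈ H, Finsupp.mapDomain (fun x => γ • x) z = z) :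
    trG X S z = S.relIndex H • trG X H z := by
  classical
  have hH : H.FiniteIndex := Subgroup.finiteIndex_of_le hSH
  let e := Subgroup.quotientEquivProdOfLE hSH
  let _ : Fintype (Γ ⧸ S) := Fintype.ofFinite _
  let _ : Fintype (Γ ⧸ H) := Fintype.ofFinite _
  have hfin : Finite (H ⧸ S.subgroupOf H) := by
    have h1 : Finite ((Γ ⧸ H) × (H ⧸ S.subgroupOf H)) := Finite.of_equiv _ e
    exact Finite.of_injective (fun q => (((1 : Γ) : Γ ⧸ H), q)) fun a b h => (Prod.ext_iff.1 h).2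
  let _ : Fintype (H ⧸ S.subgroupOf H) := Fintype.ofFinite _
  rw [trG_apply hS, trG_apply hH, finsum_eq_sum_of_fintype, finsum_eq_sum_of_fintype]
  have h1 : ∀ q : Γ ⧸ S, Finsupp.mapDomain (fun x => (q.out : Γ) • x) z =
      Finsupp.mapDomain (fun x => ((e q).1.out : Γ) • x) z := by
    intro q
    refine trH_rep hz ?_
    have h2 : (e q).1 = ((q.out : Γ) : Γ ⧸ H) := by
      conv_lhs => rw [← QuotientGroup.out_eq' q]
      rfl
    rw [h2]
    exact (QuotientGroup.out_eq' _).symm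
  rw [Finset.sum_congr rfl fun q _ => h1 q,
    ← Equiv.sum_comp e.symm, Fintype.sum_prod_type]
  simp only [Equiv.apply_symm_apply, Finset.sum_const, Finset.card_univ, ← Finset.smul_sum]
  rw [← Nat.card_eq_fintype_card]
  rfl

/-- Transitivity. -/
theorem trG_tr {H S : Subgroup Γ} (hS : S.FiniteIndex) (hSH : S ≤ H) {z : X →₀ ℤ}
    (hz : ∀ γ ∈ S, Finsupp.mapDomain (fun x => γ • x) z = z) :
    trG X S z = trG X H
      (∑ᶠ q : H ⧸ S.subgroupOf H, Finsupp.mapDomain (fun x => (q.out : Γ) • x) z) := by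
  classical
  have hH : H.FiniteIndex := Subgroup.finiteIndex_of_le hSH
  let e := Subgroup.quotientEquivProdOfLE hSH
  let _ : Fintype (Γ ⧸ S) := Fintype.ofFinite _
  let _ : Fintype (Γ ⧸ H) := Fintype.ofFinite _
  have hfin : Finite (H ⧸ S.subgroupOf H) := by
    have h1 : Finite ((Γ ⧸ H) × (H ⧸ S.subgroupOf H)) := Finite.of_equiv _ e
    exact Finite.of_injective (fun q => (((1 : Γ) : Γ ⧸ H), q)) fun a b h => (Prod.ext_iff.1 h).2
  let _ : Fintype (H ⧸ S.subgroupOf H) := Fintype.ofFinite _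
  rw [trG_apply hS, trG_apply hH, finsum_eq_sum_of_fintype, finsum_eq_sum_of_fintype,
    finsum_eq_sum_of_fintype, ← Equiv.sum_comp e.symm, Fintype.sum_prod_type]
  refine Finset.sum_congr rfl fun p _ => ?_
  have h0 : Finsupp.mapDomain (fun x => (p.out : Γ) • x)
      (∑ q : H ⧸ S.subgroupOf H, Finsupp.mapDomain (fun x => (q.out : Γ) • x) z) =
      ∑ q : H ⧸ S.subgroupOf H, Finsupp.mapDomain (fun x => (p.out : Γ) • x)
        (Finsupp.mapDomain (fun x => (q.out : Γ) • x) z) :=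
    map_sum (Finsupp.mapDomain.addMonoidHom (fun x : X => (p.out : Γ) • x)) _ _
  rw [h0]
  refine Finset.sum_congr rfl fun q _ => ?_
  have h1 : Finsupp.mapDomain (fun x => (p.out : Γ) • x)
      (Finsupp.mapDomain (fun x => (q.out : Γ) • x) z) =
      Finsupp.mapDomain (fun x => ((p.out : Γ) * ((q.out : H) : Γ)) • x) z :=
    (trH_smul _ _ _).symm
  rw [h1]
  refine trH_rep hz ?_
  rw [QuotientGroup.out_eq']
  conv_lhs => rw [← QuotientGroup.out_eq' q]
  rfl

/-- The trace is invariant. -/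
theorem smul_trG {H : Subgroup Γ} (hH : H.FiniteIndex) {z : X →₀ ℤ}
    (hz : ∀ γ ∈ H, Finsupp.mapDomain (fun x => γ • x) z = z) (γ : Γ) :
    Finsupp.mapDomain (fun x => γ • x) (trG X H z) = trG X H z := by
  classical
  let _ : Fintype (Γ ⧸ H) := Fintype.ofFinite _
  have h1 := trG_rep hH hz (fun q => γ * ((γ⁻¹ • q : Γ ⧸ H).out : Γ)) (fun q => by
    have h2 : ((γ * ((γ⁻¹ • q : Γ ⧸ H).out : Γ) : Γ) : Γ ⧸ H) =
        γ • ((((γ⁻¹ • q : Γ ⧸ H).out : Γ)) : Γ ⧸ H) := rfl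
    rw [h2, QuotientGroup.out_eq', smul_inv_smul])
  refine Eq.trans ?_ h1.symm
  rw [trG_apply hH, finsum_eq_sum_of_fintype, finsum_eq_sum_of_fintype]
  have h0 : Finsupp.mapDomain (fun x => γ • x)
      (∑ q : Γ ⧸ H, Finsupp.mapDomain (fun x => (q.out : Γ) • x) z) =
      ∑ q : Γ ⧸ H, Finsupp.mapDomain (fun x => γ • x)
        (Finsupp.mapDomain (fun x => (q.out : Γ) • x) z) :=
    map_sum (Finsupp.mapDomain.addMonoidHom (fun x : X => γ • x)) _ _
  rw [h0, ← Equiv.sum_comp (MulAction.toPerm (γ⁻¹) : Equiv.Perm (Γ ⧸ H))]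
  refine Finset.sum_congr rfl fun q _ => ?_
  rw [trH_smul]
  rfl

end abs

end BE
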