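import Pool.Agent.Lib.MP_f80667_ag.Be.Dat

/-! The Galois correspondence for open subgroups, and the coordinates of invariant points. -/

open ZC Polynomial IntermediateField

namespace BE

section gal

variable {K Ω : Type} [Field K] [CharZero K] [Field Ω] [Algebra K Ω] [IsAlgClosure K Ω]

theorem mem_of_fix (M : IntermediateField K Ω) {x : Ω} (h : ∀ γ ∈ M.fixingSubgroup, γ x = x) :
    x ∈ M := by
  have h1 : x ∈ IntermediateField.fixedField M.fixingSubgroup := by
    rw [IntermediateField.mem_fixedField_iff]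
    exact h
  rwa [InfiniteGalois.fixedField_fixingSubgroup] at h1

omit [CharZero K] [IsAlgClosure K Ω] in
theorem opn_fix (M : IntermediateField K Ω) [FiniteDimensional K M] :
    opn K Ω M.fixingSubgroup := ⟨M, inferInstance, le_rfl⟩

/-- Proof: an open subgroup is closed (Mathlib: `InfiniteGalois`). -/
theorem exists_fix {H : Subgroup (Ω ≃ₐ[K] Ω)} (hH : opn K Ω H) :
    ∃ M : IntermediateField K Ω, FiniteDimensional K M ∧ M.fixingSubgroup = H := by
  obtain ⟨M₀, hM₀, hle⟩ := hH
  have hopen : IsOpen (H : Set (Ω ≃ₐ[K] Ω)) :=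
    Subgroup.isOpen_mono hle (IntermediateField.fixingSubgroup_isOpen M₀)
  have hcl : IsClosed (H : Set (Ω ≃ₐ[K] Ω)) := Subgroup.isClosed_of_isOpen H hopen
  let H' : ClosedSubgroup (Ω ≃ₐ[K] Ω) := ⟨H, hcl⟩
  refine ⟨IntermediateField.fixedField H, ?_, InfiniteGalois.fixingSubgroup_fixedField H'⟩
  have h1 : IntermediateField.fixedField H ≤ M₀ := by
    rw [← InfiniteGalois.fixedField_fixingSubgroup M₀]
    intro x hx
    rw [IntermediateField.mem_fixedField_iff] at hx ⊢
    exact fun γ hγ => hx γ (hle hγ)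
  exact FiniteDimensional.of_injective (IntermediateField.inclusion h1).toLinearMap
    (IntermediateField.inclusion_injective h1)

omit [CharZero K] [IsAlgClosure K Ω] in
theorem fix_le {M N : IntermediateField K Ω} (h : M ≤ N) :
    N.fixingSubgroup ≤ M.fixingSubgroup :=
  IntermediateField.fixingSubgroup_le h

theorem le_of_fix_le {M N : IntermediateField K Ω} (h : N.fixingSubgroup ≤ M.fixingSubgroup) :
    M ≤ N := by
  intro x hx
  refine mem_of_fix N fun γ hγ => ?_
  exact (IntermediateField.mem_fixingSubgroup_iff M γ).1 (h hγ) x hx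

theorem relIndex_fix {M N : IntermediateField K Ω} (h : M ≤ N) [FiniteDimensional K N] :
    N.fixingSubgroup.relIndex M.fixingSubgroup * Module.finrank K M = Module.finrank K N := by
  rw [IntermediateField.finrank_eq_fixingSubgroup_index Ω M,
    IntermediateField.finrank_eq_fixingSubgroup_index Ω N]
  exact Subgroup.relIndex_mul_index (fix_le h)

omit [CharZero K] [IsAlgClosure K Ω] in
theorem opn_top : opn K Ω ⊤ := ⟨⊥, inferInstance, le_top⟩

omit [CharZero K] [IsAlgClosure K Ω] in
theorem opn_mono (H H' : Subgroup (Ω ≃ₐ[K] Ω)) (h : opn K Ω H) (h' : H ≤ H') : opn K Ω H' := by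
  obtain ⟨M, hM, hle⟩ := h
  exact ⟨M, hM, hle.trans h'⟩

/-- Proof: the normal closure of `M` is finite over `K`. -/
theorem opn_core (H : Subgroup (Ω ≃ₐ[K] Ω)) (h : opn K Ω H) : opn K Ω H.normalCore := by
  obtain ⟨M, hM, hle⟩ := h
  refine ⟨normalClosure K M Ω, normalClosure.is_finiteDimensional K M Ω, ?_⟩
  rw [Subgroup.normal_le_normalCore]
  exact (fix_le (IntermediateField.le_normalClosure M)).trans hle

theorem opn_fin (H : Subgroup (Ω ≃ₐ[K] Ω)) (h : opn K Ω H) : H.FiniteIndex := by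
  obtain ⟨M, hM, hle⟩ := h
  have h1 : M.fixingSubgroup.FiniteIndex := ⟨by
    rw [← IntermediateField.finrank_eq_fixingSubgroup_index Ω M]
    exact Module.finrank_pos.ne'⟩
  exact Subgroup.finiteIndex_of_le hle

end gal

section pts

variable {F : Type} [Field F] {K : Type} [Field K] [CharZero K] [Algebra F K] {Ω : Type} [Field Ω]
  [Algebra K Ω] [Algebra F Ω] [IsScalarTower F K Ω] [IsAlgClosure K Ω]

/-- A point is `0` or affine. -/
theorem Pt.cases' {W : WeierstrassCurve F} {L : Type} [Field L] [Algebra F L] (P : Pt W L) :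
    P = 0 ∨ ∃ (x y : L) (h : (W.baseChange L).toAffine.Nonsingular x y), P = Pt.aff x y h := by
  match P with
  | .zero => exact Or.inl rfl
  | .some x y h => exact Or.inr ⟨x, y, h, rfl⟩

omit [CharZero K] [IsAlgClosure K Ω] in
theorem Gal_smul_aff {W : WeierstrassCurve F} {x y : Ω}
    (h : (W.baseChange Ω).toAffine.Nonsingular x y) (γ : Ω ≃ₐ[K] Ω) :
    γ • Pt.aff x y h = Pt.aff x y h ↔ γ x = x ∧ γ y = y := by
  have h1 : γ • Pt.aff x y h = Pt.aff (γ x) (γ y)
      ((WeierstrassCurve.Affine.baseChange_nonsingular W.toAffine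
        (γ.restrictScalars F : Ω →ₐ[F] Ω).injective x y).mpr h) := rfl
  rw [h1]
  constructor
  · intro h2
    exact WeierstrassCurve.Affine.Point.some.inj h2
  · rintro ⟨h2, h3⟩
    simp only [Pt.aff, h2, h3]

/-- A point is invariant under the Galois group of `Ω / M` iff its coordinates are in `M`. -/
theorem fix_aff {W : WeierstrassCurve F} (M : IntermediateField K Ω) {x y : Ω}
    (h : (W.baseChange Ω).toAffine.Nonsingular x y) :
    (∀ γ ∈ M.fixingSubgroup, γ • Pt.aff x y h = Pt.aff x y h) ↔ x ∈ M ∧ y ∈ M := by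
  constructor
  · intro h1
    exact ⟨mem_of_fix M fun γ hγ => ((Gal_smul_aff h γ).1 (h1 γ hγ)).1,
      mem_of_fix M fun γ hγ => ((Gal_smul_aff h γ).1 (h1 γ hγ)).2⟩
  · rintro ⟨hx, hy⟩ γ hγ
    rw [IntermediateField.mem_fixingSubgroup_iff] at hγ
    exact (Gal_smul_aff h γ).2 ⟨hγ x hx, hγ y hy⟩

/-- Invariant points are points over `K`. -/
theorem exists_desc {W : WeierstrassCurve F} {P : Pt W Ω} (h : ∀ γ : Ω ≃ₐ[K] Ω, γ • P = P) :
    ∃ P₀ : Pt W K, Pt.map W (IsScalarTower.toAlgHom F K Ω) P₀ = P := by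
  rcases Pt.cases' P with rfl | ⟨x, y, hP, rfl⟩
  · exact ⟨0, map_zero _⟩
  · obtain ⟨x₀, hx₀⟩ := (InfiniteGalois.mem_range_algebraMap_iff_fixed (k := K) x).2
      fun γ => ((Gal_smul_aff hP γ).1 (h γ)).1
    obtain ⟨y₀, hy₀⟩ := (InfiniteGalois.mem_range_algebraMap_iff_fixed (k := K) y).2
      fun γ => ((Gal_smul_aff hP γ).1 (h γ)).2
    subst hx₀
    subst hy₀
    have h1 : (W.baseChange K).toAffine.Nonsingular x₀ y₀ :=
      (WeierstrassCurve.Affine.baseChange_nonsingular W.toAffine
        (IsScalarTower.toAlgHom F K Ω).injective x₀ y₀).mp hP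
    exact ⟨Pt.aff x₀ y₀ h1, rfl⟩

/-- Every point is defined over a finite extension. -/
theorem exists_op {W : WeierstrassCurve F} (P : Pt W Ω) :
    ∃ M : IntermediateField K Ω, FiniteDimensional K M ∧ ∀ γ ∈ M.fixingSubgroup, γ • P = P := by
  rcases Pt.cases' P with rfl | ⟨x, y, hP, rfl⟩
  · exact ⟨⊥, inferInstance, fun γ _ => smul_zero γ⟩
  · have halg : Algebra.IsAlgebraic K Ω := IsAlgClosure.isAlgebraic
    refine ⟨IntermediateField.adjoin K {x, y}, ?_, ?_⟩
    · exact IntermediateField.finiteDimensional_adjoin fun z _ =>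
        (halg.isAlgebraic z).isIntegral
    · rw [fix_aff]
      exact ⟨IntermediateField.subset_adjoin K _ (by simp),
        IntermediateField.subset_adjoin K _ (by simp)⟩

end pts

end BE
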