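import Mathlib

/-!
The formal properties of the classes of the points of the surface `X = (E₁ × E₂) / ι`.

`Γ` is the Galois group of `Ω / K`, `A = E₁(Ω)`, `B = E₂(Ω)`, `X = X(Ω)`, `px u y = [(u, y)]`.
For an open subgroup `H` (the Galois group of `Ω / M`, `M / K` finite) and an `H`-invariant cycle `z`,
`cl H z ∈ G` is the class of the trace of `z` from `M` to `K`.
-/

namespace BE

variable {Γ A B X : Type} [Group Γ] [AddCommGroup A] [AddCommGroup B] [DistribMulAction Γ A]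
  [DistribMulAction Γ B] [MulAction Γ X]

/-- The point `t` and the quotient map. -/
structure Dt (Γ A B X : Type) [Group Γ] [AddCommGroup A] [AddCommGroup B] [DistribMulAction Γ A]
    [DistribMulAction Γ B] [MulAction Γ X] where
  /-- the point `t` -/
  t : A
  two_t : t + t = 0
  t_ne : t ≠ 0
  smul_t : ∀ γ : Γ, γ • t = t
  /-- the quotient map -/
  px : A → B → X
  px_eq : ∀ u y u' y', px u y = px u' y' ↔ (u' = u ∧ y' = y) ∨ (u' = u + t ∧ y' = -y)
  smul_px : ∀ (γ : Γ) u y, γ • px u y = px (γ • u) (γ • y)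

/-- The action of `γ` on cycles. -/
noncomputable def ac (γ : Γ) (z : X →₀ ℤ) : X →₀ ℤ := Finsupp.mapDomain (γ • ·) z

namespace Dt

variable (D : Dt Γ A B X)

/-- The cycle `[(u, y)]`. -/
noncomputable def s (u : A) (y : B) : X →₀ ℤ := Finsupp.single (D.px u y) 1

/-- `[u]` is a point of `E₁ / t` over the fixed field of `H`. -/
def UU (H : Subgroup Γ) (u : A) : Prop := ∀ γ ∈ H, γ • u = u ∨ γ • u = u + D.t

/-- `[(u, y)]` is a point of `X` over the fixed field of `H`. -/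
def PP (H : Subgroup Γ) (u : A) (y : B) : Prop := ∀ γ ∈ H, γ • D.px u y = D.px u y

end Dt

open Classical in
/-- The action of `γ` on the fibre over `[u]`: the element `y'` with `γ [(u, y)] = [(u, y')]`. -/
noncomputable def tw (u : A) (γ : Γ) (y : B) : B := if γ • u = u then γ • y else -(γ • y)

/-- The formal properties of the classes. -/
structure Th (D : Dt Γ A B X) (G : Type) [AddCommGroup G] where
  /-- open subgroups -/
  op : Subgroup Γ → Prop
  op_top : op ⊤
  op_mono : ∀ H H', op H → H ≤ H' → op H'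
  op_core : ∀ H, op H → op H.normalCore
  op_fin : ∀ H, op H → H.FiniteIndex
  /-- the class of the trace of a cycle -/
  cl : Subgroup Γ → (X →₀ ℤ) →+ G
  /-- restriction of a cycle to a larger field -/
  res : ∀ (H T : Subgroup Γ) (z : X →₀ ℤ), op T → T ≤ H → (∀ γ ∈ H, ac γ z = z) →
    cl T z = T.relIndex H • cl H z
  /-- transitivity of the trace -/
  tr : ∀ (H T : Subgroup Γ) (z : X →₀ ℤ), op T → T ≤ H → (∀ γ ∈ T, ac γ z = z) →
    cl T z = cl H (∑ᶠ q : H ⧸ T.subgroupOf H, ac (q.out : Γ) z)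
  /-- lines in the fibres -/
  pB : ∀ (H : Subgroup Γ) (u : A) (y₁ y₂ : B), op H → D.UU H u →
    (∀ γ ∈ H, (γ • D.px u y₁ = D.px u y₁ ∧ γ • D.px u y₂ = D.px u y₂) ∨
      (γ • D.px u y₁ = D.px u y₂ ∧ γ • D.px u y₂ = D.px u y₁)) →
    cl H (D.s u y₁ + D.s u y₂) = cl H (D.s u (y₁ + y₂) + D.s u 0)
  /-- lines in the orbits of `E₁` -/
  pA : ∀ (H : Subgroup Γ) (u a₁ a₂ : A) (y : B), op H → D.PP H u y →
    (∀ γ ∈ H, (γ • a₁ = a₁ ∧ γ • a₂ = a₂) ∨ (γ • a₁ = a₂ ∧ γ • a₂ = a₁)) →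
    cl H (D.s (u + a₁) y + D.s (u + a₂) y) = cl H (D.s (u + a₁ + a₂) y + D.s u y)

namespace Th

variable {D : Dt Γ A B X} {G : Type} [AddCommGroup G] (T : Th D G)

/-- The class of `[(u, y)] - [(u, 0)]`. -/
noncomputable def f (H : Subgroup Γ) (u : A) (y : B) : G := T.cl H (D.s u y - D.s u 0)

/-- The local structure of the Albanese kernel: every class comes from a `K`-point `y` of `E₂`, and all
classes have order `2`. -/
def Loc : Prop :=
  (∀ (H : Subgroup Γ) (u : A) (y : B), T.op H → D.PP H u y →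
    ∃ y₀ : B, (∀ γ : Γ, γ • y₀ = y₀) ∧ T.f H u y = T.f ⊤ 0 y₀) ∧
  ∀ y₀ : B, (∀ γ : Γ, γ • y₀ = y₀) → 2 • T.f ⊤ 0 y₀ = 0

end Th

end BE
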