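import Pool.Agent.Lib.MP_f80667_ag.Be.Adl
import Pool.Agent.Lib.MP_f80667_ag.Be.Th

/-!
The Galois actions on the points and the data of the calculus for the surface `X` over a field `K` with
algebraic closure `Ω`.
-/

open ZC Polynomial IsDedekindDomain NumberField

namespace BE

section act

variable {F : Type} [Field F] {K : Type} [Field K] [Algebra F K] {Ω : Type} [Field Ω] [Algebra K Ω]
  [Algebra F Ω] [IsScalarTower F K Ω]

theorem Pt.map_id' (W : WeierstrassCurve F) {L : Type} [Field L] [Algebra F L] (P : Pt W L) :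
    Pt.map W (AlgHom.id F L) P = P := by
  cases P <;> rfl

theorem Pt.map_map' (W : WeierstrassCurve F) {L M N : Type} [Field L] [Field M] [Field N]
    [Algebra F L] [Algebra F M] [Algebra F N] (σ : L →ₐ[F] M) (τ : M →ₐ[F] N) (P : Pt W L) :
    Pt.map W τ (Pt.map W σ P) = Pt.map W (τ.comp σ) P := by
  cases P <;> rfl

/-- The action on the points of a curve. -/
noncomputable instance Pt.act (W : WeierstrassCurve F) : DistribMulAction (Ω ≃ₐ[K] Ω) (Pt W Ω) where
  smul σ P := Pt.map W (σ.restrictScalars F : Ω →ₐ[F] Ω) P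
  one_smul P := Pt.map_id' W P
  mul_smul σ τ P := (Pt.map_map' W (τ.restrictScalars F : Ω →ₐ[F] Ω)
    (σ.restrictScalars F : Ω →ₐ[F] Ω) P).symm
  smul_zero σ := map_zero (Pt.map W (σ.restrictScalars F : Ω →ₐ[F] Ω))
  smul_add σ P Q := map_add (Pt.map W (σ.restrictScalars F : Ω →ₐ[F] Ω)) P Q

theorem Pt.smul_def (W : WeierstrassCurve F) (σ : Ω ≃ₐ[K] Ω) (P : Pt W Ω) :
    σ • P = Pt.map W (σ.restrictScalars F : Ω →ₐ[F] Ω) P := rfl

/-- The action on the points of the surface. -/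
noncomputable instance Cf.actX (C : Cf F) : MulAction (Ω ≃ₐ[K] Ω) (C.X.pt Ω) where
  smul σ x := C.X.act σ x
  one_smul x := by
    induction x using Quotient.inductionOn with
    | h P => exact congrArg (Quotient.mk (C.setX Ω)) (Prod.ext (one_smul (Ω ≃ₐ[K] Ω) P.1)
        (one_smul (Ω ≃ₐ[K] Ω) P.2))
  mul_smul σ τ x := by
    induction x using Quotient.inductionOn with
    | h P => exact congrArg (Quotient.mk (C.setX Ω)) (Prod.ext (mul_smul σ τ P.1)
        (mul_smul σ τ P.2))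

theorem Cf.smulX (C : Cf F) (σ : Ω ≃ₐ[K] Ω) (x : C.X.pt Ω) : σ • x = C.X.act σ x := rfl

theorem Cf.px_eq_iff (C : Cf F) (u u' : Pt C.W₁ Ω) (y y' : Pt C.W₂ Ω) :
    C.px u y = C.px u' y' ↔ (u' = u ∧ y' = y) ∨ (u' = u + C.t Ω ∧ y' = -y) := by
  refine (Quotient.eq (r := C.setX Ω) (x := (u, y)) (y := (u', y'))).trans ?_
  change ((u', y') = (u, y) ∨ (u', y') = (u + C.t Ω, -y)) ↔ _
  rw [Prod.mk.injEq, Prod.mk.injEq]

variable (K Ω) in
/-- The data of the calculus. -/
noncomputable def Cf.dt (C : Cf F) : Dt (Ω ≃ₐ[K] Ω) (Pt C.W₁ Ω) (Pt C.W₂ Ω) (C.X.pt Ω) where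
  t := C.t Ω
  two_t := C.two_t Ω
  t_ne := WeierstrassCurve.Affine.Point.some_ne_zero _
  smul_t _ := C.map_t _
  px := C.px
  px_eq u y u' y' := C.px_eq_iff u u' y y'
  smul_px _ _ _ := rfl

variable (K Ω) in
/-- The open subgroups. -/
def opn (H : Subgroup (Ω ≃ₐ[K] Ω)) : Prop :=
  ∃ M : IntermediateField K Ω, FiniteDimensional K M ∧ M.fixingSubgroup ≤ H

end act

end BE
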