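import Pool.Agent.Lib.MP_f80667_ag.Be.Adl
import Pool.Agent.Lib.MP_f80667_ag.Be.Dat

/-!
The definitions for the statement on zero-cycles on bielliptic surfaces over a number field `F`
(the curves, the surface and the local definitions are in `Defs.lean` and `Adl.lean`).

* `Zc V K`: the zero-cycles of degree `0` over `K`, `Zc.cl`, `Zc.clN`: the classes modulo rational
  equivalence, respectively rational equivalence and norms.
* `Cf.psh`: the push-forward from `X` to `B`. `Cf.fz y`: the cycle `[(0, y)] - [(0, 0)]`, `y ∈ E₂(K)`.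
* `Fam V`: the families of zero-cycles of degree `0` over all places of `F`, with components `z.f v`
  at the finite and `z.i v` at the infinite places, `Fam.cl`: the class in `F^1_A(V)`. `Cf.psA`, `Cf.fzA`:
  the families of the push-forwards and of the cycles `fz`.
* `Cf.Ort z`: the family `z` is orthogonal to the classes `A_c`, `c` prime to `g`: the number of the
  nontrivial symbols `(θ_e(z), c(e))` is finite and even.
* `Cf.PtA`: the families of points of `E₂` over all completions, `Cf.dgP y`: the family given by a point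
  of `E₂(F)`. `Cf.DlA c₀ y`: the class of `y v` in `(L ⊗ F_v)^*` modulo squares is the class of `c₀` for all
  `v`.
* `Cf.Slm`: every `c₀` in `L^*` which comes from `E₂(F_v)` for all `v` comes from `E₂(F)`; in other
  words: the Tate-Shafarevich group of `E₂` has no element of order `2`.
* `ImDe z`: `z` is in the image of `Δ`. `Cf.IsPs z z'`: `z'` is the push-forward of `z`.
-/

open ZC Polynomial IsDedekindDomain NumberField

namespace BE

section general

variable {F : Type} [Field F] (V : Vr F) (K : Type) [Field K] [Algebra F K]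

/-- The zero-cycles of degree `0` over `K`. -/
def Zc : Type := Dz V K

variable {V K}

/-- The zero-cycle as an element of `ℤ[V(Ω)]`. -/
def Zc.cy (z : Zc V K) : V.pt (AlgebraicClosure K) →₀ ℤ := z.1

/-- The class modulo rational equivalence. -/
noncomputable def Zc.cl (z : Zc V K) : Gp V K := Quotient.mk _ z

/-- The class modulo rational equivalence and norms. -/
noncomputable def Zc.clN (z : Zc V K) : Gb V K := Quotient.mk _ z

end general

section surface

variable {F : Type} [Field F] (C : Cf F) (K : Type) [Field K] [Algebra F K]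

variable {K} in
theorem psh_mem (z : Zc C.X K) : Finsupp.mapDomain (C.pr _) z.cy ∈ Dz C.B K := by
  refine ⟨fun σ => ?_, ?_⟩
  · rw [← Finsupp.mapDomain_comp]
    have h1 : C.B.act σ ∘ C.pr _ = C.pr _ ∘ C.X.act σ := funext fun x => by
      induction x using Quotient.inductionOn with
      | h P => rfl
    rw [h1, Finsupp.mapDomain_comp]
    exact congrArg _ (z.2.1 σ)
  · have h1 : (C.B.deg (AlgebraicClosure K)).comp (Finsupp.mapDomain.addMonoidHom (C.pr _)) =
        C.X.deg (AlgebraicClosure K) := by
      refine Finsupp.addHom_ext fun x n => ?_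
      simp [Vr.deg, Finsupp.mapDomain_single]
    have h2 : C.X.deg (AlgebraicClosure K) z.1 = 0 := z.2.2
    rw [← h1] at h2
    exact h2

theorem fz_mem (y : Pt C.W₂ K) : C.fc K y ∈ Dz C.X K := by
  have hfix : ∀ γ : AlgebraicClosure K ≃ₐ[K] AlgebraicClosure K,
      Pt.map C.W₂ (γ.restrictScalars F : AlgebraicClosure K →ₐ[F] AlgebraicClosure K)
        (Pt.map C.W₂ (IsScalarTower.toAlgHom F K (AlgebraicClosure K)) y) =
      Pt.map C.W₂ (IsScalarTower.toAlgHom F K (AlgebraicClosure K)) y := by
    intro γ
    rw [Pt.map_map']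
    congr 1
    congr 1
    ext a
    change γ (algebraMap K (AlgebraicClosure K) a) = algebraMap K (AlgebraicClosure K) a
    exact γ.commutes a
  have e : ∀ (γ : AlgebraicClosure K ≃ₐ[K] AlgebraicClosure K) (v : Pt C.W₂ (AlgebraicClosure K)),
      Pt.map C.W₂ (γ.restrictScalars F : AlgebraicClosure K →ₐ[F] AlgebraicClosure K) v = v →
      C.X.act γ (C.px 0 v) = C.px 0 v := by
    intro γ v hv
    change C.px (Pt.map C.W₁ (γ.restrictScalars F : AlgebraicClosure K →ₐ[F] AlgebraicClosure K) 0)
      (Pt.map C.W₂ (γ.restrictScalars F : AlgebraicClosure K →ₐ[F] AlgebraicClosure K) v) = _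
    rw [map_zero, hv]
  refine ⟨fun γ => ?_, ?_⟩
  · have h1 := (Finsupp.mapDomain.addMonoidHom (M := ℤ) (C.X.act γ)).map_sub
      (Finsupp.single (C.px 0 (Pt.map C.W₂
        (IsScalarTower.toAlgHom F K (AlgebraicClosure K)) y)) 1) (Finsupp.single (C.px 0 0) 1)
    rw [Cf.fc]
    refine h1.trans ?_
    rw [Finsupp.mapDomain.addMonoidHom_apply, Finsupp.mapDomain.addMonoidHom_apply,
      Finsupp.mapDomain_single, Finsupp.mapDomain_single, e γ _ (hfix γ), e γ _ (map_zero _)]
  · change C.X.deg (AlgebraicClosure K) (C.fc K y) = 0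
    rw [Cf.fc, map_sub, Vr.deg, Finsupp.liftAddHom_apply_single, Finsupp.liftAddHom_apply_single]
    exact sub_self _

namespace Cf

variable {K} in
/-- The push-forward to `B`. -/
noncomputable def psh (z : Zc C.X K) : Zc C.B K := ⟨_, psh_mem C z⟩

/-- The cycle `[(0, y)] - [(0, 0)]`. -/
noncomputable def fz (y : Pt C.W₂ K) : Zc C.X K := ⟨_, fz_mem C K y⟩

/-- The kernel of the push-forward on zero-cycles of degree `0` modulo rational equivalence consists of
the classes of the cycles `fz y`, `y ∈ E₂(K)`, it is killed by `2`, and the class is additive. -/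
def Loc : Prop :=
  (∀ z : Zc C.X K, (C.psh z).cl = 0 → ∃ y, z.cl = (C.fz K y).cl) ∧
  (∀ y, 2 • (C.fz K y).cl = 0) ∧ ∀ y y', (C.fz K (y + y')).cl = (C.fz K y).cl + (C.fz K y').cl

/-- The same modulo rational equivalence and norms. -/
def LocN : Prop :=
  (∀ z : Zc C.X K, (C.psh z).clN = 0 → ∃ y, z.clN = (C.fz K y).clN) ∧
  (∀ y, 2 • (C.fz K y).clN = 0) ∧ ∀ y y', (C.fz K (y + y')).clN = (C.fz K y).clN + (C.fz K y').clN

variable {K} in
/-- The monic irreducible factor `q` of `g` over `K` has a nontrivial symbol. -/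
def Nts (z : Zc C.X K) (c : F[X]) (q : K[X]) : Prop := q ∈ C.Fl K z.cy c

end Cf

end surface

section nf

variable {F : Type} [Field F] [NumberField F]

/-- The polynomials over the completion at a finite place. -/
def PF (v : HeightOneSpectrum (𝓞 F)) : Type := (FK F v)[X]

/-- The polynomials over the completion at an infinite place. -/
def PI (v : InfinitePlace F) : Type := (IK F v)[X]

variable (V : Vr F)

/-- The families of zero-cycles of degree `0` over all places of `F`. -/
def Fam : Type :=
  (∀ v : HeightOneSpectrum (𝓞 F), Zc V (FK F v)) × ∀ v : InfinitePlace F, Zc V (IK F v)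

variable {V}

/-- The component at a finite place. -/
def Fam.f (z : Fam V) (v : HeightOneSpectrum (𝓞 F)) : Zc V (FK F v) := z.1 v

/-- The component at an infinite place. -/
def Fam.i (z : Fam V) (v : InfinitePlace F) : Zc V (IK F v) := z.2 v

/-- The class in `F^1_A(V)`. -/
noncomputable def Fam.cl (z : Fam V) : FA V := (fun v => (z.f v).cl, fun v => (z.i v).clN)

/-- `c'` is the family of the base changes of `c`. -/
def IsBcF (c : Zc V F) (c' : Fam V) : Prop :=
  (∀ v, (c'.f v).cy = bc (FK F v) c.cy) ∧ ∀ v, (c'.i v).cy = bc (IK F v) c.cy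

/-- `z` is in the image of `Δ`: there is `x` in the completion of `F^1(V)` such that for every `m` there
is a zero-cycle `c` of degree `0` over `F` which represents `x` modulo `m` and whose family of base
changes represents `z` modulo `m`. -/
def ImDe (z : LHat (FA V)) : Prop :=
  ∃ x : LHat (Gp V F), ∀ m : ℕ+, ∃ (c : Zc V F) (c' : Fam V), IsBcF c c' ∧
    x.Rep m c.cl ∧ z.Rep m c'.cl

namespace Cf

variable (C : Cf F)

/-- The push-forward to `B`. -/
noncomputable def psA (z : Fam C.X) : Fam C.B := (fun v => C.psh (z.f v), fun v => C.psh (z.i v))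

/-- `z'` is the push-forward of `z`. -/
def IsPs (z : LHat (FA C.X)) (z' : LHat (FA C.B)) : Prop :=
  ∀ (m : ℕ+) (c : Fam C.X), z.Rep m c.cl → z'.Rep m (C.psA c).cl

/-- The families of points of `E₂` over the completions. -/
def PtA : Type :=
  (∀ v : HeightOneSpectrum (𝓞 F), Pt C.W₂ (FK F v)) × ∀ v : InfinitePlace F, Pt C.W₂ (IK F v)

variable {C}

/-- The component at a finite place. -/
def PtA.f (y : C.PtA) (v : HeightOneSpectrum (𝓞 F)) : Pt C.W₂ (FK F v) := y.1 v

/-- The component at an infinite place. -/
def PtA.i (y : C.PtA) (v : InfinitePlace F) : Pt C.W₂ (IK F v) := y.2 v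

variable (C)

/-- The family given by a point of `E₂(F)`. -/
noncomputable def dgP (y : Pt C.W₂ F) : C.PtA := (fun v => C.toK (FK F v) y, fun v => C.toK (IK F v) y)

/-- The family of the cycles `fz`. -/
noncomputable def fzA (y : C.PtA) : Fam C.X := (fun v => C.fz _ (y.f v), fun v => C.fz _ (y.i v))

/-- The class of `y` modulo squares is the class of `c₀` at all places. -/
def DlA (c₀ : F[X]) (y : C.PtA) : Prop :=
  (∀ v, C.Dl (FK F v) c₀ (y.f v)) ∧ ∀ v, C.Dl (IK F v) c₀ (y.i v)

/-- Every element of the Selmer group comes from `E₂(F)`. -/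
def Slm : Prop := ∀ (c₀ : F[X]) (y : C.PtA), IsCoprime c₀ C.g → C.DlA c₀ y → ∃ y', C.Dl F c₀ y'

/-- The nontrivial symbols at the finite places. -/
def NtF (z : Fam C.X) (c : F[X]) : Set (Σ v : HeightOneSpectrum (𝓞 F), PF v) :=
  {p | C.Nts (z.f p.1) c p.2}

/-- The nontrivial symbols at the infinite places. -/
def NtI (z : Fam C.X) (c : F[X]) : Set (Σ v : InfinitePlace F, PI v) :=
  {p | C.Nts (z.i p.1) c p.2}

/-- The family `z` is orthogonal to the classes `A_c`. -/
def Ort (z : Fam C.X) : Prop :=
  ∀ c : F[X], IsCoprime c C.g → (C.NtF z c).Finite ∧ (C.NtI z c).Finite ∧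
    Even ((C.NtF z c).ncard + (C.NtI z c).ncard)

end Cf

end nf

end BE
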