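import Pool.Agent.Lib.MP_f80667_ag.Be.Top
import Pool.Agent.Lib.MP_f80667_ag.Fa.Adl

/-! The groups of classes of families of cycles. -/

open ZC Polynomial IntermediateField IsDedekindDomain NumberField

namespace BE

section grp

variable {F : Type} [Field F] {V V' : Vr F} {K : Type} [Field K] [Algebra F K]

theorem Gp.cls_eq {c c' : Dz V K} : Gp.cls c = Gp.cls c' ↔ Eqv V K c.1 c'.1 := by
  refine (QuotientAddGroup.eq (s := (V.ratEq K (AlgebraicClosure K)).addSubgroupOf (Dz V K))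
    (a := c) (b := c')).trans ?_
  rw [AddSubgroup.mem_addSubgroupOf, Eqv, ← neg_mem_iff]
  have : -(((-c + c' : Dz V K)) : V.pt (AlgebraicClosure K) →₀ ℤ) = c.1 - c'.1 := by
    change -(-c.1 + c'.1) = c.1 - c'.1
    abel
  rw [this]

theorem Gb.cls_eq {c c' : Dz V K} : Gb.cls c = Gb.cls c' ↔ EqvN V K c.1 c'.1 := by
  refine (QuotientAddGroup.eq (s := (V.ratEq K (AlgebraicClosure K) ⊔
    V.nrm K (AlgebraicClosure K)).addSubgroupOf (Dz V K)) (a := c) (b := c')).trans ?_
  rw [AddSubgroup.mem_addSubgroupOf, EqvN, ← neg_mem_iff]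
  have : -(((-c + c' : Dz V K)) : V.pt (AlgebraicClosure K) →₀ ℤ) = c.1 - c'.1 := by
    change -(-c.1 + c'.1) = c.1 - c'.1
    abel
  rw [this]

variable (V K) in
/-- The class as a homomorphism. -/
noncomputable def Gp.clsH : Dz V K →+ Gp V K := QuotientAddGroup.mk' _

variable (V K) in
/-- The class as a homomorphism. -/
noncomputable def Gb.clsH : Dz V K →+ Gb V K := QuotientAddGroup.mk' _

theorem Gp.cls_surj (x : Gp V K) : ∃ c, Gp.cls c = x := Quotient.exists_rep x

theorem Gb.cls_surj (x : Gb V K) : ∃ c, Gb.cls c = x := Quotient.exists_rep x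

/-- The map of groups of classes. -/
noncomputable def Gp.map (φ : Dz V K →+ Dz V' K)
    (h : ∀ c : Dz V K, c.1 ∈ V.ratEq K (AlgebraicClosure K) →
      (φ c).1 ∈ V'.ratEq K (AlgebraicClosure K)) : Gp V K →+ Gp V' K :=
  QuotientAddGroup.map _ _ φ fun c hc => h c hc

theorem Gp.map_cls (φ : Dz V K →+ Dz V' K) (h) (c : Dz V K) :
    Gp.map φ h (Gp.cls c) = Gp.cls (φ c) := rfl

/-- The map of groups of classes. -/
noncomputable def Gb.map (φ : Dz V K →+ Dz V' K)
    (h : ∀ c : Dz V K, c.1 ∈ V.ratEq K (AlgebraicClosure K) ⊔ V.nrm K (AlgebraicClosure K) →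
      (φ c).1 ∈ V'.ratEq K (AlgebraicClosure K) ⊔ V'.nrm K (AlgebraicClosure K)) :
    Gb V K →+ Gb V' K :=
  QuotientAddGroup.map _ _ φ fun c hc => h c hc

theorem Gb.map_cls (φ : Dz V K →+ Dz V' K) (h) (c : Dz V K) :
    Gb.map φ h (Gb.cls c) = Gb.cls (φ c) := rfl

end grp

section fam

variable {F : Type} [Field F] [NumberField F] {V : Vr F}

variable (V) in
/-- The class of a family as a homomorphism. -/
noncomputable def clH : AdF V →+ FA V where
  toFun := clA
  map_zero' := Prod.ext (funext fun v => map_zero (Gp.clsH V (FK F v)))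
    (funext fun v => map_zero (Gb.clsH V (IK F v)))
  map_add' c c' := Prod.ext (funext fun v => map_add (Gp.clsH V (FK F v)) _ _)
    (funext fun v => map_add (Gb.clsH V (IK F v)) _ _)

theorem clH_apply (c : AdF V) : clH V c = clA c := rfl

theorem clA_surj (x : FA V) : ∃ c : AdF V, clA c = x := by
  choose a ha using fun v => Gp.cls_surj (x.1 v)
  choose b hb using fun v => Gb.cls_surj (x.2 v)
  exact ⟨(a, b), Prod.ext (funext ha) (funext hb)⟩

theorem clA_eq {c c' : AdF V} : clA c = clA c' ↔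
    (∀ v, Eqv V (FK F v) (c.1 v).1 (c'.1 v).1) ∧ ∀ v, EqvN V (IK F v) (c.2 v).1 (c'.2 v).1 := by
  constructor
  · intro h
    exact ⟨fun v => Gp.cls_eq.1 (congrFun (congrArg Prod.fst h) v),
      fun v => Gb.cls_eq.1 (congrFun (congrArg Prod.snd h) v)⟩
  · rintro ⟨h1, h2⟩
    exact Prod.ext (funext fun v => Gp.cls_eq.2 (h1 v)) (funext fun v => Gb.cls_eq.2 (h2 v))

end fam

section hat

variable {G : Type} [AddCommGroup G]

/-- Two representatives differ by a multiple. -/
theorem rep_sub {x : LHat G} {m : ℕ+} {a b : G} (ha : x.Rep m a) (hb : x.Rep m b) :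
    ∃ w : G, a = b + (m : ℕ) • w := by
  have h1 : (QuotientAddGroup.mk b : G ⧸ mlt G m) = QuotientAddGroup.mk a := by
    rw [LHat.Rep] at ha hb
    rw [← ha, ← hb]
  rw [QuotientAddGroup.eq] at h1
  obtain ⟨w, hw⟩ := h1
  refine ⟨w, ?_⟩
  have h2 : (m : ℕ) • w = -b + a := hw
  rw [h2]
  abel

theorem rep_add {x : LHat G} {m : ℕ+} {a : G} (ha : x.Rep m a) (w : G) :
    x.Rep m (a + (m : ℕ) • w) := by
  rw [LHat.Rep] at ha ⊢
  rw [ha, QuotientAddGroup.eq]
  refine ⟨w, ?_⟩
  change (m : ℕ) • w = -a + (a + (m : ℕ) • w)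
  abel

/-- Translation by a constant. -/
def LHat.tr (x : LHat G) (g : G) : LHat G :=
  ⟨fun m => x.1 m + QuotientAddGroup.mk g, by
    intro m m' hm a h
    have h1 : x.1 m' = QuotientAddGroup.mk (a - g) := by
      rw [QuotientAddGroup.mk_sub, ← h, add_sub_cancel_right]
    have h2 := x.2 m m' hm (a - g) h1
    change x.1 m + QuotientAddGroup.mk g = _
    rw [h2, QuotientAddGroup.mk_sub, sub_add_cancel]⟩

theorem rep_tr {x : LHat G} {m : ℕ+} {a : G} (ha : x.Rep m a) (g : G) :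
    (LHat.tr x g).Rep m (a + g) := by
  rw [LHat.Rep] at ha ⊢
  change x.1 m + QuotientAddGroup.mk g = _
  rw [ha]
  rfl

end hat

end BE
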