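import Pool.Agent.Lib.MP_f80667_ag.Be.ThK

/-! The kernel of the push-forward to `B` is generated by the classes `f H u y`; from the local structure to the
statement on cycles. -/

open ZC Polynomial

namespace BE

section abs

variable {Γ X : Type} [Group Γ] [MulAction Γ X]

/-- The trace of a point from its stabiliser is the sum of the points of its orbit. -/
theorem trG_single_apply (x x' : X) (hH : (MulAction.stabilizer Γ x).FiniteIndex)
    [Decidable (x' ∈ MulAction.orbit Γ x)] :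
    trG X (MulAction.stabilizer Γ x) (Finsupp.single x 1) x' =
      if x' ∈ MulAction.orbit Γ x then 1 else 0 := by
  classical
  rw [trG_apply hH]
  have := hH
  let _ : Fintype (Γ ⧸ MulAction.stabilizer Γ x) :=
    Subgroup.fintypeQuotientOfFiniteIndex
  rw [finsum_eq_sum_of_fintype, Finsupp.finsetSum_apply]
  simp only [Finsupp.mapDomain_single, Finsupp.single_apply]
  split_ifs with h
  · obtain ⟨γ, rfl⟩ := h
    have hiff : ∀ q : Γ ⧸ MulAction.stabilizer Γ x,
        (q.out : Γ) • x = γ • x ↔ q = (γ : Γ ⧸ MulAction.stabilizer Γ x) := by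
      intro q
      rw [← QuotientGroup.out_eq' q, eq_comm (b := (γ : Γ ⧸ MulAction.stabilizer Γ x)),
        QuotientGroup.eq, MulAction.mem_stabilizer_iff, QuotientGroup.out_eq', mul_smul,
        inv_smul_eq_iff]
    simp only [hiff]
    rw [Finset.sum_ite_eq' Finset.univ (γ : Γ ⧸ MulAction.stabilizer Γ x), if_pos (Finset.mem_univ _)]
  · refine Finset.sum_eq_zero fun q _ => if_neg fun hq => h ⟨q.out, hq⟩

/-- The trace from the whole group of an invariant cycle. -/
theorem trG_top {z : X →₀ ℤ} (hz : ∀ γ : Γ, Finsupp.mapDomain (fun x => γ • x) z = z) :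
    trG X (⊤ : Subgroup Γ) z = z := by
  have hH : (⊤ : Subgroup Γ).FiniteIndex := inferInstance
  rw [trG_apply hH]
  let _ : Fintype (Γ ⧸ (⊤ : Subgroup Γ)) := Subgroup.fintypeQuotientOfFiniteIndex
  have : Unique (Γ ⧸ (⊤ : Subgroup Γ)) := by
    have : Subsingleton (Γ ⧸ (⊤ : Subgroup Γ)) := QuotientGroup.subsingleton_quotient_top
    exact ⟨⟨(1 : Γ)⟩, fun _ => Subsingleton.elim _ _⟩
  rw [finsum_eq_sum_of_fintype]
  simp only [hz]
  rw [Finset.sum_const, Finset.card_univ]
  have hc : Fintype.card (Γ ⧸ (⊤ : Subgroup Γ)) = 1 := Fintype.card_unique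
  rw [hc, one_smul]

end abs

section gen

variable {F : Type} [Field F] {K : Type} [Field K] [CharZero K] [Algebra F K] {Ω : Type} [Field Ω]
  [Algebra K Ω] [Algebra F Ω] [IsScalarTower F K Ω] [IsAlgClosure K Ω] (C : Cf F)

/-- The stabiliser of a point of `X` is open. -/
theorem opn_stab (u : Pt C.W₁ Ω) (y : Pt C.W₂ Ω) :
    opn K Ω (MulAction.stabilizer (Ω ≃ₐ[K] Ω) (C.px u y)) := by
  obtain ⟨M₁, hM₁, h₁⟩ := exists_op (K := K) u
  obtain ⟨M₂, hM₂, h₂⟩ := exists_op (K := K) y
  refine ⟨M₁ ⊔ M₂, inferInstance, fun γ hγ => ?_⟩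
  rw [MulAction.mem_stabilizer_iff]
  have e₁ := h₁ γ (fix_le le_sup_left hγ)
  have e₂ := h₂ γ (fix_le le_sup_right hγ)
  change C.px (γ • u) (γ • y) = C.px u y
  rw [e₁, e₂]

/-- Every zero-cycle over `K` is a combination of traces of points. Proof: induction on the support; the coefficient is
constant on orbits, the stabiliser of a point is open (`exists_op`). -/
theorem cyc_gen {z : C.X.pt Ω →₀ ℤ} (hz : z ∈ C.X.cyc K Ω) :
    z ∈ AddSubgroup.closure {z | ∃ (H : Subgroup (Ω ≃ₐ[K] Ω)) (u : Pt C.W₁ Ω) (y : Pt C.W₂ Ω),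
      opn K Ω H ∧ (C.dt K Ω).PP H u y ∧ z = trG (C.X.pt Ω) H (Finsupp.single (C.px u y) 1)} := by
  classical
  induction hn : z.support.card using Nat.strong_induction_on generalizing z with
  | _ n ih =>
    by_cases h0 : z = 0
    · rw [h0]
      exact zero_mem _
    · obtain ⟨x, hx⟩ := Finsupp.support_nonempty_iff.2 h0
      obtain ⟨⟨u, y⟩, rfl⟩ := Quotient.exists_rep x
      change C.px u y ∈ z.support at hx
      have hop := opn_stab (K := K) C u y
      have hH := opn_fin _ hop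
      have hfix : ∀ γ ∈ MulAction.stabilizer (Ω ≃ₐ[K] Ω) (C.px u y),
          γ • C.px u y = C.px u y := fun γ hγ => hγ
      have hinv : ∀ γ ∈ MulAction.stabilizer (Ω ≃ₐ[K] Ω) (C.px u y),
          Finsupp.mapDomain (fun x => γ • x) (Finsupp.single (C.px u y) (1 : ℤ)) =
            Finsupp.single (C.px u y) 1 := by
        intro γ hγ
        rw [Finsupp.mapDomain_single, hfix γ hγ]
      have hti : trG (C.X.pt Ω) (MulAction.stabilizer (Ω ≃ₐ[K] Ω) (C.px u y))
          (Finsupp.single (C.px u y) 1) ∈ C.X.cyc K Ω := fun σ => smul_trG hH hinv σ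
      have hz' := sub_mem hz (zsmul_mem hti (z (C.px u y)))
      -- values of `z` on the orbit
      have hval : ∀ x' ∈ MulAction.orbit (Ω ≃ₐ[K] Ω) (C.px u y), z x' = z (C.px u y) := by
        rintro _ ⟨σ, rfl⟩
        have h1 := hz σ
        have hinj : Function.Injective (C.X.act σ) := fun p q hpq => by
          have : σ • p = σ • q := hpq
          exact smul_left_cancel σ this
        calc z (σ • C.px u y) = (Finsupp.mapDomain (C.X.act σ) z) (C.X.act σ (C.px u y)) := by
              rw [h1]; rfl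
          _ = z (C.px u y) := Finsupp.mapDomain_apply hinj z _
      have hval' : ∀ x', (z - z (C.px u y) • trG (C.X.pt Ω)
          (MulAction.stabilizer (Ω ≃ₐ[K] Ω) (C.px u y)) (Finsupp.single (C.px u y) 1)) x' =
          if x' ∈ MulAction.orbit (Ω ≃ₐ[K] Ω) (C.px u y) then 0 else z x' := by
        intro x'
        rw [Finsupp.sub_apply, Finsupp.smul_apply, trG_single_apply _ _ hH]
        split_ifs with h
        · rw [hval x' h, smul_eq_mul, mul_one, sub_self]
        · rw [smul_zero, sub_zero]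
      have hcard : (z - z (C.px u y) • trG (C.X.pt Ω)
          (MulAction.stabilizer (Ω ≃ₐ[K] Ω) (C.px u y))
            (Finsupp.single (C.px u y) 1)).support.card < n := by
        rw [← hn]
        refine Finset.card_lt_card ((Finset.ssubset_iff_of_subset ?_).2 ⟨C.px u y, hx, ?_⟩)
        · intro x' hx'
          rw [Finsupp.mem_support_iff, hval'] at hx'
          rw [Finsupp.mem_support_iff]
          intro h
          apply hx'
          rw [h, ite_self]
        · rw [Finsupp.mem_support_iff, hval', if_pos (MulAction.mem_orbit_self _)]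
          exact fun h => h rfl
      have h1 := ih _ hcard hz' rfl
      have h3 : trG (C.X.pt Ω) (MulAction.stabilizer (Ω ≃ₐ[K] Ω) (C.px u y))
          (Finsupp.single (C.px u y) 1) ∈ AddSubgroup.closure {z |
            ∃ (H : Subgroup (Ω ≃ₐ[K] Ω)) (u : Pt C.W₁ Ω) (y : Pt C.W₂ Ω), opn K Ω H ∧
              (C.dt K Ω).PP H u y ∧ z = trG (C.X.pt Ω) H (Finsupp.single (C.px u y) 1)} :=
        AddSubgroup.subset_closure ⟨_, u, y, hop, hfix, rfl⟩
      have h2 := add_mem h1 (zsmul_mem h3 (z (C.px u y)))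
      rwa [sub_add_cancel] at h2

/-- The kernel is generated by the classes `f`. Proof: `cyc_gen`; `z - sc (pr z)` is additive in `z`, for
`z = trG H [(u, y)]` it is `trG H ([(u, y)] - [(u, 0)])`. -/
theorem ker_gen {z : C.X.pt Ω →₀ ℤ} (hz : z ∈ C.X.cyc K Ω) :
    z - Finsupp.mapDomain (C.sc Ω) (Finsupp.mapDomain (C.pr Ω) z) ∈
      AddSubgroup.closure {z | ∃ (H : Subgroup (Ω ≃ₐ[K] Ω)) (u : Pt C.W₁ Ω) (y : Pt C.W₂ Ω),
        opn K Ω H ∧ (C.dt K Ω).PP H u y ∧ z = trG (C.X.pt Ω) H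
          (Finsupp.single (C.px u y) 1 - Finsupp.single (C.px u 0) 1)} := by
  have h1 := cyc_gen C hz
  refine AddSubgroup.closure_induction (p := fun z _ => z - Finsupp.mapDomain (C.sc Ω)
    (Finsupp.mapDomain (C.pr Ω) z) ∈ AddSubgroup.closure _) ?_ ?_ ?_ ?_ h1
  · rintro _ ⟨H, u, y, hH, hy, rfl⟩
    refine AddSubgroup.subset_closure ⟨H, u, y, hH, hy, ?_⟩
    rw [map_sub]
    congr 1
    have hf := opn_fin _ hH
    rw [trG_apply hf, trG_apply hf]
    have := hf
    let _ : Fintype ((Ω ≃ₐ[K] Ω) ⧸ H) := Subgroup.fintypeQuotientOfFiniteIndex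
    rw [finsum_eq_sum_of_fintype, finsum_eq_sum_of_fintype, Finsupp.mapDomain_finsetSum,
      Finsupp.mapDomain_finsetSum]
    refine Finset.sum_congr rfl fun q _ => ?_
    rw [Finsupp.mapDomain_single, Finsupp.mapDomain_single, Finsupp.mapDomain_single,
      Finsupp.mapDomain_single]
    have e : (q.out : Ω ≃ₐ[K] Ω) • C.px u (0 : Pt C.W₂ Ω) = C.px ((q.out : Ω ≃ₐ[K] Ω) • u)
      ((q.out : Ω ≃ₐ[K] Ω) • (0 : Pt C.W₂ Ω)) := rfl
    rw [e, smul_zero]
    rfl
  · rw [Finsupp.mapDomain_zero, Finsupp.mapDomain_zero, sub_zero]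
    exact zero_mem _
  · intro a b _ _ ha hb
    rw [Finsupp.mapDomain_add, Finsupp.mapDomain_add, add_sub_add_comm]
    exact add_mem ha hb
  · intro a _ ha
    have e : ∀ w : C.X.pt Ω →₀ ℤ, Finsupp.mapDomain (C.sc Ω) (Finsupp.mapDomain (C.pr Ω) (-w)) =
        - Finsupp.mapDomain (C.sc Ω) (Finsupp.mapDomain (C.pr Ω) w) := fun w =>
      ((Finsupp.mapDomain.addMonoidHom (M := ℤ) (C.sc Ω)).comp
        (Finsupp.mapDomain.addMonoidHom (M := ℤ) (C.pr Ω))).map_neg w
    rw [e, ← neg_sub', neg_mem_iff]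
    exact ha

end gen

section loc

variable {F : Type} [Field F] {K : Type} [Field K] [CharZero K] [Algebra F K] (C : Cf F)

/-- The class `f ⊤ 0` of an invariant point is the class of `fc`. -/
theorem f_fc (R : AddSubgroup (C.X.pt (AlgebraicClosure K) →₀ ℤ))
    (hR : C.X.ratEq K (AlgebraicClosure K) ≤ R) (y : Pt C.W₂ K) :
    (C.th' R hR).f ⊤ 0 (Pt.map _ (IsScalarTower.toAlgHom F K (AlgebraicClosure K)) y) =
      QuotientAddGroup.mk' R (C.fc K y) := by
  have hy : ∀ γ : AlgebraicClosure K ≃ₐ[K] AlgebraicClosure K,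
      γ • Pt.map C.W₂ (IsScalarTower.toAlgHom F K (AlgebraicClosure K)) y =
        Pt.map C.W₂ (IsScalarTower.toAlgHom F K (AlgebraicClosure K)) y := by
    intro γ
    rw [Pt.smul_def, Pt.map_map']
    congr 1
    congr 1
    ext a
    change γ (algebraMap K (AlgebraicClosure K) a) = algebraMap K (AlgebraicClosure K) a
    exact γ.commutes a
  change QuotientAddGroup.mk' R (trG (C.X.pt (AlgebraicClosure K)) ⊤ (C.fc K y)) = _
  congr 1
  refine trG_top fun γ => ?_
  have e : ∀ v : Pt C.W₂ (AlgebraicClosure K), γ • v = v → γ • C.px 0 v = C.px 0 v := by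
    intro v hv
    change C.px (γ • (0 : Pt C.W₁ (AlgebraicClosure K))) (γ • v) = _
    rw [smul_zero, hv]
  rw [Cf.fc]
  have h1 := (Finsupp.mapDomain.addMonoidHom (M := ℤ) (fun x : C.X.pt (AlgebraicClosure K) =>
    γ • x)).map_sub (Finsupp.single (C.px 0 (Pt.map C.W₂
      (IsScalarTower.toAlgHom F K (AlgebraicClosure K)) y)) 1) (Finsupp.single (C.px 0 0) 1)
  refine h1.trans ?_
  rw [Finsupp.mapDomain.addMonoidHom_apply, Finsupp.mapDomain.addMonoidHom_apply,
    Finsupp.mapDomain_single, Finsupp.mapDomain_single, e _ (hy γ), e _ (smul_zero γ)]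

/-- From the local structure to cycles. Proof: `ker_gen`, `sc` maps `R'` to `R`; `f ⊤ 0` is additive on the
invariant points (`f_add`); `exists_desc`. -/
theorem loc_cyc (R : AddSubgroup (C.X.pt (AlgebraicClosure K) →₀ ℤ))
    (hR : C.X.ratEq K (AlgebraicClosure K) ≤ R)
    (R' : AddSubgroup (C.B.pt (AlgebraicClosure K) →₀ ℤ))
    (hR' : ∀ z ∈ R', Finsupp.mapDomain (C.sc _) z ∈ R) (hL : (C.th' R hR).Loc) :
    (∀ z ∈ C.X.cyc K (AlgebraicClosure K), Finsupp.mapDomain (C.pr _) z ∈ R' →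
      ∃ y : Pt C.W₂ K, z - C.fc K y ∈ R) ∧
    (∀ y : Pt C.W₂ K, 2 • C.fc K y ∈ R) ∧
    ∀ y y' : Pt C.W₂ K, C.fc K (y + y') - C.fc K y - C.fc K y' ∈ R := by
  have hmem : ∀ z : C.X.pt (AlgebraicClosure K) →₀ ℤ, z ∈ R ↔ QuotientAddGroup.mk' R z = 0 :=
    fun z => (QuotientAddGroup.eq_zero_iff z).symm
  have hfix : ∀ (y : Pt C.W₂ K) (γ : AlgebraicClosure K ≃ₐ[K] AlgebraicClosure K),
      γ • Pt.map C.W₂ (IsScalarTower.toAlgHom F K (AlgebraicClosure K)) y =
        Pt.map C.W₂ (IsScalarTower.toAlgHom F K (AlgebraicClosure K)) y := by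
    intro y γ
    rw [Pt.smul_def, Pt.map_map']
    congr 1
    congr 1
    ext a
    change γ (algebraMap K (AlgebraicClosure K) a) = algebraMap K (AlgebraicClosure K) a
    exact γ.commutes a
  have hPP : ∀ y : Pt C.W₂ K, (C.dt K (AlgebraicClosure K)).PP ⊤ 0
      (Pt.map C.W₂ (IsScalarTower.toAlgHom F K (AlgebraicClosure K)) y) := by
    intro y γ _
    change C.px (γ • (0 : Pt C.W₁ (AlgebraicClosure K))) (γ • _) = C.px 0 _
    rw [smul_zero, hfix]
  have hadd : ∀ y y' : Pt C.W₂ K, C.fc K (y + y') - C.fc K y - C.fc K y' ∈ R := by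
    intro y y'
    rw [hmem, map_sub, map_sub, ← f_fc C R hR, ← f_fc C R hR, ← f_fc C R hR, map_add,
      Th.f_add (C.th' R hR) opn_top (hPP y) (hPP y')]
    abel
  have h2 : ∀ y : Pt C.W₂ K, 2 • C.fc K y ∈ R := by
    intro y
    rw [hmem, map_nsmul, ← f_fc C R hR]
    exact hL.2 _ (hfix y)
  refine ⟨?_, h2, hadd⟩
  intro z hz hz'
  have hk := ker_gen C hz
  have hs := hR' _ hz'
  have key : ∀ w ∈ AddSubgroup.closure {z | ∃ (H : Subgroup (AlgebraicClosure K ≃ₐ[K]
      AlgebraicClosure K)) (u : Pt C.W₁ (AlgebraicClosure K)) (y : Pt C.W₂ (AlgebraicClosure K)),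
        opn K (AlgebraicClosure K) H ∧ (C.dt K (AlgebraicClosure K)).PP H u y ∧
          z = trG (C.X.pt (AlgebraicClosure K)) H
            (Finsupp.single (C.px u y) 1 - Finsupp.single (C.px u 0) 1)},
      ∃ y : Pt C.W₂ K, w - C.fc K y ∈ R := by
    intro w hw
    refine AddSubgroup.closure_induction (p := fun w _ => ∃ y : Pt C.W₂ K, w - C.fc K y ∈ R)
      ?_ ?_ ?_ ?_ hw
    · rintro _ ⟨H, u, y, hH, hy, rfl⟩
      obtain ⟨y₀, hy₀, he⟩ := hL.1 H u y hH hy
      obtain ⟨y₁, rfl⟩ := exists_desc (K := K) hy₀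
      refine ⟨y₁, ?_⟩
      rw [hmem, map_sub, ← f_fc C R hR, ← he]
      exact sub_self _
    · refine ⟨0, ?_⟩
      have := hadd 0 0
      rw [add_zero, sub_self, zero_sub, neg_mem_iff] at this
      rw [zero_sub, neg_mem_iff]
      exact this
    · rintro a b _ _ ⟨y, hy⟩ ⟨y', hy'⟩
      refine ⟨y + y', ?_⟩
      have := sub_mem (add_mem hy hy') (hadd y y')
      convert this using 1
      abel
    · rintro a _ ⟨y, hy⟩
      refine ⟨y, ?_⟩
      have := add_mem hy (h2 y)
      have h3 := neg_mem this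
      convert h3 using 1
      abel
  obtain ⟨y, hy⟩ := key _ hk
  refine ⟨y, ?_⟩
  have := add_mem hy hs
  convert this using 1
  abel

end loc

end BE
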