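import Pool.Agent.Lib.MP_f80667_ag.Be.LfE

/-! The local conditions in terms of the absolute value. -/

open ZC Polynomial IntermediateField IsDedekindDomain NumberField

namespace BE

section dfs

variable {F : Type} [Field F] {K Ω : Type} [Field K] [Field Ω] [Algebra K Ω] [Algebra F Ω]

/-- Good reduction at an odd place. -/
structure Lf.H1 (L : Lf K Ω) (C : Cf F) : Prop where
  two : L.nm 2 = 1
  ha : L.nm (algebraMap F Ω C.a) ≤ 1
  hb : L.nm (algebraMap F Ω C.b) = 1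
  hab : L.nm (algebraMap F Ω (C.a ^ 2 - 4 * C.b)) = 1
  hc₂ : L.nm (algebraMap F Ω C.c₂) ≤ 1
  hc₁ : L.nm (algebraMap F Ω C.c₁) ≤ 1
  hc₀ : L.nm (algebraMap F Ω C.c₀) ≤ 1
  hd : L.nm (algebraMap F Ω C.disc) = 1

/-- An odd place where `g` has no root. -/
structure Lf.H2 (L : Lf K Ω) (C : Cf F) : Prop where
  two : L.nm 2 = 1
  root : ∀ x ∈ (⊥ : IntermediateField K Ω), aeval x C.g ≠ 0

/-- The conditions at the dyadic places. -/
structure Lf.H3 (L : Lf K Ω) (C : Cf F) : Prop where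
  two : L.nm 2 < 1
  val : ∀ x ∈ (⊥ : IntermediateField K Ω), x ≠ 0 → ∃ n : ℤ, L.nm x = L.nm 2 ^ n
  hc₂ : L.nm (algebraMap F Ω C.c₂) ≤ 1
  hc₁ : L.nm (algebraMap F Ω C.c₁) ≤ 1
  hc₀ : L.nm (algebraMap F Ω C.c₀) ≤ 1
  hd : L.nm (algebraMap F Ω C.disc) = 1
  root : ∀ x ∈ (⊥ : IntermediateField K Ω), L.nm x ≤ 1 → L.nm (aeval x C.g) = 1
  ha : L.nm (algebraMap F Ω C.a) = 1
  sq : SqM (⊥ : IntermediateField K Ω) (algebraMap F Ω C.a)
  hb : L.nm (algebraMap F Ω C.b) ≤ L.nm 2 ^ 7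

end dfs

section val

variable {F : Type} [Field F] [NumberField F] {v : HeightOneSpectrum (𝓞 F)}
  (L : Lf (FK F v) (AlgebraicClosure (FK F v))) {c : ℝ}

theorem Lh_one (hv : ∀ (x : F) (n : ℤ), v.valuation F x = WithZero.exp (-n) →
      L.nm (algebraMap F _ x) = c ^ n) {x : F} (hx : v.valuation F x = 1) :
    L.nm (algebraMap F _ x) = 1 := by
  have h := hv x 0 (by rw [hx, neg_zero, WithZero.exp_zero])
  rwa [zpow_zero] at h

theorem Lh_le (h0 : 0 < c) (h1 : c < 1) (hv : ∀ (x : F) (n : ℤ), v.valuation F x = WithZero.exp (-n) →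
      L.nm (algebraMap F _ x) = c ^ n) {x : F} {m : ℤ} (hx : v.valuation F x ≤ WithZero.exp (-m)) :
    L.nm (algebraMap F _ x) ≤ c ^ m := by
  by_cases hx0 : x = 0
  · subst hx0
    rw [map_zero, (L.zero_iff 0).2 rfl]
    exact (zpow_pos h0 m).le
  · have hne : v.valuation F x ≠ 0 := (Valuation.ne_zero_iff _).2 hx0
    have h2 : v.valuation F x = WithZero.exp (-(-(WithZero.log (v.valuation F x)))) := by
      rw [neg_neg, WithZero.exp_log hne]
    rw [hv x _ h2]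
    have h3 : WithZero.exp (WithZero.log (v.valuation F x)) ≤ WithZero.exp (-m) := by
      rw [WithZero.exp_log hne]
      exact hx
    rw [WithZero.exp_le_exp] at h3
    exact zpow_le_zpow_right_of_le_one₀ h0 h1.le (by linarith)

theorem Lh_le_one (h0 : 0 < c) (h1 : c < 1)
    (hv : ∀ (x : F) (n : ℤ), v.valuation F x = WithZero.exp (-n) →
      L.nm (algebraMap F _ x) = c ^ n) {x : F} (hx : v.valuation F x ≤ 1) :
    L.nm (algebraMap F _ x) ≤ 1 := by
  have h := Lh_le L h0 h1 hv (x := x) (m := 0) (by rw [neg_zero, WithZero.exp_zero]; exact hx)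
  rwa [zpow_zero] at h

theorem Lh_two : algebraMap F (AlgebraicClosure (FK F v)) 2 = 2 :=
  map_ofNat (algebraMap F (AlgebraicClosure (FK F v))) 2

end val

variable {F : Type} [Field F] [NumberField F] (C : Cf F) (v : HeightOneSpectrum (𝓞 F))

theorem exists_H1 (h : C.G1 v) :
    ∃ L : Lf (FK F v) (AlgebraicClosure (FK F v)), L.H1 C := by
  obtain ⟨L, c, h0, h1, hv, -, -⟩ := exists_lf F v
  refine ⟨L, ?_, ?_, ?_, ?_, ?_, ?_, ?_, ?_⟩
  · rw [← Lh_two]
    exact Lh_one L hv h.two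
  · exact Lh_le_one L h0 h1 hv h.ha
  · exact Lh_one L hv h.hb
  · exact Lh_one L hv h.hab
  · exact Lh_le_one L h0 h1 hv h.hc₂
  · exact Lh_le_one L h0 h1 hv h.hc₁
  · exact Lh_le_one L h0 h1 hv h.hc₀
  · exact Lh_one L hv h.hd

theorem exists_H2 (h : C.G2 v) :
    ∃ L : Lf (FK F v) (AlgebraicClosure (FK F v)), L.H2 C := by
  obtain ⟨L, c, h0, h1, hv, -, -⟩ := exists_lf F v
  refine ⟨L, ?_, ?_⟩
  · rw [← Lh_two]
    exact Lh_one L hv h.two
  · intro x hx
    obtain ⟨y, rfl⟩ := IntermediateField.mem_bot.1 hx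
    rw [aeval_algebraMap_apply]
    exact (_root_.map_ne_zero _).2 (h.root y)

theorem Lh_coeff (L : Lf (FK F v) (AlgebraicClosure (FK F v)))
    (hc₂ : L.nm (algebraMap F _ C.c₂) ≤ 1) (hc₁ : L.nm (algebraMap F _ C.c₁) ≤ 1)
    (hc₀ : L.nm (algebraMap F _ C.c₀) ≤ 1) (i : ℕ) :
    L.nm ((C.g.map (algebraMap F (AlgebraicClosure (FK F v)))).coeff i) ≤ 1 := by
  rw [coeff_map]
  match i with
  | 0 => simpa [Cf.g, coeff_X, coeff_C] using hc₀
  | 1 => simpa [Cf.g, coeff_X, coeff_C] using hc₁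
  | 2 => simpa [Cf.g, coeff_X, coeff_C] using hc₂
  | 3 =>
    have h3 : C.g.coeff 3 = 1 := by
      simp [Cf.g, coeff_X, coeff_C]
    rw [h3, map_one, L.one]
  | n + 4 =>
    have h3 : C.g.coeff (n + 4) = 0 := by
      simp [Cf.g, coeff_X, coeff_C, coeff_X_pow]
    rw [h3, map_zero, (L.zero_iff 0).2 rfl]
    exact zero_le_one

/-- For `root`: an integer `x` of the completion is close to some `a ∈ 𝓞 F`, and `g(x)` is close to `g(a)`
(`eval_close`). -/
theorem exists_H3 (h : C.G3 v) :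
    ∃ L : Lf (FK F v) (AlgebraicClosure (FK F v)), L.H3 C := by
  obtain ⟨L, c, h0, h1, hv, hk, happ⟩ := exists_lf F v
  have h2 : L.nm 2 = c := by
    have h3 := hv 2 1 h.two
    rwa [Lh_two, zpow_one] at h3
  have hc₂ := Lh_le_one L h0 h1 hv h.hc₂
  have hc₁ := Lh_le_one L h0 h1 hv h.hc₁
  have hc₀ := Lh_le_one L h0 h1 hv h.hc₀
  refine ⟨L, ?_, ?_, hc₂, hc₁, hc₀, Lh_one L hv h.hd, ?_, Lh_one L hv h.ha, ?_, ?_⟩
  · rw [h2]
    exact h1
  · intro x hx hx0
    obtain ⟨y, rfl⟩ := IntermediateField.mem_bot.1 hx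
    obtain ⟨n, hn⟩ := hk y (by
      rintro rfl
      exact hx0 (map_zero _))
    exact ⟨n, by rw [hn, h2]⟩
  · intro x hx hx1
    obtain ⟨y, rfl⟩ := IntermediateField.mem_bot.1 hx
    obtain ⟨a, ha⟩ := happ y hx1
    have hcf := Lh_coeff C v L hc₂ hc₁ hc₀
    have hga : L.nm (algebraMap F _ (C.g.eval (algebraMap (𝓞 F) F a))) = 1 :=
      Lh_one L hv (h.root a)
    have ha1 : L.nm (algebraMap F _ (algebraMap (𝓞 F) F a)) ≤ 1 :=
      Lh_le_one L h0 h1 hv (v.valuation_le_one (K := F) a)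
    have hcl := L.eval_close hcf hx1 ha1
    have he1 : ∀ z : AlgebraicClosure (FK F v),
        (C.g.map (algebraMap F (AlgebraicClosure (FK F v)))).eval z = aeval z C.g := fun z => by
      rw [eval_map_algebraMap]
    have he2 : aeval (algebraMap F (AlgebraicClosure (FK F v)) (algebraMap (𝓞 F) F a)) C.g =
        algebraMap F _ (C.g.eval (algebraMap (𝓞 F) F a)) := by
      rw [aeval_algebraMap_apply, aeval_def, eval₂_eq_eval_map, Algebra.algebraMap_self, Polynomial.map_id]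
    rw [he1, he1, he2] at hcl
    rw [← hga]
    refine L.eq_of_close ?_
    rw [hga]
    exact lt_of_le_of_lt hcl ha
  · obtain ⟨r, hr⟩ := h.sq
    refine ⟨algebraMap _ _ r, IntermediateField.algebraMap_mem _ r, ?_⟩
    rw [IsScalarTower.algebraMap_apply F (FK F v) (AlgebraicClosure (FK F v)), hr, map_mul, pow_two]
  · have h3 := Lh_le L h0 h1 hv (m := 7) h.hb
    rw [h2]
    rwa [show ((7 : ℤ)) = ((7 : ℕ) : ℤ) from rfl, zpow_natCast] at h3

end BE
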