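import Pool.Agent.Lib.MP_f80667_ag.Be.Odd
import Pool.Agent.Lib.MP_f80667_ag.Be.Lh

/-! Odd places where `g` has no root: divisibility by two. -/

open ZC Polynomial IntermediateField

namespace BE

section irr

variable {F : Type} [Field F] (C : Cf F)

private theorem g_monic : C.g.Monic := by
  unfold Cf.g
  monicity!

private theorem g_deg : C.g.natDegree = 3 := by
  unfold Cf.g
  compute_degree!

private theorem g_irr {E : Type} [Field E] [Algebra F E] (h : ∀ x : E, aeval x C.g ≠ 0) :
    Irreducible (C.g.map (algebraMap F E)) := by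
  apply Polynomial.irreducible_of_degree_le_three_of_not_isRoot
  · rw [Polynomial.natDegree_map, g_deg]
    simp
  · intro x hx
    apply h x
    rwa [Polynomial.IsRoot, Polynomial.eval_map_algebraMap] at hx

private theorem g_min {E : Type} [Field E] [Algebra F E] {A : Type} [Field A] [Algebra E A]
    [Algebra F A] [IsScalarTower F E A] (h : ∀ x : E, aeval x C.g ≠ 0) {e : A}
    (he : aeval e C.g = 0) : C.g.map (algebraMap F E) = minpoly E e :=
  minpoly.eq_of_irreducible_of_monic (g_irr C h)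
    (by rw [Polynomial.aeval_map_algebraMap]; exact he) ((g_monic C).map _)

end irr

variable {F : Type} [Field F] {K : Type} [Field K] [CharZero K] [Algebra F K] {Ω : Type} [Field Ω]
  [Algebra K Ω] [Algebra F Ω] [IsScalarTower F K Ω] [IsAlgClosure K Ω] (C : Cf F) (L : Lf K Ω)

/-- `g` is irreducible of degree `3` over `K`, so it has no root in an extension of degree `2 ^ n`. -/
theorem no_root (h : L.H2 C) {M : IntermediateField K Ω} [FiniteDimensional K M]
    (hM : ∃ n, Module.finrank K M = 2 ^ n) {e : Ω} (he : e ∈ M) : aeval e C.g ≠ 0 := by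
  intro h0
  have hK : ∀ x : K, aeval x C.g ≠ 0 := by
    intro x hx
    apply h.root (algebraMap K Ω x) (IntermediateField.algebraMap_mem _ _)
    rw [Polynomial.aeval_algebraMap_apply, hx, map_zero]
  have h1 := g_min (E := K) (A := Ω) C hK h0
  have h2 : IsIntegral K (⟨e, he⟩ : M) := Algebra.IsIntegral.isIntegral _
  have h3 := minpoly.degree_dvd h2
  have h4 : minpoly K (⟨e, he⟩ : M) = minpoly K e :=
    (minpoly.algebraMap_eq (algebraMap M Ω).injective (⟨e, he⟩ : M)).symm
  obtain ⟨n, hn⟩ := hM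
  rw [h4, ← h1, Polynomial.natDegree_map, g_deg, hn] at h3
  have h5 := Nat.Prime.dvd_of_dvd_pow Nat.prime_three h3
  omega

private theorem no_rootM {M : IntermediateField K Ω} (hM : ∀ e ∈ M, aeval e C.g ≠ 0) (x : M) :
    aeval x C.g ≠ 0 := by
  have htow : IsScalarTower F M Ω := HfH_tow M
  intro hx
  apply hM x x.2
  have h1 := congrArg (algebraMap M Ω) hx
  rw [← Polynomial.aeval_algebraMap_apply, map_zero] at h1
  exact h1

/-- For a root `e` of `g` the degree of `M(e)` over `M` is three. -/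
theorem finrank_Me {M : IntermediateField K Ω} [FiniteDimensional K M]
    (hM : ∀ e ∈ M, aeval e C.g ≠ 0) {e : Ω} (he : aeval e C.g = 0) :
    Module.finrank K (Me M e) = 3 * Module.finrank K M := by
  have htow : IsScalarTower F M Ω := HfH_tow M
  have halg : Algebra.IsAlgebraic K Ω := IsAlgClosure.isAlgebraic
  have h1 := g_min (E := M) (A := Ω) C (no_rootM C hM) he
  have hint : IsIntegral M e := (Algebra.IsIntegral.isIntegral (R := K) e).tower_top
  have h2 : Module.finrank M (IntermediateField.adjoin M {e}) = 3 := by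
    rw [IntermediateField.adjoin.finrank hint, ← h1, Polynomial.natDegree_map, g_deg]
  have h3 : Me M e = (IntermediateField.adjoin M {e}).restrictScalars K := by
    rw [IntermediateField.restrictScalars_adjoin_eq_sup]
    rfl
  have h4 := Module.finrank_mul_finrank K M (IntermediateField.adjoin M {e})
  rw [h2, mul_comm] at h4
  rw [h3]
  exact h4.symm

/-- Every point of the fibre is the double of a point. Proof: `half₂`; for a root `e`, `th0 e = c s²` with `c ∈ M`, `s ∈ M(e)`
(`odd_onto`); conjugating, `th0 e' = c s'²` for the conjugates `e'` of `e`, and the product of the three values is a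
square in `M` (`th_prod`), so `c` is a square in `M`. -/
theorem exists_half (h : L.H2 C) {M : IntermediateField K Ω} [FiniteDimensional K M]
    (hM : ∃ n, Module.finrank K M = 2 ^ n) {u : Pt C.W₁ Ω} {y : Pt C.W₂ Ω}
    (hy : (C.dt K Ω).PP M.fixingSubgroup u y) :
    ∃ y' : Pt C.W₂ Ω, (C.dt K Ω).PP M.fixingSubgroup u y' ∧ y' + y' = y := by
  classical
  have hcl : IsAlgClosed Ω := IsAlgClosure.isAlgClosed K
  have halg : Algebra.IsAlgebraic K Ω := IsAlgClosure.isAlgebraic
  have hch : CharZero Ω := charZero_of_injective_algebraMap (algebraMap K Ω).injective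
  have htow : IsScalarTower F M Ω := HfH_tow M
  have hroot : ∀ e ∈ M, aeval e C.g ≠ 0 := fun e he => no_root C L h hM he
  rcases Pt.cases' y with rfl | ⟨w, v, n, rfl⟩
  · exact ⟨0, hy, add_zero 0⟩
  have htt : C.t Ω + C.t Ω = 0 := C.two_t Ω
  have ha₁ : C.W₂.a₁ = 0 := rfl
  have ha₃ : C.W₂.a₃ = 0 := rfl
  have hwM : w ∈ M := by
    refine mem_of_fix M fun γ hγ => ?_
    have h1 : C.px (γ • u) (γ • (Pt.aff w v n : Pt C.W₂ Ω)) = C.px u (Pt.aff w v n) := hy γ hγ
    rw [C.px_eq_iff] at h1
    rcases h1 with ⟨h1, h2⟩ | ⟨h1, h2⟩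
    · exact ((Gal_smul_aff n γ).1 h2.symm).1
    · obtain ⟨n', hn'⟩ : ∃ n', γ • (Pt.aff w v n : Pt C.W₂ Ω) = Pt.aff (γ w) (γ v) n' := ⟨_, rfl⟩
      obtain ⟨n'', hn''⟩ := HfH_neg ha₁ ha₃ n'
      rw [hn', hn'', HfH_inj] at h2
      exact h2.1.symm
  have hκ := kap_mem C hy.uu
  obtain ⟨κ, hκe⟩ : ∃ κ : M, (κ : Ω) = C.kap Ω u := ⟨⟨_, hκ⟩, rfl⟩
  have hth : ∀ e : Ω, aeval e C.g = 0 →
      C.th0 Ω e u (Pt.aff w v n) = C.kap Ω u * (w - e) := by
    intro e he
    have hwe : w ≠ e := fun hwe => hroot w hwM (hwe ▸ he)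
    exact if_neg hwe
  refine half₂ C hy fun e he => ?_
  -- the class of `e`
  have hle : M ≤ Me M e := le_sup_left
  have hfd : FiniteDimensional K (Me M e) := by
    apply FiniteDimensional.of_finrank_pos
    rw [finrank_Me C hroot he]
    exact Nat.mul_pos (by norm_num) Module.finrank_pos
  obtain ⟨c, hc, hc0, s, hs, hcs⟩ := odd_onto L h.two hle (by
    rw [finrank_Me C hroot he, Nat.mul_div_cancel _ Module.finrank_pos]
    decide) (th_mem C he hy) (th_ne C e he u (Pt.aff w v n))
  obtain ⟨P, hP⟩ := HfH_pol M e s hs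
  -- the conjugates
  have hmin := g_min (E := M) (A := Ω) C (no_rootM C hroot) he
  have hall : ∀ e' : Ω, aeval e' C.g = 0 → c * (C.kap Ω u * (w - e')) = aeval e' P ^ 2 := by
    intro e' he'
    have h1 : aeval e (Polynomial.C ((⟨c, hc⟩ : M) * κ) * (Polynomial.C ⟨w, hwM⟩ -
        Polynomial.X) - P ^ 2) = 0 := by
      simp only [map_sub, map_mul, map_pow, aeval_C, aeval_X]
      rw [hP, ← hcs, hth e he, ← hκe]
      change c * κ * (w - e) - c * (κ * (w - e)) = 0
      ring
    have h2 := minpoly.dvd M e h1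
    rw [← hmin] at h2
    obtain ⟨q, hq⟩ := h2
    have h3 := congrArg (aeval e') hq
    rw [map_mul (aeval e') (C.g.map (algebraMap F M)), Polynomial.aeval_map_algebraMap, he',
      zero_mul] at h3
    simp only [map_sub, map_mul, map_pow, aeval_C, aeval_X] at h3
    rw [← sub_eq_zero, ← h3, ← hκe]
    change c * (κ * (w - e')) - _ = c * κ * (w - e') - _
    ring
  obtain ⟨e₁, e₂, e₃, h12, h13, h23, k2, k1, k0⟩ := HfH_roots (Ω := Ω) C
  have hgf : C.g.map (algebraMap F Ω) = (X - Polynomial.C e₁) * (X - Polynomial.C e₂) *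
      (X - Polynomial.C e₃) := by
    unfold Cf.g
    simp only [Polynomial.map_add, Polynomial.map_mul, Polynomial.map_pow, Polynomial.map_X,
      Polynomial.map_C, k2, k1, k0, map_neg, map_add, map_mul]
    ring
  have hg : ∀ x : Ω, aeval x C.g = (x - e₁) * (x - e₂) * (x - e₃) := by
    intro z
    have h1 := congrArg (Polynomial.eval z) hgf
    rw [Polynomial.eval_map_algebraMap] at h1
    rw [h1]
    simp
  have r1 : aeval e₁ C.g = 0 := by
    rw [hg]
    ring
  have r2 : aeval e₂ C.g = 0 := by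
    rw [hg]
    ring
  have r3 : aeval e₃ C.g = 0 := by
    rw [hg]
    ring
  obtain ⟨t, ht, htp⟩ := th_prod C hgf hy
  rw [hth e₁ r1, hth e₂ r2, hth e₃ r3] at htp
  have hSM : aeval e₁ P * aeval e₂ P * aeval e₃ P ∈ M := by
    refine mem_of_fix M fun γ hγ => ?_
    have hγP : ∀ x : Ω, γ (aeval x P) = aeval (γ x) P := fun x =>
      (Polynomial.aeval_algHom_apply
        ((IntermediateField.fixingSubgroupEquiv M ⟨γ, hγ⟩ : Ω ≃ₐ[M] Ω) : Ω →ₐ[M] Ω) x P).symm
    have hγr : ∀ x : Ω, aeval x C.g = 0 → γ x = e₁ ∨ γ x = e₂ ∨ γ x = e₃ := by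
      intro x hx
      have h1 : aeval (γ x) C.g = 0 := by
        have h2 := Polynomial.aeval_algHom_apply (γ.restrictScalars F : Ω →ₐ[F] Ω) x C.g
        rw [hx, map_zero] at h2
        exact h2
      rw [hg] at h1
      rcases mul_eq_zero.1 h1 with h1 | h1
      · rcases mul_eq_zero.1 h1 with h1 | h1
        · exact Or.inl (sub_eq_zero.1 h1)
        · exact Or.inr (Or.inl (sub_eq_zero.1 h1))
      · exact Or.inr (Or.inr (sub_eq_zero.1 h1))
    rw [map_mul, map_mul, hγP, hγP, hγP]
    have inj := γ.injective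
    rcases hγr e₁ r1 with h1 | h1 | h1 <;> rcases hγr e₂ r2 with h2 | h2 | h2 <;>
      rcases hγr e₃ r3 with h3 | h3 | h3 <;>
      first
      | exact absurd (inj (h1.trans h2.symm)) h12
      | exact absurd (inj (h1.trans h3.symm)) h13
      | exact absurd (inj (h2.trans h3.symm)) h23
      | (rw [h1, h2, h3] <;> ring)
  have ht0 : t ≠ 0 := by
    rintro rfl
    have h1 := mul_ne_zero (mul_ne_zero (th_ne C e₁ r1 u (Pt.aff w v n))
      (th_ne C e₂ r2 u (Pt.aff w v n))) (th_ne C e₃ r3 u (Pt.aff w v n))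
    rw [hth e₁ r1, hth e₂ r2, hth e₃ r3, htp] at h1
    exact h1 (zero_pow two_ne_zero)
  -- `c` is a square in `M`
  have hcM : c = (aeval e₁ P * aeval e₂ P * aeval e₃ P / (c * t)) ^ 2 := by
    have h1 := hall e₁ r1
    have h2 := hall e₂ r2
    have h3 := hall e₃ r3
    have h4 : (aeval e₁ P * aeval e₂ P * aeval e₃ P) ^ 2 = c ^ 3 * t ^ 2 := by
      rw [mul_pow, mul_pow, ← h1, ← h2, ← h3, ← htp]
      ring
    rw [div_pow, h4]
    field_simp
  refine ⟨s / (aeval e₁ P * aeval e₂ P * aeval e₃ P / (c * t)),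
    div_mem hs (hle (div_mem hSM (mul_mem hc ht))), ?_⟩
  rw [div_pow, ← hcM, ← hcs]
  field_simp

end BE
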