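import Pool.Agent.Lib.MP_f80667_ag.Be.Tow
import Pool.Agent.Lib.MP_f80667_ag.Be.L2a

/-! The local theorem at the odd places where `g` has no root: the Albanese kernel is trivial. -/

open ZC Polynomial IntermediateField

namespace BE

variable {F : Type} [Field F] {K : Type} [Field K] [CharZero K] [Algebra F K] {Ω : Type} [Field Ω]
  [Algebra K Ω] [Algebra F Ω] [IsScalarTower F K Ω] [IsAlgClosure K Ω] (C : Cf F) (L : Lf K Ω)

/-- Norms and square classes in extensions of odd degree. -/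
theorem l2_norm (h2 : L.nm 2 = 1) {M N : IntermediateField K Ω} (h : M ≤ N)
    [FiniteDimensional K N] (ho : Odd (Module.finrank K N / Module.finrank K M)) {x x' : Ω}
    (hx : x ∈ N) (h0 : x ≠ 0) (hx' : SqM M (x' * Nf M N x)) : SqM N (x' * x) := by
  obtain ⟨c, hc, hc0, s, hs, hcs⟩ := odd_onto L h2 h ho hx h0
  have hs0 : s ≠ 0 := by
    rintro rfl
    rw [zero_pow two_ne_zero] at hcs
    exact mul_ne_zero hc0 h0 hcs
  have hnx := Nf_ne h h0
  obtain ⟨d, hd⟩ := ho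
  -- the norm of `c x` is a square
  have h1 : c ^ (Module.finrank K N / Module.finrank K M) * Nf M N x = Nf M N s ^ 2 := by
    rw [← Nf_base h hc, ← Nf_mul M N h, hcs, pow_two, Nf_mul M N h, pow_two]
  have h3 : SqM M (c * Nf M N x) := by
    refine ⟨Nf M N s / c ^ d, div_mem (Nf_mem h hs) (pow_mem hc d), ?_⟩
    rw [div_pow, ← h1, hd, eq_div_iff (pow_ne_zero 2 (pow_ne_zero d hc0))]
    ring
  have h4 : SqM N (x' * Nf M N x) := SqM.mono h hx'
  have h5 : SqM N (Nf M N x * c) := by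
    have := SqM.mono h h3
    rwa [mul_comm] at this
  have h6 : SqM N (x' * c) := SqM.trans (h (Nf_mem h hx)) hnx h4 h5
  exact SqM.trans (h hc) hc0 h6 ⟨s, hs, hcs⟩

/-- **The classes are trivial.** Proof: `exists_tow`: `M ≤ N`, `[M : K] = 2 ^ n`, `[N : M]` odd. Let `u' = Na u` (norm from `N` to `M`):
`kap u'` and `kap u` have the same class in `N` (`kap_norm`, `odd_onto`, `Nf_base`, `Nf_mul`), so `u - u'` is fixed (`kap_add`, `kap_fix`). Let
`a = u - u'`, `a'' = Na a`: in the same way `a - a'' = 2 τ` with `UU τ` (`al_norm`, `al_pair`, `half₁`). Then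
`f_N(u, y) = f_N(u' + a'', y)` (`br_two`), `= f_M(u' + a'', Nb y)` (`nB`), and `Nb y = 4 y''` (`exists_half` twice), `4 f = 0`. -/
theorem f_eq_zero₂ (h : L.H2 C) {G : Type} [AddCommGroup G] (T : Th (C.dt K Ω) G)
    (hT : T.op = opn K Ω) (H : Subgroup (Ω ≃ₐ[K] Ω)) (u : Pt C.W₁ Ω) (y : Pt C.W₂ Ω) (hH : T.op H)
    (hy : (C.dt K Ω).PP H u y) : T.f H u y = 0 := by
  obtain ⟨N, hN, hNH⟩ := exists_fix (hT ▸ hH)
  subst hNH
  obtain ⟨M, hMN, hM2, hodd⟩ := exists_tow L h.two N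
  have hMf : FiniteDimensional K M :=
    FiniteDimensional.of_injective (IntermediateField.inclusion hMN).toLinearMap
      (IntermediateField.inclusion_injective hMN)
  have hle : N.fixingSubgroup ≤ M.fixingSubgroup := fix_le hMN
  have hfi : N.fixingSubgroup.FiniteIndex := T.op_fin _ hH
  have hMo : T.op M.fixingSubgroup := T.op_mono _ _ hH hle
  have hu := Dt.PP.uu hy
  have htt : C.t Ω + C.t Ω = 0 := C.two_t Ω
  have ht : C.t Ω ≠ 0 := (C.dt K Ω).t_ne
  -- the first norm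
  obtain ⟨hu', hku⟩ := kap_norm C hMN hu
  obtain ⟨u', hu'e⟩ : ∃ u', u' = Na M.fixingSubgroup N.fixingSubgroup u := ⟨_, rfl⟩
  rw [← hu'e] at hu' hku
  have hk1 : SqM N (C.kap Ω u' * C.kap Ω u) :=
    l2_norm L h.two hMN hodd (kap_mem C hu) (kap_ne C u) hku
  have hu'N : (C.dt K Ω).UU N.fixingSubgroup u' := fun γ hγ => hu' γ (hle hγ)
  obtain ⟨huu, hkk⟩ := kap_add C hu'N hu
  have hsq : SqM N (C.kap Ω (u' + u)) :=
    SqM.of_mul (mul_mem (hMN (kap_mem C hu')) (kap_mem C hu))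
      (mul_ne_zero (kap_ne C u') (kap_ne C u)) hkk hk1
  have hfix := (kap_fix C huu).1 hsq
  have ha : ∀ γ ∈ N.fixingSubgroup, γ • (u - u') = u - u' := by
    intro γ hγ
    have h1 := hfix γ hγ
    have e1 : γ • u = u ∨ γ • u = u + C.t Ω := hu γ hγ
    have e2 : γ • u' = u' ∨ γ • u' = u' + C.t Ω := hu'N γ hγ
    rw [smul_add] at h1
    rcases e1 with e1 | e1 <;> rcases e2 with e2 | e2 <;> rw [e1, e2] at h1
    · rw [smul_sub, e1, e2]
    · exfalso
      rw [add_right_comm, add_eq_left] at h1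
      exact ht h1
    · exfalso
      rw [← add_assoc, add_eq_left] at h1
      exact ht h1
    · rw [smul_sub, e1, e2, add_sub_add_right_eq_sub]
  obtain ⟨a, hae⟩ : ∃ a, a = u - u' := ⟨_, rfl⟩
  rw [← hae] at ha
  -- the second norm
  have hal := al_norm C hMN ha
  have hbM : ∀ γ ∈ M.fixingSubgroup, γ • Na M.fixingSubgroup N.fixingSubgroup a =
      Na M.fixingSubgroup N.fixingSubgroup a := fun γ hγ => smul_Na hle hfi ha hγ
  obtain ⟨b, hbe⟩ : ∃ b, b = Na M.fixingSubgroup N.fixingSubgroup a := ⟨_, rfl⟩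
  rw [← hbe] at hal hbM
  have hbN : ∀ γ ∈ N.fixingSubgroup, γ • b = b := fun γ hγ => hbM γ (hle hγ)
  have hbN' : ∀ γ ∈ N.fixingSubgroup, γ • (-b) = -b := fun γ hγ => by
    rw [smul_neg, hbN γ hγ]
  have hl1 : SqM N (C.al b * C.al a) :=
    l2_norm L h.two hMN hodd (al_mem C ha) (al_ne C a) hal
  have hl2 : SqM N (C.al (-b) * C.al b) := by
    have h1 := al_pair C (M := N) (a₁ := -b) (a₂ := b)
      (fun γ hγ => Or.inl ⟨hbN' γ hγ, hbN γ hγ⟩)
    rw [neg_add_cancel] at h1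
    have h3 : C.al (0 : Pt C.W₁ Ω) = 1 := rfl
    rwa [h3, one_mul] at h1
  have hl3 : SqM N (C.al (-b) * C.al a) :=
    SqM.trans (al_mem C hbN) (al_ne C b) hl2 hl1
  have hl4 : SqM N (C.al (-b + a)) := by
    have h1 := al_pair C (M := N) (a₁ := -b) (a₂ := a)
      (fun γ hγ => Or.inl ⟨hbN' γ hγ, ha γ hγ⟩)
    exact SqM.of_mul (mul_mem (al_mem C hbN') (al_mem C ha))
      (mul_ne_zero (al_ne C (-b)) (al_ne C a)) h1 hl3
  obtain ⟨τ, hτ, hττ⟩ := half₁ C (M := N) (u := -b + a)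
    (fun γ hγ => by rw [smul_add, hbN' γ hγ, ha γ hγ]) hl4
  have hτf : ∀ γ ∈ N.fixingSubgroup, γ • (-(τ + τ)) = -(τ + τ) := fun γ hγ => by
    rw [hττ, smul_neg, smul_add, hbN' γ hγ, ha γ hγ]
  have hu0 : u + -(τ + τ) = u' + b := by
    rw [hττ, hae]
    abel
  have hP0 : (C.dt K Ω).PP N.fixingSubgroup (u' + b) y := by
    rw [← hu0]
    exact Dt.pp_tr hy hτf
  have hf1 : T.f N.fixingSubgroup u y = T.f N.fixingSubgroup (u' + b) y := by
    have h1 := T.br_two hH hP0 hτ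
    have h3 : u' + b + (τ + τ) = u := by
      rw [← hu0]
      abel
    have h4 : T.br N.fixingSubgroup (τ + τ) (u' + b) y =
        T.f N.fixingSubgroup (u' + b + (τ + τ)) y - T.f N.fixingSubgroup (u' + b) y := rfl
    rw [h4, h3, sub_eq_zero] at h1
    exact h1
  have hu0M : (C.dt K Ω).UU M.fixingSubgroup (u' + b) := by
    intro γ hγ
    have e2 : γ • u' = u' ∨ γ • u' = u' + C.t Ω := hu' γ hγ
    change γ • (u' + b) = u' + b ∨ γ • (u' + b) = u' + b + C.t Ω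
    rw [smul_add, hbM γ hγ]
    rcases e2 with e2 | e2
    · exact Or.inl (by rw [e2])
    · exact Or.inr (by rw [e2, add_right_comm])
  rw [hf1, T.nB hH hle hu0M hP0]
  have hP1 := pp_Nb hle hfi hu0M hP0
  obtain ⟨y₁, hy₁, e₁⟩ := exists_half C L h hM2 hP1
  obtain ⟨y₂, hy₂, e₂⟩ := exists_half C L h hM2 hy₁
  have h4 := T.four_f hMo hy₂
  rw [← e₁, T.f_add hMo hy₁ hy₁, ← e₂, T.f_add hMo hy₂ hy₂, ← h4]
  abel

theorem loc₂ (h : L.H2 C) {G : Type} [AddCommGroup G] (T : Th (C.dt K Ω) G)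
    (hT : T.op = opn K Ω) : T.Loc := by
  refine ⟨fun H u y hH hy => ⟨0, fun γ => smul_zero γ, ?_⟩, fun y₀ hy₀ => ?_⟩
  · rw [f_eq_zero₂ C L h T hT H u y hH hy, T.f_zero]
  · rw [f_eq_zero₂ C L h T hT ⊤ 0 y₀ T.op_top, smul_zero]
    exact (Dt.pp_fix fun γ _ => smul_zero γ).2 fun γ _ => hy₀ γ

end BE
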