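import Pool.Agent.Lib.MP_f80667_ag.Be.Cy

/-! The points of order two of `E₂`. -/

open ZC Polynomial IntermediateField

namespace BE

section dfs

variable {F : Type} [Field F] {Ω : Type} [Field Ω] [Algebra F Ω] (C : Cf F)

theorem T_eq {e : Ω} (he : aeval e C.g = 0) : (0 : Ω) ^ 2 = e ^ 3 + algebraMap F Ω C.c₂ * e ^ 2 +
    algebraMap F Ω C.c₁ * e + algebraMap F Ω C.c₀ := by
  rw [Cf.g] at he
  simp only [map_add, map_mul, map_pow, aeval_X, aeval_C] at he
  linear_combination -he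

/-- The point `(e, 0)`. -/
noncomputable def Tp {e : Ω} (he : aeval e C.g = 0) : Pt C.W₂ Ω := C.pt₂ e 0 (T_eq C he)

theorem th_T {e : Ω} (he : aeval e C.g = 0) :
    C.th0 Ω e 0 (Tp C he) = aeval e (derivative C.g) := by
  simp only [Tp, Cf.pt₂, Pt.aff, Cf.th0, if_true]

theorem th_T' {e e' : Ω} (he : aeval e C.g = 0) (h : e' ≠ e) :
    C.th0 Ω e' 0 (Tp C he) = e - e' := by
  have h1 : C.kap Ω 0 = 1 := rfl
  simp only [Tp, Cf.pt₂, Pt.aff, Cf.th0]
  rw [if_neg h.symm, h1, one_mul]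

/-- Equality of affine points. -/
private theorem tp_congr {W : WeierstrassCurve F} {x y x' y' : Ω}
    (h : (W.baseChange Ω).toAffine.Nonsingular x y)
    (h' : (W.baseChange Ω).toAffine.Nonsingular x' y') (e1 : x = x') (e2 : y = y') :
    (Pt.aff x y h : Pt W Ω) = Pt.aff x' y' h' := by
  subst e1 e2
  rfl

/-- The point is nonsingular. -/
private theorem tp_ns {e : Ω} (he : aeval e C.g = 0) :
    ((C.W₂).baseChange Ω).toAffine.Nonsingular e 0 :=
  WeierstrassCurve.Affine.equation_iff_nonsingular.1 (by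
    rw [WeierstrassCurve.Affine.equation_iff]
    simp only [Cf.W₂, WeierstrassCurve.baseChange, WeierstrassCurve.map, map_zero]
    linear_combination T_eq C he)

private theorem tp_eq {e : Ω} (he : aeval e C.g = 0) :
    Tp C he = Pt.aff e 0 (tp_ns C he) := rfl

theorem T_add {e : Ω} (he : aeval e C.g = 0) : Tp C he + Tp C he = 0 := by
  classical
  refine WeierstrassCurve.Affine.Point.add_self_of_Y_eq (W := ((C.W₂).baseChange Ω).toAffine)
    (h₁ := tp_ns C he) ?_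
  simp [Cf.W₂, WeierstrassCurve.Affine.negY, WeierstrassCurve.baseChange, WeierstrassCurve.map]

/-- The sum of the three points of order two is `0`. -/
theorem T_sum {e₁ e₂ e₃ : Ω} (h₁ : aeval e₁ C.g = 0) (h₂ : aeval e₂ C.g = 0)
    (h₃ : aeval e₃ C.g = 0) (h12 : e₁ ≠ e₂) (h13 : e₁ ≠ e₃) (h23 : e₂ ≠ e₃) :
    Tp C h₁ + Tp C h₂ + Tp C h₃ = 0 := by
  classical
  have q1 := T_eq C h₁
  have q2 := T_eq C h₂
  have q3 := T_eq C h₃
  have a12 : e₁ ^ 2 + e₁ * e₂ + e₂ ^ 2 + algebraMap F Ω C.c₂ * (e₁ + e₂) +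
      algebraMap F Ω C.c₁ = 0 := by
    refine (mul_eq_zero.1 ?_).resolve_left (sub_ne_zero.2 h12)
    linear_combination q2 - q1
  have a13 : e₁ ^ 2 + e₁ * e₃ + e₃ ^ 2 + algebraMap F Ω C.c₂ * (e₁ + e₃) +
      algebraMap F Ω C.c₁ = 0 := by
    refine (mul_eq_zero.1 ?_).resolve_left (sub_ne_zero.2 h13)
    linear_combination q3 - q1
  have hs : e₁ + e₂ + e₃ + algebraMap F Ω C.c₂ = 0 := by
    refine (mul_eq_zero.1 ?_).resolve_left (sub_ne_zero.2 h23)
    linear_combination a12 - a13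
  have hadd : Tp C h₁ + Tp C h₂ = Pt.aff _ _
      (WeierstrassCurve.Affine.nonsingular_add (tp_ns C h₁) (tp_ns C h₂) fun hxy => h12 hxy.1) :=
    WeierstrassCurve.Affine.Point.add_of_X_ne (h₁ := tp_ns C h₁) (h₂ := tp_ns C h₂) h12
  have hX : ((C.W₂).baseChange Ω).toAffine.addX e₁ e₂
      (((C.W₂).baseChange Ω).toAffine.slope e₁ e₂ 0 0) = e₃ := by
    rw [WeierstrassCurve.Affine.slope_of_X_ne h12]
    simp only [WeierstrassCurve.Affine.addX, Cf.W₂, WeierstrassCurve.baseChange,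
      WeierstrassCurve.map, map_zero, sub_self, zero_div]
    linear_combination -hs
  have hY : ((C.W₂).baseChange Ω).toAffine.addY e₁ e₂ 0
      (((C.W₂).baseChange Ω).toAffine.slope e₁ e₂ 0 0) = 0 := by
    rw [WeierstrassCurve.Affine.addY, WeierstrassCurve.Affine.negAddY, hX,
      WeierstrassCurve.Affine.slope_of_X_ne h12]
    simp [WeierstrassCurve.Affine.negY, Cf.W₂, WeierstrassCurve.baseChange,
      WeierstrassCurve.map]
  have h3 : Tp C h₁ + Tp C h₂ = Tp C h₃ := hadd.trans (tp_congr _ _ hX hY)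
  rw [h3, T_add]

/-- `g'(e₁) = (e₁ - e₂) (e₁ - e₃)`. -/
theorem der_eq {e₁ e₂ e₃ : Ω} (h : C.g.map (algebraMap F Ω) = (X - Polynomial.C e₁) *
    (X - Polynomial.C e₂) * (X - Polynomial.C e₃)) :
    aeval e₁ (derivative C.g) = (e₁ - e₂) * (e₁ - e₃) := by
  rw [← Polynomial.eval_map_algebraMap, ← Polynomial.derivative_map, h]
  simp [Polynomial.derivative_mul]

end dfs

variable {F : Type} [Field F] {K : Type} [Field K] [CharZero K] [Algebra F K] {Ω : Type} [Field Ω]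
  [Algebra K Ω] [Algebra F Ω] [IsScalarTower F K Ω] [IsAlgClosure K Ω] (C : Cf F) (L : Lf K Ω)

theorem smul_T (σ : Ω ≃ₐ[K] Ω) {e : Ω} (he : aeval e C.g = 0) (he' : aeval (σ e) C.g = 0) :
    σ • Tp C he = Tp C he' := by
  have h1 : σ • Tp C he = Pt.aff (σ e) (σ 0)
      ((WeierstrassCurve.Affine.baseChange_nonsingular (C.W₂).toAffine
        (σ.restrictScalars F : Ω →ₐ[F] Ω).injective e 0).mpr (tp_ns C he)) := rfl
  rw [h1, tp_eq]
  exact tp_congr _ _ rfl (map_zero σ)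

theorem fix_T {M : IntermediateField K Ω} {e : Ω} (he : aeval e C.g = 0) (h : e ∈ M) :
    ∀ γ ∈ M.fixingSubgroup, γ • Tp C he = Tp C he := by
  intro γ hγ
  rw [IntermediateField.mem_fixingSubgroup_iff] at hγ
  have h1 : γ e = e := hγ e h
  have he' : aeval (γ e) C.g = 0 := by rw [h1]; exact he
  rw [smul_T C γ he he', tp_eq, tp_eq]
  exact tp_congr _ _ h1 rfl

end BE
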