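import Pool.Agent.Lib.MP_f80667_ag.Be.Vg
import Pool.Agent.Lib.MP_f80667_ag.Be.Tp

/-! Dyadic places: the classes `{u₀, T_l}`. -/

open ZC Polynomial IntermediateField

namespace BE

variable {F : Type} [Field F] {K : Type} [Field K] [CharZero K] [Algebra F K] {Ω : Type} [Field Ω]
  [Algebra K Ω] [Algebra F Ω] [IsScalarTower F K Ω] [IsAlgClosure K Ω] (C : Cf F) (L : Lf K Ω)

omit [CharZero K] in
private theorem BrT_fin (M : IntermediateField K Ω) [FiniteDimensional K M] (e : Ω) :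
    FiniteDimensional K (Me M e) := by
  have h1 : Algebra.IsAlgebraic K Ω := IsAlgClosure.isAlgebraic
  have h2 : FiniteDimensional K (IntermediateField.adjoin K {e}) :=
    IntermediateField.adjoin.finiteDimensional (Algebra.IsIntegral.isIntegral e)
  unfold Me
  infer_instance

omit [CharZero K] [IsAlgClosure K Ω] in
private theorem BrT_fix {γ : Ω ≃ₐ[K] Ω} {e : Ω} (h : γ e = e) :
    γ ∈ (Me (⊥ : IntermediateField K Ω) e).fixingSubgroup := by
  have h1 : Me (⊥ : IntermediateField K Ω) e ≤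
      IntermediateField.fixedField (Subgroup.zpowers γ) := by
    unfold Me
    refine sup_le bot_le (IntermediateField.adjoin_le_iff.2 ?_)
    rintro _ rfl
    refine (IntermediateField.mem_fixedField_iff _ _).2 fun g hg => ?_
    have h2 : Subgroup.zpowers γ ≤ MulAction.stabilizer (Ω ≃ₐ[K] Ω) _ :=
      Subgroup.zpowers_le.2 (MulAction.mem_stabilizer_iff.2 h)
    exact MulAction.mem_stabilizer_iff.1 (h2 hg)
  exact (IntermediateField.le_iff_le _ _).1 h1 (Subgroup.mem_zpowers γ)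

omit [CharZero K] [IsAlgClosure K Ω] in
private theorem BrT_root (γ : Ω ≃ₐ[K] Ω) {e : Ω} (he : aeval e C.g = 0) :
    aeval (γ e) C.g = 0 := by
  have h1 := Polynomial.aeval_algHom_apply (γ.restrictScalars F : Ω →ₐ[F] Ω) e C.g
  rw [he, map_zero] at h1
  exact h1

private theorem BrT_sum (h : L.H3 C) {e e' : Ω} (he : aeval e C.g = 0) (he' : aeval e' C.g = 0) :
    ∑ᶠ q : (⊤ : Subgroup (Ω ≃ₐ[K] Ω)) ⧸
        ((Me (⊥ : IntermediateField K Ω) e).fixingSubgroup).subgroupOf ⊤,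
      (q.out : Ω ≃ₐ[K] Ω) • Tp C he' = 0 := by
  classical
  have hfd := BrT_fin (⊥ : IntermediateField K Ω) e
  have hcard : Nat.card ((⊤ : Subgroup (Ω ≃ₐ[K] Ω)) ⧸
      ((Me (⊥ : IntermediateField K Ω) e).fixingSubgroup).subgroupOf ⊤) = 3 := by
    have h1 := relIndex_fix (bot_le : (⊥ : IntermediateField K Ω) ≤ Me ⊥ e)
    rw [finrank_Me₃ C L h (no_root₃ C L h) he, IntermediateField.finrank_bot,
      IntermediateField.fixingSubgroup_bot, mul_one, mul_one] at h1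
    exact h1
  have hfin : Finite ((⊤ : Subgroup (Ω ≃ₐ[K] Ω)) ⧸
      ((Me (⊥ : IntermediateField K Ω) e).fixingSubgroup).subgroupOf ⊤) :=
    Nat.finite_of_card_ne_zero (by rw [hcard]; decide)
  cases nonempty_fintype ((⊤ : Subgroup (Ω ≃ₐ[K] Ω)) ⧸
    ((Me (⊥ : IntermediateField K Ω) e).fixingSubgroup).subgroupOf ⊤)
  obtain ⟨e₁, e₂, e₃, σ, -, hg, h12, h13, h23, -⟩ := exists_cyc C L h (no_root₃ C L h)
  have hroot : ∀ x : Ω, aeval x C.g = 0 ↔ x = e₁ ∨ x = e₂ ∨ x = e₃ := by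
    intro x
    rw [← Polynomial.eval_map_algebraMap, hg]
    simp only [eval_mul, eval_sub, eval_X, eval_C, mul_eq_zero, sub_eq_zero, or_assoc]
  have h₁ := (hroot e₁).2 (Or.inl rfl)
  have h₂ := (hroot e₂).2 (Or.inr (Or.inl rfl))
  have h₃ := (hroot e₃).2 (Or.inr (Or.inr rfl))
  obtain ⟨Φ, hΦ⟩ : ∃ Φ : Ω → Pt C.W₂ Ω, ∀ (x : Ω) (hx : aeval x C.g = 0), Φ x = Tp C hx :=
    ⟨fun x => if hx : aeval x C.g = 0 then Tp C hx else 0, fun x hx => dif_pos hx⟩
  obtain ⟨r, hr⟩ : ∃ r : (⊤ : Subgroup (Ω ≃ₐ[K] Ω)) ⧸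
      ((Me (⊥ : IntermediateField K Ω) e).fixingSubgroup).subgroupOf ⊤ → Ω,
      ∀ q, r q = (q.out : Ω ≃ₐ[K] Ω) e' := ⟨_, fun q => rfl⟩
  have hinj : Function.Injective r := by
    intro q q' hqq
    rw [hr, hr] at hqq
    rw [← QuotientGroup.out_eq' q, ← QuotientGroup.out_eq' q', QuotientGroup.eq,
      Subgroup.mem_subgroupOf]
    have h4 : (((q.out)⁻¹ * q'.out : (⊤ : Subgroup (Ω ≃ₐ[K] Ω))) : Ω ≃ₐ[K] Ω) e' = e' := by
      change (q.out : Ω ≃ₐ[K] Ω)⁻¹ ((q'.out : Ω ≃ₐ[K] Ω) e') = e'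
      rw [← hqq]
      exact AlgEquiv.symm_apply_apply _ _
    refine fix_le ?_ (BrT_fix h4)
    have h5 := root_mem C L h he' he
    unfold Me at h5 ⊢
    refine sup_le bot_le (IntermediateField.adjoin_le_iff.2 ?_)
    rintro _ rfl
    exact h5
  have himg : Finset.univ.image r = {e₁, e₂, e₃} := by
    refine Finset.eq_of_subset_of_card_le ?_ ?_
    · intro x hx
      obtain ⟨q, -, rfl⟩ := Finset.mem_image.1 hx
      rw [hr]
      have h4 := (hroot _).1 (BrT_root C (q.out : Ω ≃ₐ[K] Ω) he')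
      simpa only [Finset.mem_insert, Finset.mem_singleton] using h4
    · rw [Finset.card_image_of_injective _ hinj, Finset.card_univ, ← Nat.card_eq_fintype_card,
        hcard]
      exact Finset.card_le_three
  rw [finsum_eq_sum_of_fintype]
  have h6 : ∀ q : (⊤ : Subgroup (Ω ≃ₐ[K] Ω)) ⧸
      ((Me (⊥ : IntermediateField K Ω) e).fixingSubgroup).subgroupOf ⊤,
      (q.out : Ω ≃ₐ[K] Ω) • Tp C he' = Φ (r q) := by
    intro q
    rw [hr, hΦ _ (BrT_root C (q.out : Ω ≃ₐ[K] Ω) he')]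
    exact smul_T C _ he' _
  rw [Finset.sum_congr rfl fun q _ => h6 q, ← Finset.sum_image (f := Φ) (g := r)
    (s := Finset.univ) hinj.injOn, himg, Finset.sum_insert (by simp [h12, h13]),
    Finset.sum_insert (by simp [h23]), Finset.sum_singleton, hΦ _ h₁, hΦ _ h₂, hΦ _ h₃,
    ← add_assoc]
  exact T_sum C h₁ h₂ h₃ h12 h13 h23

/-- **`{u₀, T} = 0`.** Proof: `T = (e', 0)` is a point over `K(e') = K(e)`; `[K₁ : K(e)] = N` is odd (`finrank_th`), so `br_(K₁) = ± br_(K(e))` (`br_odd`), and over `K(e)`: `f(u₀, T) = f ⊤ u₀ (Nb T)`, `f(0, T) = f ⊤ 0 (Nb T)` (`nB`) with `Nb T = T₁ + T₂ + T₃ = 0`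
(`exists_cyc`, `smul_T`, `T_sum`). -/
theorem br_T (h : L.H3 C) {G : Type} [AddCommGroup G] (T : Th (C.dt K Ω) G)
    (hT : T.op = opn K Ω) {u₀ : Pt C.W₁ Ω} (hu : ∀ γ : Ω ≃ₐ[K] Ω, γ • u₀ = u₀) {e e' θ : Ω}
    (he : aeval e C.g = 0) (he' : aeval e' C.g = 0) {N : ℕ} (hN : Odd N) (hθ : θ ^ N = 2) :
    T.br (Me (Me (⊥ : IntermediateField K Ω) e) θ).fixingSubgroup u₀ 0 (Tp C he') = 0 := by
  have hf1 := BrT_fin (⊥ : IntermediateField K Ω) e
  have hf2 := BrT_fin (Me (⊥ : IntermediateField K Ω) e) θ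
  have hle : Me (⊥ : IntermediateField K Ω) e ≤ Me (Me ⊥ e) θ := by
    conv_rhs => unfold Me
    exact le_sup_left
  have hS : T.op (Me (Me (⊥ : IntermediateField K Ω) e) θ).fixingSubgroup := by
    rw [hT]
    exact opn_fix _
  have hH : T.op (Me (⊥ : IntermediateField K Ω) e).fixingSubgroup := by
    rw [hT]
    exact opn_fix _
  have hfT : ∀ γ ∈ (Me (⊥ : IntermediateField K Ω) e).fixingSubgroup,
      γ • Tp C he' = Tp C he' := fix_T C he' (root_mem C L h he he')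
  -- over `K(e)` the class of a point over a fixed `u` is `0`
  have key : ∀ u : Pt C.W₁ Ω, (∀ γ : Ω ≃ₐ[K] Ω, γ • u = u) →
      (C.dt K Ω).PP (Me (⊥ : IntermediateField K Ω) e).fixingSubgroup u (Tp C he') ∧
        T.f (Me (⊥ : IntermediateField K Ω) e).fixingSubgroup u (Tp C he') = 0 := by
    intro u hu
    have h1 : (C.dt K Ω).PP (Me (⊥ : IntermediateField K Ω) e).fixingSubgroup u (Tp C he') :=
      (Dt.pp_fix fun γ _ => hu γ).2 hfT
    refine ⟨h1, ?_⟩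
    rw [T.nB hH le_top (Dt.uu_of_fix fun γ _ => hu γ) h1, Nb_fix fun γ _ => hu γ,
      BrT_sum C L h he he', Th.f_zero]
  have key' : ∀ u : Pt C.W₁ Ω, (∀ γ : Ω ≃ₐ[K] Ω, γ • u = u) →
      T.f (Me (Me (⊥ : IntermediateField K Ω) e) θ).fixingSubgroup u (Tp C he') = 0 := by
    intro u hu
    obtain ⟨h1, h2⟩ := key u hu
    rw [T.f_res hS (fix_le hle) h1, h2, smul_zero]
  unfold Th.br
  rw [key' _ (fun γ => by rw [zero_add]; exact hu γ), key' _ (fun γ => smul_zero γ), sub_zero]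

end BE
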