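import Pool.Agent.Lib.MP_f80667_ag.Be.C1

/-! Dyadic places: fields without roots of `g`. -/

open ZC Polynomial IntermediateField

namespace BE

variable {F : Type} [Field F] {K : Type} [Field K] [CharZero K] [Algebra F K] {Ω : Type} [Field Ω]
  [Algebra K Ω] [Algebra F Ω] [IsScalarTower F K Ω] [IsAlgClosure K Ω] (C : Cf F) (L : Lf K Ω)

omit [CharZero K] [IsAlgClosure K Ω] in
/-- Conjugation and roots. -/
theorem C2_root (σ : Ω ≃ₐ[K] Ω) (e : Ω) (p : F[X]) : σ (aeval e p) = aeval (σ e) p := by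
  have h1 := aeval_algHom_apply (σ.restrictScalars F : Ω →ₐ[F] Ω) e p
  exact h1.symm

/-- Conjugation of the classes `d_e(y)`. -/
theorem C2_gal (σ : Ω ≃ₐ[K] Ω) (e : Ω) {y : Pt C.W₂ Ω} (hy : σ • y = y) :
    σ (C.th0 Ω e 0 y) = C.th0 Ω (σ e) 0 y := by
  classical
  rcases Pt.cases' y with rfl | ⟨w, v, hP, rfl⟩
  · exact map_one σ
  · have h1 := (Gal_smul_aff hP σ).1 hy
    have h2 : ∀ e : Ω, C.th0 Ω e 0 (Pt.aff w v hP) =
        if w = e then aeval e (derivative C.g) else (1 : Ω) * (w - e) := fun e => by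
      rfl
    rw [h2, h2]
    by_cases he : w = e
    · rw [if_pos he, if_pos (by rw [← he, h1.1]), C2_root]
    · rw [if_neg he, if_neg (fun h => he (σ.injective (by rw [h1.1, h])))]
      rw [one_mul, one_mul, map_sub, h1.1]

/-- **Fields without roots of `g`.** Proof: let `N = M(e)` (degree `3`, all roots in `N`), `σ` as in `exists_cyc`. The symbols `(al u, d_{e_i}(y))` over `N` are conjugate
(`HS.act`, `N / M` is normal), so all trivial or all nontrivial; their product is the symbol with a square (`th_prod`, `HS.mulr`), so they are trivial and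
`br_N(u, y) = 0` (`br_of_symb`); `br_odd`, `two_br`. -/
theorem br_no_root (h : L.H3 C) (S : Sym K Ω) {G : Type} [AddCommGroup G]
    (T : Th (C.dt K Ω) G) (hT : T.op = opn K Ω) {M : IntermediateField K Ω} [FiniteDimensional K M]
    {u : Pt C.W₁ Ω} {y : Pt C.W₂ Ω} (hM : ∀ e ∈ M, aeval e C.g ≠ 0)
    (hu : ∀ γ ∈ M.fixingSubgroup, γ • u = u) (hy : ∀ γ ∈ M.fixingSubgroup, γ • y = y) :
    T.br M.fixingSubgroup u 0 y = 0 := by
  obtain ⟨e₁, e₂, e₃, σ, hσ, hfac, -, -, -, s1, s2, s3⟩ := exists_cyc C L h hM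
  have hroot : ∀ z : Ω, aeval z C.g = (z - e₁) * (z - e₂) * (z - e₃) := by
    intro z
    have h1 := congrArg (Polynomial.eval z) hfac
    rw [Polynomial.eval_map_algebraMap] at h1
    rw [h1]
    simp
  have r1 : aeval e₁ C.g = 0 := by rw [hroot]; ring
  have r2 : aeval e₂ C.g = 0 := by rw [hroot]; ring
  have r3 : aeval e₃ C.g = 0 := by rw [hroot]; ring
  obtain ⟨N, hN⟩ : ∃ N, N = Me M e₁ := ⟨_, rfl⟩
  have hdeg : Module.finrank K N = 3 * Module.finrank K M := by
    rw [hN]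
    exact finrank_Me₃ C L h hM r1
  have hMpos : 0 < Module.finrank K M := Module.finrank_pos
  have hfinN : FiniteDimensional K N := Module.finite_of_finrank_pos (by omega)
  have hMN : M ≤ N := by
    rw [hN]
    exact le_sup_left
  have he₁N : e₁ ∈ N := by
    rw [hN]
    exact (le_sup_right : _ ≤ Me M e₁) (IntermediateField.mem_adjoin_simple_self K e₁)
  have hall : ∀ e : Ω, aeval e C.g = 0 → e ∈ N := fun e he => root_all C L h r1 he he₁N
  -- `N / M` is normal
  have hmap : ∀ τ ∈ M.fixingSubgroup, ∀ x ∈ N, τ x ∈ N := by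
    intro τ hτ x hx
    have h1 : N ≤ IntermediateField.comap (τ : Ω →ₐ[K] Ω) N := by
      rw [hN]
      refine sup_le ?_ ?_
      · intro z hz
        change τ z ∈ Me M e₁
        rw [(IntermediateField.mem_fixingSubgroup_iff M τ).1 hτ z hz]
        exact (le_sup_left : M ≤ Me M e₁) hz
      · rw [IntermediateField.adjoin_simple_le_iff]
        change τ e₁ ∈ Me M e₁
        rw [← hN]
        refine hall _ ?_
        rw [← C2_root, r1, map_zero]
    exact h1 hx
  have hσN : ∀ x, σ x ∈ N ↔ x ∈ N := by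
    intro x
    refine ⟨fun hx => ?_, hmap σ hσ x⟩
    have h1 := hmap σ⁻¹ (inv_mem hσ) _ hx
    have h2 : σ⁻¹ (σ x) = x := σ.symm_apply_apply x
    rwa [h2] at h1
  -- invariance over `N`
  have hle := fix_le hMN
  have hu' : ∀ γ ∈ N.fixingSubgroup, γ • u = u := fun γ hγ => hu γ (hle hγ)
  have hy' : ∀ γ ∈ N.fixingSubgroup, γ • y = y := fun γ hγ => hy γ (hle hγ)
  have hal : C.al u ∈ N := al_mem C hu'
  have hal0 : C.al u ≠ 0 := al_ne C u
  have hal1 : σ (C.al u) = C.al u := by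
    rw [al_gal, hu σ hσ]
  have hPP : (C.dt K Ω).PP M.fixingSubgroup 0 y :=
    (Dt.pp_fix fun γ _ => smul_zero γ).2 hy
  have hPPN : (C.dt K Ω).PP N.fixingSubgroup 0 y :=
    (Dt.pp_fix fun γ _ => smul_zero γ).2 hy'
  have hMe : ∀ e : Ω, aeval e C.g = 0 → C.th0 Ω e 0 y ∈ N := by
    intro e he
    have h1 := th_mem C he hPPN
    have h2 : Me N e ≤ N := by
      refine sup_le le_rfl ?_
      rw [IntermediateField.adjoin_simple_le_iff]
      exact hall e he
    exact h2 h1
  have hne : ∀ e : Ω, aeval e C.g = 0 → C.th0 Ω e 0 y ≠ 0 := fun e he => th_ne C e he 0 y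
  -- the symbols are conjugate
  have hconj : ∀ e : Ω, HS N (C.al u) (C.th0 Ω (σ e) 0 y) ↔ HS N (C.al u) (C.th0 Ω e 0 y) := by
    intro e
    have h1 := HS.act hσN (a := C.al u) (b := C.th0 Ω e 0 y)
    rwa [hal1, C2_gal C σ e (hy σ hσ)] at h1
  have h12 := hconj e₁
  rw [s1] at h12
  have h23 := hconj e₂
  rw [s2] at h23
  -- the product
  have hprod : SqM N (C.th0 Ω e₁ 0 y * C.th0 Ω e₂ 0 y * C.th0 Ω e₃ 0 y) := th_prod C hfac hPPN
  have hs0 : HS N (C.al u) (C.th0 Ω e₁ 0 y * C.th0 Ω e₂ 0 y * C.th0 Ω e₃ 0 y) :=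
    HS.of_sq_right hal hprod (mul_ne_zero (mul_ne_zero (hne _ r1) (hne _ r2)) (hne _ r3))
  rw [HS.mulr S hfinN hal (mul_mem (hMe _ r1) (hMe _ r2)) (hMe _ r3) hal0
    (mul_ne_zero (hne _ r1) (hne _ r2)) (hne _ r3),
    HS.mulr S hfinN hal (hMe _ r1) (hMe _ r2) hal0 (hne _ r1) (hne _ r2)] at hs0
  have ht3 : HS N (C.al u) (C.th0 Ω e₃ 0 y) := hs0.1 h12.symm
  have ht2 : HS N (C.al u) (C.th0 Ω e₂ 0 y) := h23.1 ht3
  have ht1 : HS N (C.al u) (C.th0 Ω e₁ 0 y) := h12.1 ht2
  have hbr : T.br N.fixingSubgroup u 0 y = 0 := by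
    refine br_of_symb C L h S T hT hall hu' hy' ?_
    intro e he
    rw [hroot] at he
    rcases mul_eq_zero.1 he with he | he
    · rcases mul_eq_zero.1 he with he | he
      · rw [sub_eq_zero.1 he]
        exact ht1
      · rw [sub_eq_zero.1 he]
        exact ht2
    · rw [sub_eq_zero.1 he]
      exact ht3
  have hrel : N.fixingSubgroup.relIndex M.fixingSubgroup = 3 := by
    have h1 := relIndex_fix hMN
    rw [hdeg] at h1
    exact Nat.eq_of_mul_eq_mul_right hMpos h1
  have hop : T.op N.fixingSubgroup := by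
    rw [hT]
    exact opn_fix N
  exact T.br_odd hop hle (by rw [hrel]; decide) hPP hu hbr

end BE
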