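import Pool.Agent.Lib.MP_f80667_ag.Be.U0

/-! Dyadic places: the symbols `(a₀, T_l)`. -/

open ZC Polynomial IntermediateField

namespace BE

variable {F : Type} [Field F] {K : Type} [Field K] [CharZero K] [Algebra F K] {Ω : Type} [Field Ω]
  [Algebra K Ω] [Algebra F Ω] [IsScalarTower F K Ω] [IsAlgClosure K Ω] (C : Cf F) (L : Lf K Ω)

omit [CharZero K] [IsAlgClosure K Ω] in
theorem U1_aeval_act (σ : Ω ≃ₐ[K] Ω) (p : F[X]) (x : Ω) : σ (aeval x p) = aeval (σ x) p := by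
  have h1 := Polynomial.aeval_algHom_apply (σ.restrictScalars F : Ω →ₐ[F] Ω) x p
  exact h1.symm

omit [CharZero K] [IsAlgClosure K Ω] [Field K] [Algebra F K] [Algebra K Ω] [IsScalarTower F K Ω] in
theorem U1_root {e₁ e₂ e₃ : Ω} (hr : C.g.map (algebraMap F Ω) = (X - Polynomial.C e₁) *
    (X - Polynomial.C e₂) * (X - Polynomial.C e₃)) (x : Ω) :
    aeval x C.g = (x - e₁) * (x - e₂) * (x - e₃) := by
  have h1 : aeval x C.g = (C.g.map (algebraMap F Ω)).eval x := by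
    rw [eval_map, aeval_def]
  rw [h1, hr]
  simp only [eval_mul, eval_sub, eval_X, eval_C]

omit [CharZero K] [IsAlgClosure K Ω] [Field K] [Algebra F K] [Algebra K Ω] [IsScalarTower F K Ω] in
theorem U1_disc [CharZero Ω] {e₁ e₂ e₃ : Ω} (hr : C.g.map (algebraMap F Ω) =
    (X - Polynomial.C e₁) * (X - Polynomial.C e₂) * (X - Polynomial.C e₃)) :
    e₁ ≠ e₂ ∧ e₁ ≠ e₃ ∧ e₂ ≠ e₃ := by
  have h1 := U1_root C hr
  have h2 : ∀ x : Ω, x ^ 3 + algebraMap F Ω C.c₂ * x ^ 2 + algebraMap F Ω C.c₁ * x +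
      algebraMap F Ω C.c₀ = (x - e₁) * (x - e₂) * (x - e₃) := by
    intro x
    rw [← h1 x, Cf.g]
    simp only [map_add, map_mul, map_pow, aeval_X, aeval_C]
  have g0 : algebraMap F Ω C.c₀ = - (e₁ * e₂ * e₃) := by
    have := h2 0
    linear_combination this
  have g2 : algebraMap F Ω C.c₂ = - (e₁ + e₂ + e₃) := by
    have k1 := h2 1
    have k2 := h2 (-1)
    have h3 : (2 : Ω) * (algebraMap F Ω C.c₂ + (e₁ + e₂ + e₃)) = 0 := by
      linear_combination k1 + k2 - 2 * g0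
    have h4 := (mul_eq_zero.1 h3).resolve_left two_ne_zero
    linear_combination h4
  have g1 : algebraMap F Ω C.c₁ = e₁ * e₂ + e₁ * e₃ + e₂ * e₃ := by
    have k1 := h2 1
    linear_combination k1 - g0 - g2
  have hd : algebraMap F Ω C.disc = ((e₁ - e₂) * (e₁ - e₃) * (e₂ - e₃)) ^ 2 := by
    rw [Cf.disc]
    simp only [map_add, map_sub, map_mul, map_pow, map_ofNat, g0, g1, g2]
    ring
  have hne : algebraMap F Ω C.disc ≠ 0 := by
    rw [Ne, map_eq_zero]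
    exact C.hc
  rw [hd] at hne
  refine ⟨?_, ?_, ?_⟩ <;> rintro rfl <;> apply hne <;> ring

/-- An automorphism which permutes the roots cyclically, in the given order. -/
theorem U1_cyc (h : L.H3 C) {e₁ e₂ e₃ : Ω} (hr : C.g.map (algebraMap F Ω) =
    (X - Polynomial.C e₁) * (X - Polynomial.C e₂) * (X - Polynomial.C e₃))
    (h12 : e₁ ≠ e₂) (h13 : e₁ ≠ e₃) (h23 : e₂ ≠ e₃) :
    ∃ σ : Ω ≃ₐ[K] Ω, σ e₁ = e₂ ∧ σ e₂ = e₃ ∧ σ e₃ = e₁ := by
  obtain ⟨d₁, d₂, d₃, σ, -, hr', d12, d13, d23, s1, s2, s3⟩ :=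
    exists_cyc C L h (M := ⊥) (no_root₃ C L h)
  have hroot : ∀ x : Ω, aeval x C.g = 0 → x = e₁ ∨ x = e₂ ∨ x = e₃ := by
    intro x hx
    rw [U1_root C hr, mul_eq_zero, mul_eq_zero, sub_eq_zero, sub_eq_zero, sub_eq_zero] at hx
    tauto
  have hroot' : ∀ x : Ω, aeval x C.g = 0 → x = d₁ ∨ x = d₂ ∨ x = d₃ := by
    intro x hx
    rw [U1_root C hr', mul_eq_zero, mul_eq_zero, sub_eq_zero, sub_eq_zero, sub_eq_zero] at hx
    tauto
  have hmv : ∀ x : Ω, aeval x C.g = 0 → σ x ≠ x := by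
    intro x hx
    rcases hroot' x hx with rfl | rfl | rfl
    · rw [s1]
      exact d12.symm
    · rw [s2]
      exact d23.symm
    · rw [s3]
      exact d13
  have hσ : ∀ x : Ω, aeval x C.g = 0 → aeval (σ x) C.g = 0 := by
    intro x hx
    rw [← U1_aeval_act, hx, map_zero]
  have r1 : aeval e₁ C.g = 0 := by
    rw [U1_root C hr]
    ring
  have r2 : aeval e₂ C.g = 0 := by
    rw [U1_root C hr]
    ring
  have r3 : aeval e₃ C.g = 0 := by
    rw [U1_root C hr]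
    ring
  have inj : ∀ x y : Ω, x ≠ y → σ x ≠ σ y := fun x y hxy h => hxy (σ.injective h)
  have i12 := inj _ _ h12
  have i13 := inj _ _ h13
  have i23 := inj _ _ h23
  have m1 := hmv _ r1
  have m2 := hmv _ r2
  have m3 := hmv _ r3
  rcases hroot _ (hσ _ r1) with k1 | k1 | k1
  · exact absurd k1 m1
  · rcases hroot _ (hσ _ r2) with k2 | k2 | k2
    · rcases hroot _ (hσ _ r3) with k3 | k3 | k3
      · exact absurd (k2.trans k3.symm) i23
      · exact absurd (k1.trans k3.symm) i13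
      · exact absurd k3 m3
    · exact absurd k2 m2
    · rcases hroot _ (hσ _ r3) with k3 | k3 | k3
      · exact ⟨σ, k1, k2, k3⟩
      · exact absurd (k1.trans k3.symm) i13
      · exact absurd k3 m3
  · rcases hroot _ (hσ _ r2) with k2 | k2 | k2
    · rcases hroot _ (hσ _ r3) with k3 | k3 | k3
      · exact absurd (k2.trans k3.symm) i23
      · refine ⟨σ.symm, ?_, ?_, ?_⟩
        · rw [← k2, AlgEquiv.symm_apply_apply]
        · rw [← k3, AlgEquiv.symm_apply_apply]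
        · rw [← k1, AlgEquiv.symm_apply_apply]
      · exact absurd k3 m3
    · exact absurd k2 m2
    · exact absurd (k1.trans k2.symm) i12

/-- `K(e)` is stable under the Galois group. -/
theorem U1_stable (h : L.H3 C) {e : Ω} (he : aeval e C.g = 0) (σ : Ω ≃ₐ[K] Ω) (x : Ω) :
    σ x ∈ Me (⊥ : IntermediateField K Ω) e ↔ x ∈ Me (⊥ : IntermediateField K Ω) e := by
  have key : ∀ (τ : Ω ≃ₐ[K] Ω) (y : Ω), y ∈ Me (⊥ : IntermediateField K Ω) e →
      τ y ∈ Me (⊥ : IntermediateField K Ω) e := by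
    intro τ y hy
    have h1 : (Me (⊥ : IntermediateField K Ω) e).map (τ : Ω →ₐ[K] Ω) ≤
        Me (⊥ : IntermediateField K Ω) e := by
      rw [Me, bot_sup_eq, IntermediateField.adjoin_map, IntermediateField.adjoin_le_iff]
      rintro _ ⟨z, hz, rfl⟩
      rw [Set.mem_singleton_iff] at hz
      subst hz
      have h2 : aeval (τ z) C.g = 0 := by
        rw [← U1_aeval_act, he, map_zero]
      have h3 := root_mem C L h he h2
      rw [Me, bot_sup_eq] at h3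
      exact h3
    exact h1 ⟨y, hy, rfl⟩
  constructor
  · intro hx
    have h1 := key σ.symm _ hx
    rwa [AlgEquiv.symm_apply_apply] at h1
  · exact key σ x

/-- **The three nontrivial vectors.** `K₁ = K(e₁, θ)`. For `P₁`, `P₂` not both true there is a root `e'` such that `(a₀, d_{e₁}(T_{e'})) = 1` iff `P₁` and `(a₀, d_{e₂}(T_{e'})) = 1` iff `P₂` (over `K₁`; equivalent: over
`K(e₁)`, `HS.odd`, `finrank_th`). Proof: let `σ e₁ = e₂`, `σ e₂ = e₃`, `σ e₃ = e₁` (or the inverse: `exists_cyc`); `(a₀, e₁ - e₂) = (a₀, e₂ - e₃) = (a₀, e₃ - e₁) = ε` (`HS.act`), `(a₀, e₁ - e₃) = (a₀, e₂ - e₁) = (a₀, e₃ - e₂) = ε'`,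
`(a₀, g'(e_i)) = - 1`, `ε ε' = - 1`. The vectors for `T₁`, `T₂`, `T₃` are `(- 1, ε)`, `(ε', - 1)`, `(ε, ε')`: the three vectors `≠ (1, 1)`. -/
theorem exists_vec (h : L.H3 C) (S : Sym K Ω) {a₀ : Ω} (ha : a₀ ∈ (⊥ : IntermediateField K Ω))
    (h0 : a₀ ≠ 0) (hns : ∀ e : Ω, aeval e C.g = 0 →
      ¬ HS (Me (⊥ : IntermediateField K Ω) e) a₀ (aeval e (derivative C.g)))
    {e₁ e₂ e₃ θ : Ω} (hr : C.g.map (algebraMap F Ω) = (X - Polynomial.C e₁) *
      (X - Polynomial.C e₂) * (X - Polynomial.C e₃)) {N : ℕ} (hN : Odd N) (hθ : θ ^ N = 2)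
    (P₁ P₂ : Prop) (hP : ¬ (P₁ ∧ P₂)) :
    ∃ (e' : Ω) (he' : aeval e' C.g = 0),
      (HS (Me (Me (⊥ : IntermediateField K Ω) e₁) θ) a₀ (C.th0 Ω e₁ 0 (Tp C he')) ↔ P₁) ∧
      (HS (Me (Me (⊥ : IntermediateField K Ω) e₁) θ) a₀ (C.th0 Ω e₂ 0 (Tp C he')) ↔ P₂) := by
  have _ : CharZero Ω := charZero_of_injective_algebraMap (algebraMap K Ω).injective
  obtain ⟨h12, h13, h23⟩ := U1_disc C hr
  have r1 : aeval e₁ C.g = 0 := by
    rw [U1_root C hr]
    ring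
  have r2 : aeval e₂ C.g = 0 := by
    rw [U1_root C hr]
    ring
  have r3 : aeval e₃ C.g = 0 := by
    rw [U1_root C hr]
    ring
  obtain ⟨σ, s1, s2, s3⟩ := U1_cyc C L h hr h12 h13 h23
  obtain ⟨M, hM⟩ : ∃ M, M = Me (⊥ : IntermediateField K Ω) e₁ := ⟨_, rfl⟩
  have hst : ∀ x, σ x ∈ M ↔ x ∈ M := by
    rw [hM]
    exact U1_stable C L h r1 σ
  have m1 : e₁ ∈ M := by
    rw [hM]
    exact root_mem C L h r1 r1
  have m2 : e₂ ∈ M := by
    rw [hM]
    exact root_mem C L h r1 r2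
  have m3 : e₃ ∈ M := by
    rw [hM]
    exact root_mem C L h r1 r3
  have m0 : a₀ ∈ M := (bot_le : (⊥ : IntermediateField K Ω) ≤ M) ha
  have hσa : σ a₀ = a₀ := by
    rw [IntermediateField.mem_bot] at ha
    obtain ⟨c, rfl⟩ := ha
    exact σ.commutes c
  have hfr : Module.finrank K M = 3 := by
    rw [hM, finrank_Me₃ C L h (M := ⊥) (no_root₃ C L h) r1, IntermediateField.finrank_bot]
  have hMf : FiniteDimensional K M := FiniteDimensional.of_finrank_pos (by rw [hfr]; norm_num)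
  have hact : ∀ b : Ω, HS M a₀ (σ b) ↔ HS M a₀ b := by
    intro b
    have h1 := HS.act (M := M) (σ := σ) hst (a := a₀) (b := b)
    rwa [hσa] at h1
  have a1 : HS M a₀ (e₂ - e₃) ↔ HS M a₀ (e₁ - e₂) := by
    have h1 := hact (e₁ - e₂)
    rwa [map_sub, s1, s2] at h1
  have a2 : HS M a₀ (e₃ - e₁) ↔ HS M a₀ (e₂ - e₃) := by
    have h1 := hact (e₂ - e₃)
    rwa [map_sub, s2, s3] at h1
  have b1 : HS M a₀ (e₂ - e₁) ↔ HS M a₀ (e₁ - e₃) := by
    have h1 := hact (e₁ - e₃)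
    rwa [map_sub, s1, s3] at h1
  have b2 : HS M a₀ (e₃ - e₂) ↔ HS M a₀ (e₂ - e₁) := by
    have h1 := hact (e₂ - e₁)
    rwa [map_sub, s1, s2] at h1
  have c1 : ¬ HS M a₀ (aeval e₁ (derivative C.g)) := by
    rw [hM]
    exact hns e₁ r1
  have c2 : ¬ HS M a₀ (aeval e₂ (derivative C.g)) := by
    have h1 := hact (aeval e₁ (derivative C.g))
    rw [U1_aeval_act, s1] at h1
    rwa [h1]
  have dr := der_eq C hr
  have hmul := HS.mulr S hMf m0 (M.sub_mem m1 m2) (M.sub_mem m1 m3) h0 (sub_ne_zero.2 h12)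
    (sub_ne_zero.2 h13)
  rw [← dr] at hmul
  have hne : ¬ (HS M a₀ (e₁ - e₂) ↔ HS M a₀ (e₁ - e₃)) := fun hh => c1 (hmul.2 hh)
  -- the field `K₁`
  have hN0 : 0 < N := hN.pos
  have hfr1 : Module.finrank K (Me M θ) = 3 * N := by
    rw [hM]
    exact finrank_th C L h r1 hN0 hθ
  have hM1 : FiniteDimensional K (Me M θ) :=
    FiniteDimensional.of_finrank_pos (by rw [hfr1]; omega)
  have hle : M ≤ Me M θ := le_sup_left
  have hodd : Odd (Module.finrank K (Me M θ) / Module.finrank K M) := by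
    rw [hfr1, hfr, Nat.mul_div_cancel_left _ (by norm_num)]
    exact hN
  have ho : ∀ b ∈ M, b ≠ 0 → (HS (Me M θ) a₀ b ↔ HS M a₀ b) := fun b hb hb0 =>
    HS.odd hle hodd m0 hb h0 hb0
  have d1 : aeval e₁ (derivative C.g) ∈ M := by
    rw [dr]
    exact M.mul_mem (M.sub_mem m1 m2) (M.sub_mem m1 m3)
  have d1' : aeval e₁ (derivative C.g) ≠ 0 := by
    rw [dr]
    exact mul_ne_zero (sub_ne_zero.2 h12) (sub_ne_zero.2 h13)
  have d2 : aeval e₂ (derivative C.g) ∈ M := by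
    rw [← s1, ← U1_aeval_act, hst]
    exact d1
  have d2' : aeval e₂ (derivative C.g) ≠ 0 := by
    rw [← s1, ← U1_aeval_act, Ne, map_eq_zero]
    exact d1'
  rw [← hM]
  -- the three vectors
  have v1 : (HS (Me M θ) a₀ (C.th0 Ω e₁ 0 (Tp C r1)) ↔ False) ∧
      (HS (Me M θ) a₀ (C.th0 Ω e₂ 0 (Tp C r1)) ↔ HS M a₀ (e₁ - e₂)) := by
    rw [th_T, th_T' C r1 h12.symm, ho _ d1 d1', ho _ (M.sub_mem m1 m2) (sub_ne_zero.2 h12)]
    exact ⟨iff_false_intro c1, Iff.rfl⟩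
  have v2 : (HS (Me M θ) a₀ (C.th0 Ω e₁ 0 (Tp C r2)) ↔ HS M a₀ (e₁ - e₃)) ∧
      (HS (Me M θ) a₀ (C.th0 Ω e₂ 0 (Tp C r2)) ↔ False) := by
    rw [th_T, th_T' C r2 h12, ho _ d2 d2', ho _ (M.sub_mem m2 m1) (sub_ne_zero.2 h12.symm)]
    exact ⟨b1, iff_false_intro c2⟩
  have v3 : (HS (Me M θ) a₀ (C.th0 Ω e₁ 0 (Tp C r3)) ↔ HS M a₀ (e₁ - e₂)) ∧
      (HS (Me M θ) a₀ (C.th0 Ω e₂ 0 (Tp C r3)) ↔ HS M a₀ (e₁ - e₃)) := by
    rw [th_T' C r3 h13, th_T' C r3 h23, ho _ (M.sub_mem m3 m1) (sub_ne_zero.2 h13.symm),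
      ho _ (M.sub_mem m3 m2) (sub_ne_zero.2 h23.symm)]
    exact ⟨a2.trans a1, b2.trans b1⟩
  by_cases hε : HS M a₀ (e₁ - e₂) <;> by_cases hε' : HS M a₀ (e₁ - e₃)
  · exact absurd (iff_of_true hε hε') hne
  · by_cases hP1 : P₁ <;> by_cases hP2 : P₂
    · exact absurd ⟨hP1, hP2⟩ hP
    · exact ⟨e₃, r3, v3.1.trans (iff_of_true hε hP1), v3.2.trans (iff_of_false hε' hP2)⟩
    · exact ⟨e₁, r1, v1.1.trans (iff_of_false not_false hP1), v1.2.trans (iff_of_true hε hP2)⟩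
    · exact ⟨e₂, r2, v2.1.trans (iff_of_false hε' hP1), v2.2.trans (iff_of_false not_false hP2)⟩
  · by_cases hP1 : P₁ <;> by_cases hP2 : P₂
    · exact absurd ⟨hP1, hP2⟩ hP
    · exact ⟨e₂, r2, v2.1.trans (iff_of_true hε' hP1), v2.2.trans (iff_of_false not_false hP2)⟩
    · exact ⟨e₃, r3, v3.1.trans (iff_of_false hε hP1), v3.2.trans (iff_of_true hε' hP2)⟩
    · exact ⟨e₁, r1, v1.1.trans (iff_of_false not_false hP1), v1.2.trans (iff_of_false hε hP2)⟩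
  · exact absurd (iff_of_false hε hε') hne

end BE
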