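import Pool.Agent.Lib.MP_f80667_ag.Be.Ch
import Pool.Agent.Lib.MP_f80667_ag.Be.C2
import Pool.Agent.Lib.MP_f80667_ag.Be.U1
import Pool.Agent.Lib.MP_f80667_ag.Be.BrT

/-! The local theorem at the dyadic places. -/

open ZC Polynomial IntermediateField

namespace BE

variable {F : Type} [Field F] {K : Type} [Field K] [CharZero K] [Algebra F K] {Ω : Type} [Field Ω]
  [Algebra K Ω] [Algebra F Ω] [IsScalarTower F K Ω] [IsAlgClosure K Ω] (C : Cf F) (L : Lf K Ω)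

section aux

variable {e₁ e₂ e₃ : Ω}

private theorem l3_th {M : IntermediateField K Ω} {e : Ω} (heM : e ∈ M) (he : aeval e C.g = 0)
    {y : Pt C.W₂ Ω} (hy : ∀ γ ∈ M.fixingSubgroup, γ • y = y) : C.th0 Ω e 0 y ∈ M := by
  have h1 : (C.dt K Ω).PP M.fixingSubgroup 0 y := (Dt.pp_fix fun γ _ => smul_zero γ).2 hy
  have h2 := th_mem C he h1
  have h3 : Me M e = M := by
    refine le_antisymm (sup_le le_rfl ?_) le_sup_left
    rw [IntermediateField.adjoin_simple_le_iff]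
    exact heM
  rwa [h3] at h2

private theorem l3_root (hr : C.g.map (algebraMap F Ω) = (X - Polynomial.C e₁) *
      (X - Polynomial.C e₂) * (X - Polynomial.C e₃)) (z : Ω) :
    aeval z C.g = 0 ↔ z = e₁ ∨ z = e₂ ∨ z = e₃ := by
  have h1 := congrArg (Polynomial.eval z) hr
  rw [Polynomial.eval_map_algebraMap] at h1
  rw [h1]
  simp only [eval_mul, eval_sub, eval_X, eval_C, mul_eq_zero, sub_eq_zero]
  tauto

private theorem l3_iff {A P : Prop} : (A ↔ (A ↔ P)) ↔ P := by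
  by_cases h : A <;> simp [h]

/-- The class of the third value. -/
private theorem l3_third (S : Sym K Ω) {M : IntermediateField K Ω} [FiniteDimensional K M]
    (hr : C.g.map (algebraMap F Ω) = (X - Polynomial.C e₁) *
      (X - Polynomial.C e₂) * (X - Polynomial.C e₃))
    (hM : ∀ e : Ω, aeval e C.g = 0 → e ∈ M)
    {a : Ω} (ha : a ∈ M) (ha0 : a ≠ 0) {y : Pt C.W₂ Ω} (hy : ∀ γ ∈ M.fixingSubgroup, γ • y = y) :
    HS M a (C.th0 Ω e₃ 0 y) ↔ (HS M a (C.th0 Ω e₁ 0 y) ↔ HS M a (C.th0 Ω e₂ 0 y)) := by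
  have r1 : aeval e₁ C.g = 0 := (l3_root C hr e₁).2 (Or.inl rfl)
  have r2 : aeval e₂ C.g = 0 := (l3_root C hr e₂).2 (Or.inr (Or.inl rfl))
  have r3 : aeval e₃ C.g = 0 := (l3_root C hr e₃).2 (Or.inr (Or.inr rfl))
  have m1 := l3_th C (hM _ r1) r1 hy
  have m2 := l3_th C (hM _ r2) r2 hy
  have m3 := l3_th C (hM _ r3) r3 hy
  have n1 := th_ne C e₁ r1 0 y
  have n2 := th_ne C e₂ r2 0 y
  have n3 := th_ne C e₃ r3 0 y
  have h1 : (C.dt K Ω).PP M.fixingSubgroup 0 y := (Dt.pp_fix fun γ _ => smul_zero γ).2 hy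
  have h2 := th_prod C hr h1
  rw [mul_comm] at h2
  rw [HS.congr_right m3 (mul_mem m1 m2) n3 (mul_ne_zero n1 n2) h2]
  exact HS.mulr S inferInstance ha m1 m2 ha0 n1 n2

/-- Equal symbols for two roots give equal symbols for the third. -/
private theorem l3_all (S : Sym K Ω) {M : IntermediateField K Ω} [FiniteDimensional K M]
    (hr : C.g.map (algebraMap F Ω) = (X - Polynomial.C e₁) *
      (X - Polynomial.C e₂) * (X - Polynomial.C e₃))
    (hM : ∀ e : Ω, aeval e C.g = 0 → e ∈ M)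
    {a a' : Ω} (ha : a ∈ M) (ha0 : a ≠ 0) (ha' : a' ∈ M) (ha0' : a' ≠ 0)
    {y y' : Pt C.W₂ Ω} (hy : ∀ γ ∈ M.fixingSubgroup, γ • y = y)
    (hy' : ∀ γ ∈ M.fixingSubgroup, γ • y' = y')
    (h₁ : HS M a (C.th0 Ω e₁ 0 y) ↔ HS M a' (C.th0 Ω e₁ 0 y'))
    (h₂ : HS M a (C.th0 Ω e₂ 0 y) ↔ HS M a' (C.th0 Ω e₂ 0 y')) :
    ∀ e : Ω, aeval e C.g = 0 → (HS M a (C.th0 Ω e 0 y) ↔ HS M a' (C.th0 Ω e 0 y')) := by
  intro e he
  rcases (l3_root C hr e).1 he with rfl | rfl | rfl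
  · exact h₁
  · exact h₂
  · rw [l3_third C S hr hM ha ha0 hy, l3_third C S hr hM ha' ha0' hy', h₁, h₂]

/-- A point `u'` with the symbols of `u` for `y` and prescribed symbols for `y'`. -/
private theorem l3_pt (h : L.H3 C) (S : Sym K Ω) {M : IntermediateField K Ω}
    [FiniteDimensional K M]
    (hr : C.g.map (algebraMap F Ω) = (X - Polynomial.C e₁) *
      (X - Polynomial.C e₂) * (X - Polynomial.C e₃))
    (hM : ∀ e : Ω, aeval e C.g = 0 → e ∈ M)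
    {u : Pt C.W₁ Ω} (hu : ∀ γ ∈ M.fixingSubgroup, γ • u = u)
    {y y' : Pt C.W₂ Ω} (hy : ∀ γ ∈ M.fixingSubgroup, γ • y = y)
    (hy' : ∀ γ ∈ M.fixingSubgroup, γ • y' = y')
    (hs : ∀ e' : Ω, aeval e' C.g = 0 → ∀ d ∈ ({1, C.th0 Ω e₁ 0 y, C.th0 Ω e₂ 0 y,
      C.th0 Ω e₁ 0 y * C.th0 Ω e₂ 0 y} : Set Ω), ¬ SqM M (C.th0 Ω e' 0 y' * d))
    (P₁ P₂ : Prop) :
    ∃ u' : Pt C.W₁ Ω, (∀ γ ∈ M.fixingSubgroup, γ • u' = u') ∧
      (∀ e : Ω, aeval e C.g = 0 →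
        (HS M (C.al u') (C.th0 Ω e 0 y) ↔ HS M (C.al u) (C.th0 Ω e 0 y))) ∧
      (HS M (C.al u') (C.th0 Ω e₁ 0 y') ↔ P₁) ∧ (HS M (C.al u') (C.th0 Ω e₂ 0 y') ↔ P₂) := by
  have r1 : aeval e₁ C.g = 0 := (l3_root C hr e₁).2 (Or.inl rfl)
  have r2 : aeval e₂ C.g = 0 := (l3_root C hr e₂).2 (Or.inr (Or.inl rfl))
  have r3 : aeval e₃ C.g = 0 := (l3_root C hr e₃).2 (Or.inr (Or.inr rfl))
  have m1 := l3_th C (hM _ r1) r1 hy
  have m2 := l3_th C (hM _ r2) r2 hy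
  have m1' := l3_th C (hM _ r1) r1 hy'
  have m2' := l3_th C (hM _ r2) r2 hy'
  have m3' := l3_th C (hM _ r3) r3 hy'
  have n1 := th_ne C e₁ r1 0 y
  have n2 := th_ne C e₂ r2 0 y
  have n1' := th_ne C e₁ r1 0 y'
  have n2' := th_ne C e₂ r2 0 y'
  have n3' := th_ne C e₃ r3 0 y'
  have hpp : (C.dt K Ω).PP M.fixingSubgroup 0 y' := (Dt.pp_fix fun γ _ => smul_zero γ).2 hy'
  have hprod := th_prod C hr hpp
  obtain ⟨z, hz, hz0, z1, z2, z3, z4⟩ := exists_sy S inferInstance m1 m2 m1' m2' n1 n2 n1' n2'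
    (by
      intro b hb d hd
      rcases hb with rfl | rfl | rfl
      · exact hs e₁ r1 d hd
      · exact hs e₂ r2 d hd
      · intro hsq
        refine hs e₃ r3 d hd ?_
        rw [mul_comm] at hprod
        exact SqM.trans (mul_mem m1' m2') (mul_ne_zero n1' n2') hprod hsq)
    (HS M (C.al u) (C.th0 Ω e₁ 0 y') ↔ P₁) (HS M (C.al u) (C.th0 Ω e₂ 0 y') ↔ P₂)
  obtain ⟨v, hv, hzv⟩ := al_onto C L h hz hz0
  have hmu := al_mem C hu
  have hmv := al_mem C hv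
  have huv : ∀ γ ∈ M.fixingSubgroup, γ • (u + v) = u + v := fun γ hγ => by
    rw [smul_add, hu γ hγ, hv γ hγ]
  have hmuv := al_mem C huv
  have hpair := al_pair C (M := M) (a₁ := u) (a₂ := v) fun γ hγ => Or.inl ⟨hu γ hγ, hv γ hγ⟩
  -- the class of `al (u + v)` is the class of `al u * z`
  have hcl : SqM M (C.al (u + v) * (C.al u * z)) := by
    refine SqM.trans (mul_mem hmu hmv) (mul_ne_zero (al_ne C u) (al_ne C v)) hpair ?_
    have h1 : C.al u * C.al v * (C.al u * z) = C.al u * C.al u * (z * C.al v) := by ring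
    rw [h1]
    exact SqM.mul (SqM.self hmu) hzv
  have key : ∀ b : Ω, b ∈ M → b ≠ 0 → (HS M (C.al (u + v)) b ↔ (HS M (C.al u) b ↔ HS M z b)) := by
    intro b hb hb0
    rw [HS.congr hmuv (mul_mem hmu hz) (al_ne C _) (mul_ne_zero (al_ne C u) hz0) hcl]
    exact S.mul M inferInstance _ _ _ hmu hz hb (al_ne C u) hz0 hb0
  refine ⟨u + v, huv, ?_, ?_, ?_⟩
  · exact l3_all C S hr hM hmuv (al_ne C _) hmu (al_ne C u) hy hy
      ((key _ m1 n1).trans (iff_true_right z1)) ((key _ m2 n2).trans (iff_true_right z2))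
  · exact (key _ m1' n1').trans ((iff_congr Iff.rfl z3).trans l3_iff)
  · exact (key _ m2' n2').trans ((iff_congr Iff.rfl z4).trans l3_iff)

end aux

/-- **All classes `{u, y}` are trivial.** Proof. If `M` contains no root: `br_no_root`. Otherwise let `e₁, e₂, e₃ ∈ M` be the roots (`root_all`), `d_i(y) = th0 e_i 0 y`. Let `D` be the set of the `16` numbers
`1, d₁(y), d₂(y), d₁(y) d₂(y)` and `1, d₁(T_l), d₂(T_l), d₁(T_l) d₂(T_l)`, `l = 1, 2, 3` (they are in `M^*`), and `N`, `θ`, `y''` from `exists_ch`, `M' = M(θ)`, `K₁ = K(e₁, θ)`. `br_M(u, y) = ± br_(M')(u, y)` (`br_odd`,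
`two_br`). By `exists_sy` (over `M'`, for `d_i = d_i(y)`, `b_i = d_i(y'')`; `d₃ ~ d₁ d₂`) and `al_onto` there is `u'' ∈ E₁(M')` with `(al u'', d_i(y)) = (al u, d_i(y)) = (al u'', d_i(y''))`, `i = 1, 2` and then `i = 3` (`al u'' = al u · z`), so
`br_(M')(u, y) = br_(M')(u'', y) = br_(M')(u'', y'')` (`br_congr_u`, `br_congr_y`) `= br_(K₁)(Na u'', y'')` (`nA`). Let `u₁ = Na u''`. If all the symbols `(al u₁, d_i(y''))` over `K₁` are trivial: `br_of_symb`. Otherwise let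
`a₀` be as in `exists_a0`, `u₀ ∈ E₁(K)` with `al u₀ ~ a₀` (`al_onto`), `T` from `exists_vec` for the symbols `(al u₁, d_i(y''))`; by `exists_sy` over `K₁` (`d_i = d_i(T)`, `b_i = d_i(y'')`, not squares up to the `d` over `M'`, so
over `K₁`) there is `u₂ ∈ E₁(K₁)` with `(al u₂, d_i(T)) = (a₀, d_i(T))`, `(al u₂, d_i(y'')) = (al u₁, d_i(y''))`: `br_(K₁)(u₁, y'') = br(u₂, y'') = br(u₂, T) = br(u₀, T) = 0` (`br_T`). -/
theorem br_eq_zero₃ (h : L.H3 C) (S : Sym K Ω) {G : Type} [AddCommGroup G]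
    (T : Th (C.dt K Ω) G) (hT : T.op = opn K Ω) {M : IntermediateField K Ω} [FiniteDimensional K M]
    {u : Pt C.W₁ Ω} {y : Pt C.W₂ Ω} (hu : ∀ γ ∈ M.fixingSubgroup, γ • u = u)
    (hy : ∀ γ ∈ M.fixingSubgroup, γ • y = y) : T.br M.fixingSubgroup u 0 y = 0 := by
  classical
  by_cases hroot : ∀ e ∈ M, aeval e C.g ≠ 0
  · exact br_no_root C L h S T hT hroot hu hy
  push Not at hroot
  obtain ⟨e₀, he₀M, he₀⟩ := hroot
  have hall : ∀ e : Ω, aeval e C.g = 0 → e ∈ M := fun e he => root_all C L h he₀ he he₀M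
  have hcl : IsAlgClosed Ω := IsAlgClosure.isAlgClosed K
  have hch : CharZero Ω := charZero_of_injective_algebraMap (algebraMap K Ω).injective
  obtain ⟨e₁, e₂, e₃, h12, h13, h23, k2, k1, k0⟩ := HfH_roots (Ω := Ω) C
  have hr : C.g.map (algebraMap F Ω) = (X - Polynomial.C e₁) * (X - Polynomial.C e₂) *
      (X - Polynomial.C e₃) := by
    unfold Cf.g
    simp only [Polynomial.map_add, Polynomial.map_mul, Polynomial.map_pow, Polynomial.map_X,
      Polynomial.map_C, k2, k1, k0, map_neg, map_add, map_mul]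
    ring
  have r1 : aeval e₁ C.g = 0 := (l3_root C hr e₁).2 (Or.inl rfl)
  have r2 : aeval e₂ C.g = 0 := (l3_root C hr e₂).2 (Or.inr (Or.inl rfl))
  have r3 : aeval e₃ C.g = 0 := (l3_root C hr e₃).2 (Or.inr (Or.inr rfl))
  -- the set `D`
  let Df : Pt C.W₂ Ω → Finset Ω := fun z => {1, C.th0 Ω e₁ 0 z, C.th0 Ω e₂ 0 z,
    C.th0 Ω e₁ 0 z * C.th0 Ω e₂ 0 z}
  have hDf : ∀ z : Pt C.W₂ Ω, (∀ γ ∈ M.fixingSubgroup, γ • z = z) → ∀ d ∈ Df z, d ∈ M ∧ d ≠ 0 := by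
    intro z hz d hd
    have m1 := l3_th C (hall _ r1) r1 hz
    have m2 := l3_th C (hall _ r2) r2 hz
    have n1 := th_ne C e₁ r1 0 z
    have n2 := th_ne C e₂ r2 0 z
    simp only [Df, Finset.mem_insert, Finset.mem_singleton] at hd
    rcases hd with rfl | rfl | rfl | rfl
    · exact ⟨one_mem _, one_ne_zero⟩
    · exact ⟨m1, n1⟩
    · exact ⟨m2, n2⟩
    · exact ⟨mul_mem m1 m2, mul_ne_zero n1 n2⟩
  have hTf : ∀ (e' : Ω) (he' : aeval e' C.g = 0), ∀ γ ∈ M.fixingSubgroup,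
      γ • Tp C he' = Tp C he' := fun e' he' => fix_T C he' (hall e' he')
  obtain ⟨N, θ, y', hN, hθ, hodd, hy', hns⟩ := exists_ch C L h r1 (hall _ r1)
    (Df y ∪ (Df (Tp C r1) ∪ (Df (Tp C r2) ∪ Df (Tp C r3)))) (by
      intro d hd
      simp only [Finset.mem_union] at hd
      rcases hd with hd | hd | hd | hd
      · exact hDf y hy d hd
      · exact hDf _ (hTf e₁ r1) d hd
      · exact hDf _ (hTf e₂ r2) d hd
      · exact hDf _ (hTf e₃ r3) d hd)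
  obtain ⟨M', hM'⟩ : ∃ M', M' = Me M θ := ⟨_, rfl⟩
  obtain ⟨K₁, hK₁⟩ : ∃ K₁, K₁ = Me (Me (⊥ : IntermediateField K Ω) e₁) θ := ⟨_, rfl⟩
  rw [← hM'] at hodd hns
  rw [← hK₁] at hy'
  have hMM' : M ≤ M' := hM' ▸ le_sup_left
  have hKM' : K₁ ≤ M' := by
    rw [hK₁, hM']
    refine sup_le_sup_right (sup_le bot_le ?_) _
    rw [IntermediateField.adjoin_simple_le_iff]
    exact hall _ r1
  have heK₁ : e₁ ∈ K₁ := by
    rw [hK₁]
    exact (le_sup_left : Me (⊥ : IntermediateField K Ω) e₁ ≤ _)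
      ((le_sup_right : IntermediateField.adjoin K {e₁} ≤ _)
        (IntermediateField.mem_adjoin_simple_self K e₁))
  have hfM' : FiniteDimensional K M' := by
    apply FiniteDimensional.of_finrank_pos
    rcases Nat.eq_zero_or_pos (Module.finrank K M') with h0 | h0
    · rw [h0, Nat.zero_div] at hodd
      exact absurd hodd (by decide)
    · exact h0
  have hfK₁ : FiniteDimensional K K₁ :=
    FiniteDimensional.of_injective (IntermediateField.inclusion hKM').toLinearMap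
      (IntermediateField.inclusion_injective hKM')
  have hallM' : ∀ e : Ω, aeval e C.g = 0 → e ∈ M' := fun e he => hMM' (hall e he)
  have hallK₁ : ∀ e : Ω, aeval e C.g = 0 → e ∈ K₁ := fun e he => root_all C L h r1 he heK₁
  have hleM : M'.fixingSubgroup ≤ M.fixingSubgroup := fix_le hMM'
  have hleK : M'.fixingSubgroup ≤ K₁.fixingSubgroup := fix_le hKM'
  have hop : ∀ (P : IntermediateField K Ω), FiniteDimensional K P → T.op P.fixingSubgroup :=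
    fun P hP => by
      rw [hT]
      exact ⟨P, hP, le_rfl⟩
  have huM' : ∀ γ ∈ M'.fixingSubgroup, γ • u = u := fun γ hγ => hu γ (hleM hγ)
  have hyM' : ∀ γ ∈ M'.fixingSubgroup, γ • y = y := fun γ hγ => hy γ (hleM hγ)
  have hy'M' : ∀ γ ∈ M'.fixingSubgroup, γ • y' = y' := fun γ hγ => hy' γ (hleK hγ)
  have hz0 : ∀ (P : IntermediateField K Ω), ∀ γ ∈ P.fixingSubgroup, γ • (0 : Pt C.W₁ Ω) = 0 :=
    fun P γ _ => smul_zero γ
  -- reduction to `M'`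
  refine T.br_odd (S := M'.fixingSubgroup) (hop M' hfM') hleM ?_
    ((Dt.pp_fix (hz0 M)).2 hy) hu ?_
  · have h1 := relIndex_fix hMM'
    rw [← h1, Nat.mul_div_cancel _ Module.finrank_pos] at hodd
    exact hodd
  -- the point `u'' = v`
  obtain ⟨v, hv, hv1, hv2, hv3⟩ := l3_pt C L h S (M := M') hr hallM' huM' hyM' hy'M'
    (by
      intro e' he' d hd
      refine hns e' he' d ?_
      rw [Finset.mem_union]
      left
      simp only [Df, Finset.mem_insert, Finset.mem_singleton]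
      exact hd) (HS M' (C.al u) (C.th0 Ω e₁ 0 y)) (HS M' (C.al u) (C.th0 Ω e₂ 0 y))
  rw [br_congr_u C L h S T hT hallM' huM' hv hyM' (fun e he => (hv1 e he).symm)]
  rw [br_congr_y C L h S T hT hallM' hv hyM' hy'M'
    (l3_all C S hr hallM' (al_mem C hv) (al_ne C v) (al_mem C hv) (al_ne C v) hyM' hy'M'
      ((hv1 e₁ r1).trans hv2.symm) ((hv1 e₂ r2).trans hv3.symm))]
  -- the norm to `K₁`
  rw [T.nA (H := K₁.fixingSubgroup) (hop M' hfM') hleK ((Dt.pp_fix (hz0 K₁)).2 hy') hv]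
  have hfi : M'.fixingSubgroup.FiniteIndex := T.op_fin _ (hop M' hfM')
  obtain ⟨u₁, hu₁⟩ : ∃ u₁, u₁ = Na K₁.fixingSubgroup M'.fixingSubgroup v := ⟨_, rfl⟩
  have hu₁f : ∀ γ ∈ K₁.fixingSubgroup, γ • u₁ = u₁ := fun γ hγ => by
    rw [hu₁]
    exact smul_Na hleK hfi hv hγ
  rw [← hu₁]
  by_cases hP : HS K₁ (C.al u₁) (C.th0 Ω e₁ 0 y') ∧ HS K₁ (C.al u₁) (C.th0 Ω e₂ 0 y')
  · refine br_of_symb C L h S T hT hallK₁ hu₁f hy' fun e he => ?_
    rcases (l3_root C hr e).1 he with rfl | rfl | rfl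
    · exact hP.1
    · exact hP.2
    · rw [l3_third C S hr hallK₁ (al_mem C hu₁f) (al_ne C u₁) hy']
      exact ⟨fun _ => hP.2, fun _ => hP.1⟩
  -- the point `u₀` and the point `T`
  obtain ⟨a₀, ha₀, ha₀0, hns₀⟩ := exists_a0 C L h S
  obtain ⟨u₀, hu₀, hu₀s⟩ := al_onto C L h (M := (⊥ : IntermediateField K Ω)) ha₀ ha₀0
  rw [IntermediateField.fixingSubgroup_bot] at hu₀
  have hu₀' : ∀ γ : Ω ≃ₐ[K] Ω, γ • u₀ = u₀ := fun γ => hu₀ γ (Subgroup.mem_top γ)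
  have hu₀K : ∀ γ ∈ K₁.fixingSubgroup, γ • u₀ = u₀ := fun γ _ => hu₀' γ
  obtain ⟨e', he', hv1', hv2'⟩ := exists_vec C L h S ha₀ ha₀0 hns₀ hr hN hθ _ _ hP
  rw [← hK₁] at hv1' hv2'
  have hTK : ∀ γ ∈ K₁.fixingSubgroup, γ • Tp C he' = Tp C he' := fix_T C he' (hallK₁ e' he')
  have hbK : (⊥ : IntermediateField K Ω) ≤ K₁ := bot_le
  -- the symbols of `al u₀` and `a₀`
  have hsu : ∀ b : Ω, HS K₁ (C.al u₀) b ↔ HS K₁ a₀ b := by
    intro b
    refine HS.congr (al_mem C hu₀K) (hbK ha₀) (al_ne C u₀) ha₀0 ?_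
    rw [mul_comm]
    exact SqM.mono hbK hu₀s
  obtain ⟨u₂, hu₂, hw1, hw2, hw3⟩ := l3_pt C L h S (M := K₁) hr hallK₁ hu₀K hTK hy'
    (by
      intro e'' he'' d hd hsq
      refine hns e'' he'' d ?_ (SqM.mono hKM' hsq)
      have hd' : d ∈ Df (Tp C he') := by
        simp only [Df, Finset.mem_insert, Finset.mem_singleton]
        exact hd
      simp only [Finset.mem_union]
      right
      rcases (l3_root C hr e').1 he' with rfl | rfl | rfl
      · exact Or.inl hd'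
      · exact Or.inr (Or.inl hd')
      · exact Or.inr (Or.inr hd'))
    (HS K₁ (C.al u₁) (C.th0 Ω e₁ 0 y')) (HS K₁ (C.al u₁) (C.th0 Ω e₂ 0 y'))
  rw [br_congr_u C L h S T hT hallK₁ hu₁f hu₂ hy'
    (l3_all C S hr hallK₁ (al_mem C hu₁f) (al_ne C u₁) (al_mem C hu₂) (al_ne C u₂) hy' hy'
      hw2.symm hw3.symm)]
  rw [br_congr_y C L h S T hT hallK₁ hu₂ hy' hTK
    (l3_all C S hr hallK₁ (al_mem C hu₂) (al_ne C u₂) (al_mem C hu₂) (al_ne C u₂) hy' hTK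
      (by rw [hw2, hw1 e₁ r1, hsu, hv1']) (by rw [hw3, hw1 e₂ r2, hsu, hv2']))]
  rw [br_congr_u C L h S T hT hallK₁ hu₂ hu₀K hTK hw1]
  rw [hK₁]
  exact br_T C L h T hT hu₀' r1 he' hN hθ

/-- **The local theorem at the dyadic places.** Proof: `exists_fix`; `u` is fixed (`fix_of_uu`), `f_M(u, y) = f_M(0, y)` (`br_eq_zero₃`) `= f ⊤ 0 (Nb y)` (`nB`), and `2 f ⊤ 0 y₀ = - br(t, 0, y₀) = 0` (`br_t`). -/
theorem loc₃ (h : L.H3 C) (S : Sym K Ω) {G : Type} [AddCommGroup G] (T : Th (C.dt K Ω) G)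
    (hT : T.op = opn K Ω) : T.Loc := by
  refine ⟨fun H u y hH hy => ?_, fun y₀ hy₀ => ?_⟩
  · obtain ⟨M, hM, hMH⟩ := exists_fix (hT ▸ hH)
    subst hMH
    have hu := fix_of_uu C L h (Dt.PP.uu hy)
    have hyf := (Dt.pp_fix hu).1 hy
    have hbr := br_eq_zero₃ C L h S T hT hu hyf
    have h1 : T.br M.fixingSubgroup u 0 y =
        T.f M.fixingSubgroup (0 + u) y - T.f M.fixingSubgroup 0 y := rfl
    rw [h1, zero_add, sub_eq_zero] at hbr
    have hfi : M.fixingSubgroup.FiniteIndex := T.op_fin _ hH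
    have hP : (C.dt K Ω).PP M.fixingSubgroup 0 y := (Dt.pp_fix fun γ _ => smul_zero γ).2 hyf
    have hU : (C.dt K Ω).UU ⊤ 0 := Dt.uu_of_fix fun γ _ => smul_zero γ
    refine ⟨Nb ⊤ M.fixingSubgroup (0 : Pt C.W₁ Ω) y, fun γ => ?_, ?_⟩
    · exact (Dt.pp_fix fun γ _ => smul_zero γ).1 (pp_Nb le_top hfi hU hP) γ (Subgroup.mem_top γ)
    · rw [hbr]
      exact T.nB hH le_top hU hP
  · have hP : (C.dt K Ω).PP ⊤ 0 y₀ := (Dt.pp_fix fun γ _ => smul_zero γ).2 fun γ _ => hy₀ γ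
    have h1 := T.br_t T.op_top hP
    have h2 := br_eq_zero₃ C L h S T hT (M := (⊥ : IntermediateField K Ω)) (u := C.t Ω) (y := y₀)
      (fun γ _ => (C.dt K Ω).smul_t γ) (fun γ _ => hy₀ γ)
    rw [IntermediateField.fixingSubgroup_bot] at h2
    have h3 : T.br ⊤ (C.t Ω) 0 y₀ = T.br ⊤ (C.dt K Ω).t 0 y₀ := rfl
    rw [h3, h1, neg_eq_zero] at h2
    exact h2

end BE
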