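import Pool.Agent.Lib.MP_f80667_ag.Be.Hf

/-! The local theorem at the real and complex places. -/

open ZC Polynomial IntermediateField

namespace BE

variable {F : Type} [Field F] {K : Type} [Field K] [CharZero K] [Algebra F K] {Ω : Type} [Field Ω]
  [Algebra K Ω] [Algebra F Ω] [IsScalarTower F K Ω] [IsAlgClosure K Ω] (C : Cf F)

/-- The algebraic closure of `K ≅ ℝ` has degree two: the Galois group is `{1, σ}`. -/
theorem real_gal (e : K ≃+* ℝ) : Module.finrank K Ω = 2 ∧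
    ∃ σ : Ω ≃ₐ[K] Ω, σ ≠ 1 ∧ ∀ γ : Ω ≃ₐ[K] Ω, γ = 1 ∨ γ = σ := by
  have hcl : IsAlgClosed Ω := IsAlgClosure.isAlgClosed K
  have hfr : Module.finrank K Ω = 2 := by
    let i1 : Algebra K ℝ := e.toRingHom.toAlgebra
    let i2 : Algebra K ℂ := ((algebraMap ℝ ℂ).comp e.toRingHom).toAlgebra
    have i3 : IsScalarTower K ℝ ℂ := IsScalarTower.of_algebraMap_eq fun _ => rfl
    have i4 : IsAlgClosure K ℂ := by
      refine ⟨inferInstance, ⟨fun z => ?_⟩⟩
      have h1 : IsAlgebraic ℝ z := Algebra.IsAlgebraic.isAlgebraic z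
      obtain ⟨P, hP, hz⟩ := h1
      refine ⟨P.map e.symm.toRingHom, ?_, ?_⟩
      · rw [Ne, Polynomial.map_eq_zero_iff e.symm.injective]
        exact hP
      · rw [Polynomial.aeval_def, Polynomial.eval₂_map]
        have h2 : (algebraMap K ℂ).comp e.symm.toRingHom = algebraMap ℝ ℂ := by
          ext x
          change algebraMap ℝ ℂ (e (e.symm x)) = _
          rw [RingEquiv.apply_symm_apply]
        rw [h2]
        exact hz
    let j : Ω ≃ₐ[K] ℂ := IsAlgClosure.equiv K Ω ℂ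
    rw [Algebra.finrank_eq_of_equiv_equiv e j.toRingEquiv, Complex.finrank_real_complex]
    ext x
    exact (j.commutes x).symm
  have hfd : FiniteDimensional K Ω := Module.finite_of_finrank_pos (by rw [hfr]; norm_num)
  refine ⟨hfr, ?_⟩
  have hc : Nat.card (Ω ≃ₐ[K] Ω) = 2 := by
    rw [IsGalois.card_aut_eq_finrank, hfr]
  obtain ⟨σ, hσ, hσ'⟩ := (Nat.card_eq_two_iff' (1 : Ω ≃ₐ[K] Ω)).1 hc
  refine ⟨σ, hσ, fun γ => ?_⟩
  by_cases h : γ = 1
  · exact Or.inl h
  · exact Or.inr (hσ' γ h)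

/-- For `K ≅ ℂ` the Galois group is trivial. -/
theorem complex_gal (e : K ≃+* ℂ) (γ : Ω ≃ₐ[K] Ω) : γ = 1 := by
  have h1 : IsAlgClosed K := IsAlgClosed.of_ringEquiv ℂ K e.symm
  have h2 : Algebra.IsIntegral K Ω := inferInstance
  have h3 := IsAlgClosed.algebraMap_bijective_of_isIntegral (k := K) (K := Ω)
  ext x
  obtain ⟨y, rfl⟩ := h3.2 x
  rw [AlgEquiv.commutes]
  rfl

/-- A positive element of `K ≅ ℝ` is a square. -/
theorem real_sq (e : K ≃+* ℝ) {x : K} (hx : 0 ≤ e x) :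
    SqM (⊥ : IntermediateField K Ω) (algebraMap K Ω x) := by
  refine ⟨algebraMap K Ω (e.symm (Real.sqrt (e x))), IntermediateField.algebraMap_mem _ _, ?_⟩
  rw [← map_pow, ← map_pow, Real.sq_sqrt hx, RingEquiv.symm_apply_apply]

omit [CharZero K] [IsAlgClosure K Ω] in
theorem lr_bot {x : Ω} (hx : x ∈ (⊥ : IntermediateField K Ω)) : ∃ a : K, algebraMap K Ω a = x :=
  IntermediateField.mem_bot.1 hx

/-- `z σ(z)` is a square. -/
theorem lr_norm (e : K ≃+* ℝ) {σ : Ω ≃ₐ[K] Ω} (hσ : σ ≠ 1) (hσ' : ∀ γ : Ω ≃ₐ[K] Ω, γ = 1 ∨ γ = σ)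
    (z : Ω) : SqM (⊥ : IntermediateField K Ω) (z * σ z) := by
  have hcl : IsAlgClosed Ω := IsAlgClosure.isAlgClosed K
  have hch : CharZero Ω := charZero_of_injective_algebraMap (algebraMap K Ω).injective
  have hmem : ∀ x : Ω, σ x = x → ∃ a : K, algebraMap K Ω a = x := fun x hx =>
    lr_bot (mem_of_fix ⊥ fun γ _ => by
      rcases hσ' γ with rfl | rfl
      · rfl
      · exact hx)
  have hσσ : ∀ x, σ (σ x) = x := by
    intro x
    have h1 : σ * σ = 1 := by
      rcases hσ' (σ * σ) with h | h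
      · exact h
      · exact absurd (mul_eq_left.1 h) hσ
    have h2 := congrArg (fun f : Ω ≃ₐ[K] Ω => f x) h1
    exact h2
  obtain ⟨i, hi⟩ := IsAlgClosed.exists_pow_nat_eq (-1 : Ω) (n := 2) (by norm_num)
  have hi0 : i ≠ 0 := by
    rintro rfl
    norm_num at hi
  have hσi : σ i = -i := by
    have h1 : (σ i) ^ 2 = i ^ 2 := by rw [← map_pow, hi, map_neg, map_one]
    rcases sq_eq_sq_iff_eq_or_eq_neg.1 h1 with h2 | h2
    · exfalso
      obtain ⟨a, ha⟩ := hmem i h2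
      rw [← ha, ← map_pow] at hi
      have h3 : a ^ 2 = -1 := (algebraMap K Ω).injective (by rw [hi, map_neg, map_one])
      have h4 := congrArg e h3
      rw [map_pow, map_neg, map_one] at h4
      nlinarith [sq_nonneg (e a)]
    · exact h2
  obtain ⟨a, ha⟩ := hmem ((z + σ z) / 2) (by
    rw [map_div₀, map_add, hσσ, map_ofNat, add_comm])
  obtain ⟨b, hb⟩ := hmem ((z - σ z) / (2 * i)) (by
    rw [map_div₀, map_sub, hσσ, map_mul, hσi, map_ofNat]
    field_simp
    ring)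
  have h1 : z * σ z = algebraMap K Ω (a ^ 2 + b ^ 2) := by
    rw [map_add, map_pow, map_pow, ha, hb]
    have h2 : ((z - σ z) / (2 * i)) ^ 2 = - (z - σ z) ^ 2 / 4 := by
      rw [div_pow, mul_pow, hi]
      ring
    rw [h2]
    ring
  rw [h1]
  refine real_sq e ?_
  rw [map_add, map_pow, map_pow]
  positivity

omit [CharZero K] [IsAlgClosure K Ω] in
/-- If `a b` is a square and `b > 0` then `a` is a square. -/
theorem lr_of_mul (e : K ≃+* ℝ) {a b : K} (hb : 0 < e b)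
    (h : SqM (⊥ : IntermediateField K Ω) (algebraMap K Ω a * algebraMap K Ω b)) : 0 ≤ e a := by
  obtain ⟨s, hs, h⟩ := h
  obtain ⟨s, rfl⟩ := lr_bot hs
  rw [← map_mul, ← map_pow] at h
  have h1 := congrArg e ((algebraMap K Ω).injective h)
  rw [map_mul, map_pow] at h1
  by_contra hn
  push Not at hn
  nlinarith [sq_nonneg (e s), mul_neg_of_neg_of_pos hn hb]

/-- The coordinates of a point over the base field. -/
theorem lr_w {u : Pt C.W₁ Ω} {w v : Ω} {n : ((C.W₂).baseChange Ω).toAffine.Nonsingular w v}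
    (hy : (C.dt K Ω).PP (⊥ : IntermediateField K Ω).fixingSubgroup u (Pt.aff w v n)) :
    w ∈ (⊥ : IntermediateField K Ω) := by
  refine mem_of_fix ⊥ fun γ hγ => ?_
  have h1 : C.px (γ • u) (γ • (Pt.aff w v n : Pt C.W₂ Ω)) = C.px u (Pt.aff w v n) := hy γ hγ
  rw [C.px_eq_iff] at h1
  rcases h1 with ⟨-, h2⟩ | ⟨-, h2⟩
  · exact ((Gal_smul_aff n γ).1 h2.symm).1
  · obtain ⟨n', hn'⟩ : ∃ n', γ • (Pt.aff w v n : Pt C.W₂ Ω) = Pt.aff (γ w) (γ v) n' := ⟨_, rfl⟩
    obtain ⟨n'', hn''⟩ := HfH_neg (W := C.W₂) rfl rfl n'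
    rw [hn', hn'', HfH_inj] at h2
    exact h2.1.symm

/-- The class of the real root. -/
theorem lr_root (e : K ≃+* ℝ) {e₁ e₂ e₃ : Ω}
    (he : C.g.map (algebraMap F Ω) = (X - Polynomial.C e₁) * (X - Polynomial.C e₂) *
      (X - Polynomial.C e₃)) (h12 : e₁ ≠ e₂)
    (h1 : e₁ ∈ (⊥ : IntermediateField K Ω)) (h2 : e₂ ∉ (⊥ : IntermediateField K Ω))
    (h3 : e₃ ∉ (⊥ : IntermediateField K Ω)) {u : Pt C.W₁ Ω} {y : Pt C.W₂ Ω}
    (hy : (C.dt K Ω).PP (⊥ : IntermediateField K Ω).fixingSubgroup u y) :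
    SqM (⊥ : IntermediateField K Ω) (C.th0 Ω e₁ u y) := by
  classical
  obtain ⟨-, σ, hσ, hσ'⟩ := real_gal (Ω := Ω) e
  have hp := th_prod C he hy
  have hg : ∀ z : Ω, aeval z C.g = (z - e₁) * (z - e₂) * (z - e₃) := by
    intro z
    have h1 := congrArg (Polynomial.eval z) he
    rw [Polynomial.eval_map_algebraMap] at h1
    rw [h1]
    simp
  rcases Pt.cases' y with rfl | ⟨w, v, n, rfl⟩
  · exact ⟨1, one_mem _, (one_pow 2).symm⟩
  have hw := lr_w C hy
  have hfix : ∀ x ∈ (⊥ : IntermediateField K Ω), σ x = x := by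
    intro x hx
    obtain ⟨a, rfl⟩ := lr_bot hx
    exact σ.commutes a
  have hσ2 : σ e₂ = e₃ := by
    have hr : aeval (σ e₂) C.g = 0 := by
      have h4 := Polynomial.aeval_algHom_apply (σ.restrictScalars F : Ω →ₐ[F] Ω) e₂ C.g
      have h5 : aeval e₂ C.g = 0 := by
        rw [hg]
        ring
      rw [h5, map_zero] at h4
      exact h4
    rw [hg, mul_eq_zero, mul_eq_zero, sub_eq_zero, sub_eq_zero, sub_eq_zero] at hr
    rcases hr with (hr | hr) | hr
    · exfalso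
      rw [← hfix e₁ h1] at hr
      exact h12 (σ.injective hr).symm
    · exfalso
      apply h2
      refine mem_of_fix ⊥ fun γ _ => ?_
      rcases hσ' γ with rfl | rfl
      · rfl
      · exact hr
    · exact hr
  have hth : ∀ e' : Ω, e' ∉ (⊥ : IntermediateField K Ω) →
      C.th0 Ω e' u (Pt.aff w v n) = C.kap Ω u * (w - e') := by
    intro e' he'
    have h4 : w ≠ e' := by
      rintro rfl
      exact he' hw
    exact if_neg h4
  have hk := kap_mem C hy.uu
  have hth3 : C.th0 Ω e₃ u (Pt.aff w v n) = σ (C.th0 Ω e₂ u (Pt.aff w v n)) := by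
    rw [hth e₂ h2, hth e₃ h3, map_mul, map_sub, hσ2, hfix _ hk, hfix _ hw]
  have hmem : C.th0 Ω e₁ u (Pt.aff w v n) ∈ (⊥ : IntermediateField K Ω) := by
    have h4 := th_mem C (e := e₁) (by rw [hg]; ring) hy
    have h5 : Me (⊥ : IntermediateField K Ω) e₁ = ⊥ := by
      rw [Me, bot_sup_eq, IntermediateField.adjoin_simple_eq_bot_iff]
      exact h1
    rwa [h5] at h4
  obtain ⟨s, hs, hs2⟩ := lr_norm e hσ hσ' (C.th0 Ω e₂ u (Pt.aff w v n))
  rw [← hth3] at hs2
  obtain ⟨a, ha⟩ := lr_bot hmem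
  obtain ⟨b, hb⟩ := lr_bot hs
  rw [mul_assoc, hs2, ← ha, ← hb, ← map_pow] at hp
  have hb0 : 0 < e (b ^ 2) := by
    rw [map_pow]
    have h4 : e b ≠ 0 := by
      intro h5
      rw [map_eq_zero_iff e e.injective] at h5
      rw [h5, map_zero] at hb
      rw [← hb, zero_pow two_ne_zero, mul_eq_zero] at hs2
      rcases hs2 with h6 | h6
      · exact th_ne C e₂ (by rw [hg]; ring) _ _ h6
      · exact th_ne C e₃ (by rw [hg]; ring) _ _ h6
    positivity
  rw [← ha]
  exact real_sq e (lr_of_mul e hb0 hp)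

/-- Points are doubles if `g` has only one real root. Proof: `half₂` for `M = ⊥`: for a root `e' ∉ K` the field `K(e')` is `Ω`, so `th0 e'` is a square; for the root `e₁ ∈ K` the number `th0 e₁` is a square since the product of the
three values is a square in `K` (`th_prod`) and the product of the two others is a norm from `Ω`, so positive. (`disc < 0`: with three roots in `K` the discriminant is a square in `K`.) -/
theorem half_real (e : K ≃+* ℝ) (hd : e (algebraMap F K C.disc) < 0) {u : Pt C.W₁ Ω}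
    {y : Pt C.W₂ Ω} (hy : (C.dt K Ω).PP (⊥ : IntermediateField K Ω).fixingSubgroup u y) :
    ∃ y' : Pt C.W₂ Ω, (C.dt K Ω).PP (⊥ : IntermediateField K Ω).fixingSubgroup u y' ∧
      y' + y' = y := by
  classical
  have hcl : IsAlgClosed Ω := IsAlgClosure.isAlgClosed K
  have hch : CharZero Ω := charZero_of_injective_algebraMap (algebraMap K Ω).injective
  obtain ⟨hfr, σ, hσ, hσ'⟩ := real_gal (Ω := Ω) e
  have hfd : FiniteDimensional K Ω := Module.finite_of_finrank_pos (by rw [hfr]; norm_num)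
  obtain ⟨e₁, e₂, e₃, h12, h13, h23, k2, k1, k0⟩ := HfH_roots (Ω := Ω) C
  have he : C.g.map (algebraMap F Ω) = (X - Polynomial.C e₁) * (X - Polynomial.C e₂) *
      (X - Polynomial.C e₃) := by
    have hg : C.g.map (algebraMap F Ω) = Polynomial.X ^ 3 +
        Polynomial.C (algebraMap F Ω C.c₂) * Polynomial.X ^ 2 +
        Polynomial.C (algebraMap F Ω C.c₁) * Polynomial.X +
        Polynomial.C (algebraMap F Ω C.c₀) := by
      simp [Cf.g]
    rw [hg, k2, k1, k0]
    simp only [map_neg, map_add, map_mul]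
    ring
  -- at most one root is real
  have hone : ∀ x₁ x₂ x₃ : Ω, algebraMap F Ω C.c₂ = -(x₁ + x₂ + x₃) →
      algebraMap F Ω C.disc = ((x₁ - x₂) * (x₁ - x₃) * (x₂ - x₃)) ^ 2 →
      x₁ ∈ (⊥ : IntermediateField K Ω) → x₂ ∉ (⊥ : IntermediateField K Ω) := by
    intro x₁ x₂ x₃ hc hD m1 m2
    have hc2 : algebraMap F Ω C.c₂ ∈ (⊥ : IntermediateField K Ω) := by
      rw [IsScalarTower.algebraMap_apply F K Ω]
      exact IntermediateField.algebraMap_mem _ _
    have m3 : x₃ ∈ (⊥ : IntermediateField K Ω) := by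
      have h4 : x₃ = -algebraMap F Ω C.c₂ - x₁ - x₂ := by
        rw [hc]
        ring
      rw [h4]
      exact sub_mem (sub_mem (neg_mem hc2) m1) m2
    obtain ⟨d, hd'⟩ := lr_bot (mul_mem (mul_mem (sub_mem m1 m2) (sub_mem m1 m3)) (sub_mem m2 m3))
    rw [← hd', IsScalarTower.algebraMap_apply F K Ω, ← map_pow] at hD
    have h5 := congrArg e ((algebraMap K Ω).injective hD)
    rw [map_pow] at h5
    rw [h5] at hd
    exact absurd (sq_nonneg (e d)) (not_le.2 hd)
  have hD : algebraMap F Ω C.disc = ((e₁ - e₂) * (e₁ - e₃) * (e₂ - e₃)) ^ 2 := by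
    simp only [Cf.disc, map_add, map_sub, map_mul, map_pow, map_ofNat]
    rw [k2, k1, k0]
    ring
  refine half₂ C hy fun e' he' => ?_
  by_cases hm : e' ∈ (⊥ : IntermediateField K Ω)
  · have h5 : Me (⊥ : IntermediateField K Ω) e' = ⊥ := by
      rw [Me, bot_sup_eq, IntermediateField.adjoin_simple_eq_bot_iff]
      exact hm
    rw [h5]
    have hr : (e' - e₁) * (e' - e₂) * (e' - e₃) = 0 := by
      have h1 := congrArg (Polynomial.eval e') he
      rw [Polynomial.eval_map_algebraMap, he'] at h1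
      simpa using h1.symm
    rw [mul_eq_zero, mul_eq_zero, sub_eq_zero, sub_eq_zero, sub_eq_zero] at hr
    rcases hr with (rfl | rfl) | rfl
    · exact lr_root C e he h12 hm (hone _ e₂ e₃ k2 hD hm)
        (hone _ e₃ e₂ (by rw [k2]; ring) (by rw [hD]; ring) hm) hy
    · exact lr_root (e₁ := e') (e₂ := e₁) (e₃ := e₃) C e (by rw [he]; ring) h12.symm hm
        (hone _ e₁ e₃ (by rw [k2]; ring) (by rw [hD]; ring) hm)
        (hone _ e₃ e₁ (by rw [k2]; ring) (by rw [hD]; ring) hm) hy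
    · exact lr_root (e₁ := e') (e₂ := e₁) (e₃ := e₂) C e (by rw [he]; ring) h13.symm hm
        (hone _ e₁ e₂ (by rw [k2]; ring) (by rw [hD]; ring) hm)
        (hone _ e₂ e₁ (by rw [k2]; ring) (by rw [hD]; ring) hm) hy
  · -- `K(e') = Ω`
    have htop : Me (⊥ : IntermediateField K Ω) e' = ⊤ := by
      rw [Me, bot_sup_eq]
      have h4 : Module.finrank K (IntermediateField.adjoin K {e'}) ∣ 2 := by
        rw [← hfr]
        exact ⟨_, (Module.finrank_mul_finrank K (IntermediateField.adjoin K {e'}) Ω).symm⟩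
      rcases (Nat.dvd_prime Nat.prime_two).1 h4 with h5 | h5
      · exfalso
        apply hm
        rw [IntermediateField.finrank_eq_one_iff] at h5
        rw [← h5]
        exact IntermediateField.mem_adjoin_simple_self K e'
      · refine IntermediateField.eq_of_le_of_finrank_eq le_top ?_
        rw [h5, IntermediateField.finrank_top', hfr]
    obtain ⟨s, hs⟩ := IsAlgClosed.exists_pow_nat_eq (C.th0 Ω e' u y) (n := 2) (by norm_num)
    refine ⟨s, ?_, hs.symm⟩
    rw [htop]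
    exact IntermediateField.mem_top

/-- Proof: `X' ((X' - a)² - 4 b) = Y'²` for `X' = kap u`, `Y' ∈ K`, and `- b > 0`: `X' ≥ 0`, so `kap u` is a square: `kap_fix`. -/
theorem fix_real (e : K ≃+* ℝ) (hb : e (algebraMap F K C.b) < 0) {u : Pt C.W₁ Ω}
    (hu : (C.dt K Ω).UU (⊥ : IntermediateField K Ω).fixingSubgroup u) :
    ∀ γ : Ω ≃ₐ[K] Ω, γ • u = u := by
  classical
  have hsq : SqM (⊥ : IntermediateField K Ω) (C.kap Ω u) := by
    rcases Pt.cases' u with rfl | ⟨x, y, n, rfl⟩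
    · exact ⟨1, one_mem _, (one_pow 2).symm⟩
    have hkap : C.kap Ω (Pt.aff x y n) = if x = 0 then 1 else if y = 0 then
      algebraMap F Ω (C.a ^ 2 - 4 * C.b) else (y / x) ^ 2 := rfl
    by_cases hx : x = 0
    · rw [hkap, if_pos hx]
      exact ⟨1, one_mem _, (one_pow 2).symm⟩
    by_cases hy : y = 0
    · rw [hkap, if_neg hx, if_pos hy, IsScalarTower.algebraMap_apply F K Ω]
      refine real_sq e ?_
      simp only [map_sub, map_pow, map_mul, map_ofNat]
      nlinarith [sq_nonneg (e (algebraMap F K C.a))]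
    have hk := kap_mem C hu
    obtain ⟨k, hk'⟩ := lr_bot hk
    rw [← hk']
    refine real_sq e ?_
    rw [hkap, if_neg hx, if_neg hy] at hk'
    -- `Y'`
    have hY : (y / x) * (x - algebraMap F Ω C.b / x) ∈ (⊥ : IntermediateField K Ω) := by
      refine mem_of_fix ⊥ fun γ hγ => ?_
      rcases hu γ hγ with h | h
      · obtain ⟨h1, h2⟩ := (Gal_smul_aff n γ).1 h
        rw [map_mul, map_div₀, map_sub, map_div₀, gal_F γ, h1, h2]
      · obtain ⟨n', hn'⟩ := C.add_t₁ n hx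
        have h' : γ • (Pt.aff x y n : Pt C.W₁ Ω) = Pt.aff x y n + C.t Ω := h
        obtain ⟨n'', hn''⟩ := gal_aff γ n
        rw [hn', hn''] at h'
        obtain ⟨h1, h2⟩ := Pt.aff_inj h'
        rw [map_mul, map_div₀, map_sub, map_div₀, gal_F γ, h1, h2]
        have h3 := C.b_ne Ω
        field_simp
        ring
    obtain ⟨Y, hY'⟩ := lr_bot hY
    have hE : k * ((k - algebraMap F K C.a) ^ 2 - 4 * algebraMap F K C.b) = Y ^ 2 := by
      apply (algebraMap K Ω).injective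
      rw [map_mul, map_sub, map_pow, map_sub, map_mul, map_pow, map_ofNat,
        ← IsScalarTower.algebraMap_apply, ← IsScalarTower.algebraMap_apply, hk', hY']
      have h1 := C.eq₁ n
      have h2 : (y / x) ^ 2 - algebraMap F Ω C.a = x + algebraMap F Ω C.b / x := by
        rw [div_pow, h1]
        field_simp
        ring
      rw [h2]
      field_simp
      ring
    have hE' := congrArg e hE
    simp only [map_sub, map_pow, map_mul, map_ofNat] at hE'
    by_contra hn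
    push Not at hn
    have h1 : 0 < (e k - e (algebraMap F K C.a)) ^ 2 - 4 * e (algebraMap F K C.b) := by
      nlinarith [sq_nonneg (e k - e (algebraMap F K C.a))]
    nlinarith [sq_nonneg (e Y), mul_neg_of_neg_of_pos hn h1]
  intro γ
  refine (kap_fix C hu).1 hsq γ ?_
  rw [IntermediateField.fixingSubgroup_bot]
  exact Subgroup.mem_top γ

/-- Proof: `al u > 0`: a square, `half₁`; `al u < 0`: `al (u + t) ~ b al u > 0` (`al_pair`). -/
theorem al_real (e : K ≃+* ℝ) (hb : e (algebraMap F K C.b) < 0) {u : Pt C.W₁ Ω}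
    (hu : ∀ γ : Ω ≃ₐ[K] Ω, γ • u = u) :
    ∃ τ : Pt C.W₁ Ω, (C.dt K Ω).UU ⊤ τ ∧ (u = τ + τ ∨ u = τ + τ + C.t Ω) := by
  classical
  have htt : C.t Ω + C.t Ω = 0 := C.two_t Ω
  have hkey : ∀ u' : Pt C.W₁ Ω, (∀ γ : Ω ≃ₐ[K] Ω, γ • u' = u') →
      SqM (⊥ : IntermediateField K Ω) (C.al u') →
      ∃ τ : Pt C.W₁ Ω, (C.dt K Ω).UU ⊤ τ ∧ τ + τ = u' := by
    intro u' hu' h
    obtain ⟨τ, hτ, h1⟩ := half₁ C (M := ⊥) (fun γ _ => hu' γ) h
    rw [IntermediateField.fixingSubgroup_bot] at hτ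
    exact ⟨τ, hτ, h1⟩
  have hut : ∀ γ : Ω ≃ₐ[K] Ω, γ • (u + C.t Ω) = u + C.t Ω := by
    intro γ
    rw [smul_add, hu γ, gal_t]
  obtain ⟨α, hα⟩ := lr_bot (al_mem C (M := (⊥ : IntermediateField K Ω)) fun γ _ => hu γ)
  obtain ⟨β, hβ⟩ := lr_bot (al_mem C (M := (⊥ : IntermediateField K Ω)) fun γ _ => hut γ)
  by_cases hp : 0 ≤ e α
  · obtain ⟨τ, hτ, h1⟩ := hkey u hu (by rw [← hα]; exact real_sq e hp)
    exact ⟨τ, hτ, Or.inl h1.symm⟩
  · push Not at hp
    have h1 := al_pair C (M := (⊥ : IntermediateField K Ω)) (a₁ := u) (a₂ := C.t Ω)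
      (fun γ _ => Or.inl ⟨hu γ, gal_t C γ⟩)
    have h2 : C.al (C.t Ω) = algebraMap F Ω C.b := if_pos rfl
    rw [h2, ← hα, ← hβ, IsScalarTower.algebraMap_apply F K Ω, ← map_mul (algebraMap K Ω) α] at h1
    have h3 : 0 < e (α * algebraMap F K C.b) := by
      rw [map_mul]
      exact mul_pos_of_neg_of_neg hp hb
    obtain ⟨τ, hτ, h4⟩ := hkey _ hut (by rw [← hβ]; exact real_sq e (lr_of_mul e h3 h1))
    refine ⟨τ, hτ, Or.inr ?_⟩
    rw [h4, add_assoc, htt, add_zero]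

/-- The double of a point over `K` is a norm. -/
theorem lr_double (e : K ≃+* ℝ) {G : Type} [AddCommGroup G] (T : Th (C.dt K Ω) G)
    (hT : T.op = opn K Ω) (hN : ∀ u y, T.f ⊥ u y = 0) {u : Pt C.W₁ Ω} {y : Pt C.W₂ Ω}
    (hy : (C.dt K Ω).PP ⊤ u y) : T.f ⊤ u (y + y) = 0 := by
  obtain ⟨hfr, σ, hσ, hσ'⟩ := real_gal (Ω := Ω) e
  have hfd : FiniteDimensional K Ω := Module.finite_of_finrank_pos (by rw [hfr]; norm_num)
  have hop : T.op ⊥ := by
    rw [hT]
    refine ⟨⊤, inferInstance, ?_⟩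
    rw [IntermediateField.fixingSubgroup_top]
  have h2 : (⊥ : Subgroup (Ω ≃ₐ[K] Ω)).relIndex ⊤ = 2 := by
    rw [Subgroup.relIndex_top_right, Subgroup.index_bot, IsGalois.card_aut_eq_finrank, hfr]
  have hy' : (C.dt K Ω).PP ⊥ u y := Dt.pp_mono bot_le hy
  have h3 := T.nB hop bot_le hy.uu hy'
  rw [Nb_two h2 bot_le hy.uu hy' (Subgroup.mem_top σ) (fun h => hσ (Subgroup.mem_bot.1 h)),
    (Dt.pp_iff hy.uu).1 hy σ (Subgroup.mem_top σ), hN] at h3
  exact h3.symm

/-- **The local theorem at the real places.** `hN`: norms from `Ω` are trivial. Proof: `f ⊤ u (y' + y') = f ⊤ u (Nb ⊤ ⊥ u y') = f ⊥ u y' = 0` (`nB`, `Nb_two`, `real_gal`). If `disc < 0` all points are doubles (`half_real`), so `f = 0`. If `b < 0`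
then `u` is fixed (`fix_real`), `u = 2 τ` or `2 τ + t` (`al_real`), `f(u, y) = f(0, y) + br(u, 0, y)`, `br(2 τ) = 0` (`br_two`), `br(t, 0, y) = - 2 f(0, y) = - f(0, 2 y) = 0`. -/
theorem locR (e : K ≃+* ℝ) (h : e (algebraMap F K C.b) < 0 ∨ e (algebraMap F K C.disc) < 0)
    {G : Type} [AddCommGroup G] (T : Th (C.dt K Ω) G) (hT : T.op = opn K Ω)
    (hN : ∀ u y, T.f ⊥ u y = 0) : T.Loc := by
  obtain ⟨hfr, σ, hσ, hσ'⟩ := real_gal (Ω := Ω) e
  have hbot : (⊥ : IntermediateField K Ω).fixingSubgroup = ⊤ :=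
    IntermediateField.fixingSubgroup_bot
  have hz : ∀ γ : Ω ≃ₐ[K] Ω, γ • (0 : Pt C.W₂ Ω) = 0 := fun γ => smul_zero γ
  have hpp0 : ∀ y : Pt C.W₂ Ω, (∀ γ : Ω ≃ₐ[K] Ω, γ • y = y) → (C.dt K Ω).PP ⊤ 0 y := fun y hy =>
    (Dt.pp_fix fun γ _ => smul_zero γ).2 fun γ _ => hy γ
  have h2 : ∀ y : Pt C.W₂ Ω, (∀ γ : Ω ≃ₐ[K] Ω, γ • y = y) → 2 • T.f ⊤ 0 y = 0 := by
    intro y hy
    rw [two_nsmul, ← T.f_add T.op_top (hpp0 y hy) (hpp0 y hy)]
    exact lr_double C e T hT hN (hpp0 y hy)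
  refine ⟨fun H u y hH hy => ?_, h2⟩
  have hHH : H = ⊥ ∨ H = ⊤ := by
    by_cases hs : σ ∈ H
    · right
      rw [eq_top_iff]
      intro γ _
      rcases hσ' γ with rfl | rfl
      · exact H.one_mem
      · exact hs
    · left
      rw [eq_bot_iff]
      intro γ hγ
      rcases hσ' γ with rfl | rfl
      · exact Subgroup.mem_bot.2 rfl
      · exact absurd hγ hs
  rcases hHH with rfl | rfl
  · exact ⟨0, hz, by rw [hN, T.f_zero]⟩
  · rcases h with h | h
    · have hu : ∀ γ : Ω ≃ₐ[K] Ω, γ • u = u := fix_real C e h (by rw [hbot]; exact hy.uu)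
      have hyf : ∀ γ : Ω ≃ₐ[K] Ω, γ • y = y := fun γ =>
        (Dt.pp_fix fun γ _ => hu γ).1 hy γ (Subgroup.mem_top γ)
      obtain ⟨τ, hτ, h3⟩ := al_real C e h hu
      refine ⟨y, hyf, ?_⟩
      have h4 : T.br ⊤ (τ + τ) 0 y = 0 := T.br_two T.op_top (hpp0 y hyf) hτ
      rcases h3 with h3 | h3
      · unfold Th.br at h4
        rw [zero_add, ← h3, sub_eq_zero] at h4
        exact h4
      · have h5 := T.br_t T.op_top (hpp0 y hyf)
        rw [h2 y hyf, neg_zero] at h5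
        have hfix : ∀ γ ∈ (⊤ : Subgroup (Ω ≃ₐ[K] Ω)), γ • (τ + τ) = τ + τ := by
          intro γ _
          have h6 := hu γ
          rw [h3, smul_add, gal_t] at h6
          exact add_right_cancel h6
        have h6 := T.br_add T.op_top (hpp0 y hyf) hfix (fun γ _ => gal_t C γ)
        have h7 : T.br ⊤ (C.t Ω) 0 y = 0 := h5
        rw [h4, h7, add_zero] at h6
        unfold Th.br at h6
        rw [zero_add, ← h3, sub_eq_zero] at h6
        exact h6
    · refine ⟨0, hz, ?_⟩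
      rw [T.f_zero]
      obtain ⟨y', hy', h3⟩ := half_real C e h (u := u) (y := y) (by rw [hbot]; exact hy)
      rw [hbot] at hy'
      rw [← h3]
      exact lr_double C e T hT hN hy'

/-- At the complex places everything is a norm. -/
theorem locC (e : K ≃+* ℂ) {G : Type} [AddCommGroup G] (T : Th (C.dt K Ω) G)
    (hN : ∀ u y, T.f ⊥ u y = 0) : T.Loc := by
  have hbot : ∀ H : Subgroup (Ω ≃ₐ[K] Ω), H = ⊥ := by
    intro H
    rw [eq_bot_iff]
    intro γ _
    exact Subgroup.mem_bot.2 (complex_gal e γ)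
  refine ⟨fun H u y _ _ => ⟨0, fun γ => smul_zero γ, ?_⟩, fun y _ => ?_⟩
  · rw [T.f_zero, hbot H, hN]
  · rw [hbot ⊤, hN, smul_zero]

end BE
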