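import Pool.Agent.Lib.MP_f80667_ag.Be.SyU

/-! The norm group of a quadratic extension of a local field has index two. -/

open ZC Polynomial IntermediateField

namespace BE

variable {K Ω : Type} [Field K] [CharZero K] [Field Ω] [Algebra K Ω]

/-- The group of the `x ∈ M^*` with `(x, b) = 1`. -/
def Mn (M : IntermediateField K Ω) (b : Ω) (hb : b ∈ M) : Subgroup Ωˣ where
  carrier := {x | (x : Ω) ∈ M ∧ HS M (x : Ω) b}
  one_mem' := ⟨one_mem M, 1, one_mem M, 0, zero_mem M, by simp⟩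
  mul_mem' := by
    rintro a c ⟨ha, p, hp, q, hq, h⟩ ⟨hc, p', hp', q', hq', h'⟩
    refine ⟨mul_mem (S := IntermediateField K Ω) ha hc, p * p' + b * (q * q'), ?_, p * q' + q * p',
      ?_, ?_⟩
    · exact add_mem (mul_mem hp hp') (mul_mem hb (mul_mem hq hq'))
    · exact add_mem (mul_mem hp hq') (mul_mem hq hp')
    · rw [Units.val_mul, h, h']
      ring
  inv_mem' := by
    rintro a ⟨ha, p, hp, q, hq, h⟩
    have h0 : (a : Ω) ≠ 0 := a.ne_zero
    refine ⟨?_, p / a, div_mem hp ha, q / a, div_mem hq ha, ?_⟩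
    · change ((a⁻¹ : Ωˣ) : Ω) ∈ M
      rw [Units.val_inv_eq_inv_val]
      exact inv_mem ha
    · rw [Units.val_inv_eq_inv_val]
      field_simp
      linear_combination h

section syn_aux

private theorem syn_le (M : IntermediateField K Ω) (e : Ω) : M ≤ Me M e := le_sup_left

private theorem syn_mem (M : IntermediateField K Ω) (e : Ω) : e ∈ Me M e :=
  (le_sup_right : _ ≤ Me M e) (IntermediateField.mem_adjoin_simple_self K e)

private theorem syn_fd [IsAlgClosure K Ω] (M : IntermediateField K Ω) [FiniteDimensional K M]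
    (e : Ω) : FiniteDimensional K (Me M e) := by
  have halg : Algebra.IsAlgebraic K Ω := IsAlgClosure.isAlgebraic
  have h1 : FiniteDimensional K (IntermediateField.adjoin K {e}) :=
    IntermediateField.adjoin.finiteDimensional (halg.isAlgebraic e).isIntegral
  unfold Me
  infer_instance

/-- Conjugation. -/
private theorem syn_conj [IsAlgClosure K Ω] {M : IntermediateField K Ω} {s : Ω} (hs : s ^ 2 ∈ M)
    (hn : s ∉ M) : ∃ σ ∈ M.fixingSubgroup, σ s = -s := by
  by_contra hc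
  push Not at hc
  refine hn (mem_of_fix M fun γ hγ => ?_)
  have h2 : γ (s ^ 2) = s ^ 2 := (IntermediateField.mem_fixingSubgroup_iff M γ).1 hγ _ hs
  rw [map_pow] at h2
  rcases sq_eq_sq_iff_eq_or_eq_neg.1 h2 with h3 | h3
  · exact h3
  · exact absurd h3 (hc γ hγ)

private theorem syn_mem_Mu {M : IntermediateField K Ω} {x : Ωˣ} : x ∈ Mu M ↔ (x : Ω) ∈ M :=
  Iff.rfl

private theorem syn_mem_Mn {M : IntermediateField K Ω} {b : Ω} (hb : b ∈ M) {x : Ωˣ} :
    x ∈ Mn M b hb ↔ (x : Ω) ∈ M ∧ HS M (x : Ω) b := Iff.rfl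

private theorem syn_Ms_le (M : IntermediateField K Ω) : Ms M ≤ Mu M := by
  rintro x ⟨y, hy, rfl⟩
  exact (Mu M).pow_mem hy 2

private theorem syn_Ms_mono {M N : IntermediateField K Ω} (h : M ≤ N) : Ms M ≤ Ms N := by
  rintro x ⟨y, hy, rfl⟩
  exact ⟨y, h hy, rfl⟩

private theorem syn_Ms_Mn (M : IntermediateField K Ω) {b : Ω} (hb : b ∈ M) :
    Ms M ≤ Mn M b hb := by
  intro x hx
  obtain ⟨p, hp, h⟩ := mem_Ms.1 hx
  exact ⟨syn_Ms_le M hx, p, hp, 0, zero_mem M, by rw [h]; ring⟩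

private theorem syn_Mn_Mu (M : IntermediateField K Ω) {b : Ω} (hb : b ∈ M) :
    Mn M b hb ≤ Mu M := fun _ hx => hx.1

/-- The classes of the elements of `M` in `M(s)`. -/
private theorem syn_ker {M : IntermediateField K Ω} {s : Ω} (hs : s ^ 2 ∈ M) (hn : s ∉ M) :
    (Ms M).relIndex (Ms (Me M s) ⊓ Mu M) = 2 := by
  have hs0 : s ≠ 0 := by
    rintro rfl
    exact hn (zero_mem M)
  have hc : CharZero Ω := charZero_of_injective_algebraMap (algebraMap K Ω).injective
  have hno : ∀ p ∈ M, p ≠ 0 → ¬ SqM M (p ^ 2 * s ^ 2) := by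
    rintro p hp hp0 ⟨c, hc, h⟩
    have h1 : (p * s) ^ 2 = c ^ 2 := by rw [mul_pow, h]
    have h2 : p * s ∈ M := by
      rcases sq_eq_sq_iff_eq_or_eq_neg.1 h1 with h3 | h3
      · rw [h3]
        exact hc
      · rw [h3]
        exact neg_mem hc
    apply hn
    have h3 : s = p * s / p := by field_simp
    rw [h3]
    exact div_mem h2 hp
  rw [Subgroup.relIndex_eq_two_iff]
  refine ⟨Units.mk0 (s ^ 2) (pow_ne_zero 2 hs0), ⟨mem_Ms.2 ⟨s, syn_mem M s, rfl⟩, hs⟩, ?_⟩
  rintro x ⟨hx, hxM⟩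
  obtain ⟨y, hy, hxy⟩ := mem_Ms.1 hx
  obtain ⟨p, hp, q, hq, rfl⟩ := (mem_quad hs).1 hy
  have hx0 : (x : Ω) ≠ 0 := x.ne_zero
  have h1 : 2 * p * q * s ∈ M := by
    have h2 : 2 * p * q * s = x - (p ^ 2 + s ^ 2 * q ^ 2) := by
      rw [hxy]
      ring
    rw [h2]
    exact sub_mem hxM (add_mem (pow_mem hp 2) (mul_mem hs (pow_mem hq 2)))
  have h2M : (2 : Ω) ∈ M := by
    have := M.natCast_mem 2
    rwa [Nat.cast_ofNat] at this
  have h3 : 2 * p * q = 0 := by
    by_contra h4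
    apply hn
    have h5 : s = 2 * p * q * s / (2 * p * q) := (mul_div_cancel_left₀ s h4).symm
    rw [h5]
    exact div_mem h1 (mul_mem (mul_mem h2M hp) hq)
  have h4 : p = 0 ∨ q = 0 := by
    rcases mul_eq_zero.1 h3 with h5 | h5
    · left
      exact (mul_eq_zero.1 h5).resolve_left two_ne_zero
    · exact Or.inr h5
  rcases h4 with rfl | rfl
  · -- `x = q² s²`
    have hq0 : q ≠ 0 := by
      rintro rfl
      apply hx0
      rw [hxy]
      ring
    left
    constructor
    · refine mem_Ms.2 ⟨q * s ^ 2, mul_mem hq hs, ?_⟩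
      rw [Units.val_mul, hxy, Units.val_mk0]
      ring
    · intro h5
      apply hno q hq hq0
      have h6 := mem_Ms.1 h5
      rw [hxy] at h6
      have h7 : (0 + q * s) ^ 2 = q ^ 2 * s ^ 2 := by ring
      rwa [h7] at h6
  · have hp0 : p ≠ 0 := by
      rintro rfl
      apply hx0
      rw [hxy]
      ring
    right
    constructor
    · refine mem_Ms.2 ⟨p, hp, ?_⟩
      rw [hxy]
      ring
    · intro h5
      apply hno p hp hp0
      have h6 := mem_Ms.1 h5
      rw [Units.val_mul, hxy, Units.val_mk0] at h6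
      have h7 : (p + 0 * s) ^ 2 * s ^ 2 = p ^ 2 * s ^ 2 := by ring
      rwa [h7] at h6

end syn_aux

/-- **Index of the norm group in terms of square classes.** `N = M(s)`, `s² = b`, `s ∉ M`. The norm `N^* / N^*² → M^* / M^*²` has the image `Mn / M^*²`, and its kernel is the image of `M^*` (Hilbert 90: `N x = c²` gives `x / c = y / y'`, `y'` the conjugate, so `x ~ c · Nf y`), which is isomorphic to
`M^* / (M^*² ∪ b M^*²)`. So `[N^* : N^*²] = [Mn : M^*²] [M^* : M^*²] / 2`. -/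
theorem mn_index {M : IntermediateField K Ω} [FiniteDimensional K M] [IsAlgClosure K Ω] {s : Ω}
    (hs : s ^ 2 ∈ M) (hn : s ∉ M) (hf : (Ms M).relIndex (Mu M) ≠ 0) :
    2 * (Ms (Me M s)).relIndex (Mu (Me M s)) =
      (Ms M).relIndex (Mn M (s ^ 2) hs) * (Ms M).relIndex (Mu M) := by
  obtain ⟨σ, hσ, hσs⟩ := syn_conj hs hn
  have hσM : ∀ x ∈ M, σ x = x := fun x hx => (IntermediateField.mem_fixingSubgroup_iff M σ).1 hσ x hx
  have hs0 : s ≠ 0 := by
    rintro rfl
    exact hn (zero_mem M)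
  have hle : M ≤ Me M s := syn_le M s
  -- the norm
  let ν : Ωˣ →* Ωˣ :=
    { toFun := fun x => x * Units.map (σ : Ω →* Ω) x
      map_one' := by simp
      map_mul' := by
        intro x y
        rw [map_mul]
        exact mul_mul_mul_comm _ _ _ _ }
  have hν : ∀ x : Ωˣ, ((ν x : Ωˣ) : Ω) = x * σ x := fun x => rfl
  have hνq : ∀ (x : Ωˣ) (p q : Ω), p ∈ M → q ∈ M → (x : Ω) = p + q * s →
      ((ν x : Ωˣ) : Ω) = p ^ 2 - s ^ 2 * q ^ 2 := by
    intro x p q hp hq hx
    rw [hν, hx, map_add, map_mul, hσM p hp, hσM q hq, hσs]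
    ring
  have hνM : ∀ x ∈ Mu (Me M s), ν x ∈ Mu M := by
    intro x hx
    obtain ⟨p, hp, q, hq, h⟩ := (mem_quad hs).1 hx
    rw [syn_mem_Mu, hνq x p q hp hq h]
    exact sub_mem (pow_mem hp 2) (mul_mem hs (pow_mem hq 2))
  have hσσ : ∀ x ∈ Me M s, σ (σ x) = x := by
    intro x hx
    obtain ⟨p, hp, q, hq, rfl⟩ := (mem_quad hs).1 hx
    rw [map_add, map_mul, hσM p hp, hσM q hq, hσs, map_add, map_mul, hσM p hp, hσM q hq, map_neg,
      hσs, neg_neg]
  -- the image of the norm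
  have himg : (Mu (Me M s)).map ν = Mn M (s ^ 2) hs := by
    ext x
    constructor
    · rintro ⟨y, hy, rfl⟩
      obtain ⟨p, hp, q, hq, h⟩ := (mem_quad hs).1 hy
      exact ⟨hνM y hy, p, hp, q, hq, hνq y p q hp hq h⟩
    · rintro ⟨hx, p, hp, q, hq, h⟩
      have hy0 : p + q * s ≠ 0 := by
        intro h0
        apply x.ne_zero
        rw [h]
        linear_combination (p - q * s) * h0
      refine ⟨Units.mk0 _ hy0, (mem_quad hs).2 ⟨p, hp, q, hq, rfl⟩, Units.ext ?_⟩
      rw [hνq _ p q hp hq rfl, h]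
  have h1 : ((Ms M).comap ν).relIndex (Mu (Me M s)) = (Ms M).relIndex (Mn M (s ^ 2) hs) := by
    rw [Subgroup.relIndex_comap, himg]
  -- Hilbert 90
  have h2 : Mu M ⊔ Ms (Me M s) = (Ms M).comap ν ⊓ Mu (Me M s) := by
    apply le_antisymm
    · refine sup_le ?_ ?_
      · intro x hx
        refine ⟨?_, hle hx⟩
        change ν x ∈ Ms M
        rw [mem_Ms]
        refine ⟨x, hx, ?_⟩
        rw [hν, hσM _ hx, sq]
      · intro x hx
        refine ⟨?_, syn_Ms_le _ hx⟩
        obtain ⟨y, hy, rfl⟩ := hx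
        exact ⟨ν y, hνM y hy, (map_pow ν y 2).symm⟩
    · rintro x ⟨hx, hxN⟩
      obtain ⟨c, hc, hcx⟩ := hx
      have hcx' : c ^ 2 = ν x := hcx
      have hνc : ν c = c ^ 2 := by
        refine Units.ext ?_
        rw [hν, hσM _ hc, Units.val_pow_eq_pow_val, sq]
      -- `w = x / c` has norm one
      have hw : ν (x * c⁻¹) = 1 := by
        rw [map_mul, map_inv, hνc, hcx', mul_inv_cancel]
      set w : Ωˣ := x * c⁻¹
      have hwN : (w : Ω) ∈ Me M s := by
        have : w ∈ Mu (Me M s) := (Mu (Me M s)).mul_mem hxN ((Mu (Me M s)).inv_mem (hle hc))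
        exact this
      have hw1 : (w : Ω) * σ w = 1 := by
        rw [← hν, hw]
        rfl
      -- `w y' = y`
      have hy : ∃ y : Ωˣ, y ∈ Mu (Me M s) ∧ (w : Ω) * σ y = y := by
        by_cases h0 : 1 + (w : Ω) = 0
        · refine ⟨Units.mk0 s hs0, syn_mem M s, ?_⟩
          rw [Units.val_mk0, hσs]
          linear_combination (-s) * h0
        · refine ⟨Units.mk0 _ h0, ?_, ?_⟩
          · rw [syn_mem_Mu, Units.val_mk0]
            exact add_mem (one_mem _) hwN
          · rw [Units.val_mk0, map_add, map_one]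
            linear_combination hw1
      obtain ⟨y, hyN, hwy⟩ := hy
      have hx1 : x = (c * (ν y)⁻¹) * y ^ 2 := by
        have h3 : w * ν y = y ^ 2 := by
          refine Units.ext ?_
          rw [Units.val_mul, hν, Units.val_pow_eq_pow_val]
          linear_combination (y : Ω) * hwy
        have h4 : x = w * c := by
          rw [inv_mul_cancel_right]
        rw [h4]
        rw [← h3]
        rw [mul_comm w c, mul_comm w (ν y), mul_assoc c, inv_mul_cancel_left]
      rw [hx1]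
      exact mul_mem (Subgroup.mem_sup_left ((Mu M).mul_mem hc ((Mu M).inv_mem (hνM y hyN))))
        (Subgroup.mem_sup_right ⟨y, hyN, rfl⟩)
  have h3 : (Ms (Me M s)).relIndex (Mu M ⊔ Ms (Me M s)) = (Ms (Me M s)).relIndex (Mu M) :=
    Subgroup.relIndex_sup_right _ _
  have h4 : (Ms M).relIndex (Ms (Me M s) ⊓ Mu M) * (Ms (Me M s) ⊓ Mu M).relIndex (Mu M) =
      (Ms M).relIndex (Mu M) :=
    Subgroup.relIndex_mul_relIndex _ _ _ (le_inf (syn_Ms_mono hle) (syn_Ms_le M)) inf_le_right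
  rw [syn_ker hs hn, Subgroup.inf_relIndex_right] at h4
  have h5 : (Ms (Me M s)).relIndex (Mu M ⊔ Ms (Me M s)) *
      (Mu M ⊔ Ms (Me M s)).relIndex (Mu (Me M s)) = (Ms (Me M s)).relIndex (Mu (Me M s)) :=
    Subgroup.relIndex_mul_relIndex _ _ _ le_sup_right
      (sup_le (fun x hx => hle hx) (syn_Ms_le _))
  rw [h3, h2, Subgroup.inf_relIndex_right, h1] at h5
  rw [← h5, ← h4]
  ring

/-- The index is two. Proof: `mn_index`, `sq_index`, `cO_quad`. -/
theorem mn_two (L : Lf K Ω) [IsAlgClosure K Ω] {M : IntermediateField K Ω}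
    [FiniteDimensional K M] {s : Ω} (hs : s ^ 2 ∈ M) (hn : s ∉ M) :
    (Mn M (s ^ 2) hs).relIndex (Mu M) = 2 := by
  have hfd := syn_fd M s
  have h2 : (2 : Ω) ≠ 0 := by
    have hc : CharZero Ω := charZero_of_injective_algebraMap (algebraMap K Ω).injective
    exact two_ne_zero
  have hc0 : cO L M ≠ 0 := bl_index L (L.pos h2)
  have h1 := sq_index L M
  have h3 := sq_index L (Me M s)
  rw [cO_quad L hs hn] at h3
  have h4 := mn_index hs hn (by
    rw [h1]
    exact mul_ne_zero four_ne_zero hc0)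
  rw [h1, h3] at h4
  have h5 : (Ms M).relIndex (Mn M (s ^ 2) hs) = 2 * cO L M := by
    have h6 : (Ms M).relIndex (Mn M (s ^ 2) hs) * (4 * cO L M) = 2 * cO L M * (4 * cO L M) := by
      rw [← h4]
      ring
    exact Nat.eq_of_mul_eq_mul_right (by positivity) h6
  have h6 : (Ms M).relIndex (Mn M (s ^ 2) hs) * (Mn M (s ^ 2) hs).relIndex (Mu M) =
      (Ms M).relIndex (Mu M) :=
    Subgroup.relIndex_mul_relIndex _ _ _ (syn_Ms_Mn M hs) (syn_Mn_Mu M hs)
  rw [h5, h1] at h6
  have h7 : 2 * cO L M * (Mn M (s ^ 2) hs).relIndex (Mu M) = 2 * cO L M * 2 := by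
    rw [h6]
    ring
  exact Nat.eq_of_mul_eq_mul_left (by positivity) h7

/-- **Symbols over local fields.** Proof: `mn_two`; if `b` is a square in `M` all symbols `(a, b)` are trivial. -/
theorem sym_of_lf (L : Lf K Ω) [IsAlgClosure K Ω] : Sym K Ω := by
  have hac : IsAlgClosed Ω := IsAlgClosure.isAlgClosed K
  have hc : CharZero Ω := charZero_of_injective_algebraMap (algebraMap K Ω).injective
  -- all symbols are trivial if `b` is a square
  have htriv : ∀ (M : IntermediateField K Ω) (a b : Ω), a ∈ M → b ≠ 0 → SqM M b → HS M a b := by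
    rintro M a b ha hb0 ⟨c, hc, rfl⟩
    have h2M : (2 : Ω) ∈ M := by
      have := M.natCast_mem 2
      rwa [Nat.cast_ofNat] at this
    have hc0 : c ≠ 0 := by
      rintro rfl
      exact hb0 (by ring)
    refine ⟨(a + 1) / 2, div_mem (add_mem ha (one_mem M)) h2M, (a - 1) / (2 * c),
      div_mem (sub_mem ha (one_mem M)) (mul_mem h2M hc), ?_⟩
    field_simp
    ring
  -- the index two group
  have hmain : ∀ M : IntermediateField K Ω, FiniteDimensional K M → ∀ b : Ω, b ∈ M →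
      ¬ SqM M b → ∃ s : Ω, ∃ hs : s ^ 2 ∈ M, s ^ 2 = b ∧
        (Mn M (s ^ 2) hs).relIndex (Mu M) = 2 := by
    intro M hM b hb hns
    obtain ⟨s, hs⟩ := IsAlgClosed.exists_pow_nat_eq b (n := 2) two_pos
    have hsM : s ^ 2 ∈ M := by
      rw [hs]
      exact hb
    exact ⟨s, hsM, hs, mn_two L hsM fun h => hns ⟨s, h, hs.symm⟩⟩
  refine ⟨?_, ?_⟩
  · intro M hM a a' b ha ha' hb ha0 ha0' hb0
    by_cases hsq : SqM M b
    · exact iff_of_true (htriv M _ b (mul_mem ha ha') hb0 hsq)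
        (iff_of_true (htriv M _ b ha hb0 hsq) (htriv M _ b ha' hb0 hsq))
    · obtain ⟨s, hs, rfl, hidx⟩ := hmain M hM b hb hsq
      have hidx' : ((Mn M (s ^ 2) hs).subgroupOf (Mu M)).index = 2 := hidx
      have h1 := Subgroup.mul_mem_iff_of_index_two hidx' (a := ⟨Units.mk0 a ha0, ha⟩)
        (b := ⟨Units.mk0 a' ha0', ha'⟩)
      have h2 : ∀ (x : Ω) (hx0 : x ≠ 0) (hx : x ∈ M),
          ((⟨Units.mk0 x hx0, hx⟩ : Mu M) ∈ (Mn M (s ^ 2) hs).subgroupOf (Mu M)) ↔
            HS M x (s ^ 2) := by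
        intro x hx0 hx
        rw [Subgroup.mem_subgroupOf]
        exact ⟨fun h => h.2, fun h => ⟨hx, h⟩⟩
      have h3 : (⟨Units.mk0 a ha0, ha⟩ * ⟨Units.mk0 a' ha0', ha'⟩ : Mu M) =
          ⟨Units.mk0 (a * a') (mul_ne_zero ha0 ha0'), mul_mem (S := IntermediateField K Ω) ha ha'⟩ := by
        refine Subtype.ext (Units.ext rfl)
      rw [h3, h2, h2, h2] at h1
      exact h1
  · intro M hM b hb hb0 hns
    obtain ⟨s, hs, rfl, hidx⟩ := hmain M hM b hb hns
    by_contra hcon
    push Not at hcon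
    have h1 : Mu M ≤ Mn M (s ^ 2) hs := by
      intro x hx
      exact ⟨hx, hcon x hx x.ne_zero⟩
    rw [Subgroup.relIndex_eq_one.2 h1] at hidx
    omega

end BE
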