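import Pool.Agent.Lib.MP_f80667_ag.Be.LfE
import Pool.Agent.Lib.MP_f80667_ag.Be.SyN

/-! Symbols over the finite extensions of the completions of a number field. -/

open ZC Polynomial IntermediateField IsDedekindDomain NumberField

namespace BE

/-- **Symbols over the finite extensions of the completions of a number field.** -/
theorem sym_FK {F : Type} [Field F] [NumberField F] (v : HeightOneSpectrum (𝓞 F)) :
    Sym (FK F v) (AlgebraicClosure (FK F v)) := by
  obtain ⟨L, -⟩ := exists_lf F v
  exact sym_of_lf L

end BE
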