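import Pool.Agent.Lib.MP_f80667_ag.Be.L1
import Pool.Agent.Lib.MP_f80667_ag.Be.L2
import Pool.Agent.Lib.MP_f80667_ag.Be.L3
import Pool.Agent.Lib.MP_f80667_ag.Be.LR
import Pool.Agent.Lib.MP_f80667_ag.Be.Gen
import Pool.Agent.Lib.MP_f80667_ag.Be.SyK

/-! The local theorems for cycles over the completions of a number field. -/

open ZC Polynomial IntermediateField IsDedekindDomain NumberField

namespace BE

variable {F : Type} [Field F] [NumberField F] (C : Cf F)

instance (v : InfinitePlace F) : CharZero (IK F v) :=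
  charZero_of_injective_algebraMap (algebraMap F (IK F v)).injective

/-- From the local structure modulo rational equivalence. -/
theorem locA_fin {F : Type} [Field F] {K : Type} [Field K] [CharZero K] [Algebra F K] (C : Cf F)
    (hL : (C.th' (C.X.ratEq K (AlgebraicClosure K)) le_rfl).Loc) :
    (∀ z ∈ C.X.cyc K (AlgebraicClosure K),
      Eqv C.B K (Finsupp.mapDomain (C.pr _) z) 0 →
      ∃ y : Pt C.W₂ K, Eqv C.X K z (C.fc K y)) ∧
    (∀ y : Pt C.W₂ K, Eqv C.X K (2 • C.fc K y) 0) ∧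
    ∀ y y' : Pt C.W₂ K, Eqv C.X K (C.fc K (y + y')) (C.fc K y + C.fc K y') := by
  obtain ⟨h1, h2, h3⟩ := loc_cyc C (C.X.ratEq K (AlgebraicClosure K)) le_rfl
    (C.B.ratEq K (AlgebraicClosure K)) (fun z hz => sc_ratEq C hz) hL
  refine ⟨fun z hz hz' => ?_, fun y => ?_, fun y y' => ?_⟩
  · unfold Eqv at hz'
    rw [sub_zero] at hz'
    exact h1 z hz hz'
  · unfold Eqv
    rw [sub_zero]
    exact h2 y
  · unfold Eqv
    rw [← sub_sub]
    exact h3 y y'

/-- From the local structure modulo rational equivalence and norms. -/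
theorem locA_inf {F : Type} [Field F] {K : Type} [Field K] [CharZero K] [Algebra F K] (C : Cf F)
    (hL : (C.th' (C.X.ratEq K (AlgebraicClosure K) ⊔ C.X.nrm K (AlgebraicClosure K))
      le_sup_left).Loc) :
    (∀ z ∈ C.X.cyc K (AlgebraicClosure K),
      EqvN C.B K (Finsupp.mapDomain (C.pr _) z) 0 →
      ∃ y : Pt C.W₂ K, EqvN C.X K z (C.fc K y)) ∧
    (∀ y : Pt C.W₂ K, EqvN C.X K (2 • C.fc K y) 0) ∧
    ∀ y y' : Pt C.W₂ K, EqvN C.X K (C.fc K (y + y')) (C.fc K y + C.fc K y') := by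
  obtain ⟨h1, h2, h3⟩ := loc_cyc C _ le_sup_left
    (C.B.ratEq K (AlgebraicClosure K) ⊔ C.B.nrm K (AlgebraicClosure K)) (fun z hz => by
      obtain ⟨a, ha, b, hb, rfl⟩ := AddSubgroup.mem_sup.1 hz
      rw [Finsupp.mapDomain_add]
      exact add_mem (AddSubgroup.mem_sup_left (sc_ratEq C ha))
        (AddSubgroup.mem_sup_right (sc_nrm C hb))) hL
  refine ⟨fun z hz hz' => ?_, fun y => ?_, fun y y' => ?_⟩
  · unfold EqvN at hz'
    rw [sub_zero] at hz'
    exact h1 z hz hz'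
  · unfold EqvN
    rw [sub_zero]
    exact h2 y
  · unfold EqvN
    rw [← sub_sub]
    exact h3 y y'

/-- The finite places. Proof: `exists_H1`, ..., `loc₁`, `loc₂`, `loc₃` (`sym_FK`) for `C.th'`, `R = ratEq`; `loc_cyc` with `R' = ratEq` (`sc_ratEq`). -/
theorem loc_fin (v : HeightOneSpectrum (𝓞 F)) (h : C.G1 v ∨ C.G2 v ∨ C.G3 v) :
    (∀ z ∈ C.X.cyc (FK F v) (AlgebraicClosure (FK F v)),
      Eqv C.B (FK F v) (Finsupp.mapDomain (C.pr _) z) 0 →
      ∃ y : Pt C.W₂ (FK F v), Eqv C.X (FK F v) z (C.fc (FK F v) y)) ∧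
    (∀ y : Pt C.W₂ (FK F v), Eqv C.X (FK F v) (2 • C.fc (FK F v) y) 0) ∧
    ∀ y y' : Pt C.W₂ (FK F v),
      Eqv C.X (FK F v) (C.fc (FK F v) (y + y')) (C.fc (FK F v) y + C.fc (FK F v) y') := by
  refine locA_fin C ?_
  rcases h with h | h | h
  · obtain ⟨L, hL⟩ := exists_H1 C v h
    exact loc₁ C L hL _ rfl
  · obtain ⟨L, hL⟩ := exists_H2 C v h
    exact loc₂ C L hL _ rfl
  · obtain ⟨L, hL⟩ := exists_H3 C v h
    exact loc₃ C L hL (sym_FK v) _ rfl

/-- Places without root of `g`: the classes are trivial (`f_eq_zero₂`, `f_fc`). -/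
theorem loc_fin₂ (v : HeightOneSpectrum (𝓞 F)) (h : C.G2 v) (y : Pt C.W₂ (FK F v)) :
    Eqv C.X (FK F v) (C.fc (FK F v) y) 0 := by
  obtain ⟨L, hL⟩ := exists_H2 C v h
  have hfix : ∀ γ : AlgebraicClosure (FK F v) ≃ₐ[FK F v] AlgebraicClosure (FK F v),
      γ • Pt.map C.W₂ (IsScalarTower.toAlgHom F (FK F v) (AlgebraicClosure (FK F v))) y =
        Pt.map C.W₂ (IsScalarTower.toAlgHom F (FK F v) (AlgebraicClosure (FK F v))) y := by
    intro γ
    rw [Pt.smul_def, Pt.map_map']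
    congr 1
    congr 1
    ext a
    change γ (algebraMap (FK F v) (AlgebraicClosure (FK F v)) a) =
      algebraMap (FK F v) (AlgebraicClosure (FK F v)) a
    exact γ.commutes a
  have h1 := f_eq_zero₂ C L hL (C.th' (C.X.ratEq (FK F v) (AlgebraicClosure (FK F v))) le_rfl) rfl
    ⊤ 0 (Pt.map C.W₂ (IsScalarTower.toAlgHom F (FK F v) (AlgebraicClosure (FK F v))) y)
    opn_top ((Dt.pp_fix fun γ _ => smul_zero γ).2 fun γ _ => hfix γ)
  rw [f_fc] at h1
  unfold Eqv
  rw [sub_zero]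
  exact (QuotientAddGroup.eq_zero_iff _).1 h1

/-- The trace from the trivial subgroup is the norm. -/
theorem locA_trG {Γ X : Type} [Group Γ] [MulAction Γ X] [Finite Γ] (x : X) :
    trG X (⊥ : Subgroup Γ) (Finsupp.single x 1) = ∑ᶠ γ : Γ, Finsupp.single (γ • x) (1 : ℤ) := by
  rw [trG_apply inferInstance]
  simp only [Finsupp.mapDomain_single]
  have hb : Function.Bijective fun q : Γ ⧸ (⊥ : Subgroup Γ) => (q.out : Γ) := by
    refine ⟨Quotient.out_injective, fun γ => ⟨(γ : Γ ⧸ (⊥ : Subgroup Γ)), ?_⟩⟩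
    have h1 : γ⁻¹ * ((γ : Γ ⧸ (⊥ : Subgroup Γ)).out : Γ) ∈ (⊥ : Subgroup Γ) := by
      rw [← QuotientGroup.eq, QuotientGroup.out_eq']
    rw [Subgroup.mem_bot] at h1
    exact (inv_mul_eq_one.1 h1).symm
  exact finsum_comp (g := fun γ : Γ => Finsupp.single (γ • x) (1 : ℤ)) _ hb

/-- Modulo norms the classes of the points over `Ω` are trivial. -/
theorem locA_nrm {F : Type} [Field F] {K : Type} [Field K] [CharZero K] [Algebra F K] (C : Cf F)
    [Finite (AlgebraicClosure K ≃ₐ[K] AlgebraicClosure K)]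
    (u : Pt C.W₁ (AlgebraicClosure K)) (y : Pt C.W₂ (AlgebraicClosure K)) :
    (C.th' (C.X.ratEq K (AlgebraicClosure K) ⊔ C.X.nrm K (AlgebraicClosure K))
      le_sup_left).f ⊥ u y = 0 := by
  have h1 : ∀ x : C.X.pt (AlgebraicClosure K),
      trG (C.X.pt (AlgebraicClosure K))
        (⊥ : Subgroup (AlgebraicClosure K ≃ₐ[K] AlgebraicClosure K)) (Finsupp.single x 1) ∈
        C.X.ratEq K (AlgebraicClosure K) ⊔ C.X.nrm K (AlgebraicClosure K) := by
    intro x
    rw [locA_trG]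
    exact AddSubgroup.mem_sup_right (AddSubgroup.subset_closure ⟨x, rfl⟩)
  refine (QuotientAddGroup.eq_zero_iff _).2 ?_
  rw [map_sub]
  exact sub_mem (h1 _) (h1 _)

/-- The infinite places. Proof: `R = ratEq ⊔ nrm`, `R' = ratEq ⊔ nrm`; the class `f ⊥ u y` is the class of a difference of two norms of points. `InfinitePlace.Completion.ringEquivRealOfIsReal`, ... -/
theorem loc_inf (h : C.Ok) (v : InfinitePlace F) :
    (∀ z ∈ C.X.cyc (IK F v) (AlgebraicClosure (IK F v)),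
      EqvN C.B (IK F v) (Finsupp.mapDomain (C.pr _) z) 0 →
      ∃ y : Pt C.W₂ (IK F v), EqvN C.X (IK F v) z (C.fc (IK F v) y)) ∧
    (∀ y : Pt C.W₂ (IK F v), EqvN C.X (IK F v) (2 • C.fc (IK F v) y) 0) ∧
    ∀ y y' : Pt C.W₂ (IK F v),
      EqvN C.X (IK F v) (C.fc (IK F v) (y + y')) (C.fc (IK F v) y + C.fc (IK F v) y') := by
  refine locA_inf C ?_
  rcases v.isReal_or_isComplex with hv | hv
  · let e : IK F v ≃+* ℝ := InfinitePlace.Completion.ringEquivRealOfIsReal hv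
    have h2 := (real_gal (Ω := AlgebraicClosure (IK F v)) e).1
    have : FiniteDimensional (IK F v) (AlgebraicClosure (IK F v)) :=
      Module.finite_of_finrank_pos (by rw [h2]; exact two_pos)
    exact locR C e (h.rl ((e : IK F v →+* ℝ).comp (algebraMap F (IK F v)))) _ rfl
      fun u y => locA_nrm C u y
  · let e : IK F v ≃+* ℂ := InfinitePlace.Completion.ringEquivComplexOfIsComplex hv
    have : Subsingleton (AlgebraicClosure (IK F v) ≃ₐ[IK F v] AlgebraicClosure (IK F v)) :=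
      ⟨fun γ γ' => by rw [complex_gal e γ, complex_gal e γ']⟩
    exact locC C e _ fun u y => locA_nrm C u y

end BE
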