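import Pool.Agent.Lib.MP_f80667_ag.Be.Defs
import Pool.Agent.Lib.MP_f80667_ag.Fa.Dfs

/-!
Definitions for the statement on zero-cycles on bielliptic surfaces over a number field `F`
(`FK F v`, `IK F v`: the completions, `LHat G = lim G/mG`, see `Fa/Dfs.lean`; all algebraic closures are
`AlgebraicClosure K`).

* `Eqv V K z z'`: rational equivalence over `K`; `EqvN`: modulo norms.
* `Cf.fc C K y`: the zero-cycle `[(0, y)] - [(0, 0)]` of `X` for `y ∈ E₂(K)`.
* `Cf.thz C e z`: the value of `θ_e` at the zero-cycle `z`. For `c` prime to `g` and a root `e` of `g` the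
  Hilbert symbols `(θ_e(z), c(e))` over the fields `K(e)` (one `e` for every monic irreducible factor
  `q` of `g` over the local field `K`) describe the value at `z` of the class
  `A_c = cor_(L/F) (θ, c) ∈ Br(X)`, `L = F[w]/g`; `Cf.Fl C K z c` is the set of the `q` for which the
  symbol is not trivial.
* `AdF V`: the families of zero-cycles of degree `0` over all places of `F`.
* `Cf.Orth C z`: the family `z` is orthogonal to all `A_c`: the number of the nontrivial symbols is
  finite and even.
* `Cf.G1`, `Cf.G2`, `Cf.G3`, `Cf.Rl`: the local conditions; `Cf.Ok`: all of them.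
* `Cf.Dl C K c₀ y`: `c₀` and `y ∈ E₂(K)` have the same class in `(L ⊗ K)^* / squares`.
* `Cf.Sel C`: every element `c₀` of `L^*` which comes from `E₂(F_v)` for all `v` comes from `E₂(F)`; in
  other words: the Tate-Shafarevich group of `E₂` has no element of order `2`.
* `Gp`, `Gb`, `FA`: zero-cycles of degree `0` modulo rational equivalence (and norms at the infinite
  places), the adelic group; `ImD V z`: `z` is in the image of `Δ`; `IsPf z z'`: `z'` is the push-forward of
  `z` to `B`.
-/

open ZC Polynomial IsDedekindDomain NumberField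

namespace BE

section general

variable {F : Type} [Field F] (V : Vr F) (K : Type) [Field K] [Algebra F K]

/-- Rational equivalence. -/
def Eqv (z z' : V.pt (AlgebraicClosure K) →₀ ℤ) : Prop := z - z' ∈ V.ratEq K (AlgebraicClosure K)

/-- Rational equivalence and norms. -/
def EqvN (z z' : V.pt (AlgebraicClosure K) →₀ ℤ) : Prop :=
  z - z' ∈ V.ratEq K (AlgebraicClosure K) ⊔ V.nrm K (AlgebraicClosure K)

/-- Zero-cycles of degree `0` over `K`. -/
noncomputable abbrev Dz : AddSubgroup (V.pt (AlgebraicClosure K) →₀ ℤ) := V.D0 K (AlgebraicClosure K)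

/-- Zero-cycles of degree `0` modulo rational equivalence. -/
def Gp : Type := Dz V K ⧸ (V.ratEq K (AlgebraicClosure K)).addSubgroupOf (Dz V K)

/-- Zero-cycles of degree `0` modulo rational equivalence and norms. -/
def Gb : Type := Dz V K ⧸
  (V.ratEq K (AlgebraicClosure K) ⊔ V.nrm K (AlgebraicClosure K)).addSubgroupOf (Dz V K)

noncomputable instance Gp.group : AddCommGroup (Gp V K) := QuotientAddGroup.Quotient.addCommGroup _

noncomputable instance Gb.group : AddCommGroup (Gb V K) := QuotientAddGroup.Quotient.addCommGroup _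

variable {V K}

/-- The class of a cycle. -/
noncomputable def Gp.cls (c : Dz V K) : Gp V K := Quotient.mk _ c

/-- The class of a cycle. -/
noncomputable def Gb.cls (c : Dz V K) : Gb V K := Quotient.mk _ c

variable (F K) in
/-- An embedding of the algebraic closure of `F` in that of `K`. -/
noncomputable def emb : AlgebraicClosure F →ₐ[F] AlgebraicClosure K := IsAlgClosed.lift

variable (K) in
/-- The base change of a cycle from `F` to `K`. -/
noncomputable def bc (z : V.pt (AlgebraicClosure F) →₀ ℤ) : V.pt (AlgebraicClosure K) →₀ ℤ :=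
  Finsupp.mapDomain (V.map (emb F K)) z

end general

section surface

variable {F : Type} [Field F] (C : Cf F) (K : Type) [Field K] [Algebra F K]

namespace Cf

/-- The cycle `[(0, y)] - [(0, 0)]`. -/
noncomputable def fc (y : Pt C.W₂ K) : C.X.pt (AlgebraicClosure K) →₀ ℤ :=
  Finsupp.single (C.px 0 (Pt.map _ (IsScalarTower.toAlgHom F K (AlgebraicClosure K)) y)) 1 -
    Finsupp.single (C.px 0 0) 1

variable {K} in
/-- The value of `θ_e` at a cycle. -/
noncomputable def thz (e : AlgebraicClosure K) (z : C.X.pt (AlgebraicClosure K) →₀ ℤ) :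
    AlgebraicClosure K :=
  z.prod fun x n => C.th (AlgebraicClosure K) e x ^ n

/-- The monic irreducible factors of `g` over `K` where the symbol is not trivial. -/
def Fl (z : C.X.pt (AlgebraicClosure K) →₀ ℤ) (c : F[X]) : Set K[X] :=
  {q | q.Monic ∧ Irreducible q ∧ q ∣ C.g.map (algebraMap F K) ∧ ∃ e : AlgebraicClosure K,
    aeval e q = 0 ∧ ¬ ∃ x ∈ IntermediateField.adjoin K {e}, ∃ y ∈ IntermediateField.adjoin K {e},
      C.thz e z = x ^ 2 - aeval e c * y ^ 2}

/-- The value of `w - e` at a point of `E₂`, up to squares. -/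
noncomputable def del {L : Type} [Field L] [Algebra F L] (e : L) (y : Pt C.W₂ L) : L :=
  C.th0 L e 0 y

/-- The elements `c₀` of `L^*` and `y` of `E₂(K)` have the same class modulo squares. -/
def Dl (c₀ : F[X]) (y : Pt C.W₂ K) : Prop :=
  ∀ e : AlgebraicClosure K, aeval e C.g = 0 → ∃ x ∈ IntermediateField.adjoin K {e},
    aeval e c₀ * C.del e (Pt.map _ (IsScalarTower.toAlgHom F K (AlgebraicClosure K)) y) = x ^ 2

end Cf

end surface

section nf

variable {F : Type} [Field F] [NumberField F] (V : Vr F)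

/-- The families of zero-cycles of degree `0` over all places of `F`. -/
abbrev AdF : Type :=
  (∀ v : HeightOneSpectrum (𝓞 F), Dz V (FK F v)) × (∀ v : InfinitePlace F, Dz V (IK F v))

/-- The adelic group `F^1_A`. -/
def FA : Type :=
  (∀ v : HeightOneSpectrum (𝓞 F), Gp V (FK F v)) × (∀ v : InfinitePlace F, Gb V (IK F v))

noncomputable instance FA.group : AddCommGroup (FA V) := Prod.instAddCommGroup

variable {V}

/-- The class of a family of cycles. -/
noncomputable def clA (c : AdF V) : FA V := (fun v => Gp.cls (c.1 v), fun v => Gb.cls (c.2 v))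

/-- `c'` is the family of the base changes of `c`. -/
def IsBc (c : Dz V F) (c' : AdF V) : Prop :=
  (∀ v, (c'.1 v).1 = bc (FK F v) c.1) ∧ ∀ v, (c'.2 v).1 = bc (IK F v) c.1

/-- `z` is in the image of `Δ`: there is `x` in the completion of `F^1(V)` such that for every `m` there
is a zero-cycle `c` of degree `0` over `F` which represents `x` modulo `m` and whose family of base
changes represents `z` modulo `m`. -/
def ImD (z : LHat (FA V)) : Prop :=
  ∃ x : LHat (Gp V F), ∀ m : ℕ+, ∃ (c : Dz V F) (c' : AdF V), IsBc c c' ∧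
    x.Rep m (Gp.cls c) ∧ z.Rep m (clA c')

namespace Cf

variable (C : Cf F)

/-- `c'` is the push-forward of `c`. -/
def Pf (c : AdF C.X) (c' : AdF C.B) : Prop :=
  (∀ v, (c'.1 v).1 = Finsupp.mapDomain (C.pr _) (c.1 v).1) ∧
    ∀ v, (c'.2 v).1 = Finsupp.mapDomain (C.pr _) (c.2 v).1

/-- `z'` is the push-forward of `z`. -/
def IsPf (z : LHat (FA C.X)) (z' : LHat (FA C.B)) : Prop :=
  ∀ (m : ℕ+) (c : AdF C.X) (c' : AdF C.B), C.Pf c c' → z.Rep m (clA c) → z'.Rep m (clA c')

/-- The nontrivial symbols at the finite places. -/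
def FlF (z : AdF C.X) (c : F[X]) : Set (Σ v : HeightOneSpectrum (𝓞 F), (FK F v)[X]) :=
  {p | p.2 ∈ C.Fl (FK F p.1) (z.1 p.1).1 c}

/-- The nontrivial symbols at the infinite places. -/
def FlI (z : AdF C.X) (c : F[X]) : Set (Σ v : InfinitePlace F, (IK F v)[X]) :=
  {p | p.2 ∈ C.Fl (IK F p.1) (z.2 p.1).1 c}

/-- The family `z` is orthogonal to the classes `A_c`. -/
def Orth (z : AdF C.X) : Prop :=
  ∀ c : F[X], IsCoprime c C.g → (C.FlF z c).Finite ∧ (C.FlI z c).Finite ∧
    Even ((C.FlF z c).ncard + (C.FlI z c).ncard)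

/-- `z` and `z'` are equivalent at all places. -/
def EqvA (z z' : AdF C.X) : Prop :=
  (∀ v, Eqv C.X (FK F v) (z.1 v).1 (z'.1 v).1) ∧ ∀ v, EqvN C.X (IK F v) (z.2 v).1 (z'.2 v).1

/-- `z` is in the kernel of the push-forward to `B`: it is an element of the adelic Albanese kernel. -/
def Ker (z : AdF C.X) : Prop :=
  (∀ v, Eqv C.B (FK F v) (Finsupp.mapDomain (C.pr _) (z.1 v).1) 0) ∧
    ∀ v, EqvN C.B (IK F v) (Finsupp.mapDomain (C.pr _) (z.2 v).1) 0

/-- Both curves have good reduction at `v`, which is odd. -/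
structure G1 (v : HeightOneSpectrum (𝓞 F)) : Prop where
  two : v.valuation F 2 = 1
  ha : v.valuation F C.a ≤ 1
  hb : v.valuation F C.b = 1
  hab : v.valuation F (C.a ^ 2 - 4 * C.b) = 1
  hc₂ : v.valuation F C.c₂ ≤ 1
  hc₁ : v.valuation F C.c₁ ≤ 1
  hc₀ : v.valuation F C.c₀ ≤ 1
  hd : v.valuation F C.disc = 1

/-- `v` is odd and `g` has no root in the completion. -/
structure G2 (v : HeightOneSpectrum (𝓞 F)) : Prop where
  two : v.valuation F 2 = 1
  root : ∀ x : FK F v, aeval x C.g ≠ 0

/-- The condition for the dyadic places: `F_v` is unramified over `ℚ_2`, `g` is integral with unit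
discriminant and without root modulo `v`, `a` is a unit and a square in `F_v`, `v(b) ≥ 7`. -/
structure G3 (v : HeightOneSpectrum (𝓞 F)) : Prop where
  two : v.valuation F 2 = WithZero.exp (-1 : ℤ)
  hc₂ : v.valuation F C.c₂ ≤ 1
  hc₁ : v.valuation F C.c₁ ≤ 1
  hc₀ : v.valuation F C.c₀ ≤ 1
  hd : v.valuation F C.disc = 1
  root : ∀ x : 𝓞 F, v.valuation F (C.g.eval (algebraMap (𝓞 F) F x)) = 1
  ha : v.valuation F C.a = 1
  sq : IsSquare (algebraMap F (FK F v) C.a)
  hb : v.valuation F C.b ≤ WithZero.exp (-7 : ℤ)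

/-- The local conditions. -/
structure Ok : Prop where
  fin : ∀ v, C.G1 v ∨ C.G2 v ∨ C.G3 v
  rl : ∀ φ : F →+* ℝ, φ C.b < 0 ∨ φ C.disc < 0

/-- `c₀` comes from points of `E₂` at all places. -/
def SelAt (c₀ : F[X]) : Prop :=
  IsCoprime c₀ C.g ∧ (∀ v, ∃ y : Pt C.W₂ (FK F v), C.Dl (FK F v) c₀ y) ∧
    ∀ v, ∃ y : Pt C.W₂ (IK F v), C.Dl (IK F v) c₀ y

/-- Every element of the Selmer group comes from `E₂(F)`. -/
def Sel : Prop := ∀ c₀, C.SelAt c₀ → ∃ y : Pt C.W₂ F, C.Dl F c₀ y

/-- The point of `E₂(K)` given by a point of `E₂(F)`. -/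
noncomputable def toK (K : Type) [Field K] [Algebra F K] (y : Pt C.W₂ F) : Pt C.W₂ K :=
  Pt.map C.W₂ (IsScalarTower.toAlgHom F F K) y

end Cf

end nf

end BE
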