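import Pool.Agent.Lib.MP_f80667_ag.Be.Lh
import Pool.Agent.Lib.MP_f80667_ag.Be.Gal

/-! Dyadic places: the roots of `g`. -/

open ZC Polynomial IntermediateField

namespace BE

variable {F : Type} [Field F] {K : Type} [Field K] [CharZero K] [Algebra F K] {Ω : Type} [Field Ω]
  [Algebra K Ω] [Algebra F Ω] [IsScalarTower F K Ω] [IsAlgClosure K Ω] (C : Cf F) (L : Lf K Ω)

/-! ### Auxiliary lemmas -/

omit [CharZero K] [IsScalarTower F K Ω] [IsAlgClosure K Ω] in
theorem Cy_ev (C : Cf F) (x : Ω) : aeval x C.g = x ^ 3 + algebraMap F Ω C.c₂ * x ^ 2 +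
    algebraMap F Ω C.c₁ * x + algebraMap F Ω C.c₀ := by
  simp [Cf.g]

omit [CharZero K] [Algebra K Ω] [IsScalarTower F K Ω] [IsAlgClosure K Ω] [Algebra F K] [Field K] in
theorem Cy_g (C : Cf F) : C.g.map (algebraMap F Ω) = Polynomial.X ^ 3 +
    Polynomial.C (algebraMap F Ω C.c₂) * Polynomial.X ^ 2 +
    Polynomial.C (algebraMap F Ω C.c₁) * Polynomial.X + Polynomial.C (algebraMap F Ω C.c₀) := by
  simp [Cf.g]

omit [CharZero K] [IsAlgClosure K Ω] in
theorem Cy_F (M : IntermediateField K Ω) (c : F) : algebraMap F Ω c ∈ M := by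
  rw [IsScalarTower.algebraMap_apply F K Ω]
  exact M.algebraMap_mem _

omit [CharZero K] [IsAlgClosure K Ω] in
theorem Cy_coeff_mem (M : IntermediateField K Ω) (i : ℕ) :
    (C.g.map (algebraMap F Ω)).coeff i ∈ M := by
  rw [coeff_map]
  exact Cy_F M _

omit [CharZero K] [IsScalarTower F K Ω] [IsAlgClosure K Ω] in
theorem Cy_coeff_le {L : Lf K Ω} (h : L.H3 C) (i : ℕ) :
    L.nm ((C.g.map (algebraMap F Ω)).coeff i) ≤ 1 := by
  rw [coeff_map]
  match i with
  | 0 => simpa [Cf.g, coeff_X, coeff_C] using h.hc₀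
  | 1 => simpa [Cf.g, coeff_X, coeff_C] using h.hc₁
  | 2 => simpa [Cf.g, coeff_X, coeff_C] using h.hc₂
  | 3 =>
    have h3 : C.g.coeff 3 = 1 := by
      simp [Cf.g, coeff_X, coeff_C]
    rw [h3, map_one, L.one]
  | n + 4 =>
    have h3 : C.g.coeff (n + 4) = 0 := by
      simp [Cf.g, coeff_X, coeff_C, coeff_X_pow]
    rw [h3, map_zero, (L.zero_iff 0).2 rfl]
    exact zero_le_one

omit [CharZero K] [IsScalarTower F K Ω] [IsAlgClosure K Ω] in
theorem Cy_monic : (C.g.map (algebraMap F Ω)).Monic := by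
  rw [Cy_g]
  monicity!

omit [CharZero K] [IsScalarTower F K Ω] [IsAlgClosure K Ω] in
theorem Cy_gal [IsScalarTower F K Ω] (γ : Ω ≃ₐ[K] Ω) {e : Ω} (he : aeval e C.g = 0) :
    aeval (γ e) C.g = 0 := by
  have hF : ∀ c : F, γ (algebraMap F Ω c) = algebraMap F Ω c := fun c => by
    rw [IsScalarTower.algebraMap_apply F K Ω]
    exact γ.commutes _
  have h1 := congrArg γ he
  rw [Cy_ev] at h1 ⊢
  simpa [hF] using h1

omit [CharZero K] [IsScalarTower F K Ω] [IsAlgClosure K Ω] in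
/-- The sum of three different roots. -/
theorem Cy_sum {e e' e'' : Ω} (he : aeval e C.g = 0) (he' : aeval e' C.g = 0)
    (he'' : aeval e'' C.g = 0) (h1 : e ≠ e') (h2 : e ≠ e'') (h3 : e' ≠ e'') :
    e'' = -algebraMap F Ω C.c₂ - e - e' := by
  rw [Cy_ev] at he he' he''
  generalize algebraMap F Ω C.c₂ = c₂ at *
  generalize algebraMap F Ω C.c₁ = c₁ at *
  generalize algebraMap F Ω C.c₀ = c₀ at *
  have k1 : e ^ 2 + e * e' + e' ^ 2 + c₂ * (e + e') + c₁ = 0 := by
    have : (e - e') * (e ^ 2 + e * e' + e' ^ 2 + c₂ * (e + e') + c₁) = 0 := by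
      linear_combination he - he'
    exact (mul_eq_zero.1 this).resolve_left (sub_ne_zero.2 h1)
  have k2 : e ^ 2 + e * e'' + e'' ^ 2 + c₂ * (e + e'') + c₁ = 0 := by
    have : (e - e'') * (e ^ 2 + e * e'' + e'' ^ 2 + c₂ * (e + e'') + c₁) = 0 := by
      linear_combination he - he''
    exact (mul_eq_zero.1 this).resolve_left (sub_ne_zero.2 h2)
  have k3 : e + e' + e'' + c₂ = 0 := by
    have : (e' - e'') * (e + e' + e'' + c₂) = 0 := by
      linear_combination k1 - k2
    exact (mul_eq_zero.1 this).resolve_left (sub_ne_zero.2 h3)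
  linear_combination k3

/-! ### The ring of integers of `Ω` and its residue field -/

/-- The ring of integers. -/
def Cy_O (L : Lf K Ω) : ValuationSubring Ω where
  carrier := {x | L.nm x ≤ 1}
  mul_mem' {x y} hx hy := by
    change L.nm (x * y) ≤ 1
    rw [L.mul]
    exact mul_le_one₀ hx (L.nonneg y) hy
  one_mem' := L.one.le
  add_mem' {x y} hx hy := (L.add x y).trans (max_le hx hy)
  zero_mem' := by
    change L.nm 0 ≤ 1
    rw [(L.zero_iff 0).2 rfl]
    exact zero_le_one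
  neg_mem' {x} hx := by
    change L.nm (-x) ≤ 1
    rw [L.neg]
    exact hx
  mem_or_inv_mem' x := by
    change L.nm x ≤ 1 ∨ L.nm x⁻¹ ≤ 1
    rw [L.inv]
    rcases le_total (L.nm x) 1 with h | h
    · exact Or.inl h
    · exact Or.inr (inv_le_one_of_one_le₀ h)

omit [CharZero K] [Algebra F K] [IsScalarTower F K Ω] [IsAlgClosure K Ω] [Algebra F Ω] [Field F] in
theorem Cy_mem (L : Lf K Ω) (x : Ω) : x ∈ Cy_O L ↔ L.nm x ≤ 1 := Iff.rfl

omit [CharZero K] [Algebra F K] [IsScalarTower F K Ω] [IsAlgClosure K Ω] [Algebra F Ω] [Field F] in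
theorem Cy_max (L : Lf K Ω) (x : Cy_O L) :
    IsLocalRing.residue (Cy_O L) x = 0 ↔ L.nm (x : Ω) < 1 := by
  rw [IsLocalRing.residue_eq_zero_iff, IsLocalRing.mem_maximalIdeal, mem_nonunits_iff]
  have hx : L.nm (x : Ω) ≤ 1 := x.2
  constructor
  · intro h
    refine lt_of_le_of_ne hx fun h1 => h ?_
    have hx0 : (x : Ω) ≠ 0 := by
      intro h0
      rw [h0, (L.zero_iff 0).2 rfl] at h1
      exact zero_ne_one h1
    refine IsUnit.of_mul_eq_one ⟨(x : Ω)⁻¹, ?_⟩ (Subtype.ext (mul_inv_cancel₀ hx0))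
    change L.nm (x : Ω)⁻¹ ≤ 1
    rw [L.inv, h1, inv_one]
  · intro h hu
    obtain ⟨y, hy⟩ := hu.exists_right_inv
    have h1 : L.nm ((x : Ω) * (y : Ω)) = 1 := by
      have h2 : (x : Ω) * (y : Ω) = 1 := congrArg Subtype.val hy
      rw [h2, L.one]
    have h2 : L.nm (y : Ω) ≤ 1 := y.2
    rw [L.mul] at h1
    nlinarith [L.nonneg (x : Ω), L.nonneg (y : Ω)]

/-- The residue field of `K` in the residue field of `Ω`. -/
def Cy_k (L : Lf K Ω) : Subfield (IsLocalRing.ResidueField (Cy_O L)) where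
  carrier := {z | ∃ x : Cy_O L, (x : Ω) ∈ (⊥ : IntermediateField K Ω) ∧
    IsLocalRing.residue (Cy_O L) x = z}
  mul_mem' := by
    rintro _ _ ⟨x, hx, rfl⟩ ⟨y, hy, rfl⟩
    exact ⟨x * y, mul_mem hx hy, map_mul _ _ _⟩
  one_mem' := ⟨1, one_mem _, map_one _⟩
  add_mem' := by
    rintro _ _ ⟨x, hx, rfl⟩ ⟨y, hy, rfl⟩
    exact ⟨x + y, add_mem hx hy, map_add _ _ _⟩
  zero_mem' := ⟨0, zero_mem _, map_zero _⟩
  neg_mem' := by
    rintro _ ⟨x, hx, rfl⟩
    exact ⟨-x, neg_mem hx, map_neg _ _⟩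
  inv_mem' := by
    rintro _ ⟨x, hx, rfl⟩
    by_cases h0 : IsLocalRing.residue (Cy_O L) x = 0
    · rw [h0, inv_zero]
      exact ⟨0, zero_mem _, map_zero _⟩
    · have h1 : L.nm (x : Ω) = 1 := by
        refine le_antisymm x.2 (not_lt.1 fun h => h0 ((Cy_max L x).2 h))
      have hx0 : (x : Ω) ≠ 0 := by
        intro h
        rw [h, (L.zero_iff 0).2 rfl] at h1
        exact zero_ne_one h1
      refine ⟨⟨(x : Ω)⁻¹, ?_⟩, inv_mem hx, ?_⟩
      · change L.nm (x : Ω)⁻¹ ≤ 1
        rw [L.inv, h1, inv_one]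
      · refine eq_inv_of_mul_eq_one_right ?_
        rw [← map_mul]
        have h2 : x * ⟨(x : Ω)⁻¹, by
            change L.nm (x : Ω)⁻¹ ≤ 1
            rw [L.inv, h1, inv_one]⟩ = (1 : Cy_O L) := Subtype.ext (mul_inv_cancel₀ hx0)
        rw [h2, map_one]

omit [CharZero K] [Algebra F K] [IsScalarTower F K Ω] [IsAlgClosure K Ω] [Algebra F Ω] [Field F] in
theorem Cy_fin (L : Lf K Ω) : Finite (Cy_k L) := by
  classical
  obtain ⟨S, hS, hS'⟩ := L.fin ⊥ inferInstance
  have hfin : (Set.range fun s : S =>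
      IsLocalRing.residue (Cy_O L) ⟨(s : Ω), (hS s s.2).2⟩).Finite := Set.finite_range _
  refine (hfin.subset ?_ : ((Cy_k L : Subfield _) : Set _).Finite)
  rintro _ ⟨x, hx, rfl⟩
  obtain ⟨s, hs, hxs⟩ := hS' x hx x.2
  refine ⟨⟨s, hs⟩, ?_⟩
  symm
  change IsLocalRing.residue (Cy_O L) x = IsLocalRing.residue (Cy_O L) ⟨s, (hS s hs).2⟩
  rw [← sub_eq_zero, ← map_sub, Cy_max]
  exact hxs

omit [CharZero K] [Algebra F K] [IsScalarTower F K Ω] [IsAlgClosure K Ω] [Algebra F Ω] [Field F] in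
/-- The Frobenius endomorphism over the residue field of `K`. -/
theorem Cy_frob (L : Lf K Ω) (h2 : L.nm 2 < 1) :
    ∃ (q : ℕ) (φ : IsLocalRing.ResidueField (Cy_O L) →+* IsLocalRing.ResidueField (Cy_O L)),
      (∀ z, φ z = z ^ q) ∧ ∀ z, φ z = z ↔ z ∈ Cy_k L := by
  classical
  have hfin := Cy_fin L
  have : Fintype (Cy_k L) := Fintype.ofFinite _
  have h20 : (2 : IsLocalRing.ResidueField (Cy_O L)) = 0 := by
    have h3 : IsLocalRing.residue (Cy_O L) 2 = 0 := (Cy_max L 2).2 h2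
    rwa [map_ofNat] at h3
  have hc : CharP (IsLocalRing.ResidueField (Cy_O L)) 2 :=
    CharTwo.of_one_ne_zero_of_two_eq_zero one_ne_zero h20
  have hc' : CharP (Cy_k L) 2 := by
    refine CharTwo.of_one_ne_zero_of_two_eq_zero one_ne_zero ?_
    exact Subtype.ext h20
  have hp : Fact (Nat.Prime 2) := ⟨Nat.prime_two⟩
  obtain ⟨n, -, hn⟩ := FiniteField.card (Cy_k L) 2
  refine ⟨2 ^ (n : ℕ), iterateFrobenius _ 2 n, fun z => iterateFrobenius_def _ _ _, ?_⟩
  intro z
  rw [iterateFrobenius_def, ← hn]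
  constructor
  · intro hz
    by_contra hz'
    have hne := FiniteField.X_pow_card_sub_X_ne_zero (IsLocalRing.ResidueField (Cy_O L))
      (Fintype.one_lt_card (α := Cy_k L))
    have hsub : insert z (Finset.univ.image fun c : Cy_k L => (c : IsLocalRing.ResidueField _)) ⊆
        (X ^ Fintype.card (Cy_k L) - X :
          Polynomial (IsLocalRing.ResidueField (Cy_O L))).roots.toFinset := by
      intro c hc
      rw [Multiset.mem_toFinset, mem_roots hne, IsRoot.def, eval_sub, eval_pow, eval_X, sub_eq_zero]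
      rcases Finset.mem_insert.1 hc with rfl | hc
      · exact hz
      · obtain ⟨c, -, rfl⟩ := Finset.mem_image.1 hc
        have h3 := FiniteField.pow_card c
        exact congrArg Subtype.val h3
    have h3 := Finset.card_le_card hsub
    rw [Finset.card_insert_of_notMem (by
      intro h4
      obtain ⟨c, -, rfl⟩ := Finset.mem_image.1 h4
      exact hz' c.2), Finset.card_image_of_injective _ Subtype.val_injective,
      Finset.card_univ] at h3
    have h4 := (Multiset.toFinset_card_le _).trans (card_roots' (X ^ Fintype.card (Cy_k L) - X :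
      Polynomial (IsLocalRing.ResidueField (Cy_O L))))
    rw [FiniteField.X_pow_card_sub_X_natDegree_eq _ Fintype.one_lt_card] at h4
    omega
  · intro hz
    exact congrArg Subtype.val (FiniteField.pow_card (⟨z, hz⟩ : Cy_k L))

/-- The three roots of `g`; they are different and `disc = ((e₁ - e₂) (e₁ - e₃) (e₂ - e₃))²`. (The field `K` has
to be given: `Ω` is an algebraic closure of `K`.) -/
theorem exists_roots {F : Type} [Field F] (K : Type) [Field K] [CharZero K] {Ω : Type} [Field Ω]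
    [Algebra K Ω] [Algebra F Ω] [IsAlgClosure K Ω] (C : Cf F) : ∃ e₁ e₂ e₃ : Ω,
    C.g.map (algebraMap F Ω) = (X - Polynomial.C e₁) * (X - Polynomial.C e₂) *
      (X - Polynomial.C e₃) ∧ e₁ ≠ e₂ ∧ e₁ ≠ e₃ ∧ e₂ ≠ e₃ ∧
      algebraMap F Ω C.disc = ((e₁ - e₂) * (e₁ - e₃) * (e₂ - e₃)) ^ 2 := by
  have hΩ : CharZero Ω := charZero_of_injective_algebraMap (algebraMap K Ω).injective
  have hac : IsAlgClosed Ω := IsAlgClosure.isAlgClosed K
  obtain ⟨e₁, e₂, e₃, h12, h13, h23, k2, k1, k0⟩ := HfH_roots (Ω := Ω) C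
  refine ⟨e₁, e₂, e₃, ?_, h12, h13, h23, ?_⟩
  · rw [Cy_g, k2, k1, k0]
    simp only [map_neg, map_add, map_mul]
    ring
  · simp only [Cf.disc, map_add, map_sub, map_mul, map_pow, map_ofNat, k2, k1, k0]
    ring

omit [CharZero K] [IsScalarTower F K Ω] [IsAlgClosure K Ω] in
theorem Cy_root {e e₁ e₂ e₃ : Ω} (hg : C.g.map (algebraMap F Ω) = (X - Polynomial.C e₁) *
    (X - Polynomial.C e₂) * (X - Polynomial.C e₃)) :
    aeval e C.g = (e - e₁) * (e - e₂) * (e - e₃) := by
  rw [aeval_def, eval₂_eq_eval_map, hg]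
  simp

/-- The roots are units or integral, their differences are units. -/
theorem root_int (h : L.H3 C) {e : Ω} (he : aeval e C.g = 0) : L.nm e ≤ 1 := by
  refine L.root_le (Cy_monic C) (Cy_coeff_le C h) ?_
  rwa [eval_map_algebraMap]

theorem Cy_nm {a b c : ℝ} (ha : 0 ≤ a) (ha1 : a ≤ 1) (hb : 0 ≤ b) (hb1 : b ≤ 1) (hc : 0 ≤ c)
    (hc1 : c ≤ 1) (h : a * b * c = 1) : a = 1 ∧ b = 1 ∧ c = 1 := by
  have h1 : a * b ≤ 1 := mul_le_one₀ ha1 hb hb1
  have h2 : 0 ≤ a * b := mul_nonneg ha hb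
  have h3 : c = 1 := by nlinarith
  rw [h3, mul_one] at h
  refine ⟨?_, ?_, h3⟩
  · nlinarith
  · nlinarith

theorem root_sub (h : L.H3 C) {e e' : Ω} (he : aeval e C.g = 0) (he' : aeval e' C.g = 0)
    (hne : e ≠ e') : L.nm (e - e') = 1 := by
  obtain ⟨e₁, e₂, e₃, hg, h12, h13, h23, hd⟩ := exists_roots K (Ω := Ω) C
  have h1 : aeval e₁ C.g = 0 := by
    rw [Cy_root C hg]
    ring
  have h2 : aeval e₂ C.g = 0 := by
    rw [Cy_root C hg]
    ring
  have h3 : aeval e₃ C.g = 0 := by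
    rw [Cy_root C hg]
    ring
  have hle : ∀ x y : Ω, aeval x C.g = 0 → aeval y C.g = 0 → L.nm (x - y) ≤ 1 := fun x y hx hy =>
    (L.sub x y).trans (max_le (root_int C L h hx) (root_int C L h hy))
  have hdn := h.hd
  rw [hd, L.pow] at hdn
  have hdn' : L.nm ((e₁ - e₂) * (e₁ - e₃) * (e₂ - e₃)) = 1 := by
    have h0 := L.nonneg ((e₁ - e₂) * (e₁ - e₃) * (e₂ - e₃))
    nlinarith
  rw [L.mul, L.mul] at hdn'
  obtain ⟨n1, n2, n3⟩ := Cy_nm (L.nonneg _) (hle _ _ h1 h2) (L.nonneg _) (hle _ _ h1 h3)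
    (L.nonneg _) (hle _ _ h2 h3) hdn'
  rw [Cy_root C hg, mul_eq_zero, mul_eq_zero, sub_eq_zero, sub_eq_zero, sub_eq_zero] at he he'
  rcases he with (rfl | rfl) | rfl <;> rcases he' with (rfl | rfl) | rfl
  · exact absurd rfl hne
  · exact n1
  · exact n2
  · rw [L.sub_comm]
    exact n1
  · exact absurd rfl hne
  · exact n3
  · rw [L.sub_comm]
    exact n2
  · rw [L.sub_comm]
    exact n3
  · exact absurd rfl hne

/-- A root is not congruent to an element of `K`. -/
theorem root_far (h : L.H3 C) {e : Ω} (he : aeval e C.g = 0) {x : Ω}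
    (hx : x ∈ (⊥ : IntermediateField K Ω)) : 1 ≤ L.nm (e - x) := by
  by_cases hx1 : L.nm x ≤ 1
  · obtain ⟨e₁, e₂, e₃, hg, -, -, -, -⟩ := exists_roots K (Ω := Ω) C
    have h1 : aeval e₁ C.g = 0 := by
      rw [Cy_root C hg]
      ring
    have h2 : aeval e₂ C.g = 0 := by
      rw [Cy_root C hg]
      ring
    have h3 : aeval e₃ C.g = 0 := by
      rw [Cy_root C hg]
      ring
    have hle : ∀ y : Ω, aeval y C.g = 0 → L.nm (x - y) ≤ 1 := fun y hy =>
      (L.sub x y).trans (max_le hx1 (root_int C L h hy))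
    have hr := h.root x hx hx1
    rw [Cy_root C hg, L.mul, L.mul] at hr
    obtain ⟨n1, n2, n3⟩ := Cy_nm (L.nonneg _) (hle _ h1) (L.nonneg _) (hle _ h2)
      (L.nonneg _) (hle _ h3) hr
    rw [Cy_root C hg, mul_eq_zero, mul_eq_zero, sub_eq_zero, sub_eq_zero, sub_eq_zero] at he
    rw [L.sub_comm]
    rcases he with (rfl | rfl) | rfl
    · exact n1.ge
    · exact n2.ge
    · exact n3.ge
  · have h1 := root_int C L h he
    have h2 : L.nm (e + -x) = L.nm (-x) := L.add_eq (by
      rw [L.neg]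
      exact h1.trans_lt (not_le.1 hx1))
    rw [sub_eq_add_neg, h2, L.neg]
    exact (not_le.1 hx1).le

/-- **All roots are in `K(e)`.** Proof: let `q` be the number of elements of the residue field of `K` (`Lf.fin`): `x^q` is congruent to `x` for the integers `x` of
`K`. So `g(e^q)` is congruent to `g(e)^q = 0`, `g'(e^q)` is a unit (`root_sub`), and by `Lf.hens` there is a root `e'` in `K(e)` which is congruent to `e^q`. `e' ≠ e`, since
`e^q - e` is the product of the `e - x` for the representatives `x` of the residue field of `K` up to a number of norm `< 1` (`root_far`). The third root is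
`- c₂ - e - e'`. -/
theorem root_mem (h : L.H3 C) {e e' : Ω} (he : aeval e C.g = 0) (he' : aeval e' C.g = 0) :
    e' ∈ Me (⊥ : IntermediateField K Ω) e := by
  have heM : e ∈ Me (⊥ : IntermediateField K Ω) e :=
    (le_sup_right : IntermediateField.adjoin K {e} ≤ _) (IntermediateField.mem_adjoin_simple_self K e)
  -- another root in `K(e)`
  obtain ⟨e'', he'', hne, hM⟩ : ∃ e'' : Ω, aeval e'' C.g = 0 ∧ e'' ≠ e ∧
      e'' ∈ Me (⊥ : IntermediateField K Ω) e := by
    obtain ⟨e₁, e₂, e₃, hg, h12, h13, h23, hd⟩ := exists_roots K (Ω := Ω) C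
    have h1 : aeval e₁ C.g = 0 := by
      rw [Cy_root C hg]
      ring
    have h2 : aeval e₂ C.g = 0 := by
      rw [Cy_root C hg]
      ring
    have h3 : aeval e₃ C.g = 0 := by
      rw [Cy_root C hg]
      ring
    obtain ⟨q, φ, hφ, hφ'⟩ := Cy_frob L h.two
    let ρ := IsLocalRing.residue (Cy_O L)
    let o : ∀ x : Ω, L.nm x ≤ 1 → Cy_O L := fun x hx => ⟨x, hx⟩
    have hk : ∀ (c : F) (hc : L.nm (algebraMap F Ω c) ≤ 1), φ (ρ (o _ hc)) = ρ (o _ hc) :=
      fun c hc => (hφ' _).2 ⟨o _ hc, Cy_F ⊥ c, rfl⟩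
    have he1 := root_int C L h he
    -- the polynomial over the residue field
    have hpol : ∀ (x : Ω) (hx : L.nm x ≤ 1), ρ (o x hx) ^ 3 + ρ (o _ h.hc₂) * ρ (o x hx) ^ 2 +
        ρ (o _ h.hc₁) * ρ (o x hx) + ρ (o _ h.hc₀) =
        (ρ (o x hx) - ρ (o _ (root_int C L h h1))) * (ρ (o x hx) - ρ (o _ (root_int C L h h2))) *
          (ρ (o x hx) - ρ (o _ (root_int C L h h3))) := by
      intro x hx
      have h4 := Cy_root C hg (e := x)
      rw [Cy_ev] at h4
      have h5 : (o x hx) ^ 3 + (o _ h.hc₂) * (o x hx) ^ 2 +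
          (o _ h.hc₁) * (o x hx) + (o _ h.hc₀) =
          ((o x hx) - (o _ (root_int C L h h1))) * ((o x hx) - (o _ (root_int C L h h2))) *
          ((o x hx) - (o _ (root_int C L h h3))) := Subtype.ext h4
      have h6 := congrArg ρ h5
      simpa only [map_add, map_mul, map_sub, map_pow] using h6
    have heq : L.nm (e ^ q) ≤ 1 := by
      rw [L.pow]
      exact pow_le_one₀ (L.nonneg e) he1
    have hoq : ρ (o _ heq) = φ (ρ (o e he1)) := by
      rw [hφ, ← map_pow]
      rfl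
    have hz : ρ (o e he1) ^ 3 + ρ (o _ h.hc₂) * ρ (o e he1) ^ 2 +
        ρ (o _ h.hc₁) * ρ (o e he1) + ρ (o _ h.hc₀) = 0 := by
      have h4 := he
      rw [Cy_ev] at h4
      have h5 : (o e he1) ^ 3 + (o _ h.hc₂) * (o e he1) ^ 2 +
          (o _ h.hc₁) * (o e he1) + (o _ h.hc₀) = 0 := Subtype.ext h4
      have h6 := congrArg ρ h5
      simpa only [map_add, map_mul, map_pow, map_zero] using h6
    have hz' := hpol _ heq
    rw [hoq] at hz'
    have hz2 := congrArg φ hz
    simp only [map_add, map_mul, map_pow, map_zero, hk] at hz2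
    rw [hz2] at hz'
    -- the root `e''` is congruent to `e ^ q`
    obtain ⟨e'', he'', hcong⟩ : ∃ e'' : Ω, aeval e'' C.g = 0 ∧ L.nm (e ^ q - e'') < 1 := by
      have hc : ∀ (y : Ω) (hy : L.nm y ≤ 1), φ (ρ (o e he1)) - ρ (o y hy) = 0 →
          L.nm (e ^ q - y) < 1 := by
        intro y hy h4
        rw [← hoq, ← map_sub] at h4
        exact (Cy_max L _).1 h4
      rcases mul_eq_zero.1 hz'.symm with h4 | h4
      · rcases mul_eq_zero.1 h4 with h4 | h4
        · exact ⟨e₁, h1, hc _ _ h4⟩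
        · exact ⟨e₂, h2, hc _ _ h4⟩
      · exact ⟨e₃, h3, hc _ _ h4⟩
    refine ⟨e'', he'', ?_, ?_⟩
    · rintro rfl
      have h4 : φ (ρ (o e'' he1)) = ρ (o e'' he1) := by
        rw [← hoq, ← sub_eq_zero, ← map_sub]
        exact (Cy_max L _).2 hcong
      obtain ⟨x, hx, hx'⟩ := (hφ' _).1 h4
      have h5 : L.nm ((x : Ω) - e'') < 1 := by
        rw [← sub_eq_zero, ← map_sub] at hx'
        exact (Cy_max L _).1 hx'
      have h6 := root_far C L h he hx
      rw [L.sub_comm] at h6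
      exact absurd h5 (not_lt_of_ge h6)
    · have hfd : FiniteDimensional K (Me (⊥ : IntermediateField K Ω) e) := by
        have halg : Algebra.IsAlgebraic K Ω := IsAlgClosure.isAlgebraic
        have : FiniteDimensional K (IntermediateField.adjoin K {e}) :=
          IntermediateField.adjoin.finiteDimensional (halg.isAlgebraic e).isIntegral
        exact IntermediateField.finiteDimensional_sup _ _
      have hev : ∀ x : Ω, (C.g.map (algebraMap F Ω)).eval x = (x - e₁) * (x - e₂) * (x - e₃) := by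
        intro x
        rw [← Cy_root C hg, eval_map_algebraMap]
      have hder : ∀ x : Ω, (C.g.map (algebraMap F Ω)).derivative.eval x =
          (x - e₂) * (x - e₃) + (x - e₁) * (x - e₃) + (x - e₁) * (x - e₂) := by
        intro x
        rw [hg]
        simp only [derivative_mul, derivative_sub, derivative_X, derivative_C, sub_zero, eval_add,
          eval_mul, eval_sub, eval_X, eval_C, eval_one, one_mul, mul_one]
        ring
      have hcl := L.eval_close (Cy_coeff_le C h) heq (root_int C L h he'')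
      have h0 : (C.g.map (algebraMap F Ω)).eval e'' = 0 := by
        rw [hev, ← Cy_root C hg, he'']
      rw [h0, sub_zero] at hcl
      have hfar : ∀ y : Ω, aeval y C.g = 0 → y ≠ e'' → L.nm (e ^ q - y) = 1 := by
        intro y hy hne
        have h4 := root_sub C L h he'' hy (Ne.symm hne)
        have h5 : e ^ q - y = (e ^ q - e'') + (e'' - y) := by ring
        rw [h5, L.add_eq (by rw [h4]; exact hcong), h4]
      have hd1 : L.nm ((C.g.map (algebraMap F Ω)).derivative.eval (e ^ q)) = 1 := by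
        rw [hder]
        have hlt : ∀ y : Ω, L.nm y ≤ 1 → L.nm (e ^ q - y) ≤ 1 := fun y hy =>
          (L.sub _ _).trans (max_le heq hy)
        have hsm : ∀ y : Ω, L.nm y ≤ 1 → L.nm ((e ^ q - e'') * (e ^ q - y)) < 1 := by
          intro y hy
          rw [L.mul]
          have := hlt y hy
          nlinarith [L.nonneg (e ^ q - y), L.nonneg (e ^ q - e'')]
        have h4 := he''
        rw [Cy_root C hg, mul_eq_zero, mul_eq_zero, sub_eq_zero, sub_eq_zero, sub_eq_zero] at h4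
        rcases h4 with (rfl | rfl) | rfl
        · have n1 : L.nm ((e ^ q - e₂) * (e ^ q - e₃)) = 1 := by
            rw [L.mul, hfar e₂ h2 (Ne.symm h12), hfar e₃ h3 (Ne.symm h13), one_mul]
          have n2 := hsm e₃ (root_int C L h h3)
          have n3 := hsm e₂ (root_int C L h h2)
          rw [add_assoc, L.add_eq' (by
            rw [n1]
            exact (L.add _ _).trans_lt (max_lt n2 n3)), n1]
        · have n1 : L.nm ((e ^ q - e₁) * (e ^ q - e₃)) = 1 := by
            rw [L.mul, hfar e₁ h1 h12, hfar e₃ h3 (Ne.symm h23), one_mul]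
          have n2 := hsm e₃ (root_int C L h h3)
          have n3 := hsm e₁ (root_int C L h h1)
          have h5 : (e ^ q - e'') * (e ^ q - e₃) + (e ^ q - e₁) * (e ^ q - e₃) +
              (e ^ q - e₁) * (e ^ q - e'') = (e ^ q - e₁) * (e ^ q - e₃) +
              ((e ^ q - e'') * (e ^ q - e₃) + (e ^ q - e'') * (e ^ q - e₁)) := by ring
          rw [h5, L.add_eq' (by
            rw [n1]
            exact (L.add _ _).trans_lt (max_lt n2 n3)), n1]
        · have n1 : L.nm ((e ^ q - e₁) * (e ^ q - e₂)) = 1 := by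
            rw [L.mul, hfar e₁ h1 h13, hfar e₂ h2 h23, one_mul]
          have n2 := hsm e₂ (root_int C L h h2)
          have n3 := hsm e₁ (root_int C L h h1)
          have h5 : (e ^ q - e₂) * (e ^ q - e'') + (e ^ q - e₁) * (e ^ q - e'') +
              (e ^ q - e₁) * (e ^ q - e₂) = (e ^ q - e₁) * (e ^ q - e₂) +
              ((e ^ q - e'') * (e ^ q - e₂) + (e ^ q - e'') * (e ^ q - e₁)) := by ring
          rw [h5, L.add_eq' (by
            rw [n1]
            exact (L.add _ _).trans_lt (max_lt n2 n3)), n1]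
      obtain ⟨y, hyM, hy0, hy1⟩ := L.hens (Me (⊥ : IntermediateField K Ω) e) hfd
        (C.g.map (algebraMap F Ω)) (Cy_monic C) (fun i => ⟨Cy_coeff_mem C _ i, Cy_coeff_le C h i⟩)
        (e ^ q) (pow_mem heM q) heq (hcl.trans_lt hcong) hd1
      have hye : y = e'' := by
        by_contra hne
        have h4 := root_sub C L h (by rwa [hev, ← Cy_root C hg] at hy0) he'' hne
        have h5 : y - e'' = (y - e ^ q) + (e ^ q - e'') := by ring
        rw [h5] at h4
        have h6 := (L.add (y - e ^ q) (e ^ q - e'')).trans_lt (max_lt hy1 hcong)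
        rw [h4] at h6
        exact lt_irrefl _ h6
      rwa [← hye]
  by_cases h1 : e' = e
  · rw [h1]
    exact heM
  by_cases h2 : e' = e''
  · rw [h2]
    exact hM
  rw [Cy_sum C he he'' he' (Ne.symm hne) (Ne.symm h1) (Ne.symm h2)]
  exact sub_mem (sub_mem (neg_mem (Cy_F _ _)) heM) hM

/-- If one root is in `M` all are. -/
theorem root_all (h : L.H3 C) {M : IntermediateField K Ω} {e e' : Ω} (he : aeval e C.g = 0)
    (he' : aeval e' C.g = 0) (hM : e ∈ M) : e' ∈ M := by
  have h1 : Me (⊥ : IntermediateField K Ω) e ≤ M :=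
    sup_le bot_le (IntermediateField.adjoin_simple_le_iff.2 hM)
  exact h1 (root_mem C L h he he')

omit [CharZero K] in
theorem Cy_cyc (h : L.H3 C) {e₁ e₂ e₃ : Ω} (hg : C.g.map (algebraMap F Ω) =
    (X - Polynomial.C e₁) * (X - Polynomial.C e₂) * (X - Polynomial.C e₃)) (h12 : e₁ ≠ e₂)
    (h13 : e₁ ≠ e₃) (h23 : e₂ ≠ e₃) (hr : ∀ e e' : Ω, aeval e C.g = 0 → aeval e' C.g = 0 →
      e' ∈ Me (⊥ : IntermediateField K Ω) e) {σ : Ω ≃ₐ[K] Ω} (hσ : σ e₁ = e₂) :
    σ e₂ = e₃ ∧ σ e₃ = e₁ := by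
  have h1 : aeval e₁ C.g = 0 := by
    rw [Cy_root C hg]
    ring
  have h2 : aeval e₂ C.g = 0 := by
    rw [Cy_root C hg]
    ring
  have h3 : aeval e₃ C.g = 0 := by
    rw [Cy_root C hg]
    ring
  have hs2 := Cy_gal C σ h2
  have hs3 := Cy_gal C σ h3
  rw [Cy_root C hg, mul_eq_zero, mul_eq_zero, sub_eq_zero, sub_eq_zero, sub_eq_zero] at hs2 hs3
  have hinj := σ.injective
  -- `σ e₃ ≠ e₃`
  have hfix : σ e₃ ≠ e₃ := by
    intro h4
    have h5 : IntermediateField.adjoin K {e₃} ≤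
        IntermediateField.fixedField (Subgroup.zpowers σ) := by
      rw [IntermediateField.adjoin_simple_le_iff, IntermediateField.mem_fixedField_iff]
      intro γ hγ
      have h6 : Subgroup.zpowers σ ≤ MulAction.stabilizer (Ω ≃ₐ[K] Ω) e₃ := by
        rw [Subgroup.zpowers_le]
        exact h4
      exact h6 hγ
    have h6 := sup_le bot_le h5 (hr e₃ e₁ h3 h1)
    rw [IntermediateField.mem_fixedField_iff] at h6
    have h7 := h6 σ (Subgroup.mem_zpowers σ)
    rw [hσ] at h7
    exact h12 h7.symm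
  have hs3' : σ e₃ = e₁ := by
    rcases hs3 with (h4 | h4) | h4
    · exact h4
    · exact absurd (hinj (h4.trans hσ.symm)) (Ne.symm h13)
    · exact absurd h4 hfix
  refine ⟨?_, hs3'⟩
  rcases hs2 with (h4 | h4) | h4
  · exact absurd (hinj (h4.trans hs3'.symm)) h23
  · exact absurd (hinj (h4.trans hσ.symm)) (Ne.symm h12)
  · exact h4

/-- Proof: `g` is irreducible over `M`, so there is `σ ∈ Gal(Ω/M)` with `σ e₁ = e₂`. If `σ e₂ = e₁` then `σ e₃ = e₃`, and `e₁ ∈ K(e₃)` is fixed: contradiction. -/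
theorem exists_cyc (h : L.H3 C) {M : IntermediateField K Ω} (hM : ∀ e ∈ M, aeval e C.g ≠ 0) :
    ∃ (e₁ e₂ e₃ : Ω) (σ : Ω ≃ₐ[K] Ω), σ ∈ M.fixingSubgroup ∧
    C.g.map (algebraMap F Ω) = (X - Polynomial.C e₁) * (X - Polynomial.C e₂) *
      (X - Polynomial.C e₃) ∧ e₁ ≠ e₂ ∧ e₁ ≠ e₃ ∧ e₂ ≠ e₃ ∧ σ e₁ = e₂ ∧ σ e₂ = e₃ ∧ σ e₃ = e₁ := by
  obtain ⟨e₁, e₂, e₃, hg, h12, h13, h23, -⟩ := exists_roots K (Ω := Ω) C
  have h1 : aeval e₁ C.g = 0 := by
    rw [Cy_root C hg]
    ring
  obtain ⟨σ, hσM, hσ⟩ : ∃ σ : Ω ≃ₐ[K] Ω, σ ∈ M.fixingSubgroup ∧ σ e₁ ≠ e₁ := by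
    by_contra hcon
    push Not at hcon
    exact hM e₁ (mem_of_fix M hcon) h1
  have hs := Cy_gal C σ h1
  rw [Cy_root C hg, mul_eq_zero, mul_eq_zero, sub_eq_zero, sub_eq_zero, sub_eq_zero] at hs
  have hr : ∀ e e' : Ω, aeval e C.g = 0 → aeval e' C.g = 0 →
      e' ∈ Me (⊥ : IntermediateField K Ω) e := fun e e' he he' => root_mem C L h he he'
  rcases hs with (hs | hs) | hs
  · exact absurd hs hσ
  · obtain ⟨k1, k2⟩ := Cy_cyc C L h hg h12 h13 h23 hr hs
    exact ⟨e₁, e₂, e₃, σ, hσM, hg, h12, h13, h23, hs, k1, k2⟩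
  · have hg' : C.g.map (algebraMap F Ω) = (X - Polynomial.C e₁) * (X - Polynomial.C e₃) *
        (X - Polynomial.C e₂) := by
      rw [hg]
      ring
    obtain ⟨k1, k2⟩ := Cy_cyc C L h hg' h13 h12 (Ne.symm h23) hr hs
    exact ⟨e₁, e₃, e₂, σ, hσM, hg', h13, h12, Ne.symm h23, hs, k1, k2⟩

/-- The degree of `M(e)` over `M` is three. -/
theorem finrank_Me₃ (h : L.H3 C) {M : IntermediateField K Ω} [FiniteDimensional K M]
    (hM : ∀ e ∈ M, aeval e C.g ≠ 0) {e : Ω} (he : aeval e C.g = 0) :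
    Module.finrank K (Me M e) = 3 * Module.finrank K M := by
  have halg : Algebra.IsAlgebraic K Ω := IsAlgClosure.isAlgebraic
  have hfd0 : FiniteDimensional K (IntermediateField.adjoin K {e}) :=
    IntermediateField.adjoin.finiteDimensional (halg.isAlgebraic e).isIntegral
  have hfd : FiniteDimensional K (Me M e) := IntermediateField.finiteDimensional_sup _ _
  have hrel := relIndex_fix (M := M) (N := Me M e) le_sup_left
  obtain ⟨e₁, e₂, e₃, σ, hσM, hg, h12, h13, h23, k1, k2, k3⟩ := exists_cyc C L h hM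
  have hst : (Me M e).fixingSubgroup.subgroupOf M.fixingSubgroup =
      MulAction.stabilizer M.fixingSubgroup e := by
    ext γ
    rw [Subgroup.mem_subgroupOf, MulAction.mem_stabilizer_iff]
    constructor
    · intro h1
      exact (IntermediateField.mem_fixingSubgroup_iff _ _).1 h1 e
        ((le_sup_right : IntermediateField.adjoin K {e} ≤ _)
          (IntermediateField.mem_adjoin_simple_self K e))
    · intro h1
      rw [Me, IntermediateField.fixingSubgroup_sup]
      refine ⟨γ.2, ?_⟩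
      have h5 : IntermediateField.adjoin K {e} ≤
          IntermediateField.fixedField (Subgroup.zpowers (γ : Ω ≃ₐ[K] Ω)) := by
        rw [IntermediateField.adjoin_simple_le_iff, IntermediateField.mem_fixedField_iff]
        intro δ hδ
        have h6 : Subgroup.zpowers (γ : Ω ≃ₐ[K] Ω) ≤ MulAction.stabilizer (Ω ≃ₐ[K] Ω) e := by
          rw [Subgroup.zpowers_le]
          exact h1
        exact h6 hδ
      change (γ : Ω ≃ₐ[K] Ω) ∈ (IntermediateField.adjoin K {e}).fixingSubgroup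
      rw [IntermediateField.mem_fixingSubgroup_iff]
      intro x hx
      have h6 := h5 hx
      rw [IntermediateField.mem_fixedField_iff] at h6
      exact h6 _ (Subgroup.mem_zpowers _)
  have horb : MulAction.orbit M.fixingSubgroup e = {e₁, e₂, e₃} := by
    ext x
    constructor
    · rintro ⟨γ, rfl⟩
      have h4 := Cy_gal C (γ : Ω ≃ₐ[K] Ω) he
      rw [Cy_root C hg, mul_eq_zero, mul_eq_zero, sub_eq_zero, sub_eq_zero, sub_eq_zero] at h4
      change (γ : Ω ≃ₐ[K] Ω) e ∈ ({e₁, e₂, e₃} : Set Ω)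
      rcases h4 with (h4 | h4) | h4
      · rw [h4]
        simp
      · rw [h4]
        simp
      · rw [h4]
        simp
    · intro hx
      let s : M.fixingSubgroup := ⟨σ, hσM⟩
      have s1 : s • e₁ = e₂ := k1
      have s2 : s • e₂ = e₃ := k2
      have s3 : s • e₃ = e₁ := k3
      have he' := he
      rw [Cy_root C hg, mul_eq_zero, mul_eq_zero, sub_eq_zero, sub_eq_zero, sub_eq_zero] at he'
      have hx' : x = e₁ ∨ x = e₂ ∨ x = e₃ := hx
      rcases he' with (rfl | rfl) | rfl <;> rcases hx' with rfl | rfl | rfl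
      · exact ⟨1, one_smul _ _⟩
      · exact ⟨s, s1⟩
      · exact ⟨s * s, by
          change (s * s) • _ = _
          rw [mul_smul, s1, s2]⟩
      · exact ⟨s * s, by
          change (s * s) • _ = _
          rw [mul_smul, s2, s3]⟩
      · exact ⟨1, one_smul _ _⟩
      · exact ⟨s, s2⟩
      · exact ⟨s, s3⟩
      · exact ⟨s * s, by
          change (s * s) • _ = _
          rw [mul_smul, s3, s1]⟩
      · exact ⟨1, one_smul _ _⟩
  have hidx : (Me M e).fixingSubgroup.relIndex M.fixingSubgroup = 3 := by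
    rw [Subgroup.relIndex, hst, MulAction.index_stabilizer, horb]
    exact Set.ncard_eq_three.2 ⟨e₁, e₂, e₃, h12, h13, h23, rfl⟩
  rw [← hrel, hidx]

theorem no_root₃ (h : L.H3 C) : ∀ e ∈ (⊥ : IntermediateField K Ω), aeval e C.g ≠ 0 := by
  intro e he h0
  have h1 := h.root e he (root_int C L h h0)
  rw [h0, (L.zero_iff 0).2 rfl] at h1
  exact zero_ne_one h1

end BE
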