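import Pool.Agent.Lib.MP_f80667_ag.Be.SyA

/-! Norms from extensions with a square root and symbols. -/

open ZC Polynomial IntermediateField

namespace BE

variable {K Ω : Type} [Field K] [CharZero K] [Field Ω] [Algebra K Ω] [IsAlgClosure K Ω]

section aux

omit [CharZero K] [IsAlgClosure K Ω] in
/-- The representatives may be changed. -/
private theorem nq_rep {M N : IntermediateField K Ω} {x : Ω} (hx : x ∈ N)
    {g g' : M.fixingSubgroup}
    (h : (QuotientGroup.mk g : M.fixingSubgroup ⧸ (N.fixingSubgroup).subgroupOf M.fixingSubgroup) =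
      QuotientGroup.mk g') : (g : Ω ≃ₐ[K] Ω) x = (g' : Ω ≃ₐ[K] Ω) x := by
  rw [QuotientGroup.eq] at h
  have h1 : ((g⁻¹ * g' : M.fixingSubgroup) : Ω ≃ₐ[K] Ω) ∈ N.fixingSubgroup := h
  have h2 := (IntermediateField.mem_fixingSubgroup_iff N _).1 h1 x hx
  have h3 : ((g⁻¹ * g' : M.fixingSubgroup) : Ω ≃ₐ[K] Ω) x =
      (g : Ω ≃ₐ[K] Ω)⁻¹ ((g' : Ω ≃ₐ[K] Ω) x) := rfl
  rw [h3] at h2
  have h4 := congrArg (g : Ω ≃ₐ[K] Ω) h2
  have h5 : (g : Ω ≃ₐ[K] Ω) ((g : Ω ≃ₐ[K] Ω)⁻¹ ((g' : Ω ≃ₐ[K] Ω) x)) = (g' : Ω ≃ₐ[K] Ω) x :=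
    AlgEquiv.apply_symm_apply _ _
  rw [h5] at h4
  exact h4.symm

omit [CharZero K] [IsAlgClosure K Ω] in
private theorem nq_rep' {M N : IntermediateField K Ω} {x : Ω} (hx : x ∈ N)
    (g : M.fixingSubgroup) :
    (((QuotientGroup.mk g : M.fixingSubgroup ⧸ (N.fixingSubgroup).subgroupOf M.fixingSubgroup)).out :
      Ω ≃ₐ[K] Ω) x = (g : Ω ≃ₐ[K] Ω) x := by
  refine nq_rep hx ?_
  rw [QuotientGroup.out_eq']

private theorem nq_fin (M N : IntermediateField K Ω) [FiniteDimensional K N] :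
    Finite (M.fixingSubgroup ⧸ (N.fixingSubgroup).subgroupOf M.fixingSubgroup) := by
  have h1 : N.fixingSubgroup.FiniteIndex := opn_fin _ (opn_fix N)
  infer_instance

omit [CharZero K] [IsAlgClosure K Ω] in
private theorem nq_le (M : IntermediateField K Ω) (e : Ω) : M ≤ Me M e := le_sup_left

omit [CharZero K] [IsAlgClosure K Ω] in
private theorem nq_mem (M : IntermediateField K Ω) (e : Ω) : e ∈ Me M e :=
  (le_sup_right : _ ≤ Me M e) (IntermediateField.mem_adjoin_simple_self K e)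

omit [CharZero K] in
private theorem nq_fd (M : IntermediateField K Ω) [FiniteDimensional K M] (e : Ω) :
    FiniteDimensional K (Me M e) := by
  have halg : Algebra.IsAlgebraic K Ω := IsAlgClosure.isAlgebraic
  have h1 : FiniteDimensional K (IntermediateField.adjoin K {e}) :=
    IntermediateField.adjoin.finiteDimensional (halg.isAlgebraic e).isIntegral
  unfold Me
  infer_instance

/-- Conjugation. -/
private theorem nq_conj {M : IntermediateField K Ω} {s : Ω} (hs : s ^ 2 ∈ M)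
    (hn : ¬ SqM M (s ^ 2)) : ∃ σ ∈ M.fixingSubgroup, σ s = -s := by
  have h1 : s ∉ M := fun h => hn ⟨s, h, rfl⟩
  by_contra hc
  push Not at hc
  refine h1 (mem_of_fix M fun γ hγ => ?_)
  have h2 : γ (s ^ 2) = s ^ 2 := (IntermediateField.mem_fixingSubgroup_iff M γ).1 hγ _ hs
  rw [map_pow] at h2
  rcases sq_eq_sq_iff_eq_or_eq_neg.1 h2 with h3 | h3
  · exact h3
  · exact absurd h3 (hc γ hγ)

omit [CharZero K] [IsAlgClosure K Ω] in
private theorem nq_two {M : IntermediateField K Ω} : (2 : Ω) ∈ M := by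
  have := M.natCast_mem 2
  rwa [Nat.cast_ofNat] at this

end aux

/-- `Nf M M = id`. -/
theorem Nf_self (M : IntermediateField K Ω) [FiniteDimensional K M] {x : Ω} (hx : x ∈ M) :
    Nf M M x = x := by
  have h1 := Nf_base (le_refl M) hx
  rw [h1, Nat.div_self Module.finrank_pos, pow_one]

theorem Nf_trans {M N P : IntermediateField K Ω} (h : M ≤ N) (h' : N ≤ P) [FiniteDimensional K P]
    {x : Ω} (hx : x ∈ P) : Nf M P x = Nf M N (Nf N P x) := by
  have hN : FiniteDimensional K N :=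
    FiniteDimensional.of_injective (IntermediateField.inclusion h').toLinearMap
      (IntermediateField.inclusion_injective h')
  have hMP := nq_fin M P
  have hMN := nq_fin M N
  have hNP := nq_fin N P
  cases nonempty_fintype (M.fixingSubgroup ⧸ (P.fixingSubgroup).subgroupOf M.fixingSubgroup)
  cases nonempty_fintype (M.fixingSubgroup ⧸ (N.fixingSubgroup).subgroupOf M.fixingSubgroup)
  cases nonempty_fintype (N.fixingSubgroup ⧸ (P.fixingSubgroup).subgroupOf N.fixingSubgroup)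
  rw [Nf, Nf, finprod_eq_prod_of_fintype, finprod_eq_prod_of_fintype]
  have h1 : ∀ a : M.fixingSubgroup ⧸ (N.fixingSubgroup).subgroupOf M.fixingSubgroup,
      (a.out : Ω ≃ₐ[K] Ω) (Nf N P x) =
      ∏ b : N.fixingSubgroup ⧸ (P.fixingSubgroup).subgroupOf N.fixingSubgroup,
        (a.out : Ω ≃ₐ[K] Ω) ((b.out : Ω ≃ₐ[K] Ω) x) := by
    intro a
    rw [Nf, finprod_eq_prod_of_fintype, map_prod]
  rw [Finset.prod_congr rfl fun a _ => h1 a, ← Fintype.prod_prod_type' (fun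
    (a : M.fixingSubgroup ⧸ (N.fixingSubgroup).subgroupOf M.fixingSubgroup)
    (b : N.fixingSubgroup ⧸ (P.fixingSubgroup).subgroupOf N.fixingSubgroup) =>
    (a.out : Ω ≃ₐ[K] Ω) ((b.out : Ω ≃ₐ[K] Ω) x))]
  symm
  have hle := fix_le h
  have hle' := fix_le h'
  have hg : ∀ b : N.fixingSubgroup, (b : Ω ≃ₐ[K] Ω) ∈ M.fixingSubgroup := fun b => hle b.2
  refine Fintype.prod_bijective (fun p => QuotientGroup.mk (p.1.out * ⟨_, hg p.2.out⟩)) ?_ _ _ ?_
  · constructor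
    · rintro ⟨a, b⟩ ⟨a', b'⟩ hab
      have h2 : (QuotientGroup.mk (a.out * (⟨_, hg b.out⟩ : M.fixingSubgroup)) :
          M.fixingSubgroup ⧸ (P.fixingSubgroup).subgroupOf M.fixingSubgroup) =
          QuotientGroup.mk (a'.out * (⟨_, hg b'.out⟩ : M.fixingSubgroup)) := hab
      rw [QuotientGroup.eq, Subgroup.mem_subgroupOf] at h2
      have h3 : (b.out : Ω ≃ₐ[K] Ω)⁻¹ * ((a.out : Ω ≃ₐ[K] Ω)⁻¹ * (a'.out : Ω ≃ₐ[K] Ω)) *
          (b'.out : Ω ≃ₐ[K] Ω) ∈ P.fixingSubgroup := by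
        convert h2 using 1
        push_cast
        group
      have h4 : (a.out : Ω ≃ₐ[K] Ω)⁻¹ * (a'.out : Ω ≃ₐ[K] Ω) ∈ N.fixingSubgroup := by
        have h5 := hle' h3
        rwa [Subgroup.mul_mem_cancel_right _ b'.out.2,
          Subgroup.mul_mem_cancel_left _ (inv_mem b.out.2)] at h5
      have h6 : a = a' := by
        rw [← QuotientGroup.out_eq' a, ← QuotientGroup.out_eq' a', QuotientGroup.eq,
          Subgroup.mem_subgroupOf]
        exact h4
      subst h6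
      have h7 : b = b' := by
        rw [← QuotientGroup.out_eq' b, ← QuotientGroup.out_eq' b', QuotientGroup.eq,
          Subgroup.mem_subgroupOf]
        rw [inv_mul_cancel, mul_one] at h3
        exact h3
      rw [h7]
    · intro q
      have h2 := QuotientGroup.out_eq' q
      obtain ⟨a, ha⟩ : ∃ a : M.fixingSubgroup ⧸ (N.fixingSubgroup).subgroupOf M.fixingSubgroup,
          a = QuotientGroup.mk q.out := ⟨_, rfl⟩
      have h3 : (a.out : Ω ≃ₐ[K] Ω)⁻¹ * (q.out : Ω ≃ₐ[K] Ω) ∈ N.fixingSubgroup := by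
        have h4 : (QuotientGroup.mk a.out :
            M.fixingSubgroup ⧸ (N.fixingSubgroup).subgroupOf M.fixingSubgroup) =
            QuotientGroup.mk q.out := by rw [QuotientGroup.out_eq', ha]
        rw [QuotientGroup.eq, Subgroup.mem_subgroupOf] at h4
        exact h4
      obtain ⟨b, hb⟩ : ∃ b : N.fixingSubgroup ⧸ (P.fixingSubgroup).subgroupOf N.fixingSubgroup,
          b = QuotientGroup.mk ⟨_, h3⟩ := ⟨_, rfl⟩
      have h5 : (b.out : Ω ≃ₐ[K] Ω)⁻¹ * ((a.out : Ω ≃ₐ[K] Ω)⁻¹ * (q.out : Ω ≃ₐ[K] Ω)) ∈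
          P.fixingSubgroup := by
        have h4 : (QuotientGroup.mk b.out :
            N.fixingSubgroup ⧸ (P.fixingSubgroup).subgroupOf N.fixingSubgroup) =
            QuotientGroup.mk ⟨_, h3⟩ := by rw [QuotientGroup.out_eq', hb]
        rw [QuotientGroup.eq, Subgroup.mem_subgroupOf] at h4
        exact h4
      refine ⟨(a, b), ?_⟩
      rw [← h2]
      change (QuotientGroup.mk (a.out * (⟨_, hg b.out⟩ : M.fixingSubgroup)) :
          M.fixingSubgroup ⧸ (P.fixingSubgroup).subgroupOf M.fixingSubgroup) =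
          QuotientGroup.mk q.out
      rw [QuotientGroup.eq, Subgroup.mem_subgroupOf]
      convert h5 using 1
      push_cast
      group
  · rintro ⟨a, b⟩
    exact (nq_rep' hx (a.out * (⟨_, hg b.out⟩ : M.fixingSubgroup))).symm

omit [CharZero K] [IsAlgClosure K Ω] in
/-- The elements of `M(s)`. -/
theorem mem_quad {M : IntermediateField K Ω} {s : Ω} (hs : s ^ 2 ∈ M) {x : Ω} :
    x ∈ Me M s ↔ ∃ p ∈ M, ∃ q ∈ M, x = p + q * s := by
  constructor
  · intro hx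
    let Q : IntermediateField K Ω :=
      { carrier := {x | ∃ p ∈ M, ∃ q ∈ M, x = p + q * s}
        mul_mem' := by
          rintro _ _ ⟨p, hp, q, hq, rfl⟩ ⟨p', hp', q', hq', rfl⟩
          exact ⟨p * p' + s ^ 2 * (q * q'), M.add_mem (M.mul_mem hp hp')
            (M.mul_mem hs (M.mul_mem hq hq')), p * q' + q * p',
            M.add_mem (M.mul_mem hp hq') (M.mul_mem hq hp'), by ring⟩
        add_mem' := by
          rintro _ _ ⟨p, hp, q, hq, rfl⟩ ⟨p', hp', q', hq', rfl⟩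
          exact ⟨p + p', M.add_mem hp hp', q + q', M.add_mem hq hq', by ring⟩
        algebraMap_mem' := fun r => ⟨_, M.algebraMap_mem r, 0, M.zero_mem, by ring⟩
        inv_mem' := by
          rintro _ ⟨p, hp, q, hq, rfl⟩
          by_cases h0 : p ^ 2 - s ^ 2 * q ^ 2 = 0
          · by_cases hq0 : q = 0
            · subst hq0
              exact ⟨p⁻¹, M.inv_mem hp, 0, M.zero_mem, by ring⟩
            · have h1 : s ^ 2 = (p / q) ^ 2 := by
                field_simp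
                linear_combination -h0
              have h2 : s ∈ M := by
                rcases sq_eq_sq_iff_eq_or_eq_neg.1 h1 with h3 | h3
                · rw [h3]
                  exact M.div_mem hp hq
                · rw [h3]
                  exact M.neg_mem (M.div_mem hp hq)
              exact ⟨(p + q * s)⁻¹, M.inv_mem (M.add_mem hp (M.mul_mem hq h2)), 0, M.zero_mem,
                by ring⟩
          · have h1 : p + q * s ≠ 0 := by
              intro h2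
              apply h0
              linear_combination (p - q * s) * h2
            refine ⟨p / (p ^ 2 - s ^ 2 * q ^ 2), M.div_mem hp (M.sub_mem (pow_mem hp 2)
              (M.mul_mem hs (pow_mem hq 2))), (-q) / (p ^ 2 - s ^ 2 * q ^ 2),
              M.div_mem (M.neg_mem hq) (M.sub_mem (pow_mem hp 2)
              (M.mul_mem hs (pow_mem hq 2))), ?_⟩
            refine (eq_inv_of_mul_eq_one_left ?_).symm
            have h2 : (p / (p ^ 2 - s ^ 2 * q ^ 2) + -q / (p ^ 2 - s ^ 2 * q ^ 2) * s) *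
                (p + q * s) = (p ^ 2 - s ^ 2 * q ^ 2) / (p ^ 2 - s ^ 2 * q ^ 2) := by
              ring
            rw [h2, div_self h0] }
    have h1 : Me M s ≤ Q := by
      refine sup_le (fun y hy => ⟨y, hy, 0, M.zero_mem, by ring⟩) ?_
      rw [IntermediateField.adjoin_simple_le_iff]
      exact ⟨0, M.zero_mem, 1, M.one_mem, by ring⟩
    exact h1 hx
  · rintro ⟨p, hp, q, hq, rfl⟩
    exact add_mem (nq_le M s hp) (mul_mem (nq_le M s hq) (nq_mem M s))

/-- The norm from `M(s)` to `M`, `s² = d ∈ M`, `d` not a square in `M`. -/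
theorem Nf_quad {M : IntermediateField K Ω} [FiniteDimensional K M] {s : Ω} (hs : s ^ 2 ∈ M)
    (hn : ¬ SqM M (s ^ 2)) {p q : Ω} (hp : p ∈ M) (hq : q ∈ M) :
    Nf M (Me M s) (p + q * s) = p ^ 2 - s ^ 2 * q ^ 2 := by
  classical
  have hfd := nq_fd M s
  have hfin := nq_fin M (Me M s)
  cases nonempty_fintype
    (M.fixingSubgroup ⧸ ((Me M s).fixingSubgroup).subgroupOf M.fixingSubgroup)
  obtain ⟨σ, hσ, hσs⟩ := nq_conj hs hn
  have hs0 : s ≠ -s := by
    intro h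
    have h1 : s = 0 := by
      have h2 : (2 : Ω) * s = 0 := by linear_combination h
      have hc : CharZero Ω := charZero_of_injective_algebraMap (algebraMap K Ω).injective
      exact (mul_eq_zero.1 h2).resolve_left two_ne_zero
    apply hn
    rw [h1]
    exact ⟨0, M.zero_mem, rfl⟩
  obtain ⟨a, ha⟩ : ∃ a : M.fixingSubgroup ⧸
    ((Me M s).fixingSubgroup).subgroupOf M.fixingSubgroup, a = QuotientGroup.mk 1 := ⟨_, rfl⟩
  obtain ⟨b, hb⟩ : ∃ b : M.fixingSubgroup ⧸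
    ((Me M s).fixingSubgroup).subgroupOf M.fixingSubgroup, b = QuotientGroup.mk ⟨σ, hσ⟩ := ⟨_, rfl⟩
  have hx : p + q * s ∈ Me M s := (mem_quad hs).2 ⟨p, hp, q, hq, rfl⟩
  have has : (a.out : Ω ≃ₐ[K] Ω) s = s := by
    rw [ha, nq_rep' (nq_mem M s)]
    rfl
  have hbs : (b.out : Ω ≃ₐ[K] Ω) s = -s := by
    rw [hb, nq_rep' (nq_mem M s)]
    exact hσs
  have hab : a ≠ b := by
    intro h
    rw [h, hbs] at has
    exact hs0 has.symm
  have hclass : ∀ c d : M.fixingSubgroup ⧸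
      ((Me M s).fixingSubgroup).subgroupOf M.fixingSubgroup,
      (c.out : Ω ≃ₐ[K] Ω) s = (d.out : Ω ≃ₐ[K] Ω) s → c = d := by
    intro c d hcd
    rw [← QuotientGroup.out_eq' c, ← QuotientGroup.out_eq' d, QuotientGroup.eq,
      Subgroup.mem_subgroupOf, IntermediateField.mem_fixingSubgroup_iff]
    intro y hy
    obtain ⟨p', hp', q', hq', rfl⟩ := (mem_quad hs).1 hy
    have h1 : ∀ z ∈ M, ((c.out⁻¹ * d.out : M.fixingSubgroup) : Ω ≃ₐ[K] Ω) z = z := fun z hz =>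
      (IntermediateField.mem_fixingSubgroup_iff M _).1 (c.out⁻¹ * d.out : M.fixingSubgroup).2 z hz
    have h2 : ((c.out⁻¹ * d.out : M.fixingSubgroup) : Ω ≃ₐ[K] Ω) s = s := by
      change (c.out : Ω ≃ₐ[K] Ω)⁻¹ ((d.out : Ω ≃ₐ[K] Ω) s) = s
      rw [← hcd]
      exact AlgEquiv.symm_apply_apply _ _
    rw [map_add, map_mul, h1 _ hp', h1 _ hq', h2]
  have huniv : (Finset.univ : Finset (M.fixingSubgroup ⧸
      ((Me M s).fixingSubgroup).subgroupOf M.fixingSubgroup)) = {a, b} := by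
    refine (Finset.eq_univ_of_forall fun c => ?_).symm
    rw [Finset.mem_insert, Finset.mem_singleton]
    have h1 : (c.out : Ω ≃ₐ[K] Ω) (s ^ 2) = s ^ 2 :=
      (IntermediateField.mem_fixingSubgroup_iff M _).1 c.out.2 _ hs
    rw [map_pow] at h1
    rcases sq_eq_sq_iff_eq_or_eq_neg.1 h1 with h3 | h3
    · left
      exact hclass c a (by rw [h3, has])
    · right
      exact hclass c b (by rw [h3, hbs])
  have h1 : ∀ c : M.fixingSubgroup ⧸ ((Me M s).fixingSubgroup).subgroupOf M.fixingSubgroup,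
      (c.out : Ω ≃ₐ[K] Ω) (p + q * s) = p + q * (c.out : Ω ≃ₐ[K] Ω) s := by
    intro c
    rw [map_add, map_mul, (IntermediateField.mem_fixingSubgroup_iff M _).1 c.out.2 p hp,
      (IntermediateField.mem_fixingSubgroup_iff M _).1 c.out.2 q hq]
  rw [Nf, finprod_eq_prod_of_fintype, huniv, Finset.prod_pair hab, h1, h1, has, hbs]
  ring

/-- Easy direction of the projection formula. Proof: `x = p² - b q²` with `p`, `q ∈ M(s)`; let a bar be the conjugation of `M(s)` over `M`. Then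
`x x' = (p p' + b q q')² - b (p q' + p' q)²`. -/
theorem pf_easy {M : IntermediateField K Ω} [FiniteDimensional K M] {s : Ω} (hs : s ^ 2 ∈ M)
    (hn : ¬ SqM M (s ^ 2)) {x b : Ω} (hb : b ∈ M) (h : HS (Me M s) x b) :
    HS M (Nf M (Me M s) x) b := by
  obtain ⟨p, hp, q, hq, rfl⟩ := h
  obtain ⟨p₁, hp₁, p₂, hp₂, rfl⟩ := (mem_quad hs).1 hp
  obtain ⟨q₁, hq₁, q₂, hq₂, rfl⟩ := (mem_quad hs).1 hq
  have h2 : (2 : Ω) ∈ M := nq_two
  have e1 : (p₁ + p₂ * s) ^ 2 - b * (q₁ + q₂ * s) ^ 2 =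
      (p₁ ^ 2 + s ^ 2 * p₂ ^ 2 - b * (q₁ ^ 2 + s ^ 2 * q₂ ^ 2)) +
      (2 * (p₁ * p₂) - b * (2 * (q₁ * q₂))) * s := by ring
  rw [e1, Nf_quad hs hn
    (M.sub_mem (M.add_mem (pow_mem hp₁ 2) (M.mul_mem hs (pow_mem hp₂ 2)))
      (M.mul_mem hb (M.add_mem (pow_mem hq₁ 2) (M.mul_mem hs (pow_mem hq₂ 2)))))
    (M.sub_mem (M.mul_mem h2 (M.mul_mem hp₁ hp₂)) (M.mul_mem hb (M.mul_mem h2 (M.mul_mem hq₁ hq₂))))]
  refine ⟨(p₁ ^ 2 - s ^ 2 * p₂ ^ 2) + b * (q₁ ^ 2 - s ^ 2 * q₂ ^ 2), ?_,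
    2 * (p₁ * q₁ - s ^ 2 * (p₂ * q₂)), ?_, by ring⟩
  · exact M.add_mem (M.sub_mem (pow_mem hp₁ 2) (M.mul_mem hs (pow_mem hp₂ 2)))
      (M.mul_mem hb (M.sub_mem (pow_mem hq₁ 2) (M.mul_mem hs (pow_mem hq₂ 2))))
  · exact M.mul_mem h2 (M.sub_mem (M.mul_mem hp₁ hq₁) (M.mul_mem hs (M.mul_mem hp₂ hq₂)))

omit [IsAlgClosure K Ω] in
/-- There is `β` with `(β, d) = 1` and `(β, b) ≠ 1`. -/
private theorem nq_exists (S : Sym K Ω) {M : IntermediateField K Ω} [FiniteDimensional K M]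
    {d b : Ω} (hd : d ∈ M) (hd0 : d ≠ 0) (hb : b ∈ M) (hb0 : b ≠ 0) (hb1 : ¬ SqM M b)
    (hb2 : ¬ SqM M (b * d)) : ∃ β ∈ M, β ≠ 0 ∧ HS M β d ∧ ¬ HS M β b := by
  obtain ⟨a, ha, ha0, h1⟩ := S.nondeg M inferInstance b hb hb0 hb1
  by_cases h2 : HS M a d
  · exact ⟨a, ha, ha0, h2, h1⟩
  obtain ⟨a', ha', ha0', h3⟩ := S.nondeg M inferInstance (b * d) (M.mul_mem hb hd)
    (mul_ne_zero hb0 hd0) hb2
  rw [HS.mulr S inferInstance ha' hb hd ha0' hb0 hd0] at h3
  by_cases h4 : HS M a' d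
  · exact ⟨a', ha', ha0', h4, fun h5 => h3 (iff_of_true h5 h4)⟩
  · have h5 : HS M a' b := by
      by_contra h6
      exact h3 (iff_of_false h6 h4)
    refine ⟨a * a', M.mul_mem ha ha', mul_ne_zero ha0 ha0', ?_, ?_⟩
    · rw [S.mul M inferInstance a a' d ha ha' hd ha0 ha0' hd0]
      exact iff_of_false h2 h4
    · rw [S.mul M inferInstance a a' b ha ha' hb ha0 ha0' hb0]
      intro h6
      exact h1 (h6.2 h5)

/-- The other direction. Proof: let `d = s²`, `P = {x ∈ M(s)^* : (x, b) = 1 over M(s)}`, of index two (`Sym.mul`). Suppose `x ∉ P`, `(N x, b) = 1` over `M`. There is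
`β ∈ M^*` with `(β, d) = 1`, `(β, b) ≠ 1` (otherwise: `exists_sy` for `d₁ = d₂ = d`, `b₁ = b`, ... or the linear algebra behind it, since `b`,
`b d` are not squares), `β = N x'` (`Nf_quad`), `x' ∉ P` by `pf_easy`. So `x x' ∈ P` and `(N x N x', b) = (β, b) ≠ 1`, against `pf_easy`. -/
theorem pf_hard (S : Sym K Ω) {M : IntermediateField K Ω} [FiniteDimensional K M] {s : Ω}
    (hs : s ^ 2 ∈ M) (hn : ¬ SqM M (s ^ 2)) {x b : Ω} (hb : b ∈ M) (hb0 : b ≠ 0) (hb1 : ¬ SqM M b)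
    (hb2 : ¬ SqM M (b * s ^ 2)) (hx : x ∈ Me M s) (hx0 : x ≠ 0)
    (h : HS M (Nf M (Me M s) x) b) : HS (Me M s) x b := by
  have hfd := nq_fd M s
  have hle := nq_le M s
  have hd0 : s ^ 2 ≠ 0 := by
    intro h0
    apply hn
    rw [h0]
    exact ⟨0, M.zero_mem, by ring⟩
  obtain ⟨β, hβ, hβ0, h1, h2⟩ := nq_exists S hs hd0 hb hb0 hb1 hb2
  obtain ⟨p, hp, q, hq, e⟩ := h1
  have h3 : Nf M (Me M s) (p + q * s) = β := by rw [Nf_quad hs hn hp hq, e]
  have hx' : p + q * s ∈ Me M s := (mem_quad hs).2 ⟨p, hp, q, hq, rfl⟩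
  have hx0' : p + q * s ≠ 0 := by
    intro h0
    apply hβ0
    rw [e]
    linear_combination (p - q * s) * h0
  have h4 : ¬ HS (Me M s) (p + q * s) b := by
    intro h5
    have h6 := pf_easy hs hn hb h5
    rw [h3] at h6
    exact h2 h6
  by_contra h5
  have h6 : HS (Me M s) (x * (p + q * s)) b := by
    rw [S.mul (Me M s) hfd x _ b hx hx' (hle hb) hx0 hx0' hb0]
    exact iff_of_false h5 h4
  have h7 := pf_easy hs hn hb h6
  rw [Nf_mul M (Me M s) hle, h3, S.mul M inferInstance _ β b (Nf_mem hle hx) hβ hb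
    (Nf_ne hle hx0) hβ0 hb0] at h7
  exact h2 (h7.1 h)

/-- **Norms from biquadratic extensions.** Proof: if `d₁`, `d₂` are squares: `N = M`. If one of `d₁`, `d₂`, `d₁ d₂` is a square: `N = M(√d)`
for one of them which is not. Otherwise `N = M(√d₁, √d₂)`: `a = Nf x`, `x ∈ M₁ = M(√d₁)` (`Nf_quad`), `(x, d₂) = 1` over `M₁` (`pf_hard`), so
`x = Nf β`, `β ∈ N`, `Nf_trans`. -/
theorem exists_nf (S : Sym K Ω) {M : IntermediateField K Ω} [FiniteDimensional K M] {a d₁ d₂ : Ω}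
    (ha : a ∈ M) (hd₁ : d₁ ∈ M) (hd₂ : d₂ ∈ M) (ha0 : a ≠ 0) (h₁ : d₁ ≠ 0) (h₂ : d₂ ≠ 0)
    (h1 : HS M a d₁) (h2 : HS M a d₂) :
    ∃ N : IntermediateField K Ω, FiniteDimensional K N ∧ M ≤ N ∧ SqM N d₁ ∧ SqM N d₂ ∧
      ∃ β ∈ N, β ≠ 0 ∧ Nf M N β = a := by
  have hcl : IsAlgClosed Ω := IsAlgClosure.isAlgClosed K
  -- norms from a quadratic extension
  have key : ∀ (M : IntermediateField K Ω) (_ : FiniteDimensional K M) (a s : Ω), a ≠ 0 →
      s ^ 2 ∈ M → ¬ SqM M (s ^ 2) → HS M a (s ^ 2) →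
      ∃ β ∈ Me M s, β ≠ 0 ∧ Nf M (Me M s) β = a := by
    intro M _ a s ha0 hs hn h
    obtain ⟨p, hp, q, hq, e⟩ := h
    refine ⟨p + q * s, (mem_quad hs).2 ⟨p, hp, q, hq, rfl⟩, ?_, ?_⟩
    · intro h0
      apply ha0
      rw [e]
      linear_combination (p - q * s) * h0
    · rw [Nf_quad hs hn hp hq, e]
  obtain ⟨s₁, hs₁⟩ := IsAlgClosed.exists_pow_nat_eq d₁ (n := 2) two_pos
  obtain ⟨s₂, hs₂⟩ := IsAlgClosed.exists_pow_nat_eq d₂ (n := 2) two_pos
  subst hs₁
  subst hs₂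
  by_cases c1 : SqM M (s₁ ^ 2)
  · by_cases c2 : SqM M (s₂ ^ 2)
    · exact ⟨M, inferInstance, le_rfl, c1, c2, a, ha, ha0, Nf_self M ha⟩
    · obtain ⟨β, hβ, hβ0, e⟩ := key M inferInstance a s₂ ha0 hd₂ c2 h2
      exact ⟨Me M s₂, nq_fd M s₂, nq_le M s₂, c1.mono (nq_le M s₂), ⟨s₂, nq_mem M s₂, rfl⟩,
        β, hβ, hβ0, e⟩
  · by_cases c2 : SqM M (s₂ ^ 2)
    · obtain ⟨β, hβ, hβ0, e⟩ := key M inferInstance a s₁ ha0 hd₁ c1 h1
      exact ⟨Me M s₁, nq_fd M s₁, nq_le M s₁, ⟨s₁, nq_mem M s₁, rfl⟩, c2.mono (nq_le M s₁),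
        β, hβ, hβ0, e⟩
    · by_cases c3 : SqM M (s₂ ^ 2 * s₁ ^ 2)
      · obtain ⟨β, hβ, hβ0, e⟩ := key M inferInstance a s₁ ha0 hd₁ c1 h1
        refine ⟨Me M s₁, nq_fd M s₁, nq_le M s₁, ⟨s₁, nq_mem M s₁, rfl⟩, ?_, β, hβ, hβ0, e⟩
        exact SqM.of_sq (nq_mem M s₁) (fun h => h₁ (by rw [h]; ring)) (c3.mono (nq_le M s₁))
      · obtain ⟨x, hx, hx0, e⟩ := key M inferInstance a s₁ ha0 hd₁ c1 h1
        have hfd := nq_fd M s₁
        have h3 : HS (Me M s₁) x (s₂ ^ 2) := by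
          refine pf_hard S hd₁ c1 hd₂ h₂ c2 c3 hx hx0 ?_
          rw [e]
          exact h2
        have c4 : ¬ SqM (Me M s₁) (s₂ ^ 2) := by
          rintro ⟨y, hy, e'⟩
          obtain ⟨p, hp, q, hq, rfl⟩ := (mem_quad hd₁).1 hy
          have hs : s₁ ∉ M := fun h => c1 ⟨s₁, h, rfl⟩
          have hc : CharZero Ω := charZero_of_injective_algebraMap (algebraMap K Ω).injective
          have h4 : p * q = 0 := by
            by_contra h5
            apply hs
            have h6 : s₁ = (s₂ ^ 2 - p ^ 2 - s₁ ^ 2 * q ^ 2) / (2 * (p * q)) := by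
              rw [eq_div_iff (mul_ne_zero two_ne_zero h5)]
              linear_combination -e'
            rw [h6]
            exact M.div_mem (M.sub_mem (M.sub_mem hd₂ (pow_mem hp 2))
              (M.mul_mem hd₁ (pow_mem hq 2))) (M.mul_mem nq_two (M.mul_mem hp hq))
          rcases mul_eq_zero.1 h4 with h5 | h5
          · subst h5
            refine c3 ⟨q * s₁ ^ 2, M.mul_mem hq hd₁, ?_⟩
            rw [e']
            ring
          · subst h5
            refine c2 ⟨p, hp, ?_⟩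
            rw [e']
            ring
        obtain ⟨β, hβ, hβ0, e'⟩ := key (Me M s₁) hfd x s₂ hx0 (nq_le M s₁ hd₂) c4 h3
        have hfd' := nq_fd (Me M s₁) s₂
        refine ⟨Me (Me M s₁) s₂, hfd', (nq_le M s₁).trans (nq_le _ s₂),
          ⟨s₁, nq_le _ s₂ (nq_mem M s₁), rfl⟩, ⟨s₂, nq_mem _ s₂, rfl⟩, β, hβ, hβ0, ?_⟩
        rw [Nf_trans (nq_le M s₁) (nq_le _ s₂) hβ, e', e]

end BE
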