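import Pool.Agent.Lib.MP_f80667_ag.Be.D12
import Pool.Agent.Lib.MP_f80667_ag.Be.Cy
import Pool.Agent.Lib.MP_f80667_ag.Be.Nq

/-! Dyadic places: the classes `{u, y}` are determined by symbols. -/

open ZC Polynomial IntermediateField

namespace BE

variable {F : Type} [Field F] {K : Type} [Field K] [CharZero K] [Algebra F K] {Ω : Type} [Field Ω]
  [Algebra K Ω] [Algebra F Ω] [IsScalarTower F K Ω] [IsAlgClosure K Ω] (C : Cf F) (L : Lf K Ω)

omit [CharZero K] [IsAlgClosure K Ω] in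
theorem c1_Me {M : IntermediateField K Ω} {e : Ω} (he : e ∈ M) : Me M e = M := by
  unfold Me
  rw [sup_eq_left, IntermediateField.adjoin_simple_le_iff]
  exact he

omit [CharZero K] [Algebra F K] [IsScalarTower F K Ω] [IsAlgClosure K Ω] in
/-- The value of `al` at `- u`. -/
theorem c1_al_neg (u : Pt C.W₁ Ω) : C.al (-u) = C.al u := by
  classical
  rcases Pt.cases' u with rfl | ⟨x, y, h, rfl⟩
  · rw [neg_zero]
  · rfl

/-- The value of `th0` at `- y`. -/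
theorem c1_th_neg (e : Ω) (u : Pt C.W₁ Ω) (y : Pt C.W₂ Ω) : C.th0 Ω e u (-y) = C.th0 Ω e u y := by
  classical
  rcases Pt.cases' y with rfl | ⟨w, v, h, rfl⟩
  · rw [neg_zero]
  · rfl

omit [CharZero K] [IsAlgClosure K Ω] in
theorem c1_pp {M : IntermediateField K Ω} {y : Pt C.W₂ Ω} (hy : ∀ γ ∈ M.fixingSubgroup, γ • y = y) :
    (C.dt K Ω).PP M.fixingSubgroup 0 y :=
  ((C.dt K Ω).pp_fix fun γ _ => smul_zero γ).2 hy

theorem c1_roots {M : IntermediateField K Ω} {y : Pt C.W₂ Ω}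
    (hM : ∀ e : Ω, aeval e C.g = 0 → e ∈ M) (hy : ∀ γ ∈ M.fixingSubgroup, γ • y = y) :
    ∀ e : Ω, aeval e C.g = 0 → C.th0 Ω e 0 y ∈ M ∧ C.th0 Ω e 0 y ≠ 0 := by
  intro e he
  have h1 := th_mem C he (c1_pp C hy)
  rw [c1_Me (hM e he)] at h1
  exact ⟨h1, th_ne C e he 0 y⟩

/-- **Symbols determine the classes.** `M` contains the roots of `g`, all the symbols `(al u, d_e(y))` over `M` are trivial. Proof: `exists_nf` for `a = al u`,
`d₁ = d_{e₁}(y)`, `d₂ = d_{e₂}(y)`: an extension `N` of `M` and `β ∈ N^*` with `Nf β = al u`, over which `d₁`, `d₂`, so all three (`th_prod`) are squares: `y = 2 y'` over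
`N` (`half₂`). `al_onto`: `u' ∈ E₁(N)` with `al u' ~ β`, so `al (Na u') ~ al u` (`al_norm`, `Nf_mul`), `u - Na u' = 2 τ` (`al_pair`, `half_al`), so
`br_M(u, y) = br_M(Na u', y) = br_N(u', y) = br_N(u', 2 y') = 2 br_N(u', y') = 0` (`br_two`, `nA`, `br_add_y`, `two_br`). -/
theorem br_of_symb (h : L.H3 C) (S : Sym K Ω) {G : Type} [AddCommGroup G]
    (T : Th (C.dt K Ω) G) (hT : T.op = opn K Ω) {M : IntermediateField K Ω} [FiniteDimensional K M]
    {u : Pt C.W₁ Ω} {y : Pt C.W₂ Ω} (hM : ∀ e : Ω, aeval e C.g = 0 → e ∈ M)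
    (hu : ∀ γ ∈ M.fixingSubgroup, γ • u = u) (hy : ∀ γ ∈ M.fixingSubgroup, γ • y = y)
    (hs : ∀ e : Ω, aeval e C.g = 0 → HS M (C.al u) (C.th0 Ω e 0 y)) :
    T.br M.fixingSubgroup u 0 y = 0 := by
  obtain ⟨e₁, e₂, e₃, hg, -, -, -, -⟩ := exists_roots K (Ω := Ω) C
  have hroot : ∀ e : Ω, aeval e C.g = 0 ↔ e = e₁ ∨ e = e₂ ∨ e = e₃ := by
    intro e
    rw [← eval_map_algebraMap, hg]
    simp only [eval_mul, eval_sub, eval_X, eval_C, mul_eq_zero, sub_eq_zero, or_assoc]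
  have he₁ := (hroot e₁).2 (Or.inl rfl)
  have he₂ := (hroot e₂).2 (Or.inr (Or.inl rfl))
  have he₃ := (hroot e₃).2 (Or.inr (Or.inr rfl))
  have hθ := c1_roots C hM hy
  obtain ⟨N, hN, hMN, hsq₁, hsq₂, β, hβ, hβ0, hβN⟩ := exists_nf S (al_mem C hu) (hθ e₁ he₁).1
    (hθ e₂ he₂).1 (al_ne C u) (hθ e₁ he₁).2 (hθ e₂ he₂).2 (hs e₁ he₁) (hs e₂ he₂)
  have hSH : N.fixingSubgroup ≤ M.fixingSubgroup := fix_le hMN
  have hyN : ∀ γ ∈ N.fixingSubgroup, γ • y = y := fun γ hγ => hy γ (hSH hγ)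
  have hpN := c1_pp C hyN
  -- all three values are squares over `N`
  have hsq₃ : SqM N (C.th0 Ω e₃ 0 y) := by
    have h1 := th_prod C hg hpN
    rw [mul_comm] at h1
    exact SqM.of_mul (N.mul_mem (hMN (hθ e₁ he₁).1) (hMN (hθ e₂ he₂).1))
      (mul_ne_zero (hθ e₁ he₁).2 (hθ e₂ he₂).2) h1 (hsq₁.mul hsq₂)
  obtain ⟨y', hy', hyy⟩ := half₂ C (M := N) (u := 0) (y := y) hpN (fun e he => by
    rw [c1_Me (hMN (hM e he))]
    rcases (hroot e).1 he with rfl | rfl | rfl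
    · exact hsq₁
    · exact hsq₂
    · exact hsq₃)
  -- the point `u'`
  obtain ⟨u', hu', s, hsN, hsβ⟩ := al_onto C L h hβ hβ0
  obtain ⟨v, hv⟩ : ∃ v, v = Na M.fixingSubgroup N.fixingSubgroup u' := ⟨_, rfl⟩
  have hNo : T.op N.fixingSubgroup := by
    rw [hT]
    exact opn_fix N
  have hMo : T.op M.fixingSubgroup := by
    rw [hT]
    exact opn_fix M
  have hvf : ∀ γ ∈ M.fixingSubgroup, γ • v = v := fun γ hγ => by
    rw [hv]
    exact smul_Na hSH (T.op_fin _ hNo) hu' hγ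
  have hn := Nf_mem hMN (al_mem C hu')
  have hn0 := Nf_ne hMN (al_ne C u')
  have hs0 : s ≠ 0 := by
    rintro rfl
    rw [zero_pow two_ne_zero] at hsβ
    exact mul_ne_zero hβ0 (al_ne C u') hsβ
  have h1 : SqM M (C.al u * Nf M N (C.al u')) := by
    refine ⟨Nf M N s, Nf_mem hMN hsN, ?_⟩
    rw [← hβN, ← Nf_mul M N hMN, hsβ, sq, Nf_mul M N hMN, ← sq]
  have h2 : SqM M (Nf M N (C.al u') * C.al v) := by
    rw [mul_comm, hv]
    exact al_norm C hMN hu'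
  have h3 : SqM M (C.al u * C.al v) := SqM.trans hn hn0 h1 h2
  have hvn : ∀ γ ∈ M.fixingSubgroup, γ • (-v) = -v := fun γ hγ => by rw [smul_neg, hvf γ hγ]
  have h4 : SqM M (C.al (u + -v) * (C.al u * C.al (-v))) :=
    al_pair C fun γ hγ => Or.inl ⟨hu γ hγ, hvn γ hγ⟩
  rw [c1_al_neg C v] at h4
  have h5 : SqM M (C.al (u + -v)) := SqM.of_mul (M.mul_mem (al_mem C hu) (al_mem C hvf))
    (mul_ne_zero (al_ne C u) (al_ne C v)) h4 h3
  have huv : ∀ γ ∈ M.fixingSubgroup, γ • (u + -v) = u + -v := fun γ hγ => by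
    rw [smul_add, hu γ hγ, hvn γ hγ]
  obtain ⟨τ, hτ, hττ⟩ := half_al C L h huv h5
  have hpM := c1_pp C hy
  have h6 : T.br M.fixingSubgroup u 0 y = T.br M.fixingSubgroup v 0 y := by
    have h7 : u = v + (τ + τ) := by
      rw [hττ]
      abel
    rw [h7, T.br_add hMo hpM hvf (by rw [hττ]; exact huv),
      T.br_two hMo hpM ((C.dt K Ω).uu_of_fix hτ), add_zero]
  rw [h6, hv, ← T.nA hNo hSH hpM hu', ← hyy, T.br_add_y hNo hu' hy' hy', ← two_nsmul]
  exact T.two_br hNo hy' hu'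

/-- Two pairs with the same symbols, same `y`. Proof: `br_of_symb` for `u - u'`. -/
theorem br_congr_u (h : L.H3 C) (S : Sym K Ω) {G : Type} [AddCommGroup G]
    (T : Th (C.dt K Ω) G) (hT : T.op = opn K Ω) {M : IntermediateField K Ω} [FiniteDimensional K M]
    {u u' : Pt C.W₁ Ω} {y : Pt C.W₂ Ω} (hM : ∀ e : Ω, aeval e C.g = 0 → e ∈ M)
    (hu : ∀ γ ∈ M.fixingSubgroup, γ • u = u) (hu' : ∀ γ ∈ M.fixingSubgroup, γ • u' = u')
    (hy : ∀ γ ∈ M.fixingSubgroup, γ • y = y)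
    (hs : ∀ e : Ω, aeval e C.g = 0 → (HS M (C.al u) (C.th0 Ω e 0 y) ↔
      HS M (C.al u') (C.th0 Ω e 0 y))) :
    T.br M.fixingSubgroup u 0 y = T.br M.fixingSubgroup u' 0 y := by
  have hMo : T.op M.fixingSubgroup := by
    rw [hT]
    exact opn_fix M
  have hun : ∀ γ ∈ M.fixingSubgroup, γ • (-u') = -u' := fun γ hγ => by rw [smul_neg, hu' γ hγ]
  have huu : ∀ γ ∈ M.fixingSubgroup, γ • (u + -u') = u + -u' := fun γ hγ => by
    rw [smul_add, hu γ hγ, hun γ hγ]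
  have h4 : SqM M (C.al (u + -u') * (C.al u * C.al (-u'))) :=
    al_pair C fun γ hγ => Or.inl ⟨hu γ hγ, hun γ hγ⟩
  rw [c1_al_neg C u'] at h4
  have h1 : T.br M.fixingSubgroup (u + -u') 0 y = 0 := by
    refine br_of_symb C L h S T hT hM huu hy fun e he => ?_
    obtain ⟨h2, h3⟩ := c1_roots C hM hy e he
    rw [HS.congr (al_mem C huu) (M.mul_mem (al_mem C hu) (al_mem C hu')) (al_ne C _)
      (mul_ne_zero (al_ne C u) (al_ne C u')) h4,
      S.mul M inferInstance _ _ _ (al_mem C hu) (al_mem C hu') h2 (al_ne C u) (al_ne C u') h3]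
    exact hs e he
  have h7 : u = u' + (u + -u') := by abel
  rw [h7, T.br_add hMo (c1_pp C hy) hu' huu, h1, add_zero]

/-- Two pairs with the same symbols, same `u`. -/
theorem br_congr_y (h : L.H3 C) (S : Sym K Ω) {G : Type} [AddCommGroup G]
    (T : Th (C.dt K Ω) G) (hT : T.op = opn K Ω) {M : IntermediateField K Ω} [FiniteDimensional K M]
    {u : Pt C.W₁ Ω} {y y' : Pt C.W₂ Ω} (hM : ∀ e : Ω, aeval e C.g = 0 → e ∈ M)
    (hu : ∀ γ ∈ M.fixingSubgroup, γ • u = u)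
    (hy : ∀ γ ∈ M.fixingSubgroup, γ • y = y) (hy' : ∀ γ ∈ M.fixingSubgroup, γ • y' = y')
    (hs : ∀ e : Ω, aeval e C.g = 0 → (HS M (C.al u) (C.th0 Ω e 0 y) ↔
      HS M (C.al u) (C.th0 Ω e 0 y'))) :
    T.br M.fixingSubgroup u 0 y = T.br M.fixingSubgroup u 0 y' := by
  have hMo : T.op M.fixingSubgroup := by
    rw [hT]
    exact opn_fix M
  have hyn : ∀ γ ∈ M.fixingSubgroup, γ • (-y') = -y' := fun γ hγ => by rw [smul_neg, hy' γ hγ]
  have hyy : ∀ γ ∈ M.fixingSubgroup, γ • (y + -y') = y + -y' := fun γ hγ => by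
    rw [smul_add, hy γ hγ, hyn γ hγ]
  have h1 : T.br M.fixingSubgroup u 0 (y + -y') = 0 := by
    refine br_of_symb C L h S T hT hM hu hyy fun e he => ?_
    obtain ⟨h2, h3⟩ := c1_roots C hM hy e he
    obtain ⟨h2', h3'⟩ := c1_roots C hM hy' e he
    obtain ⟨h2'', h3''⟩ := c1_roots C hM hyy e he
    have h4 := th_pair C (M := M) he (u := 0) (y₁ := y) (y₂ := -y')
      ((C.dt K Ω).uu_of_fix fun γ _ => smul_zero γ)
      (fun γ hγ => Or.inl ⟨c1_pp C hy γ hγ, c1_pp C hyn γ hγ⟩)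
    rw [c1_Me (hM e he), c1_th_neg] at h4
    rw [HS.congr_right h2'' (M.mul_mem h2 h2') h3'' (mul_ne_zero h3 h3') h4,
      HS.mulr S inferInstance (al_mem C hu) h2 h2' (al_ne C u) h3 h3']
    exact hs e he
  have h7 : y = y' + (y + -y') := by abel
  rw [h7, T.br_add_y hMo hu (c1_pp C hy') (c1_pp C hyy), h1, add_zero]

end BE
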