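import Pool.Agent.Lib.MP_f80667_ag.Be.Defs

/-! The examples over the rational numbers: `E₂ : v² = w³ + w² - 2 w - 1` and
`E₁ : Y² = X (X² + a X + b)`. -/

namespace BE

/-- The surfaces with `E₂ : v² = w³ + w² - 2 w - 1`. -/
def Cab (a b : ℤ) (hb : b ≠ 0) (hab : a ^ 2 - 4 * b ≠ 0) : Cf ℚ where
  a := a
  b := b
  c₂ := 1
  c₁ := -2
  c₀ := -1
  h2 := by norm_num
  hb := by exact_mod_cast hb
  hab := by exact_mod_cast hab
  hc := by norm_num

end BE
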