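import Pool.Agent.Lib.MP_f80667_ag.Be.Lf
import Pool.Agent.Lib.MP_f80667_ag.Be.Gal

/-! Square roots and degrees. -/

open ZC Polynomial IntermediateField

namespace BE

/-- An element whose square, but not itself, is in the base field has trace `0`. -/
theorem kc_trace_sqrt {k L : Type} [Field k] [Field L] [Algebra k L] [FiniteDimensional k L] {t : L}
    {d : k} (ht : t ^ 2 = algebraMap k L d) (hn : ∀ a : k, algebraMap k L a ≠ t) :
    Algebra.trace k L t = 0 := by
  have hirr : Irreducible (X ^ 2 - C d : k[X]) := by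
    refine X_pow_sub_C_irreducible_of_prime Nat.prime_two fun b hb => ?_
    have h1 : (algebraMap k L b) ^ 2 = t ^ 2 := by rw [ht, ← hb, map_pow]
    rcases sq_eq_sq_iff_eq_or_eq_neg.1 h1 with h2 | h2
    · exact hn b h2
    · exact hn (-b) (by rw [map_neg, h2, neg_neg])
  have hmin : minpoly k t = X ^ 2 - C d := by
    refine (minpoly.eq_of_irreducible_of_monic hirr ?_ (monic_X_pow_sub_C d two_ne_zero)).symm
    rw [map_sub, map_pow, aeval_X, aeval_C, ht, sub_self]
  rw [trace_eq_finrank_mul_minpoly_nextCoeff, hmin]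
  have h3 : (X ^ 2 - C d : k[X]).nextCoeff = 0 := by
    rw [nextCoeff_of_natDegree_pos (by rw [natDegree_X_pow_sub_C]; norm_num),
      natDegree_X_pow_sub_C, coeff_sub, coeff_X_pow, coeff_C]
    simp
  rw [h3, neg_zero, mul_zero]

/-- A polynomial of odd degree has an irreducible factor of odd degree. -/
theorem kc_odd_factor {k : Type} [Field k] (n : ℕ) : ∀ f : k[X], f.natDegree = n → Odd n →
    ∃ p : k[X], Irreducible p ∧ p ∣ f ∧ Odd p.natDegree := by
  induction n using Nat.strong_induction_on with
  | _ n ih =>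
    intro f hf hn
    have hf0 : f ≠ 0 := by
      rintro rfl
      rw [natDegree_zero] at hf
      rw [← hf] at hn
      exact absurd hn (by decide)
    by_cases hirr : Irreducible f
    · exact ⟨f, hirr, dvd_rfl, by rw [hf]; exact hn⟩
    · have hnu : ¬ IsUnit f := fun hu => by
        rw [natDegree_eq_zero_of_isUnit hu] at hf
        rw [← hf] at hn
        exact absurd hn (by decide)
      rw [irreducible_iff] at hirr
      push Not at hirr
      obtain ⟨g, h, hgh, hg, hh⟩ := hirr hnu
      have hg0 : g ≠ 0 := by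
        rintro rfl
        exact hf0 (by rw [hgh, zero_mul])
      have hh0 : h ≠ 0 := by
        rintro rfl
        exact hf0 (by rw [hgh, mul_zero])
      have hdeg : g.natDegree + h.natDegree = n := by
        rw [← hf, hgh, natDegree_mul hg0 hh0]
      have hg1 : 0 < g.natDegree := by
        by_contra h0
        exact hg (isUnit_iff_degree_eq_zero.2 (by
          rw [degree_eq_natDegree hg0]
          simp only [Nat.cast_eq_zero]
          omega))
      have hh1 : 0 < h.natDegree := by
        by_contra h0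
        exact hh (isUnit_iff_degree_eq_zero.2 (by
          rw [degree_eq_natDegree hh0]
          simp only [Nat.cast_eq_zero]
          omega))
      rw [← hdeg, Nat.odd_add] at hn
      by_cases hgo : Odd g.natDegree
      · obtain ⟨p, hp, hpd, hpo⟩ := ih _ (by omega) g rfl hgo
        exact ⟨p, hp, hpd.trans (hgh ▸ dvd_mul_right g h), hpo⟩
      · have hho : Odd h.natDegree := by
          by_contra h1
          exact hgo (hn.2 (Nat.not_odd_iff_even.1 h1))
        obtain ⟨p, hp, hpd, hpo⟩ := ih _ (by omega) h rfl hho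
        exact ⟨p, hp, hpd.trans (hgh ▸ dvd_mul_left h g), hpo⟩

section field

variable {K Ω : Type} [Field K] [CharZero K] [Field Ω] [Algebra K Ω] [IsAlgClosure K Ω]

omit [CharZero K] in
/-- The degree of `M(θ)`. -/
theorem kc_finrank_Me (M : IntermediateField K Ω) [FiniteDimensional K M] (θ : Ω) :
    Module.finrank K (Me M θ) =
      Module.finrank K M * (minpoly M θ).natDegree := by
  have halg : Algebra.IsAlgebraic K Ω := IsAlgClosure.isAlgebraic
  rw [Me]
  have hint : IsIntegral M θ := ((halg.isAlgebraic θ).isIntegral).tower_top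
  rw [← IntermediateField.restrictScalars_adjoin_eq_sup]
  have h1 : Module.finrank K ((IntermediateField.adjoin M {θ}).restrictScalars K) =
    Module.finrank K (IntermediateField.adjoin M {θ}) := rfl
  rw [h1, ← Module.finrank_mul_finrank K M (IntermediateField.adjoin M {θ}),
    IntermediateField.adjoin.finrank hint]

/-- **Independent square roots.** Different classes of `M` which become the class of `δ` over `N`. Proof: multiply by one of them: we may assume `δ = 1` (the new numbers `x x₀` are squares in `N`, the products are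
not squares in `M`). Let `s_x ∈ N`, `s_x² = x`. The `s_x` are orthogonal for the trace form of `N / M`: `s_x s_y` has the minimal polynomial `X² - x y` over `M`, so its trace is `0`, and the trace of `s_x²` is
`[N : M] x ≠ 0`. So they are linearly independent over `M`. -/
theorem card_le_of_sq {M N : IntermediateField K Ω} (h : M ≤ N) [FiniteDimensional K N]
    (I : Finset Ω) (hI : ∀ x ∈ I, x ∈ M ∧ x ≠ 0) (hp : ∀ x ∈ I, ∀ y ∈ I, x ≠ y → ¬ SqM M (x * y))
    {δ : Ω} (hδ : δ ∈ N) (h0 : δ ≠ 0) (hs : ∀ x ∈ I, SqM N (x * δ)) :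
    I.card * Module.finrank K M ≤ Module.finrank K N := by
  classical
  rcases I.eq_empty_or_nonempty with rfl | ⟨x₀, hx₀⟩
  · simp
  let _ : Algebra M N := (IntermediateField.inclusion h).toRingHom.toAlgebra
  have hcoe : ∀ a : M, ((algebraMap M N a : N) : Ω) = a := fun _ => rfl
  have _ : IsScalarTower K M N := IsScalarTower.of_algebraMap_eq fun a => Subtype.ext rfl
  have hfin : FiniteDimensional K M := FiniteDimensional.left K M N
  have hfin' : FiniteDimensional M N := FiniteDimensional.right K M N
  choose! a haN ha using hs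
  -- the numbers `a x * a x₀ / δ`, their squares are `x * x₀`
  let t : I → N := fun x => ⟨a x * a x₀ / δ, N.div_mem (N.mul_mem (haN x x.2) (haN x₀ hx₀)) hδ⟩
  have htc : ∀ x : I, ((t x : N) : Ω) = a x * a x₀ / δ := fun _ => rfl
  have hsq : ∀ x ∈ I, a x ^ 2 = x * δ := fun x hx => (ha x hx).symm
  have htt : ∀ x : I, t x * t x = algebraMap M N ⟨x * x₀, M.mul_mem (hI x x.2).1 (hI x₀ hx₀).1⟩ := by
    intro x
    refine Subtype.ext ?_
    rw [hcoe]
    change (a x * a x₀ / δ) * (a x * a x₀ / δ) = x * x₀
    have h1 := hsq x x.2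
    have h2 := hsq x₀ hx₀
    field_simp
    linear_combination a x₀ ^ 2 * h1 + x * δ * h2
  have htr : ∀ x y : I, x ≠ y → Algebra.trace M N (t x * t y) = 0 := by
    intro x y hxy
    have hxy' : (x : Ω) ≠ y := fun h => hxy (Subtype.ext h)
    refine kc_trace_sqrt (d := ⟨x * y * x₀ ^ 2, M.mul_mem (M.mul_mem (hI x x.2).1 (hI y y.2).1)
      (M.pow_mem (hI x₀ hx₀).1 2)⟩) ?_ ?_
    · refine Subtype.ext ?_
      rw [hcoe]
      change ((a x * a x₀ / δ) * (a y * a x₀ / δ)) ^ 2 = x * y * x₀ ^ 2
      have h1 := hsq x x.2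
      have h2 := hsq x₀ hx₀
      have h3 := hsq y y.2
      have h4 : ((a x * a x₀ / δ) * (a y * a x₀ / δ)) ^ 2 =
          a x ^ 2 * a y ^ 2 * (a x₀ ^ 2) ^ 2 / δ ^ 4 := by
        field_simp
      rw [h4, h1, h2, h3]
      field_simp
    · intro b hb
      have hb' := congrArg Subtype.val hb
      rw [hcoe] at hb'
      change (b : Ω) = (a x * a x₀ / δ) * (a y * a x₀ / δ) at hb'
      refine hp x x.2 y y.2 hxy' ⟨b / x₀, M.div_mem b.2 (hI x₀ hx₀).1, ?_⟩
      have h1 := hsq x x.2
      have h2 := hsq x₀ hx₀
      have h3 := hsq y y.2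
      have h5 := (hI x₀ hx₀).2
      have h4 : ((a x * a x₀ / δ) * (a y * a x₀ / δ)) ^ 2 =
          a x ^ 2 * a y ^ 2 * (a x₀ ^ 2) ^ 2 / δ ^ 4 := by
        field_simp
      rw [div_pow, hb', h4, h1, h2, h3]
      field_simp
  have hli : LinearIndependent M t := by
    rw [Fintype.linearIndependent_iff]
    intro g hg y
    have h1 := congrArg (fun z => Algebra.trace M N (z * t y)) hg
    simp only [zero_mul, map_zero, Finset.sum_mul, map_sum, smul_mul_assoc, map_smul] at h1
    rw [Finset.sum_eq_single y (fun x _ hxy => by rw [htr x y hxy, smul_zero])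
      (fun hy => absurd (Finset.mem_univ y) hy), htt, Algebra.trace_algebraMap] at h1
    rcases smul_eq_zero.1 h1 with h2 | h2
    · exact h2
    · exfalso
      rw [nsmul_eq_mul] at h2
      rcases mul_eq_zero.1 h2 with h3 | h3
      · exact Module.finrank_pos.ne' (Nat.cast_eq_zero.1 h3)
      · have h4 : (y : Ω) * x₀ = 0 := congrArg Subtype.val h3
        exact mul_ne_zero (hI y y.2).2 (hI x₀ hx₀).2 h4
  have h1 := hli.fintype_card_le_finrank
  rw [Fintype.card_coe] at h1
  rw [← Module.finrank_mul_finrank K M N, mul_comm]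
  exact Nat.mul_le_mul_left _ h1

/-- A root of `X^N - 2` of odd degree over `M`, `N` odd: an irreducible factor of odd degree. -/
theorem exists_theta (M : IntermediateField K Ω) [FiniteDimensional K M] {N : ℕ} (hN : Odd N) :
    ∃ θ : Ω, θ ^ N = 2 ∧ Odd (Module.finrank K (Me M θ) / Module.finrank K M) ∧
      Module.finrank K (Me M θ) ≤ N * Module.finrank K M := by
  have hcl : IsAlgClosed Ω := IsAlgClosure.isAlgClosed K
  have hN0 : 0 < N := hN.pos
  have hdeg : (X ^ N - C 2 : M[X]).natDegree = N := natDegree_X_pow_sub_C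
  have hne : (X ^ N - C 2 : M[X]) ≠ 0 := X_pow_sub_C_ne_zero hN0 _
  obtain ⟨p, hp, hpd, hpo⟩ := kc_odd_factor N (X ^ N - C 2 : M[X]) hdeg hN
  obtain ⟨θ, hθ⟩ := IsAlgClosed.exists_aeval_eq_zero Ω p (by
    rw [degree_eq_natDegree hp.ne_zero]
    simp only [ne_eq, Nat.cast_eq_zero]
    intro h0
    rw [h0] at hpo
    exact absurd hpo (by decide))
  have hmin : (minpoly M θ).natDegree = p.natDegree := by
    have h1 := minpoly.eq_of_irreducible hp hθ
    rw [← h1, natDegree_mul hp.ne_zero (by simp [hp.ne_zero]), natDegree_C, add_zero]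
  have hle : p.natDegree ≤ N := by
    rw [← hdeg]
    exact natDegree_le_of_dvd hpd hne
  refine ⟨θ, ?_, ?_, ?_⟩
  · obtain ⟨q, hq⟩ := hpd
    have h1 := congrArg (fun r : M[X] => aeval θ r) hq
    simp only [map_sub, map_pow, aeval_X, map_mul, hθ, zero_mul, map_ofNat] at h1
    exact sub_eq_zero.1 h1
  · rw [kc_finrank_Me, Nat.mul_div_cancel_left _ Module.finrank_pos, hmin]
    exact hpo
  · rw [kc_finrank_Me, hmin, mul_comm]
    exact Nat.mul_le_mul_right _ hle

end field

end BE
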