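import Pool.Agent.Lib.MP_f80667_ag.Be.Ys
import Pool.Agent.Lib.MP_f80667_ag.Be.Kc

/-! Dyadic places: a point over an odd extension whose classes avoid a finite set. -/

open ZC Polynomial IntermediateField

namespace BE

variable {F : Type} [Field F] {K : Type} [Field K] [CharZero K] [Algebra F K] {Ω : Type} [Field Ω]
  [Algebra K Ω] [Algebra F Ω] [IsScalarTower F K Ω] [IsAlgClosure K Ω] (C : Cf F) (L : Lf K Ω)

/-- Counting: a finite set which is the union of `≤ n` sets with `≤ m` elements each. -/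
theorem Ch_count {ι κ : Type} [DecidableEq ι] (J : Finset ι) (S : Finset κ) (p : κ → ι → Prop)
    (h : ∀ j ∈ J, ∃ s ∈ S, p s j) {m : ℕ}
    (hm : ∀ s ∈ S, ∀ I : Finset ι, I ⊆ J → (∀ j ∈ I, p s j) → 3 * I.card ≤ m) :
    3 * J.card ≤ S.card * m := by
  classical
  have h1 : J ⊆ S.biUnion fun s => J.filter (p s) := by
    intro j hj
    obtain ⟨s, hs, hp⟩ := h j hj
    exact Finset.mem_biUnion.2 ⟨s, hs, Finset.mem_filter.2 ⟨hj, hp⟩⟩
  have h2 : J.card ≤ ∑ s ∈ S, (J.filter (p s)).card :=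
    (Finset.card_le_card h1).trans Finset.card_biUnion_le
  calc 3 * J.card ≤ 3 * ∑ s ∈ S, (J.filter (p s)).card := Nat.mul_le_mul_left 3 h2
    _ = ∑ s ∈ S, 3 * (J.filter (p s)).card := Finset.mul_sum _ _ _
    _ ≤ ∑ s ∈ S, m := Finset.sum_le_sum fun s hs =>
        hm s hs _ (Finset.filter_subset _ _) fun j hj => (Finset.mem_filter.1 hj).2
    _ = S.card * m := by rw [Finset.sum_const, smul_eq_mul]

/-- **The choice of the point.** Let `D` be a finite set of elements of `M^*`, `M` contains a root `e`. Proof: take `N = 6 t + 3` with `2 t + 1 > 3 |D| [M : K]`, `θ` from `exists_theta`,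
`K₁ = K(e, θ) ≤ M' = M(θ)`: `[M' : K] ≤ N [M : K]`, `[K₁ : K] = 3 N` (`finrank_th`). There are `2 t + 1` even `j` with `N < 3 j`, `j < N`. For each of the three roots `e'` and each
`d ∈ D` the number of `j` with `d_{e'}(y_j) d` a square in `M'` is at most `[M' : K₁] ≤ [M : K] / 3` (`card_le_of_sq`, `exists_ys`). So some `y_j` works. -/
theorem exists_ch (h : L.H3 C) {M : IntermediateField K Ω} [FiniteDimensional K M] {e : Ω}
    (he : aeval e C.g = 0) (heM : e ∈ M) (D : Finset Ω) (hD : ∀ d ∈ D, d ∈ M ∧ d ≠ 0) :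
    ∃ (N : ℕ) (θ : Ω) (y : Pt C.W₂ Ω), Odd N ∧ θ ^ N = 2 ∧
      Odd (Module.finrank K (Me M θ) / Module.finrank K M) ∧
      (∀ γ ∈ (Me (Me (⊥ : IntermediateField K Ω) e) θ).fixingSubgroup, γ • y = y) ∧
      ∀ e' : Ω, aeval e' C.g = 0 → ∀ d ∈ D, ¬ SqM (Me M θ) (C.th0 Ω e' 0 y * d) := by
  classical
  have hcΩ : CharZero Ω := charZero_of_injective_algebraMap (algebraMap K Ω).injective
  have hac : IsAlgClosed Ω := IsAlgClosure.isAlgClosed K
  set t : ℕ := D.card * Module.finrank K M with ht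
  set N : ℕ := 6 * t + 3 with hNdef
  have hN : Odd N := ⟨3 * t + 1, by omega⟩
  obtain ⟨θ, hθ, hodd, hle⟩ := exists_theta M hN
  have hθM : θ ∈ Me M θ :=
    (le_sup_right : _ ≤ Me M θ) (IntermediateField.mem_adjoin_simple_self K θ)
  have hMM : M ≤ Me M θ := le_sup_left
  have hfd : FiniteDimensional K (Me M θ) := by
    apply FiniteDimensional.of_finrank_pos
    refine Nat.pos_of_ne_zero fun h0 => ?_
    rw [h0, Nat.zero_div] at hodd
    exact (by decide : ¬ Odd 0) hodd
  have hK1 : Me (Me (⊥ : IntermediateField K Ω) e) θ ≤ Me M θ := by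
    refine sup_le (sup_le bot_le ?_) ?_
    · rw [IntermediateField.adjoin_simple_le_iff]
      exact hMM heM
    · rw [IntermediateField.adjoin_simple_le_iff]
      exact hθM
  have hfin := finrank_th C L h he (by omega : 0 < N) hθ
  obtain ⟨y, hy⟩ := exists_ys C L h he hN hθ
  obtain ⟨e₁, e₂, e₃, -, -, -, k2, k1, k0⟩ := HfH_roots (Ω := Ω) C
  have hroots : ∀ e' : Ω, aeval e' C.g = 0 → e' ∈ ({e₁, e₂, e₃} : Finset Ω) := by
    intro e' he'
    have h1 : (e' - e₁) * (e' - e₂) * (e' - e₃) = 0 := by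
      have h2 : aeval e' C.g = e' ^ 3 + algebraMap F Ω C.c₂ * e' ^ 2 + algebraMap F Ω C.c₁ * e' +
          algebraMap F Ω C.c₀ := by
        simp [Cf.g]
      rw [h2, k2, k1, k0] at he'
      linear_combination he'
    rw [mul_eq_zero, mul_eq_zero, sub_eq_zero, sub_eq_zero, sub_eq_zero] at h1
    simp only [Finset.mem_insert, Finset.mem_singleton]
    rcases h1 with (h1 | h1) | h1
    · exact Or.inl h1
    · exact Or.inr (Or.inl h1)
    · exact Or.inr (Or.inr h1)
  set J : Finset ℕ := (Finset.range (2 * t + 1)).image fun i => 2 * t + 2 + 2 * i with hJ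
  have hJc : J.card = 2 * t + 1 := by
    rw [hJ, Finset.card_image_of_injective, Finset.card_range]
    intro i i' hi
    simp only at hi
    omega
  have hJm : ∀ j ∈ J, Even j ∧ N < 3 * j ∧ j < N := by
    intro j hj
    obtain ⟨i, hi, rfl⟩ := Finset.mem_image.1 hj
    rw [Finset.mem_range] at hi
    refine ⟨⟨t + 1 + i, by ring⟩, by omega, by omega⟩
  by_contra hcon
  push Not at hcon
  have hbad : ∀ j ∈ J, ∃ s ∈ (({e₁, e₂, e₃} : Finset Ω) ×ˢ D),
      aeval s.1 C.g = 0 ∧ SqM (Me M θ) (C.th0 Ω s.1 0 (y j) * s.2) := by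
    intro j hj
    obtain ⟨hj1, hj2, hj3⟩ := hJm j hj
    obtain ⟨e', he', d, hd, hs⟩ := hcon N θ (y j) hN hθ hodd (hy j hj1 hj2 hj3).1
    exact ⟨(e', d), Finset.mem_product.2 ⟨hroots e' he', hd⟩, he', hs⟩
  have hcount := Ch_count J (({e₁, e₂, e₃} : Finset Ω) ×ˢ D)
    (fun s j => aeval s.1 C.g = 0 ∧ SqM (Me M θ) (C.th0 Ω s.1 0 (y j) * s.2)) hbad
    (m := Module.finrank K M) (by
      rintro ⟨e', d⟩ hs I hI hp
      by_cases hI0 : I = ∅
      · subst hI0
        simp
      obtain ⟨j₀, hj₀⟩ := Finset.nonempty_iff_ne_empty.2 hI0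
      have he' : aeval e' C.g = 0 := (hp j₀ hj₀).1
      have he'1 : e' ∈ Me (⊥ : IntermediateField K Ω) e := root_mem C L h he he'
      have he'K : e' ∈ Me (Me (⊥ : IntermediateField K Ω) e) θ :=
        (le_sup_left : _ ≤ Me (Me (⊥ : IntermediateField K Ω) e) θ) he'1
      have hMe : Me (Me (Me (⊥ : IntermediateField K Ω) e) θ) e' =
          Me (Me (⊥ : IntermediateField K Ω) e) θ := by
        refine sup_eq_left.2 ?_
        rw [IntermediateField.adjoin_simple_le_iff]
        exact he'K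
      have hmem : ∀ j ∈ I, C.th0 Ω e' 0 (y j) ∈ Me (Me (⊥ : IntermediateField K Ω) e) θ := by
        intro j hj
        obtain ⟨hj1, hj2, hj3⟩ := hJm j (hI hj)
        have h1 := th_mem (M := Me (Me (⊥ : IntermediateField K Ω) e) θ) C he' (u := 0)
          (y := y j) (by
            intro γ hγ
            have h2 := (hy j hj1 hj2 hj3).1 γ hγ
            rw [(C.dt K Ω).smul_px, h2, smul_zero])
        rwa [hMe] at h1
      have hne : ∀ j, C.th0 Ω e' 0 (y j) ≠ 0 := fun j => th_ne C e' he' 0 (y j)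
      have hpair : ∀ j ∈ I, ∀ j' ∈ I, j ≠ j' →
          ¬ SqM (Me (Me (⊥ : IntermediateField K Ω) e) θ)
            (C.th0 Ω e' 0 (y j) * C.th0 Ω e' 0 (y j')) := by
        intro j hj j' hj' hjj
        obtain ⟨hj1, hj2, hj3⟩ := hJm j (hI hj)
        obtain ⟨hj1', hj2', hj3'⟩ := hJm j' (hI hj')
        exact (hy j hj1 hj2 hj3).2 j' hj1' hj2' hj3' hjj e' he'
      have hinj : Set.InjOn (fun j => C.th0 Ω e' 0 (y j)) (I : Set ℕ) := by
        intro j hj j' hj' hjj
        by_contra hne'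
        refine hpair j hj j' hj' hne' ?_
        simp only at hjj
        rw [← hjj]
        exact SqM.self (hmem j hj)
      have hd := hD d (Finset.mem_product.1 hs).2
      have hcard := card_le_of_sq hK1 (I.image fun j => C.th0 Ω e' 0 (y j)) (by
          intro x hx
          obtain ⟨j, hj, rfl⟩ := Finset.mem_image.1 hx
          exact ⟨hmem j hj, hne j⟩) (by
          intro x hx x' hx' hxx
          obtain ⟨j, hj, rfl⟩ := Finset.mem_image.1 hx
          obtain ⟨j', hj', rfl⟩ := Finset.mem_image.1 hx'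
          exact hpair j hj j' hj' fun h1 => hxx (by rw [h1])) (hMM hd.1) hd.2 (by
          intro x hx
          obtain ⟨j, hj, rfl⟩ := Finset.mem_image.1 hx
          exact (hp j hj).2)
      rw [Finset.card_image_of_injOn hinj, hfin] at hcard
      have h5 : N * (3 * I.card) ≤ N * Module.finrank K M := by
        calc N * (3 * I.card) = I.card * (3 * N) := by ring
          _ ≤ _ := hcard
          _ ≤ _ := hle
      exact Nat.le_of_mul_le_mul_left h5 (by omega))
  have h6 : (({e₁, e₂, e₃} : Finset Ω) ×ˢ D).card ≤ 3 * D.card := by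
    rw [Finset.card_product]
    exact Nat.mul_le_mul_right _ Finset.card_le_three
  have h7 : 3 * (2 * t + 1) ≤ 3 * D.card * Module.finrank K M := by
    rw [← hJc]
    exact hcount.trans (Nat.mul_le_mul_right _ h6)
  rw [mul_assoc, ← ht] at h7
  omega

end BE
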