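import Pool.Agent.Lib.MP_f80667_ag.Be.Lh

/-! Dyadic places: the classes `kap` are trivial and the classes `al` are arbitrary. -/

open ZC Polynomial IntermediateField

namespace BE

/-- A power of `r²` moves `t` to `[r⁴, r²)`. -/
theorem d12_zpow {r t : ℝ} (hr : 0 < r) (hr1 : r < 1) (ht : 0 < t) :
    ∃ n : ℤ, r ^ 4 ≤ t * (r ^ (n + 2)) ^ 2 ∧ t * (r ^ (n + 2)) ^ 2 < r ^ 2 := by
  obtain ⟨n, hn1, hn2⟩ := exists_mem_Ico_zpow ht
    (one_lt_inv_iff₀.2 ⟨pow_pos hr 2, pow_lt_one₀ hr.le hr1 two_ne_zero⟩)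
  have hpos : 0 < (r ^ 2) ^ n := zpow_pos (pow_pos hr 2) n
  have h0 : t * (r ^ (n + 2)) ^ 2 = t * (r ^ 2) ^ n * r ^ 4 := by
    rw [← zpow_natCast, ← zpow_mul, mul_assoc, ← zpow_natCast r 4, ← zpow_natCast r 2, ← zpow_mul,
      ← zpow_add₀ hr.ne']
    congr 2
    push_cast
    ring
  refine ⟨n, ?_, ?_⟩
  · rw [h0]
    refine le_mul_of_one_le_left (pow_pos hr 4).le ?_
    rw [inv_zpow, inv_le_iff_one_le_mul₀ hpos] at hn1
    exact hn1
  · rw [h0]
    rw [zpow_add_one₀ (inv_ne_zero (pow_pos hr 2).ne'), inv_zpow, ← mul_inv,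
      lt_inv_comm₀ ht (mul_pos hpos (pow_pos hr 2))] at hn2
    have h5 : t * ((r ^ 2) ^ n * r ^ 2) < 1 := by
      calc t * ((r ^ 2) ^ n * r ^ 2) < t * t⁻¹ := mul_lt_mul_of_pos_left hn2 ht
        _ = 1 := mul_inv_cancel₀ ht.ne'
    calc t * (r ^ 2) ^ n * r ^ 4 = (t * ((r ^ 2) ^ n * r ^ 2)) * r ^ 2 := by ring
      _ < r ^ 2 := mul_lt_of_lt_one_left (pow_pos hr 2) h5

variable {F : Type} [Field F] {K : Type} [Field K] [CharZero K] [Algebra F K] {Ω : Type} [Field Ω]
  [Algebra K Ω] [Algebra F Ω] [IsScalarTower F K Ω] [IsAlgClosure K Ω] (C : Cf F) (L : Lf K Ω)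

omit [CharZero K] [IsAlgClosure K Ω] in
theorem d12_mem (M : IntermediateField K Ω) (c : F) : algebraMap F Ω c ∈ M := by
  rw [IsScalarTower.algebraMap_apply F K Ω]
  exact M.algebraMap_mem _

omit [CharZero K] [IsAlgClosure K Ω] in
theorem d12_four (M : IntermediateField K Ω) : (4 : Ω) ∈ M := by
  have := M.natCast_mem 4
  rwa [Nat.cast_ofNat] at this

omit [CharZero K] [IsAlgClosure K Ω] [Algebra F K] [IsScalarTower F K Ω] in
/-- The coefficient `a` is a square in `M`. -/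
theorem d12_sq {L : Lf K Ω} (h : L.H3 C) (M : IntermediateField K Ω) :
    SqM M (algebraMap F Ω C.a) := SqM.mono bot_le h.sq

omit [CharZero K] [IsAlgClosure K Ω] [Algebra F K] [IsScalarTower F K Ω] in
theorem d12_a_ne {L : Lf K Ω} (h : L.H3 C) : algebraMap F Ω C.a ≠ 0 :=
  L.ne_zero (by rw [h.ha]; exact one_pos)

omit [CharZero K] [IsAlgClosure K Ω] [Algebra F K] [IsScalarTower F K Ω] in
theorem d12_two_pos (C : Cf F) (L : Lf K Ω) : 0 < L.nm 2 := L.pos (C.two_ne Ω)

omit [CharZero K] [IsAlgClosure K Ω] in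
theorem d12_nm_four (L : Lf K Ω) : L.nm 4 = L.nm 2 ^ 2 := by
  rw [← L.pow]
  norm_num

omit [IsAlgClosure K Ω] in
/-- A number close to `a` is a square. -/
theorem d12_close {L : Lf K Ω} (h : L.H3 C) {M : IntermediateField K Ω} [FiniteDimensional K M]
    {x : Ω} (hx : x ∈ M) (hc : L.nm (x - algebraMap F Ω C.a) < L.nm 4) : SqM M x := by
  have h1 := L.sq' M hx (d12_mem M C.a) (d12_a_ne C h) (by rw [h.ha, mul_one]; exact hc)
  exact SqM.of_mul (d12_mem M C.a) (d12_a_ne C h) h1 (d12_sq C h M)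

/-- Proof: `X' = kap u`, `X' ((X' - a)² - 4 b) = Y'²` with `Y' ∈ M` (`exists_r`, `Y' = r (x - b / x)`). Let `D = X' - a`. If `‖D‖² > ‖b‖` then
`D² - 4 b = D² (1 - 4 b / D²)` is a square `≠ 0` (`Lf.sq`), so `X'` is a square. Otherwise `‖D‖² ≤ ‖b‖ ≤ ‖2‖^7`, `‖D‖ < ‖4‖`, and `X'` is close to the square `a`:
`Lf.sq'`. The special value `a² - 4 b` of `kap` is a square too. -/
theorem kap_sq (h : L.H3 C) {M : IntermediateField K Ω} [FiniteDimensional K M] {u : Pt C.W₁ Ω}
    (hu : (C.dt K Ω).UU M.fixingSubgroup u) : SqM M (C.kap Ω u) := by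
  classical
  have h2 := d12_two_pos C L
  have h4 : L.nm 4 = L.nm 2 ^ 2 := d12_nm_four L
  have hb7 := h.hb
  have ha0 := d12_a_ne C h
  have h1sq : SqM M (1 : Ω) := ⟨1, M.one_mem, (one_pow 2).symm⟩
  have hkM := kap_mem C hu
  rcases Pt.cases' u with rfl | ⟨x, y, hxy, rfl⟩
  · exact h1sq
  · change SqM M (if x = 0 then 1 else if y = 0 then algebraMap F Ω (C.a ^ 2 - 4 * C.b)
      else (y / x) ^ 2)
    change (if x = 0 then 1 else if y = 0 then algebraMap F Ω (C.a ^ 2 - 4 * C.b)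
      else (y / x) ^ 2) ∈ M at hkM
    by_cases hx : x = 0
    · rw [if_pos hx]
      exact h1sq
    · rw [if_neg hx] at hkM ⊢
      by_cases hy : y = 0
      · rw [if_pos hy]
        have h5 : L.nm (-(4 * algebraMap F Ω C.b / algebraMap F Ω C.a ^ 2)) < L.nm 4 := by
          rw [L.neg, L.div, L.mul, L.pow, h.ha, one_pow, div_one]
          refine mul_lt_of_lt_one_right (by rw [h4]; positivity) (hb7.trans_lt ?_)
          exact pow_lt_one₀ h2.le h.two (by norm_num)
        obtain ⟨s, hs, h6⟩ := L.sq M (M.neg_mem (M.div_mem (M.mul_mem (d12_four M)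
          (d12_mem M C.b)) (pow_mem (d12_mem M C.a) 2))) h5
        refine ⟨s * algebraMap F Ω C.a, M.mul_mem hs (d12_mem M C.a), ?_⟩
        rw [mul_pow, ← h6, map_sub, map_pow, map_mul, map_ofNat]
        field_simp
        ring
      · rw [if_neg hy] at hkM ⊢
        have he := C.eq₁ hxy
        -- the number `Y'`
        obtain ⟨Y', hY'⟩ : ∃ Y', Y' = y / x * (x - algebraMap F Ω C.b / x) := ⟨_, rfl⟩
        have hYM : Y' ∈ M := by
          refine mem_of_fix M fun γ hγ => ?_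
          obtain ⟨hg, hgam⟩ := gal_aff γ hxy
          obtain ⟨ht, htt⟩ := C.add_t₁ hxy hx
          rcases hu γ hγ with h7 | h7
          · obtain ⟨h8, h9⟩ := (Gal_smul_aff hxy γ).1 h7
            rw [hY']
            simp only [map_mul, map_div₀, map_sub, h8, h9, gal_F]
          · have h8 : γ • Pt.aff x y hxy = Pt.aff x y hxy + C.t Ω := h7
            rw [hgam, htt] at h8
            obtain ⟨h9, h10⟩ := Pt.aff_inj h8
            rw [hY']
            simp only [map_mul, map_div₀, map_sub, h9, h10, gal_F]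
            have hb0 := C.b_ne Ω
            field_simp
            ring
        obtain ⟨X', hX'⟩ : ∃ X', X' = (y / x) ^ 2 := ⟨_, rfl⟩
        rw [← hX'] at hkM ⊢
        have hXe : X' = x + algebraMap F Ω C.a + algebraMap F Ω C.b / x := by
          rw [hX', div_pow, he]
          field_simp
        have hrel : X' * ((X' - algebraMap F Ω C.a) ^ 2 - 4 * algebraMap F Ω C.b) = Y' ^ 2 := by
          have h7 : (X' - algebraMap F Ω C.a) ^ 2 - 4 * algebraMap F Ω C.b =
              (x - algebraMap F Ω C.b / x) ^ 2 := by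
            rw [hXe]
            field_simp
            ring
          rw [h7, hY', mul_pow, hX']
        obtain ⟨D, hD⟩ : ∃ D, D = X' - algebraMap F Ω C.a := ⟨_, rfl⟩
        rw [← hD] at hrel
        have hDM : D ∈ M := by
          rw [hD]
          exact M.sub_mem hkM (d12_mem M C.a)
        by_cases hlt : L.nm (algebraMap F Ω C.b) < L.nm D ^ 2
        · have hD0 : D ≠ 0 := by
            rintro rfl
            rw [(L.zero_iff 0).2 rfl, zero_pow two_ne_zero] at hlt
            exact absurd hlt (not_lt.2 (L.nonneg _))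
          have h5 : L.nm (-(4 * algebraMap F Ω C.b / D ^ 2)) < L.nm 4 := by
            rw [L.neg, L.div, L.mul, L.pow, mul_div_assoc]
            refine mul_lt_of_lt_one_right (by rw [h4]; positivity) ?_
            rw [div_lt_one (pow_pos (L.pos hD0) 2)]
            exact hlt
          obtain ⟨s, hs, h6⟩ := L.sq M (M.neg_mem (M.div_mem (M.mul_mem (d12_four M)
            (d12_mem M C.b)) (pow_mem hDM 2))) h5
          have h8 : D ^ 2 - 4 * algebraMap F Ω C.b = (s * D) ^ 2 := by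
            rw [mul_pow, ← h6]
            field_simp
            ring
          have h9 : 1 + -(4 * algebraMap F Ω C.b / D ^ 2) ≠ 0 := by
            refine L.ne_zero ?_
            rw [L.one_add (h5.trans_le ?_)]
            · exact one_pos
            · rw [h4]
              exact pow_le_one₀ h2.le h.two.le
          have hs0 : s ≠ 0 := by
            rintro rfl
            rw [zero_pow two_ne_zero] at h6
            exact h9 h6
          refine ⟨Y' / (s * D), M.div_mem hYM (M.mul_mem hs hDM), ?_⟩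
          rw [div_pow, ← hrel, h8, mul_div_cancel_right₀ _ (pow_ne_zero 2 (mul_ne_zero hs0 hD0))]
        · rw [not_lt] at hlt
          refine d12_close C h hkM ?_
          rw [← hD]
          by_contra hge
          rw [not_lt, h4] at hge
          have h5 : (L.nm 2 ^ 2) ^ 2 ≤ L.nm 2 ^ 7 :=
            (pow_le_pow_left₀ (by positivity) hge 2).trans (hlt.trans hb7)
          rw [← pow_mul] at h5
          exact absurd (pow_lt_pow_right_of_lt_one₀ h2 h.two (by norm_num : 2 * 2 < 7))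
            (not_lt.2 h5)

/-- Proof: `kap_sq`, `kap_fix`. -/
theorem fix_of_uu (h : L.H3 C) {M : IntermediateField K Ω} [FiniteDimensional K M]
    {u : Pt C.W₁ Ω} (hu : (C.dt K Ω).UU M.fixingSubgroup u) : ∀ γ ∈ M.fixingSubgroup, γ • u = u :=
  (kap_fix C hu).1 (kap_sq C L h hu)

/-- Proof: `half₁`, `fix_of_uu`. -/
theorem half_al (h : L.H3 C) {M : IntermediateField K Ω} [FiniteDimensional K M]
    {u : Pt C.W₁ Ω} (hu : ∀ γ ∈ M.fixingSubgroup, γ • u = u) (hs : SqM M (C.al u)) :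
    ∃ τ : Pt C.W₁ Ω, (∀ γ ∈ M.fixingSubgroup, γ • τ = τ) ∧ τ + τ = u := by
  obtain ⟨τ, h1, h2⟩ := half₁ C hu hs
  exact ⟨τ, fix_of_uu C L h h1, h2⟩

/-- Proof: multiply `c` by a power of `4` such that `‖2‖^5 < ‖X‖ < ‖4‖` for `X = c 4^k`. Then `X² + a X + b = X (a + X + b / X)` and `a + X + b / X` is close to the
square `a` (`Lf.sq'`), so `X (X² + a X + b)` is a square in `M`. -/
theorem al_onto (h : L.H3 C) {M : IntermediateField K Ω} [FiniteDimensional K M] {c : Ω}
    (hc : c ∈ M) (h0 : c ≠ 0) :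
    ∃ u : Pt C.W₁ Ω, (∀ γ ∈ M.fixingSubgroup, γ • u = u) ∧ SqM M (c * C.al u) := by
  classical
  have h2 := d12_two_pos C L
  have h4 : L.nm 4 = L.nm 2 ^ 2 := d12_nm_four L
  have h2' : (2 : Ω) ≠ 0 := C.two_ne Ω
  have h2M : (2 : Ω) ∈ M := by
    have := M.natCast_mem 2
    rwa [Nat.cast_ofNat] at this
  obtain ⟨n, hn1, hn2⟩ := d12_zpow h2 h.two (L.pos h0)
  obtain ⟨X, hX⟩ : ∃ X, X = c * (2 ^ (n + 2)) ^ 2 := ⟨_, rfl⟩
  have hnX : L.nm X = L.nm c * (L.nm 2 ^ (n + 2)) ^ 2 := by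
    rw [hX, L.mul, L.pow, L.zpow]
  have hlo : L.nm 2 ^ 4 ≤ L.nm X := by
    rw [hnX]
    exact hn1
  have hup : L.nm X < L.nm 4 := by
    rw [hnX, h4]
    exact hn2
  have hXM : X ∈ M := by
    rw [hX]
    exact M.mul_mem hc (pow_mem (M.pow_mem h2M _) 2)
  have hX0 : X ≠ 0 := L.ne_zero (lt_of_lt_of_le (pow_pos h2 4) hlo)
  have hAM : algebraMap F Ω C.a + (X + algebraMap F Ω C.b / X) ∈ M :=
    M.add_mem (d12_mem M C.a) (M.add_mem hXM (M.div_mem (d12_mem M C.b) hXM))
  obtain ⟨s, hs, hAs⟩ : SqM M (algebraMap F Ω C.a + (X + algebraMap F Ω C.b / X)) := by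
    refine d12_close C h hAM ?_
    rw [add_sub_cancel_left]
    refine lt_of_le_of_lt (L.add _ _) (max_lt hup ?_)
    rw [L.div, h4]
    calc L.nm (algebraMap F Ω C.b) / L.nm X ≤ L.nm 2 ^ 7 / L.nm 2 ^ 4 :=
          div_le_div₀ (pow_pos h2 7).le h.hb (pow_pos h2 4) hlo
      _ = L.nm 2 ^ 3 := by
          field_simp
      _ < L.nm 2 ^ 2 := pow_lt_pow_right_of_lt_one₀ h2 h.two (by norm_num)
  have heq : (X * s) ^ 2 = X ^ 3 + algebraMap F Ω C.a * X ^ 2 + algebraMap F Ω C.b * X := by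
    rw [mul_pow, ← hAs]
    field_simp
    ring
  refine ⟨C.pt₁ X (X * s) heq, ?_, ?_⟩
  · exact (fix_aff M _).2 ⟨hXM, M.mul_mem hXM hs⟩
  · change SqM M (c * if X = 0 then algebraMap F Ω C.b else X)
    rw [if_neg hX0]
    refine ⟨c * 2 ^ (n + 2), M.mul_mem hc (M.pow_mem h2M _), ?_⟩
    rw [hX]
    ring

end BE
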