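import Pool.Agent.Lib.MP_f80667_ag.Be.LfE
import Pool.Agent.Lib.MP_f80667_ag.Hm.Defs

/-!
Places of a finite extension `N` of the number field `F` above the finite place `v` and embeddings of `N` in
the algebraic closure `Ω` of the completion `F_v`.

* `Lg L`: the absolute value `L` on `Ω` extends the valuation `v`, `F` is dense in `F_v`.
* `Cmp L i w`: the place `w` of `N` is given by the embedding `i` and the absolute value `L`.
-/

open ZC Polynomial IntermediateField IsDedekindDomain NumberField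

namespace BE

section dfs

variable {F : Type} [Field F] [NumberField F] {v : HeightOneSpectrum (𝓞 F)}

/-- `L` extends the valuation `v`; `F` is dense in `F_v`. -/
structure Lg (L : Lf (FK F v) (AlgebraicClosure (FK F v))) : Prop where
  cmp : ∀ x y : F, v.valuation F x < v.valuation F y ↔
    L.nm (algebraMap F _ x) < L.nm (algebraMap F _ y)
  dense : ∀ (z : FK F v) (ε : ℝ), 0 < ε →
    ∃ x : F, L.nm (algebraMap (FK F v) _ z - algebraMap F _ x) < ε

/-- The place `w` is given by the embedding `i`. -/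
def Cmp {N : Type} [Field N] [NumberField N] {Ω : Type} [Field Ω] {K : Type} [Field K] [Algebra K Ω]
    (L : Lf K Ω) (i : N →+* Ω) (w : HeightOneSpectrum (𝓞 N)) : Prop :=
  ∀ x y : N, w.valuation N x < w.valuation N y ↔ L.nm (i x) < L.nm (i y)

end dfs

section gen

variable {N : Type} [Field N] [NumberField N] {Ω : Type} [Field Ω] {K : Type} [Field K] [Algebra K Ω]
  {L : Lf K Ω} {i : N →+* Ω} {w w' : HeightOneSpectrum (𝓞 N)}

theorem Cmp.le (h : Cmp L i w) (x y : N) :
    w.valuation N x ≤ w.valuation N y ↔ L.nm (i x) ≤ L.nm (i y) := by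
  rw [← not_lt, ← not_lt, h y x]

theorem Cmp.eq (h : Cmp L i w) (x y : N) :
    w.valuation N x = w.valuation N y ↔ L.nm (i x) = L.nm (i y) := by
  rw [le_antisymm_iff, le_antisymm_iff, h.le, h.le]

theorem Cmp.lt_one (h : Cmp L i w) (x : N) : w.valuation N x < 1 ↔ L.nm (i x) < 1 := by
  have h1 := h x 1
  rwa [map_one, map_one, L.one] at h1

theorem Cmp.eq_one (h : Cmp L i w) (x : N) : w.valuation N x = 1 ↔ L.nm (i x) = 1 := by
  have h1 := h.eq x 1
  rwa [map_one, map_one, L.one] at h1

/-- Proof: `w.asIdeal` is the set of the `x ∈ 𝓞 N` with `nm (i x) < 1`. -/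
theorem Cmp.inj (h : Cmp L i w) (h' : Cmp L i w') : w = w' := by
  apply HeightOneSpectrum.ext
  ext x
  rw [← w.valuation_lt_one_iff_mem (K := N), ← w'.valuation_lt_one_iff_mem (K := N), h.lt_one,
    h'.lt_one]

/-- Conjugate embeddings give the same place. -/
theorem Cmp.act (h : Cmp L i w) (γ : Ω ≃ₐ[K] Ω) : Cmp L ((γ : Ω →+* Ω).comp i) w := by
  intro x y
  rw [h x y]
  have h1 : ∀ z : N, L.nm (((γ : Ω →+* Ω).comp i) z) = L.nm (i z) := fun z => L.act γ (i z)
  rw [h1, h1]

end gen

variable {F : Type} [Field F] [NumberField F] {v : HeightOneSpectrum (𝓞 F)}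

/-- Proof: `exists_lf`; density: an integer `z` of `F_v` is congruent to some `a ∈ 𝓞 F`, and `z - a = π z'` with `π ∈ F` of valuation `exp (- 1)`, `z'` integral; iterate. -/
theorem exists_lg (v : HeightOneSpectrum (𝓞 F)) :
    ∃ L : Lf (FK F v) (AlgebraicClosure (FK F v)), Lg L := by
  obtain ⟨L, c, hc0, hc1, h1, h2, h3⟩ := exists_lf F v
  refine ⟨L, ?_, ?_⟩
  · have hv : ∀ x : F, x ≠ 0 → ∃ n : ℤ, v.valuation F x = WithZero.exp (-n) := by
      intro x hx
      have h0 : v.valuation F x ≠ 0 := (Valuation.ne_zero_iff _).2 hx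
      refine ⟨-WithZero.log (v.valuation F x), ?_⟩
      rw [neg_neg, WithZero.exp_log h0]
    intro x y
    by_cases hy : y = 0
    · rw [hy, map_zero, map_zero, (L.zero_iff 0).2 rfl]
      exact ⟨fun h => absurd h not_lt_zero, fun h => absurd h (not_lt.2 (L.nonneg _))⟩
    by_cases hx : x = 0
    · have hy' : algebraMap F (AlgebraicClosure (FK F v)) y ≠ 0 := by
        rwa [Ne, map_eq_zero]
      rw [hx, map_zero, map_zero, (L.zero_iff 0).2 rfl]
      exact ⟨fun _ => L.pos hy', fun _ => zero_lt_iff.2 ((Valuation.ne_zero_iff _).2 hy)⟩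
    obtain ⟨m, hm⟩ := hv x hx
    obtain ⟨n, hn⟩ := hv y hy
    rw [hm, hn, h1 x m hm, h1 y n hn, WithZero.exp_lt_exp, neg_lt_neg_iff,
      zpow_lt_zpow_iff_right_of_lt_one₀ hc0 hc1]
  · obtain ⟨ϖ, hϖ⟩ := v.valuation_exists_uniformizer F
    have hϖc : L.nm (algebraMap F _ ϖ) = c := by
      have h4 := h1 ϖ 1 hϖ
      rwa [zpow_one] at h4
    have hϖ0 : algebraMap F (AlgebraicClosure (FK F v)) ϖ ≠ 0 := by
      intro h
      rw [h, (L.zero_iff 0).2 rfl] at hϖc
      exact hc0.ne hϖc
    have hT : ∀ x : F, algebraMap F (AlgebraicClosure (FK F v)) x =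
        algebraMap (FK F v) _ (algebraMap F (FK F v) x) :=
      fun x => IsScalarTower.algebraMap_apply F (FK F v) _ x
    have hint : ∀ (n : ℕ) (z : FK F v), L.nm (algebraMap _ _ z) ≤ 1 →
        ∃ x : F, L.nm (algebraMap (FK F v) _ z - algebraMap F _ x) ≤ c ^ n := by
      intro n
      induction n with
      | zero =>
        intro z hz
        refine ⟨0, ?_⟩
        rw [map_zero, sub_zero, pow_zero]
        exact hz
      | succ n ih =>
        intro z hz
        obtain ⟨a, ha⟩ := h3 z hz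
        obtain ⟨a', ha'⟩ : ∃ a' : F, a' = algebraMap (𝓞 F) F a := ⟨_, rfl⟩
        rw [← ha'] at ha
        obtain ⟨z', hz'⟩ : ∃ z' : FK F v, z' = (z - algebraMap F _ a') / algebraMap F _ ϖ :=
          ⟨_, rfl⟩
        have hϖK : algebraMap F (FK F v) ϖ ≠ 0 := by
          intro h
          rw [hT, h, map_zero] at hϖ0
          exact hϖ0 rfl
        have hzz : z - algebraMap F _ a' = algebraMap F _ ϖ * z' := by
          rw [hz', mul_div_cancel₀ _ hϖK]
        have h4 : algebraMap (FK F v) (AlgebraicClosure (FK F v)) z - algebraMap F _ a' =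
            algebraMap F _ ϖ * algebraMap _ _ z' := by
          rw [hT, hT, ← map_sub, hzz, map_mul]
        have h5 : L.nm (algebraMap (FK F v) (AlgebraicClosure (FK F v)) z') ≤ 1 := by
          by_cases h0 : z' = 0
          · rw [h0, map_zero, (L.zero_iff 0).2 rfl]
            exact zero_le_one
          · obtain ⟨k, hk⟩ := h2 z' h0
            rw [h4, L.mul, hϖc, hk, ← zpow_one_add₀ hc0.ne', ← zpow_zero c,
              zpow_lt_zpow_iff_right_of_lt_one₀ hc0 hc1] at ha
            rw [hk, ← zpow_zero c, zpow_le_zpow_iff_right_of_lt_one₀ hc0 hc1]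
            omega
        obtain ⟨x', hx'⟩ := ih z' h5
        refine ⟨a' + ϖ * x', ?_⟩
        have h6 : algebraMap (FK F v) (AlgebraicClosure (FK F v)) z -
            algebraMap F _ (a' + ϖ * x') =
            algebraMap F _ ϖ * (algebraMap _ _ z' - algebraMap F _ x') := by
          rw [map_add, map_mul, mul_sub, ← h4]
          ring
        rw [h6, L.mul, hϖc, pow_succ']
        exact mul_le_mul_of_nonneg_left hx' hc0.le
    intro z ε hε
    obtain ⟨k, hk⟩ : ∃ k : ℕ, L.nm (algebraMap (FK F v) _ (algebraMap F _ ϖ ^ k * z)) ≤ 1 := by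
      by_cases h0 : z = 0
      · refine ⟨0, ?_⟩
        rw [h0, mul_zero, map_zero, (L.zero_iff 0).2 rfl]
        exact zero_le_one
      · obtain ⟨m, hm⟩ := h2 z h0
        refine ⟨m.natAbs, ?_⟩
        rw [map_mul, map_pow, ← hT, L.mul, L.pow, hϖc, hm, ← zpow_natCast, ← zpow_add₀ hc0.ne',
          ← zpow_zero c, zpow_le_zpow_iff_right_of_lt_one₀ hc0 hc1]
        omega
    obtain ⟨n, hn⟩ := exists_pow_lt_of_lt_one hε hc1
    obtain ⟨x, hx⟩ := hint (n + k) _ hk
    refine ⟨(ϖ ^ k)⁻¹ * x, ?_⟩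
    have hϖk : algebraMap F (AlgebraicClosure (FK F v)) ϖ ^ k ≠ 0 := pow_ne_zero _ hϖ0
    have h4 : algebraMap (FK F v) _ (algebraMap F _ ϖ ^ k * z) -
        algebraMap F (AlgebraicClosure (FK F v)) x = algebraMap F _ ϖ ^ k *
        (algebraMap (FK F v) _ z - algebraMap F _ ((ϖ ^ k)⁻¹ * x)) := by
      rw [map_mul, map_pow, ← hT, mul_sub, map_mul, map_inv₀, map_pow, mul_inv_cancel_left₀ hϖk]
    rw [h4, L.mul, L.pow, hϖc, pow_add, mul_comm] at hx
    have h5 := le_of_mul_le_mul_right hx (pow_pos hc0 k)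
    exact h5.trans_lt hn

/-- Divisibility in the localization. -/
theorem DcA_dvd {N : Type} [Field N] [NumberField N] (w : HeightOneSpectrum (𝓞 N)) (r s : 𝓞 N) :
    (∃ a b : 𝓞 N, b ∉ w.asIdeal ∧ r * a = s * b) ∨ ∃ a b : 𝓞 N, b ∉ w.asIdeal ∧ s * a = r * b := by
  have hd : IsDiscreteValuationRing (Localization.AtPrime w.asIdeal) :=
    IsLocalization.AtPrime.isDiscreteValuationRing_of_dedekind_domain (𝓞 N) w.ne_bot _
  have hinj : Function.Injective (algebraMap (𝓞 N) (Localization.AtPrime w.asIdeal)) :=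
    IsLocalization.injective _ w.asIdeal.primeCompl_le_nonZeroDivisors
  have key : ∀ r s : 𝓞 N, algebraMap (𝓞 N) (Localization.AtPrime w.asIdeal) r ∣
      algebraMap (𝓞 N) (Localization.AtPrime w.asIdeal) s →
      ∃ a b : 𝓞 N, b ∉ w.asIdeal ∧ r * a = s * b := by
    rintro r s ⟨z, hz⟩
    obtain ⟨a, b, hab⟩ := IsLocalization.exists_mk'_eq w.asIdeal.primeCompl z
    refine ⟨a, b, b.2, hinj ?_⟩
    have h1 := IsLocalization.mk'_spec (Localization.AtPrime w.asIdeal) a b
    rw [hab] at h1
    rw [map_mul, map_mul, hz, mul_assoc, h1]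
  rcases ValuationRing.dvd_total (algebraMap (𝓞 N) (Localization.AtPrime w.asIdeal) r)
    (algebraMap (𝓞 N) (Localization.AtPrime w.asIdeal) s) with h | h
  · exact Or.inl (key r s h)
  · exact Or.inr (key s r h)

/-- Elements which are integral at `w`. -/
theorem DcA_loc {N : Type} [Field N] [NumberField N] (w : HeightOneSpectrum (𝓞 N)) (x : N)
    (hx : w.valuation N x ≤ 1) :
    ∃ r s : 𝓞 N, s ∉ w.asIdeal ∧ x * algebraMap (𝓞 N) N s = algebraMap (𝓞 N) N r := by
  obtain ⟨r, s, hs, rfl⟩ := IsFractionRing.div_surjective (A := 𝓞 N) x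
  have hs0 : algebraMap (𝓞 N) N s ≠ 0 := by
    rw [Ne, FaithfulSMul.algebraMap_eq_zero_iff]
    exact nonZeroDivisors.ne_zero hs
  rcases DcA_dvd w r s with ⟨a, b, hb, h⟩ | ⟨a, b, hb, h⟩
  · have h' : algebraMap (𝓞 N) N r * algebraMap (𝓞 N) N a =
        algebraMap (𝓞 N) N s * algebraMap (𝓞 N) N b := by
      rw [← map_mul, h, map_mul]
    have h1 : algebraMap (𝓞 N) N r / algebraMap (𝓞 N) N s * algebraMap (𝓞 N) N a =
        algebraMap (𝓞 N) N b := by
      rw [div_mul_eq_mul_div, h', mul_div_cancel_left₀ _ hs0]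
    refine ⟨b, a, fun ha => ?_, h1⟩
    have h2 : w.valuation N (algebraMap (𝓞 N) N b) = 1 :=
      w.valuation_eq_one_iff_notMem.2 hb
    have h3 : w.valuation N (algebraMap (𝓞 N) N a) < 1 := (w.valuation_lt_one_iff_mem a).2 ha
    rw [← h1, map_mul] at h2
    have h4 := (mul_le_of_le_one_left' hx).trans_lt h3
    rw [h2] at h4
    exact lt_irrefl _ h4
  · refine ⟨a, b, hb, ?_⟩
    have h' : algebraMap (𝓞 N) N s * algebraMap (𝓞 N) N a =
        algebraMap (𝓞 N) N r * algebraMap (𝓞 N) N b := by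
      rw [← map_mul, h, map_mul]
    rw [div_mul_eq_mul_div, ← h', mul_div_cancel_left₀ _ hs0]

/-- Algebraic integers are integral. -/
theorem DcA_int {N : Type} [Field N] [NumberField N] {Ω : Type} [Field Ω] {K : Type} [Field K]
    [Algebra K Ω] (L : Lf K Ω) (i : N →+* Ω) (x : 𝓞 N) : L.nm (i (algebraMap (𝓞 N) N x)) ≤ 1 := by
  have hx : IsIntegral ℤ (i (algebraMap (𝓞 N) N x)) := by
    have h1 : IsIntegral ℤ (algebraMap (𝓞 N) N x) := x.2
    exact h1.map i.toIntAlgHom
  have hm := minpoly.monic hx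
  refine L.root_le (f := (minpoly ℤ (i (algebraMap (𝓞 N) N x))).map (algebraMap ℤ Ω))
    (hm.map _) (fun n => ?_) ?_
  · rw [coeff_map]
    exact L.int_le _
  · rw [eval_map_algebraMap]
    exact minpoly.aeval _ _

variable {L : Lf (FK F v) (AlgebraicClosure (FK F v))} (hL : Lg L) {N : Type} [Field N]
  [NumberField N] [Algebra F N]

include hL

/-- Every embedding gives a place above `v`. Proof: `w.asIdeal` is the set of the `x ∈ 𝓞 N` with `nm (i x) < 1`; a uniformizer `π` of `w`: every `x ∈ N^*` is `π^n a / b` with `a`, `b ∈ 𝓞 N` not in `w`. -/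
theorem exists_cmp (i : N →ₐ[F] AlgebraicClosure (FK F v)) :
    ∃ w : HeightOneSpectrum (𝓞 N), Cmp L (i : N →+* AlgebraicClosure (FK F v)) w ∧
      w.under (𝓞 F) = v := by
  have hF : ∀ x : F, i (algebraMap F N x) = algebraMap F _ x := fun x => i.commutes x
  have hlt : ∀ a : 𝓞 F, a ∈ v.asIdeal ↔
      L.nm (algebraMap F (AlgebraicClosure (FK F v)) (algebraMap (𝓞 F) F a)) < 1 := by
    intro a
    have h1 := hL.cmp (algebraMap (𝓞 F) F a) 1
    rw [map_one, map_one, L.one] at h1
    rw [← h1]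
    exact (v.valuation_lt_one_iff_mem a).symm
  have hint : ∀ x : 𝓞 N, L.nm (i (algebraMap (𝓞 N) N x)) ≤ 1 :=
    fun x => DcA_int L (i : N →+* AlgebraicClosure (FK F v)) x
  -- the prime ideal
  let P : Ideal (𝓞 N) :=
    { carrier := {x | L.nm (i (algebraMap (𝓞 N) N x)) < 1}
      add_mem' := fun {a b} ha hb => by
        change L.nm (i (algebraMap (𝓞 N) N (a + b))) < 1
        rw [map_add, map_add]
        exact (L.add _ _).trans_lt (max_lt ha hb)
      zero_mem' := by
        change L.nm (i (algebraMap (𝓞 N) N 0)) < 1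
        rw [map_zero, map_zero, (L.zero_iff 0).2 rfl]
        exact zero_lt_one
      smul_mem' := fun a b hb => by
        change L.nm (i (algebraMap (𝓞 N) N (a * b))) < 1
        rw [map_mul, map_mul, L.mul]
        exact (mul_le_of_le_one_left (L.nonneg _) (hint a)).trans_lt hb }
  have hP : ∀ x : 𝓞 N, x ∈ P ↔ L.nm (i (algebraMap (𝓞 N) N x)) < 1 := fun x => Iff.rfl
  have hPp : P.IsPrime := by
    refine ⟨?_, ?_⟩
    · rw [Ideal.ne_top_iff_one, hP, map_one, map_one, L.one]
      exact lt_irrefl _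
    · intro x y hxy
      by_contra hcon
      rw [not_or, hP, hP, not_lt, not_lt] at hcon
      rw [hP, map_mul, map_mul, L.mul] at hxy
      have h1 := mul_le_mul hcon.1 hcon.2 zero_le_one (L.nonneg _)
      rw [one_mul] at h1
      exact absurd hxy (not_lt.2 h1)
  have hPF : ∀ a : 𝓞 F, algebraMap (𝓞 F) (𝓞 N) a ∈ P ↔ a ∈ v.asIdeal := by
    intro a
    have h1 : algebraMap (𝓞 N) N (algebraMap (𝓞 F) (𝓞 N) a) =
        algebraMap F N (algebraMap (𝓞 F) F a) := rfl
    rw [hP, hlt, h1, hF]
  have hPb : P ≠ ⊥ := by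
    intro h
    obtain ⟨a, ha, ha0⟩ := (Submodule.ne_bot_iff _).1 v.ne_bot
    have h1 := (hPF a).2 ha
    rw [h, Ideal.mem_bot] at h1
    have h2 : algebraMap (𝓞 N) N (algebraMap (𝓞 F) (𝓞 N) a) =
        algebraMap F N (algebraMap (𝓞 F) F a) := rfl
    rw [h1, map_zero] at h2
    have h3 := (map_eq_zero (algebraMap F N)).1 h2.symm
    rw [FaithfulSMul.algebraMap_eq_zero_iff] at h3
    exact ha0 h3
  let w : HeightOneSpectrum (𝓞 N) := ⟨P, hPp, hPb⟩
  have hle : ∀ x : N, w.valuation N x ≤ 1 → L.nm (i x) ≤ 1 ∧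
      (w.valuation N x < 1 → L.nm (i x) < 1) := by
    intro x hx
    obtain ⟨r, s, hs, h⟩ := DcA_loc w x hx
    have hs1 : L.nm (i (algebraMap (𝓞 N) N s)) = 1 :=
      le_antisymm (hint s) (not_lt.1 fun h1 => hs ((hP s).2 h1))
    have h1 : L.nm (i x) = L.nm (i (algebraMap (𝓞 N) N r)) := by
      rw [← h, map_mul, L.mul, hs1, mul_one]
    refine ⟨by rw [h1]; exact hint r, fun hlt1 => ?_⟩
    rw [h1, ← hP]
    have h2 : w.valuation N (algebraMap (𝓞 N) N s) = 1 :=
      w.valuation_eq_one_iff_notMem.2 hs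
    have h3 : w.valuation N (algebraMap (𝓞 N) N r) < 1 := by
      rw [← h, map_mul, h2, mul_one]
      exact hlt1
    exact (w.valuation_lt_one_iff_mem r).1 h3
  refine ⟨w, ?_, ?_⟩
  · intro x y
    change w.valuation N x < w.valuation N y ↔ L.nm (i x) < L.nm (i y)
    by_cases hy : y = 0
    · rw [hy, map_zero, map_zero, (L.zero_iff 0).2 rfl]
      exact ⟨fun h => absurd h not_lt_zero, fun h => absurd h (not_lt.2 (L.nonneg _))⟩
    have hy' : 0 < w.valuation N y := zero_lt_iff.2 ((Valuation.ne_zero_iff _).2 hy)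
    have hiy : i y ≠ 0 := (map_ne_zero i).2 hy
    have hypos := L.pos hiy
    constructor
    · intro h
      have h1 : w.valuation N (x / y) < 1 := by
        rw [map_div₀, div_lt_one₀ hy']
        exact h
      have h2 := (hle _ h1.le).2 h1
      rwa [map_div₀, L.div, div_lt_one hypos] at h2
    · intro h
      by_contra hcon
      rw [not_lt] at hcon
      have hx' : 0 < w.valuation N x := hy'.trans_le hcon
      have hx : x ≠ 0 := (Valuation.ne_zero_iff _).1 hx'.ne'
      have hxpos := L.pos ((map_ne_zero i).2 hx)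
      have h1 : w.valuation N (y / x) ≤ 1 := by
        rw [map_div₀, div_le_one₀ hx']
        exact hcon
      have h2 := (hle _ h1).1
      rw [map_div₀, L.div, div_le_one hxpos] at h2
      exact absurd h (not_lt.2 h2)
  · apply HeightOneSpectrum.ext
    ext a
    exact hPF a

/-- `N` is dense in `F_v(i N)`. -/
theorem dense_N (i : N →ₐ[F] AlgebraicClosure (FK F v)) {z : AlgebraicClosure (FK F v)}
    (hz : z ∈ IntermediateField.adjoin (FK F v) (Set.range i)) {ε : ℝ} (hε : 0 < ε) :
    ∃ x : N, L.nm (i x - z) < ε := by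
  let S : IntermediateField (FK F v) (AlgebraicClosure (FK F v)) :=
    { carrier := {z | ∀ ε : ℝ, 0 < ε → ∃ x : N, L.nm (i x - z) < ε}
      mul_mem' := fun {z z'} hz hz' ε hε => by
        have h1 : 0 < L.nm z + 1 := add_pos_of_nonneg_of_pos (L.nonneg _) one_pos
        have h2 : 0 < L.nm z' + 1 := add_pos_of_nonneg_of_pos (L.nonneg _) one_pos
        obtain ⟨x, hx⟩ := hz (min 1 (ε / (L.nm z' + 1))) (lt_min one_pos (div_pos hε h2))
        obtain ⟨x', hx'⟩ := hz' (ε / (L.nm z + 1)) (div_pos hε h1)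
        refine ⟨x * x', ?_⟩
        have h3 : i (x * x') - z * z' = i x * (i x' - z') + (i x - z) * z' := by
          rw [map_mul]
          ring
        have h4 : L.nm (i x) ≤ L.nm z + 1 := by
          have h5 : i x = (i x - z) + z := by ring
          rw [h5]
          refine (L.add _ _).trans (max_le ?_ ?_)
          · exact (hx.le.trans (min_le_left _ _)).trans (le_add_of_nonneg_left (L.nonneg _))
          · exact le_add_of_nonneg_right zero_le_one
        rw [h3]
        refine (L.add _ _).trans_lt (max_lt ?_ ?_)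
        · rw [L.mul]
          refine (mul_le_mul_of_nonneg_right h4 (L.nonneg _)).trans_lt ?_
          rw [mul_comm, ← lt_div_iff₀ h1]
          exact hx'
        · rw [L.mul]
          refine (mul_le_mul_of_nonneg_left (le_add_of_nonneg_right zero_le_one)
            (L.nonneg _)).trans_lt ?_
          rw [← lt_div_iff₀ h2]
          exact hx.trans_le (min_le_right _ _)
      add_mem' := fun {z z'} hz hz' ε hε => by
        obtain ⟨x, hx⟩ := hz ε hε
        obtain ⟨x', hx'⟩ := hz' ε hε
        refine ⟨x + x', ?_⟩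
        have h3 : i (x + x') - (z + z') = (i x - z) + (i x' - z') := by
          rw [map_add]
          ring
        rw [h3]
        exact (L.add _ _).trans_lt (max_lt hx hx')
      algebraMap_mem' := fun c ε hε => by
        obtain ⟨x, hx⟩ := hL.dense c ε hε
        refine ⟨algebraMap F N x, ?_⟩
        rw [i.commutes, L.sub_comm]
        exact hx
      inv_mem' := fun z hz ε hε => by
        by_cases h0 : z = 0
        · refine ⟨0, ?_⟩
          rw [h0, map_zero, inv_zero, sub_zero, (L.zero_iff 0).2 rfl]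
          exact hε
        have hpos := L.pos h0
        obtain ⟨x, hx⟩ := hz (min (L.nm z) (ε * (L.nm z * L.nm z)))
          (lt_min hpos (mul_pos hε (mul_pos hpos hpos)))
        have h1 : L.nm (i x) = L.nm z := L.eq_of_close (hx.trans_le (min_le_left _ _))
        have h2 : i x ≠ 0 := L.ne_zero (by rw [h1]; exact hpos)
        refine ⟨x⁻¹, ?_⟩
        have h3 : i x⁻¹ - z⁻¹ = (z - i x) / (i x * z) := by
          rw [map_inv₀]
          field_simp
        rw [h3, L.div, L.mul, h1, div_lt_iff₀ (mul_pos hpos hpos), L.sub_comm]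
        exact hx.trans_le (min_le_right _ _) }
  have hS : IntermediateField.adjoin (FK F v) (Set.range i) ≤ S := by
    rw [IntermediateField.adjoin_le_iff]
    rintro _ ⟨x, rfl⟩ ε hε
    refine ⟨x, ?_⟩
    rw [sub_self, (L.zero_iff 0).2 rfl]
    exact hε
  exact hS hz ε hε

end BE
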