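import Pool.Agent.Lib.MP_f80667_ag.Be.DcA

/-! Places and embeddings: conjugate embeddings; every place comes from an embedding. -/

open ZC Polynomial IntermediateField IsDedekindDomain NumberField

namespace BE

variable {F : Type} [Field F] [NumberField F] {v : HeightOneSpectrum (𝓞 F)}
  {L : Lf (FK F v) (AlgebraicClosure (FK F v))} (hL : Lg L) {N : Type} [Field N]
  [NumberField N] [Algebra F N]

include hL

/-- There are elements of `F` with small absolute value. -/
theorem DcB_small {δ : ℝ} (hδ : 0 < δ) :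
    ∃ c : F, 0 < L.nm (algebraMap F (AlgebraicClosure (FK F v)) c) ∧
      L.nm (algebraMap F (AlgebraicClosure (FK F v)) c) < δ := by
  have hfin : FiniteDimensional (FK F v)
      (⊥ : IntermediateField (FK F v) (AlgebraicClosure (FK F v))) := inferInstance
  obtain ⟨π, hπ, h0, h1, -⟩ := L.unif ⊥ hfin
  obtain ⟨z, rfl⟩ := IntermediateField.mem_bot.1 hπ
  obtain ⟨n, hn⟩ := exists_pow_lt_of_lt_one hδ h1
  have hz : 0 < L.nm (algebraMap (FK F v) (AlgebraicClosure (FK F v)) (z ^ n)) := by
    rw [map_pow, L.pow]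
    exact pow_pos h0 n
  obtain ⟨c, hc⟩ := hL.dense (z ^ n) _ hz
  rw [L.sub_comm] at hc
  have h2 := L.eq_of_close hc
  refine ⟨c, ?_, ?_⟩
  · rw [h2]
    exact hz
  · rw [h2, map_pow, L.pow]
    exact hn

/-- Approximation of monic polynomials over the completion: the values. -/
theorem DcB_approx (q : (FK F v)[X]) {ε : ℝ} (hε : 0 < ε) :
    ∃ p : F[X], (∀ n, L.nm (algebraMap (FK F v) (AlgebraicClosure (FK F v)) (q.coeff n) -
      algebraMap F (AlgebraicClosure (FK F v)) (p.coeff n)) < ε) ∧ p.natDegree ≤ q.natDegree := by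
  choose a ha using fun n : ℕ => hL.dense (q.coeff n) ε hε
  have hcoeff : ∀ n, (∑ k ∈ Finset.range (q.natDegree + 1), C (a k) * X ^ k : F[X]).coeff n =
      if n < q.natDegree + 1 then a n else 0 := by
    intro n
    rw [finsetSum_coeff]
    simp only [coeff_C_mul, coeff_X_pow, mul_ite, mul_one, mul_zero]
    rw [Finset.sum_ite_eq]
    simp only [Finset.mem_range]
  refine ⟨∑ k ∈ Finset.range (q.natDegree + 1), C (a k) * X ^ k, ?_, ?_⟩
  · intro n
    rw [hcoeff]
    split_ifs with hn
    · exact ha n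
    · rw [coeff_eq_zero_of_natDegree_lt (by omega), map_zero, map_zero, sub_zero,
        (L.zero_iff 0).2 rfl]
      exact hε
  · rw [natDegree_le_iff_coeff_eq_zero]
    intro n hn
    rw [hcoeff, if_neg (by omega)]

omit hL in
/-- The values of two polynomials with close coefficients. -/
theorem DcB_eval (q : (FK F v)[X]) (p : F[X]) (hp : p.natDegree ≤ q.natDegree) {ε : ℝ}
    (hε : 0 ≤ ε)
    (h : ∀ n, L.nm (algebraMap (FK F v) (AlgebraicClosure (FK F v)) (q.coeff n) -
      algebraMap F (AlgebraicClosure (FK F v)) (p.coeff n)) ≤ ε)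
    (x : AlgebraicClosure (FK F v)) {R : ℝ} (hR : 1 ≤ R) (hx : L.nm x ≤ R) :
    L.nm (aeval x q - aeval x p) ≤ ε * R ^ q.natDegree := by
  rw [aeval_eq_sum_range' (Nat.lt_succ_self _), aeval_eq_sum_range' (Nat.lt_succ_of_le hp),
    ← Finset.sum_sub_distrib]
  refine L.sum_le _ _ (mul_nonneg hε (pow_nonneg (zero_le_one.trans hR) _)) ?_
  intro n hn
  rw [Algebra.smul_def, Algebra.smul_def, ← sub_mul, L.mul, L.pow]
  refine mul_le_mul (h n) ?_ (pow_nonneg (L.nonneg _) _) hε
  refine (pow_le_pow_left₀ (L.nonneg _) hx n).trans ?_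
  exact pow_le_pow_right₀ hR (Nat.lt_succ_iff.1 (Finset.mem_range.1 hn))

/-- Embeddings which give the same place are conjugate. Proof: let `θ` be a primitive element of `N / F`, `q` the minimal polynomial of `i θ` over `F_v`, `q_n ∈ F[X]` polynomials whose coefficients tend to those of `q`. Then `nm (i' (q_n θ)) = nm (i (q_n θ))` (same valuation: compare
with elements of `F`, or: `q_n θ` tends to `0` for both) tends to `nm (q (i θ)) = 0`, so `q (i' θ) = 0`. -/
theorem cmp_conj {i i' : N →ₐ[F] AlgebraicClosure (FK F v)} {w : HeightOneSpectrum (𝓞 N)}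
    (h : Cmp L (i : N →+* AlgebraicClosure (FK F v)) w)
    (h' : Cmp L (i' : N →+* AlgebraicClosure (FK F v)) w) :
    ∃ γ : AlgebraicClosure (FK F v) ≃ₐ[FK F v] AlgebraicClosure (FK F v), ∀ x, i' x = γ (i x) := by
  have : FiniteDimensional F N := inferInstance
  have hint : IsIntegral (FK F v) (i (Field.powerBasisOfFiniteOfSeparable F N).gen) :=
    Algebra.IsIntegral.isIntegral _
  set θ : N := (Field.powerBasisOfFiniteOfSeparable F N).gen with hθ
  set q : (FK F v)[X] := minpoly (FK F v) (i θ) with hq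
  have hroot : aeval (i' θ) q = 0 := by
    rw [← L.zero_iff]
    refine le_antisymm (le_of_forall_pos_le_add fun δ hδ => ?_) (L.nonneg _)
    rw [zero_add]
    obtain ⟨c, hc0, hc⟩ := DcB_small hL hδ
    set R : ℝ := max 1 (max (L.nm (i θ)) (L.nm (i' θ))) with hR
    have hR1 : 1 ≤ R := le_max_left _ _
    have hRi : L.nm (i θ) ≤ R := (le_max_left _ _).trans (le_max_right _ _)
    have hRi' : L.nm (i' θ) ≤ R := (le_max_right _ _).trans (le_max_right _ _)
    have hRp : 0 < R ^ q.natDegree := pow_pos (zero_lt_one.trans_le hR1) _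
    set ε : ℝ := L.nm (algebraMap F (AlgebraicClosure (FK F v)) c) / (2 * R ^ q.natDegree) with hε
    have hε0 : 0 < ε := div_pos hc0 (mul_pos two_pos hRp)
    have hεR : ε * R ^ q.natDegree < L.nm (algebraMap F (AlgebraicClosure (FK F v)) c) := by
      have h1 : ε * R ^ q.natDegree = L.nm (algebraMap F (AlgebraicClosure (FK F v)) c) / 2 := by
        rw [hε]
        field_simp
      rw [h1]
      exact half_lt_self hc0
    obtain ⟨p, hp, hpd⟩ := DcB_approx hL q hε0
    have e1 := DcB_eval (L := L) q p hpd hε0.le (fun n => (hp n).le) (i θ) hR1 hRi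
    have e2 := DcB_eval (L := L) q p hpd hε0.le (fun n => (hp n).le) (i' θ) hR1 hRi'
    rw [hq, minpoly.aeval, zero_sub, L.neg, ← hq] at e1
    have a1 : aeval (i θ) p = i (aeval θ p) := aeval_algHom_apply i θ p
    have a2 : aeval (i' θ) p = i' (aeval θ p) := aeval_algHom_apply i' θ p
    have h1 : L.nm (i (aeval θ p)) < L.nm (i (algebraMap F N c)) := by
      rw [← a1, i.commutes]
      exact e1.trans_lt hεR
    have h2 : L.nm (i' (aeval θ p)) < L.nm (i' (algebraMap F N c)) :=
      (h' _ _).1 ((h _ _).2 h1)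
    rw [← a2, i'.commutes] at h2
    have h3 := L.add (aeval (i' θ) q - aeval (i' θ) p) (aeval (i' θ) p)
    rw [sub_add_cancel] at h3
    refine h3.trans (max_le ((e2.trans hεR.le).trans hc.le) (h2.trans hc).le)
  have hmin : q = minpoly (FK F v) (i' θ) :=
    minpoly.eq_of_irreducible_of_monic (minpoly.irreducible hint) hroot (minpoly.monic hint)
  have hconj : IsConjRoot (FK F v) (i' θ) (i θ) := hmin.symm.trans hq
  obtain ⟨γ, hγ⟩ := isConjRoot_iff_exists_algEquiv.1 hconj
  refine ⟨γ, ?_⟩
  have h5 : i' = ((γ : AlgebraicClosure (FK F v) →ₐ[FK F v] AlgebraicClosure (FK F v)).restrictScalars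
      F).comp i := by
    refine (Field.powerBasisOfFiniteOfSeparable F N).algHom_ext ?_
    rw [← hθ]
    exact hγ.symm
  intro x
  exact DFunLike.congr_fun h5 x

/-- Every place above `v` is given by an embedding. Proof: otherwise there is `x ∈ w` which is in none of the places given by embeddings (Chinese remainder theorem); the norm `∏ i x` of `x` has absolute value `1`, but it is in `w ∩ 𝓞 F = v`. -/
theorem cmp_surj {w : HeightOneSpectrum (𝓞 N)} (hw : w.under (𝓞 F) = v) :
    ∃ i : N →ₐ[F] AlgebraicClosure (FK F v), Cmp L (i : N →+* AlgebraicClosure (FK F v)) w := by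
  classical
  have : FiniteDimensional F N := inferInstance
  by_contra hcon
  push Not at hcon
  choose W hW hWu using fun i : N →ₐ[F] AlgebraicClosure (FK F v) => exists_cmp hL i
  have hne : ∀ i, w ≠ W i := by
    intro i hi
    exact hcon i (hi ▸ hW i)
  have hx : ∃ x ∈ w.asIdeal, ∀ i, x ∉ (W i).asIdeal := by
    by_contra hx
    push Not at hx
    have hsub : (w.asIdeal : Set (𝓞 N)) ⊆
        ⋃ i ∈ ((Finset.univ : Finset (N →ₐ[F] AlgebraicClosure (FK F v))) :
          Set (N →ₐ[F] AlgebraicClosure (FK F v))), ((W i).asIdeal : Set (𝓞 N)) := by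
      intro x hxw
      obtain ⟨i, hi⟩ := hx x hxw
      exact Set.mem_iUnion₂.2 ⟨i, Finset.mem_coe.2 (Finset.mem_univ i), hi⟩
    have hi0 : Nonempty (N →ₐ[F] AlgebraicClosure (FK F v)) := by
      obtain ⟨i, -⟩ := hx 0 (zero_mem _)
      exact ⟨i⟩
    obtain ⟨i0⟩ := hi0
    obtain ⟨i, -, hi⟩ := (Ideal.subset_union_prime i0 i0 fun i _ _ _ => (W i).isPrime).1 hsub
    have hmax : w.asIdeal.IsMaximal := w.isMaximal
    have h1 : w.asIdeal = (W i).asIdeal := hmax.eq_of_le (W i).isPrime.ne_top hi
    exact hne i (HeightOneSpectrum.ext h1)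
  obtain ⟨x, hxw, hxi⟩ := hx
  have hmem : Algebra.intNorm (𝓞 F) (𝓞 N) x ∈ v.asIdeal := by
    rw [← hw]
    change algebraMap (𝓞 F) (𝓞 N) (Algebra.intNorm (𝓞 F) (𝓞 N) x) ∈ w.asIdeal
    exact Ideal.mem_of_dvd _ (Algebra.dvd_algebraMap_intNorm_self (𝓞 F) (𝓞 N) x) hxw
  have hlt : v.valuation F (algebraMap (𝓞 F) F (Algebra.intNorm (𝓞 F) (𝓞 N) x)) <
      v.valuation F 1 := by
    rw [map_one]
    exact (v.valuation_lt_one_iff_mem _).2 hmem
  have hlt2 := (hL.cmp _ _).1 hlt
  rw [map_one, L.one, Algebra.algebraMap_intNorm (K := F) (L := N),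
    Algebra.norm_eq_prod_embeddings F (AlgebraicClosure (FK F v))] at hlt2
  have hone : L.nm (∏ σ : N →ₐ[F] AlgebraicClosure (FK F v), σ (algebraMap (𝓞 N) N x)) = 1 := by
    have hprod : ∀ s : Finset (N →ₐ[F] AlgebraicClosure (FK F v)),
        L.nm (∏ σ ∈ s, σ (algebraMap (𝓞 N) N x)) = 1 := by
      intro s
      induction s using Finset.induction_on with
      | empty => rw [Finset.prod_empty, L.one]
      | insert a s ha ih =>
        rw [Finset.prod_insert ha, L.mul, ih, mul_one]
        refine ((hW a).eq_one _).1 ?_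
        rw [HeightOneSpectrum.valuation_of_algebraMap]
        exact HeightOneSpectrum.intValuation_eq_one_iff.2 (hxi a)
    exact hprod _
  rw [hone] at hlt2
  exact lt_irrefl _ hlt2

end BE
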