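import Pool.Agent.Lib.MP_f80667_ag.Be.DcA

/-! Local squares and symbols: comparison of `Ω` with `N`. -/

open ZC Polynomial IntermediateField IsDedekindDomain NumberField

namespace BE

/-- The field generated by the image of a finite extension is finite. -/
theorem dcc_fin {F K Ω N : Type} [Field F] [Field K] [Field Ω] [Field N] [Algebra F K]
    [Algebra K Ω] [Algebra F Ω] [IsScalarTower F K Ω] [Algebra.IsAlgebraic K Ω] [Algebra F N]
    [FiniteDimensional F N] (i : N →ₐ[F] Ω) :
    FiniteDimensional K (IntermediateField.adjoin K (Set.range i)) := by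
  let b := Module.finBasis F N
  have h1 : FiniteDimensional K (IntermediateField.adjoin K (Set.range fun j => i (b j))) :=
    IntermediateField.finiteDimensional_adjoin fun x _ => Algebra.IsIntegral.isIntegral x
  have h2 : IntermediateField.adjoin K (Set.range i) =
      IntermediateField.adjoin K (Set.range fun j => i (b j)) := by
    apply le_antisymm
    · rw [IntermediateField.adjoin_le_iff]
      rintro _ ⟨x, rfl⟩
      rw [SetLike.mem_coe, ← b.sum_repr x, map_sum]
      refine sum_mem fun j _ => ?_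
      rw [map_smul, Algebra.smul_def, IsScalarTower.algebraMap_apply F K Ω]
      exact mul_mem (IntermediateField.algebraMap_mem _ _)
        (IntermediateField.subset_adjoin K _ ⟨j, rfl⟩)
    · apply IntermediateField.adjoin.mono
      rintro _ ⟨j, rfl⟩
      exact ⟨b j, rfl⟩
  rw [h2]
  exact h1

variable {F : Type} [Field F] [NumberField F] {v : HeightOneSpectrum (𝓞 F)}
  {L : Lf (FK F v) (AlgebraicClosure (FK F v))} (hL : Lg L) {N : Type} [Field N]
  [NumberField N] [Algebra F N]

theorem dcc_fin' (i : N →ₐ[F] AlgebraicClosure (FK F v)) :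
    FiniteDimensional (FK F v) (IntermediateField.adjoin (FK F v) (Set.range i)) := by
  have : FiniteDimensional F N := Module.Finite.of_restrictScalars_finite ℚ F N
  exact dcc_fin i

theorem dcc_mem (i : N →ₐ[F] AlgebraicClosure (FK F v)) (x : N) :
    i x ∈ IntermediateField.adjoin (FK F v) (Set.range i) :=
  IntermediateField.subset_adjoin _ _ ⟨x, rfl⟩

theorem dcc_four : L.nm 4 ≤ 1 := by
  have h := L.nat_le 4
  rwa [Nat.cast_ofNat] at h

theorem dcc_four_pos : 0 < L.nm 4 := L.pos (by norm_num)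

include hL

/-- Local squares. Proof: density and `Lf.sq`. -/
theorem sq_iff {i : N →ₐ[F] AlgebraicClosure (FK F v)} {w : HeightOneSpectrum (𝓞 N)}
    (h : Cmp L (i : N →+* AlgebraicClosure (FK F v)) w) (x : Nˣ) :
    SqM (IntermediateField.adjoin (FK F v) (Set.range i)) (i (x : N)) ↔ x ∈ Hm.LSq w := by
  have hfd := dcc_fin' i
  have hx0 : i (x : N) ≠ 0 := (map_ne_zero i).2 x.ne_zero
  have hc : ∀ y : N, w.valuation N ((x : N) * y ^ 2 - 1) < w.valuation N 4 ↔
      L.nm (i (x : N) * i y ^ 2 - 1) < L.nm 4 := by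
    intro y
    rw [h]
    have e1 : (i : N →+* AlgebraicClosure (FK F v)) ((x : N) * y ^ 2 - 1) =
        i (x : N) * i y ^ 2 - 1 := by
      change i ((x : N) * y ^ 2 - 1) = _
      rw [map_sub, map_mul, map_pow, map_one]
    have e2 : (i : N →+* AlgebraicClosure (FK F v)) 4 = 4 := map_ofNat _ 4
    rw [e1, e2]
  rw [Hm.mem_LSq]
  constructor
  · rintro ⟨z, hz, hxz⟩
    have hz0 : z ≠ 0 := by
      rintro rfl
      rw [zero_pow two_ne_zero] at hxz
      exact hx0 hxz
    have hzi : z⁻¹ ∈ IntermediateField.adjoin (FK F v) (Set.range i) := inv_mem hz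
    obtain ⟨y, hy⟩ := dense_N hL i hzi (ε := L.nm 4 * L.nm z⁻¹)
      (mul_pos dcc_four_pos (L.pos (inv_ne_zero hz0)))
    have h1 : L.nm (z * i y - 1) < L.nm 4 := by
      have e : z * i y - 1 = z * (i y - z⁻¹) := by
        rw [mul_sub, mul_inv_cancel₀ hz0]
      rw [e, L.mul]
      calc L.nm z * L.nm (i y - z⁻¹) < L.nm z * (L.nm 4 * L.nm z⁻¹) :=
            mul_lt_mul_of_pos_left hy (L.pos hz0)
        _ = L.nm 4 := by
            rw [L.inv]
            have := (L.pos hz0).ne'
            field_simp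
    have h2 : L.nm (z * i y - 1) < 1 := h1.trans_le dcc_four
    have h3 : L.nm (z * i y + 1) ≤ 1 := by
      have e : z * i y + 1 = (z * i y - 1) + 2 := by ring
      rw [e]
      exact (L.add _ _).trans (max_le h2.le L.two_le)
    have h4 : L.nm (i (x : N) * i y ^ 2 - 1) < L.nm 4 := by
      have e : i (x : N) * i y ^ 2 - 1 = (z * i y - 1) * (z * i y + 1) := by
        rw [hxz]
        ring
      rw [e, L.mul]
      exact (mul_le_of_le_one_right (L.nonneg _) h3).trans_lt h1
    have hy0 : y ≠ 0 := by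
      rintro rfl
      rw [map_zero, mul_zero, zero_sub, L.neg, L.one] at h2
      exact lt_irrefl _ h2
    exact ⟨Units.mk0 y hy0, (hc y).2 h4⟩
  · rintro ⟨y, hy⟩
    have h1 := (hc y).1 hy
    have h2 := L.sq (IntermediateField.adjoin (FK F v) (Set.range i))
      (x := i (x : N) * i (y : N) ^ 2 - 1)
      (sub_mem (mul_mem (dcc_mem i _) (pow_mem (dcc_mem i _) 2)) (one_mem _)) h1
    rw [add_sub_cancel] at h2
    exact SqM.of_sq (dcc_mem i _) ((map_ne_zero i).2 y.ne_zero) h2

/-- Global elements with given local square class. -/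
theorem exists_cls {i : N →ₐ[F] AlgebraicClosure (FK F v)} {z : AlgebraicClosure (FK F v)}
    (hz : z ∈ IntermediateField.adjoin (FK F v) (Set.range i)) (h0 : z ≠ 0) :
    ∃ x : Nˣ, SqM (IntermediateField.adjoin (FK F v) (Set.range i)) (i (x : N) * z) := by
  have hfd := dcc_fin' i
  obtain ⟨x, hx⟩ := dense_N hL i hz (mul_pos (dcc_four_pos (L := L)) (L.pos h0))
  have hx0 : x ≠ 0 := by
    rintro rfl
    rw [map_zero, zero_sub, L.neg] at hx
    exact absurd (mul_le_of_le_one_left (L.nonneg z) dcc_four) (not_le.2 hx)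
  exact ⟨Units.mk0 x hx0, L.sq' _ (dcc_mem i x) hz h0 hx⟩

/-- Local norms. Proof: density (approximate the solution of `x = p² - b q²` by elements of `N`), `Hm.mem_LNm`. -/
theorem hs_iff {i : N →ₐ[F] AlgebraicClosure (FK F v)} {w : HeightOneSpectrum (𝓞 N)}
    (h : Cmp L (i : N →+* AlgebraicClosure (FK F v)) w) (x b : Nˣ) :
    HS (IntermediateField.adjoin (FK F v) (Set.range i)) (i (x : N)) (i (b : N)) ↔
      x ∈ Hm.LNm w b := by
  have hfd := dcc_fin' i
  have hx0 : i (x : N) ≠ 0 := (map_ne_zero i).2 x.ne_zero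
  have hb0 : i (b : N) ≠ 0 := (map_ne_zero i).2 b.ne_zero
  rw [Hm.mem_LNm]
  constructor
  · rintro ⟨p, hp, q, hq, hpq⟩
    have hpos : 0 < L.nm 4 * L.nm (i (x : N)) := mul_pos (dcc_four_pos (L := L)) (L.pos hx0)
    -- approximation of a square
    have key : ∀ p ∈ IntermediateField.adjoin (FK F v) (Set.range i), ∀ ε : ℝ, 0 < ε →
        ∃ P : N, L.nm (i P ^ 2 - p ^ 2) < ε := by
      intro p hp ε hε
      have hM : 0 < max 1 (L.nm p) := lt_max_of_lt_left one_pos
      obtain ⟨P, hP⟩ := dense_N hL i hp (ε := min 1 (ε / max 1 (L.nm p)))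
        (lt_min one_pos (div_pos hε hM))
      refine ⟨P, ?_⟩
      have e : i P ^ 2 - p ^ 2 = (i P - p) * ((i P - p) + 2 * p) := by ring
      have h1 : L.nm ((i P - p) + 2 * p) ≤ max 1 (L.nm p) := by
        refine (L.add _ _).trans (max_le_max (hP.le.trans (min_le_left _ _)) ?_)
        rw [L.mul]
        exact mul_le_of_le_one_left (L.nonneg _) L.two_le
      rw [e, L.mul]
      calc L.nm (i P - p) * L.nm ((i P - p) + 2 * p)
          ≤ L.nm (i P - p) * max 1 (L.nm p) := mul_le_mul_of_nonneg_left h1 (L.nonneg _)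
        _ < (ε / max 1 (L.nm p)) * max 1 (L.nm p) :=
            mul_lt_mul_of_pos_right (hP.trans_le (min_le_right _ _)) hM
        _ = ε := div_mul_cancel₀ _ hM.ne'
    obtain ⟨P, hP⟩ := key p hp _ hpos
    obtain ⟨Q, hQ⟩ := key q hq _ (div_pos hpos (L.pos hb0))
    have hclose : L.nm (i (P ^ 2 - b * Q ^ 2) - i (x : N)) < L.nm 4 * L.nm (i (x : N)) := by
      have e : i (P ^ 2 - b * Q ^ 2) - i (x : N) =
          (i P ^ 2 - p ^ 2) - i (b : N) * (i Q ^ 2 - q ^ 2) := by
        rw [map_sub, map_mul, map_pow, map_pow]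
        linear_combination (-1 : AlgebraicClosure (FK F v)) * hpq
      rw [e]
      refine (L.sub _ _).trans_lt (max_lt hP ?_)
      rw [L.mul]
      rw [lt_div_iff₀ (L.pos hb0)] at hQ
      rwa [mul_comm]
    have hc0 : P ^ 2 - b * Q ^ 2 ≠ 0 := by
      intro h0
      rw [h0, map_zero, zero_sub, L.neg] at hclose
      exact absurd (mul_le_of_le_one_left (L.nonneg _) dcc_four) (not_le.2 hclose)
    obtain ⟨c, hc⟩ : ∃ c : Nˣ, (c : N) = P ^ 2 - b * Q ^ 2 := ⟨Units.mk0 _ hc0, rfl⟩
    rw [← hc] at hclose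
    have h1 := L.sq' _ (dcc_mem i (c : N)) (dcc_mem i (x : N)) hx0 hclose
    have h2 : c * x ∈ Hm.LSq w := by
      rw [← sq_iff hL h]
      rw [← map_mul] at h1
      exact h1
    refine ⟨P, Q, c / x, ?_, ?_⟩
    · have h3 : c / x = c * x * (x ^ 2)⁻¹ := by
        rw [pow_two, mul_inv, mul_assoc, mul_inv_cancel_left, div_eq_mul_inv]
      rw [h3]
      exact mul_mem h2 (inv_mem (Hm.sq_mem_LSq w x))
    · rw [← hc, ← Units.val_mul, mul_div_cancel]
  · rintro ⟨X, Y, s, hs, hXY⟩
    obtain ⟨z, hz, hsz⟩ := (sq_iff hL h s).2 hs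
    have hz0 : z ≠ 0 := by
      rintro rfl
      rw [zero_pow two_ne_zero, map_eq_zero] at hsz
      exact s.ne_zero hsz
    refine ⟨i X / z, div_mem (dcc_mem i X) hz, i Y / z, div_mem (dcc_mem i Y) hz, ?_⟩
    have h1 := congrArg i hXY
    rw [map_mul, map_sub, map_mul, map_pow, map_pow, hsz] at h1
    field_simp
    exact h1

end BE
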