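import Mathlib
import Pool.Agent.Lib.MP_f80667_ag.ZC.Defs

/-!
Zero-cycles on bielliptic surfaces.

`F` is a field of characteristic `0`. A variety over `F` is given by its points over the extensions of
`F` (`Vr F`): the types `pt L`, the maps `pt L → pt M` for the homomorphisms `L → M` over `F`, and the
relation `red w x y`: the point `y` is the reduction of the point `x` at the place `w` of `L`. Only
algebraically closed `L` are used: for a field `E` an `E`-point is a point over the algebraic closure
of `E` which is invariant under the Galois group (`Vr.Rat`).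

* `Vr.cyc V K Ω`: the zero-cycles over `K` (`Ω` an algebraic closure of `K`): the Galois invariant
  elements of `ℤ[V(Ω)]`, `Vr.D0`: those of degree `0`.
* `Vr.ratEq V K Ω`: the zero-cycles rationally equivalent to `0`: generated by the images of the
  divisors of the functions `g ≠ 0` on the normal projective curves with function field `E / K` under
  the morphisms from the curve to `V` (given by the `E`-points `x` of `V`). The points of the curve
  are the `Ω`-valued places `w` of `E / K`, the value of `x` at `w` is the reduction of `x` at a place of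
  the algebraic closure of `E` above `w` (`Vr.IsVal`).
* `Vr.nrm V K Ω`: the group generated by the norms of the points of `V(Ω)` (for `Ω / K` finite).
* `Cf F`: the coefficients of the elliptic curves `E₁ : Y² = X (X² + a X + b)` and
  `E₂ : v² = g(w) = w³ + c₂ w² + c₁ w + c₀`; `t = (0, 0)` is a point of order two of `E₁`.
* `Cf.X`: the bielliptic surface `X = (E₁ × E₂) / ((u, y) ~ (u + t, - y))`; `Cf.B`: the elliptic curve
  `B = E₁ / t`, the Albanese variety of `X`; `Cf.pr : X → B`, `[(u, y)] ↦ [u]`, and its section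
  `Cf.sc : B → X`, `[u] ↦ [(u, 0)]`.
-/

open ZC Polynomial

namespace BE

/-! ### Points of elliptic curves -/

section pts

variable {F : Type} [Field F]

/-- The points of `W` over `L`. -/
def Pt (W : WeierstrassCurve F) (L : Type) [Field L] [Algebra F L] : Type :=
  (W.baseChange L).toAffine.Point

/-- The group structure. -/
noncomputable instance Pt.group (W : WeierstrassCurve F) (L : Type) [Field L] [Algebra F L] :
    AddCommGroup (Pt W L) := by
  classical
  exact (inferInstance : AddCommGroup (W.baseChange L).toAffine.Point)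

/-- The point `(x, y)`. -/
def Pt.aff {W : WeierstrassCurve F} {L : Type} [Field L] [Algebra F L] (x y : L)
    (h : (W.baseChange L).toAffine.Nonsingular x y) : Pt W L :=
  WeierstrassCurve.Affine.Point.some x y h

/-- The map on points induced by a homomorphism. -/
noncomputable def Pt.map (W : WeierstrassCurve F) {L M : Type} [Field L] [Field M] [Algebra F L]
    [Algebra F M] (σ : L →ₐ[F] M) : Pt W L →+ Pt W M := by
  classical
  exact WeierstrassCurve.Affine.Point.map (W' := W) σ

/-- The reduction of points at a place: `(x, y)` goes to its value if `x` (and `y`) is in the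
valuation ring and to the point at infinity otherwise. -/
def Pt.Red (W : WeierstrassCurve F) {K L Ω : Type} [Field K] [Field L] [Field Ω] [Algebra K L]
    [Algebra K Ω] [Algebra F L] [Algebra F Ω] (w : Place K L Ω) : Pt W L → Pt W Ω → Prop
  | .zero, Q => Q = 0
  | .some x y _, Q => (x ∉ w.V ∧ Q = 0) ∨
      ∃ (hx : x ∈ w.V) (hy : y ∈ w.V)
        (h : (W.baseChange Ω).toAffine.Nonsingular (w.res ⟨x, hx⟩) (w.res ⟨y, hy⟩)),
        Q = Pt.aff _ _ h

end pts

/-! ### Varieties -/

/-- A variety over `F`. -/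
structure Vr (F : Type) [Field F] where
  /-- the points over a field -/
  pt : ∀ (L : Type) [Field L] [Algebra F L], Type
  /-- the map on points induced by a homomorphism -/
  map : ∀ {L M : Type} [Field L] [Field M] [Algebra F L] [Algebra F M], (L →ₐ[F] M) → pt L → pt M
  /-- the reduction at a place -/
  red : ∀ {K L Ω : Type} [Field K] [Field L] [Field Ω] [Algebra K L] [Algebra K Ω] [Algebra F L]
    [Algebra F Ω], Place K L Ω → pt L → pt Ω → Prop

namespace Vr

variable {F : Type} [Field F] (V : Vr F)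

/-- The action of an automorphism on the points. -/
def act {K Ω : Type} [Field K] [Field Ω] [Algebra F K] [Algebra K Ω] [Algebra F Ω]
    [IsScalarTower F K Ω] (σ : Ω ≃ₐ[K] Ω) : V.pt Ω → V.pt Ω :=
  V.map (σ.restrictScalars F : Ω →ₐ[F] Ω)

/-- `x` is an `E`-point. -/
def Rat (E : Type) [Field E] [Algebra F E] (x : V.pt (AlgebraicClosure E)) : Prop :=
  ∀ σ : AlgebraicClosure E ≃ₐ[E] AlgebraicClosure E, V.act σ x = x

/-- `y` is the value of the `E`-point `x` at the place `w` of `E`. -/
def IsVal {K E Ω : Type} [Field K] [Field E] [Field Ω] [Algebra K E] [Algebra K Ω] [Algebra F E]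
    [Algebra F Ω] (w : Place K E Ω) (x : V.pt (AlgebraicClosure E)) (y : V.pt Ω) : Prop :=
  ∃ W : Place K (AlgebraicClosure E) Ω,
    (∀ a : E, algebraMap E (AlgebraicClosure E) a ∈ W.V ↔ a ∈ w.V) ∧
    (∀ (a : E) (h : a ∈ w.V) (h' : algebraMap E (AlgebraicClosure E) a ∈ W.V),
      W.res ⟨_, h'⟩ = w.res ⟨a, h⟩) ∧ V.red W x y

section cycles

variable (K : Type) [Field K] [Algebra F K] (Ω : Type) [Field Ω] [Algebra K Ω] [Algebra F Ω]

/-- The zero-cycles rationally equivalent to `0`. -/
noncomputable def ratEq : AddSubgroup (V.pt Ω →₀ ℤ) :=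
  AddSubgroup.closure {z | ∃ (E : Type) (_ : Field E) (_ : Algebra K E) (_ : Algebra F E)
    (_ : IsScalarTower F K E), IsFunField K E ∧
    ∃ (g : E) (x : V.pt (AlgebraicClosure E)), g ≠ 0 ∧ V.Rat E x ∧
    ∃ (S : Finset (Place K E Ω)) (m : Place K E Ω → ℤ) (y : Place K E Ω → V.pt Ω),
      (∀ w, w ∉ S → g ∈ w.V ∧ g⁻¹ ∈ w.V) ∧ (∀ w ∈ S, w.IsOrd g (m w) ∧ V.IsVal w x (y w)) ∧
      z = ∑ w ∈ S, Finsupp.single (y w) (m w)}

variable [IsScalarTower F K Ω]

/-- The zero-cycles over `K`. -/
noncomputable def cyc : AddSubgroup (V.pt Ω →₀ ℤ) where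
  carrier := {z | ∀ σ : Ω ≃ₐ[K] Ω, Finsupp.mapDomain (V.act σ) z = z}
  zero_mem' := fun σ => Finsupp.mapDomain_zero
  add_mem' := fun ha hb σ => by rw [Finsupp.mapDomain_add, ha σ, hb σ]
  neg_mem' := fun {a} ha σ => by
    have h := (Finsupp.mapDomain.addMonoidHom (M := ℤ) (V.act σ)).map_neg a
    change Finsupp.mapDomain (V.act σ) (-a) = _
    rw [← Finsupp.mapDomain.addMonoidHom_apply, h, Finsupp.mapDomain.addMonoidHom_apply, ha σ]

/-- The degree of a zero-cycle. -/
noncomputable def deg : (V.pt Ω →₀ ℤ) →+ ℤ := Finsupp.liftAddHom (fun _ => AddMonoidHom.id ℤ)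

/-- The zero-cycles of degree `0`. -/
noncomputable def D0 : AddSubgroup (V.pt Ω →₀ ℤ) := V.cyc K Ω ⊓ (V.deg Ω).ker

/-- The group generated by the norms of the points over `Ω`. -/
noncomputable def nrm : AddSubgroup (V.pt Ω →₀ ℤ) :=
  AddSubgroup.closure {z | ∃ x : V.pt Ω, z = ∑ᶠ σ : Ω ≃ₐ[K] Ω, Finsupp.single (V.act σ x) 1}

end cycles

end Vr

/-! ### The surfaces -/

/-- The coefficients. -/
structure Cf (F : Type) [Field F] where
  /-- coefficient of `E₁ : Y² = X (X² + a X + b)` -/
  a : F
  /-- coefficient of `E₁` -/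
  b : F
  /-- coefficient of `E₂ : v² = w³ + c₂ w² + c₁ w + c₀` -/
  c₂ : F
  /-- coefficient of `E₂` -/
  c₁ : F
  /-- coefficient of `E₂` -/
  c₀ : F
  h2 : (2 : F) ≠ 0
  hb : b ≠ 0
  hab : a ^ 2 - 4 * b ≠ 0
  hc : c₂ ^ 2 * c₁ ^ 2 - 4 * c₁ ^ 3 - 4 * c₂ ^ 3 * c₀ - 27 * c₀ ^ 2 + 18 * c₂ * c₁ * c₀ ≠ 0

namespace Cf

variable {F : Type} [Field F] (C : Cf F)

/-- `E₁`. -/
def W₁ : WeierstrassCurve F := ⟨0, C.a, 0, C.b, 0⟩

/-- `E₂`. -/
def W₂ : WeierstrassCurve F := ⟨0, C.c₂, 0, C.c₁, C.c₀⟩

/-- The polynomial `g`. -/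
noncomputable def g : F[X] :=
  Polynomial.X ^ 3 + Polynomial.C C.c₂ * Polynomial.X ^ 2 + Polynomial.C C.c₁ * Polynomial.X +
    Polynomial.C C.c₀

/-- The discriminant of `g`. -/
def disc : F :=
  C.c₂ ^ 2 * C.c₁ ^ 2 - 4 * C.c₁ ^ 3 - 4 * C.c₂ ^ 3 * C.c₀ - 27 * C.c₀ ^ 2 +
    18 * C.c₂ * C.c₁ * C.c₀

variable (L : Type) [Field L] [Algebra F L]

/-- The curve `E₁` is smooth. -/
instance ell₁ : ((C.W₁).baseChange L).IsElliptic := by
  have h : C.W₁.Δ = 2 ^ 4 * C.b ^ 2 * (C.a ^ 2 - 4 * C.b) := by
    simp only [W₁, WeierstrassCurve.Δ, WeierstrassCurve.b₂, WeierstrassCurve.b₄,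
      WeierstrassCurve.b₆, WeierstrassCurve.b₈]
    ring
  refine ⟨?_⟩
  rw [WeierstrassCurve.baseChange, WeierstrassCurve.map_Δ, h, isUnit_iff_ne_zero, Ne, map_eq_zero]
  exact mul_ne_zero (mul_ne_zero (pow_ne_zero _ C.h2) (pow_ne_zero _ C.hb)) C.hab

/-- The curve `E₂` is smooth. -/
instance ell₂ : ((C.W₂).baseChange L).IsElliptic := by
  have h : C.W₂.Δ = 2 ^ 4 * (C.c₂ ^ 2 * C.c₁ ^ 2 - 4 * C.c₁ ^ 3 - 4 * C.c₂ ^ 3 * C.c₀ -
      27 * C.c₀ ^ 2 + 18 * C.c₂ * C.c₁ * C.c₀) := by
    simp only [W₂, WeierstrassCurve.Δ, WeierstrassCurve.b₂, WeierstrassCurve.b₄,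
      WeierstrassCurve.b₆, WeierstrassCurve.b₈]
    ring
  refine ⟨?_⟩
  rw [WeierstrassCurve.baseChange, WeierstrassCurve.map_Δ, h, isUnit_iff_ne_zero, Ne, map_eq_zero]
  exact mul_ne_zero (pow_ne_zero _ C.h2) C.hc

variable {L} in
/-- The point `(x, y)` of `E₁`. -/
def pt₁ (x y : L)
    (h : y ^ 2 = x ^ 3 + algebraMap F L C.a * x ^ 2 + algebraMap F L C.b * x) : Pt C.W₁ L :=
  Pt.aff x y (WeierstrassCurve.Affine.equation_iff_nonsingular.1 (by
    rw [WeierstrassCurve.Affine.equation_iff]
    simp only [W₁, WeierstrassCurve.baseChange, WeierstrassCurve.map, map_zero]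
    linear_combination h))

variable {L} in
/-- The point `(x, y)` of `E₂`. -/
def pt₂ (x y : L)
    (h : y ^ 2 = x ^ 3 + algebraMap F L C.c₂ * x ^ 2 + algebraMap F L C.c₁ * x +
      algebraMap F L C.c₀) : Pt C.W₂ L :=
  Pt.aff x y (WeierstrassCurve.Affine.equation_iff_nonsingular.1 (by
    rw [WeierstrassCurve.Affine.equation_iff]
    simp only [W₂, WeierstrassCurve.baseChange, WeierstrassCurve.map, map_zero]
    linear_combination h))

theorem nonsing : ((C.W₁).baseChange L).toAffine.Nonsingular 0 0 := by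
  have h : algebraMap F L C.b ≠ 0 := by
    rw [Ne, map_eq_zero]
    exact C.hb
  rw [WeierstrassCurve.Affine.nonsingular_iff, WeierstrassCurve.Affine.equation_iff]
  simp [W₁, WeierstrassCurve.baseChange, WeierstrassCurve.map, h.symm]

/-- The point `t = (0, 0)` of `E₁`. -/
def t : Pt C.W₁ L := Pt.aff 0 0 (C.nonsing L)

theorem two_t : C.t L + C.t L = 0 := by
  classical
  refine WeierstrassCurve.Affine.Point.add_self_of_Y_eq (W := ((C.W₁).baseChange L).toAffine)
    (h₁ := C.nonsing L) ?_
  simp [W₁, WeierstrassCurve.Affine.negY, WeierstrassCurve.baseChange, WeierstrassCurve.map]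

variable {L} in
theorem map_t {M : Type} [Field M] [Algebra F M] (σ : L →ₐ[F] M) :
    Pt.map C.W₁ σ (C.t L) = C.t M := by
  classical
  change WeierstrassCurve.Affine.Point.map (W' := C.W₁) σ
    (WeierstrassCurve.Affine.Point.some _ _ (C.nonsing L)) = _
  rw [WeierstrassCurve.Affine.Point.map_some]
  simp only [t, map_zero]
  rfl

/-- The relation `(u, y) ~ (u + t, - y)`. -/
def setX : Setoid (Pt C.W₁ L × Pt C.W₂ L) where
  r P Q := Q = P ∨ Q = (P.1 + C.t L, -P.2)
  iseqv := by
    refine ⟨fun P => Or.inl rfl, ?_, ?_⟩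
    · rintro P Q (rfl | rfl)
      · exact Or.inl rfl
      · right
        simp only [add_assoc, C.two_t, add_zero, neg_neg]
    · rintro P Q R (rfl | rfl) (rfl | rfl)
      · exact Or.inl rfl
      · exact Or.inr rfl
      · exact Or.inr rfl
      · left
        simp only [add_assoc, C.two_t, add_zero, neg_neg]

/-- The relation `u ~ u + t`. -/
def setB : Setoid (Pt C.W₁ L) where
  r P Q := Q = P ∨ Q = P + C.t L
  iseqv := by
    refine ⟨fun P => Or.inl rfl, ?_, ?_⟩
    · rintro P Q (rfl | rfl)
      · exact Or.inl rfl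
      · right
        simp only [add_assoc, C.two_t, add_zero]
    · rintro P Q R (rfl | rfl) (rfl | rfl)
      · exact Or.inl rfl
      · exact Or.inr rfl
      · exact Or.inr rfl
      · left
        simp only [add_assoc, C.two_t, add_zero]

/-- The bielliptic surface. -/
noncomputable def X : Vr F where
  pt L _ _ := Quotient (C.setX L)
  map σ := Quotient.map (fun P => (Pt.map _ σ P.1, Pt.map _ σ P.2)) (by
    rintro P Q (rfl | rfl)
    · exact Or.inl rfl
    · right
      simp only [map_add, map_neg, C.map_t])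
  red w x y := ∃ P Q, x = Quotient.mk _ P ∧ y = Quotient.mk _ Q ∧ Pt.Red _ w P.1 Q.1 ∧
    Pt.Red _ w P.2 Q.2

/-- The elliptic curve `B = E₁ / t`. -/
noncomputable def B : Vr F where
  pt L _ _ := Quotient (C.setB L)
  map σ := Quotient.map (Pt.map _ σ) (by
    rintro P Q (rfl | rfl)
    · exact Or.inl rfl
    · right
      simp only [map_add, C.map_t])
  red w x y := ∃ P Q, x = Quotient.mk _ P ∧ y = Quotient.mk _ Q ∧ Pt.Red _ w P Q

variable {L}

/-- The point `[(u, y)]` of `X`. -/
def px (u : Pt C.W₁ L) (y : Pt C.W₂ L) : C.X.pt L := Quotient.mk _ (u, y)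

/-- The point `[u]` of `B`. -/
def pb (u : Pt C.W₁ L) : C.B.pt L := Quotient.mk _ u

variable (L) in
/-- The projection `[(u, y)] ↦ [u]`. -/
def pr : C.X.pt L → C.B.pt L := Quotient.map (fun P => P.1) (by
  rintro P Q (rfl | rfl)
  · exact Or.inl rfl
  · exact Or.inr rfl)

variable (L) in
/-- The section `[u] ↦ [(u, 0)]`. -/
noncomputable def sc : C.B.pt L → C.X.pt L := Quotient.map (fun u => (u, 0)) (by
  rintro P Q (rfl | rfl)
  · exact Or.inl rfl
  · right
    simp only [neg_zero])

/-! ### The functions which define the Brauer classes -/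

variable (L) in
/-- The function `X' (π u) = (Y / X)² (u)` on `B`, up to squares of `B`-rational functions: at the
point `0` of `B` the value is `1`, at the other zero of `X'` it is `a² - 4 b`. -/
noncomputable def kap : Pt C.W₁ L → L
  | .zero => 1
  | .some x y _ => open Classical in
    if x = 0 then 1 else if y = 0 then algebraMap F L (C.a ^ 2 - 4 * C.b) else (y / x) ^ 2

variable (L) in
/-- The function `θ_e = X' (π u) (w - e)` on `X` for a root `e` of `g`, up to squares: it is `1` on the
section `y = 0`, and `g' (e)` if `w = e`. -/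
noncomputable def th0 (e : L) (u : Pt C.W₁ L) : Pt C.W₂ L → L
  | .zero => 1
  | .some w _ _ => open Classical in
    if w = e then Polynomial.aeval e (Polynomial.derivative C.g) else C.kap L u * (w - e)

theorem kap_add_t (u : Pt C.W₁ L) : C.kap L (u + C.t L) = C.kap L u := by
  classical
  match u with
  | .zero =>
    change C.kap L (0 + C.t L) = 1
    rw [zero_add]
    change (if (0 : L) = 0 then (1 : L) else _) = 1
    rw [if_pos rfl]
  | .some x y h =>
    by_cases hx : x = 0
    · subst hx
      have hy : y = 0 := by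
        have h1 := h.1
        rw [WeierstrassCurve.Affine.equation_iff] at h1
        simpa [W₁, WeierstrassCurve.baseChange, WeierstrassCurve.map] using h1
      subst hy
      change C.kap L (C.t L + C.t L) = C.kap L (C.t L)
      rw [C.two_t L]
      change (1 : L) = if (0 : L) = 0 then (1 : L) else _
      rw [if_pos rfl]
    · have h1 := h.1
      rw [WeierstrassCurve.Affine.equation_iff] at h1
      simp only [W₁, WeierstrassCurve.baseChange, WeierstrassCurve.map, map_zero] at h1
      change C.kap L (Pt.aff x y h + C.t L) = C.kap L (Pt.aff x y h)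
      have hadd : Pt.aff x y h + C.t L = Pt.aff _ _
          (WeierstrassCurve.Affine.nonsingular_add h (C.nonsing L) fun hxy => hx hxy.1) :=
        WeierstrassCurve.Affine.Point.add_of_X_ne (h₁ := h) (h₂ := C.nonsing L) hx
      rw [hadd]
      have hb : algebraMap F L C.b ≠ 0 := by
        rw [Ne, map_eq_zero]
        exact C.hb
      have hX : ((C.W₁).baseChange L).toAffine.addX x 0
          (((C.W₁).baseChange L).toAffine.slope x 0 y 0) = algebraMap F L C.b / x := by
        rw [WeierstrassCurve.Affine.slope_of_X_ne hx]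
        simp only [WeierstrassCurve.Affine.addX, W₁, WeierstrassCurve.baseChange,
          WeierstrassCurve.map, map_zero]
        field_simp
        linear_combination x * h1
      have hY : ((C.W₁).baseChange L).toAffine.addY x 0 y
          (((C.W₁).baseChange L).toAffine.slope x 0 y 0) = - algebraMap F L C.b * y / x ^ 2 := by
        rw [WeierstrassCurve.Affine.addY, WeierstrassCurve.Affine.negAddY, hX,
          WeierstrassCurve.Affine.slope_of_X_ne hx]
        simp only [WeierstrassCurve.Affine.negY, W₁, WeierstrassCurve.baseChange,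
          WeierstrassCurve.map, map_zero]
        field_simp
        ring
      simp only [kap, Pt.aff]
      rw [hX, hY, if_neg hx, if_neg (div_ne_zero hb hx)]
      by_cases hy : y = 0
      · rw [if_pos hy, if_pos (by rw [hy]; simp)]
      · rw [if_neg hy, if_neg (div_ne_zero (mul_ne_zero (neg_ne_zero.2 hb) hy) (pow_ne_zero 2 hx))]
        field_simp

variable (L) in
/-- The function `θ_e` on `X`. -/
noncomputable def th (e : L) : C.X.pt L → L := Quotient.lift (fun P => C.th0 L e P.1 P.2) (by
  rintro ⟨u, y⟩ Q (rfl | rfl)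
  · rfl
  · change C.th0 L e u y = C.th0 L e (u + C.t L) (-y)
    match y with
    | .zero => rfl
    | .some w v h =>
      change _ = C.th0 L e (u + C.t L) (WeierstrassCurve.Affine.Point.some w _ _)
      simp only [th0, kap_add_t])

end Cf

end BE
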