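import Pool.Agent.Lib.MP_f80667_ag.Be.Hf

/-! Classes of points of `E₂` over a field, for the global statement. -/

open ZC Polynomial IntermediateField

namespace BE

variable {F : Type} [Field F] [CharZero F] (C : Cf F) {K : Type} [Field K] [CharZero K] [Algebra F K]

omit [CharZero F] in
private theorem dsc_kap_zero {L : Type} [Field L] [Algebra F L] : C.kap L (0 : Pt C.W₁ L) = 1 := rfl

omit [CharZero F] in
private theorem dsc_th0_neg {L : Type} [Field L] [Algebra F L] (e : L) (y : Pt C.W₂ L) :
    C.th0 L e 0 (-y) = C.th0 L e 0 y := by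
  match y with
  | .zero => rfl
  | .some w v h => rfl

omit [CharZero F] in
private theorem dsc_th0_map {L M : Type} [Field L] [Field M] [Algebra F L] [Algebra F M]
    (σ : L →ₐ[F] M) (e : L) (y : Pt C.W₂ L) :
    C.th0 M (σ e) 0 (Pt.map C.W₂ σ y) = σ (C.th0 L e 0 y) := by
  match y with
  | .zero => exact (map_one σ).symm
  | .some w v h =>
    change (open Classical in if σ w = σ e then
      Polynomial.aeval (σ e) (Polynomial.derivative C.g) else C.kap M 0 * (σ w - σ e)) =
      σ (open Classical in if w = e then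
        Polynomial.aeval e (Polynomial.derivative C.g) else C.kap L 0 * (w - e))
    by_cases hwe : w = e
    · rw [if_pos hwe, if_pos (congrArg σ hwe), Polynomial.aeval_algHom_apply]
    · have hne : ¬ σ w = σ e := fun h => hwe (σ.injective h)
      rw [if_neg hne, if_neg hwe, dsc_kap_zero, dsc_kap_zero, one_mul, one_mul, map_sub]

omit [CharZero F] in
private theorem dsc_map_inj {W : WeierstrassCurve F} {L M : Type} [Field L] [Field M] [Algebra F L]
    [Algebra F M] (σ : L →ₐ[F] M) : Function.Injective (Pt.map W σ) := by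
  intro P Q h
  rcases Pt.cases' P with rfl | ⟨x, y, hP, rfl⟩
  · rcases Pt.cases' Q with rfl | ⟨x', y', hQ, rfl⟩
    · rfl
    · exact absurd h.symm (by
        rw [map_zero]
        exact WeierstrassCurve.Affine.Point.some_ne_zero _)
  · rcases Pt.cases' Q with rfl | ⟨x', y', hQ, rfl⟩
    · exact absurd h (by
        rw [map_zero]
        exact WeierstrassCurve.Affine.Point.some_ne_zero _)
    · have h1 := WeierstrassCurve.Affine.Point.some.inj h
      have hx : x = x' := σ.injective h1.1
      have hy : y = y' := σ.injective h1.2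
      subst hx
      subst hy
      rfl

/-- Two points with the same class differ by the double of a point. Proof: `th_pair`, `half₂` with `u = 0`, `M = ⊥`,
`exists_desc`. -/
theorem dl_two {c₀ : F[X]} (hc : IsCoprime c₀ C.g) {y y' : Pt C.W₂ K} (h : C.Dl K c₀ y)
    (h' : C.Dl K c₀ y') : ∃ y'' : Pt C.W₂ K, y = y' + (y'' + y'') := by
  set j := IsScalarTower.toAlgHom F K (AlgebraicClosure K) with hj
  have hfix : ∀ (y : Pt C.W₂ K) (γ : AlgebraicClosure K ≃ₐ[K] AlgebraicClosure K),
      γ • Pt.map C.W₂ j y = Pt.map C.W₂ j y := by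
    intro y γ
    rw [Pt.smul_def, Pt.map_map']
    congr 1
    congr 1
    ext a
    change γ (algebraMap K (AlgebraicClosure K) a) = algebraMap K (AlgebraicClosure K) a
    exact γ.commutes a
  have hpx : ∀ (y : Pt C.W₂ K) (γ : AlgebraicClosure K ≃ₐ[K] AlgebraicClosure K),
      γ • C.px 0 (Pt.map C.W₂ j y) = C.px 0 (Pt.map C.W₂ j y) := by
    intro y γ
    change C.px (γ • (0 : Pt C.W₁ (AlgebraicClosure K))) (γ • _) = C.px 0 _
    rw [smul_zero, hfix]
  have hroot : ∀ e : AlgebraicClosure K, aeval e C.g = 0 → aeval e c₀ ≠ 0 := by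
    intro e he h0
    obtain ⟨a, b, hab⟩ := hc
    have h1 := congrArg (aeval e) hab
    rw [map_add, map_mul, map_mul, h0, he, mul_zero, mul_zero, add_zero, map_one] at h1
    exact zero_ne_one h1
  obtain ⟨z, hz1, hz2⟩ := half₂ (K := K) C (M := (⊥ : IntermediateField K (AlgebraicClosure K)))
    (u := 0) (y := Pt.map C.W₂ j (y - y')) (fun γ _ => hpx _ γ) (by
      intro e he
      obtain ⟨x, hx, hxe⟩ := h e he
      obtain ⟨x', hx', hxe'⟩ := h' e he
      have hMe : Me (⊥ : IntermediateField K (AlgebraicClosure K)) e =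
          IntermediateField.adjoin K {e} := by
        unfold Me
        rw [bot_sup_eq]
      obtain ⟨s, hs, hse⟩ := th_pair (K := K) C
        (M := (⊥ : IntermediateField K (AlgebraicClosure K))) he (u := 0)
        (y₁ := Pt.map C.W₂ j y) (y₂ := Pt.map C.W₂ j (-y'))
        (fun γ _ => Or.inl (smul_zero γ)) (fun γ _ => Or.inl ⟨hpx _ γ, hpx _ γ⟩)
      rw [← map_add, ← sub_eq_add_neg] at hse
      have h0 := hroot e he
      have hn : C.th0 (AlgebraicClosure K) e 0 (Pt.map C.W₂ j (-y')) =
          C.th0 (AlgebraicClosure K) e 0 (Pt.map C.W₂ j y') := by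
        rw [map_neg, dsc_th0_neg]
      rw [hn] at hse
      have h1 := th_ne C e he 0 (Pt.map C.W₂ j y)
      have h2 := th_ne C e he 0 (Pt.map C.W₂ j y')
      change aeval e c₀ * C.th0 (AlgebraicClosure K) e 0 (Pt.map C.W₂ j y) = x ^ 2 at hxe
      change aeval e c₀ * C.th0 (AlgebraicClosure K) e 0 (Pt.map C.W₂ j y') = x' ^ 2 at hxe'
      have hx0 : x ≠ 0 := by
        rintro rfl
        rw [zero_pow two_ne_zero] at hxe
        exact mul_ne_zero h0 h1 hxe
      have hx0' : x' ≠ 0 := by
        rintro rfl
        rw [zero_pow two_ne_zero] at hxe'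
        exact mul_ne_zero h0 h2 hxe'
      have hc0 : aeval e c₀ ∈ IntermediateField.adjoin K {e} := by
        have h3 : aeval e (c₀.map (algebraMap F K)) ∈ IntermediateField.adjoin K {e} := by
          have h4 := (aeval (⟨e, IntermediateField.mem_adjoin_simple_self K e⟩ :
            IntermediateField.adjoin K {e}) (c₀.map (algebraMap F K))).2
          rwa [← IntermediateField.aeval_coe] at h4
        rwa [Polynomial.aeval_map_algebraMap] at h3
      refine ⟨s * (aeval e c₀ * (x * x')⁻¹), ?_, ?_⟩
      · rw [hMe] at hs ⊢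
        exact mul_mem hs (mul_mem hc0 (inv_mem (mul_mem hx hx')))
      · have e1 : C.th0 (AlgebraicClosure K) e 0 (Pt.map C.W₂ j (y - y')) *
            (x * x') ^ 2 = s ^ 2 * (aeval e c₀) ^ 2 := by
          rw [← hse, mul_pow, ← hxe, ← hxe']
          ring
        field_simp
        linear_combination e1)
  have hzf : ∀ γ : AlgebraicClosure K ≃ₐ[K] AlgebraicClosure K, γ • z = z := by
    intro γ
    have h1 := hz1 γ (by
      rw [IntermediateField.fixingSubgroup_bot]
      exact Subgroup.mem_top γ)
    change C.px (γ • (0 : Pt C.W₁ (AlgebraicClosure K))) (γ • z) = C.px 0 z at h1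
    rw [smul_zero, C.px_eq_iff] at h1
    rcases h1 with h1 | h1
    · exact h1.2.symm
    · exfalso
      have h2 : C.t (AlgebraicClosure K) = 0 := by
        have h3 := h1.1
        rw [zero_add] at h3
        exact h3.symm
      exact WeierstrassCurve.Affine.Point.some_ne_zero _ h2
  obtain ⟨y'', hy''⟩ := exists_desc (K := K) hzf
  refine ⟨y'', ?_⟩
  rw [← sub_eq_iff_eq_add']
  refine dsc_map_inj j ?_
  rw [← hz2, map_add]
  rw [← hy'']

/-- Base change. Proof: an embedding of `AlgebraicClosure F` in `AlgebraicClosure K`; every root of `g` in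
`AlgebraicClosure K` comes from one in `AlgebraicClosure F`. -/
theorem dl_bc {c₀ : F[X]} {y : Pt C.W₂ F} (h : C.Dl F c₀ y) :
    C.Dl K c₀ (Pt.map C.W₂ (IsScalarTower.toAlgHom F F K) y) := by
  intro e' he'
  let σ : AlgebraicClosure F →ₐ[F] AlgebraicClosure K := IsAlgClosed.lift
  have hg : C.g ≠ 0 := by
    intro h0
    have h1 : C.g.coeff 3 = 1 := by
      simp [Cf.g]
    rw [h0, Polynomial.coeff_zero] at h1
    exact zero_ne_one h1
  have hex : ∃ e : AlgebraicClosure F, aeval e C.g = 0 ∧ σ e = e' := by
    have hsp : (C.g.map (algebraMap F (AlgebraicClosure F))).Splits :=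
      IsAlgClosed.splits _
    have h1 : e' ∈ (C.g.map (algebraMap F (AlgebraicClosure K))).roots := by
      rw [Polynomial.mem_roots (Polynomial.map_ne_zero hg), Polynomial.IsRoot.def,
        Polynomial.eval_map_algebraMap]
      exact he'
    have h2 : C.g.map (algebraMap F (AlgebraicClosure K)) =
        (C.g.map (algebraMap F (AlgebraicClosure F))).map (σ : AlgebraicClosure F →+* _) := by
      rw [Polynomial.map_map]
      congr 1
      ext a
      exact (σ.commutes a).symm
    rw [h2, hsp.roots_map] at h1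
    obtain ⟨e, he, hee⟩ := Multiset.mem_map.1 h1
    refine ⟨e, ?_, hee⟩
    rw [Polynomial.mem_roots (Polynomial.map_ne_zero hg), Polynomial.IsRoot.def,
      Polynomial.eval_map_algebraMap] at he
    exact he
  obtain ⟨e, he, rfl⟩ := hex
  obtain ⟨x, hx, hxe⟩ := h e he
  refine ⟨σ x, ?_, ?_⟩
  · have h1 : σ x ∈ (IntermediateField.adjoin F {e}).map σ := ⟨x, hx, rfl⟩
    rw [IntermediateField.adjoin_map, Set.image_singleton] at h1
    have h2 : (IntermediateField.adjoin F {σ e} : IntermediateField F (AlgebraicClosure K)) ≤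
        (IntermediateField.adjoin K {σ e}).restrictScalars F := by
      rw [IntermediateField.adjoin_simple_le_iff]
      exact IntermediateField.mem_adjoin_simple_self K (σ e)
    exact h2 h1
  · rw [← map_pow, ← hxe, map_mul, Polynomial.aeval_algHom_apply]
    congr 1
    unfold Cf.del
    rw [← dsc_th0_map, Pt.map_map', Pt.map_map']
    have h3 : (IsScalarTower.toAlgHom F K (AlgebraicClosure K)).comp
        (IsScalarTower.toAlgHom F F K) =
        σ.comp (IsScalarTower.toAlgHom F F (AlgebraicClosure F)) :=
      AlgHom.ext fun a => (AlgHom.commutes _ a).trans (AlgHom.commutes _ a).symm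
    rw [h3]

end BE
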