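import Pool.Agent.Lib.MP_f80667_ag.Be.DuB
import Pool.Agent.Lib.MP_f80667_ag.Hm.GenS

/-! Duality for number fields. -/

open IsDedekindDomain NumberField

namespace BE

open Hm Dr

variable {N : Type} [Field N] [NumberField N]

private theorem du_unit {w : HeightOneSpectrum (𝓞 N)} {x : Nˣ} (h : w.valuation N (x : N) = 1) :
    Ev w x := by
  refine ⟨1, ?_⟩
  rw [one_pow, mul_one]
  exact h

private theorem du_inv {w : HeightOneSpectrum (𝓞 N)} {x : Nˣ} (h : Ev w x) : Ev w x⁻¹ := by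
  obtain ⟨y, hy⟩ := h
  refine ⟨y⁻¹, ?_⟩
  have h1 : x⁻¹ * y⁻¹ ^ 2 = (x * y ^ 2)⁻¹ := by
    rw [mul_inv, inv_pow]
  rw [h1, Units.val_inv_eq_inv_val, map_inv₀, hy, inv_one]

/-- **Duality, all places.** Proof: let `S` be large (`exists_gen`; it contains the finitely many `w` with `¬ Ev w (a w)`). For `S`-units `c` the symbols `(a w, c)` outside `S` are trivial (`Ev.mem`): `exists_unit` gives `c₀`. For `w ∉ S` take `c` with valuation `exp (- 1)` at `w` and unit outside `S ∪ {w}`: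
comparing `h c` with `tot_even c c₀` (the symbols `(c₀, c)` and `(a w', c)` are equal for `w' ≠ w` and at the real places) gives `c₀ / a w ∈ LNm w c`, so `c₀ / a w ∈ LSq w` (`Ev.sq`). -/
theorem exists_global (a : HeightOneSpectrum (𝓞 N) → Nˣ) (σ : (N →+* ℝ) → Prop)
    (ha : {w | ¬ Ev w (a w)}.Finite)
    (h : ∀ c : Nˣ, {w | a w ∉ LNm w c}.Finite ∧
      Even (Nat.card {w // a w ∉ LNm w c} + Nat.card {ψ : N →+* ℝ // ψ c < 0 ∧ σ ψ})) :
    ∃ c₀ : Nˣ, (∀ w, c₀ / a w ∈ LSq w) ∧ ∀ ψ : N →+* ℝ, ψ c₀ < 0 ↔ σ ψ := by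
  classical
  obtain ⟨S, hS₀, hS⟩ := exists_gen ha.toFinset
  have hev : ∀ w ∉ S, Ev w (a w) := by
    intro w hw
    by_contra h1
    exact hw (hS₀ (ha.mem_toFinset.2 h1))
  have h2 : ∀ w ∉ S, w.valuation N 2 = 1 := by
    intro w hw
    by_contra h1
    exact hw (hS.1 w h1)
  obtain ⟨c₀, hc₀, hc₀S, hσ⟩ := exists_unit hS a σ (by
    intro c hc
    obtain ⟨-, h3⟩ := h c
    have h4 : Nat.card {w // a w ∉ LNm w c} = (S.filter fun w => a w ∉ LNm w c).card := by
      have h5 : Nat.card {w // w ∈ S.filter fun w => a w ∉ LNm w c} =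
          (S.filter fun w => a w ∉ LNm w c).card := by
        rw [Nat.card_eq_fintype_card, Fintype.card_coe]
      rw [← h5]
      refine Nat.card_congr (Equiv.subtypeEquivRight fun w => ?_)
      rw [Finset.mem_filter]
      refine ⟨fun h5 => ⟨?_, h5⟩, fun h5 => h5.2⟩
      by_contra hw
      exact h5 (Ev.mem (h2 w hw) (hev w hw) (du_unit (hc w hw)))
    rw [← h4]
    exact h3)
  refine ⟨c₀, fun w₁ => ?_, hσ⟩
  by_cases hw₁ : w₁ ∈ S
  · exact hc₀S w₁ hw₁
  obtain ⟨c, hc, hc'⟩ := hS.2 w₁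
  obtain ⟨hfin, h3⟩ := h c
  have h4 : Even (tot c c₀) := tot_even c c₀
  have hfin' : {v : HeightOneSpectrum (𝓞 N) | c₀ ∉ LNm v c}.Finite := finite_LNm c c₀
  have h5 : Nat.card {φ : N →+* ℝ // φ c < 0 ∧ φ c₀ < 0} =
      Nat.card {ψ : N →+* ℝ // ψ c < 0 ∧ σ ψ} := by
    refine Nat.card_congr (Equiv.subtypeEquivRight fun ψ => ?_)
    rw [hσ ψ]
  -- the other places
  have h6 : ∀ w, w ≠ w₁ → (c₀ ∉ LNm w c ↔ a w ∉ LNm w c) := by
    intro w hw
    by_cases hwS : w ∈ S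
    · have h7 : c₀ / a w ∈ LNm w c := LSq_le_LNm w c (hc₀S w hwS)
      have h8 : c₀ = c₀ / a w * a w := (div_mul_cancel c₀ (a w)).symm
      rw [not_iff_not]
      conv_lhs => rw [h8]
      exact Subgroup.mul_mem_cancel_left _ h7
    · have h7 : Ev w c := du_unit (hc' w hwS hw)
      exact iff_of_false (not_not.2 (Ev.mem (h2 w hwS) (du_unit (hc₀ w hwS)) h7))
        (not_not.2 (Ev.mem (h2 w hwS) (hev w hwS) h7))
  have h9 : c₀ ∈ LNm w₁ c ↔ a w₁ ∈ LNm w₁ c := by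
    have h10 : Even (Set.ncard {v : HeightOneSpectrum (𝓞 N) | c₀ ∉ LNm v c} +
        Nat.card {ψ : N →+* ℝ // ψ c < 0 ∧ σ ψ}) := by
      rw [← h5]
      exact h4
    have h11 : Even (Set.ncard {w : HeightOneSpectrum (𝓞 N) | a w ∉ LNm w c} +
        Nat.card {ψ : N →+* ℝ // ψ c < 0 ∧ σ ψ}) := h3
    by_contra hne
    by_cases h12 : c₀ ∈ LNm w₁ c
    · have h13 : a w₁ ∉ LNm w₁ c := fun h14 => hne (iff_of_true h12 h14)
      have h14 : {w : HeightOneSpectrum (𝓞 N) | a w ∉ LNm w c} =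
          insert w₁ {v : HeightOneSpectrum (𝓞 N) | c₀ ∉ LNm v c} := by
        ext w
        rw [Set.mem_insert_iff, Set.mem_ofPred_eq, Set.mem_ofPred_eq]
        by_cases hw : w = w₁
        · subst hw
          exact iff_of_true h13 (Or.inl rfl)
        · rw [h6 w hw]
          exact ⟨Or.inr, fun h => h.resolve_left hw⟩
      rw [h14, Set.ncard_insert_of_notMem (fun h : c₀ ∉ LNm w₁ c => h h12) hfin'] at h11
      rw [Nat.even_iff] at h10 h11
      omega
    · have h13 : a w₁ ∈ LNm w₁ c := by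
        by_contra h14
        exact hne (iff_of_false h12 h14)
      have h14 : {v : HeightOneSpectrum (𝓞 N) | c₀ ∉ LNm v c} =
          insert w₁ {w : HeightOneSpectrum (𝓞 N) | a w ∉ LNm w c} := by
        ext w
        rw [Set.mem_insert_iff, Set.mem_ofPred_eq, Set.mem_ofPred_eq]
        by_cases hw : w = w₁
        · subst hw
          exact iff_of_true h12 (Or.inl rfl)
        · rw [h6 w hw]
          exact ⟨Or.inr, fun h => h.resolve_left hw⟩
      rw [h14, Set.ncard_insert_of_notMem (fun h : a w₁ ∉ LNm w₁ c => h h13) hfin] at h10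
      rw [Nat.even_iff] at h10 h11
      omega
  have h15 : c₀ / a w₁ ∈ LNm w₁ c := by
    rw [div_eq_mul_inv, LNm_mul_iff, inv_mem_iff]
    exact h9
  have h16 : Ev w₁ (c₀ / a w₁) := by
    rw [div_eq_mul_inv]
    exact Ev.mul (du_unit (hc₀ w₁ hw₁)) (du_inv (hev w₁ hw₁))
  exact Ev.sq (h2 w₁ hw₁) h16 hc h15

end BE
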