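import Mathlib

/-! A lemma on finite groups with a bilinear form. -/

namespace BE

/-- A totally isotropic subgroup of order at least the square root of the order of the group is its own orthogonal complement. Proof: `|V| = |W| |W^⊥|` for a nondegenerate symmetric form with values in `ZMod 2` on a group of exponent two (the homomorphism `V → Hom(W, ZMod 2)` has
the kernel `W^⊥` and at most `|W|` values, so `|W^⊥| ≥ |V| / |W|`; and `W^⊥ → Hom(V / W, ZMod 2)` is injective, so `|W^⊥| ≤ |V / W| = |V| / |W| ≤ |W|`), `W ≤ W^⊥`. -/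
theorem mem_of_orth {V : Type} [AddCommGroup V] [Finite V] (h2 : ∀ x : V, x + x = 0)
    (B : V →+ V →+ ZMod 2) (hs : ∀ x y, B x y = B y x) (hn : ∀ x, x ≠ 0 → ∃ y, B x y ≠ 0)
    (W : AddSubgroup V) (hW : ∀ x ∈ W, ∀ y ∈ W, B x y = 0) (hc : Nat.card V ≤ Nat.card W ^ 2)
    {x : V} (hx : ∀ y ∈ W, B x y = 0) : x ∈ W := by
  letI : Module (ZMod 2) V := AddCommGroup.zmodModule fun x => by rw [two_nsmul, h2]
  haveI : Fact (Nat.Prime 2) := ⟨Nat.prime_two⟩
  haveI : Module.Finite (ZMod 2) V := Module.Finite.of_finite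
  let b0 : V →+ (V →ₗ[ZMod 2] ZMod 2) :=
    { toFun := fun x => (B x).toZModLinearMap 2
      map_zero' := by
        ext y
        change B 0 y = 0
        rw [map_zero, AddMonoidHom.zero_apply]
      map_add' := fun x y => by
        ext z
        change B (x + y) z = B x z + B y z
        rw [map_add, AddMonoidHom.add_apply] }
  let b : LinearMap.BilinForm (ZMod 2) V := b0.toZModLinearMap 2
  have hb : ∀ x y, b x y = B x y := fun _ _ => rfl
  have hsep : b.SeparatingLeft := by
    intro x hx
    by_contra hne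
    obtain ⟨y, hy⟩ := hn x hne
    exact hy (hx y)
  have hsepR : b.SeparatingRight := by
    intro x hx
    apply hsep x
    intro y
    rw [hb, hs, ← hb]
    exact hx y
  have hnd : b.Nondegenerate := ⟨hsep, hsepR⟩
  let W' : Submodule (ZMod 2) V := AddSubgroup.toZModSubmodule 2 W
  have hW' : ∀ y, y ∈ W' ↔ y ∈ W := fun _ => Iff.rfl
  have hle : W' ≤ b.orthogonal W' := by
    intro y hy
    rw [LinearMap.BilinForm.mem_orthogonal_iff]
    intro z hz
    exact hW z hz y hy
  have hcV : Nat.card V = 2 ^ Module.finrank (ZMod 2) V := by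
    rw [Module.natCard_eq_pow_finrank (K := ZMod 2), Nat.card_zmod]
  have hcW : Nat.card W = 2 ^ Module.finrank (ZMod 2) W' := by
    have h1 : Nat.card W' = 2 ^ Module.finrank (ZMod 2) W' := by
      rw [Module.natCard_eq_pow_finrank (K := ZMod 2), Nat.card_zmod]
    exact h1
  have hd : Module.finrank (ZMod 2) V ≤ Module.finrank (ZMod 2) W' * 2 := by
    rw [hcV, hcW, ← pow_mul] at hc
    exact (Nat.pow_le_pow_iff_right (by norm_num)).1 hc
  have ho := LinearMap.BilinForm.finrank_orthogonal hnd W'
  have heq : W' = b.orthogonal W' := Submodule.eq_of_le_of_finrank_le hle (by omega)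
  have hxW : x ∈ b.orthogonal W' := by
    rw [LinearMap.BilinForm.mem_orthogonal_iff]
    intro y hy
    change B y x = 0
    rw [hs]
    exact hx y hy
  rw [← heq] at hxW
  exact hxW

end BE
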