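import Pool.Agent.Lib.MP_f80667_ag.Dr.N1
import Pool.Agent.Lib.MP_f80667_ag.Dr.Loc3
import Pool.Agent.Lib.MP_f80667_ag.Hm.Cor
import Pool.Agent.Lib.MP_f80667_ag.Hm.SUnit

/-! Symbols at the places outside `S`, and elements which are local squares at the places of `S`. -/

open IsDedekindDomain NumberField

namespace BE

open Hm Dr

variable {N : Type} [Field N] [NumberField N]

/-- Up to squares `x` is a unit at `w`. -/
def Ev (w : HeightOneSpectrum (𝓞 N)) (x : Nˣ) : Prop :=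
  ∃ y : Nˣ, w.valuation N ((x * y ^ 2 : Nˣ) : N) = 1

theorem Ev.mul {w : HeightOneSpectrum (𝓞 N)} {x y : Nˣ} (hx : Ev w x) (hy : Ev w y) :
    Ev w (x * y) := by
  obtain ⟨a, ha⟩ := hx
  obtain ⟨b, hb⟩ := hy
  refine ⟨a * b, ?_⟩
  have h1 : x * y * (a * b) ^ 2 = x * a ^ 2 * (y * b ^ 2) := by
    rw [mul_pow, mul_mul_mul_comm]
  rw [h1, Units.val_mul, map_mul, ha, hb, one_mul]

/-- Symbols of units are trivial. -/
theorem Ev.mem {w : HeightOneSpectrum (𝓞 N)} (h2 : w.valuation N 2 = 1) {x c : Nˣ} (hx : Ev w x)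
    (hc : Ev w c) : x ∈ LNm w c := by
  obtain ⟨a, ha⟩ := hx
  obtain ⟨b, hb⟩ := hc
  have h1 : LNm w c = LNm w (c * b ^ 2) := by
    apply LNm_congr
    have h3 : c / (c * b ^ 2) = (b ^ 2)⁻¹ := by
      rw [div_mul_eq_div_div, div_self', one_div]
    rw [h3]
    exact inv_mem (sq_mem_LSq w b)
  have h2 := unit_mem_LNm h2 hb ha
  rw [← h1] at h2
  have h3 : x = x * a ^ 2 / a ^ 2 := by rw [mul_div_cancel_right]
  rw [h3]
  exact div_mem h2 (LSq_le_LNm w c (sq_mem_LSq w a))

/-- A unit which is a norm from `√c`, `c` a uniformizer, is a square. Proof: `LNm_comm`, `odd_notMem_LNm`. -/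
theorem Ev.sq {w : HeightOneSpectrum (𝓞 N)} (h2 : w.valuation N 2 = 1) {x c : Nˣ} (hx : Ev w x)
    (hc : w.valuation N (c : N) = WithZero.exp (-1 : ℤ)) (h : x ∈ LNm w c) : x ∈ LSq w := by
  obtain ⟨a, ha⟩ := hx
  have hx' : x = x * a ^ 2 / a ^ 2 := by rw [mul_div_cancel_right]
  by_contra hcon
  have h3 : x * a ^ 2 ∉ LSq w := by
    intro h3
    apply hcon
    rw [hx']
    exact div_mem h3 (sq_mem_LSq w a)
  have h4 : x * a ^ 2 ∈ LNm w c := mul_mem h (LSq_le_LNm w c (sq_mem_LSq w a))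
  exact odd_notMem_LNm h2 ha h3 (m := -1) ⟨-1, by norm_num⟩ hc (LNm_comm.1 h4)

/-- **Local squares.** Proof: for `w ∉ S` let `c` be an element with `w`-valuation `exp (- 1)` which is a unit outside `S ∪ {w}` (`Gen`). In `Dr.tot_even c u` all the places outside `w` give trivial symbols (`u` is a local square in `S` and positive), so `u ∈ LNm w c` and `u ∈ LSq w` (`Ev.sq`). So `u` is a
local square everywhere and a square by `exists_nonsplit`. -/
theorem isSquare_of_loc {S : Finset (HeightOneSpectrum (𝓞 N))} (hS : Gen S) {u : Nˣ}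
    (hu : ∀ w ∉ S, w.valuation N (u : N) = 1) (hl : ∀ w ∈ S, u ∈ LSq w)
    (hp : ∀ ψ : N →+* ℝ, 0 < ψ u) : IsSquare u := by
  have h2 : ∀ w, w ∉ S → w.valuation N 2 = 1 := by
    intro w hw
    by_contra hcon
    exact hw (hS.1 w hcon)
  have hall : ∀ w, u ∈ LSq w := by
    intro w
    by_cases hw : w ∈ S
    · exact hl w hw
    obtain ⟨c, hc, hc'⟩ := hS.2 w
    have hother : ∀ v, v ≠ w → u ∈ LNm v c := by
      intro v hv
      by_cases hvS : v ∈ S
      · exact LSq_le_LNm v c (hl v hvS)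
      · exact unit_mem_LNm (h2 v hvS) (hc' v hvS hv) (hu v hvS)
    have hmem : u ∈ LNm w c := by
      by_contra hcon
      have he := tot_even c u
      have h3 : IsEmpty {φ : N →+* ℝ // φ c < 0 ∧ φ u < 0} :=
        ⟨fun φ => absurd φ.2.2 (not_lt.2 (hp φ.1).le)⟩
      have h4 : Unique {v : HeightOneSpectrum (𝓞 N) // u ∉ LNm v c} :=
        { default := ⟨w, hcon⟩
          uniq := fun v => Subtype.ext (by
            by_contra h5
            exact v.2 (hother v.1 h5)) }
      have h5 : Nat.card {φ : N →+* ℝ // φ c < 0 ∧ φ u < 0} = 0 := Nat.card_of_isEmpty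
      have h6 : Nat.card {v : HeightOneSpectrum (𝓞 N) // u ∉ LNm v c} = 1 := Nat.card_unique
      rw [tot, h5, h6] at he
      exact absurd he (by decide)
    exact Ev.sq (h2 w hw) ⟨1, by rw [one_pow, mul_one]; exact hu w hw⟩ hc hmem
  by_contra hcon
  obtain ⟨v, -, hv⟩ := exists_nonsplit u hcon ∅
  exact hv (hall v)

end BE
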