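import Pool.Agent.Lib.MP_f80667_ag.Be.DuA
import Pool.Agent.Lib.MP_f80667_ag.Be.DuI
import Pool.Agent.Lib.MP_f80667_ag.Hm.L1
import Pool.Agent.Lib.MP_f80667_ag.Hm.L2

/-! Duality for `S`-units. -/

open IsDedekindDomain NumberField

namespace BE

open Hm Dr

/-- `mem_of_orth` modulo the radical. -/
private theorem DuB_orth {G : Type} [AddCommGroup G] (B : G →+ G →+ ZMod 2)
    (hs : ∀ x y, B x y = B y x) {A : Type} [AddCommGroup A] (f : A →+ G)
    (hW : ∀ a b, B (f a) (f b) = 0) (hi : B.ker.index ≠ 0)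
    (hc : B.ker.index ≤ (B.comp f).ker.index ^ 2) {x : G} (hx : ∀ a, B x (f a) = 0) :
    ∃ a, B (f a) = B x := by
  have hfin : Finite (G ⧸ B.ker) := (Nat.card_ne_zero.1 hi).2
  let B1 : G ⧸ B.ker →+ (G →+ ZMod 2) := QuotientAddGroup.lift B.ker B le_rfl
  have hB1 : ∀ g g' : G, B1 (QuotientAddGroup.mk g) g' = B g g' := fun _ _ => rfl
  have hk : B.ker ≤ B1.flip.ker := by
    intro g hg
    rw [AddMonoidHom.mem_ker] at hg ⊢
    refine AddMonoidHom.ext fun v => ?_
    obtain ⟨g', rfl⟩ := QuotientAddGroup.mk_surjective v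
    rw [AddMonoidHom.flip_apply, hB1, hs, hg]
    rfl
  let B2 : G ⧸ B.ker →+ (G ⧸ B.ker →+ ZMod 2) := QuotientAddGroup.lift B.ker B1.flip hk
  have hB2 : ∀ g g' : G, B2 (QuotientAddGroup.mk g) (QuotientAddGroup.mk g') = B g' g :=
    fun _ _ => rfl
  have h2 : ∀ v : G ⧸ B.ker, v + v = 0 := by
    intro v
    obtain ⟨g, rfl⟩ := QuotientAddGroup.mk_surjective v
    refine (QuotientAddGroup.eq_zero_iff (g + g)).2 ?_
    rw [AddMonoidHom.mem_ker, map_add]
    ext g'
    exact CharTwo.add_self_eq_zero (B g g')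
  let W : AddSubgroup (G ⧸ B.ker) := ((QuotientAddGroup.mk' B.ker).comp f).range
  have hWk : ((QuotientAddGroup.mk' B.ker).comp f).ker = (B.comp f).ker := by
    ext a
    rw [AddMonoidHom.mem_ker, AddMonoidHom.mem_ker]
    exact (QuotientAddGroup.eq_zero_iff (f a)).trans AddMonoidHom.mem_ker
  have hx' : (QuotientAddGroup.mk x : G ⧸ B.ker) ∈ W := by
    refine mem_of_orth h2 B2 ?_ ?_ W ?_ ?_ ?_
    · intro v w
      obtain ⟨g, rfl⟩ := QuotientAddGroup.mk_surjective v
      obtain ⟨g', rfl⟩ := QuotientAddGroup.mk_surjective w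
      rw [hB2, hB2, hs]
    · intro v hv
      obtain ⟨g, rfl⟩ := QuotientAddGroup.mk_surjective v
      by_contra hcon
      push Not at hcon
      refine hv ((QuotientAddGroup.eq_zero_iff g).2 ?_)
      rw [AddMonoidHom.mem_ker]
      ext g'
      have h3 := hcon (QuotientAddGroup.mk g')
      rw [hB2, hs] at h3
      exact h3
    · rintro v ⟨a, rfl⟩ w ⟨b, rfl⟩
      exact hW b a
    · have h3 : Nat.card W = (B.comp f).ker.index := by
        rw [← hWk, AddSubgroup.index_ker]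
      rw [h3]
      exact hc
    · rintro w ⟨a, rfl⟩
      exact (hs _ _).trans (hx a)
  obtain ⟨a, ha⟩ := hx'
  refine ⟨a, ?_⟩
  have h4 := (QuotientAddGroup.eq (s := B.ker)).1 ha
  rw [AddMonoidHom.mem_ker, map_add, map_neg, neg_add_eq_zero] at h4
  exact h4

variable {N : Type} [Field N] [NumberField N]

open Classical in
/-- The symbol at `w`. -/
private noncomputable def DuB_sy (w : HeightOneSpectrum (𝓞 N)) :
    Additive Nˣ →+ Additive Nˣ →+ ZMod 2 :=
  AddMonoidHom.mk' (fun a => AddMonoidHom.mk'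
    (fun b => if a.toMul ∈ LNm w b.toMul then (0 : ZMod 2) else 1) (by
      intro b b'
      have h := LNm_mul_left (v := w) (b := b.toMul) (b' := b'.toMul) (c := a.toMul)
      rw [toMul_add]
      by_cases h1 : a.toMul ∈ LNm w b.toMul <;> by_cases h2 : a.toMul ∈ LNm w b'.toMul <;>
        simp [h, h1, h2, CharTwo.add_self_eq_zero])) (by
      intro a a'
      refine AddMonoidHom.ext fun b => ?_
      have h := LNm_mul_iff (v := w) (b := b.toMul) (c := a.toMul) (d := a'.toMul)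
      change (if (a + a').toMul ∈ LNm w b.toMul then (0 : ZMod 2) else 1) =
        (if a.toMul ∈ LNm w b.toMul then (0 : ZMod 2) else 1) +
          (if a'.toMul ∈ LNm w b.toMul then (0 : ZMod 2) else 1)
      rw [toMul_add]
      by_cases h1 : a.toMul ∈ LNm w b.toMul <;> by_cases h2 : a'.toMul ∈ LNm w b.toMul <;>
        simp [h, h1, h2, CharTwo.add_self_eq_zero])

open Classical in
private theorem DuB_sy_apply (w : HeightOneSpectrum (𝓞 N)) (a b : Nˣ) :
    DuB_sy w (Additive.ofMul a) (Additive.ofMul b) = if a ∉ LNm w b then (1 : ZMod 2) else 0 := by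
  change (if a ∈ LNm w b then (0 : ZMod 2) else 1) = _
  by_cases h : a ∈ LNm w b <;> simp [h]

private theorem DuB_sy_comm (w : HeightOneSpectrum (𝓞 N)) (a b : Additive Nˣ) :
    DuB_sy w a b = DuB_sy w b a := by
  obtain ⟨a, rfl⟩ := Additive.ofMul.surjective a
  obtain ⟨b, rfl⟩ := Additive.ofMul.surjective b
  rw [DuB_sy_apply, DuB_sy_apply]
  by_cases h : a ∈ LNm w b
  · have h' := LNm_comm.1 h
    simp [h, h']
  · have h' : b ∉ LNm w a := fun h1 => h (LNm_comm.1 h1)
    simp [h, h']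

private theorem DuB_sy_eq_zero (w : HeightOneSpectrum (𝓞 N)) (a : Additive Nˣ) :
    (∀ b, DuB_sy w a b = 0) ↔ a.toMul ∈ LSq w := by
  obtain ⟨a, rfl⟩ := Additive.ofMul.surjective a
  constructor
  · intro h
    by_contra hcon
    obtain ⟨c, hc⟩ := exists_notMem_LNm w hcon
    have h1 := h (Additive.ofMul c)
    rw [DuB_sy_apply, if_pos (show a ∉ LNm w c from fun h2 => hc (LNm_comm.1 h2))] at h1
    exact one_ne_zero h1
  · intro h b
    obtain ⟨b, rfl⟩ := Additive.ofMul.surjective b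
    rw [DuB_sy_apply, if_neg]
    exact not_not.2 (LSq_le_LNm w b h)

variable (N) in
/-- The local classes and the signs. -/
private abbrev DuB_G : Type :=
  (HeightOneSpectrum (𝓞 N) → Additive Nˣ) × ((N →+* ℝ) → ZMod 2)

/-- The form. -/
private noncomputable def DuB_B (S : Finset (HeightOneSpectrum (𝓞 N))) :
    DuB_G N →+ DuB_G N →+ ZMod 2 :=
  (∑ w ∈ S, ((DuB_sy w).comp ((Pi.evalAddMonoidHom _ w).comp (AddMonoidHom.fst _ _))).compl₂
      ((Pi.evalAddMonoidHom _ w).comp (AddMonoidHom.fst _ _))) +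
    ∑ ψ : N →+* ℝ, ((AddMonoidHom.mul (R := ZMod 2)).comp
      ((Pi.evalAddMonoidHom _ ψ).comp (AddMonoidHom.snd _ _))).compl₂
      ((Pi.evalAddMonoidHom _ ψ).comp (AddMonoidHom.snd _ _))

private theorem DuB_B_apply (S : Finset (HeightOneSpectrum (𝓞 N))) (x y : DuB_G N) :
    DuB_B S x y = ∑ w ∈ S, DuB_sy w (x.1 w) (y.1 w) + ∑ ψ : N →+* ℝ, x.2 ψ * y.2 ψ := by
  simp only [DuB_B, AddMonoidHom.add_apply, AddMonoidHom.finsetSum_apply]
  rfl

private theorem DuB_B_eq_zero (S : Finset (HeightOneSpectrum (𝓞 N))) (x : DuB_G N) :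
    DuB_B S x = 0 ↔ (∀ w ∈ S, (x.1 w).toMul ∈ LSq w) ∧ x.2 = 0 := by
  classical
  constructor
  · intro h
    constructor
    · intro w hw
      rw [← DuB_sy_eq_zero]
      intro b
      have h1 := DFunLike.congr_fun h (Pi.single w b, 0)
      rw [DuB_B_apply, AddMonoidHom.zero_apply, Finset.sum_eq_single_of_mem w hw] at h1
      · simpa using h1
      · intro w' _ hne
        change DuB_sy w' _ ((Pi.single w b : HeightOneSpectrum (𝓞 N) → Additive Nˣ) w') = 0
        rw [Pi.single_eq_of_ne hne, map_zero]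
    · funext ψ
      have h1 := DFunLike.congr_fun h (0, Pi.single ψ 1)
      rw [DuB_B_apply, AddMonoidHom.zero_apply, Finset.sum_eq_single_of_mem ψ (Finset.mem_univ ψ)] at h1
      · simpa using h1
      · intro ψ' _ hne
        change _ * (Pi.single ψ 1 : (N →+* ℝ) → ZMod 2) ψ' = 0
        rw [Pi.single_eq_of_ne hne, mul_zero]
  · rintro ⟨h1, h2⟩
    refine AddMonoidHom.ext fun y => ?_
    rw [DuB_B_apply, AddMonoidHom.zero_apply, h2, Finset.sum_eq_zero, Finset.sum_eq_zero, add_zero]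
    · intro ψ _
      exact zero_mul _
    · intro w hw
      exact (DuB_sy_eq_zero w (x.1 w)).2 (h1 w hw) _

/-- The index of a joint kernel. -/
private theorem DuB_idx {G ι κ : Type} [AddCommGroup G] [Fintype ι] [Fintype κ] (A : ι → Type)
    [∀ i, AddCommGroup (A i)] [∀ i, Finite (A i)] (g : ∀ i, G →+ A i) (s : G →+ (κ → ZMod 2))
    (K : AddSubgroup G) (hK : ∀ x, x ∈ K ↔ (∀ i, g i x = 0) ∧ s x = 0) :
    K.index ≠ 0 ∧ K.index ≤ (∏ i, Nat.card (A i)) * 2 ^ Nat.card κ := by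
  let f : G →+ (∀ i, A i) × (κ → ZMod 2) := (AddMonoidHom.pi g).prod s
  have hf : K = f.ker := by
    ext x
    rw [hK, AddMonoidHom.mem_ker, Prod.ext_iff]
    exact and_congr funext_iff.symm Iff.rfl
  rw [hf, AddSubgroup.index_ker]
  refine ⟨Nat.card_pos.ne', ?_⟩
  refine (Nat.card_le_card_of_injective _ Subtype.val_injective).trans (le_of_eq ?_)
  rw [Nat.card_prod, Nat.card_pi, Nat.card_fun, Nat.card_zmod]

private theorem DuB_index (S : Finset (HeightOneSpectrum (𝓞 N))) :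
    (DuB_B S).ker.index ≠ 0 ∧ (DuB_B S).ker.index ≤
      (∏ w ∈ S, (LSq w).index) * 2 ^ Nat.card (N →+* ℝ) := by
  have hf : ∀ w : HeightOneSpectrum (𝓞 N), Finite (Nˣ ⧸ LSq w) :=
    fun w => (Nat.card_ne_zero.1 (index_LSq_le w).1).2
  have hf' : ∀ w : S, Finite (Additive (Nˣ ⧸ LSq w.1)) := fun w => hf w.1
  have h := DuB_idx (G := DuB_G N) (ι := S) (κ := N →+* ℝ)
    (fun w => Additive (Nˣ ⧸ LSq w.1))
    (fun w => (MonoidHom.toAdditive (QuotientGroup.mk' (LSq w.1))).comp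
      ((Pi.evalAddMonoidHom _ w.1).comp (AddMonoidHom.fst _ _)))
    (AddMonoidHom.snd _ _) (DuB_B S).ker (by
      intro x
      rw [AddMonoidHom.mem_ker, DuB_B_eq_zero]
      refine and_congr ?_ Iff.rfl
      constructor
      · intro h w
        exact (QuotientGroup.eq_one_iff (x.1 w.1).toMul).2 (h w.1 w.2)
      · intro h w hw
        exact (QuotientGroup.eq_one_iff (x.1 w).toMul).1 (h ⟨w, hw⟩))
  rw [← Finset.prod_coe_sort S fun w => (LSq w).index]
  exact h

open Classical in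
/-- The sign at `ψ`. -/
private noncomputable def DuB_sg (ψ : N →+* ℝ) : Additive Nˣ →+ ZMod 2 :=
  AddMonoidHom.mk' (fun a => if ψ (a.toMul : Nˣ) < 0 then (1 : ZMod 2) else 0) (by
    intro a b
    have ha : ψ (a.toMul : Nˣ) ≠ 0 := (map_ne_zero ψ).2 a.toMul.ne_zero
    have hb : ψ (b.toMul : Nˣ) ≠ 0 := (map_ne_zero ψ).2 b.toMul.ne_zero
    have e : ψ (((a + b).toMul : Nˣ) : N) = ψ (a.toMul : Nˣ) * ψ (b.toMul : Nˣ) := by
      rw [toMul_add, Units.val_mul, map_mul]
    rcases lt_or_gt_of_ne ha with h | h <;> rcases lt_or_gt_of_ne hb with h' | h'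
    · rw [e, if_neg (not_lt_of_gt (mul_pos_of_neg_of_neg h h')), if_pos h, if_pos h']
      rfl
    · rw [e, if_pos (mul_neg_of_neg_of_pos h h'), if_pos h, if_neg (not_lt_of_gt h'), add_zero]
    · rw [e, if_pos (mul_neg_of_pos_of_neg h h'), if_neg (not_lt_of_gt h), if_pos h', zero_add]
    · rw [e, if_neg (not_lt_of_gt (mul_pos h h')), if_neg (not_lt_of_gt h),
        if_neg (not_lt_of_gt h'), add_zero])

/-- The image of an `S`-unit. -/
private noncomputable def DuB_f (S : Finset (HeightOneSpectrum (𝓞 N))) :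
    Additive (US N S) →+ DuB_G N :=
  (AddMonoidHom.prod (AddMonoidHom.pi fun _ => AddMonoidHom.id _) (AddMonoidHom.pi DuB_sg)).comp
    (MonoidHom.toAdditive (US N S).subtype)

open Classical in
/-- The form and the symbols. -/
private theorem DuB_val (S : Finset (HeightOneSpectrum (𝓞 N))) (a : HeightOneSpectrum (𝓞 N) → Nˣ)
    (σ : (N →+* ℝ) → Prop) (c : US N S) :
    DuB_B S (fun w => Additive.ofMul (a w), fun ψ => if σ ψ then 1 else 0)
        (DuB_f S (Additive.ofMul c)) =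
      (((S.filter fun w => a w ∉ LNm w (c : Nˣ)).card +
        Nat.card {ψ : N →+* ℝ // ψ (c : Nˣ) < 0 ∧ σ ψ} : ℕ) : ZMod 2) := by
  rw [DuB_B_apply, Nat.cast_add]
  congr 1
  · rw [Finset.card_filter, Nat.cast_sum]
    refine Finset.sum_congr rfl fun w _ => ?_
    refine (DuB_sy_apply w (a w) (c : Nˣ)).trans ?_
    by_cases h : a w ∈ LNm w (c : Nˣ) <;> simp [h]
  · rw [Nat.card_eq_fintype_card, Fintype.card_subtype, Finset.card_filter, Nat.cast_sum]
    refine Finset.sum_congr rfl fun ψ _ => ?_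
    change (if σ ψ then (1 : ZMod 2) else 0) * (if ψ (c : Nˣ) < 0 then (1 : ZMod 2) else 0) = _
    by_cases h : σ ψ <;> by_cases h' : ψ (c : Nˣ) < 0 <;> simp [h, h']

open Classical in
/-- **Duality.** A family of local classes at the places of `S` and of signs which is orthogonal to all `S`-units comes from an `S`-unit. Proof: `V = ∏_(w ∈ S) N^* / LSq w × ∏_ψ {± 1}` with the form given by the symbols (`[a ∉ LNm w b]`, bilinear by `LNm_mul_iff`, `LNm_mul_left`, symmetric by `LNm_comm`, and `(- 1, - 1)_ψ = - 1`),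
nondegenerate by `exists_notMem_LNm`. `|V| ≤ 4^|S| 2^[N:ℚ] 2^r₁ = (2^(|S| + r₁ + r₂))²` (`prod_L1`). `W` = the image of the `S`-units: isotropic (`tot_even`, `Ev.mem` outside `S`), of order `2^(|S| + r₁ + r₂)` (`card_sq`; injective modulo squares by `isSquare_of_loc`). `mem_of_orth`. -/
theorem exists_unit {S : Finset (HeightOneSpectrum (𝓞 N))} (hS : Gen S)
    (a : HeightOneSpectrum (𝓞 N) → Nˣ) (σ : (N →+* ℝ) → Prop)
    (h : ∀ c : Nˣ, (∀ w ∉ S, w.valuation N (c : N) = 1) →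
      Even ((S.filter fun w => a w ∉ LNm w c).card + Nat.card {ψ : N →+* ℝ // ψ c < 0 ∧ σ ψ})) :
    ∃ c₀ : Nˣ, (∀ w ∉ S, w.valuation N (c₀ : N) = 1) ∧ (∀ w ∈ S, c₀ / a w ∈ LSq w) ∧
      ∀ ψ : N →+* ℝ, ψ c₀ < 0 ↔ σ ψ := by
  classical
  have h2 : ∀ w ∉ S, w.valuation N 2 = 1 := fun w hw => by
    by_contra hcon
    exact hw (hS.1 w hcon)
  -- the form is symmetric
  have hs : ∀ x y : DuB_G N, DuB_B S x y = DuB_B S y x := by
    intro x y
    rw [DuB_B_apply, DuB_B_apply]
    congr 1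
    · exact Finset.sum_congr rfl fun w _ => DuB_sy_comm w _ _
    · exact Finset.sum_congr rfl fun ψ _ => mul_comm _ _
  -- the image of the `S`-units is isotropic
  have hW : ∀ c d : Additive (US N S), DuB_B S (DuB_f S c) (DuB_f S d) = 0 := by
    intro c d
    obtain ⟨c, rfl⟩ := Additive.ofMul.surjective c
    obtain ⟨d, rfl⟩ := Additive.ofMul.surjective d
    have h3 := DuB_val S (fun _ => (c : Nˣ)) (fun ψ => ψ ((c : Nˣ) : N) < 0) d
    refine h3.trans ?_
    rw [ZMod.natCast_eq_zero_iff_even]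
    have h4 := tot_even (d : Nˣ) (c : Nˣ)
    unfold tot at h4
    have h5 : Nat.card {v : HeightOneSpectrum (𝓞 N) // (c : Nˣ) ∉ LNm v (d : Nˣ)} =
        (S.filter fun w => (c : Nˣ) ∉ LNm w (d : Nˣ)).card := by
      rw [← Nat.card_eq_finsetCard]
      refine Nat.card_congr (Equiv.subtypeEquivRight fun v => ?_)
      rw [Finset.mem_filter]
      refine ⟨fun h6 => ⟨?_, h6⟩, fun h6 => h6.2⟩
      by_contra hv
      exact h6 (unit_mem_LNm (h2 v hv) (d.2 v hv) (c.2 v hv))
    rw [h5] at h4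
    exact h4
  -- the number of elements
  obtain ⟨hi, hle⟩ := DuB_index S
  have hker : ((DuB_B S).comp (DuB_f S)).ker ≤ Subgroup.toAddSubgroup (Sq (US N S)) := by
    intro c hc
    obtain ⟨c, rfl⟩ := Additive.ofMul.surjective c
    rw [AddMonoidHom.mem_ker] at hc
    have h3 := (DuB_B_eq_zero S (DuB_f S (Additive.ofMul c))).1 hc
    have h4 : IsSquare (c : Nˣ) := by
      refine isSquare_of_loc hS (fun w hw => c.2 w hw) (fun w hw => h3.1 w hw) fun ψ => ?_
      have h5 := congrFun h3.2 ψ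
      have h6 : (if ψ (c : Nˣ) < 0 then (1 : ZMod 2) else 0) = 0 := h5
      have h7 : ¬ ψ (c : Nˣ) < 0 := fun h8 => by
        rw [if_pos h8] at h6
        exact one_ne_zero h6
      exact lt_of_le_of_ne (not_lt.1 h7) ((map_ne_zero ψ).2 (c : Nˣ).ne_zero).symm
    obtain ⟨y, hy, h5⟩ := mem_sqOf.1 (mem_sqOf_US c.2 h4)
    exact ⟨⟨y, hy⟩, Subtype.ext h5⟩
  have hidx : (DuB_B S).ker.index ≤ ((DuB_B S).comp (DuB_f S)).ker.index ^ 2 := by
    have hne : ((DuB_B S).comp (DuB_f S)).ker.index ≠ 0 := by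
      have hfin : Finite (DuB_G N ⧸ (DuB_B S).ker) := (Nat.card_ne_zero.1 hi).2
      have hfin2 : Finite (DuB_B S).range := Finite.of_equiv _
        (QuotientAddGroup.quotientKerEquivRange (DuB_B S)).toEquiv
      rw [AddSubgroup.index_ker]
      have hle2 : ((DuB_B S).comp (DuB_f S)).range ≤ (DuB_B S).range := by
        rintro _ ⟨z, rfl⟩
        exact ⟨_, rfl⟩
      have hfin3 : Finite ((DuB_B S).comp (DuB_f S)).range :=
        Finite.of_injective _ (AddSubgroup.inclusion_injective hle2)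
      exact Nat.card_pos.ne'
    have h3 := Nat.le_of_dvd (Nat.pos_of_ne_zero hne) (AddSubgroup.index_dvd_of_le hker)
    rw [Subgroup.index_toAddSubgroup, sq_index] at h3
    have h4 : Nat.card (N →+* ℝ) = InfinitePlace.nrRealPlaces N := card_real N
    have h5 := InfinitePlace.card_add_two_mul_card_eq_rank N
    have h6 := InfinitePlace.card_eq_nrRealPlaces_add_nrComplexPlaces N
    calc (DuB_B S).ker.index ≤ (∏ w ∈ S, (LSq w).index) * 2 ^ Nat.card (N →+* ℝ) := hle
      _ ≤ (4 ^ S.card * 2 ^ Module.finrank ℚ N) * 2 ^ Nat.card (N →+* ℝ) :=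
          Nat.mul_le_mul_right _ (prod_L1 S)
      _ = (2 ^ (S.card + Fintype.card (InfinitePlace N))) ^ 2 := by
          rw [show (4 : ℕ) = 2 ^ 2 by norm_num, ← pow_mul, ← pow_add, ← pow_add, ← pow_mul]
          congr 1
          omega
      _ ≤ _ := Nat.pow_le_pow_left h3 2
  obtain ⟨c, hc⟩ := DuB_orth (DuB_B S) hs (DuB_f S) hW hi hidx
    (x := (fun w => Additive.ofMul (a w), fun ψ => if σ ψ then 1 else 0)) (by
      intro c
      obtain ⟨c, rfl⟩ := Additive.ofMul.surjective c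
      rw [DuB_val, ZMod.natCast_eq_zero_iff_even]
      exact h c c.2)
  obtain ⟨c, rfl⟩ := Additive.ofMul.surjective c
  rw [← sub_eq_zero, ← map_sub, DuB_B_eq_zero] at hc
  refine ⟨c, c.2, hc.1, fun ψ => ?_⟩
  have h3 := congrFun hc.2 ψ
  have h4 : (if ψ (c : Nˣ) < 0 then (1 : ZMod 2) else 0) - (if σ ψ then (1 : ZMod 2) else 0) = 0 := h3
  rw [sub_eq_zero] at h4
  by_cases h5 : ψ (c : Nˣ) < 0 <;> by_cases h6 : σ ψ <;> simp [h5, h6] at h4 ⊢

end BE
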