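import Pool.Agent.Lib.MP_f80667_ag.Be.ExB
import Pool.Agent.Lib.MP_f80667_ag.Hm.SUnit

/-! The example: signatures of units. -/

open ZC Polynomial IsDedekindDomain NumberField

namespace BE

namespace ExD

/-- The three real roots. -/
theorem roots (P : ℝ[X]) (hP : P = X ^ 3 + X ^ 2 - 2 * X - 1) : ∃ e₁ e₂ e₃ : ℝ,
    P = (X - Polynomial.C e₁) * (X - Polynomial.C e₂) *
      (X - Polynomial.C e₃) ∧ 1 < e₁ ∧ e₁ < 2 ∧ -1 < e₂ ∧ e₂ < 0 ∧ -2 < e₃ ∧ e₃ < -1 := by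
  let f : ℝ → ℝ := fun x => x ^ 3 + x ^ 2 - 2 * x - 1
  have hc : Continuous f := by fun_prop
  have hf : ∀ x, f x = x ^ 3 + x ^ 2 - 2 * x - 1 := fun _ => rfl
  obtain ⟨e₁, ⟨h11, h12⟩, h1⟩ := intermediate_value_Ioo (by norm_num : (1 : ℝ) ≤ 2)
    hc.continuousOn (show (0 : ℝ) ∈ Set.Ioo (f 1) (f 2) by rw [hf, hf]; constructor <;> norm_num)
  obtain ⟨e₂, ⟨h21, h22⟩, h2⟩ := intermediate_value_Ioo' (by norm_num : (-1 : ℝ) ≤ 0)
    hc.continuousOn (show (0 : ℝ) ∈ Set.Ioo (f 0) (f (-1)) by rw [hf, hf]; constructor <;> norm_num)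
  obtain ⟨e₃, ⟨h31, h32⟩, h3⟩ := intermediate_value_Ioo (by norm_num : (-2 : ℝ) ≤ -1)
    hc.continuousOn (show (0 : ℝ) ∈ Set.Ioo (f (-2)) (f (-1)) by
      rw [hf, hf]; constructor <;> norm_num)
  rw [hf] at h1 h2 h3
  refine ⟨e₁, e₂, e₃, ?_, h11, h12, h21, h22, h31, h32⟩
  have a12 : e₁ ^ 2 + e₁ * e₂ + e₂ ^ 2 + (e₁ + e₂) - 2 = 0 := by
    have h : (e₁ - e₂) * (e₁ ^ 2 + e₁ * e₂ + e₂ ^ 2 + (e₁ + e₂) - 2) = 0 := by
      linear_combination h1 - h2
    rcases mul_eq_zero.1 h with h | h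
    · linarith
    · exact h
  have a23 : e₂ ^ 2 + e₂ * e₃ + e₃ ^ 2 + (e₂ + e₃) - 2 = 0 := by
    have h : (e₂ - e₃) * (e₂ ^ 2 + e₂ * e₃ + e₃ ^ 2 + (e₂ + e₃) - 2) = 0 := by
      linear_combination h2 - h3
    rcases mul_eq_zero.1 h with h | h
    · linarith
    · exact h
  have s1 : e₁ + e₂ + e₃ = -1 := by
    have h : (e₁ - e₃) * (e₁ + e₂ + e₃ + 1) = 0 := by
      linear_combination a12 - a23
    rcases mul_eq_zero.1 h with h | h
    · linarith
    · linarith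
  have s2 : e₁ * e₂ + e₁ * e₃ + e₂ * e₃ = -2 := by
    have h : e₃ = -1 - e₁ - e₂ := by linarith
    rw [h]
    linear_combination -a12
  have s3 : e₁ * e₂ * e₃ = 1 := by
    linear_combination h3 + e₃ * s2 - e₃ ^ 2 * s1
  rw [hP]
  have t1 : Polynomial.C e₁ + Polynomial.C e₂ + Polynomial.C e₃ = -1 := by
    rw [← C_add, ← C_add, s1, C_neg, C_1]
  have t2 : Polynomial.C e₁ * Polynomial.C e₂ + Polynomial.C e₁ * Polynomial.C e₃ +
      Polynomial.C e₂ * Polynomial.C e₃ = -2 := by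
    rw [← C_mul, ← C_mul, ← C_mul, ← C_add, ← C_add, s2, C_neg]
    rfl
  have t3 : Polynomial.C e₁ * Polynomial.C e₂ * Polynomial.C e₃ = 1 := by
    rw [← C_mul, ← C_mul, s3, C_1]
  linear_combination X ^ 2 * t1 - X * t2 + t3

theorem card_le (K : Type) [Field K] [NumberField K] (hK : Module.finrank ℚ K = 3) :
    Fintype.card (InfinitePlace K) ≤ 3 := by
  have h := InfinitePlace.card_add_two_mul_card_eq_rank K
  have h2 := InfinitePlace.card_eq_nrRealPlaces_add_nrComplexPlaces K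
  rw [hK] at h
  omega

/-- The group of the signs. -/
abbrev Sg : Type := Fin 3 → SignTypeˣ

theorem card_Sg : Nat.card Sg = 8 := by
  rw [Nat.card_eq_fintype_card, Fintype.card_fun, Fintype.card_fin]
  rfl

theorem gen_Sg (t : Sg) : ∃ i j k : Fin 2, t = (fun _ => -1 : Sg) ^ (i : ℕ) *
    (![1, -1, -1] : Sg) ^ (j : ℕ) * (![1, 1, -1] : Sg) ^ (k : ℕ) := by
  revert t
  decide

/-- The signatures. -/
noncomputable def sg {K : Type} [Field K] (ψ : Fin 3 → (K →+* ℝ)) : Kˣ →* Sg :=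
  MonoidHom.pi fun i => (Units.map ((signHom : ℝ →*₀ SignType) : ℝ →* SignType)).comp
    (Units.map (ψ i : K →* ℝ))

theorem sg_pos {K : Type} [Field K] (ψ : Fin 3 → (K →+* ℝ)) (x : Kˣ) (i : Fin 3)
    (h : 0 < ψ i x) : sg ψ x i = 1 := by
  apply Units.ext
  exact sign_pos h

theorem sg_neg {K : Type} [Field K] (ψ : Fin 3 → (K →+* ℝ)) (x : Kˣ) (i : Fin 3)
    (h : ψ i x < 0) : sg ψ x i = -1 := by
  apply Units.ext
  exact sign_neg h

theorem pos_sq (K : Type) [Field K] [NumberField K] (hK : Module.finrank ℚ K = 3) (θ : K)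
    (hθ : θ ^ 3 + θ ^ 2 - 2 * θ - 1 = 0) (ψ : Fin 3 → (K →+* ℝ)) (h0 : 1 < ψ 0 θ)
    (h1 : -1 < ψ 1 θ) (h1' : ψ 1 θ < 0) (h2 : ψ 2 θ < -1) {u : Kˣ}
    (hu : ∀ w : HeightOneSpectrum (𝓞 K), w.valuation K (u : K) = 1)
    (hp : ∀ i, 0 < ψ i u) : IsSquare u := by
  have hint : IsIntegral ℤ θ := by
    refine ⟨X ^ 3 + X ^ 2 - 2 * X - 1, ?_, ?_⟩
    · monicity!
    · simp only [eval₂_sub, eval₂_add, eval₂_mul, eval₂_X_pow, eval₂_X, eval₂_one, eval₂_ofNat]
      exact hθ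
  let t : 𝓞 K := ⟨θ, hint⟩
  have ht : ((t : 𝓞 K) : K) = θ := rfl
  have ht3 : t ^ 3 + t ^ 2 - 2 * t - 1 = 0 := by
    apply RingOfIntegers.ext
    simp only [map_sub, map_add, map_pow, map_mul, map_one, map_ofNat, map_zero]
    exact hθ
  let b : (𝓞 K)ˣ := Units.mkOfMulEqOne t (t ^ 2 + t - 2) (by linear_combination ht3)
  let c : (𝓞 K)ˣ := Units.mkOfMulEqOne (1 + t) (-(t ^ 2 - 2)) (by linear_combination -ht3)
  let g : (𝓞 K)ˣ →* Sg := ((sg ψ).comp (Hm.US K ∅).subtype).comp (Hm.inclU K ∅)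
  have hg : ∀ x : (𝓞 K)ˣ, g x = sg ψ (Hm.inclU K ∅ x : Kˣ) := fun _ => rfl
  have hgv : ∀ x : (𝓞 K)ˣ, ((Hm.inclU K ∅ x : Kˣ) : K) = ((x : 𝓞 K) : K) := fun _ => rfl
  have ga : g (-1) = fun _ => -1 := by
    funext i
    rw [hg]
    refine sg_neg ψ _ i ?_
    rw [hgv]
    simp
  have gb : g b = ![1, -1, -1] := by
    funext i
    rw [hg]
    fin_cases i
    · refine sg_pos ψ _ 0 ?_
      rw [hgv]
      change 0 < ψ 0 θ
      linarith
    · refine sg_neg ψ _ 1 ?_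
      rw [hgv]
      exact h1'
    · refine sg_neg ψ _ 2 ?_
      rw [hgv]
      change ψ 2 θ < 0
      linarith
  have gc : g c = ![1, 1, -1] := by
    funext i
    rw [hg]
    have hc : ∀ i, ψ i ((c : 𝓞 K) : K) = 1 + ψ i θ := by
      intro i
      change ψ i (algebraMap (𝓞 K) K (1 + t)) = _
      rw [map_add, map_one, map_add, map_one]
      rfl
    fin_cases i
    · refine sg_pos ψ _ 0 ?_
      rw [hgv, hc]
      linarith
    · refine sg_pos ψ _ 1 ?_
      rw [hgv, hc]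
      linarith
    · refine sg_neg ψ _ 2 ?_
      rw [hgv, hc]
      linarith
  let f : Hm.US K ∅ →* Sg := (sg ψ).comp (Hm.US K ∅).subtype
  have hsur : f.range = ⊤ := by
    rw [MonoidHom.range_eq_top]
    intro s
    obtain ⟨i, j, k, hs⟩ := gen_Sg s
    refine ⟨Hm.inclU K ∅ ((-1) ^ (i : ℕ) * b ^ (j : ℕ) * c ^ (k : ℕ)), ?_⟩
    change g _ = s
    rw [hs, map_mul, map_mul, map_pow, map_pow, map_pow, ga, gb, gc]
  have hker : f.ker.index = 8 := by
    rw [Subgroup.index_ker, hsur, ← card_Sg]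
    exact Nat.card_congr (Equiv.Set.univ _)
  have hle : Hm.Sq (Hm.US K ∅) ≤ f.ker := by
    rintro x ⟨y, rfl⟩
    rw [MonoidHom.mem_ker]
    change f (y ^ 2) = 1
    rw [map_pow]
    funext i
    have : ∀ z : SignTypeˣ, z ^ 2 = 1 := by decide
    exact this _
  have hidx : (Hm.Sq (Hm.US K ∅)).index ≤ 8 := by
    rw [Hm.sq_index, Finset.card_empty, zero_add]
    calc 2 ^ Fintype.card (InfinitePlace K) ≤ 2 ^ 3 :=
          Nat.pow_le_pow_right (by norm_num) (card_le K hK)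
      _ = 8 := rfl
  have hrel := Subgroup.relIndex_mul_index hle
  rw [hker] at hrel
  have hpos : (Hm.Sq (Hm.US K ∅)).index ≠ 0 := by
    rw [Hm.sq_index]
    positivity
  have hone : (Hm.Sq (Hm.US K ∅)).relIndex f.ker = 1 := by omega
  have hle' : f.ker ≤ Hm.Sq (Hm.US K ∅) := Subgroup.relIndex_eq_one.1 hone
  have hmem : u ∈ Hm.US K ∅ := by
    intro w _
    exact hu w
  have hk : (⟨u, hmem⟩ : Hm.US K ∅) ∈ f.ker := by
    rw [MonoidHom.mem_ker]
    funext i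
    exact sg_pos ψ u i (hp i)
  obtain ⟨y, hy⟩ := hle' hk
  refine ⟨(y : Kˣ), ?_⟩
  have h := congrArg (fun z : Hm.US K ∅ => (z : Kˣ)) hy
  change (y : Kˣ) ^ 2 = u at h
  rw [← h, sq]

section key

variable {F : Type} [Field F] (C : Cf F) {K : Type} [Field K] [Algebra F K]

/-- `del` and a field extension. -/
theorem del_map {L : Type} [Field L] [Algebra F L] [Algebra K L] [IsScalarTower F K L] (e : K)
    (y : Pt C.W₂ K) : C.del (algebraMap K L e)
      (Pt.map _ (IsScalarTower.toAlgHom F K L) y) = algebraMap K L (C.del e y) := by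
  classical
  match y with
  | .zero =>
    change (1 : L) = algebraMap K L 1
    rw [map_one]
  | .some w v h =>
    change (if algebraMap K L w = algebraMap K L e then aeval (algebraMap K L e) (derivative C.g)
      else 1 * (algebraMap K L w - algebraMap K L e)) = algebraMap K L
        (if w = e then aeval e (derivative C.g) else 1 * (w - e))
    by_cases hw : w = e
    · rw [if_pos hw, if_pos (congrArg _ hw), aeval_algebraMap_apply]
    · rw [if_neg hw, if_neg fun h => hw ((algebraMap K L).injective h), one_mul, one_mul, map_sub]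

/-- The condition of `Dl` for a root in `K`. -/
theorem Dl_root {c₀ : F[X]} {y : Pt C.W₂ K} (hD : C.Dl K c₀ y) {e : K} (he : aeval e C.g = 0) :
    ∃ x : K, aeval e c₀ * C.del e y = x ^ 2 := by
  have he' : aeval (algebraMap K (AlgebraicClosure K) e) C.g = 0 := by
    rw [aeval_algebraMap_apply, he, map_zero]
  obtain ⟨x, hx, h⟩ := hD _ he'
  have hb : IntermediateField.adjoin K {algebraMap K (AlgebraicClosure K) e} = ⊥ :=
    IntermediateField.adjoin_simple_eq_bot_iff.2 (IntermediateField.algebraMap_mem _ _)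
  rw [hb, IntermediateField.mem_bot] at hx
  obtain ⟨x₀, rfl⟩ := hx
  refine ⟨x₀, (algebraMap K (AlgebraicClosure K)).injective ?_⟩
  rw [map_mul, map_pow, ← h, del_map, aeval_algebraMap_apply]

/-- The real place. -/
theorem real_key {c₀ : F[X]} {y : Pt C.W₂ K} (hD : C.Dl K c₀ y) (hc : IsCoprime c₀ C.g)
    (φ : K ≃+* ℝ) {ι : F →+* ℝ} (hι : ∀ a, φ (algebraMap F K a) = ι a) {e₁ e₂ e₃ : ℝ}
    (he : C.g.map ι = (X - Polynomial.C e₁) * (X - Polynomial.C e₂) * (X - Polynomial.C e₃))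
    (h12 : e₂ < e₁) (h23 : e₃ < e₂) :
    (0 < eval₂ ι e₁ c₀ ∧ 0 < eval₂ ι e₂ c₀ ∧ 0 < eval₂ ι e₃ c₀) ∨
      (eval₂ ι e₁ c₀ < 0 ∧ eval₂ ι e₂ c₀ < 0 ∧ 0 < eval₂ ι e₃ c₀) := by
  classical
  have hev : ∀ x : ℝ, eval₂ ι x C.g = (x - e₁) * (x - e₂) * (x - e₃) := by
    intro x
    rw [eval₂_eq_eval_map, he]
    simp only [eval_mul, eval_sub, eval_X, eval_C]
  have hder : ∀ x : ℝ, eval₂ ι x (derivative C.g) =
      (x - e₂) * (x - e₃) + (x - e₁) * (x - e₃) + (x - e₁) * (x - e₂) := by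
    intro x
    rw [eval₂_eq_eval_map, ← derivative_map, he]
    simp only [derivative_mul, derivative_sub, derivative_X, derivative_C, eval_mul, eval_sub,
      eval_X, eval_C, eval_add, sub_zero, one_mul, mul_one]
    ring
  have hφ : ∀ (x : K) (P : F[X]), φ (aeval x P) = eval₂ ι (φ x) P := by
    intro x P
    rw [aeval_def]
    change (φ : K →+* ℝ) (eval₂ (algebraMap F K) x P) = _
    rw [hom_eval₂]
    congr 1
    ext a
    exact hι a
  have hroot : ∀ t : ℝ, eval₂ ι t C.g = 0 → eval₂ ι t c₀ ≠ 0 ∧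
      ∃ x : ℝ, eval₂ ι t c₀ * φ (C.del (φ.symm t) y) = x ^ 2 := by
    intro t ht
    constructor
    · intro h0
      obtain ⟨A, B, hAB⟩ := hc
      have h := congrArg (eval₂ ι t) hAB
      rw [eval₂_add, eval₂_mul, eval₂_mul, ht, h0, mul_zero, mul_zero, add_zero, eval₂_one] at h
      exact zero_ne_one h
    · have hr : aeval (φ.symm t) C.g = 0 := by
        apply φ.injective
        rw [hφ, map_zero, RingEquiv.apply_symm_apply, ht]
      obtain ⟨x, hx⟩ := Dl_root C hD hr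
      refine ⟨φ x, ?_⟩
      rw [← map_pow, ← hx, map_mul, hφ, RingEquiv.apply_symm_apply]
  obtain ⟨n1, x1, hx1⟩ := hroot e₁ (by rw [hev, sub_self, zero_mul, zero_mul])
  obtain ⟨n2, x2, hx2⟩ := hroot e₂ (by rw [hev, sub_self, mul_zero, zero_mul])
  obtain ⟨n3, x3, hx3⟩ := hroot e₃ (by rw [hev, sub_self, mul_zero])
  have hpos : ∀ a b x : ℝ, a ≠ 0 → b ≠ 0 → a * b = x ^ 2 → (0 < a ↔ 0 < b) := by
    intro a b x ha hb h
    have h1 : 0 < a * b := lt_of_le_of_ne (h ▸ sq_nonneg x) (mul_ne_zero ha hb).symm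
    exact pos_iff_pos_of_mul_pos h1
  have key : ∀ d1 d2 d3 : ℝ, φ (C.del (φ.symm e₁) y) = d1 → φ (C.del (φ.symm e₂) y) = d2 →
      φ (C.del (φ.symm e₃) y) = d3 → ((0 < d1 ∧ 0 < d2 ∧ 0 < d3) ∨ (d1 < 0 ∧ d2 < 0 ∧ 0 < d3)) →
      (0 < eval₂ ι e₁ c₀ ∧ 0 < eval₂ ι e₂ c₀ ∧ 0 < eval₂ ι e₃ c₀) ∨
      (eval₂ ι e₁ c₀ < 0 ∧ eval₂ ι e₂ c₀ < 0 ∧ 0 < eval₂ ι e₃ c₀) := by
    intro d1 d2 d3 r1 r2 r3 h
    rw [r1] at hx1
    rw [r2] at hx2
    rw [r3] at hx3
    rcases h with ⟨a1, a2, a3⟩ | ⟨a1, a2, a3⟩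
    · left
      exact ⟨(hpos _ _ _ n1 a1.ne' hx1).2 a1, (hpos _ _ _ n2 a2.ne' hx2).2 a2,
        (hpos _ _ _ n3 a3.ne' hx3).2 a3⟩
    · right
      refine ⟨lt_of_le_of_ne (not_lt.1 fun h => ?_) n1, lt_of_le_of_ne (not_lt.1 fun h => ?_) n2,
        (hpos _ _ _ n3 a3.ne' hx3).2 a3⟩
      · exact absurd ((hpos _ _ _ n1 a1.ne hx1).1 h) (not_lt.2 a1.le)
      · exact absurd ((hpos _ _ _ n2 a2.ne hx2).1 h) (not_lt.2 a2.le)
  match y with
  | .zero =>
    refine key 1 1 1 (map_one φ) (map_one φ) (map_one φ) (Or.inl ⟨one_pos, one_pos, one_pos⟩)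
  | .some w v h =>
    have heq : v ^ 2 = aeval w C.g := by
      have h1 := h.1
      rw [WeierstrassCurve.Affine.equation_iff] at h1
      simp only [Cf.W₂, WeierstrassCurve.baseChange, WeierstrassCurve.map, map_zero] at h1
      rw [Cf.g]
      simp only [map_add, map_mul, map_pow, aeval_X, aeval_C]
      linear_combination h1
    have hge : 0 ≤ (φ w - e₁) * (φ w - e₂) * (φ w - e₃) := by
      rw [← hev, ← hφ, ← heq, map_pow]
      exact sq_nonneg _
    have hdel : ∀ t : ℝ, φ (C.del (φ.symm t) (WeierstrassCurve.Affine.Point.some w v h)) =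
        if φ w = t then eval₂ ι t (derivative C.g) else φ w - t := by
      intro t
      change φ (if w = φ.symm t then aeval (φ.symm t) (derivative C.g)
        else 1 * (w - φ.symm t)) = _
      by_cases hw : φ w = t
      · have hw' : w = φ.symm t := by rw [← hw, RingEquiv.symm_apply_apply]
        rw [if_pos hw', if_pos hw, hφ, RingEquiv.apply_symm_apply]
      · have hw' : w ≠ φ.symm t := fun h => hw (by rw [h, RingEquiv.apply_symm_apply])
        rw [if_neg hw', if_neg hw, one_mul, map_sub, RingEquiv.apply_symm_apply]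
    refine key _ _ _ (hdel e₁) (hdel e₂) (hdel e₃) ?_
    have h13 : e₃ < e₁ := h23.trans h12
    rcases lt_trichotomy (φ w) e₁ with c1 | c1 | c1
    · rcases lt_trichotomy (φ w) e₂ with c2 | c2 | c2
      · rcases lt_trichotomy (φ w) e₃ with c3 | c3 | c3
        · exfalso
          have : (φ w - e₁) * (φ w - e₂) * (φ w - e₃) < 0 :=
            mul_neg_of_pos_of_neg (mul_pos_of_neg_of_neg (by linarith) (by linarith)) (by linarith)
          linarith
        · right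
          rw [if_neg c1.ne, if_neg c2.ne, if_pos c3, hder]
          refine ⟨by linarith, by linarith, ?_⟩
          have : 0 < (e₃ - e₁) * (e₃ - e₂) := mul_pos_of_neg_of_neg (by linarith) (by linarith)
          linarith
        · right
          rw [if_neg c1.ne, if_neg c2.ne, if_neg c3.ne']
          exact ⟨by linarith, by linarith, by linarith⟩
      · right
        rw [if_neg c1.ne, if_pos c2, if_neg (by rw [c2]; exact h23.ne'), hder]
        refine ⟨by linarith, ?_, by linarith⟩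
        have : (e₂ - e₁) * (e₂ - e₃) < 0 := mul_neg_of_neg_of_pos (by linarith) (by linarith)
        linarith
      · exfalso
        have : (φ w - e₁) * (φ w - e₂) * (φ w - e₃) < 0 :=
          mul_neg_of_neg_of_pos (mul_neg_of_neg_of_pos (by linarith) (by linarith)) (by linarith)
        linarith
    · left
      rw [if_pos c1, if_neg (by rw [c1]; exact h12.ne'), if_neg (by rw [c1]; exact h13.ne'), hder]
      refine ⟨?_, by linarith, by linarith⟩
      have : 0 < (e₁ - e₂) * (e₁ - e₃) := mul_pos (by linarith) (by linarith)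
      linarith
    · left
      rw [if_neg c1.ne', if_neg (by linarith [c1] : φ w ≠ e₂), if_neg (by linarith : φ w ≠ e₃)]
      exact ⟨by linarith, by linarith, by linarith⟩

end key

section cab

variable (a b : ℤ) (hb : b ≠ 0) (hab : a ^ 2 - 4 * b ≠ 0)

theorem Cab_g : (Cab a b hb hab).g = X ^ 3 + X ^ 2 - 2 * X - 1 := by
  rw [Cf.g]
  change X ^ 3 + Polynomial.C (1 : ℚ) * X ^ 2 + Polynomial.C (-2 : ℚ) * X +
    Polynomial.C (-1 : ℚ) = _
  rw [C_1, C_neg, C_neg, C_1]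
  have : (Polynomial.C 2 : ℚ[X]) = 2 := rfl
  rw [this]
  ring

theorem root_eq {P : ℚ[X]} (hP : P = X ^ 3 + X ^ 2 - 2 * X - 1) :
    AdjoinRoot.root P ^ 3 + AdjoinRoot.root P ^ 2 - 2 * AdjoinRoot.root P - 1 = 0 := by
  have h : eval₂ (AdjoinRoot.of P) (AdjoinRoot.root P) (X ^ 3 + X ^ 2 - 2 * X - 1 : ℚ[X]) = 0 := by
    rw [← hP]
    exact AdjoinRoot.eval₂_root P
  simpa only [eval₂_sub, eval₂_add, eval₂_mul, eval₂_X_pow, eval₂_X, eval₂_one, eval₂_ofNat]
    using h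

end cab

end ExD

/-- The three real roots `e₁ > e₂ > e₃` of `g`. Proof: intermediate values: `g(-2) = -1`, `g(-1) = 1`, `g(0) = -1`, `g(1) = -1`, `g(2) = 7`. -/
theorem roots7 (a b : ℤ) (hb : b ≠ 0) (hab : a ^ 2 - 4 * b ≠ 0) : ∃ e₁ e₂ e₃ : ℝ,
    (Cab a b hb hab).g.map (algebraMap ℚ ℝ) = (X - Polynomial.C e₁) * (X - Polynomial.C e₂) *
      (X - Polynomial.C e₃) ∧ 1 < e₁ ∧ e₁ < 2 ∧ -1 < e₂ ∧ e₂ < 0 ∧ -2 < e₃ ∧ e₃ < -1 := by
  refine ExD.roots _ ?_
  rw [ExD.Cab_g]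
  simp only [Polynomial.map_sub, Polynomial.map_add, Polynomial.map_mul, Polynomial.map_pow,
    Polynomial.map_X, Polynomial.map_one, Polynomial.map_ofNat]

/-- **Totally positive units are squares.** Proof: the group of units modulo squares has order `8` (`Hm.sq_index` for `S = ∅`, three real places), and the signatures of `- 1`, `e`, `1 + e` are `(-, -, -)`, `(+, -, -)`, `(+, +, -)` at `(e₁, e₂, e₃)`, so the homomorphism to the group `{± 1}³` of
signatures is surjective and hence injective. -/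
theorem sq_of_pos (a b : ℤ) (hb : b ≠ 0) (hab : a ^ 2 - 4 * b ≠ 0)
    {u : (AdjoinRoot (Cab a b hb hab).g)ˣ}
    (hu : ∀ w : HeightOneSpectrum (𝓞 (AdjoinRoot (Cab a b hb hab).g)),
      w.valuation _ (u : AdjoinRoot (Cab a b hb hab).g) = 1)
    (hp : ∀ ψ : AdjoinRoot (Cab a b hb hab).g →+* ℝ, 0 < ψ u) : IsSquare u := by
  have hg := ExD.Cab_g a b hb hab
  have hne : (Cab a b hb hab).g ≠ 0 := (irr7 a b hb hab).ne_zero
  have hdeg : (Cab a b hb hab).g.natDegree = 3 := by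
    rw [hg]
    compute_degree!
  have hfd : @FiniteDimensional ℚ (AdjoinRoot (Cab a b hb hab).g) _ _
      (AdjoinRoot.instAlgebra _).toModule := (AdjoinRoot.powerBasis hne).finite
  have hfr : @Module.finrank ℚ (AdjoinRoot (Cab a b hb hab).g) _ _
      (AdjoinRoot.instAlgebra _).toModule = 3 := by
    rw [(AdjoinRoot.powerBasis hne).finrank, AdjoinRoot.powerBasis_dim hne, hdeg]
  have halg : (AdjoinRoot.instAlgebra _ : Algebra ℚ (AdjoinRoot (Cab a b hb hab).g)) =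
    DivisionRing.toRatAlgebra := Subsingleton.elim _ _
  have hcz : CharZero (AdjoinRoot (Cab a b hb hab).g) :=
    charZero_of_injective_algebraMap (@algebraMap ℚ (AdjoinRoot (Cab a b hb hab).g) _ _
      (AdjoinRoot.instAlgebra _)).injective
  rw [halg] at hfd hfr
  have hnf : NumberField (AdjoinRoot (Cab a b hb hab).g) := { to_finiteDimensional := hfd }
  obtain ⟨e₁, e₂, e₃, he, h1, -, h2, h2', -, h3⟩ := roots7 a b hb hab
  have hev : ∀ x : ℝ, eval₂ (algebraMap ℚ ℝ) x (Cab a b hb hab).g =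
      (x - e₁) * (x - e₂) * (x - e₃) := by
    intro x
    rw [eval₂_eq_eval_map, he]
    simp only [eval_mul, eval_sub, eval_X, eval_C]
  have g1 : eval₂ (algebraMap ℚ ℝ) e₁ (Cab a b hb hab).g = 0 := by
    rw [hev, sub_self, zero_mul, zero_mul]
  have g2 : eval₂ (algebraMap ℚ ℝ) e₂ (Cab a b hb hab).g = 0 := by
    rw [hev, sub_self, mul_zero, zero_mul]
  have g3 : eval₂ (algebraMap ℚ ℝ) e₃ (Cab a b hb hab).g = 0 := by
    rw [hev, sub_self, mul_zero]
  refine ExD.pos_sq _ hfr (AdjoinRoot.root _) (ExD.root_eq hg)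
    ![AdjoinRoot.lift (algebraMap ℚ ℝ) e₁ g1, AdjoinRoot.lift (algebraMap ℚ ℝ) e₂ g2,
      AdjoinRoot.lift (algebraMap ℚ ℝ) e₃ g3] ?_ ?_ ?_ ?_ hu fun i => hp _
  · change 1 < AdjoinRoot.lift (algebraMap ℚ ℝ) e₁ g1 (AdjoinRoot.root _)
    rw [AdjoinRoot.lift_root]
    exact h1
  · change -1 < AdjoinRoot.lift (algebraMap ℚ ℝ) e₂ g2 (AdjoinRoot.root _)
    rw [AdjoinRoot.lift_root]
    exact h2
  · change AdjoinRoot.lift (algebraMap ℚ ℝ) e₂ g2 (AdjoinRoot.root _) < 0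
    rw [AdjoinRoot.lift_root]
    exact h2'
  · change AdjoinRoot.lift (algebraMap ℚ ℝ) e₃ g3 (AdjoinRoot.root _) < -1
    rw [AdjoinRoot.lift_root]
    exact h3

/-- The signs of the elements of the Selmer group. Proof: `SelAt` at the real place: `c₀(e_i) (w - e_i) > 0` for a point `(w, v)` of `E₂(ℝ)` (`g'(e_i)` if `w = e_i`; `1` for the point `0`); `g(w) = v² ≥ 0`, so `w ≥ e₁` or `e₃ ≤ w ≤ e₂`, and the signs of the classes are `(+, +, +)` or `(-, -, +)` at `(e₁, e₂, e₃)`. -/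
theorem sgn_sel (a b : ℤ) (hb : b ≠ 0) (hab : a ^ 2 - 4 * b ≠ 0) {c₀ : ℚ[X]}
    (hs : (Cab a b hb hab).SelAt c₀) {e₁ e₂ e₃ : ℝ}
    (he : (Cab a b hb hab).g.map (algebraMap ℚ ℝ) = (X - Polynomial.C e₁) *
      (X - Polynomial.C e₂) * (X - Polynomial.C e₃)) (h12 : e₂ < e₁) (h23 : e₃ < e₂) :
    (0 < aeval e₁ c₀ ∧ 0 < aeval e₂ c₀ ∧ 0 < aeval e₃ c₀) ∨
      (aeval e₁ c₀ < 0 ∧ aeval e₂ c₀ < 0 ∧ 0 < aeval e₃ c₀) := by
  obtain ⟨hc, -, hv⟩ := hs
  obtain ⟨y, hy⟩ := hv Rat.infinitePlace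
  let φ : IK ℚ Rat.infinitePlace ≃+* ℝ :=
    InfinitePlace.Completion.ringEquivRealOfIsReal Rat.isReal_infinitePlace
  exact ExD.real_key _ hy hc φ (ι := algebraMap ℚ ℝ) (fun a => RingHom.congr_fun
    (Subsingleton.elim ((φ : IK ℚ Rat.infinitePlace →+* ℝ).comp
      (algebraMap ℚ (IK ℚ Rat.infinitePlace))) (algebraMap ℚ ℝ)) a) he h12 h23

end BE
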