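import Pool.Agent.Lib.MP_f80667_ag.Be.ExC
import Pool.Agent.Lib.MP_f80667_ag.Be.ExD

/-! The example: the Selmer group. -/

open ZC Polynomial IsDedekindDomain NumberField

namespace BE

/-- An element of `F[w] / g` which is a square gives a class. -/
private theorem dl_of_sq {F : Type} [Field F] [NumberField F] (C : Cf F)
    [Fact (Irreducible C.g)] {c₀ : F[X]} {z s : AdjoinRoot C.g}
    (h : AdjoinRoot.mk C.g c₀ * z = s ^ 2) {y : Pt C.W₂ F}
    (hy : ∀ (e : AlgebraicClosure F) (he : aeval e C.g = 0),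
      C.del e (Pt.map _ (IsScalarTower.toAlgHom F F (AlgebraicClosure F)) y) = emL C he z) :
    C.Dl F c₀ y := by
  intro e he
  refine ⟨emL C he s, ?_, ?_⟩
  · rw [← adj_emL C (K := F) he]
    exact IntermediateField.subset_adjoin _ _ ⟨s, rfl⟩
  · rw [hy e he, ← emL_mk C he c₀, ← map_mul, h, map_pow]

/-- The class of the point `(- 1, 1)`. -/
private theorem del_pt {F : Type} [Field F] (C : Cf F)
    (h : (1 : F) ^ 2 = (-1) ^ 3 + algebraMap F F C.c₂ * (-1) ^ 2 +
      algebraMap F F C.c₁ * (-1) + algebraMap F F C.c₀) {e : AlgebraicClosure F} (he : e ≠ -1) :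
    C.del e (Pt.map _ (IsScalarTower.toAlgHom F F (AlgebraicClosure F)) (C.pt₂ (-1) 1 h)) =
      -1 - e := by
  classical
  change C.th0 _ e 0 (WeierstrassCurve.Affine.Point.map (W' := C.W₂)
    (IsScalarTower.toAlgHom F F (AlgebraicClosure F))
    (WeierstrassCurve.Affine.Point.some _ _ _)) = _
  rw [WeierstrassCurve.Affine.Point.map_some]
  have h1 : (IsScalarTower.toAlgHom F F (AlgebraicClosure F)) (-1) = -1 := by
    rw [map_neg, map_one]
  simp only [Cf.th0]
  rw [h1, if_neg (fun h2 => he h2.symm)]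
  have h2 : C.kap (AlgebraicClosure F) 0 = 1 := rfl
  rw [h2, one_mul]

/-- **The Selmer group of `v² = w³ + w² - 2 w - 1`** comes from the points `0` and `(- 1, 1)`. Proof: `ev_sel`, `pid7`, `exists_unit_of_ev`: `c₀ t²` is a unit `u`; by `sgn_sel` it is totally positive, and a square (`sq_of_pos`), or has the signs `(-, -, +)`, and then `u (- 1 - e)` is totally positive, so a square; `- 1 - e` is
`del e` of the point `(- 1, 1)`. `Dl`: for a root `e` in an algebraic closure the embedding `emL` maps squares to squares of `ℚ(e)`. -/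
theorem Cab_sel (a b : ℤ) (hb : b ≠ 0) (hab : a ^ 2 - 4 * b ≠ 0) : (Cab a b hb hab).Sel := by
  intro c₀ hs
  obtain ⟨u, hu⟩ := exists_cu (Cab a b hb hab) hs.1
  obtain ⟨t, ht⟩ := exists_unit_of_ev (pid7 a b hb hab) (fun w => ev_sel a b hb hab hs hu w)
  obtain ⟨e₁, e₂, e₃, he, h1, h1', h2, h2', h3, h3'⟩ := roots7 a b hb hab
  have hroot : ∀ ψ : AdjoinRoot (Cab a b hb hab).g →+* ℝ, ∃ e : ℝ, (e = e₁ ∨ e = e₂ ∨ e = e₃) ∧
      ∀ c : ℚ[X], ψ (AdjoinRoot.mk _ c) = aeval e c := by
    intro ψ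
    obtain ⟨e, hee, h⟩ := emL_surj (Cab a b hb hab) ψ.toRatAlgHom
    refine ⟨e, ?_, fun c => ?_⟩
    · have h4 := hee
      rw [aeval_def, eval₂_eq_eval_map, he, eval_mul, eval_mul, eval_sub, eval_sub, eval_sub,
        eval_X, eval_C, eval_C, eval_C, mul_eq_zero, mul_eq_zero, sub_eq_zero, sub_eq_zero,
        sub_eq_zero, or_assoc] at h4
      exact h4
    · rw [← emL_mk (Cab a b hb hab) hee c, ← h]
      rfl
  have hψt : ∀ ψ : AdjoinRoot (Cab a b hb hab).g →+* ℝ,
      0 < ψ ((t ^ 2 : (AdjoinRoot (Cab a b hb hab).g)ˣ) : AdjoinRoot (Cab a b hb hab).g) := by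
    intro ψ
    rw [Units.val_pow_eq_pow_val, map_pow]
    exact sq_pos_of_ne_zero (by
      rw [Ne, map_eq_zero]
      exact t.ne_zero)
  rcases sgn_sel a b hb hab hs he (by linarith) (by linarith) with ⟨p1, p2, p3⟩ | ⟨p1, p2, p3⟩
  · obtain ⟨s, hss⟩ := sq_of_pos a b hb hab ht (fun ψ => by
      rw [Units.val_mul, map_mul]
      refine mul_pos ?_ (hψt ψ)
      obtain ⟨e, h4, h5⟩ := hroot ψ
      rw [hu, h5]
      rcases h4 with rfl | rfl | rfl
      · exact p1
      · exact p2
      · exact p3)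
    refine ⟨0, dl_of_sq _ (z := 1)
      (s := ((s * t⁻¹ : (AdjoinRoot (Cab a b hb hab).g)ˣ) : AdjoinRoot (Cab a b hb hab).g))
      ?_ ?_⟩
    · rw [mul_one, ← hu, ← Units.val_pow_eq_pow_val, Units.val_inj, mul_pow, sq s, ← hss,
        inv_pow, mul_inv_cancel_right]
    · intro e _
      rw [map_zero, map_one]
      rfl
  · -- the unit `- 1 - r`
    have hr : (AdjoinRoot.root (Cab a b hb hab).g) ^ 3 + (AdjoinRoot.root (Cab a b hb hab).g) ^ 2 -
        2 * (AdjoinRoot.root (Cab a b hb hab).g) - 1 = 0 := by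
      have h4 : AdjoinRoot.mk (Cab a b hb hab).g (X ^ 3 + X ^ 2 - 2 * X - 1) = 0 := by
        have h5 : (Cab a b hb hab).g = X ^ 3 + X ^ 2 - 2 * X - 1 := by
          simp only [Cf.g, Cab, map_one, map_neg, map_ofNat]
          ring
        rw [← h5, AdjoinRoot.mk_self]
      rw [map_sub, map_sub, map_add, map_mul, map_pow, map_pow, AdjoinRoot.mk_X, map_ofNat,
        map_one] at h4
      exact h4
    obtain ⟨z, hz⟩ : ∃ z : (AdjoinRoot (Cab a b hb hab).g)ˣ,
        (z : AdjoinRoot (Cab a b hb hab).g) = -1 - AdjoinRoot.root (Cab a b hb hab).g :=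
      ⟨⟨-1 - AdjoinRoot.root (Cab a b hb hab).g, (AdjoinRoot.root (Cab a b hb hab).g) ^ 2 - 2,
        by linear_combination -hr, by linear_combination -hr⟩, rfl⟩
    have hint : IsIntegral ℤ (AdjoinRoot.root (Cab a b hb hab).g) := by
      refine ⟨X ^ 3 + X ^ 2 - 2 * X - 1, by monicity!, ?_⟩
      simp only [eval₂_add, eval₂_sub, eval₂_mul, eval₂_pow, eval₂_X, eval₂_one, eval₂_ofNat]
      exact hr
    have hzv : ∀ w : HeightOneSpectrum (𝓞 (AdjoinRoot (Cab a b hb hab).g)),
        w.valuation (AdjoinRoot (Cab a b hb hab).g) (z : AdjoinRoot (Cab a b hb hab).g) = 1 := by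
      intro w
      obtain ⟨r, hrr⟩ : ∃ r : 𝓞 (AdjoinRoot (Cab a b hb hab).g),
          algebraMap _ (AdjoinRoot (Cab a b hb hab).g) r =
            AdjoinRoot.root (Cab a b hb hab).g := ⟨⟨_, hint⟩, rfl⟩
      have h4 : (-1 - r) * (r ^ 2 - 2) = 1 := by
        apply FaithfulSMul.algebraMap_injective (𝓞 (AdjoinRoot (Cab a b hb hab).g))
          (AdjoinRoot (Cab a b hb hab).g)
        simp only [map_mul, map_sub, map_neg, map_one, map_pow, map_ofNat, hrr]
        linear_combination -hr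
      have h5 : w.valuation (AdjoinRoot (Cab a b hb hab).g)
          (algebraMap _ _ (-1 - r)) ≤ 1 := w.valuation_le_one _
      have h6 : w.valuation (AdjoinRoot (Cab a b hb hab).g)
          (algebraMap _ _ (r ^ 2 - 2)) ≤ 1 := w.valuation_le_one _
      have h7 : w.valuation (AdjoinRoot (Cab a b hb hab).g) (algebraMap _ _ (-1 - r)) *
          w.valuation (AdjoinRoot (Cab a b hb hab).g) (algebraMap _ _ (r ^ 2 - 2)) = 1 := by
        rw [← map_mul, ← map_mul, h4, map_one, map_one]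
      have h8 : (z : AdjoinRoot (Cab a b hb hab).g) = algebraMap _ _ (-1 - r) := by
        rw [hz, map_sub, map_neg, map_one, hrr]
      rw [h8]
      exact le_antisymm h5 (by
        rw [← h7]
        exact mul_le_of_le_one_right' h6)
    have hψz : ∀ ψ : AdjoinRoot (Cab a b hb hab).g →+* ℝ, ∀ e : ℝ,
        (∀ c : ℚ[X], ψ (AdjoinRoot.mk _ c) = aeval e c) →
          ψ (z : AdjoinRoot (Cab a b hb hab).g) = -1 - e := by
      intro ψ e h4
      have h5 := h4 X
      rw [AdjoinRoot.mk_X, aeval_X] at h5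
      rw [hz, map_sub, map_neg, map_one, h5]
    obtain ⟨s, hss⟩ := sq_of_pos a b hb hab (u := u * t ^ 2 * z) (fun w => by
      rw [Units.val_mul, map_mul, ht w, hzv w, one_mul]) (fun ψ => by
      rw [Units.val_mul, Units.val_mul, map_mul, map_mul, mul_right_comm]
      refine mul_pos ?_ (hψt ψ)
      obtain ⟨e, h4, h5⟩ := hroot ψ
      rw [hu, h5, hψz ψ e h5]
      rcases h4 with rfl | rfl | rfl
      · exact mul_pos_of_neg_of_neg p1 (by linarith)
      · exact mul_pos_of_neg_of_neg p2 (by linarith)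
      · exact mul_pos p3 (by linarith))
    have hpt : (1 : ℚ) ^ 2 = (-1) ^ 3 + algebraMap ℚ ℚ (Cab a b hb hab).c₂ * (-1) ^ 2 +
        algebraMap ℚ ℚ (Cab a b hb hab).c₁ * (-1) + algebraMap ℚ ℚ (Cab a b hb hab).c₀ := by
      simp only [Cab, Algebra.algebraMap_self, RingHom.id_apply]
      norm_num
    refine ⟨(Cab a b hb hab).pt₂ (-1) 1 hpt, dl_of_sq _
      (z := (z : AdjoinRoot (Cab a b hb hab).g))
      (s := ((s * t⁻¹ : (AdjoinRoot (Cab a b hb hab).g)ˣ) : AdjoinRoot (Cab a b hb hab).g))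
      ?_ ?_⟩
    · rw [← hu, ← Units.val_pow_eq_pow_val, ← Units.val_mul, Units.val_inj, mul_pow, sq s, ← hss,
        inv_pow, mul_right_comm u, mul_inv_cancel_right]
    · intro e hee
      have hne : e ≠ -1 := by
        rintro rfl
        simp only [Cf.g, Cab, map_add, map_mul, map_pow, aeval_X, map_one, map_neg,
          map_ofNat, one_mul] at hee
        apply one_ne_zero (α := AlgebraicClosure ℚ)
        linear_combination hee
      rw [del_pt _ hpt hne, hz, map_sub, map_neg, map_one]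
      congr 1
      have h4 := emL_mk (Cab a b hb hab) hee X
      rw [AdjoinRoot.mk_X, aeval_X] at h4
      exact h4.symm

end BE
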