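import Pool.Agent.Lib.MP_f80667_ag.Be.Lf
import Pool.Agent.Lib.MP_f80667_ag.LF.Abs
import Pool.Agent.Lib.MP_f80667_ag.LF.Adic

/-! The absolute value for the completion of a number field at a finite place. -/

open ZC Polynomial IntermediateField IsDedekindDomain NumberField

namespace BE

instance (F : Type) [Field F] [NumberField F] (v : HeightOneSpectrum (𝓞 F)) :
    CharZero (FK F v) :=
  (inferInstance : CharZero (v.adicCompletion F))

/-! ### Locally compact fields -/

section gen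

open IsLocalRing

variable (k : Type) [NontriviallyNormedField k] [IsUltrametricDist k] [ProperSpace k]
  {Ω : Type} [Field Ω] [Algebra k Ω]

open Pool.Agent.Lib.MP_f80667_ag.LF in
theorem LfE_nm (M : IntermediateField k Ω) (x : M) :
    spectralNorm k M x = spectralNorm k Ω (x : Ω) :=
  spectralNorm.eq_of_tower (K := k) (L := Ω) (E := M) x

open Pool.Agent.Lib.MP_f80667_ag.LF in
theorem LfE_max (M : IntermediateField k Ω) [FiniteDimensional k M] (z : O k M) :
    z ∈ maximalIdeal (O k M) ↔ spectralNorm k Ω ((z : M) : Ω) < 1 := by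
  rw [mem_maximalIdeal, mem_nonunits_iff, isUnit_iff k M z, LfE_nm]
  have hz := (mem_O k M).1 z.2
  rw [LfE_nm] at hz
  exact ⟨fun h => lt_of_le_of_ne hz h, fun h => h.ne⟩

variable [Algebra.IsAlgebraic k Ω]

open Pool.Agent.Lib.MP_f80667_ag.LF in
theorem LfE_hens (M : IntermediateField k Ω) (hM : FiniteDimensional k M) (f : Polynomial Ω)
    (hf : f.Monic) (hc : ∀ i, f.coeff i ∈ M ∧ spectralNorm k Ω (f.coeff i) ≤ 1) (x : Ω)
    (hx : x ∈ M) (hx1 : spectralNorm k Ω x ≤ 1) (h1 : spectralNorm k Ω (f.eval x) < 1)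
    (h2 : spectralNorm k Ω (f.derivative.eval x) = 1) :
    ∃ y ∈ M, f.eval y = 0 ∧ spectralNorm k Ω (y - x) < 1 := by
  let ι : O k M →+* Ω := (algebraMap M Ω).comp (O k M).subtype
  have hι : ∀ z : O k M, ι z = ((z : M) : Ω) := fun _ => rfl
  have hlift : f ∈ Polynomial.lifts ι := by
    rw [Polynomial.lifts_iff_coeff_lifts]
    intro n
    refine ⟨⟨⟨f.coeff n, (hc n).1⟩, ?_⟩, rfl⟩
    rw [mem_O, LfE_nm]
    exact (hc n).2
  obtain ⟨g, hg, -, hgm⟩ := Polynomial.lifts_and_natDegree_eq_and_monic hlift hf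
  let a₀ : O k M := ⟨⟨x, hx⟩, by
    rw [mem_O, LfE_nm]
    exact hx1⟩
  have ha₀ : ι a₀ = x := rfl
  have he : ι (g.eval a₀) = f.eval x := by
    rw [← hg, Polynomial.eval_map, ← ha₀, Polynomial.eval₂_hom]
  have hd : ι (g.derivative.eval a₀) = f.derivative.eval x := by
    rw [← hg, Polynomial.derivative_map, Polynomial.eval_map, ← ha₀, Polynomial.eval₂_hom]
  have hm : g.eval a₀ ∈ maximalIdeal (O k M) := by
    rw [LfE_max, ← hι, he]
    exact h1
  have hu : IsUnit (g.derivative.eval a₀) := by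
    rw [isUnit_iff k M, LfE_nm, ← hι, hd]
    exact h2
  obtain ⟨a, ha, ha'⟩ := HenselianRing.is_henselian (I := maximalIdeal (O k M)) g hgm a₀ hm
    (hu.map _)
  refine ⟨ι a, (a : M).2, ?_, ?_⟩
  · rw [← hg, Polynomial.eval_map, Polynomial.eval₂_hom]
    rw [Polynomial.IsRoot.def] at ha
    rw [ha, map_zero]
  · rw [LfE_max] at ha'
    exact ha'

theorem LfE_mul (x y : Ω) :
    spectralNorm k Ω (x * y) = spectralNorm k Ω x * spectralNorm k Ω y :=
  map_mul (spectralMulAlgNorm k Ω) x y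

theorem LfE_zero (x : Ω) : spectralNorm k Ω x = 0 ↔ x = 0 :=
  map_eq_zero_iff_eq_zero (spectralMulAlgNorm k Ω)

theorem LfE_one : spectralNorm k Ω 1 = 1 := spectralNorm_one

theorem LfE_inv (x : Ω) : spectralNorm k Ω x⁻¹ = (spectralNorm k Ω x)⁻¹ := by
  by_cases hx : x = 0
  · rw [hx, inv_zero, (LfE_zero k (0 : Ω)).2 rfl, inv_zero]
  · have h := LfE_mul k x x⁻¹
    rw [mul_inv_cancel₀ hx, LfE_one] at h
    exact eq_inv_of_mul_eq_one_right h.symm

theorem LfE_pow (x : Ω) (n : ℕ) : spectralNorm k Ω (x ^ n) = spectralNorm k Ω x ^ n :=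
  map_pow (spectralMulAlgNorm k Ω) x n

open Pool.Agent.Lib.MP_f80667_ag.LF in
theorem LfE_unif (M : IntermediateField k Ω) (hM : FiniteDimensional k M) :
    ∃ π ∈ M, 0 < spectralNorm k Ω π ∧ spectralNorm k Ω π < 1 ∧
      ∀ x ∈ M, x ≠ 0 → ∃ n : ℤ, spectralNorm k Ω x = spectralNorm k Ω π ^ n := by
  obtain ⟨π, hπ⟩ := IsDiscreteValuationRing.exists_irreducible (O k M)
  have h0 : ((π : M) : Ω) ≠ 0 := by
    intro h
    have h1 : (π : M) = 0 := Subtype.ext h
    exact hπ.ne_zero (Subtype.ext h1)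
  have hO : ∀ x : O k M, x ≠ 0 → ∃ n : ℕ,
      spectralNorm k Ω ((x : M) : Ω) = spectralNorm k Ω ((π : M) : Ω) ^ n := by
    intro x hx
    obtain ⟨n, u, hu⟩ := IsDiscreteValuationRing.eq_unit_mul_pow_irreducible hx hπ
    refine ⟨n, ?_⟩
    have h1 : ((x : M) : Ω) = (((u : O k M) : M) : Ω) * ((π : M) : Ω) ^ n := by
      rw [hu]
      rfl
    have h2 := (isUnit_iff k M (u : O k M)).1 u.isUnit
    rw [LfE_nm] at h2
    rw [h1, LfE_mul, LfE_pow, h2, one_mul]
  refine ⟨((π : M) : Ω), (π : M).2, ?_, ?_, ?_⟩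
  · exact lt_of_le_of_ne (spectralNorm_nonneg _) fun h => h0 ((LfE_zero k _).1 h.symm)
  · rw [← LfE_max k M π, mem_maximalIdeal, mem_nonunits_iff]
    exact hπ.not_isUnit
  · intro x hx hx0
    by_cases h : spectralNorm k Ω x ≤ 1
    · obtain ⟨n, hn⟩ := hO ⟨⟨x, hx⟩, by
        rw [mem_O, LfE_nm]
        exact h⟩ (fun h' => hx0 (by
          have h1 := congrArg (fun z : O k M => ((z : M) : Ω)) h'
          exact h1))
      refine ⟨n, ?_⟩
      rw [zpow_natCast]
      exact hn
    · have h' : spectralNorm k Ω x⁻¹ ≤ 1 := by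
        rw [LfE_inv]
        exact inv_le_one_of_one_le₀ (not_le.1 h).le
      obtain ⟨n, hn⟩ := hO ⟨⟨x⁻¹, M.inv_mem hx⟩, by
        rw [mem_O, LfE_nm]
        exact h'⟩ (fun h' => inv_ne_zero hx0 (by
          have h1 := congrArg (fun z : O k M => ((z : M) : Ω)) h'
          exact h1))
      refine ⟨-n, ?_⟩
      rw [zpow_neg, zpow_natCast, ← hn]
      change _ = (spectralNorm k Ω x⁻¹)⁻¹
      rw [LfE_inv, inv_inv]

open Pool.Agent.Lib.MP_f80667_ag.LF in
theorem LfE_fin (M : IntermediateField k Ω) (hM : FiniteDimensional k M) :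
    ∃ S : Finset Ω, (∀ s ∈ S, s ∈ M ∧ spectralNorm k Ω s ≤ 1) ∧
      ∀ x ∈ M, spectralNorm k Ω x ≤ 1 → ∃ s ∈ S, spectralNorm k Ω (x - s) < 1 := by
  classical
  have : Fintype (ResidueField (O k M)) := Fintype.ofFinite _
  choose rep hrep using residue_surjective (R := O k M)
  refine ⟨Finset.univ.image fun c => ((rep c : M) : Ω), ?_, ?_⟩
  · intro s hs
    obtain ⟨c, -, rfl⟩ := Finset.mem_image.1 hs
    refine ⟨(rep c : M).2, ?_⟩
    rw [← LfE_nm, ← mem_O]
    exact (rep c).2
  · intro x hx hx1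
    let a : O k M := ⟨⟨x, hx⟩, by
      rw [mem_O, LfE_nm]
      exact hx1⟩
    refine ⟨((rep (residue _ a) : M) : Ω), Finset.mem_image_of_mem _ (Finset.mem_univ _), ?_⟩
    have h : a - rep (residue _ a) ∈ maximalIdeal (O k M) := by
      rw [← residue_eq_zero_iff, map_sub, hrep, sub_self]
    rw [LfE_max] at h
    exact h

variable (Ω) in
/-- The absolute value of a locally compact field. -/
noncomputable def LfE_lf : Lf k Ω where
  nm := spectralNorm k Ω
  nonneg := spectralNorm_nonneg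
  zero_iff := LfE_zero k
  mul := LfE_mul k
  add x y := isNonarchimedean_spectralNorm (K := k) (L := Ω) x y
  act γ x := (spectralNorm_eq_of_equiv γ x).symm
  hens M hM f hf hc x hx hx1 h1 h2 := LfE_hens k M hM f hf hc x hx hx1 h1 h2
  unif := LfE_unif k
  fin := LfE_fin k

end gen

/-! ### Complete discrete valuation rings -/

open Pool.Agent.Lib.MP_f80667_ag.LF IsLocalRing in
theorem LfE_R (R k Ω : Type) [CommRing R] [IsDomain R] [IsDiscreteValuationRing R] [Field k]
    [Algebra R k] [IsFractionRing R k] [IsAdicComplete (maximalIdeal R) R]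
    [Finite (ResidueField R)] [Field Ω] [Algebra k Ω] [Algebra.IsAlgebraic k Ω] :
    ∃ L : Lf k Ω, ∀ x : k, L.nm (algebraMap k Ω x) ≤ 1 ↔ ∃ y : R, algebraMap R k y = x := by
  let nn := nnf R k
  have hu : IsUltrametricDist k := ultra_abs R k
  have hp : ProperSpace k := proper_abs R k
  refine ⟨@LfE_lf k nn hu hp Ω _ _ _, ?_⟩
  intro x
  have h1 : (@LfE_lf k nn hu hp Ω _ _ _).nm (algebraMap k Ω x) = ‖x‖ :=
    @spectralNorm_extends k _ Ω _ _ x
  rw [h1]
  have h2 : ‖x‖ ≤ 1 ↔ val R k x ≤ 1 := by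
    let vd := valued R k
    let r1 : (Valued.v : Valuation k (WithZero (Multiplicative ℤ))).RankOne := rk R k
    exact Valued.toNormedField.norm_le_one_iff
  rw [h2]
  constructor
  · intro h
    exact IsDiscreteValuationRing.exists_lift_of_le_one h
  · rintro ⟨y, rfl⟩
    exact HeightOneSpectrum.valuation_le_one _ y

/-! ### Number fields -/

section ad

variable (F : Type) [Field F] [NumberField F] (v : HeightOneSpectrum (𝓞 F))

open Pool.Agent.Lib.MP_f80667_ag.LF IsLocalRing HeightOneSpectrum in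
theorem LfE_ad :
    ∃ (L : Lf (v.adicCompletion F) (AlgebraicClosure (v.adicCompletion F))) (c : ℝ), 0 < c ∧
      c < 1 ∧
      (∀ (x : F) (n : ℤ), v.valuation F x = WithZero.exp (-n) →
        L.nm (algebraMap F _ x) = c ^ n) ∧
      (∀ x : v.adicCompletion F, x ≠ 0 → ∃ n : ℤ, L.nm (algebraMap _ _ x) = c ^ n) ∧
      ∀ x : v.adicCompletion F, L.nm (algebraMap _ _ x) ≤ 1 →
        ∃ a : 𝓞 F, L.nm (algebraMap (v.adicCompletion F) _ x -
          algebraMap F _ (algebraMap (𝓞 F) F a)) < 1 := by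
  obtain ⟨L, hL⟩ := LfE_R (v.adicCompletionIntegers F) (v.adicCompletion F)
    (AlgebraicClosure (v.adicCompletion F))
  have hmem : ∀ x : v.adicCompletion F, L.nm (algebraMap _ _ x) ≤ 1 ↔
      Valued.v x ≤ (1 : WithZero (Multiplicative ℤ)) := by
    intro x
    rw [hL, ← mem_adicCompletionIntegers]
    constructor
    · rintro ⟨y, rfl⟩
      exact y.2
    · intro h
      exact ⟨⟨x, h⟩, rfl⟩
  have hone : L.nm (1 : AlgebraicClosure (v.adicCompletion F)) = 1 := by
    have h := L.mul 1 1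
    rw [mul_one] at h
    have h0 : L.nm (1 : AlgebraicClosure (v.adicCompletion F)) ≠ 0 := fun h' =>
      one_ne_zero ((L.zero_iff _).1 h')
    exact (mul_eq_left₀ h0).1 h.symm
  have hmul : ∀ x y : v.adicCompletion F, L.nm (algebraMap _ _ (x * y)) =
      L.nm (algebraMap _ _ x) * L.nm (algebraMap _ _ y) := by
    intro x y
    rw [map_mul, L.mul]
  have hinv : ∀ x : v.adicCompletion F, x ≠ 0 →
      L.nm (algebraMap _ _ x) * L.nm (algebraMap _ _ x⁻¹) = 1 := by
    intro x hx
    rw [← hmul, mul_inv_cancel₀ hx, map_one, hone]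
  have hunit : ∀ x : v.adicCompletion F, Valued.v x = (1 : WithZero (Multiplicative ℤ)) →
      L.nm (algebraMap _ _ x) = 1 := by
    intro x hx
    have hx0 : x ≠ 0 := by
      rintro rfl
      rw [map_zero] at hx
      exact zero_ne_one hx
    have h1 := (hmem x).2 hx.le
    have h2 := (hmem x⁻¹).2 (by rw [map_inv₀, hx, inv_one])
    have h3 := hinv x hx0
    nlinarith [L.nonneg (algebraMap _ (AlgebraicClosure (v.adicCompletion F)) x),
      L.nonneg (algebraMap _ (AlgebraicClosure (v.adicCompletion F)) x⁻¹)]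
  have hval : ∀ z : F, Valued.v (algebraMap F (v.adicCompletion F) z) = v.valuation F z :=
    fun z => valuedAdicCompletion_eq_valuation' v z
  obtain ⟨ϖ, hϖ⟩ := v.valuation_exists_uniformizer F
  have hϖ' : Valued.v (algebraMap F (v.adicCompletion F) ϖ) =
      (WithZero.exp (-1) : WithZero (Multiplicative ℤ)) := by
    rw [hval]
    exact hϖ
  have hϖ0 : algebraMap F (v.adicCompletion F) ϖ ≠ 0 := by
    intro h
    rw [h, map_zero] at hϖ'
    exact WithZero.exp_ne_zero hϖ'.symm
  set c : ℝ := L.nm (algebraMap _ _ (algebraMap F (v.adicCompletion F) ϖ)) with hc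
  have hc0 : 0 < c := by
    refine lt_of_le_of_ne (L.nonneg _) fun h => hϖ0 ?_
    have h1 := (L.zero_iff _).1 h.symm
    rwa [map_eq_zero] at h1
  have hc1 : c < 1 := by
    have h1 : c ≤ 1 := (hmem _).2 (by
      rw [hϖ', ← WithZero.exp_zero, WithZero.exp_le_exp]
      norm_num)
    refine lt_of_le_of_ne h1 fun h => ?_
    have h3 := hinv _ hϖ0
    rw [← hc, h, one_mul] at h3
    have h4 := (hmem _).1 h3.le
    rw [map_inv₀, hϖ', ← WithZero.exp_neg, ← WithZero.exp_zero, WithZero.exp_le_exp] at h4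
    norm_num at h4
  have hzp : ∀ n : ℤ, L.nm (algebraMap _ _ (algebraMap F (v.adicCompletion F) ϖ ^ n)) = c ^ n := by
    have hnat : ∀ n : ℕ, L.nm (algebraMap _ _ (algebraMap F (v.adicCompletion F) ϖ ^ n)) =
        c ^ n := by
      intro n
      induction n with
      | zero => rw [pow_zero, pow_zero, map_one, hone]
      | succ n ih => rw [pow_succ, pow_succ, hmul, ih]
    intro n
    obtain ⟨m, rfl | rfl⟩ := n.eq_nat_or_neg
    · rw [zpow_natCast, zpow_natCast, hnat]
    · rw [zpow_neg, zpow_neg, zpow_natCast, zpow_natCast, ← hnat]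
      exact eq_inv_of_mul_eq_one_right (hinv _ (pow_ne_zero m hϖ0))
  have hkey : ∀ (x : v.adicCompletion F) (n : ℤ),
      Valued.v x = (WithZero.exp (-n) : WithZero (Multiplicative ℤ)) →
      L.nm (algebraMap _ _ x) = c ^ n := by
    intro x n hx
    have h1 : x = x * algebraMap F (v.adicCompletion F) ϖ ^ (-n) *
        algebraMap F (v.adicCompletion F) ϖ ^ n := by
      rw [mul_assoc, ← zpow_add₀ hϖ0, neg_add_cancel, zpow_zero, mul_one]
    rw [h1, hmul, hzp, hunit, one_mul]
    rw [map_mul, map_zpow₀, hx, hϖ', ← WithZero.exp_zsmul, ← WithZero.exp_add,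
      ← WithZero.exp_zero, WithZero.exp_inj]
    simp
  refine ⟨L, c, hc0, hc1, ?_, ?_, ?_⟩
  · intro x n hx
    rw [IsScalarTower.algebraMap_apply F (v.adicCompletion F) (AlgebraicClosure
      (v.adicCompletion F)) x]
    refine hkey _ n ?_
    rw [hval]
    exact hx
  · intro x hx
    have h0 : (Valued.v x : WithZero (Multiplicative ℤ)) ≠ 0 := (Valuation.ne_zero_iff _).2 hx
    refine ⟨-WithZero.log (Valued.v x : WithZero (Multiplicative ℤ)), hkey x _ ?_⟩
    rw [neg_neg, WithZero.exp_log h0]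
  · intro x hx
    obtain ⟨a, ha⟩ := exists_close F v ⟨x, (hmem x).1 hx⟩
    rw [mem_max_iff] at ha
    refine ⟨a, ?_⟩
    rw [IsScalarTower.algebraMap_apply F (v.adicCompletion F) (AlgebraicClosure
      (v.adicCompletion F)), ← map_sub]
    have ha' : Valued.v (x - algebraMap F (v.adicCompletion F) (algebraMap (𝓞 F) F a)) <
        (1 : WithZero (Multiplicative ℤ)) := ha
    refine lt_of_le_of_ne ((hmem _).2 ha'.le) fun h => ?_
    have hne : x - algebraMap F (v.adicCompletion F) (algebraMap (𝓞 F) F a) ≠ 0 := by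
      intro h'
      rw [h', map_zero, (L.zero_iff _).2 rfl] at h
      exact zero_ne_one h
    have h3 := hinv _ hne
    rw [h, one_mul] at h3
    have h4 := (hmem _).1 h3.le
    rw [map_inv₀] at h4
    have h5 := (inv_le_one₀ (zero_lt_iff.2 ((Valuation.ne_zero_iff _).2 hne))).1 h4
    exact absurd ha' (not_lt_of_ge h5)

end ad

/-- **Existence of the absolute value.** Proof: `R = v.adicCompletionIntegers F` is a complete discrete valuation
ring with finite residue field (`LF/Adic.lean`), so `k = FK F v` is a locally compact normed field (`LF/Abs.lean`: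
`nnf`, `ultra_abs`, `proper_abs`). Let `nm x = spectralNorm k Ω x`; on a finite extension `M ≤ Ω` it is the
spectral norm of `M` (`minpoly.algHom_eq`, see `spectralNorm_map` in `LF/Basic.lean`), the unit ball of `M` is
`O k M`, a complete discrete valuation ring with finite residue field: this gives `hens`
(`IsAdicComplete` implies `HenselianRing`), `unif`, `fin`. `act`: the minimal polynomial does not change. The last statements:
`exists_close`, `valuedAdicCompletion_eq_valuation'`. -/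
theorem exists_lf (F : Type) [Field F] [NumberField F] (v : HeightOneSpectrum (𝓞 F)) :
    ∃ (L : Lf (FK F v) (AlgebraicClosure (FK F v))) (c : ℝ), 0 < c ∧ c < 1 ∧
      (∀ (x : F) (n : ℤ), v.valuation F x = WithZero.exp (-n) →
        L.nm (algebraMap F _ x) = c ^ n) ∧
      (∀ x : FK F v, x ≠ 0 → ∃ n : ℤ, L.nm (algebraMap _ _ x) = c ^ n) ∧
      ∀ x : FK F v, L.nm (algebraMap _ _ x) ≤ 1 →
        ∃ a : 𝓞 F, L.nm (algebraMap (FK F v) _ x - algebraMap F _ (algebraMap (𝓞 F) F a)) < 1 := by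
  exact LfE_ad F v

end BE
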