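import Pool.Agent.Lib.MP_f80667_ag.Be.Adl
import Pool.Agent.Lib.MP_f80667_ag.Be.Cab
import Pool.Agent.Lib.MP_f80667_ag.Be.LfE

/-! Examples over the rational numbers: `E₂ : v² = w³ + w² - 2 w - 1` and
`E₁ : Y² = X (X² + a X + b)`. -/

open ZC Polynomial IsDedekindDomain NumberField

namespace BE

/-- Proof: a root `x` gives `ζ` in an extension of degree at most two of `ZMod p` with `ζ + 1 / ζ = x`; then `ζ^7 = 1`, since `ζ³ (x³ + x² - 2 x - 1) = ζ⁶ + ζ⁵ + ... + 1`, and `ζ ≠ 1` since `7 ≠ 0` in `ZMod p`. So `7` divides `p² - 1`. -/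
theorem no_root_p {p : ℕ} [Fact p.Prime] (h7 : p ≠ 7) (h1 : p % 7 ≠ 1) (h6 : p % 7 ≠ 6)
    (x : ZMod p) : x ^ 3 + x ^ 2 - 2 * x - 1 ≠ 0 := by
  intro hx
  have hp : p.Prime := Fact.out
  let A := AlgebraicClosure (ZMod p)
  have hcp : CharP A p := charP_of_injective_algebraMap (algebraMap (ZMod p) A).injective p
  set y : A := algebraMap (ZMod p) A x with hy
  have hy0 : y ^ 3 + y ^ 2 - 2 * y - 1 = 0 := by
    have h := congrArg (algebraMap (ZMod p) A) hx
    simpa only [map_sub, map_add, map_mul, map_pow, map_one, map_zero, map_ofNat] using h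
  have hyp : y ^ p = y := by
    rw [hy, ← map_pow, ZMod.pow_card]
  -- `z + 1 / z = y`
  obtain ⟨z, hz⟩ : ∃ z : A, z ^ 2 - y * z + 1 = 0 := by
    have hdeg : (X ^ 2 - C y * X + 1 : Polynomial A).degree ≠ 0 := by
      have h : (X ^ 2 - C y * X + 1 : Polynomial A).degree = 2 := by
        compute_degree!
      rw [h]
      decide
    obtain ⟨z, hz⟩ := IsAlgClosed.exists_root _ hdeg
    refine ⟨z, ?_⟩
    have h := hz
    rw [IsRoot.def] at h
    simpa only [eval_add, eval_sub, eval_mul, eval_pow, eval_X, eval_C, eval_one] using h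
  have hz0 : z ≠ 0 := by
    rintro rfl
    apply one_ne_zero (α := A)
    linear_combination hz
  -- `z` is a seventh root of unity
  have h67 : z ^ 6 + z ^ 5 + z ^ 4 + z ^ 3 + z ^ 2 + z + 1 = 0 := by
    have h1 : y * z = z ^ 2 + 1 := by linear_combination -hz
    have h2 : z ^ 3 * (y ^ 3 + y ^ 2 - 2 * y - 1) =
        (y * z) ^ 3 + (y * z) ^ 2 * z - 2 * (y * z) * z ^ 2 - z ^ 3 := by ring
    rw [h1, hy0] at h2
    linear_combination -h2
  have h7' : z ^ 7 = 1 := by linear_combination (z - 1) * h67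
  have hz1 : z ≠ 1 := by
    intro h
    rw [h] at h67
    have h1 : ((7 : ℕ) : A) = 0 := by
      push_cast
      linear_combination h67
    rw [CharP.cast_eq_zero_iff A p] at h1
    exact h7 ((Nat.prime_dvd_prime_iff_eq hp (by norm_num)).1 h1)
  have hord : orderOf z = 7 := by
    have : Fact (Nat.Prime 7) := ⟨by norm_num⟩
    exact orderOf_eq_prime h7' hz1
  -- Frobenius
  have hfr : (z ^ p) ^ 2 - y * z ^ p + 1 = 0 := by
    have h1 : (z ^ 2 - y * z + 1) ^ p = 0 := by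
      rw [hz, zero_pow hp.ne_zero]
    have h2 : (z ^ 2 - y * z + 1) ^ p = (z ^ p) ^ 2 - y * z ^ p + 1 := by
      have hfact : Fact p.Prime := ⟨hp⟩
      rw [add_pow_char, sub_pow_char, one_pow, mul_pow, hyp, ← pow_mul, ← pow_mul, mul_comm 2 p]
    rw [← h2]
    exact h1
  have hprod : (z ^ p - z) * (z ^ p * z - 1) = 0 := by
    linear_combination z * hfr - z ^ p * hz
  rcases mul_eq_zero.1 hprod with h | h
  · have h1 : z ^ (p - 1) = 1 := by
      have h2 : z ^ (p - 1) * z = z := by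
        rw [← pow_succ, Nat.sub_add_cancel hp.one_le]
        exact sub_eq_zero.1 h
      exact mul_right_cancel₀ hz0 (by rw [h2, one_mul])
    have h2 := orderOf_dvd_of_pow_eq_one h1
    rw [hord] at h2
    have := hp.one_le
    omega
  · have h1 : z ^ (p + 1) = 1 := by
      rw [pow_succ]
      exact sub_eq_zero.1 h
    have h2 := orderOf_dvd_of_pow_eq_one h1
    rw [hord] at h2
    omega

/-- The prime number of a place of `ℚ`. -/
theorem exists_p (v : HeightOneSpectrum (𝓞 ℚ)) : ∃ p : ℕ, p.Prime ∧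
    v.valuation ℚ (p : ℚ) = WithZero.exp (-1 : ℤ) ∧
    ∀ n : ℤ, v.valuation ℚ (n : ℚ) = 1 ↔ ¬ (p : ℤ) ∣ n := by
  have hcast : ∀ n : ℤ, (n : ℚ) = algebraMap (𝓞 ℚ) ℚ (n : 𝓞 ℚ) := fun n => (map_intCast _ n).symm
  have hp := Rat.HeightOneSpectrum.prime_natGenerator v
  have hspan := Rat.HeightOneSpectrum.span_natGenerator v
  set p := Rat.HeightOneSpectrum.natGenerator v
  set e := Rat.IsIntegralClosure.intEquiv (𝓞 ℚ)
  have hmem : ∀ n : ℤ, (n : 𝓞 ℚ) ∈ v.asIdeal ↔ (p : ℤ) ∣ n := by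
    intro n
    rw [← Ideal.mem_span_singleton, hspan]
    have h1 := Ideal.apply_mem_of_equiv_iff (I := v.asIdeal) (f := e) (x := (n : 𝓞 ℚ))
    rw [map_intCast] at h1
    exact h1.symm
  have hasI : v.asIdeal = Ideal.span {((p : ℤ) : 𝓞 ℚ)} := by
    apply le_antisymm
    · intro r hr
      obtain ⟨n, hn⟩ := Rat.ringOfIntegersEquiv.symm.surjective r
      have hn' : (n : 𝓞 ℚ) = r := by
        rw [← hn]
        exact (map_intCast Rat.ringOfIntegersEquiv.symm n).symm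
      rw [← hn'] at hr ⊢
      obtain ⟨k, rfl⟩ := (hmem n).1 hr
      rw [Ideal.mem_span_singleton]
      exact ⟨(k : 𝓞 ℚ), by push_cast; ring⟩
    · rw [Ideal.span_singleton_le_iff_mem, hmem]
  refine ⟨p, hp, ?_, fun n => ?_⟩
  · have h1 : ((p : ℕ) : ℚ) = algebraMap (𝓞 ℚ) ℚ ((p : ℤ) : 𝓞 ℚ) := by
      rw [← hcast]
      push_cast
      rfl
    rw [h1, HeightOneSpectrum.valuation_of_algebraMap]
    refine v.intValuation_singleton ?_ hasI
    exact_mod_cast hp.ne_zero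
  · rw [hcast, HeightOneSpectrum.valuation_of_algebraMap, ← hmem,
      ← HeightOneSpectrum.intValuation_lt_one_iff_mem, not_lt]
    exact ⟨fun h => h.ge, fun h => le_antisymm (v.intValuation_le_one _) h⟩

private theorem exa_val_le (v : HeightOneSpectrum (𝓞 ℚ)) (n : ℤ) : v.valuation ℚ (n : ℚ) ≤ 1 := by
  have h : (n : ℚ) = algebraMap (𝓞 ℚ) ℚ (n : 𝓞 ℚ) := (map_intCast _ n).symm
  rw [h]
  exact v.valuation_le_one _

private theorem exa_int (r : 𝓞 ℚ) : ∃ n : ℤ, algebraMap (𝓞 ℚ) ℚ r = n :=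
  ⟨Rat.ringOfIntegersEquiv r, (Rat.ringOfIntegersEquiv_apply_coe r).symm⟩

/-- Roots in the completion. -/
private theorem exa_root {K Ω : Type} [Field K] [Field Ω] [Algebra K Ω] (L : Lf K Ω)
    (hr : ∀ x : K, L.nm (algebraMap K Ω x) ≤ 1 → ∃ n : ℤ, L.nm (algebraMap K Ω x - n) < 1)
    {x' : K} (hx : x' ^ 3 + x' ^ 2 - 2 * x' - 1 = 0) :
    ∃ n : ℤ, L.nm (algebraMap K Ω x' - n) < 1 ∧
      L.nm ((n ^ 3 + n ^ 2 - 2 * n - 1 : ℤ) : Ω) < 1 := by
  have hx2 : (algebraMap K Ω x') ^ 3 + (algebraMap K Ω x') ^ 2 - 2 * (algebraMap K Ω x') - 1 = 0 := by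
    have h2 := congrArg (algebraMap K Ω) hx
    simpa only [map_sub, map_add, map_mul, map_pow, map_one, map_zero, map_ofNat] using h2
  obtain ⟨f, hf⟩ : ∃ f : Polynomial Ω, f = X ^ 3 + X ^ 2 - 2 * X - 1 := ⟨_, rfl⟩
  have hfe : ∀ z, f.eval z = z ^ 3 + z ^ 2 - 2 * z - 1 := by
    intro z
    rw [hf]
    simp
  have hfd : f = X ^ 3 + (X ^ 2 - 2 * X - 1) := by
    rw [hf]
    ring
  have hm : f.Monic := by
    rw [hfd]
    apply monic_X_pow_add
    compute_degree
    decide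
  have hfi : ∀ i, L.nm (f.coeff i) ≤ 1 := by
    intro i
    have h1 : ∃ n : ℤ, f.coeff i = n := by
      have h2 : f = (X ^ 3 + X ^ 2 - 2 * X - 1 : Polynomial ℤ).map (Int.castRingHom _) := by
        rw [hf]
        simp
      rw [h2, coeff_map]
      exact ⟨_, rfl⟩
    obtain ⟨n, hn⟩ := h1
    rw [hn]
    exact L.int_le n
  have hx1 : L.nm (algebraMap K Ω x') ≤ 1 := L.root_le hm hfi (by rw [hfe]; exact hx2)
  obtain ⟨n, hn⟩ := hr x' hx1
  refine ⟨n, hn, ?_⟩
  have h1 := L.eval_close hfi hx1 (L.int_le n)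
  rw [hfe, hfe, hx2, zero_sub, L.neg] at h1
  push_cast
  exact h1.trans_lt hn

/-- There is no root in the completion at `7`. -/
private theorem exa_seven {K Ω : Type} [Field K] [Field Ω] [Algebra K Ω] (L : Lf K Ω) {c : ℝ}
    (hc0 : 0 < c) (hc1 : c < 1) (h7 : L.nm 7 = c)
    (hval' : ∀ x : K, x ≠ 0 → ∃ n : ℤ, L.nm (algebraMap K Ω x) = c ^ n)
    (hr : ∀ x : K, L.nm (algebraMap K Ω x) ≤ 1 → ∃ n : ℤ, L.nm (algebraMap K Ω x - n) < 1)
    {x : K} (hx : x ^ 3 + x ^ 2 - 2 * x - 1 = 0) : False := by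
  obtain ⟨n, hzn, hn⟩ := exa_root L hr hx
  obtain ⟨z, hz⟩ : ∃ z : Ω, z = algebraMap K Ω x := ⟨_, rfl⟩
  rw [← hz] at hzn
  have h1 : z ^ 3 + z ^ 2 - 2 * z - 1 = 0 := by
    have h2 := congrArg (algebraMap K Ω) hx
    rw [hz]
    simpa only [map_sub, map_add, map_mul, map_pow, map_one, map_zero, map_ofNat] using h2
  have hc7 : ∀ m : ℤ, L.nm ((7 * m : ℤ) : Ω) < 1 := by
    intro m
    push_cast
    rw [L.mul, h7]
    exact (mul_le_of_le_one_right hc0.le (L.int_le m)).trans_lt hc1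
  -- integers of norm less than one are divisible by seven
  have hdvd : ∀ m : ℤ, L.nm ((m : ℤ) : Ω) < 1 → (7 : ℤ) ∣ m := by
    intro m hm
    by_contra h2
    have hco : IsCoprime (7 : ℤ) m := by
      rw [Int.isCoprime_iff_gcd_eq_one]
      have h3 : Nat.Prime 7 := by norm_num
      have h4 : Nat.Coprime 7 m.natAbs := (Nat.Prime.coprime_iff_not_dvd h3).2 fun h5 => h2 (by
        have := Int.natCast_dvd.2 h5
        exact this)
      exact h4
    obtain ⟨r, s, hrs⟩ := hco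
    have h3 : (1 : Ω) = ((7 * r : ℤ) : Ω) + ((s * m : ℤ) : Ω) := by
      rw [← Int.cast_add]
      have : 7 * r + s * m = 1 := by linear_combination hrs
      rw [this, Int.cast_one]
    have h4 : L.nm ((s * m : ℤ) : Ω) < 1 := by
      push_cast
      rw [L.mul]
      exact (mul_le_of_le_one_left (L.nonneg _) (L.int_le s)).trans_lt hm
    have h5 := L.add ((7 * r : ℤ) : Ω) ((s * m : ℤ) : Ω)
    rw [← h3, L.one] at h5
    exact absurd (max_lt (hc7 r) h4) (not_lt.2 h5)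
  have hn2 : (7 : ℤ) ∣ n - 2 := by
    have h2 := hdvd _ hn
    have h3 : (7 : ℤ) ∣ (n - 2) ^ 3 := by
      have h4 : (n - 2) ^ 3 = (n ^ 3 + n ^ 2 - 2 * n - 1) - 7 * (n ^ 2 - 2 * n + 1) := by ring
      rw [h4]
      exact dvd_sub h2 (dvd_mul_right _ _)
    exact Prime.dvd_of_dvd_pow (by norm_num) h3
  obtain ⟨m, hm⟩ := hn2
  obtain ⟨y, hy⟩ : ∃ y : Ω, y = z - 2 := ⟨_, rfl⟩
  have hy1 : L.nm y < 1 := by
    have h2 : y = (z - n) + ((7 * m : ℤ) : Ω) := by
      rw [← hm, hy]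
      push_cast
      ring
    rw [h2]
    exact (L.add _ _).trans_lt (max_lt hzn (hc7 m))
  have hy2 : y ^ 3 + 7 * (y ^ 2 + 2 * y + 1) = 0 := by
    rw [hy]
    linear_combination h1
  have hy3 : L.nm (y ^ 2 + 2 * y + 1) = 1 := by
    have h2 : y ^ 2 + 2 * y + 1 = 1 + y * (y + 2) := by ring
    rw [h2]
    apply L.one_add
    rw [L.mul]
    have h3 : L.nm (y + 2) ≤ 1 := (L.add _ _).trans (max_le hy1.le L.two_le)
    exact (mul_le_of_le_one_right (L.nonneg _) h3).trans_lt hy1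
  have hy4 : L.nm y ^ 3 = c := by
    have h2 : y ^ 3 = -(7 * (y ^ 2 + 2 * y + 1)) := by linear_combination hy2
    rw [← L.pow, h2, L.neg, L.mul, h7, hy3, mul_one]
  have hyx : y = algebraMap K Ω (x - 2) := by
    rw [hy, hz, map_sub, map_ofNat]
  have hy0 : x - 2 ≠ 0 := by
    intro h2
    have h3 : y = 0 := by
      rw [hyx, h2, map_zero]
    rw [h3, (L.zero_iff 0).2 rfl] at hy4
    norm_num at hy4
    exact hc0.ne hy4
  obtain ⟨k, hk⟩ := hval' (x - 2) hy0
  rw [← hyx] at hk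
  rw [hk, ← zpow_natCast, ← zpow_mul] at hy4
  have h8 : c ^ (k * ((3 : ℕ) : ℤ)) = c ^ (1 : ℤ) := by rw [hy4, zpow_one]
  have h9 := zpow_right_injective₀ hc0 hc1.ne h8
  push_cast at h9
  omega

/-- Squares in the completion at `2`. -/
private theorem exa_sq {K Ω : Type} [Field K] [CharZero K] [Field Ω] [Algebra K Ω] (L : Lf K Ω)
    {c : ℝ} (hc0 : 0 < c) (hc1 : c < 1) (h2 : L.nm 2 = c) {a : ℤ} (ha : a % 8 = 1) :
    IsSquare (a : K) := by
  obtain ⟨k, hk⟩ : ∃ k : ℤ, a = 1 + 8 * k := ⟨a / 8, by omega⟩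
  have hn4 : L.nm (4 : Ω) = c ^ 2 := by
    have h3 : (4 : Ω) = 2 ^ 2 := by norm_num
    rw [h3, L.pow, h2]
  have hn8 : L.nm ((8 * k : ℤ) : Ω) < L.nm (4 : Ω) := by
    have h3 : ((8 * k : ℤ) : Ω) = 2 ^ 3 * (k : Ω) := by
      push_cast
      norm_num
    rw [h3, L.mul, L.pow, h2, hn4]
    refine (mul_le_of_le_one_right (pow_nonneg hc0.le 3) (L.int_le k)).trans_lt ?_
    exact pow_lt_pow_right_of_lt_one₀ hc0 hc1 (by norm_num)
  obtain ⟨y, hy, hy2⟩ := L.sq (⊥ : IntermediateField K Ω)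
    (x := ((8 * k : ℤ) : Ω)) (intCast_mem _ _) hn8
  obtain ⟨y', rfl⟩ := IntermediateField.mem_bot.1 hy
  refine ⟨y', ?_⟩
  apply (algebraMap K Ω).injective
  rw [map_mul, ← sq, ← hy2, map_intCast, hk]
  push_cast
  rfl

theorem exa_g (a b : ℤ) (hb : b ≠ 0) (hab : a ^ 2 - 4 * b ≠ 0)
    {M : Type} [Field M] [Algebra ℚ M] (x : M) :
    aeval x (Cab a b hb hab).g = x ^ 3 + x ^ 2 - 2 * x - 1 := by
  have h : (Cab a b hb hab).g = X ^ 3 + C (1 : ℚ) * X ^ 2 + C (-2 : ℚ) * X + C (-1 : ℚ) := rfl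
  rw [h]
  simp only [map_add, map_mul, map_pow, aeval_X, map_one, map_neg, map_ofNat]
  ring

/-- A polynomial `X³ + c₂ X² + c₁ X + c₀` with integral coefficients without root modulo `p` has no root in the completion. -/
theorem no_root_v {v : HeightOneSpectrum (𝓞 ℚ)} {p : ℕ} (hp : p.Prime)
    (hv : ∀ n : ℤ, v.valuation ℚ (n : ℚ) = 1 ↔ ¬ (p : ℤ) ∣ n)
    (h : ∀ x : ZMod p, x ^ 3 + x ^ 2 - 2 * x - 1 ≠ 0) (a b : ℤ) (hb : b ≠ 0)
    (hab : a ^ 2 - 4 * b ≠ 0) (x : FK ℚ v) : aeval x (Cab a b hb hab).g ≠ 0 := by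
  intro h0
  rw [exa_g] at h0
  obtain ⟨L, c, hc0, hc1, hval, -, hr⟩ := exists_lf ℚ v
  obtain ⟨n, -, hn⟩ := exa_root L (fun x hx => by
    obtain ⟨a, ha⟩ := hr x hx
    obtain ⟨n, hn⟩ := exa_int a
    rw [hn, map_intCast] at ha
    exact ⟨n, ha⟩) h0
  have h3 : ¬ (p : ℤ) ∣ n ^ 3 + n ^ 2 - 2 * n - 1 := by
    intro h4
    apply h (n : ZMod p)
    have h5 := (ZMod.intCast_zmod_eq_zero_iff_dvd _ p).2 h4
    push_cast at h5
    exact h5
  have h4 := hval ((n ^ 3 + n ^ 2 - 2 * n - 1 : ℤ) : ℚ) 0 (by rw [(hv _).2 h3]; rfl)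
  rw [map_intCast, zpow_zero] at h4
  rw [h4] at hn
  exact lt_irrefl _ hn

/-- The place `7`: `g(X + 2) = X³ + 7 X² + 14 X + 7` has no root in `ℚ_7` (valuations). -/
theorem no_root_7 {v : HeightOneSpectrum (𝓞 ℚ)} (hv : v.valuation ℚ (7 : ℚ) = WithZero.exp (-1 : ℤ))
    (a b : ℤ) (hb : b ≠ 0)
    (hab : a ^ 2 - 4 * b ≠ 0) (x : FK ℚ v) : aeval x (Cab a b hb hab).g ≠ 0 := by
  intro h0
  rw [exa_g] at h0
  obtain ⟨L, c, hc0, hc1, hval, hval', hr⟩ := exists_lf ℚ v
  refine exa_seven L hc0 hc1 ?_ hval' (fun x hx => by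
    obtain ⟨a, ha⟩ := hr x hx
    obtain ⟨n, hn⟩ := exa_int a
    rw [hn, map_intCast] at ha
    exact ⟨n, ha⟩) h0
  have h2 := hval 7 1 (by rw [hv])
  rwa [map_ofNat, zpow_one] at h2

/-- **The local conditions.** `disc = 49`. The place `2`: `G3` (`a` is a square in `ℚ_2`, `g` has no root modulo `2`). `7`: `G2`. The odd places `p ≠ 7` which do not divide `b (a² - 4 b)`: `G1`; the others: `G2`. The real place: `b < 0`. -/
theorem Cab_ok {a b : ℤ} (hb : b ≠ 0) (hab : a ^ 2 - 4 * b ≠ 0) (ha : a % 8 = 1)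
    (hb' : b < 0) (hb2 : 128 ∣ b)
    (hp : ∀ p : ℕ, p.Prime → (p : ℤ) ∣ b * (a ^ 2 - 4 * b) → p % 7 ≠ 1 ∧ p % 7 ≠ 6) :
    (Cab a b hb hab).Ok := by
  constructor
  · intro v
    obtain ⟨p, hpp, hv1, hv⟩ := exists_p v
    have hdisc : (Cab a b hb hab).disc = ((49 : ℤ) : ℚ) := by
      change (1 : ℚ) ^ 2 * (-2) ^ 2 - 4 * (-2) ^ 3 - 4 * 1 ^ 3 * (-1) - 27 * (-1) ^ 2 +
        18 * 1 * (-2) * (-1) = ((49 : ℤ) : ℚ)
      norm_num
    have hc2 : v.valuation ℚ (Cab a b hb hab).c₂ ≤ 1 := by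
      have h := exa_val_le v 1
      rw [Int.cast_one] at h
      exact h
    have hc1 : v.valuation ℚ (Cab a b hb hab).c₁ ≤ 1 := by
      have h := exa_val_le v (-2)
      rw [Int.cast_neg, Int.cast_ofNat] at h
      exact h
    have hc0 : v.valuation ℚ (Cab a b hb hab).c₀ ≤ 1 := by
      have h := exa_val_le v (-1)
      rw [Int.cast_neg, Int.cast_one] at h
      exact h
    have hval : ∀ n : ℤ, ¬ (p : ℤ) ∣ n → v.valuation ℚ (n : ℚ) = 1 := fun n => (hv n).2
    by_cases h2 : p = 2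
    · -- the place `2`
      subst h2
      right
      right
      refine ⟨?_, hc2, hc1, hc0, ?_, ?_, ?_, ?_, ?_⟩
      · rw [Nat.cast_ofNat] at hv1
        exact hv1
      · rw [hdisc]
        exact hval _ (by norm_num)
      · intro x
        obtain ⟨n, hn⟩ := exa_int x
        have h3 : (Cab a b hb hab).g.eval (algebraMap (𝓞 ℚ) ℚ x) =
            ((n ^ 3 + n ^ 2 - 2 * n - 1 : ℤ) : ℚ) := by
          have h4 := exa_g a b hb hab (algebraMap (𝓞 ℚ) ℚ x)
          rw [coe_aeval_eq_eval] at h4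
          rw [h4, hn]
          push_cast
          rfl
        rw [h3]
        apply hval
        intro h4
        have h5 : (2 : ℤ) ∣ n ^ 2 * (n + 1) := by
          have h6 : Even (n * (n + 1)) := Int.even_mul_succ_self n
          obtain ⟨k, hk⟩ := h6
          exact ⟨n * k, by linear_combination n * hk⟩
        have h6 : (2 : ℤ) ∣ 1 := by
          have h7 : (1 : ℤ) = n ^ 2 * (n + 1) - 2 * n - (n ^ 3 + n ^ 2 - 2 * n - 1) := by ring
          rw [h7]
          exact dvd_sub (dvd_sub h5 (dvd_mul_right _ _)) (by exact_mod_cast h4)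
        omega
      · exact hval a (by push_cast; omega)
      · -- squares
        obtain ⟨L, c, hc0, hc1, hvL, -, -⟩ := exists_lf ℚ v
        have h4 := hvL 2 1 (by
          rw [Nat.cast_ofNat] at hv1
          rw [hv1])
        rw [map_ofNat, zpow_one] at h4
        have h5 : IsSquare (a : FK ℚ v) := exa_sq L hc0 hc1 h4 ha
        refine (congrArg IsSquare ?_).mpr h5
        exact map_intCast _ a
      · obtain ⟨k, hk⟩ := hb2
        have h3 : (Cab a b hb hab).b = (2 : ℚ) ^ 7 * (k : ℚ) := by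
          change (b : ℚ) = _
          rw [hk]
          push_cast
          norm_num
        rw [Nat.cast_ofNat] at hv1
        rw [h3, map_mul, map_pow, hv1, ← WithZero.exp_nsmul]
        refine (mul_le_of_le_one_right' (exa_val_le v k)).trans ?_
        simp
    by_cases h7 : p = 7
    · subst h7
      right
      left
      refine ⟨?_, fun x hx => no_root_7 (by
        rw [Nat.cast_ofNat] at hv1
        exact hv1) a b hb hab x ?_⟩
      swap
      · rw [exa_g]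
        exact (@exa_g a b hb hab (FK ℚ v) _ (FK.algebra ℚ v) x).symm.trans hx
      have h := hval 2 (by norm_num)
      rwa [Int.cast_ofNat] at h
    have hodd : ¬ (p : ℤ) ∣ 2 := by
      intro h
      have h3 : p ∣ 2 := by exact_mod_cast h
      exact h2 ((Nat.prime_dvd_prime_iff_eq hpp Nat.prime_two).1 h3)
    have htwo : v.valuation ℚ 2 = 1 := by
      have h := hval 2 hodd
      rwa [Int.cast_ofNat] at h
    by_cases hdv : (p : ℤ) ∣ b * (a ^ 2 - 4 * b)
    · right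
      left
      have hfact : Fact p.Prime := ⟨hpp⟩
      obtain ⟨h1, h6⟩ := hp p hpp hdv
      refine ⟨htwo, fun x hx => no_root_v hpp hv (fun x => no_root_p h7 h1 h6 x) a b hb hab x ?_⟩
      rw [exa_g]
      exact (@exa_g a b hb hab (FK ℚ v) _ (FK.algebra ℚ v) x).symm.trans hx
    · left
      refine ⟨htwo, exa_val_le v a, hval b fun h => hdv (dvd_mul_of_dvd_left h _), ?_, hc2, hc1,
        hc0, ?_⟩
      · have h := hval (a ^ 2 - 4 * b) fun h => hdv (dvd_mul_of_dvd_right h _)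
        push_cast at h
        exact h
      · rw [hdisc]
        apply hval
        intro h
        have h3 : p ∣ 7 ^ 2 := by exact_mod_cast h
        exact h7 ((Nat.prime_dvd_prime_iff_eq hpp (by norm_num)).1 (hpp.dvd_of_dvd_pow h3))
  · intro φ
    left
    have h : φ (Cab a b hb hab).b = (b : ℝ) := by
      change φ ((b : ℤ) : ℚ) = _
      exact map_intCast φ b
    rw [h]
    exact_mod_cast hb'

end BE
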