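import Pool.Agent.Lib.MP_f80667_ag.Be.Lf

/-! Lemmas on symbols over the finite extensions of a local field. -/

open ZC Polynomial IntermediateField

namespace BE

section chr

/-- Characters with values in a group of order two, as predicates. -/
private theorem chr_one {G : Type} [Group G] (R P Q : G → Prop)
    (hR : ∀ z w, R z → R w → R (z * w)) (hP : ∀ z w, P (z * w) ↔ (P z ↔ P w))
    (hQ : ∀ z w, Q (z * w) ↔ (Q z ↔ Q w)) (h : ∀ z, R z → Q z → P z) :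
    (∀ z, R z → P z) ∨ (∀ z, R z → (P z ↔ Q z)) := by
  by_cases h0 : ∀ z, R z → P z
  · exact Or.inl h0
  · right
    push Not at h0
    obtain ⟨z₀, hz, hz'⟩ := h0
    intro z hRz
    have h1 := h z hRz
    have h2 := h z₀ hz
    have h3 := h (z * z₀) (hR z z₀ hRz hz)
    have h4 := hP z z₀
    have h5 := hQ z z₀
    tauto

private theorem chr_two {G : Type} [Group G] (P Q₁ Q₂ : G → Prop)
    (hP : ∀ z w, P (z * w) ↔ (P z ↔ P w)) (hQ₁ : ∀ z w, Q₁ (z * w) ↔ (Q₁ z ↔ Q₁ w))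
    (hQ₂ : ∀ z w, Q₂ (z * w) ↔ (Q₂ z ↔ Q₂ w)) (h : ∀ z, Q₁ z → Q₂ z → P z) :
    (∀ z, P z) ∨ (∀ z, P z ↔ Q₁ z) ∨ (∀ z, P z ↔ Q₂ z) ∨ (∀ z, P z ↔ (Q₁ z ↔ Q₂ z)) := by
  rcases chr_one Q₁ P Q₂ (fun z w h1 h2 => (hQ₁ z w).2 (iff_of_true h1 h2)) hP hQ₂ h with h1 | h1
  · rcases chr_one (fun _ => True) P Q₁ (fun _ _ _ _ => trivial) hP hQ₁ (fun z _ h2 => h1 z h2)
      with h2 | h2
    · exact Or.inl fun z => h2 z trivial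
    · exact Or.inr (Or.inl fun z => h2 z trivial)
  · rcases chr_one (fun _ => True) (fun z => P z ↔ Q₂ z) Q₁ (fun _ _ _ _ => trivial)
      (fun z w => by
        have h3 := hP z w
        have h4 := hQ₂ z w
        tauto) hQ₁ (fun z _ h2 => h1 z h2) with h2 | h2
    · exact Or.inr (Or.inr (Or.inl fun z => h2 z trivial))
    · refine Or.inr (Or.inr (Or.inr fun z => ?_))
      have h3 := h2 z trivial
      tauto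

private theorem comb (P₁ P₂ x₁ y₁ x₂ y₂ x₃ y₃ : Prop) (h₁ : ¬ x₁) (h₂ : ¬ y₂)
    (h₃ : ¬ (x₃ ↔ y₃)) : (P₁ ∧ P₂) ∨ ((x₁ ↔ P₁) ∧ (y₁ ↔ P₂)) ∨ ((x₂ ↔ P₁) ∧ (y₂ ↔ P₂)) ∨
      ((x₃ ↔ P₁) ∧ (y₃ ↔ P₂)) ∨ (((x₁ ↔ x₂) ↔ P₁) ∧ ((y₁ ↔ y₂) ↔ P₂)) ∨
      (((x₁ ↔ x₃) ↔ P₁) ∧ ((y₁ ↔ y₃) ↔ P₂)) ∨ (((x₂ ↔ x₃) ↔ P₁) ∧ ((y₂ ↔ y₃) ↔ P₂)) := by
  by_cases q₁ : P₁ <;> by_cases q₂ : P₂ <;> by_cases a₁ : y₁ <;> by_cases a₂ : x₂ <;>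
    by_cases a₃ : x₃ <;> by_cases a₄ : y₃ <;> simp_all

end chr

variable {K Ω : Type} [Field K] [CharZero K] [Field Ω] [Algebra K Ω] {M : IntermediateField K Ω}

private theorem two_ne' (K : Type) {Ω : Type} [Field K] [CharZero K] [Field Ω] [Algebra K Ω] :
    (2 : Ω) ≠ 0 := by
  have h := (map_ne_zero (algebraMap K Ω)).2 (two_ne_zero (α := K))
  rwa [map_ofNat] at h

omit [CharZero K] in
theorem HS.of_sq {a b : Ω} (ha : SqM M a) : HS M a b := by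
  obtain ⟨x, hx, rfl⟩ := ha
  exact ⟨x, hx, 0, M.zero_mem, by ring⟩

theorem HS.of_sq_right {a b : Ω} (ha : a ∈ M) (hb : SqM M b) (h0 : b ≠ 0) : HS M a b := by
  obtain ⟨s, hs, rfl⟩ := hb
  have h2 : (2 : Ω) ≠ 0 := two_ne' K
  have h2M : (2 : Ω) ∈ M := by
    have := M.algebraMap_mem 2
    rwa [map_ofNat] at this
  have hs0 : s ≠ 0 := fun h => h0 (by rw [h]; ring)
  refine ⟨(1 + a) / 2, div_mem (add_mem M.one_mem ha) h2M, (a - 1) / (2 * s),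
    div_mem (sub_mem ha M.one_mem) (mul_mem h2M hs), ?_⟩
  field_simp
  ring

omit [CharZero K] in
private theorem HS.congr_one {a a' b : Ω} (ha : a ∈ M) (h0 : a ≠ 0)
    (h : SqM M (a * a')) (hs : HS M a b) : HS M a' b := by
  obtain ⟨s, hs', hss⟩ := h
  obtain ⟨x, hx, y, hy, hxy⟩ := hs
  refine ⟨s / a * x, mul_mem (div_mem hs' ha) hx, s / a * y, mul_mem (div_mem hs' ha) hy, ?_⟩
  have h1 : a' = s ^ 2 / a := by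
    rw [eq_div_iff h0, mul_comm, hss]
  have h2 : (s / a * x) ^ 2 - b * (s / a * y) ^ 2 = (s / a) ^ 2 * (x ^ 2 - b * y ^ 2) := by ring
  rw [h2, ← hxy, h1]
  field_simp

omit [CharZero K] in
/-- The symbol depends only on the class of `a`. -/
theorem HS.congr {a a' b : Ω} (ha : a ∈ M) (ha' : a' ∈ M) (h0 : a ≠ 0) (h0' : a' ≠ 0)
    (h : SqM M (a * a')) : HS M a b ↔ HS M a' b :=
  ⟨HS.congr_one ha h0 h, HS.congr_one ha' h0' (by rwa [mul_comm])⟩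

omit [CharZero K] in
private theorem HS.congr_r {a b b' : Ω} (hb' : b' ∈ M) (h0' : b' ≠ 0)
    (h : SqM M (b * b')) (hs : HS M a b) : HS M a b' := by
  obtain ⟨s, hs', hss⟩ := h
  obtain ⟨x, hx, y, hy, hxy⟩ := hs
  refine ⟨x, hx, s / b' * y, mul_mem (div_mem hs' hb') hy, ?_⟩
  have h1 : b = s ^ 2 / b' := by
    rw [eq_div_iff h0', hss]
  rw [hxy, h1]
  field_simp

omit [CharZero K] in
/-- The symbol depends only on the class of `b`. -/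
theorem HS.congr_right {a b b' : Ω} (hb : b ∈ M) (hb' : b' ∈ M) (h0 : b ≠ 0) (h0' : b' ≠ 0)
    (h : SqM M (b * b')) : HS M a b ↔ HS M a b' :=
  ⟨HS.congr_r hb' h0' h, HS.congr_r hb h0 (by rwa [mul_comm])⟩

theorem HS.mulr (S : Sym K Ω) (hM : FiniteDimensional K M) {a b b' : Ω} (ha : a ∈ M) (hb : b ∈ M)
    (hb' : b' ∈ M) (ha0 : a ≠ 0) (hb0 : b ≠ 0) (hb0' : b' ≠ 0) :
    HS M a (b * b') ↔ (HS M a b ↔ HS M a b') := by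
  have h1 : ∀ c ∈ M, c ≠ 0 → (HS M a c ↔ HS M c a) := fun c hc hc0 =>
    ⟨HS.comm ha hc ha0 hc0, HS.comm hc ha hc0 ha0⟩
  rw [h1 _ (mul_mem hb hb') (mul_ne_zero hb0 hb0'), h1 b hb hb0, h1 b' hb' hb0']
  exact S.mul M hM b b' a hb hb' ha hb0 hb0' ha0

omit [CharZero K] in
/-- Conjugation. -/
theorem HS.act {σ : Ω ≃ₐ[K] Ω} (hσ : ∀ x, σ x ∈ M ↔ x ∈ M) {a b : Ω} :
    HS M (σ a) (σ b) ↔ HS M a b := by
  constructor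
  · rintro ⟨x, hx, y, hy, h⟩
    refine ⟨σ.symm x, (hσ _).1 (by rwa [AlgEquiv.apply_symm_apply]), σ.symm y,
      (hσ _).1 (by rwa [AlgEquiv.apply_symm_apply]), ?_⟩
    apply σ.injective
    rw [map_sub, map_mul, map_pow, map_pow, AlgEquiv.apply_symm_apply, AlgEquiv.apply_symm_apply]
    exact h
  · rintro ⟨x, hx, y, hy, h⟩
    refine ⟨σ x, (hσ _).2 hx, σ y, (hσ _).2 hy, ?_⟩
    rw [h, map_sub, map_mul, map_pow, map_pow]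

/-- **Elements with prescribed symbols.** Proof: the image `I` of the homomorphism
`z ↦ ((z, d₁), (z, d₂), (z, b₁), (z, b₂))` from `M^*` to `(ZMod 2)^4` is a subspace, so it is the annihilator of its
annihilator; `w` in the annihilator means that `d₁^w₁ d₂^w₂ b₁^w₃ b₂^w₄` is orthogonal to `M^*`, so it is a square
(`Sym.nondeg`), so `w₃ = w₄ = 0`. -/
theorem exists_sy (S : Sym K Ω) (hM : FiniteDimensional K M) {d₁ d₂ b₁ b₂ : Ω} (hd₁ : d₁ ∈ M)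
    (hd₂ : d₂ ∈ M) (hb₁ : b₁ ∈ M) (hb₂ : b₂ ∈ M) (h₁ : d₁ ≠ 0) (h₂ : d₂ ≠ 0) (h₃ : b₁ ≠ 0)
    (h₄ : b₂ ≠ 0) (h : ∀ b ∈ ({b₁, b₂, b₁ * b₂} : Set Ω), ∀ d ∈ ({1, d₁, d₂, d₁ * d₂} : Set Ω),
      ¬ SqM M (b * d)) (P₁ P₂ : Prop) :
    ∃ z ∈ M, z ≠ 0 ∧ HS M z d₁ ∧ HS M z d₂ ∧ (HS M z b₁ ↔ P₁) ∧ (HS M z b₂ ↔ P₂) := by
  have zne : ∀ z : Mˣ, ((z : M) : Ω) ≠ 0 := fun z hz => z.ne_zero (Subtype.ext hz)
  have chr : ∀ c ∈ M, c ≠ 0 → ∀ z w : Mˣ, HS M (((z * w : Mˣ) : M) : Ω) c ↔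
      (HS M ((z : M) : Ω) c ↔ HS M ((w : M) : Ω) c) := fun c hc hc0 z w =>
    S.mul M hM _ _ c (z : M).2 (w : M).2 hc (zne z) (zne w) hc0
  have nd : ∀ c ∈ M, c ≠ 0 → ¬ SqM M c → ¬ ∀ z : Mˣ, HS M ((z : M) : Ω) c := by
    intro c hc hc0 hs hz
    obtain ⟨a, ha, ha0, has⟩ := S.nondeg M hM c hc hc0 hs
    exact has (hz (Units.mk0 (⟨a, ha⟩ : M) fun h => ha0 (congrArg Subtype.val h)))
  -- the three characters are not trivial on the common kernel of the first two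
  have key : ∀ b ∈ ({b₁, b₂, b₁ * b₂} : Set Ω), b ∈ M → b ≠ 0 →
      ∃ z : Mˣ, HS M ((z : M) : Ω) d₁ ∧ HS M ((z : M) : Ω) d₂ ∧ ¬ HS M ((z : M) : Ω) b := by
    intro b hb hbM hb0
    by_contra hcon
    have hcon' : ∀ z : Mˣ, HS M ((z : M) : Ω) d₁ → HS M ((z : M) : Ω) d₂ →
        HS M ((z : M) : Ω) b := by
      intro z h5 h6
      by_contra h7
      exact hcon ⟨z, h5, h6, h7⟩
    have hd := h b hb
    rcases chr_two (fun z : Mˣ => HS M ((z : M) : Ω) b) (fun z => HS M ((z : M) : Ω) d₁)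
      (fun z => HS M ((z : M) : Ω) d₂) (chr b hbM hb0) (chr d₁ hd₁ h₁) (chr d₂ hd₂ h₂) hcon'
      with h5 | h5 | h5 | h5
    · refine nd b hbM hb0 ?_ h5
      have h6 := hd 1 (by simp)
      rwa [mul_one] at h6
    · refine nd (b * d₁) (mul_mem hbM hd₁) (mul_ne_zero hb0 h₁) (hd d₁ (by simp)) fun z => ?_
      rw [HS.mulr S hM (z : M).2 hbM hd₁ (zne z) hb0 h₁]
      exact h5 z
    · refine nd (b * d₂) (mul_mem hbM hd₂) (mul_ne_zero hb0 h₂) (hd d₂ (by simp)) fun z => ?_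
      rw [HS.mulr S hM (z : M).2 hbM hd₂ (zne z) hb0 h₂]
      exact h5 z
    · refine nd (b * (d₁ * d₂)) (mul_mem hbM (mul_mem hd₁ hd₂))
        (mul_ne_zero hb0 (mul_ne_zero h₁ h₂)) (hd (d₁ * d₂) (by simp)) fun z => ?_
      rw [HS.mulr S hM (z : M).2 hbM (mul_mem hd₁ hd₂) (zne z) hb0 (mul_ne_zero h₁ h₂),
        HS.mulr S hM (z : M).2 hd₁ hd₂ (zne z) h₁ h₂]
      exact h5 z
  obtain ⟨z₁, u₁, v₁, w₁⟩ := key b₁ (by simp) hb₁ h₃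
  obtain ⟨z₂, u₂, v₂, w₂⟩ := key b₂ (by simp) hb₂ h₄
  obtain ⟨z₃, u₃, v₃, w₃⟩ := key (b₁ * b₂) (by simp) (mul_mem hb₁ hb₂) (mul_ne_zero h₃ h₄)
  rw [HS.mulr S hM (z₃ : M).2 hb₁ hb₂ (zne z₃) h₃ h₄] at w₃
  have fin : ∀ z : Mˣ, HS M ((z : M) : Ω) d₁ → HS M ((z : M) : Ω) d₂ →
      (HS M ((z : M) : Ω) b₁ ↔ P₁) → (HS M ((z : M) : Ω) b₂ ↔ P₂) →
      ∃ z ∈ M, z ≠ 0 ∧ HS M z d₁ ∧ HS M z d₂ ∧ (HS M z b₁ ↔ P₁) ∧ (HS M z b₂ ↔ P₂) :=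
    fun z h5 h6 h7 h8 => ⟨_, (z : M).2, zne z, h5, h6, h7, h8⟩
  have pr : ∀ z w : Mˣ, HS M ((z : M) : Ω) d₁ → HS M ((z : M) : Ω) d₂ → HS M ((w : M) : Ω) d₁ →
      HS M ((w : M) : Ω) d₂ → HS M (((z * w : Mˣ) : M) : Ω) d₁ ∧
      HS M (((z * w : Mˣ) : M) : Ω) d₂ := fun z w h5 h6 h7 h8 =>
    ⟨(chr d₁ hd₁ h₁ z w).2 (iff_of_true h5 h7), (chr d₂ hd₂ h₂ z w).2 (iff_of_true h6 h8)⟩
  have p12 := pr z₁ z₂ u₁ v₁ u₂ v₂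
  have p13 := pr z₁ z₃ u₁ v₁ u₃ v₃
  have p23 := pr z₂ z₃ u₂ v₂ u₃ v₃
  have g0 : ∀ c : Ω, HS M (((1 : Mˣ) : M) : Ω) c := fun c => HS.of_sq ⟨1, M.one_mem, by simp⟩
  rcases comb P₁ P₂ _ _ _ _ _ _ w₁ w₂ w₃ with h5 | h5 | h5 | h5 | h5 | h5 | h5
  · exact fin 1 (g0 _) (g0 _) (iff_of_true (g0 _) h5.1) (iff_of_true (g0 _) h5.2)
  · exact fin z₁ u₁ v₁ h5.1 h5.2
  · exact fin z₂ u₂ v₂ h5.1 h5.2
  · exact fin z₃ u₃ v₃ h5.1 h5.2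
  · exact fin (z₁ * z₂) p12.1 p12.2 ((chr b₁ hb₁ h₃ z₁ z₂).trans h5.1)
      ((chr b₂ hb₂ h₄ z₁ z₂).trans h5.2)
  · exact fin (z₁ * z₃) p13.1 p13.2 ((chr b₁ hb₁ h₃ z₁ z₃).trans h5.1)
      ((chr b₂ hb₂ h₄ z₁ z₃).trans h5.2)
  · exact fin (z₂ * z₃) p23.1 p23.2 ((chr b₁ hb₁ h₃ z₂ z₃).trans h5.1)
      ((chr b₂ hb₂ h₄ z₂ z₃).trans h5.2)

end BE
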