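import Pool.Agent.Lib.MP_f80667_ag.Be.GlA1
import Pool.Agent.Lib.MP_f80667_ag.Be.SyA

/-! The symbols at the finite places. -/

open ZC Polynomial IntermediateField IsDedekindDomain NumberField

namespace BE

variable {F : Type} [Field F] [NumberField F] (C : Cf F) [Fact (Irreducible C.g)]

/-- Conjugate roots give conjugate embeddings. -/
private theorem gla_conj {v : HeightOneSpectrum (𝓞 F)} {e e' : AlgebraicClosure (FK F v)}
    (he : aeval e C.g = 0) (he' : aeval e' C.g = 0)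
    (γ : AlgebraicClosure (FK F v) ≃ₐ[FK F v] AlgebraicClosure (FK F v)) (h : γ e = e') :
    ((γ : AlgebraicClosure (FK F v) →+* AlgebraicClosure (FK F v)).comp
      (emL C he : AdjoinRoot C.g →+* AlgebraicClosure (FK F v))) =
      (emL C he' : AdjoinRoot C.g →+* AlgebraicClosure (FK F v)) := by
  refine RingHom.ext fun x => ?_
  obtain ⟨c, rfl⟩ := AdjoinRoot.mk_surjective x
  change γ (emL C he (AdjoinRoot.mk C.g c)) = emL C he' (AdjoinRoot.mk C.g c)
  rw [emL_mk, emL_mk, ← h]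
  exact (aeval_algHom_apply (γ.restrictScalars F : AlgebraicClosure (FK F v) →ₐ[F]
    AlgebraicClosure (FK F v)) e c).symm

/-- The place given by an irreducible polynomial over the completion. -/
private theorem gla_place (v : HeightOneSpectrum (𝓞 F)) (q : (FK F v)[X]) :
    ∃ w : HeightOneSpectrum (𝓞 (AdjoinRoot C.g)), w.under (𝓞 F) = v ∧
      (Irreducible q → ∀ (e : AlgebraicClosure (FK F v)) (he : aeval e C.g = 0), aeval e q = 0 →
        Cmp (lf v) (emL C he : AdjoinRoot C.g →+* AlgebraicClosure (FK F v)) w) := by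
  by_cases h : Irreducible q ∧ ∃ e : AlgebraicClosure (FK F v), aeval e C.g = 0 ∧ aeval e q = 0
  · obtain ⟨hq, e₀, he₀, hq₀⟩ := h
    obtain ⟨w, hc, hw⟩ := exists_cmp (lf_lg v) (emL C he₀)
    refine ⟨w, hw, fun _ e he heq => ?_⟩
    have hm : minpoly (FK F v) e = minpoly (FK F v) e₀ := by
      rw [← minpoly.eq_of_irreducible hq heq, ← minpoly.eq_of_irreducible hq hq₀]
    obtain ⟨γ, hγ⟩ := IsConjRoot.exists_algEquiv (K := FK F v) (L := AlgebraicClosure (FK F v)) hm
    rw [← gla_conj C he₀ he γ hγ]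
    exact hc.act γ
  · have hd : C.g.degree ≠ 0 := by
      intro h0
      exact (Fact.out : Irreducible C.g).not_isUnit (isUnit_iff_degree_eq_zero.2 h0)
    obtain ⟨e, he⟩ := IsAlgClosed.exists_aeval_eq_zero (AlgebraicClosure (FK F v)) C.g hd
    obtain ⟨w, hc, hw⟩ := exists_cmp (lf_lg v) (emL C he)
    exact ⟨w, hw, fun hq e' he' heq => (h ⟨hq, e', he', heq⟩).elim⟩

/-- The symbol at the place given by a root. -/
private theorem gla_symb (z : AdF C.X) (y₁ : ∀ v, Pt C.W₂ (FK F v))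
    (h₁ : ∀ v, (z.1 v).1 = C.fc (FK F v) (y₁ v))
    (a : HeightOneSpectrum (𝓞 (AdjoinRoot C.g)) → (AdjoinRoot C.g)ˣ)
    (ha : ∀ (v : HeightOneSpectrum (𝓞 F)) (w : HeightOneSpectrum (𝓞 (AdjoinRoot C.g)))
      (e : AlgebraicClosure (FK F v)) (he : aeval e C.g = 0),
        Cmp (lf v) (emL C he : AdjoinRoot C.g →+* AlgebraicClosure (FK F v)) w →
        SqM (IntermediateField.adjoin (FK F v) {e}) (emL C he (a w : AdjoinRoot C.g) *
          C.del e (Pt.map _ (IsScalarTower.toAlgHom F (FK F v) (AlgebraicClosure (FK F v))) (y₁ v))))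
    {c : F[X]} {u : (AdjoinRoot C.g)ˣ} (hu : (u : AdjoinRoot C.g) = AdjoinRoot.mk C.g c)
    {v : HeightOneSpectrum (𝓞 F)} {w : HeightOneSpectrum (𝓞 (AdjoinRoot C.g))}
    {e : AlgebraicClosure (FK F v)} (he : aeval e C.g = 0)
    (hc : Cmp (lf v) (emL C he : AdjoinRoot C.g →+* AlgebraicClosure (FK F v)) w) :
    HS (IntermediateField.adjoin (FK F v) {e}) (C.thz e (z.1 v).1) (aeval e c) ↔
      a w ∈ Hm.LNm w u := by
  have h0 := hs_iff (lf_lg v) hc (a w) u
  rw [adj_emL, hu, emL_mk] at h0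
  rw [← h0, h₁, thz_fc]
  have hsq := ha v w e he hc
  have hne : emL C he (a w : AdjoinRoot C.g) ≠ 0 :=
    (_root_.map_ne_zero _).2 (a w).ne_zero
  have hmem : emL C he (a w : AdjoinRoot C.g) ∈ IntermediateField.adjoin (FK F v) {e} := by
    rw [← adj_emL C he]
    exact IntermediateField.subset_adjoin _ _ ⟨_, rfl⟩
  have hdmem : C.del e (Pt.map _ (IsScalarTower.toAlgHom F (FK F v)
      (AlgebraicClosure (FK F v))) (y₁ v)) ∈ IntermediateField.adjoin (FK F v) {e} := by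
    obtain ⟨x, hx, hxe⟩ := hsq
    have h3 := div_mem (pow_mem hx 2) hmem
    rw [← hxe, mul_div_cancel_left₀ _ hne] at h3
    exact h3
  exact (HS.congr hmem hdmem hne (del_ne C he _) hsq).symm

/-- **The nontrivial symbols at the finite places.** Proof: `(v, q) ↦ w`, the place given by a root `e` of `q` (`exists_cmp`): well defined and injective since the roots of `q` are the conjugates of `e` (`Cmp.act`, `cmp_conj`), onto by `cmp_surj`; the symbol for `e`: `thz_fc`,
`HS.congr` (the class of `del` is the class of `a`), `hs_iff`, `adj_emL`, `emL_mk`. -/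
theorem FlF_bij (z : AdF C.X) (y₁ : ∀ v, Pt C.W₂ (FK F v))
    (h₁ : ∀ v, (z.1 v).1 = C.fc (FK F v) (y₁ v))
    (a : HeightOneSpectrum (𝓞 (AdjoinRoot C.g)) → (AdjoinRoot C.g)ˣ)
    (ha : ∀ (v : HeightOneSpectrum (𝓞 F)) (w : HeightOneSpectrum (𝓞 (AdjoinRoot C.g)))
      (e : AlgebraicClosure (FK F v)) (he : aeval e C.g = 0),
        Cmp (lf v) (emL C he : AdjoinRoot C.g →+* AlgebraicClosure (FK F v)) w →
        SqM (IntermediateField.adjoin (FK F v) {e}) (emL C he (a w : AdjoinRoot C.g) *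
          C.del e (Pt.map _ (IsScalarTower.toAlgHom F (FK F v) (AlgebraicClosure (FK F v))) (y₁ v))))
    {c : F[X]} {u : (AdjoinRoot C.g)ˣ} (hu : (u : AdjoinRoot C.g) = AdjoinRoot.mk C.g c) :
    ∃ f : (Σ v : HeightOneSpectrum (𝓞 F), (FK F v)[X]) → HeightOneSpectrum (𝓞 (AdjoinRoot C.g)),
      Set.BijOn f (C.FlF z c) {w | a w ∉ Hm.LNm w u} := by
  choose f hf1 hf2 using fun p : (Σ v : HeightOneSpectrum (𝓞 F), (FK F v)[X]) =>
    gla_place C p.1 p.2
  have hg : ∀ (v : HeightOneSpectrum (𝓞 F)) (q : (FK F v)[X]) (e : AlgebraicClosure (FK F v)),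
      q ∣ C.g.map (algebraMap F (FK F v)) → aeval e q = 0 → aeval e C.g = 0 := by
    rintro v q e ⟨r, hr⟩ he
    have h1 : aeval e (C.g.map (algebraMap F (FK F v))) = 0 := by
      rw [hr, map_mul, he, zero_mul]
    rwa [aeval_map_algebraMap] at h1
  refine ⟨f, ?_, ?_, ?_⟩
  · rintro ⟨v, q⟩ ⟨hm, hq, hdvd, e, he, hn⟩
    have heg := hg v q e hdvd he
    have hc := hf2 ⟨v, q⟩ hq e heg he
    intro hw
    exact hn ((gla_symb C z y₁ h₁ a ha hu heg hc).2 hw)
  · rintro ⟨v, q⟩ ⟨hm, hq, hdvd, e, he, hn⟩ ⟨v', q'⟩ ⟨hm', hq', hdvd', e', he', hn'⟩ hff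
    have hv : v = v' := by
      have h1 := hf1 ⟨v, q⟩
      have h2 := hf1 ⟨v', q'⟩
      rw [hff] at h1
      exact h1.symm.trans h2
    subst hv
    have heg := hg v q e hdvd he
    have heg' := hg v q' e' hdvd' he'
    have hc := hf2 ⟨v, q⟩ hq e heg he
    have hc' := hf2 ⟨v, q'⟩ hq' e' heg' he'
    rw [hff] at hc
    obtain ⟨γ, hγ⟩ := cmp_conj (lf_lg v) hc hc'
    have h3 := hγ (AdjoinRoot.mk C.g X)
    rw [emL_mk, emL_mk, aeval_X, aeval_X] at h3
    have h4 : aeval e' q = 0 := by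
      rw [h3, aeval_algHom_apply γ e q, he, map_zero]
    have h5 : q = minpoly (FK F v) e' := minpoly.eq_of_irreducible_of_monic hq h4 hm
    have h6 : q' = minpoly (FK F v) e' := minpoly.eq_of_irreducible_of_monic hq' he' hm'
    rw [h5, h6]
  · rintro w hw
    obtain ⟨i, hi⟩ := cmp_surj (lf_lg (w.under (𝓞 F))) (w := w) rfl
    obtain ⟨e, he, rfl⟩ := emL_surj C i
    have hint : IsIntegral (FK F (w.under (𝓞 F))) e := Algebra.IsIntegral.isIntegral e
    have hirr := minpoly.irreducible hint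
    have hc := hf2 ⟨w.under (𝓞 F), minpoly _ e⟩ hirr e he (minpoly.aeval _ _)
    refine ⟨⟨w.under (𝓞 F), minpoly _ e⟩, ⟨minpoly.monic hint, hirr, ?_, e, minpoly.aeval _ _, ?_⟩,
      hc.inj hi⟩
    · refine minpoly.dvd _ _ ?_
      rwa [aeval_map_algebraMap]
    · intro h7
      exact hw ((gla_symb C z y₁ h₁ a ha hu he hi).1 h7)

end BE
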