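import Pool.Agent.Lib.MP_f80667_ag.Be.ExA
import Pool.Agent.Lib.MP_f80667_ag.Be.GlA
import Pool.Agent.Lib.MP_f80667_ag.Be.L2a

/-! The example: the valuations of the elements of the Selmer group are even. -/

open ZC Polynomial IntermediateField IsDedekindDomain NumberField

namespace BE

section loc

variable {F : Type} [Field F] {K : Type} [Field K] [CharZero K] [Algebra F K] {Ω : Type} [Field Ω]
  [Algebra K Ω] [Algebra F Ω] [IsScalarTower F K Ω] [IsAlgClosure K Ω] (C : Cf F) (L : Lf K Ω)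

omit [CharZero K] [IsAlgClosure K Ω] [Algebra F K] [IsScalarTower F K Ω] in
private theorem exb_root_le (h₂ : L.nm (algebraMap F Ω C.c₂) ≤ 1)
    (h₁ : L.nm (algebraMap F Ω C.c₁) ≤ 1) (h₀ : L.nm (algebraMap F Ω C.c₀) ≤ 1) {e : Ω}
    (he : aeval e C.g = 0) : L.nm e ≤ 1 := by
  have hm : C.g.Monic := by
    unfold Cf.g
    monicity!
  refine L.root_le (f := C.g.map (algebraMap F Ω)) (hm.map _) ?_ (by rw [eval_map_algebraMap]; exact he)
  intro i
  rw [coeff_map]
  match i with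
  | 0 => simpa [Cf.g, coeff_X, coeff_C] using h₀
  | 1 => simpa [Cf.g, coeff_X, coeff_C] using h₁
  | 2 => simpa [Cf.g, coeff_X, coeff_C] using h₂
  | 3 =>
    have h3 : C.g.coeff 3 = 1 := by
      simp [Cf.g, coeff_X, coeff_C]
    rw [h3, map_one, L.one]
  | n + 4 =>
    have h3 : C.g.coeff (n + 4) = 0 := by
      simp [Cf.g, coeff_X, coeff_C, coeff_X_pow]
    rw [h3, map_zero, (L.zero_iff 0).2 rfl]
    exact zero_le_one

omit [CharZero K] [IsAlgClosure K Ω] [Algebra F K] [IsScalarTower F K Ω] in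
private theorem exb_dg_one (h₂ : L.nm (algebraMap F Ω C.c₂) ≤ 1)
    (h₁ : L.nm (algebraMap F Ω C.c₁) ≤ 1) (h₀ : L.nm (algebraMap F Ω C.c₀) ≤ 1)
    (hd : L.nm (algebraMap F Ω C.disc) = 1) {e : Ω} (he : aeval e C.g = 0) :
    L.nm (aeval e (derivative C.g)) = 1 := by
  have hel := exb_root_le C L h₂ h₁ h₀ he
  have h3 : L.nm (3 : Ω) ≤ 1 := by
    have := L.nat_le 3
    rwa [Nat.cast_ofNat] at this
  have h2 : L.nm (2 : Ω) ≤ 1 := L.two_le
  have h4 : L.nm (4 : Ω) ≤ 1 := by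
    have := L.nat_le 4
    rwa [Nat.cast_ofNat] at this
  have hpe : L.nm (e ^ 2) ≤ 1 := by
    rw [L.pow]
    exact pow_le_one₀ (L.nonneg e) hel
  have hd' : L.nm (aeval e (derivative C.g)) ≤ 1 := by
    rw [gla_dg]
    exact gla_int_add L (gla_int_add L (gla_int_mul L h3 hpe)
      (gla_int_mul L (gla_int_mul L h2 h₂) hel)) h₁
  have hq : L.nm ((e + algebraMap F Ω C.c₂) ^ 2 -
      4 * (e ^ 2 + algebraMap F Ω C.c₂ * e + algebraMap F Ω C.c₁)) ≤ 1 := by
    rw [sub_eq_add_neg]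
    refine gla_int_add L ?_ ?_
    · rw [L.pow]
      exact pow_le_one₀ (L.nonneg _) (gla_int_add L hel h₂)
    · rw [L.neg]
      exact gla_int_mul L h4 (gla_int_add L (gla_int_add L hpe (gla_int_mul L h₂ hel)) h₁)
  have h1 := hd
  rw [gla_disc C he, L.mul, L.pow] at h1
  refine le_antisymm hd' ?_
  by_contra hcon
  push Not at hcon
  have h5 : L.nm (aeval e (derivative C.g)) ^ 2 * L.nm ((e + algebraMap F Ω C.c₂) ^ 2 -
      4 * (e ^ 2 + algebraMap F Ω C.c₂ * e + algebraMap F Ω C.c₁)) < 1 :=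
    mul_lt_one_of_nonneg_of_lt_one_left (pow_nonneg (L.nonneg _) 2)
      (pow_lt_one₀ (L.nonneg _) hcon two_ne_zero) hq
  exact absurd h1 h5.ne

/-- If `g` is integral with unit discriminant the valuation of `w - e` is even. Proof: the differences of the roots are units. `‖w‖ > 1`: the three factors have the norm `‖w‖` and `‖w‖ = ‖v / w‖²`. `‖w‖ ≤ 1`: at most one of the three factors is not a unit, its norm is `‖v‖²`. `w = e`: `g'(e)` is a unit. -/
theorem even_del (h₂ : L.nm (algebraMap F Ω C.c₂) ≤ 1) (h₁ : L.nm (algebraMap F Ω C.c₁) ≤ 1)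
    (h₀ : L.nm (algebraMap F Ω C.c₀) ≤ 1) (hd : L.nm (algebraMap F Ω C.disc) = 1)
    {M : IntermediateField K Ω} {e : Ω} (he : aeval e C.g = 0) (heM : e ∈ M) {y : Pt C.W₂ Ω}
    (hy : ∀ γ ∈ M.fixingSubgroup, γ • y = y) :
    ∃ m ∈ M, m ≠ 0 ∧ L.nm (C.del e y) = L.nm m ^ 2 := by
  rcases Pt.cases' y with rfl | ⟨w, v, hwv, rfl⟩
  · refine ⟨1, M.one_mem, one_ne_zero, ?_⟩
    rw [gla_del_zero, L.one, one_pow]
  · have hfix := (fix_aff M hwv).1 hy
    by_cases hw : w = e
    · subst hw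
      refine ⟨1, M.one_mem, one_ne_zero, ?_⟩
      rw [gla_del_same, exb_dg_one C L h₂ h₁ h₀ hd he, L.one, one_pow]
    · rw [gla_del_ne C hwv hw]
      have hel := exb_root_le C L h₂ h₁ h₀ he
      have hdg := exb_dg_one C L h₂ h₁ h₀ hd he
      have hpe : L.nm (e ^ 2) ≤ 1 := by
        rw [L.pow]
        exact pow_le_one₀ (L.nonneg e) hel
      obtain ⟨q, hq⟩ : ∃ q, q = w ^ 2 + ((e + algebraMap F Ω C.c₂) * w +
        (e ^ 2 + algebraMap F Ω C.c₂ * e + algebraMap F Ω C.c₁)) := ⟨_, rfl⟩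
      have hv2 : v ^ 2 = (w - e) * q := by
        rw [gla_eq C hwv, hq]
        rw [gla_g] at he
        linear_combination he
      have hne : w - e ≠ 0 := sub_ne_zero.2 hw
      have hvn : L.nm v ^ 2 = L.nm (w - e) * L.nm q := by
        rw [← L.pow, hv2, L.mul]
      rcases lt_or_ge 1 (L.nm w) with h1 | h1
      · have hn : L.nm (w - e) = L.nm w := by
          rw [sub_eq_add_neg]
          exact L.add_eq' (by rw [L.neg]; exact hel.trans_lt h1)
        have hw0 : 0 < L.nm w := one_pos.trans h1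
        have hww : L.nm w < L.nm (w ^ 2) := by
          rw [L.pow, sq]
          exact lt_mul_of_one_lt_left hw0 h1
        have hqn : L.nm q = L.nm w ^ 2 := by
          rw [hq, L.add_eq', L.pow]
          refine (L.add _ _).trans_lt (max_lt ?_ ?_)
          · rw [L.mul]
            exact (mul_le_of_le_one_left hw0.le (gla_int_add L hel h₂)).trans_lt hww
          · exact (gla_int_add L (gla_int_add L hpe (gla_int_mul L h₂ hel)) h₁).trans_lt
              (h1.trans hww)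
        rw [hn, hqn] at hvn
        have hv0 : v ≠ 0 := by
          rintro rfl
          rw [(L.zero_iff 0).2 rfl, zero_pow two_ne_zero] at hvn
          exact (mul_pos hw0 (pow_pos hw0 2)).ne hvn
        refine ⟨v / w, M.div_mem hfix.2 hfix.1, div_ne_zero hv0 (L.ne_zero hw0), ?_⟩
        rw [hn, L.div, div_pow, hvn, mul_div_assoc, div_self (pow_pos hw0 2).ne', mul_one]
      · have hle : L.nm (w - e) ≤ 1 := (L.sub _ _).trans (max_le h1 hel)
        rcases hle.lt_or_eq with h3 | h3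
        · have hqn : L.nm q = 1 := by
            have h4 : q = aeval e (derivative C.g) + (w - e) *
                (w + (2 * e + algebraMap F Ω C.c₂)) := by
              rw [hq, gla_dg]
              ring
            rw [h4, L.add_eq', hdg]
            rw [hdg, L.mul]
            refine mul_lt_one_of_nonneg_of_lt_one_left (L.nonneg _) h3 ?_
            exact gla_int_add L h1 (gla_int_add L (gla_int_mul L L.two_le hel) h₂)
          rw [hqn, mul_one] at hvn
          refine ⟨v, hfix.2, ?_, hvn.symm⟩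
          rintro rfl
          rw [(L.zero_iff 0).2 rfl, zero_pow two_ne_zero] at hvn
          exact (L.pos hne).ne hvn
        · refine ⟨1, M.one_mem, one_ne_zero, ?_⟩
          rw [h3, L.one, one_pow]

/-- If `g` has no root in `K`, residue characteristic odd, the classes of the points over `K` are squares. Proof: `exists_half` for `M = ⊥`, `u = 0`, `th_pair`. -/
theorem sq_del (h : L.H2 C) {e : Ω} (he : aeval e C.g = 0) {y : Pt C.W₂ Ω}
    (hy : ∀ γ : Ω ≃ₐ[K] Ω, γ • y = y) :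
    SqM (IntermediateField.adjoin K {e}) (C.del e y) := by
  have hPP : (C.dt K Ω).PP (⊥ : IntermediateField K Ω).fixingSubgroup (0 : Pt C.W₁ Ω) y := by
    intro γ _
    rw [(C.dt K Ω).smul_px, smul_zero, hy γ]
  obtain ⟨y', hy', hyy⟩ := exists_half C L h (M := ⊥)
    ⟨0, by rw [IntermediateField.finrank_bot, pow_zero]⟩ hPP
  have h1 := th_pair C he hy'.uu (y₁ := y') (y₂ := y') fun γ hγ => Or.inl ⟨hy' γ hγ, hy' γ hγ⟩
  rw [hyy] at h1
  have h2 : SqM (Me (⊥ : IntermediateField K Ω) e) (C.th0 Ω e 0 y) := by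
    refine SqM.of_sq (th_mem C he hy') (th_ne C e he 0 y') ?_
    rwa [sq]
  have h3 : Me (⊥ : IntermediateField K Ω) e = IntermediateField.adjoin K {e} := bot_sup_eq _
  rw [h3] at h2
  exact h2

end loc

variable (a b : ℤ) (hb : b ≠ 0) (hab : a ^ 2 - 4 * b ≠ 0)

theorem irr7 : Irreducible (Cab a b hb hab).g := by
  have hm : (Cab a b hb hab).g.Monic := by
    unfold Cf.g
    monicity!
  have hd : (Cab a b hb hab).g.natDegree = 3 := by
    unfold Cf.g
    compute_degree!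
  rw [hm.irreducible_iff_roots_eq_zero_of_degree_le_three
    (by rw [hd]; norm_num) (by rw [hd]), Multiset.eq_zero_iff_forall_notMem]
  intro x hx
  rw [mem_roots hm.ne_zero, IsRoot.def] at hx
  have h1 : x ^ 3 + x ^ 2 + -2 * x + -1 = 0 := by
    simpa [Cf.g, Cab] using hx
  have h2 : IsIntegral ℤ x := by
    refine ⟨X ^ 3 + X ^ 2 + C (-2) * X + C (-1), by monicity!, ?_⟩
    simpa using h1
  obtain ⟨n, hn⟩ := IsIntegrallyClosed.isIntegral_iff.1 h2
  rw [eq_intCast] at hn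
  subst hn
  have h3 : n ^ 3 + n ^ 2 + -2 * n + -1 = 0 := by exact_mod_cast h1
  have h4 : n ∣ 1 := ⟨n ^ 2 + n - 2, by linear_combination -h3⟩
  rcases Int.isUnit_iff.1 (isUnit_of_dvd_one h4) with rfl | rfl <;> norm_num at h3

instance : Fact (Irreducible (Cab a b hb hab).g) := ⟨irr7 a b hb hab⟩

private theorem exb_ev {F : Type} [Field F] [NumberField F] (C : Cf F) [Fact (Irreducible C.g)]
    {v : HeightOneSpectrum (𝓞 F)} {c₀ : F[X]} {u : (AdjoinRoot C.g)ˣ}
    (hu : (u : AdjoinRoot C.g) = AdjoinRoot.mk _ c₀) {w : HeightOneSpectrum (𝓞 (AdjoinRoot C.g))}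
    {e : AlgebraicClosure (FK F v)} (he : aeval e C.g = 0)
    (hi : Cmp (lf v) (emL C he : AdjoinRoot C.g →+* AlgebraicClosure (FK F v)) w)
    {d : AlgebraicClosure (FK F v)} (hd : d ≠ 0)
    (hs : ∃ x ∈ IntermediateField.adjoin (FK F v) {e}, aeval e c₀ * d = x ^ 2)
    (hm : ∃ m ∈ IntermediateField.adjoin (FK F v) {e}, m ≠ 0 ∧ (lf v).nm d = (lf v).nm m ^ 2) :
    Ev w u := by
  obtain ⟨x, hx, hxe⟩ := hs
  obtain ⟨m, hm, hm0, hmn⟩ := hm
  have hadj := adj_emL (K := FK F v) C he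
  have hu0 : emL C he (u : AdjoinRoot C.g) ≠ 0 := (_root_.map_ne_zero _).2 u.ne_zero
  have hue : emL C he (u : AdjoinRoot C.g) = aeval e c₀ := by rw [hu, emL_mk]
  have hx0 : x ≠ 0 := by
    rintro rfl
    rw [zero_pow two_ne_zero, ← hue] at hxe
    exact mul_ne_zero hu0 hd hxe
  have hmx : m / x ≠ 0 := div_ne_zero hm0 hx0
  obtain ⟨t, ht⟩ := dense_N (lf_lg v) (emL C he) (z := m / x) (by
    rw [hadj]
    exact div_mem hm hx) ((lf v).pos hmx)
  have hnt := (lf v).eq_of_close ht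
  have ht0 : t ≠ 0 := by
    rintro rfl
    rw [map_zero, ((lf v).zero_iff 0).2 rfl] at hnt
    exact hmx (((lf v).zero_iff _).1 hnt.symm)
  refine ⟨Units.mk0 t ht0, ?_⟩
  rw [hi.eq_one]
  have e1 : ((u * Units.mk0 t ht0 ^ 2 : (AdjoinRoot C.g)ˣ) : AdjoinRoot C.g) =
      (u : AdjoinRoot C.g) * t ^ 2 := by
    rw [Units.val_mul, Units.val_pow_eq_pow_val, Units.val_mk0]
  rw [e1]
  have e2 : (emL C he : AdjoinRoot C.g →+* AlgebraicClosure (FK F v)) ((u : AdjoinRoot C.g) * t ^ 2)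
      = emL C he (u : AdjoinRoot C.g) * emL C he t ^ 2 := by
    change emL C he ((u : AdjoinRoot C.g) * t ^ 2) = _
    rw [map_mul, map_pow]
  rw [e2, (lf v).mul, (lf v).pow, hnt, (lf v).div, hue, div_pow, ← hmn, ← (lf v).pow x, ← hxe,
    (lf v).mul]
  have hc0 : (lf v).nm (aeval e c₀) ≠ 0 := by
    rw [← hue]
    exact ((lf v).pos hu0).ne'
  have hd0 : (lf v).nm d ≠ 0 := ((lf v).pos hd).ne'
  rw [mul_div_assoc', mul_comm, mul_comm, div_self (mul_ne_zero hc0 hd0)]

private theorem exb_gen {F : Type} [Field F] [NumberField F] (C : Cf F)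
    [Fact (Irreducible C.g)] {c₀ : F[X]} (hs : C.SelAt c₀) {u : (AdjoinRoot C.g)ˣ}
    (hu : (u : AdjoinRoot C.g) = AdjoinRoot.mk _ c₀)
    (hg : ∀ v, C.G2 v ∨ (v.valuation F C.c₂ ≤ 1 ∧ v.valuation F C.c₁ ≤ 1 ∧
      v.valuation F C.c₀ ≤ 1 ∧ v.valuation F C.disc = 1))
    (w : HeightOneSpectrum (𝓞 (AdjoinRoot C.g))) : Ev w u := by
  obtain ⟨i, hi⟩ := cmp_surj (lf_lg (w.under (𝓞 F))) (N := AdjoinRoot C.g) (w := w) rfl
  obtain ⟨e, he, rfl⟩ := emL_surj C i
  obtain ⟨y, hy⟩ := hs.2.1 (w.under (𝓞 F))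
  have hyγ : ∀ γ : AlgebraicClosure (FK F (w.under (𝓞 F))) ≃ₐ[FK F (w.under (𝓞 F))]
      AlgebraicClosure (FK F (w.under (𝓞 F))),
      γ • Pt.map C.W₂ (IsScalarTower.toAlgHom F (FK F (w.under (𝓞 F)))
        (AlgebraicClosure (FK F (w.under (𝓞 F))))) y = Pt.map C.W₂ (IsScalarTower.toAlgHom F
        (FK F (w.under (𝓞 F))) (AlgebraicClosure (FK F (w.under (𝓞 F))))) y := by
    intro γ
    rw [Pt.smul_def, Pt.map_map']
    congr 1
    exact congrArg (Pt.map C.W₂) (AlgHom.ext fun a => γ.commutes a)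
  refine exb_ev C hu he hi (del_ne C he _) (hy e he) ?_
  rcases hg (w.under (𝓞 F)) with h | ⟨h1, h2, h3, h4⟩
  · have h2 : (lf (w.under (𝓞 F))).H2 C := by
      refine ⟨?_, ?_⟩
      · have h2 := gla_one h.two
        rwa [map_ofNat] at h2
      · intro x hx
        obtain ⟨z, rfl⟩ := IntermediateField.mem_bot.1 hx
        rw [aeval_algebraMap_apply]
        exact (_root_.map_ne_zero _).2 (h.root z)
    obtain ⟨s, hs1, hs2⟩ := sq_del C (lf (w.under (𝓞 F))) h2 he hyγ
    refine ⟨s, hs1, ?_, by rw [hs2, (lf _).pow]⟩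
    rintro rfl
    rw [zero_pow two_ne_zero] at hs2
    exact del_ne C he _ hs2
  · exact even_del C (lf (w.under (𝓞 F))) (gla_le h1) (gla_le h2) (gla_le h3) (gla_one h4) he
      (IntermediateField.mem_adjoin_simple_self _ e) fun γ _ => hyγ γ

/-- **Even valuations.** Proof: for the place `w` above `v` let `e` be a root which gives `w` (`cmp_surj`, `emL_surj`), `y ∈ E₂(ℚ_v)` as in `SelAt`: `c₀(e) del e y` is a square in `ℚ_v(e)`. `v = 7`: `sq_del`. Other places: `even_del`. The norm of `c₀(e)` is the square of the norm of an element of `ℚ_v(e)`, so of an element of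
`ℚ[w] / g` (`dense_N`). -/
theorem ev_sel {c₀ : ℚ[X]} (hs : (Cab a b hb hab).SelAt c₀)
    {u : (AdjoinRoot (Cab a b hb hab).g)ˣ}
    (hu : (u : AdjoinRoot (Cab a b hb hab).g) = AdjoinRoot.mk _ c₀)
    (w : HeightOneSpectrum (𝓞 (AdjoinRoot (Cab a b hb hab).g))) : Ev w u := by
  refine exb_gen (Cab a b hb hab) hs hu (fun v => ?_) w
  obtain ⟨p, hp, hpv, hpn⟩ := exists_p v
  have hint : ∀ n : ℤ, v.valuation ℚ (n : ℚ) ≤ 1 := by
    intro n
    have h1 : v.valuation ℚ (algebraMap (𝓞 ℚ) ℚ (n : 𝓞 ℚ)) ≤ 1 :=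
      HeightOneSpectrum.valuation_le_one (K := ℚ) v (n : 𝓞 ℚ)
    rwa [map_intCast] at h1
  by_cases h7 : p = 7
  · refine Or.inl ⟨?_, ?_⟩
    · have h3 := (hpn 2).2 (by rw [h7]; decide)
      exact_mod_cast h3
    · intro x hx
      refine no_root_7 (v := v) (by
        rw [h7] at hpv
        exact_mod_cast hpv) a b hb hab x ?_
      rw [exa_g]
      exact (@exa_g a b hb hab (FK ℚ v) _ (FK.algebra ℚ v) x).symm.trans hx
  · refine Or.inr ⟨?_, ?_, ?_, ?_⟩
    · have h1 := hint 1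
      rwa [Int.cast_one] at h1
    · have h1 := hint (-2)
      rw [Int.cast_neg, Int.cast_ofNat] at h1
      exact h1
    · have h1 := hint (-1)
      rw [Int.cast_neg, Int.cast_one] at h1
      exact h1
    · have h1 : (Cab a b hb hab).disc = ((49 : ℤ) : ℚ) := by
        norm_num [Cf.disc, Cab]
      rw [h1]
      refine (hpn 49).2 fun h2 => h7 ?_
      have h3 : (p : ℤ) ∣ 7 ^ 2 := by
        norm_num
        exact h2
      have h4 : p ∣ 7 ^ 2 := by exact_mod_cast h3
      exact (Nat.prime_dvd_prime_iff_eq hp (by norm_num)).1 (hp.dvd_of_dvd_pow h4)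

end BE
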