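import Pool.Agent.Lib.MP_f80667_ag.Be.ExB

/-! The example: the ring of integers of `ℚ[w] / (w³ + w² - 2 w - 1)` is principal. -/

open ZC Polynomial IsDedekindDomain NumberField

namespace BE

/-- The trace from the matrix of the multiplication. -/
theorem ExC_trace {K ι : Type} [Field K] [NumberField K] [Fintype ι] [DecidableEq ι]
    (b : Module.Basis ι ℚ K) (x : K) (c : ι → ι → ℚ) (h : ∀ j, x * b j = ∑ i, c i j • b i) :
    Algebra.trace ℚ K x = ∑ i, c i i := by
  rw [Algebra.trace_eq_matrix_trace b, Matrix.trace]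
  refine Finset.sum_congr rfl fun i _ => ?_
  rw [Matrix.diag_apply, Algebra.leftMulMatrix_eq_repr_mul, h i, Module.Basis.repr_sum_self]

/-- The discriminant of an order bounds the discriminant of the field. -/
theorem ExC_discr {K : Type} [Field K] [NumberField K] (h3 : Module.finrank ℚ K = 3) (B : Fin 3 → 𝓞 K)
    (h0 : Algebra.discr ℤ B ≠ 0) : |NumberField.discr K| ≤ |Algebra.discr ℤ B| := by
  have hcard : Fintype.card (Module.Free.ChooseBasisIndex ℤ (𝓞 K)) = Fintype.card (Fin 3) := by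
    rw [← Module.finrank_eq_card_chooseBasisIndex, RingOfIntegers.rank, h3, Fintype.card_fin]
  let b : Module.Basis (Fin 3) ℤ (𝓞 K) :=
    (RingOfIntegers.basis K).reindex (Fintype.equivOfCardEq hcard)
  have h1 := Algebra.discr_of_matrix_vecMul (A := ℤ) b (b.toMatrix B)
  rw [Module.Basis.toMatrix_map_vecMul, NumberField.discr_eq_discr] at h1
  rw [h1, abs_mul]
  have h2 : (b.toMatrix B).det ^ 2 ≠ 0 := by
    intro h2
    rw [h2, zero_mul] at h1
    exact h0 h1
  have h4 : 1 ≤ |(b.toMatrix B).det ^ 2| := Int.one_le_abs h2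
  calc |NumberField.discr K| = 1 * |NumberField.discr K| := (one_mul _).symm
    _ ≤ |(b.toMatrix B).det ^ 2| * |NumberField.discr K| :=
      mul_le_mul_of_nonneg_right h4 (abs_nonneg _)

/-- A cubic field with an element `e`, `e³ + e² - 2 e - 1 = 0`. -/
theorem ExC_gen {K : Type} [Field K] [NumberField K] (b : Module.Basis (Fin 3) ℚ K) (e : K)
    (hb : ∀ i, b i = e ^ (i : ℕ)) (he : e ^ 3 + e ^ 2 - 2 * e - 1 = 0) :
    |NumberField.discr K| ≤ 49 := by
  have h3 : Module.finrank ℚ K = 3 := by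
    rw [Module.finrank_eq_card_basis b, Fintype.card_fin]
  have hint : IsIntegral ℤ e := by
    refine ⟨X ^ 3 + X ^ 2 - 2 * X - 1, ?_, ?_⟩
    · monicity!
    · simpa using he
  let ε : 𝓞 K := ⟨e, hint⟩
  let B : Fin 3 → 𝓞 K := fun i => ε ^ (i : ℕ)
  have t0 : Algebra.trace ℚ K (e ^ 0) = 3 := by
    rw [pow_zero, ← map_one (algebraMap ℚ K), Algebra.trace_algebraMap, h3]
    norm_num
  have t1 : Algebra.trace ℚ K (e ^ 1) = -1 := by
    rw [ExC_trace b _ ![![0, 0, 1], ![1, 0, 2], ![0, 1, -1]]]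
    · simp [Fin.sum_univ_three]
    · intro j
      fin_cases j
      · simp [Fin.sum_univ_three, hb]
      · simp [Fin.sum_univ_three, hb]
        ring
      · simp [Fin.sum_univ_three, hb, Algebra.smul_def]
        linear_combination he
  have t2 : Algebra.trace ℚ K (e ^ 2) = 5 := by
    rw [ExC_trace b _ ![![0, 1, -1], ![0, 2, -1], ![1, -1, 3]]]
    · simp [Fin.sum_univ_three]
      norm_num
    · intro j
      fin_cases j
      · simp [Fin.sum_univ_three, hb]
      · simp [Fin.sum_univ_three, hb, Algebra.smul_def]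
        linear_combination he
      · simp [Fin.sum_univ_three, hb, Algebra.smul_def]
        linear_combination (e - 1) * he
  have t3 : Algebra.trace ℚ K (e ^ 3) = -4 := by
    have h : e ^ 3 = -(e ^ 2) + (2 : ℚ) • e ^ 1 + e ^ 0 := by
      simp only [Algebra.smul_def, map_ofNat]
      linear_combination he
    rw [h, map_add, map_add, map_neg, map_smul, t0, t1, t2]
    norm_num
  have t4 : Algebra.trace ℚ K (e ^ 4) = 13 := by
    have h : e ^ 4 = -(e ^ 3) + (2 : ℚ) • e ^ 2 + e ^ 1 := by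
      simp only [Algebra.smul_def, map_ofNat]
      linear_combination e * he
    rw [h, map_add, map_add, map_neg, map_smul, t1, t2, t3]
    norm_num
  have tz : ∀ n : ℕ, ((Algebra.trace ℤ (𝓞 K) (ε ^ n) : ℤ) : ℚ) = Algebra.trace ℚ K (e ^ n) := by
    intro n
    rw [Algebra.coe_trace_int]
    rfl
  have z0 : Algebra.trace ℤ (𝓞 K) (ε ^ 0) = 3 := by
    have := (tz 0).trans t0
    exact_mod_cast this
  have z1 : Algebra.trace ℤ (𝓞 K) (ε ^ 1) = -1 := by
    have := (tz 1).trans t1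
    exact_mod_cast this
  have z2 : Algebra.trace ℤ (𝓞 K) (ε ^ 2) = 5 := by
    have := (tz 2).trans t2
    exact_mod_cast this
  have z3 : Algebra.trace ℤ (𝓞 K) (ε ^ 3) = -4 := by
    have := (tz 3).trans t3
    exact_mod_cast this
  have z4 : Algebra.trace ℤ (𝓞 K) (ε ^ 4) = 13 := by
    have := (tz 4).trans t4
    exact_mod_cast this
  have hB : Algebra.discr ℤ B = 49 := by
    rw [Algebra.discr_def]
    have hm : ∀ i j : Fin 3, Algebra.traceMatrix ℤ B i j =
        Algebra.trace ℤ (𝓞 K) (ε ^ ((i : ℕ) + (j : ℕ))) := by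
      intro i j
      rw [Algebra.traceMatrix_apply, Algebra.traceForm_apply, pow_add]
    rw [Matrix.det_fin_three]
    simp only [hm]
    simp only [Fin.isValue, Fin.val_zero, Fin.val_one, Fin.val_two, Nat.reduceAdd, add_zero,
      zero_add]
    rw [z0, z1, z2, z3, z4]
    norm_num
  have h5 := ExC_discr h3 B (by rw [hB]; norm_num)
  rw [hB] at h5
  exact h5

/-- The root. -/
theorem ExC_root (a b : ℤ) (hb : b ≠ 0) (hab : a ^ 2 - 4 * b ≠ 0) :
    (AdjoinRoot.root (Cab a b hb hab).g) ^ 3 + (AdjoinRoot.root (Cab a b hb hab).g) ^ 2 -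
      2 * (AdjoinRoot.root (Cab a b hb hab).g) - 1 = 0 := by
  have hg : (Cab a b hb hab).g = (X ^ 3 + X ^ 2 - 2 * X - 1 : ℚ[X]) := by
    simp only [Cf.g, Cab, map_one, map_neg, map_ofNat]
    ring
  have h : eval₂ (AdjoinRoot.of (Cab a b hb hab).g) (AdjoinRoot.root (Cab a b hb hab).g)
      (X ^ 3 + X ^ 2 - 2 * X - 1 : ℚ[X]) = 0 := by
    rw [← hg]
    exact AdjoinRoot.eval₂_root _
  simp only [eval₂_sub, eval₂_add, eval₂_mul, eval₂_pow, eval₂_X, eval₂_one, eval₂_ofNat] at h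
  exact h

theorem ExC_monic (a b : ℤ) (hb : b ≠ 0) (hab : a ^ 2 - 4 * b ≠ 0) : (Cab a b hb hab).g.Monic := by
  unfold Cf.g
  monicity!

theorem ExC_deg (a b : ℤ) (hb : b ≠ 0) (hab : a ^ 2 - 4 * b ≠ 0) :
    (Cab a b hb hab).g.natDegree = 3 := by
  unfold Cf.g
  compute_degree!

/-- The discriminant. Proof: `1, e, e²` are integral, their discriminant is `49 = det² d`, `det` the determinant of the matrix of the coordinates in an integral basis (`Algebra.discr_of_matrix_mulVec`, `Algebra.discr_powerBasis_eq_prod`, or by traces: the Gram matrix is `(3, - 1, 5; - 1, 5, - 4; 5, - 4, 13)`). -/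
theorem discr7 (a b : ℤ) (hb : b ≠ 0) (hab : a ^ 2 - 4 * b ≠ 0) :
    |NumberField.discr (AdjoinRoot (Cab a b hb hab).g)| ≤ 49 := by
  have hdim : (AdjoinRoot.powerBasis' (ExC_monic a b hb hab)).dim = 3 := by
    rw [AdjoinRoot.powerBasis'_dim, ExC_deg]
  refine ExC_gen ((AdjoinRoot.powerBasis' (ExC_monic a b hb hab)).basis.reindex (finCongr hdim))
    (AdjoinRoot.root (Cab a b hb hab).g) (fun i => ?_) (ExC_root a b hb hab)
  rw [Module.Basis.reindex_apply, PowerBasis.coe_basis, AdjoinRoot.powerBasis'_gen]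
  rfl

/-- Proof: the Minkowski bound, `RingOfIntegers.isPrincipalIdealRing_of_abs_discr_lt`: `49 < (2 · 3³ / 3!)² = 81` (three real embeddings). -/
theorem pid7 (a b : ℤ) (hb : b ≠ 0) (hab : a ^ 2 - 4 * b ≠ 0) :
    IsPrincipalIdealRing (𝓞 (AdjoinRoot (Cab a b hb hab).g)) := by
  have h3 : Module.finrank ℚ (AdjoinRoot (Cab a b hb hab).g) = 3 := by
    rw [(AdjoinRoot.powerBasis' (ExC_monic a b hb hab)).finrank, AdjoinRoot.powerBasis'_dim,
      ExC_deg]
  refine RingOfIntegers.isPrincipalIdealRing_of_abs_discr_lt ?_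
  have h1 : ((|NumberField.discr (AdjoinRoot (Cab a b hb hab).g)| : ℤ) : ℝ) ≤ 49 := by
    exact_mod_cast discr7 a b hb hab
  refine h1.trans_lt ?_
  have h2 := InfinitePlace.card_add_two_mul_card_eq_rank (AdjoinRoot (Cab a b hb hab).g)
  rw [h3] at h2 ⊢
  have h4 : InfinitePlace.nrComplexPlaces (AdjoinRoot (Cab a b hb hab).g) ≤ 1 := by omega
  have hpi := Real.pi_gt_d2
  have hpi4 := Real.pi_le_four
  have h5 : Real.pi / 4 ≤
      (Real.pi / 4) ^ InfinitePlace.nrComplexPlaces (AdjoinRoot (Cab a b hb hab).g) := by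
    calc Real.pi / 4 = (Real.pi / 4) ^ 1 := (pow_one _).symm
      _ ≤ _ := pow_le_pow_of_le_one (by positivity) (by linarith) h4
  have h6 : (2 * (3.14 / 4) * 4.5 : ℝ) ≤ 2 * (Real.pi / 4) ^ InfinitePlace.nrComplexPlaces
      (AdjoinRoot (Cab a b hb hab).g) * (((3 : ℕ) : ℝ) ^ 3 / ((Nat.factorial 3 : ℕ) : ℝ)) := by
    have h7 : (((3 : ℕ) : ℝ) ^ 3 / ((Nat.factorial 3 : ℕ) : ℝ)) = 4.5 := by
      norm_num [Nat.factorial]
    rw [h7]
    nlinarith
  calc (49 : ℝ) < (2 * (3.14 / 4) * 4.5 : ℝ) ^ 2 := by norm_num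
    _ ≤ _ := pow_le_pow_left₀ (by norm_num) h6 2

/-- Integral elements with even valuations in a principal ring of integers. -/
theorem ExC_int {N : Type} [Field N] [NumberField N] (h : IsPrincipalIdealRing (𝓞 N))
    {m : 𝓞 N} (hm : m ≠ 0)
    (he : ∀ w : HeightOneSpectrum (𝓞 N), ∃ j : ℤ,
      w.valuation N (algebraMap (𝓞 N) N m) = WithZero.exp (2 * j)) :
    ∃ (s : 𝓞 N) (ε : (𝓞 N)ˣ), m = s ^ 2 * ε := by
  have hJ : Ideal.span {m} ≠ 0 := by
    rw [Ne, Ideal.zero_eq_bot, Ideal.span_singleton_eq_bot]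
    exact hm
  let n : HeightOneSpectrum (𝓞 N) → ℕ := fun w =>
    (Associates.mk w.asIdeal).count (Associates.mk (Ideal.span {m})).factors
  have hev : ∀ w, n w = 2 * (n w / 2) := by
    intro w
    obtain ⟨j, hj⟩ := he w
    rw [HeightOneSpectrum.valuation_of_algebraMap, HeightOneSpectrum.intValuation_if_neg _ hm] at hj
    have h1 : (-(n w : ℤ)) = 2 * j := WithZero.exp_injective hj
    omega
  have hfin := Ideal.hasFiniteMulSupport hJ
  have hfac := Ideal.finprod_heightOneSpectrum_factorization hJ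
  have hsupp : (Function.mulSupport fun w : HeightOneSpectrum (𝓞 N) => w.asIdeal ^ (n w / 2)) ⊆
      Function.mulSupport fun w : HeightOneSpectrum (𝓞 N) =>
        w.maxPowDividing (Ideal.span {m}) := by
    intro w hw hw'
    apply hw
    have h1 : w.asIdeal ^ n w = 1 := hw'
    have h2 : n w = 0 := by
      by_contra hne
      have h3 : w.asIdeal ^ n w ≤ w.asIdeal := Ideal.pow_le_self hne
      rw [h1, Ideal.one_eq_top, top_le_iff] at h3
      exact w.isPrime.ne_top h3
    change w.asIdeal ^ (n w / 2) = 1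
    rw [h2, Nat.zero_div, pow_zero]
  have hfin2 : (Function.mulSupport fun w : HeightOneSpectrum (𝓞 N) =>
      w.asIdeal ^ (n w / 2)).Finite := Set.Finite.subset hfin hsupp
  have hsq : (∏ᶠ w : HeightOneSpectrum (𝓞 N), w.asIdeal ^ (n w / 2)) ^ 2 = Ideal.span {m} := by
    rw [finprod_pow hfin2 2, ← hfac]
    refine finprod_congr fun w => ?_
    rw [← pow_mul, mul_comm (n w / 2) 2, ← hev w]
    rfl
  obtain ⟨s, hs⟩ := (h.principal (∏ᶠ w : HeightOneSpectrum (𝓞 N), w.asIdeal ^ (n w / 2))).principal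
  rw [hs] at hsq
  have hsq2 : Ideal.span {s ^ 2} = Ideal.span {m} := by
    rw [← Ideal.span_singleton_pow]
    exact hsq
  obtain ⟨ε, hε⟩ := Ideal.span_singleton_eq_span_singleton.1 hsq2
  exact ⟨s, ε, hε.symm⟩

/-- Even valuations and a principal ring of integers: a unit times a square. -/
theorem exists_unit_of_ev {N : Type} [Field N] [NumberField N] (h : IsPrincipalIdealRing (𝓞 N))
    {u : Nˣ} (hu : ∀ w, Ev w u) :
    ∃ t : Nˣ, ∀ w : HeightOneSpectrum (𝓞 N), w.valuation N ((u * t ^ 2 : Nˣ) : N) = 1 := by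
  obtain ⟨p, q, hq, hpq⟩ := IsFractionRing.div_surjective (A := 𝓞 N) (u : N)
  have hq0 : (algebraMap (𝓞 N) N q) ≠ 0 :=
    IsFractionRing.to_map_ne_zero_of_mem_nonZeroDivisors hq
  have hp0 : (algebraMap (𝓞 N) N p) ≠ 0 := by
    intro h0
    rw [h0, zero_div] at hpq
    exact u.ne_zero hpq.symm
  have hm0 : p * q ≠ 0 := by
    intro h0
    have h1 := congrArg (algebraMap (𝓞 N) N) h0
    rw [map_mul, map_zero] at h1
    exact mul_ne_zero hp0 hq0 h1
  have hm : algebraMap (𝓞 N) N (p * q) = (u : N) * (algebraMap (𝓞 N) N q) ^ 2 := by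
    rw [map_mul, ← hpq]
    field_simp
  obtain ⟨s, ε, hs⟩ := ExC_int h hm0 (by
    intro w
    obtain ⟨y, hy⟩ := hu w
    rw [Units.val_mul, Units.val_pow_eq_pow_val, map_mul, map_pow] at hy
    have hy0 : w.valuation N (y : N) ≠ 0 := (Valuation.ne_zero_iff _).2 y.ne_zero
    have hq1 : w.valuation N (algebraMap (𝓞 N) N q) ≠ 0 := (Valuation.ne_zero_iff _).2 hq0
    refine ⟨WithZero.log (w.valuation N (algebraMap (𝓞 N) N q)) -
      WithZero.log (w.valuation N (y : N)), ?_⟩
    rw [hm, map_mul, map_pow]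
    have h1 : w.valuation N (u : N) = (w.valuation N (y : N) ^ 2)⁻¹ := eq_inv_of_mul_eq_one_left hy
    rw [h1, two_mul, WithZero.exp_add, WithZero.exp_sub, WithZero.exp_log hq1,
      WithZero.exp_log hy0]
    field_simp)
  have hs0 : algebraMap (𝓞 N) N s ≠ 0 := by
    intro h0
    have h1 := congrArg (algebraMap (𝓞 N) N) hs
    rw [map_mul, map_mul, map_pow, h0] at h1
    exact mul_ne_zero hp0 hq0 (h1.trans (by ring))
  refine ⟨Units.mk0 _ hq0 * (Units.mk0 _ hs0)⁻¹, fun w => ?_⟩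
  have h2 : ((u * (Units.mk0 _ hq0 * (Units.mk0 _ hs0)⁻¹) ^ 2 : Nˣ) : N) =
      algebraMap (𝓞 N) N (ε : 𝓞 N) := by
    have h3 := congrArg (algebraMap (𝓞 N) N) hs
    rw [hm, map_mul, map_pow] at h3
    rw [Units.val_mul, Units.val_pow_eq_pow_val, Units.val_mul, Units.val_inv_eq_inv_val,
      Units.val_mk0, Units.val_mk0, mul_pow, inv_pow, ← mul_assoc, h3]
    field_simp
  rw [h2, HeightOneSpectrum.valuation_of_algebraMap, HeightOneSpectrum.intValuation_eq_one_iff]
  intro hmem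
  exact w.isPrime.ne_top (Ideal.eq_top_of_isUnit_mem _ hmem ε.isUnit)

end BE
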