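import Pool.Agent.Lib.MP_f80667_ag.Be.Odd
import Pool.Agent.Lib.MP_f80667_ag.Be.Gal

/-! The Frobenius automorphism. -/

open ZC Polynomial IntermediateField

namespace BE

variable {K Ω : Type} [Field K] [Field Ω] [Algebra K Ω]

/-- `φ` is a Frobenius automorphism over `M`: it induces `x ↦ x ^ q` on the residue field of `Ω`, and every
automorphism over `M` acts on finitely many residues as a power of `φ`. -/
structure Frob (L : Lf K Ω) (M : IntermediateField K Ω) (φ : Ω ≃ₐ[K] Ω) (q : ℕ) : Prop where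
  mem : φ ∈ M.fixingSubgroup
  one_lt : 1 < q
  frob : ∀ x, L.nm x ≤ 1 → L.nm (φ x - x ^ q) < 1
  gen : ∀ γ ∈ M.fixingSubgroup, ∀ S : Finset Ω, (∀ x ∈ S, L.nm x ≤ 1) →
    ∃ n : ℕ, ∀ x ∈ S, L.nm (γ x - (φ ^ n) x) < 1

/-! ### The ring of integers -/

namespace FrA

variable (L : Lf K Ω)

/-- The ring of integers. -/
def O : Subring Ω where
  carrier := {x | L.nm x ≤ 1}
  mul_mem' {a b} ha hb := by
    simp only [Set.mem_ofPred_eq] at ha hb ⊢
    rw [L.mul]
    exact mul_le_one₀ ha (L.nonneg _) hb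
  one_mem' := L.one.le
  add_mem' {a b} ha hb := (L.add a b).trans (max_le ha hb)
  zero_mem' := by
    simp only [Set.mem_ofPred_eq]
    rw [(L.zero_iff 0).2 rfl]
    exact zero_le_one
  neg_mem' {a} ha := by
    simp only [Set.mem_ofPred_eq] at ha ⊢
    rwa [L.neg]

theorem mem_O {x : Ω} : x ∈ O L ↔ L.nm x ≤ 1 := Iff.rfl

/-- The action of the Galois group. -/
instance act (H : Subgroup (Ω ≃ₐ[K] Ω)) : MulSemiringAction H (O L) where
  smul γ x := ⟨γ.1 x.1, by rw [mem_O, L.act]; exact x.2⟩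
  one_smul x := rfl
  mul_smul a b x := rfl
  smul_zero γ := Subtype.ext (map_zero γ.1)
  smul_add γ x y := Subtype.ext (map_add γ.1 x.1 y.1)
  smul_one γ := Subtype.ext (map_one γ.1)
  smul_mul γ x y := Subtype.ext (map_mul γ.1 x.1 y.1)

theorem coe_smul (H : Subgroup (Ω ≃ₐ[K] Ω)) (γ : H) (x : O L) : ((γ • x : O L) : Ω) = γ.1 x.1 := rfl

/-- The maximal ideal. -/
def Q : Ideal (O L) where
  carrier := {x | L.nm x.1 < 1}
  add_mem' {a b} ha hb := (L.add a.1 b.1).trans_lt (max_lt ha hb)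
  zero_mem' := by
    simp only [Set.mem_ofPred_eq, ZeroMemClass.coe_zero]
    rw [(L.zero_iff 0).2 rfl]
    exact zero_lt_one
  smul_mem' c {x} hx := by
    simp only [Set.mem_ofPred_eq] at hx ⊢
    rw [smul_eq_mul, Subring.coe_mul, L.mul]
    exact mul_lt_one_of_nonneg_of_lt_one_right c.2 (L.nonneg _) hx

theorem mem_Q {x : O L} : x ∈ Q L ↔ L.nm x.1 < 1 := Iff.rfl

instance Q_max : (Q L).IsMaximal := by
  rw [Ideal.isMaximal_iff]
  constructor
  · rw [mem_Q]
    simp only [OneMemClass.coe_one, L.one, lt_irrefl, not_false_eq_true]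
  · intro J x hJ hx hxJ
    rw [mem_Q, not_lt] at hx
    have h1 : L.nm x.1 = 1 := le_antisymm x.2 hx
    have h2 : L.nm x.1⁻¹ ≤ 1 := by rw [L.inv, h1, inv_one]
    have h3 : (⟨x.1⁻¹, h2⟩ : O L) * x = 1 := by
      apply Subtype.ext
      have h4 : x.1 ≠ 0 := L.ne_zero (by rw [h1]; exact zero_lt_one)
      exact inv_mul_cancel₀ h4
    rw [← h3]
    exact J.mul_mem_left _ hxJ

/-- The integers of `M`. -/
def A (M : IntermediateField K Ω) : Subring (O L) where
  carrier := {x | x.1 ∈ M}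
  mul_mem' ha hb := M.mul_mem ha hb
  one_mem' := M.one_mem
  add_mem' ha hb := M.add_mem ha hb
  zero_mem' := M.zero_mem
  neg_mem' ha := M.neg_mem ha

theorem mem_A {M : IntermediateField K Ω} {x : O L} : x ∈ A L M ↔ x.1 ∈ M := Iff.rfl

instance (M : IntermediateField K Ω) : SMulCommClass M.fixingSubgroup (A L M) (O L) where
  smul_comm γ a x := by
    apply Subtype.ext
    rw [coe_smul, Subring.smul_def, Subring.smul_def, smul_eq_mul, smul_eq_mul, Subring.coe_mul,
      Subring.coe_mul, coe_smul, map_mul]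
    congr 1
    exact (IntermediateField.mem_fixingSubgroup_iff M γ.1).1 γ.2 _ a.2

instance [CharZero K] [IsAlgClosure K Ω] (M : IntermediateField K Ω) :
    Algebra.IsInvariant (A L M) (O L) M.fixingSubgroup where
  isInvariant b hb := by
    have h1 : b.1 ∈ M := mem_of_fix M fun γ hγ => by
      have h2 := congrArg Subtype.val (hb ⟨γ, hγ⟩)
      exact h2
    exact ⟨⟨b, h1⟩, rfl⟩

theorem ker_fin (M : IntermediateField K Ω) [FiniteDimensional K M] :
    Finite (A L M ⧸ (Q L).under (A L M)) := by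
  obtain ⟨S, hS, hS'⟩ := L.fin M inferInstance
  let f : S → A L M ⧸ (Q L).under (A L M) := fun s =>
    Ideal.Quotient.mk _ ⟨⟨s.1, (hS s.1 s.2).2⟩, (hS s.1 s.2).1⟩
  refine Finite.of_surjective f fun y => ?_
  obtain ⟨x, rfl⟩ := Ideal.Quotient.mk_surjective y
  obtain ⟨s, hs, hsx⟩ := hS' x.1.1 x.2 x.1.2
  refine ⟨⟨s, hs⟩, ?_⟩
  rw [Ideal.Quotient.eq, Ideal.mem_comap, mem_Q]
  rw [L.sub_comm] at hsx
  exact hsx

open scoped Pointwise in
theorem stab (H : Subgroup (Ω ≃ₐ[K] Ω)) (γ : H) : γ ∈ MulAction.stabilizer H (Q L) := by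
  rw [MulAction.mem_stabilizer_iff]
  ext x
  rw [Ideal.mem_pointwise_smul_iff_inv_smul_mem, mem_Q, mem_Q, FrA.coe_smul, L.act]

end FrA

variable [CharZero K] [IsAlgClosure K Ω] (L : Lf K Ω)

open FrA in
/-- **Existence.** Proof: the ring of integers `O` of `Ω` with the action of the compact group `Gal(Ω/M)` and the invariants
`O ∩ M`; the residue field `k` of `O ∩ M` is finite (`Lf.fin`), `q` its cardinality; the homomorphism from `Gal(Ω/M)` to the
automorphisms of the residue field of `O` over `k` is surjective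
(`Ideal.Quotient.stabilizerHom_surjective_of_profinite`). `gen`: the residues generate a finite extension of `k` whose
Galois group is generated by the Frobenius automorphism. -/
theorem exists_frob (M : IntermediateField K Ω) [FiniteDimensional K M] :
    ∃ φ q, Frob L M φ q := by
  classical
  have hgal : IsGalois K Ω := inferInstance
  have halg : Algebra.IsIntegral K Ω := inferInstance
  let tO : TopologicalSpace (O L) := ⊥
  have hdO : DiscreteTopology (O L) := ⟨rfl⟩
  have hcs : ContinuousSMul M.fixingSubgroup (O L) := by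
    rw [continuousSMul_iff_stabilizer_isOpen]
    intro x
    have h1 := (stabilizer_isOpen_of_isIntegral (K := K) (L := Ω) x.1).preimage
      (continuous_subtype_val (p := fun γ => γ ∈ M.fixingSubgroup))
    convert! h1 using 1
    ext γ
    simp only [SetLike.mem_coe, MulAction.mem_stabilizer_iff, Set.mem_preimage]
    rw [Subtype.ext_iff, FrA.coe_smul]
    rfl
  have hcpt : CompactSpace M.fixingSubgroup :=
    isCompact_iff_compactSpace.1 (IntermediateField.fixingSubgroup_isClosed M).isCompact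
  have hfin := ker_fin L M
  have hint : Algebra.IsIntegral (A L M) (O L) :=
    Algebra.IsInvariant.isIntegral_of_profinite (G := M.fixingSubgroup)
  have hP : ((Q L).under (A L M)).IsMaximal := Ideal.isMaximal_comap_of_isIntegral_of_isMaximal _
  let fk := Ideal.Quotient.field ((Q L).under (A L M))
  let fκ := Ideal.Quotient.field (Q L)
  let ftk : Fintype (A L M ⧸ (Q L).under (A L M)) := Fintype.ofFinite _
  have halg2 : Algebra.IsAlgebraic (A L M ⧸ (Q L).under (A L M)) (O L ⧸ Q L) := by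
    have : Algebra.IsIntegral (A L M ⧸ (Q L).under (A L M)) (O L ⧸ Q L) := inferInstance
    infer_instance
  let σ := FiniteField.frobeniusAlgEquivOfAlgebraic (A L M ⧸ (Q L).under (A L M)) (O L ⧸ Q L)
  obtain ⟨τ, hτ⟩ := Ideal.Quotient.stabilizerHom_surjective_of_profinite (G := M.fixingSubgroup)
    ((Q L).under (A L M)) (Q L) σ
  have hpow : ∀ (n : ℕ) (x : O L), Ideal.Quotient.mk (Q L) (τ.1 ^ n • x) =
      Ideal.Quotient.mk (Q L) x ^ (Fintype.card (A L M ⧸ (Q L).under (A L M)) ^ n) := by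
    intro n x
    have h1 : Ideal.Quotient.stabilizerHom (Q L) ((Q L).under (A L M)) M.fixingSubgroup (τ ^ n) =
        σ ^ n := by
      rw [map_pow, hτ]
    have h2 := congrArg (fun f => f (Ideal.Quotient.mk (Q L) x)) h1
    simp only [Ideal.Quotient.stabilizerHom_apply] at h2
    rw [AlgEquiv.coe_pow, FiniteField.coe_frobeniusAlgEquivOfAlgebraic_iterate] at h2
    exact h2
  refine ⟨τ.1.1, Fintype.card (A L M ⧸ (Q L).under (A L M)), τ.1.2, Fintype.one_lt_card, ?_, ?_⟩
  · intro x hx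
    have h1 := hpow 1 ⟨x, hx⟩
    rw [pow_one, pow_one, ← map_pow, Ideal.Quotient.eq, mem_Q] at h1
    exact h1
  · intro γ hγ S hS
    let E : IntermediateField (A L M ⧸ (Q L).under (A L M)) (O L ⧸ Q L) :=
      IntermediateField.adjoin _ (Set.range fun s : S => Ideal.Quotient.mk (Q L) ⟨s.1, hS s.1 s.2⟩)
    have hE : FiniteDimensional (A L M ⧸ (Q L).under (A L M)) E :=
      IntermediateField.finiteDimensional_adjoin fun x _ => (halg2.isAlgebraic x).isIntegral
    have hEf : Finite E := Module.finite_of_finite (A L M ⧸ (Q L).under (A L M))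
    let g := Ideal.Quotient.stabilizerHom (Q L) ((Q L).under (A L M)) M.fixingSubgroup
      ⟨⟨γ, hγ⟩, stab L _ _⟩
    obtain ⟨n, hn⟩ := (FiniteField.bijective_frobeniusAlgEquivOfAlgebraic_pow
      (A L M ⧸ (Q L).under (A L M)) E).2 (g.restrictNormal E)
    refine ⟨n.1, fun x hx => ?_⟩
    have h1 : Ideal.Quotient.mk (Q L) ⟨x, hS x hx⟩ ∈ E :=
      IntermediateField.subset_adjoin _ _ ⟨⟨x, hx⟩, rfl⟩
    have h2 := congrArg (fun f => ((f ⟨_, h1⟩ : E) : O L ⧸ Q L)) hn
    simp only [AlgEquiv.restrictNormal_apply] at h2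
    rw [AlgEquiv.coe_pow, FiniteField.coe_frobeniusAlgEquivOfAlgebraic_iterate] at h2
    have h3 := hpow n.1 ⟨x, hS x hx⟩
    have h4 : Ideal.Quotient.mk (Q L) ((⟨γ, hγ⟩ : M.fixingSubgroup) • (⟨x, hS x hx⟩ : O L)) =
        Ideal.Quotient.mk (Q L) (τ.1 ^ n.1 • (⟨x, hS x hx⟩ : O L)) := by
      rw [h3]
      exact h2.symm
    rw [Ideal.Quotient.eq, mem_Q] at h4
    exact h4

/-- The unramified quadratic extension `M₊ = M(s)`, `s² = ν` (`exists_nu`). `φ s = - s`, since otherwise all
`γ ∈ Gal(Ω/M)` would fix `s` (`gen`, `nm 2 = 1`). -/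
theorem exists_plus (h2 : L.nm 2 = 1) {M : IntermediateField K Ω} [FiniteDimensional K M]
    {φ : Ω ≃ₐ[K] Ω} {q : ℕ} (hφ : Frob L M φ q) :
    ∃ (M₂ : IntermediateField K Ω) (s : Ω), FiniteDimensional K M₂ ∧ M ≤ M₂ ∧ s ∈ M₂ ∧
      L.nm s = 1 ∧ φ s = -s ∧ (∀ γ ∈ M.fixingSubgroup, γ ∈ M₂.fixingSubgroup ↔ γ s = s) ∧
      M₂.fixingSubgroup.relIndex M.fixingSubgroup = 2 ∧ ∀ x ∈ M, L.nm x = 1 → SqM M₂ x := by
  have hac : IsAlgClosed Ω := IsAlgClosure.isAlgClosed K
  have halg : Algebra.IsAlgebraic K Ω := IsAlgClosure.isAlgebraic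
  obtain ⟨ν, hνM, hν1, hνs, hν⟩ := exists_nu L h2 M
  obtain ⟨s, hs⟩ := IsAlgClosed.exists_pow_nat_eq ν (n := 2) two_pos
  have hs1 : L.nm s = 1 := by
    have h3 : L.nm s ^ 2 = 1 := by rw [← L.pow, hs, hν1]
    exact (pow_eq_one_iff_of_nonneg (L.nonneg s) two_ne_zero).1 h3
  have hs0 : s ≠ 0 := L.ne_zero (by rw [hs1]; exact zero_lt_one)
  have hγs : ∀ γ ∈ M.fixingSubgroup, γ s = s ∨ γ s = -s := by
    intro γ hγ
    rw [← sq_eq_sq_iff_eq_or_eq_neg, ← map_pow, hs]
    exact (IntermediateField.mem_fixingSubgroup_iff M γ).1 hγ _ hνM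
  have hne : -s ≠ s := by
    intro h
    have h3 : (2 : Ω) * s = 0 := by linear_combination -h
    rcases mul_eq_zero.1 h3 with h4 | h4
    · rw [h4, (L.zero_iff 0).2 rfl] at h2
      exact zero_ne_one h2
    · exact hs0 h4
  have hφs : φ s = -s := by
    refine (hγs φ hφ.mem).resolve_left fun h => hνs ⟨s, ?_, hs.symm⟩
    refine mem_of_fix M fun γ hγ => (hγs γ hγ).resolve_right fun h3 => ?_
    obtain ⟨n, hn⟩ := hφ.gen γ hγ {s} (by
      intro x hx
      rw [Finset.mem_singleton] at hx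
      rw [hx, hs1])
    have h4 : ∀ n : ℕ, (φ ^ n) s = s := by
      intro n
      induction n with
      | zero => rfl
      | succ n ih => rw [pow_succ, AlgEquiv.mul_apply, h, ih]
    have h5 := hn s (Finset.mem_singleton_self s)
    rw [h4, h3] at h5
    have h6 : L.nm (-s - s) = 1 := by
      have h7 : -s - s = -(2 * s) := by ring
      rw [h7, L.neg, L.mul, h2, hs1, one_mul]
    rw [h6] at h5
    exact lt_irrefl _ h5
  have hfd : FiniteDimensional K (IntermediateField.adjoin K {s}) :=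
    IntermediateField.finiteDimensional_adjoin fun z _ => (halg.isAlgebraic z).isIntegral
  have hsm : s ∈ M ⊔ IntermediateField.adjoin K {s} :=
    (le_sup_right : _ ≤ M ⊔ IntermediateField.adjoin K {s})
      (IntermediateField.mem_adjoin_simple_self K s)
  have hfix : ∀ γ ∈ M.fixingSubgroup,
      (γ ∈ (M ⊔ IntermediateField.adjoin K {s}).fixingSubgroup ↔ γ s = s) := by
    intro γ hγ
    constructor
    · intro h
      exact (IntermediateField.mem_fixingSubgroup_iff _ γ).1 h s hsm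
    · intro h
      rw [IntermediateField.fixingSubgroup_sup]
      refine ⟨hγ, ?_⟩
      have h3 := (IntermediateField.forall_mem_adjoin_smul_eq_self_iff K (S := {s}) γ).2 (by
        intro x hx
        rw [Set.mem_singleton_iff] at hx
        rw [hx]
        exact h)
      exact (IntermediateField.mem_fixingSubgroup_iff _ γ).2 h3
  refine ⟨M ⊔ IntermediateField.adjoin K {s}, s, inferInstance, le_sup_left, hsm, hs1, hφs, hfix,
    ?_, ?_⟩
  · rw [Subgroup.relIndex_eq_two_iff_exists_notMem_and]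
    refine ⟨φ, hφ.mem, fun h => ?_, fun b hb => ?_⟩
    · rw [hfix φ hφ.mem, hφs] at h
      exact hne h
    · rcases hγs b hb with h | h
      · exact Or.inr ((hfix b hb).2 h)
      · left
        rw [hfix _ (mul_mem hb hφ.mem), AlgEquiv.mul_apply, hφs, map_neg, h, neg_neg]
  · intro x hx hx1
    rcases hν x hx hx1 with h | ⟨y, hy, hxy⟩
    · exact h.mono le_sup_left
    · refine ⟨y / s, div_mem ((le_sup_left : M ≤ _) hy) hsm, ?_⟩
      rw [div_pow, hs, ← hxy]
      have h3 : ν ≠ 0 := L.ne_zero (by rw [hν1]; exact zero_lt_one)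
      field_simp

end BE
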