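import Pool.Agent.Lib.MP_f80667_ag.Be.GlD
import Pool.Agent.Lib.MP_f80667_ag.Be.LR

/-! The classes of points of `E₂` over the completions at the infinite places. -/

open ZC Polynomial IntermediateField IsDedekindDomain NumberField

namespace BE

section alg

variable {F : Type} [Field F] {K : Type} [Field K] [Algebra F K] (C : Cf F)

/-- The value of `θ_e` at the cycle `fc y`. -/
private theorem gli_thz (y : Pt C.W₂ K) (e : AlgebraicClosure K) : C.thz e (C.fc K y) =
    C.del e (Pt.map _ (IsScalarTower.toAlgHom F K (AlgebraicClosure K)) y) := by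
  classical
  obtain ⟨A, hA⟩ : ∃ A : C.X.pt (AlgebraicClosure K),
      A = C.px 0 (Pt.map _ (IsScalarTower.toAlgHom F K (AlgebraicClosure K)) y) := ⟨_, rfl⟩
  obtain ⟨B, hB⟩ : ∃ B : C.X.pt (AlgebraicClosure K), B = C.px 0 0 := ⟨_, rfl⟩
  have hAv : C.th (AlgebraicClosure K) e A =
      C.del e (Pt.map _ (IsScalarTower.toAlgHom F K (AlgebraicClosure K)) y) := by
    rw [hA]
    rfl
  have hBv : C.th (AlgebraicClosure K) e B = 1 := by
    rw [hB]
    rfl
  have hfc : C.fc K y = Finsupp.single A 1 - Finsupp.single B 1 := by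
    rw [hA, hB]
    rfl
  rw [← hAv, hfc, Cf.thz]
  by_cases hAB : A = B
  · rw [hAB, sub_self, Finsupp.prod_zero_index, hBv]
  · rw [sub_eq_add_neg, ← Finsupp.single_neg, Finsupp.prod_add_index_of_disjoint,
      Finsupp.prod_single_index (zpow_zero _), Finsupp.prod_single_index (zpow_zero _), hBv,
      one_zpow, mul_one, zpow_one]
    rw [Finsupp.support_single _ one_ne_zero,
      Finsupp.support_single _ (by norm_num), Finset.disjoint_singleton]
    exact hAB

variable [CharZero K]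

/-- Over `K ≅ ℝ` a root outside `K` generates the algebraic closure. -/
private theorem gli_top (ρ : K ≃+* ℝ) {e : AlgebraicClosure K}
    (he : e ∉ (⊥ : IntermediateField K (AlgebraicClosure K))) :
    IntermediateField.adjoin K {e} = ⊤ := by
  obtain ⟨hfr, -⟩ := real_gal (Ω := AlgebraicClosure K) ρ
  have hfd : FiniteDimensional K (AlgebraicClosure K) :=
    Module.finite_of_finrank_pos (by rw [hfr]; norm_num)
  have h4 : Module.finrank K (IntermediateField.adjoin K {e}) ∣ 2 := by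
    rw [← hfr]
    exact ⟨_, (Module.finrank_mul_finrank K (IntermediateField.adjoin K {e})
      (AlgebraicClosure K)).symm⟩
  rcases (Nat.dvd_prime Nat.prime_two).1 h4 with h5 | h5
  · exfalso
    apply he
    rw [IntermediateField.finrank_eq_one_iff] at h5
    rw [← h5]
    exact IntermediateField.mem_adjoin_simple_self K e
  · refine IntermediateField.eq_of_le_of_finrank_eq le_top ?_
    rw [h5, IntermediateField.finrank_top', hfr]

omit [CharZero K] in
private theorem gli_top' (ρ : K ≃+* ℂ) (M : IntermediateField K (AlgebraicClosure K)) :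
    M = ⊤ := by
  have h1 : IsAlgClosed K := IsAlgClosed.of_ringEquiv ℂ K ρ.symm
  have h3 := IsAlgClosed.algebraMap_bijective_of_isIntegral (k := K) (K := AlgebraicClosure K)
  rw [eq_top_iff]
  intro x _
  obtain ⟨y, rfl⟩ := h3.2 x
  exact M.algebraMap_mem y

omit [CharZero K] in
/-- Everything is a square in the algebraic closure. -/
private theorem gli_sqrt {M : IntermediateField K (AlgebraicClosure K)} (hM : M = ⊤)
    (a : AlgebraicClosure K) : ∃ x ∈ M, a = x ^ 2 := by
  obtain ⟨s, hs⟩ := IsAlgClosed.exists_pow_nat_eq a (n := 2) (by norm_num)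
  refine ⟨s, ?_, hs.symm⟩
  rw [hM]
  exact IntermediateField.mem_top

omit [CharZero K] in
private theorem gli_sym_top {M : IntermediateField K (AlgebraicClosure K)} (hM : M = ⊤)
    (a b : AlgebraicClosure K) : ∃ x ∈ M, ∃ y ∈ M, a = x ^ 2 - b * y ^ 2 := by
  obtain ⟨x, hx, h⟩ := gli_sqrt hM a
  refine ⟨x, hx, 0, M.zero_mem, ?_⟩
  rw [h]
  ring

omit [CharZero K] in
/-- The symbols over `K ≅ ℝ`. -/
private theorem gli_sym (ρ : K ≃+* ℝ) {a b e : K} (hb : b ≠ 0) :
    (∃ x ∈ IntermediateField.adjoin K {algebraMap K (AlgebraicClosure K) e},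
      ∃ y ∈ IntermediateField.adjoin K {algebraMap K (AlgebraicClosure K) e},
      algebraMap K (AlgebraicClosure K) a = x ^ 2 - algebraMap K (AlgebraicClosure K) b * y ^ 2) ↔
      ¬ (ρ a < 0 ∧ ρ b < 0) := by
  have hbot : IntermediateField.adjoin K {algebraMap K (AlgebraicClosure K) e} = ⊥ := by
    rw [IntermediateField.adjoin_simple_eq_bot_iff]
    exact IntermediateField.algebraMap_mem _ e
  rw [hbot]
  constructor
  · rintro ⟨x, hx, y, hy, h⟩ ⟨h1, h2⟩
    obtain ⟨x, rfl⟩ := IntermediateField.mem_bot.1 hx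
    obtain ⟨y, rfl⟩ := IntermediateField.mem_bot.1 hy
    rw [← map_pow, ← map_pow, ← map_mul, ← map_sub] at h
    have h3 := congrArg ρ ((algebraMap K (AlgebraicClosure K)).injective h)
    rw [map_sub, map_mul, map_pow, map_pow] at h3
    nlinarith [sq_nonneg (ρ x), mul_nonneg (neg_nonneg.2 h2.le) (sq_nonneg (ρ y))]
  · intro h
    have hb0 : ρ b ≠ 0 := (map_ne_zero_iff ρ ρ.injective).2 hb
    by_cases h1 : ρ a < 0
    · have h2 : 0 < ρ b := by
        rcases lt_or_gt_of_ne hb0 with h3 | h3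
        · exact absurd ⟨h1, h3⟩ h
        · exact h3
      have h3 : a = 0 ^ 2 - b * ρ.symm (Real.sqrt (-ρ a / ρ b)) ^ 2 := by
        apply ρ.injective
        rw [map_sub, map_mul, map_pow, map_pow, map_zero, ρ.apply_symm_apply,
          Real.sq_sqrt (div_nonneg (neg_nonneg.2 h1.le) h2.le)]
        field_simp
        ring
      refine ⟨algebraMap K _ 0, IntermediateField.algebraMap_mem _ _,
        algebraMap K _ (ρ.symm (Real.sqrt (-ρ a / ρ b))), IntermediateField.algebraMap_mem _ _, ?_⟩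
      rw [← map_pow, ← map_pow, ← map_mul, ← map_sub, ← h3]
    · push Not at h1
      have h3 : a = ρ.symm (Real.sqrt (ρ a)) ^ 2 - b * 0 ^ 2 := by
        apply ρ.injective
        rw [map_sub, map_mul, map_pow, map_pow, map_zero, ρ.apply_symm_apply, Real.sq_sqrt h1]
        ring
      refine ⟨algebraMap K _ (ρ.symm (Real.sqrt (ρ a))), IntermediateField.algebraMap_mem _ _,
        algebraMap K _ 0, IntermediateField.algebraMap_mem _ _, ?_⟩
      have h4 := congrArg (algebraMap K (AlgebraicClosure K)) h3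
      rw [map_sub, map_mul, map_pow, map_pow] at h4
      exact h4

end alg

section place

variable {F : Type} [Field F] [NumberField F]

private theorem gli_isReal {v : InfinitePlace F} (ρ : IK F v ≃+* ℝ) : v.IsReal := by
  by_contra h
  rw [InfinitePlace.not_isReal_iff_isComplex] at h
  obtain ⟨e⟩ : Nonempty (IK F v ≃+* ℂ) :=
    ⟨InfinitePlace.Completion.ringEquivComplexOfIsComplex h⟩
  have h1 : ρ (e.symm Complex.I) * ρ (e.symm Complex.I) = -1 := by
    rw [← map_mul, ← map_mul, Complex.I_mul_I, map_neg, map_one, map_neg, map_one]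
  nlinarith [mul_self_nonneg (ρ (e.symm Complex.I))]

/-- The real numbers have no automorphisms. -/
private theorem gli_unique {K : Type} [Field K] (ρ ρ' : K ≃+* ℝ) : ρ = ρ' := by
  ext y
  have h2 : ((ρ.symm.trans ρ' : ℝ ≃+* ℝ) : ℝ →+* ℝ) = RingHom.id ℝ := Subsingleton.elim _ _
  have h3 : ρ' (ρ.symm (ρ y)) = ρ y := RingHom.congr_fun h2 (ρ y)
  rw [ρ.symm_apply_apply] at h3
  exact h3.symm

private theorem gli_emb {v : InfinitePlace F} (ρ : IK F v ≃+* ℝ) (x : F) :
    ((ρ (algebraMap F (IK F v) x) : ℝ) : ℂ) = v.embedding x := by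
  have hv := gli_isReal ρ
  have h1 : ρ = (InfinitePlace.Completion.ringEquivRealOfIsReal hv : v.Completion ≃+* ℝ) :=
    gli_unique _ _
  have h2 : InfinitePlace.Completion.ringEquivRealOfIsReal hv
      (algebraMap F v.Completion x) = v.embedding_of_isReal hv x :=
    InfinitePlace.Completion.extensionEmbeddingOfIsReal_coe hv _
  rw [h1, ← InfinitePlace.embedding_of_isReal_apply hv, ← h2]
  rfl

end place

variable {F : Type} [Field F] [NumberField F] (C : Cf F) [Fact (Irreducible C.g)]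

/-- A homomorphism from `F[w] / g` is determined by its values on `F` and at the root. -/
private theorem gli_ext {C : Cf F} {R : Type} [CommRing R] {f f' : AdjoinRoot C.g →+* R}
    (h : ∀ a : F, f (AdjoinRoot.of C.g a) = f' (AdjoinRoot.of C.g a))
    (h' : f (AdjoinRoot.root C.g) = f' (AdjoinRoot.root C.g)) (x : AdjoinRoot C.g) :
    f x = f' x := by
  have h1 : f.comp (AdjoinRoot.mk C.g) = f'.comp (AdjoinRoot.mk C.g) := by
    apply Polynomial.ringHom_ext
    · exact h
    · exact h'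
  obtain ⟨p, rfl⟩ := AdjoinRoot.mk_surjective x
  exact RingHom.congr_fun h1 p

private theorem gli_emL_of {E : Type} [Field E] [Algebra F E] {e : E} (he : aeval e C.g = 0)
    (a : F) : emL C he (AdjoinRoot.of C.g a) = algebraMap F E a :=
  (emL C he).commutes a

private theorem gli_emL_root {E : Type} [Field E] [Algebra F E] {e : E} (he : aeval e C.g = 0) :
    emL C he (AdjoinRoot.root C.g) = e := by
  have h := emL_mk C he Polynomial.X
  rwa [aeval_X] at h

/-- The sign of the class of the family `y₂` at the real embedding `ψ` of `F[w] / g`: there are a real place `v` and a root `e` of `g` in the completion `F_v ≅ ℝ` which give `ψ`, and the class of `y₂ v` at `e` is negative. -/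
def Sg (y₂ : ∀ v, Pt C.W₂ (IK F v)) (ψ : AdjoinRoot C.g →+* ℝ) : Prop :=
  ∃ (v : InfinitePlace F) (ρ : IK F v ≃+* ℝ) (e : IK F v) (he : aeval e C.g = 0),
    (∀ x, ψ x = ρ (emL C he x)) ∧ ρ (C.del e (y₂ v)) < 0

/-- Every real embedding of `F[w] / g` is given by a unique real place and a unique root. Proof: `ψ` restricted to `F` gives the real place `v`; `IK F v ≅ ℝ` has no automorphisms. -/
theorem exists_ve (ψ : AdjoinRoot C.g →+* ℝ) :
    ∃ (v : InfinitePlace F) (ρ : IK F v ≃+* ℝ) (e : IK F v) (he : aeval e C.g = 0),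
      (∀ x, ψ x = ρ (emL C he x)) ∧
      ∀ (v' : InfinitePlace F) (ρ' : IK F v' ≃+* ℝ) (e' : IK F v') (he' : aeval e' C.g = 0),
        (∀ x, ψ x = ρ' (emL C he' x)) → (⟨v', e'⟩ : Σ v : InfinitePlace F, IK F v) = ⟨v, e⟩ := by
  obtain ⟨φ, hφ⟩ : ∃ φ : F →+* ℝ, φ = ψ.comp (AdjoinRoot.of C.g) := ⟨_, rfl⟩
  have hr : ComplexEmbedding.IsReal (Complex.ofRealHom.comp φ) := by
    rw [ComplexEmbedding.isReal_iff]
    ext x
    rw [ComplexEmbedding.conjugate_coe_eq]
    exact Complex.conj_ofReal _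
  obtain ⟨v, hv⟩ : ∃ v : InfinitePlace F, v = InfinitePlace.mk (Complex.ofRealHom.comp φ) :=
    ⟨_, rfl⟩
  have hvr : v.IsReal := ⟨_, hr, hv.symm⟩
  have hve : v.embedding = Complex.ofRealHom.comp φ := by
    rw [hv]
    exact InfinitePlace.embedding_mk_eq_of_isReal hr
  obtain ⟨ρ⟩ : Nonempty (IK F v ≃+* ℝ) :=
    ⟨InfinitePlace.Completion.ringEquivRealOfIsReal hvr⟩
  have h1 : ∀ x : F, ρ (algebraMap F (IK F v) x) = φ x := by
    intro x
    have h2 := gli_emb ρ x
    rw [hve] at h2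
    exact Complex.ofReal_injective h2
  have h1' : (ρ : IK F v →+* ℝ).comp (algebraMap F (IK F v)) = φ := RingHom.ext h1
  have he : aeval (ρ.symm (ψ (AdjoinRoot.root C.g))) C.g = 0 := by
    apply ρ.injective
    have h2 : ρ (aeval (ρ.symm (ψ (AdjoinRoot.root C.g))) C.g) =
        eval₂ φ (ψ (AdjoinRoot.root C.g)) C.g := by
      have h3 := Polynomial.hom_eval₂ C.g (algebraMap F (IK F v)) (ρ : IK F v →+* ℝ)
        (ρ.symm (ψ (AdjoinRoot.root C.g)))
      rw [h1'] at h3
      rw [aeval_def]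
      refine h3.trans ?_
      congr 1
      exact ρ.apply_symm_apply _
    rw [h2, map_zero, hφ, ← Polynomial.hom_eval₂, AdjoinRoot.eval₂_root, map_zero]
  refine ⟨v, ρ, _, he, ?_, ?_⟩
  · refine gli_ext (f := ψ) (f' := (ρ : IK F v →+* ℝ).comp
      (emL C he : AdjoinRoot C.g →+* IK F v)) ?_ ?_
    · intro a
      change _ = ρ (emL C he (AdjoinRoot.of C.g a))
      rw [gli_emL_of, h1, hφ]
      rfl
    · change _ = ρ (emL C he (AdjoinRoot.root C.g))
      rw [gli_emL_root, ρ.apply_symm_apply]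
  · intro v' ρ' e' he' h2
    have h3 : v' = v := by
      rw [hv, ← InfinitePlace.mk_embedding v']
      congr 1
      ext x
      rw [← gli_emb ρ' x, ← gli_emL_of C he' x, ← h2, hφ]
      rfl
    subst h3
    have h4 : e' = ρ.symm (ψ (AdjoinRoot.root C.g)) := by
      rw [h2, gli_emL_root, gli_unique ρ ρ', ρ'.symm_apply_apply]
    rw [h4]

/-- The sign in terms of a root. -/
theorem Sg_iff (y₂ : ∀ v, Pt C.W₂ (IK F v)) {ψ : AdjoinRoot C.g →+* ℝ} {v : InfinitePlace F}
    (ρ : IK F v ≃+* ℝ) {e : IK F v} (he : aeval e C.g = 0) (h : ∀ x, ψ x = ρ (emL C he x)) :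
    Sg C y₂ ψ ↔ ρ (C.del e (y₂ v)) < 0 := by
  constructor
  · rintro ⟨v', ρ', e', he', h', hlt⟩
    obtain ⟨v₀, ρ₀, e₀, he₀, -, huniq⟩ := exists_ve C ψ
    have h1 := (huniq v' ρ' e' he' h').trans (huniq v ρ e he h).symm
    cases h1
    rw [gli_unique ρ ρ']
    exact hlt
  · intro hlt
    exact ⟨v, ρ, e, he, h, hlt⟩

/-- The class over `K` of a root in `K`. -/
theorem del_map {K : Type} [Field K] [Algebra F K] (e : K) (y : Pt C.W₂ K) :
    C.del (algebraMap K (AlgebraicClosure K) e)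
      (Pt.map _ (IsScalarTower.toAlgHom F K (AlgebraicClosure K)) y) =
      algebraMap K (AlgebraicClosure K) (C.del e y) := by
  classical
  rcases Pt.cases' y with rfl | ⟨w, v, n, rfl⟩
  · rw [map_zero]
    change (1 : AlgebraicClosure K) = algebraMap K _ (1 : K)
    rw [map_one]
  · obtain ⟨n', hn'⟩ : ∃ n', Pt.map _ (IsScalarTower.toAlgHom F K (AlgebraicClosure K))
        (Pt.aff w v n : Pt C.W₂ K) = Pt.aff (algebraMap K _ w) (algebraMap K _ v) n' := ⟨_, rfl⟩
    rw [hn']
    have hk : C.kap (AlgebraicClosure K) 0 = algebraMap K _ (C.kap K 0) := by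
      change (1 : AlgebraicClosure K) = algebraMap K _ (1 : K)
      rw [map_one]
    by_cases h : w = e
    · subst h
      have h1 : C.del (algebraMap K (AlgebraicClosure K) w)
          (Pt.aff (algebraMap K _ w) (algebraMap K _ v) n') =
          aeval (algebraMap K (AlgebraicClosure K) w) (derivative C.g) := if_pos rfl
      have h2 : C.del w (Pt.aff w v n) = aeval w (derivative C.g) := if_pos rfl
      rw [h1, h2, aeval_algebraMap_apply]
    · have h' : algebraMap K (AlgebraicClosure K) w ≠ algebraMap K _ e := fun h3 =>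
        h ((algebraMap K (AlgebraicClosure K)).injective h3)
      have h1 : C.del (algebraMap K (AlgebraicClosure K) e)
          (Pt.aff (algebraMap K _ w) (algebraMap K _ v) n') =
          C.kap (AlgebraicClosure K) 0 * (algebraMap K _ w - algebraMap K _ e) := if_neg h'
      have h2 : C.del e (Pt.aff w v n) = C.kap K 0 * (w - e) := if_neg h
      rw [h1, h2, hk, map_mul, map_sub]

/-- **The nontrivial symbols at the infinite places.** Proof: at a complex place `v` the field `IK F v` is algebraically closed and all symbols are trivial. At a real place the irreducible factors of degree two have roots which generate the algebraic closure: trivial symbols; the factors `X - e` correspond to the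
real embeddings `ψ` above `v`, and the symbol of `x`, `c` over `K ≅ ℝ` is nontrivial iff both are negative (`thz` of `fc y` is `del`). -/
theorem FlI_bij (z : AdF C.X) (y₂ : ∀ v, Pt C.W₂ (IK F v))
    (h₂ : ∀ v, (z.2 v).1 = C.fc (IK F v) (y₂ v)) {c : F[X]} {u : (AdjoinRoot C.g)ˣ}
    (hu : (u : AdjoinRoot C.g) = AdjoinRoot.mk C.g c) :
    ∃ f : (AdjoinRoot C.g →+* ℝ) → (Σ v : InfinitePlace F, (IK F v)[X]),
      Set.BijOn f {ψ | ψ u < 0 ∧ Sg C y₂ ψ} (C.FlI z c) := by
  classical
  have hchar : ∀ v : InfinitePlace F, CharZero (IK F v) := fun v =>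
    charZero_of_injective_algebraMap (algebraMap F (IK F v)).injective
  -- the value of `c` at a root
  have hcu : ∀ (v : InfinitePlace F) (e : IK F v) (he : aeval e C.g = 0),
      emL C he (u : AdjoinRoot C.g) = aeval e c := fun v e he => by rw [hu, emL_mk]
  have hc0 : ∀ (v : InfinitePlace F) (e : IK F v), aeval e C.g = 0 → aeval e c ≠ 0 := by
    intro v e he
    rw [← hcu v e he]
    exact (u.isUnit.map (emL C he)).ne_zero
  -- the symbol at a root in the completion
  have hsym : ∀ (v : InfinitePlace F) (ρ : IK F v ≃+* ℝ) (e : IK F v), aeval e C.g = 0 →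
      ((¬ ∃ x ∈ IntermediateField.adjoin (IK F v) {algebraMap (IK F v)
          (AlgebraicClosure (IK F v)) e},
        ∃ y ∈ IntermediateField.adjoin (IK F v) {algebraMap (IK F v)
          (AlgebraicClosure (IK F v)) e},
        C.thz (algebraMap (IK F v) (AlgebraicClosure (IK F v)) e) (z.2 v).1 =
          x ^ 2 - aeval (algebraMap (IK F v) (AlgebraicClosure (IK F v)) e) c * y ^ 2) ↔
        ρ (C.del e (y₂ v)) < 0 ∧ ρ (aeval e c) < 0) := by
    intro v ρ e he
    rw [h₂ v, gli_thz, del_map, aeval_algebraMap_apply, gli_sym ρ (hc0 v e he), not_not]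
  choose v ρ e he h huniq using exists_ve C
  refine ⟨fun ψ => ⟨v ψ, Polynomial.X - Polynomial.C (e ψ)⟩, ?_, ?_, ?_⟩
  · rintro ψ ⟨h1, h2⟩
    have h3 := (Sg_iff C y₂ (ρ ψ) (he ψ) (h ψ)).1 h2
    have h4 : ρ ψ (aeval (e ψ) c) < 0 := by
      rw [← hcu _ _ (he ψ), ← h ψ]
      exact h1
    refine ⟨monic_X_sub_C _, irreducible_X_sub_C _, ?_, algebraMap _ _ (e ψ), ?_,
      (hsym (v ψ) (ρ ψ) (e ψ) (he ψ)).2 ⟨h3, h4⟩⟩
    · rw [dvd_iff_isRoot, IsRoot.def, eval_map_algebraMap]
      exact he ψ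
    · rw [map_sub, aeval_X, aeval_C, sub_self]
  · rintro ψ - ψ' - hff
    have key : ∀ (v₁ v₂ : InfinitePlace F) (e₁ : IK F v₁) (e₂ : IK F v₂)
        (ρ₁ : IK F v₁ ≃+* ℝ) (ρ₂ : IK F v₂ ≃+* ℝ) (he₁ : aeval e₁ C.g = 0)
        (he₂ : aeval e₂ C.g = 0),
        (⟨v₁, Polynomial.X - Polynomial.C e₁⟩ : Σ v : InfinitePlace F, (IK F v)[X]) =
          ⟨v₂, Polynomial.X - Polynomial.C e₂⟩ →
        ∀ x, ρ₁ (emL C he₁ x) = ρ₂ (emL C he₂ x) := by
      intro v₁ v₂ e₁ e₂ ρ₁ ρ₂ he₁ he₂ hs x
      obtain ⟨h5, h6⟩ := Sigma.mk.inj_iff.1 hs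
      subst h5
      have h7 := eq_of_heq h6
      rw [sub_right_inj, Polynomial.C_inj] at h7
      subst h7
      rw [gli_unique ρ₁ ρ₂]
    refine RingHom.ext fun x => ?_
    rw [h ψ, h ψ']
    exact key _ _ _ _ _ _ _ _ hff x
  · rintro ⟨w, q⟩ hq
    obtain ⟨hq1, hq2, hq3, e₁, hq4, hq5⟩ := hq
    rcases w.isReal_or_isComplex with hw | hw
    · obtain ⟨ρ₁⟩ : Nonempty (IK F w ≃+* ℝ) :=
        ⟨InfinitePlace.Completion.ringEquivRealOfIsReal hw⟩
      by_cases hbot : e₁ ∈ (⊥ : IntermediateField (IK F w) (AlgebraicClosure (IK F w)))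
      · obtain ⟨e₀, rfl⟩ := IntermediateField.mem_bot.1 hbot
        have hroot : aeval e₀ q = 0 := by
          rw [aeval_algebraMap_apply] at hq4
          exact (map_eq_zero_iff _ (algebraMap (IK F w) (AlgebraicClosure (IK F w))).injective).1
            hq4
        have hq6 : q = Polynomial.X - Polynomial.C e₀ := by
          have h5 : Polynomial.X - Polynomial.C e₀ ∣ q := by
            rw [dvd_iff_isRoot, IsRoot.def, ← coe_aeval_eq_eval]
            exact hroot
          exact (eq_of_monic_of_associated (monic_X_sub_C e₀) hq1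
            ((irreducible_X_sub_C e₀).associated_of_dvd hq2 h5)).symm
        have he₀ : aeval e₀ C.g = 0 := by
          obtain ⟨k, hk⟩ := hq3
          rw [← eval_map_algebraMap, hk, eval_mul, ← coe_aeval_eq_eval e₀, hroot, zero_mul]
        obtain ⟨h6, h7⟩ := (hsym w ρ₁ e₀ he₀).1 hq5
        let ψ : AdjoinRoot C.g →+* ℝ :=
          (ρ₁ : IK F w →+* ℝ).comp (emL C he₀ : AdjoinRoot C.g →+* IK F w)
        have hψ : ∀ x, ψ x = ρ₁ (emL C he₀ x) := fun x => rfl
        refine ⟨ψ, ⟨?_, (Sg_iff C y₂ ρ₁ he₀ hψ).2 h6⟩, ?_⟩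
        · rw [hψ, hcu w e₀ he₀]
          exact h7
        · have h8 := huniq ψ w ρ₁ e₀ he₀ hψ
          have h9 := congrArg (fun s : (Σ v : InfinitePlace F, IK F v) =>
            (⟨s.1, Polynomial.X - Polynomial.C s.2⟩ : Σ v : InfinitePlace F, (IK F v)[X])) h8
          rw [hq6]
          exact h9.symm
      · exact absurd (gli_sym_top (gli_top ρ₁ hbot) _ _) hq5
    · obtain ⟨ρ₁⟩ : Nonempty (IK F w ≃+* ℂ) :=
        ⟨InfinitePlace.Completion.ringEquivComplexOfIsComplex hw⟩
      exact absurd (gli_sym_top (gli_top' ρ₁ _) _ _) hq5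

/-- The number of the nontrivial symbols at the infinite places. -/
theorem FlI_card (z : AdF C.X) (y₂ : ∀ v, Pt C.W₂ (IK F v))
    (h₂ : ∀ v, (z.2 v).1 = C.fc (IK F v) (y₂ v)) {c : F[X]} {u : (AdjoinRoot C.g)ˣ}
    (hu : (u : AdjoinRoot C.g) = AdjoinRoot.mk C.g c) :
    (C.FlI z c).ncard = Nat.card {ψ : AdjoinRoot C.g →+* ℝ // ψ u < 0 ∧ Sg C y₂ ψ} := by
  obtain ⟨f, hf⟩ := FlI_bij C z y₂ h₂ hu
  rw [← hf.image_eq, Set.InjOn.ncard_image hf.injOn]
  rfl

/-- The classes at the infinite places. Proof: for a root `e ∉ K` (or `K ≅ ℂ`) the field `K(e)` is algebraically closed. For `e ∈ K ≅ ℝ` the product is positive, by the hypothesis for `ψ = ρ ∘ emL`. -/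
theorem dl_inf (y₂ : ∀ v, Pt C.W₂ (IK F v)) {c₀ : F[X]} {u : (AdjoinRoot C.g)ˣ}
    (hu : (u : AdjoinRoot C.g) = AdjoinRoot.mk C.g c₀)
    (h : ∀ ψ : AdjoinRoot C.g →+* ℝ, ψ u < 0 ↔ Sg C y₂ ψ) (v : InfinitePlace F) :
    C.Dl (IK F v) c₀ (y₂ v) := by
  have hchar : CharZero (IK F v) :=
    charZero_of_injective_algebraMap (algebraMap F (IK F v)).injective
  intro e he
  rcases v.isReal_or_isComplex with hv | hv
  · obtain ⟨ρ⟩ : Nonempty (IK F v ≃+* ℝ) :=
      ⟨InfinitePlace.Completion.ringEquivRealOfIsReal hv⟩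
    by_cases hbot : e ∈ (⊥ : IntermediateField (IK F v) (AlgebraicClosure (IK F v)))
    · obtain ⟨e₀, rfl⟩ := IntermediateField.mem_bot.1 hbot
      have he₀ : aeval e₀ C.g = 0 := by
        rw [aeval_algebraMap_apply] at he
        exact (map_eq_zero_iff _ (algebraMap (IK F v) (AlgebraicClosure (IK F v))).injective).1 he
      let ψ : AdjoinRoot C.g →+* ℝ :=
        (ρ : IK F v →+* ℝ).comp (emL C he₀ : AdjoinRoot C.g →+* IK F v)
      have hψ : ∀ x, ψ x = ρ (emL C he₀ x) := fun x => rfl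
      have h1 : ρ (aeval e₀ c₀) < 0 ↔ ρ (C.del e₀ (y₂ v)) < 0 := by
        rw [← Sg_iff C y₂ ρ he₀ hψ, ← h ψ, hψ, hu, emL_mk]
      have h2 : 0 ≤ ρ (aeval e₀ c₀ * C.del e₀ (y₂ v)) := by
        rw [map_mul]
        by_cases h3 : ρ (aeval e₀ c₀) < 0
        · exact mul_nonneg_of_nonpos_of_nonpos h3.le (h1.1 h3).le
        · have h4 : ¬ ρ (C.del e₀ (y₂ v)) < 0 := fun h5 => h3 (h1.2 h5)
          exact mul_nonneg (not_lt.1 h3) (not_lt.1 h4)
      refine ⟨algebraMap _ _ (ρ.symm (Real.sqrt (ρ (aeval e₀ c₀ * C.del e₀ (y₂ v))))),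
        IntermediateField.algebraMap_mem _ _, ?_⟩
      rw [del_map, aeval_algebraMap_apply, ← map_mul, ← map_pow, ← map_pow, Real.sq_sqrt h2,
        ρ.symm_apply_apply]
    · exact gli_sqrt (gli_top ρ hbot) _
  · obtain ⟨ρ⟩ : Nonempty (IK F v ≃+* ℂ) :=
      ⟨InfinitePlace.Completion.ringEquivComplexOfIsComplex hv⟩
    exact gli_sqrt (gli_top' ρ _) _

end BE
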