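import Pool.Agent.Lib.MP_f80667_ag.Be.GlA
import Pool.Agent.Lib.MP_f80667_ag.Be.GlI

/-! The global theorem: a family of points of `E₂` over the completions which is orthogonal to the classes
`A_c` comes from the Selmer group. -/

open ZC Polynomial IsDedekindDomain NumberField

namespace BE

variable {F : Type} [Field F] [NumberField F]

/-- There are finitely many places above a place. -/
theorem Gl_under_fin (C : Cf F) [Fact (Irreducible C.g)] (v : HeightOneSpectrum (𝓞 F)) :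
    {w : HeightOneSpectrum (𝓞 (AdjoinRoot C.g)) | w.under (𝓞 F) = v}.Finite := by
  classical
  have hs : ∀ w : HeightOneSpectrum (𝓞 (AdjoinRoot C.g)), w.under (𝓞 F) = v →
      ∃ i : AdjoinRoot C.g →ₐ[F] AlgebraicClosure (FK F v),
        Cmp (lf v) (i : AdjoinRoot C.g →+* AlgebraicClosure (FK F v)) w :=
    fun w hw => cmp_surj (lf_lg v) hw
  choose i hi using hs
  refine Set.finite_coe_iff.1 (Finite.of_injective (fun w : {w : HeightOneSpectrum
    (𝓞 (AdjoinRoot C.g)) | w.under (𝓞 F) = v} => i w.1 w.2) ?_)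
  intro w w' e
  have h1 := hi w.1 w.2
  have h2 := hi w'.1 w'.2
  have e' : i w.1 w.2 = i w'.1 w'.2 := e
  rw [← e'] at h2
  exact Subtype.ext (h1.inj h2)

theorem Gl_card {α β : Type*} {f : α → β} {s : Set α} {p : β → Prop} (h : Set.BijOn f s {x | p x}) :
    Nat.card {x // p x} = s.ncard := by
  rw [← Nat.card_coe_set_eq s]
  exact (Nat.card_congr (Set.BijOn.equiv f h)).symm

/-- **The global theorem.** Proof: `irr`; `a w` from `exists_a` for `v = w.under`; `exists_global` for `a` and `Sg C y₂`: the hypotheses are `not_G1_fin` (finitely many `w` above a place) and `ho` (`FlF_bij`, `FlI_bij`, `exists_pol`). The result `u` is the class of a polynomial `c₀` (`exists_pol`); `sq_iff` for `u / a w`, and `dl_inf`. -/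
theorem glob (C : Cf F) (h : C.Ok) (z : AdF C.X) (y₁ : ∀ v, Pt C.W₂ (FK F v))
    (y₂ : ∀ v, Pt C.W₂ (IK F v)) (h₁ : ∀ v, (z.1 v).1 = C.fc (FK F v) (y₁ v))
    (h₂ : ∀ v, (z.2 v).1 = C.fc (IK F v) (y₂ v)) (ho : C.Orth z) :
    ∃ c₀ : F[X], IsCoprime c₀ C.g ∧ (∀ v, C.Dl (FK F v) c₀ (y₁ v)) ∧
      ∀ v, C.Dl (IK F v) c₀ (y₂ v) := by
  classical
  haveI : Fact (Irreducible C.g) := ⟨irr C h⟩
  choose a ha using fun w : HeightOneSpectrum (𝓞 (AdjoinRoot C.g)) =>
    exists_a C (w.under (𝓞 F)) (y₁ (w.under (𝓞 F))) w rfl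
  have hEv : {w | ¬ Ev w (a w)}.Finite := by
    refine ((not_G1_fin C).biUnion (fun v _ => Gl_under_fin C v)).subset ?_
    intro w hw
    exact Set.mem_biUnion (x := w.under (𝓞 F)) (fun hG => hw ((ha w).2 hG)) rfl
  have ha' : ∀ (v : HeightOneSpectrum (𝓞 F)) (w : HeightOneSpectrum (𝓞 (AdjoinRoot C.g)))
      (e : AlgebraicClosure (FK F v)) (he : aeval e C.g = 0),
        Cmp (lf v) (emL C he : AdjoinRoot C.g →+* AlgebraicClosure (FK F v)) w →
        SqM (IntermediateField.adjoin (FK F v) {e}) (emL C he (a w : AdjoinRoot C.g) *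
          C.del e (Pt.map _ (IsScalarTower.toAlgHom F (FK F v) (AlgebraicClosure (FK F v)))
            (y₁ v))) := by
    intro v w e he hc
    obtain ⟨w', hw', hv⟩ := exists_cmp (lf_lg v) (emL C he)
    obtain rfl : w = w' := hc.inj hw'
    subst hv
    exact (ha w).1 e he hc
  have hgl : ∀ c : (AdjoinRoot C.g)ˣ, {w | a w ∉ Hm.LNm w c}.Finite ∧
      Even (Nat.card {w // a w ∉ Hm.LNm w c} +
        Nat.card {ψ : AdjoinRoot C.g →+* ℝ // ψ c < 0 ∧ Sg C y₂ ψ}) := by
    intro c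
    obtain ⟨p, hp, hpc⟩ := exists_pol C c
    obtain ⟨f1, hf1⟩ := FlF_bij C z y₁ h₁ a ha' (c := p) (u := c) hpc.symm
    obtain ⟨h1, -, h3⟩ := ho p hp
    refine ⟨?_, ?_⟩
    · rw [← hf1.image_eq]
      exact h1.image f1
    · rw [Gl_card hf1, ← FlI_card C z y₂ h₂ hpc.symm]
      exact h3
  obtain ⟨u, hu1, hu2⟩ := exists_global a (Sg C y₂) hEv hgl
  obtain ⟨c₀, hc₀, hc₀u⟩ := exists_pol C u
  refine ⟨c₀, hc₀, ?_, fun v => dl_inf C y₂ hc₀u.symm hu2 v⟩
  intro v e he
  obtain ⟨w, hw, -⟩ := exists_cmp (lf_lg v) (emL C he)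
  have h1 := ha' v w e he hw
  have h2 := (sq_iff (lf_lg v) hw (u / a w)).2 (hu1 w)
  rw [adj_emL] at h2
  have h3 := h2.mul h1
  have hne : emL C he (a w : AdjoinRoot C.g) ≠ 0 := by
    rw [Ne, map_eq_zero]
    exact (a w).ne_zero
  have h4 : emL C he ((u / a w : (AdjoinRoot C.g)ˣ) : AdjoinRoot C.g) *
      (emL C he (a w : AdjoinRoot C.g) *
        C.del e (Pt.map _ (IsScalarTower.toAlgHom F (FK F v) (AlgebraicClosure (FK F v)))
          (y₁ v))) = aeval e c₀ *
        C.del e (Pt.map _ (IsScalarTower.toAlgHom F (FK F v) (AlgebraicClosure (FK F v)))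
          (y₁ v)) := by
    rw [Units.val_div_eq_div_val, map_div₀, ← mul_assoc, div_mul_cancel₀ _ hne, ← hc₀u, emL_mk]
  rw [h4] at h3
  exact h3

end BE
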