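import Pool.Agent.Lib.MP_f80667_ag.Be.Lf

/-! Square classes of local fields with odd residue characteristic. -/

open ZC Polynomial IntermediateField

namespace BE

variable {K Ω : Type} [Field K] [CharZero K] [Field Ω] [Algebra K Ω] (L : Lf K Ω)

/-- Principal units are squares. -/
theorem odd_sq (h2 : L.nm 2 = 1) (M : IntermediateField K Ω) [FiniteDimensional K M] {x : Ω}
    (hx : x ∈ M) (h : L.nm x < 1) : SqM M (1 + x) := by
  refine L.sq M hx ?_
  have h4 : (4 : Ω) = 2 * 2 := by norm_num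
  rw [h4, L.mul, h2, one_mul]
  exact h

/-- The ring of integers of `M`. -/
def oddRing (M : IntermediateField K Ω) : Subring Ω where
  carrier := {x | x ∈ M ∧ L.nm x ≤ 1}
  mul_mem' ha hb := ⟨M.mul_mem ha.1 hb.1, by
    rw [L.mul]
    exact mul_le_one₀ ha.2 (L.nonneg _) hb.2⟩
  one_mem' := ⟨M.one_mem, L.one.le⟩
  add_mem' ha hb := ⟨M.add_mem ha.1 hb.1, (L.add _ _).trans (max_le ha.2 hb.2)⟩
  zero_mem' := ⟨M.zero_mem, by
    rw [(L.zero_iff 0).2 rfl]
    exact zero_le_one⟩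
  neg_mem' ha := ⟨M.neg_mem ha.1, by
    rw [L.neg]
    exact ha.2⟩

/-- The maximal ideal. -/
def oddIdeal (M : IntermediateField K Ω) : Ideal (oddRing L M) where
  carrier := {x | L.nm (x : Ω) < 1}
  add_mem' ha hb := lt_of_le_of_lt (L.add _ _) (max_lt ha hb)
  zero_mem' := by
    change L.nm 0 < 1
    rw [(L.zero_iff 0).2 rfl]
    exact zero_lt_one
  smul_mem' c x hx := by
    change L.nm ((c : Ω) * x) < 1
    rw [L.mul]
    exact mul_lt_one_of_nonneg_of_lt_one_right c.2.2 (L.nonneg _) hx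

theorem mem_oddIdeal {M : IntermediateField K Ω} (x : oddRing L M) :
    x ∈ oddIdeal L M ↔ L.nm (x : Ω) < 1 := Iff.rfl

theorem oddIdeal_max (M : IntermediateField K Ω) : (oddIdeal L M).IsMaximal := by
  rw [Ideal.isMaximal_iff]
  constructor
  · rw [mem_oddIdeal]
    intro h
    change L.nm 1 < 1 at h
    rw [L.one] at h
    exact lt_irrefl _ h
  · intro J x _ hx hxJ
    rw [mem_oddIdeal, not_lt] at hx
    have h1 : L.nm (x : Ω) = 1 := le_antisymm x.2.2 hx
    have h0 : (x : Ω) ≠ 0 := L.ne_zero (by rw [h1]; exact zero_lt_one)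
    have h2 : ((x : Ω)⁻¹) ∈ oddRing L M := ⟨M.inv_mem x.2.1, by rw [L.inv, h1, inv_one]⟩
    have h3 : (1 : oddRing L M) = ⟨(x : Ω)⁻¹, h2⟩ * x := by
      apply Subtype.ext
      change (1 : Ω) = (x : Ω)⁻¹ * x
      rw [inv_mul_cancel₀ h0]
    rw [h3]
    exact J.mul_mem_left _ hxJ

/-- The residue map. -/
theorem exists_odd_res (h2 : L.nm 2 = 1) (M : IntermediateField K Ω) [FiniteDimensional K M] :
    ∃ (k : Type) (_ : Field k) (_ : Finite k) (r : oddRing L M →+* k),
      Function.Surjective r ∧ (∀ x, r x = 0 ↔ L.nm (x : Ω) < 1) ∧ ringChar k ≠ 2 := by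
  have := oddIdeal_max L M
  let : Field (oddRing L M ⧸ oddIdeal L M) := Ideal.Quotient.field _
  have hr : ∀ x, Ideal.Quotient.mk (oddIdeal L M) x = 0 ↔ L.nm (x : Ω) < 1 := by
    intro x
    rw [Ideal.Quotient.eq_zero_iff_mem, mem_oddIdeal]
  obtain ⟨S, hS, hS'⟩ := L.fin M inferInstance
  have hfin : Finite (oddRing L M ⧸ oddIdeal L M) := by
    refine Finite.of_surjective (fun s : S => Ideal.Quotient.mk (oddIdeal L M) ⟨s, hS s s.2⟩) ?_
    intro y
    obtain ⟨x, rfl⟩ := Ideal.Quotient.mk_surjective y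
    obtain ⟨s, hs, hxs⟩ := hS' x x.2.1 x.2.2
    refine ⟨⟨s, hs⟩, ?_⟩
    rw [Ideal.Quotient.eq, mem_oddIdeal]
    change L.nm (s - x) < 1
    rw [L.sub_comm]
    exact hxs
  refine ⟨_, inferInstance, hfin, Ideal.Quotient.mk (oddIdeal L M), Ideal.Quotient.mk_surjective,
    hr, ?_⟩
  intro hc
  have h3 : Ideal.Quotient.mk (oddIdeal L M) 2 = 0 := by
    have h4 := CharP.cast_eq_zero (oddRing L M ⧸ oddIdeal L M)
      (ringChar (oddRing L M ⧸ oddIdeal L M))
    rw [hc] at h4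
    rw [map_ofNat]
    exact_mod_cast h4
  rw [hr] at h3
  change L.nm 2 < 1 at h3
  rw [h2] at h3
  exact lt_irrefl _ h3

/-- There is a unit `ν` which is not a square, and all units are squares up to `ν`. Proof: the residue field
of `M` (the quotient of the ring of the `x ∈ M` with `nm x ≤ 1` by the `x` with `nm x < 1`) is finite (`Lf.fin`) and
`2 ≠ 0` in it, so the squares have index two in its multiplicative group (`FiniteField`); a unit whose
residue is a square is a square by `Lf.hens` for `X² - c`. -/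
theorem exists_nu (h2 : L.nm 2 = 1) (M : IntermediateField K Ω) [FiniteDimensional K M] :
    ∃ ν ∈ M, L.nm ν = 1 ∧ ¬ SqM M ν ∧
      ∀ x ∈ M, L.nm x = 1 → SqM M x ∨ SqM M (ν * x) := by
  classical
  obtain ⟨k, _, _, r, hrs, hr, hc⟩ := exists_odd_res L h2 M
  let : Fintype k := Fintype.ofFinite k
  -- a unit is a square iff its residue is a square
  have hunit : ∀ x (hx : x ∈ oddRing L M), r ⟨x, hx⟩ ≠ 0 → L.nm x = 1 := by
    intro x hx h
    refine le_antisymm hx.2 (not_lt.1 fun h' => h ?_)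
    rw [hr]
    exact h'
  have hsq : ∀ x (hx : x ∈ oddRing L M), L.nm x = 1 → (SqM M x ↔ IsSquare (r ⟨x, hx⟩)) := by
    intro x hx hx1
    have hx0 : x ≠ 0 := L.ne_zero (by rw [hx1]; exact zero_lt_one)
    constructor
    · rintro ⟨y, hy, hxy⟩
      have hy1 : L.nm y ≤ 1 := by
        have h3 : L.nm y ^ 2 = 1 := by rw [← L.pow, ← hxy, hx1]
        nlinarith [L.nonneg y]
      refine ⟨r ⟨y, hy, hy1⟩, ?_⟩
      rw [← map_mul]
      congr 1
      apply Subtype.ext
      change x = y * y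
      rw [hxy, sq]
    · rintro ⟨b, hb⟩
      obtain ⟨⟨y, hy⟩, rfl⟩ := hrs b
      have hb0 : r ⟨y, hy⟩ ≠ 0 := by
        intro h0
        rw [h0, mul_zero, hr] at hb
        change L.nm x < 1 at hb
        rw [hx1] at hb
        exact lt_irrefl _ hb
      have hy1 : L.nm y = 1 := hunit y hy hb0
      have hy0 : y ≠ 0 := L.ne_zero (by rw [hy1]; exact zero_lt_one)
      rw [← map_mul, ← sub_eq_zero, ← map_sub, hr] at hb
      change L.nm (x - y * y) < 1 at hb
      have h3 : SqM M (1 + (x - y * y) / y ^ 2) := by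
        refine odd_sq L h2 M (M.div_mem (M.sub_mem hx.1 (M.mul_mem hy.1 hy.1))
          (pow_mem hy.1 2)) ?_
        rw [L.div, L.pow, hy1, one_pow, div_one]
        exact hb
      obtain ⟨z, hz, hz2⟩ := h3
      refine ⟨z * y, M.mul_mem hz hy.1, ?_⟩
      rw [mul_pow, ← hz2]
      field_simp
      ring
  obtain ⟨a, ha⟩ := FiniteField.exists_nonsquare hc
  have ha0 : a ≠ 0 := by
    rintro rfl
    exact ha (IsSquare.zero)
  obtain ⟨⟨ν, hν⟩, rfl⟩ := hrs a
  have hν1 : L.nm ν = 1 := hunit ν hν ha0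
  refine ⟨ν, hν.1, hν1, fun h => ha ((hsq ν hν hν1).1 h), ?_⟩
  intro x hxM hx1
  have hx : x ∈ oddRing L M := ⟨hxM, hx1.le⟩
  by_cases hxs : SqM M x
  · exact Or.inl hxs
  · right
    have hνx : ν * x ∈ oddRing L M := (oddRing L M).mul_mem hν hx
    have hνx1 : L.nm (ν * x) = 1 := by rw [L.mul, hν1, hx1, one_mul]
    rw [hsq x hx hx1] at hxs
    rw [hsq _ hνx hνx1]
    have h3 : r ⟨ν * x, hνx⟩ = r ⟨ν, hν⟩ * r ⟨x, hx⟩ := by
      rw [← map_mul]
      rfl
    have hx0 : r ⟨x, hx⟩ ≠ 0 := by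
      rw [Ne, hr, not_lt]
      exact hx1.ge
    rw [h3, ← quadraticChar_one_iff_isSquare (mul_ne_zero ha0 hx0), map_mul,
      quadraticChar_neg_one_iff_not_isSquare.2 ha, quadraticChar_neg_one_iff_not_isSquare.2 hxs]
    norm_num

/-- **The four square classes.** The classes of `1, ν, π, ν π` are different and there are no others. -/
theorem exists_four (h2 : L.nm 2 = 1) (M : IntermediateField K Ω) [FiniteDimensional K M] :
    ∃ ν ∈ M, ∃ π ∈ M, ν ≠ 0 ∧ π ≠ 0 ∧ ¬ SqM M ν ∧ ¬ SqM M π ∧ ¬ SqM M (ν * π) ∧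
      ∀ x ∈ M, x ≠ 0 → SqM M x ∨ SqM M (ν * x) ∨ SqM M (π * x) ∨ SqM M (ν * π * x) := by
  obtain ⟨ν, hν, hν1, hνs, hν'⟩ := exists_nu L h2 M
  obtain ⟨π, hπ, hπ0, hπ1, hπ'⟩ := L.unif M inferInstance
  have hνne : ν ≠ 0 := L.ne_zero (by rw [hν1]; exact zero_lt_one)
  have hπne : π ≠ 0 := L.ne_zero hπ0
  have hodd : ∀ x, L.nm x = L.nm π → ¬ SqM M x := by
    rintro x hx ⟨s, hs, rfl⟩
    have hs0 : s ≠ 0 := by
      rintro rfl
      rw [zero_pow two_ne_zero, (L.zero_iff 0).2 rfl] at hx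
      exact hπ0.ne hx
    obtain ⟨n, hn⟩ := hπ' s hs hs0
    rw [L.pow, hn, ← zpow_natCast, ← zpow_mul] at hx
    have h3 : L.nm π ^ (n * (2 : ℕ)) = L.nm π ^ (1 : ℤ) := by rw [hx, zpow_one]
    have h4 := zpow_right_injective₀ hπ0 hπ1.ne h3
    push_cast at h4
    omega
  refine ⟨ν, hν, π, hπ, hνne, hπne, hνs, hodd π rfl, hodd _ (by rw [L.mul, hν1, one_mul]), ?_⟩
  intro x hx hx0
  obtain ⟨n, hn⟩ := hπ' x hx hx0
  rcases Int.even_or_odd' n with ⟨j, hj | hj⟩
  · -- even
    have h3 : L.nm (x * (π ^ (-j)) ^ 2) = 1 := by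
      rw [L.mul, L.pow, L.zpow, hn, hj, ← zpow_natCast, ← zpow_mul, ← zpow_add₀ hπ0.ne']
      have : 2 * j + -j * ((2 : ℕ) : ℤ) = 0 := by push_cast; ring
      rw [this, zpow_zero]
    have hm : π ^ (-j) ∈ M := zpow_mem hπ _
    have hm0 : π ^ (-j) ≠ 0 := zpow_ne_zero _ hπne
    rcases hν' _ (M.mul_mem hx (pow_mem hm 2)) h3 with h | h
    · exact Or.inl (SqM.of_sq hm hm0 h)
    · right
      left
      refine SqM.of_sq hm hm0 ?_
      rwa [mul_assoc]
  · -- odd
    have h3 : L.nm (π * x * (π ^ (-(j + 1))) ^ 2) = 1 := by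
      rw [L.mul, L.mul, L.pow, L.zpow, hn, hj, ← zpow_natCast, ← zpow_mul, ← zpow_one_add₀ hπ0.ne',
        ← zpow_add₀ hπ0.ne']
      have : 1 + (2 * j + 1) + -(j + 1) * ((2 : ℕ) : ℤ) = 0 := by push_cast; ring
      rw [this, zpow_zero]
    have hm : π ^ (-(j + 1)) ∈ M := zpow_mem hπ _
    have hm0 : π ^ (-(j + 1)) ≠ 0 := zpow_ne_zero _ hπne
    rcases hν' _ (M.mul_mem (M.mul_mem hπ hx) (pow_mem hm 2)) h3 with h | h
    · exact Or.inr (Or.inr (Or.inl (SqM.of_sq hm hm0 h)))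
    · right
      right
      right
      refine SqM.of_sq hm hm0 ?_
      have : ν * π * x * (π ^ (-(j + 1))) ^ 2 = ν * (π * x * (π ^ (-(j + 1))) ^ 2) := by ring
      rwa [this]

/-- Proof: the classes of `1, ν, π, ν π` (of `M`) remain different over `N` (`SqM.odd`), and there are only four
classes over `N`. -/
theorem odd_onto (h2 : L.nm 2 = 1) {M N : IntermediateField K Ω} (h : M ≤ N)
    [FiniteDimensional K N] (ho : Odd (Module.finrank K N / Module.finrank K M)) {x : Ω}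
    (hx : x ∈ N) (h0 : x ≠ 0) : ∃ c ∈ M, c ≠ 0 ∧ SqM N (c * x) := by
  classical
  have : FiniteDimensional K M :=
    FiniteDimensional.of_injective (IntermediateField.inclusion h).toLinearMap
      (IntermediateField.inclusion h).injective
  obtain ⟨ν, hν, π, hπ, hν0, hπ0, h1, h2', h3, -⟩ := exists_four L h2 M
  obtain ⟨μ, hμ, ρ, hρ, hμ0, hρ0, -, -, -, h4⟩ := exists_four L h2 N
  -- the four classes
  let e : Bool × Bool → Ω := fun i => (if i.1 then ν else 1) * (if i.2 then π else 1)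
  let f : Bool × Bool → Ω := fun i => (if i.1 then μ else 1) * (if i.2 then ρ else 1)
  have heM : ∀ i, e i ∈ M := by
    rintro ⟨a, b⟩
    cases a <;> cases b <;> simp [e, hν, hπ, M.mul_mem hν hπ]
  have he0 : ∀ i, e i ≠ 0 := by
    rintro ⟨a, b⟩
    cases a <;> cases b <;> simp [e, hν0, hπ0]
  have hfN : ∀ i, f i ∈ N := by
    rintro ⟨a, b⟩
    cases a <;> cases b <;> simp [f, hμ, hρ, N.mul_mem hμ hρ]
  have hf0 : ∀ i, f i ≠ 0 := by
    rintro ⟨a, b⟩
    cases a <;> cases b <;> simp [f, hμ0, hρ0]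
  have hcl : ∀ y ∈ N, y ≠ 0 → ∃ i, SqM N (f i * y) := by
    intro y hy hy0
    rcases h4 y hy hy0 with h | h | h | h
    · exact ⟨(false, false), by simpa [f] using h⟩
    · exact ⟨(true, false), by simpa [f] using h⟩
    · exact ⟨(false, true), by simpa [f] using h⟩
    · exact ⟨(true, true), by simpa [f] using h⟩
  have hdiff : ∀ i j, i ≠ j → ¬ SqM M (e i * e j) := by
    have k1 : ∀ w, w ∈ M → w ≠ 0 → ¬ SqM M (ν * w ^ 2) := fun w hw hw0 h => h1 (SqM.of_sq hw hw0 h)
    have k2 : ∀ w, w ∈ M → w ≠ 0 → ¬ SqM M (π * w ^ 2) := fun w hw hw0 h => h2' (SqM.of_sq hw hw0 h)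
    rintro ⟨a, b⟩ ⟨a', b'⟩ hij hs
    cases a <;> cases b <;> cases a' <;> cases b' <;> simp only [e, if_true, if_false, one_mul,
      mul_one, Bool.false_eq_true, reduceIte] at hs
    · exact hij rfl
    · exact h2' hs
    · exact h1 hs
    · exact h3 hs
    · exact h2' hs
    · exact hij rfl
    · exact h3 (by rwa [mul_comm] at hs)
    · exact k1 π hπ hπ0 (by convert hs using 1; ring)
    · exact h1 hs
    · exact h3 hs
    · exact hij rfl
    · exact k2 ν hν hν0 (by convert hs using 1; ring)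
    · exact h3 hs
    · exact k1 π hπ hπ0 (by convert hs using 1; ring)
    · exact k2 ν hν hν0 (by convert hs using 1; ring)
    · exact hij rfl
  choose g hg using fun i => hcl (e i) (h (heM i)) (he0 i)
  have hsame : ∀ i y y', y ∈ N → y' ∈ N → SqM N (f i * y) → SqM N (f i * y') →
      SqM N (y * y') := by
    intro i y y' _ _ hy hy'
    rw [mul_comm] at hy
    exact SqM.trans (hfN i) (hf0 i) hy hy'
  have hinj : Function.Injective g := by
    intro i j hij
    by_contra hne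
    refine hdiff i j hne ?_
    refine SqM.odd h ho (M.mul_mem (heM i) (heM j)) ?_
    refine hsame (g i) _ _ (h (heM i)) (h (heM j)) (hg i) ?_
    rw [hij]
    exact hg j
  have hsurj : Function.Surjective g := Finite.surjective_of_injective hinj
  obtain ⟨i, hi⟩ := hcl x hx h0
  obtain ⟨j, rfl⟩ := hsurj i
  exact ⟨e j, heM j, he0 j, hsame (g j) _ _ (h (heM j)) hx (hg j) hi⟩

end BE
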