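import Pool.Agent.Lib.MP_f80667_ag.Be.Kr
import Pool.Agent.Lib.MP_f80667_ag.Be.Odd

/-! At an odd place of good reduction the classes of points are classes of units. -/

open ZC Polynomial IntermediateField

namespace BE

variable {F : Type} [Field F] {K : Type} [Field K] [CharZero K] [Algebra F K] {Ω : Type} [Field Ω]
  [Algebra K Ω] [Algebra F Ω] [IsScalarTower F K Ω] [IsAlgClosure K Ω] (C : Cf F) (L : Lf K Ω)

omit [IsAlgClosure K Ω] in
/-- The class of a coordinate `x` with `x (x² + A x + B) = Y²`, where `A`, `B` are integral and `B` is a unit,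
is the class of a unit. -/
theorem uc_core (h2 : L.nm 2 = 1) {M : IntermediateField K Ω} [FiniteDimensional K M]
    {A B x Y : Ω} (hA : A ∈ M) (hB : B ∈ M) (hx : x ∈ M) (hY : Y ∈ M) (hA1 : L.nm A ≤ 1)
    (hB1 : L.nm B = 1) (hx0 : x ≠ 0) (he : Y ^ 2 = x * (x ^ 2 + A * x + B)) :
    ∃ c ∈ M, ∃ m ∈ M, L.nm c = 1 ∧ m ≠ 0 ∧ x = c * m ^ 2 := by
  have hB0 : B ≠ 0 := L.ne_zero (by rw [hB1]; exact one_pos)
  have hxp : 0 < L.nm x := L.pos hx0
  rcases lt_trichotomy (L.nm x) 1 with hlt | heq | hgt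
  · -- `‖x‖ < 1`: `x² + A x + B = B (1 + (x² + A x) / B)`
    have hε : L.nm ((x ^ 2 + A * x) / B) < 1 := by
      rw [L.div, hB1, div_one]
      refine lt_of_le_of_lt (L.add _ _) (max_lt ?_ ?_)
      · rw [L.pow]
        exact pow_lt_one₀ (L.nonneg x) hlt two_ne_zero
      · rw [L.mul]
        exact lt_of_le_of_lt (mul_le_of_le_one_left (L.nonneg x) hA1) hlt
    obtain ⟨s, hs, hs2⟩ := odd_sq L h2 M (x := (x ^ 2 + A * x) / B)
      (M.div_mem (M.add_mem (pow_mem hx 2) (M.mul_mem hA hx)) hB) hε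
    have hs0 : s ≠ 0 := by
      rintro rfl
      have h1 := L.one_add hε
      rw [hs2, zero_pow two_ne_zero, (L.zero_iff 0).2 rfl] at h1
      exact zero_ne_one h1
    have h3 : x ^ 2 + A * x + B = B * s ^ 2 := by
      rw [← hs2]
      field_simp
      ring
    rw [h3] at he
    have hY0 : Y ≠ 0 := by
      rintro rfl
      rw [zero_pow two_ne_zero] at he
      exact mul_ne_zero hx0 (mul_ne_zero hB0 (pow_ne_zero 2 hs0)) he.symm
    refine ⟨B, hB, Y / (B * s), M.div_mem hY (M.mul_mem hB hs), hB1,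
      div_ne_zero hY0 (mul_ne_zero hB0 hs0), ?_⟩
    field_simp
    linear_combination - he
  · exact ⟨x, hx, 1, M.one_mem, heq, one_ne_zero, by ring⟩
  · -- `‖x‖ > 1`: `x² + A x + B = x² (1 + A / x + B / x²)`
    have hε : L.nm (A / x + B / x ^ 2) < 1 := by
      refine lt_of_le_of_lt (L.add _ _) (max_lt ?_ ?_)
      · rw [L.div, div_lt_one hxp]
        exact lt_of_le_of_lt hA1 hgt
      · rw [L.div, L.pow, hB1, div_lt_one (pow_pos hxp 2)]
        exact one_lt_pow₀ hgt two_ne_zero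
    obtain ⟨s, hs, hs2⟩ := odd_sq L h2 M (x := A / x + B / x ^ 2)
      (M.add_mem (M.div_mem hA hx) (M.div_mem hB (pow_mem hx 2))) hε
    have hs0 : s ≠ 0 := by
      rintro rfl
      have h1 := L.one_add hε
      rw [hs2, zero_pow two_ne_zero, (L.zero_iff 0).2 rfl] at h1
      exact zero_ne_one h1
    have h3 : x ^ 2 + A * x + B = x ^ 2 * s ^ 2 := by
      rw [← hs2]
      field_simp
      ring
    rw [h3] at he
    have hY0 : Y ≠ 0 := by
      rintro rfl
      rw [zero_pow two_ne_zero] at he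
      exact mul_ne_zero hx0 (mul_ne_zero (pow_ne_zero 2 hx0) (pow_ne_zero 2 hs0)) he.symm
    refine ⟨1, M.one_mem, Y / (x * s), M.div_mem hY (M.mul_mem hx hs), L.one,
      div_ne_zero hY0 (mul_ne_zero hx0 hs0), ?_⟩
    field_simp
    linear_combination - he

/-- Proof: `X' = kap u`, `X' (X'² - 2 a X' + a² - 4 b) = Y'²` with `Y' ∈ M` (`exists_r`: `Y' = r (x - b / x)`). `‖X'‖ > 1`: `X'` is a square times a principal
unit; `‖X'‖ < 1`: `X'` is `a² - 4 b` times a square times a principal unit; principal units are squares (`odd_sq`). -/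
theorem uc_kap (h : L.H1 C) {M : IntermediateField K Ω} [FiniteDimensional K M] {u : Pt C.W₁ Ω}
    (hu : (C.dt K Ω).UU M.fixingSubgroup u) :
    ∃ c ∈ M, ∃ m ∈ M, L.nm c = 1 ∧ m ≠ 0 ∧ C.kap Ω u = c * m ^ 2 := by
  classical
  have hFM : ∀ c : F, algebraMap F Ω c ∈ M := fun c => by
    rw [IsScalarTower.algebraMap_apply F K Ω]
    exact M.algebraMap_mem _
  have hkM : C.kap Ω u ∈ M := (HfK_r C hu).choose_spec.2.2.1
  have hk0 := kap_ne C u
  have htriv : C.kap Ω u = 1 → ∃ c ∈ M, ∃ m ∈ M, L.nm c = 1 ∧ m ≠ 0 ∧ C.kap Ω u = c * m ^ 2 :=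
    fun e => ⟨1, M.one_mem, 1, M.one_mem, L.one, one_ne_zero, by rw [e]; ring⟩
  rcases Pt.cases' u with rfl | ⟨x, y, hxy, rfl⟩
  · exact htriv rfl
  · by_cases hx : x = 0
    · refine htriv ?_
      change (if x = 0 then (1 : Ω) else _) = 1
      rw [if_pos hx]
    by_cases hy : y = 0
    · refine ⟨algebraMap F Ω (C.a ^ 2 - 4 * C.b), hFM _, 1, M.one_mem, h.hab, one_ne_zero, ?_⟩
      change (if x = 0 then (1 : Ω) else if y = 0 then algebraMap F Ω (C.a ^ 2 - 4 * C.b) else _) = _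
      rw [if_neg hx, if_pos hy]
      ring
    have hk : C.kap Ω (Pt.aff x y hxy) = (y / x) ^ 2 := by
      change (if x = 0 then (1 : Ω) else if y = 0 then algebraMap F Ω (C.a ^ 2 - 4 * C.b) else
        (y / x) ^ 2) = _
      rw [if_neg hx, if_neg hy]
    have heq := C.eq₁ hxy
    have hbne := C.b_ne Ω
    have hYM : y / x * (x - algebraMap F Ω C.b / x) ∈ M := by
      refine mem_of_fix M fun γ hγ => ?_
      obtain ⟨h1, h2⟩ := gal_aff γ hxy
      rw [map_mul, map_div₀, map_sub, map_div₀, gal_F]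
      rcases hu γ hγ with h3 | h3
      · rw [h2] at h3
        obtain ⟨h4, h5⟩ := Pt.aff_inj h3
        rw [h4, h5]
      · obtain ⟨h', h6⟩ := C.add_t₁ hxy hx
        rw [h2] at h3
        have h7 : Pt.aff (γ x) (γ y) h1 = (Pt.aff x y hxy : Pt C.W₁ Ω) + C.t Ω := h3
        rw [h6] at h7
        obtain ⟨h4, h5⟩ := Pt.aff_inj h7
        rw [h4, h5]
        field_simp
        ring
    refine uc_core (A := - 2 * algebraMap F Ω C.a) (B := algebraMap F Ω (C.a ^ 2 - 4 * C.b)) L
      h.two ?_ (hFM _) hkM hYM ?_ h.hab hk0 ?_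
    · exact M.mul_mem (M.neg_mem (ofNat_mem M 2)) (hFM _)
    · rw [L.mul, L.neg, h.two, one_mul]
      exact h.ha
    · rw [hk, map_sub, map_mul, map_pow, map_ofNat]
      have hk2 : (y / x) ^ 2 = x + algebraMap F Ω C.a + algebraMap F Ω C.b / x := by
        field_simp
        linear_combination heq
      have e1 : (y / x * (x - algebraMap F Ω C.b / x)) ^ 2 =
          (y / x) ^ 2 * (x - algebraMap F Ω C.b / x) ^ 2 := by ring
      rw [e1, hk2]
      field_simp
      ring

/-- Proof: `X (X² + a X + b) = Y²`: `‖X‖ > 1`: a square; `‖X‖ < 1`: `b` times a square. -/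
theorem uc_al (h : L.H1 C) {M : IntermediateField K Ω} [FiniteDimensional K M] {u : Pt C.W₁ Ω}
    (hu : ∀ γ ∈ M.fixingSubgroup, γ • u = u) :
    ∃ c ∈ M, ∃ m ∈ M, L.nm c = 1 ∧ m ≠ 0 ∧ C.al u = c * m ^ 2 := by
  classical
  have hFM : ∀ c : F, algebraMap F Ω c ∈ M := fun c => by
    rw [IsScalarTower.algebraMap_apply F K Ω]
    exact M.algebraMap_mem _
  rcases Pt.cases' u with rfl | ⟨x, y, hxy, rfl⟩
  · exact ⟨1, M.one_mem, 1, M.one_mem, L.one, one_ne_zero, by
      change (1 : Ω) = _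
      ring⟩
  · have hfix := (fix_aff M hxy).1 hu
    by_cases hx : x = 0
    · refine ⟨algebraMap F Ω C.b, hFM _, 1, M.one_mem, h.hb, one_ne_zero, ?_⟩
      change (if x = 0 then algebraMap F Ω C.b else x) = _
      rw [if_pos hx]
      ring
    · have hal : C.al (Pt.aff x y hxy) = x := by
        change (if x = 0 then algebraMap F Ω C.b else x) = _
        rw [if_neg hx]
      rw [hal]
      refine uc_core L h.two (hFM C.a) (hFM C.b) hfix.1 hfix.2 h.ha h.hb hx ?_
      rw [C.eq₁ hxy]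
      ring

end BE
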