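import Pool.Agent.Lib.MP_f80667_ag.Be.GlD
import Pool.Agent.Lib.MP_f80667_ag.Be.Odd
import Pool.Agent.Lib.MP_f80667_ag.Be.Uc

/-! The classes of points of `E₂` over the completions at the finite places. -/

open ZC Polynomial IntermediateField IsDedekindDomain NumberField

namespace BE

section basic

variable {F : Type} [Field F] (C : Cf F) {Ω : Type} [Field Ω] [Algebra F Ω]

theorem gla_g (x : Ω) : aeval x C.g = x ^ 3 + algebraMap F Ω C.c₂ * x ^ 2 +
    algebraMap F Ω C.c₁ * x + algebraMap F Ω C.c₀ := by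
  simp [Cf.g]

theorem gla_dg (x : Ω) : aeval x (derivative C.g) = 3 * x ^ 2 +
    2 * algebraMap F Ω C.c₂ * x + algebraMap F Ω C.c₁ := by
  simp [Cf.g]
  rw [map_ofNat]
  ring

/-- The discriminant. -/
theorem gla_disc {e : Ω} (he : aeval e C.g = 0) : algebraMap F Ω C.disc =
    (aeval e (derivative C.g)) ^ 2 * ((e + algebraMap F Ω C.c₂) ^ 2 -
      4 * (e ^ 2 + algebraMap F Ω C.c₂ * e + algebraMap F Ω C.c₁)) := by
  rw [gla_g] at he
  rw [gla_dg]
  simp only [Cf.disc, map_sub, map_add, map_mul, map_pow, map_ofNat]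
  set a := algebraMap F Ω C.c₂
  set b := algebraMap F Ω C.c₁
  set c := algebraMap F Ω C.c₀
  have hc : c = - (e ^ 3 + a * e ^ 2 + b * e) := by linear_combination he
  rw [hc]
  ring

theorem gla_dg_ne {e : Ω} (he : aeval e C.g = 0) : aeval e (derivative C.g) ≠ 0 := by
  intro h0
  have h1 := gla_disc C he
  rw [h0, zero_pow two_ne_zero, zero_mul, map_eq_zero] at h1
  exact C.hc h1

theorem gla_eq {x y : Ω} (h : ((C.W₂).baseChange Ω).toAffine.Nonsingular x y) :
    y ^ 2 = x ^ 3 + algebraMap F Ω C.c₂ * x ^ 2 + algebraMap F Ω C.c₁ * x + algebraMap F Ω C.c₀ := by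
  have h1 := h.1
  rw [WeierstrassCurve.Affine.equation_iff] at h1
  simp only [Cf.W₂, WeierstrassCurve.baseChange, WeierstrassCurve.map, map_zero] at h1
  linear_combination h1

theorem gla_del_zero (e : Ω) : C.del e (0 : Pt C.W₂ Ω) = 1 := rfl

theorem gla_del_same {e y : Ω} (h : ((C.W₂).baseChange Ω).toAffine.Nonsingular e y) :
    C.del e (Pt.aff e y h) = aeval e (derivative C.g) := by
  classical
  change (if e = e then aeval e (derivative C.g) else C.kap Ω 0 * (e - e)) = _
  rw [if_pos rfl]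

theorem gla_del_ne {e x y : Ω} (h : ((C.W₂).baseChange Ω).toAffine.Nonsingular x y) (hx : x ≠ e) :
    C.del e (Pt.aff x y h) = x - e := by
  classical
  change (if x = e then aeval e (derivative C.g) else C.kap Ω 0 * (x - e)) = _
  rw [if_neg hx]
  exact one_mul _

end basic

section loc

variable {F : Type} [Field F] {K : Type} [Field K] [CharZero K] [Algebra F K] {Ω : Type} [Field Ω]
  [Algebra K Ω] [Algebra F Ω] [IsScalarTower F K Ω] [IsAlgClosure K Ω] (C : Cf F) (L : Lf K Ω)

omit [CharZero K] [IsAlgClosure K Ω] [Algebra F K] [IsScalarTower F K Ω] in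
theorem gla_root_le (h : L.H1 C) {e : Ω} (he : aeval e C.g = 0) : L.nm e ≤ 1 := by
  have hm : C.g.Monic := by
    unfold Cf.g
    monicity!
  refine L.root_le (f := C.g.map (algebraMap F Ω)) (hm.map _) ?_ (by rw [eval_map_algebraMap]; exact he)
  intro i
  rw [coeff_map]
  match i with
  | 0 => simpa [Cf.g, coeff_X, coeff_C] using h.hc₀
  | 1 => simpa [Cf.g, coeff_X, coeff_C] using h.hc₁
  | 2 => simpa [Cf.g, coeff_X, coeff_C] using h.hc₂
  | 3 =>
    have h3 : C.g.coeff 3 = 1 := by
      simp [Cf.g, coeff_X, coeff_C]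
    rw [h3, map_one, L.one]
  | n + 4 =>
    have h3 : C.g.coeff (n + 4) = 0 := by
      simp [Cf.g, coeff_X, coeff_C, coeff_X_pow]
    rw [h3, map_zero, (L.zero_iff 0).2 rfl]
    exact zero_le_one

omit [CharZero K] [IsAlgClosure K Ω] [Algebra F K] [IsScalarTower F K Ω] in
theorem gla_int_mul {x y : Ω} (hx : L.nm x ≤ 1) (hy : L.nm y ≤ 1) : L.nm (x * y) ≤ 1 := by
  rw [L.mul]
  exact mul_le_one₀ hx (L.nonneg y) hy

omit [CharZero K] [IsAlgClosure K Ω] [Algebra F K] [IsScalarTower F K Ω] in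
theorem gla_int_add {x y : Ω} (hx : L.nm x ≤ 1) (hy : L.nm y ≤ 1) : L.nm (x + y) ≤ 1 :=
  (L.add x y).trans (max_le hx hy)

omit [CharZero K] [IsAlgClosure K Ω] [Algebra F K] [IsScalarTower F K Ω] in
theorem gla_dg_one (h : L.H1 C) {e : Ω} (he : aeval e C.g = 0) :
    L.nm (aeval e (derivative C.g)) = 1 := by
  have hel := gla_root_le C L h he
  have h3 : L.nm (3 : Ω) ≤ 1 := by
    have := L.nat_le 3
    rwa [Nat.cast_ofNat] at this
  have h2 : L.nm (2 : Ω) ≤ 1 := L.two_le
  have h4 : L.nm (4 : Ω) ≤ 1 := by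
    have := L.nat_le 4
    rwa [Nat.cast_ofNat] at this
  have hpe : L.nm (e ^ 2) ≤ 1 := by
    rw [L.pow]
    exact pow_le_one₀ (L.nonneg e) hel
  have hd : L.nm (aeval e (derivative C.g)) ≤ 1 := by
    rw [gla_dg]
    exact gla_int_add L (gla_int_add L (gla_int_mul L h3 hpe)
      (gla_int_mul L (gla_int_mul L h2 h.hc₂) hel)) h.hc₁
  have hq : L.nm ((e + algebraMap F Ω C.c₂) ^ 2 -
      4 * (e ^ 2 + algebraMap F Ω C.c₂ * e + algebraMap F Ω C.c₁)) ≤ 1 := by
    rw [sub_eq_add_neg]
    refine gla_int_add L ?_ ?_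
    · rw [L.pow]
      exact pow_le_one₀ (L.nonneg _) (gla_int_add L hel h.hc₂)
    · rw [L.neg]
      exact gla_int_mul L h4 (gla_int_add L (gla_int_add L hpe (gla_int_mul L h.hc₂ hel)) h.hc₁)
  have h1 := h.hd
  rw [gla_disc C he, L.mul, L.pow] at h1
  refine le_antisymm hd ?_
  by_contra hcon
  push Not at hcon
  have h5 : L.nm (aeval e (derivative C.g)) ^ 2 * L.nm ((e + algebraMap F Ω C.c₂) ^ 2 -
      4 * (e ^ 2 + algebraMap F Ω C.c₂ * e + algebraMap F Ω C.c₁)) < 1 :=
    mul_lt_one_of_nonneg_of_lt_one_left (pow_nonneg (L.nonneg _) 2)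
      (pow_lt_one₀ (L.nonneg _) hcon two_ne_zero) hq
  exact absurd h1 h5.ne

/-- At a good odd place the class of a point is the class of a unit. Proof: `(w - e) (w - e') (w - e'') = v²`. If `‖w‖ > 1` then `w - e` is `w` times a square, and `w` is a square. If `‖w - e‖ < 1` then the two other factors have norm `1`, their product is in `M(e)`, and
`w - e` is `v²` divided by it. If `w = e`: `g'(e)` is a unit. -/
theorem uc_del (h : L.H1 C) {M : IntermediateField K Ω} [FiniteDimensional K M] {e : Ω}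
    (he : aeval e C.g = 0) (heM : e ∈ M) {y : Pt C.W₂ Ω}
    (hy : ∀ γ ∈ M.fixingSubgroup, γ • y = y) :
    ∃ c ∈ M, ∃ m ∈ M, L.nm c = 1 ∧ m ≠ 0 ∧ C.del e y = c * m ^ 2 := by
  have hFM : ∀ c : F, algebraMap F Ω c ∈ M := fun c => by
    rw [IsScalarTower.algebraMap_apply F K Ω]
    exact M.algebraMap_mem _
  have hB : aeval e (derivative C.g) ∈ M := by
    rw [gla_dg]
    exact M.add_mem (M.add_mem (M.mul_mem (ofNat_mem M 3) (pow_mem heM 2))
      (M.mul_mem (M.mul_mem (ofNat_mem M 2) (hFM _)) heM)) (hFM _)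
  rcases Pt.cases' y with rfl | ⟨w, v, hwv, rfl⟩
  · exact ⟨1, M.one_mem, 1, M.one_mem, L.one, one_ne_zero, by
      rw [gla_del_zero]
      ring⟩
  · have hfix := (fix_aff M hwv).1 hy
    by_cases hw : w = e
    · subst hw
      refine ⟨_, hB, 1, M.one_mem, gla_dg_one C L h he, one_ne_zero, ?_⟩
      rw [gla_del_same]
      ring
    · rw [gla_del_ne C hwv hw]
      refine uc_core (A := 3 * e + algebraMap F Ω C.c₂) (B := aeval e (derivative C.g)) (Y := v) L
        h.two ?_ hB (M.sub_mem hfix.1 heM) hfix.2 ?_ (gla_dg_one C L h he) (sub_ne_zero.2 hw) ?_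
      · exact M.add_mem (M.mul_mem (ofNat_mem M 3) heM) (hFM _)
      · refine gla_int_add L (gla_int_mul L ?_ (gla_root_le C L h he)) h.hc₂
        have := L.nat_le 3
        rwa [Nat.cast_ofNat] at this
      · rw [gla_eq C hwv, gla_dg]
        rw [gla_g] at he
        linear_combination he

omit [CharZero K] [IsAlgClosure K Ω] in
/-- Conjugation. -/
theorem del_act (γ : Ω ≃ₐ[K] Ω) {e : Ω} {y : Pt C.W₂ Ω} (hy : γ • y = y) :
    C.del (γ e) y = γ (C.del e y) := by
  rcases Pt.cases' y with rfl | ⟨w, v, hwv, rfl⟩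
  · rw [gla_del_zero, gla_del_zero, map_one]
  · obtain ⟨h1, h2⟩ := gal_aff γ hwv
    rw [h2] at hy
    obtain ⟨h3, -⟩ := Pt.aff_inj hy
    by_cases hw : w = e
    · subst hw
      have h4 : C.del (γ w) (Pt.aff w v hwv) = aeval w (derivative C.g) := by
        rw [h3, gla_del_same]
      rw [h4, gla_del_same]
      have h5 : γ (aeval w (derivative C.g)) = aeval (γ w) (derivative C.g) :=
        (Polynomial.aeval_algHom_apply (γ.restrictScalars F : Ω →ₐ[F] Ω) w _).symm
      rw [h5, h3]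
    · have hw' : w ≠ γ e := by
        intro h4
        apply hw
        apply γ.injective
        rw [h3, h4]
      rw [gla_del_ne C hwv hw', gla_del_ne C hwv hw, map_sub, h3]

omit [CharZero K] [IsAlgClosure K Ω] [Algebra F K] [Field K] [Algebra K Ω] [IsScalarTower F K Ω] in
theorem del_ne {e : Ω} (he : aeval e C.g = 0) (y : Pt C.W₂ Ω) : C.del e y ≠ 0 := by
  rcases Pt.cases' y with rfl | ⟨w, v, hwv, rfl⟩
  · rw [gla_del_zero]
    exact one_ne_zero
  · by_cases hw : w = e
    · subst hw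
      rw [gla_del_same]
      exact gla_dg_ne C he
    · rw [gla_del_ne C hwv hw]
      exact sub_ne_zero.2 hw

end loc

/-- The value of `θ_e` at the cycle `fc y`. -/
theorem thz_fc {F : Type} [Field F] (C : Cf F) {K : Type} [Field K] [Algebra F K]
    (y : Pt C.W₂ K) (e : AlgebraicClosure K) : C.thz e (C.fc K y) =
      C.del e (Pt.map _ (IsScalarTower.toAlgHom F K (AlgebraicClosure K)) y) := by
  classical
  set y' := Pt.map C.W₂ (IsScalarTower.toAlgHom F K (AlgebraicClosure K)) y with hy'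
  set p := C.px 0 y' with hp
  set q : C.X.pt (AlgebraicClosure K) := C.px 0 0 with hq
  have hfc : C.fc K y = Finsupp.single p 1 - Finsupp.single q 1 := rfl
  have hthp : C.th (AlgebraicClosure K) e p = C.del e y' := rfl
  have hthq : C.th (AlgebraicClosure K) e q = 1 := rfl
  by_cases hpq : p = q
  · have h1 : C.del e y' = 1 := by rw [← hthp, hpq, hthq]
    rw [h1, hfc, hpq, sub_self]
    exact Finsupp.prod_zero_index
  · rw [hfc]
    unfold Cf.thz
    rw [Finsupp.prod_of_support_subset (s := {p, q})]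
    · rw [Finset.prod_pair hpq]
      have e1 : (Finsupp.single p (1 : ℤ) - Finsupp.single q 1 : C.X.pt (AlgebraicClosure K) →₀ ℤ) p
          = 1 := by
        rw [Finsupp.sub_apply, Finsupp.single_eq_same, Finsupp.single_eq_of_ne hpq, sub_zero]
      rw [e1, hthp, hthq, one_zpow, mul_one, zpow_one]
    · intro x hx
      rw [Finset.mem_insert, Finset.mem_singleton]
      by_contra hcon
      push Not at hcon
      rw [Finsupp.mem_support_iff] at hx
      apply hx
      rw [Finsupp.sub_apply, Finsupp.single_eq_of_ne hcon.1, Finsupp.single_eq_of_ne hcon.2,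
        sub_zero]
    · intro x _
      exact zpow_zero _

variable {F : Type} [Field F] [NumberField F] (C : Cf F)

/-- An absolute value. -/
noncomputable def lf (v : HeightOneSpectrum (𝓞 F)) :
    Lf (FK F v) (AlgebraicClosure (FK F v)) := Classical.choose (exists_lg v)

theorem lf_lg (v : HeightOneSpectrum (𝓞 F)) : Lg (lf v) := Classical.choose_spec (exists_lg v)

theorem gla_le {v : HeightOneSpectrum (𝓞 F)} {x : F} (h : v.valuation F x ≤ 1) :
    (lf v).nm (algebraMap F _ x) ≤ 1 := by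
  have h1 := (lf_lg v).cmp 1 x
  rw [map_one, map_one, (lf v).one] at h1
  by_contra hcon
  push Not at hcon
  exact absurd (h1.2 hcon) (not_lt.2 h)

theorem gla_one {v : HeightOneSpectrum (𝓞 F)} {x : F} (h : v.valuation F x = 1) :
    (lf v).nm (algebraMap F _ x) = 1 := by
  refine le_antisymm (gla_le h.le) ?_
  have h1 := (lf_lg v).cmp x 1
  rw [map_one, map_one, (lf v).one] at h1
  by_contra hcon
  push Not at hcon
  exact absurd h (h1.2 hcon).ne

/-- `G1` in terms of `lf`. Proof: `Lg.cmp`. -/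
theorem lf_H1 {v : HeightOneSpectrum (𝓞 F)} (h : C.G1 v) : (lf v).H1 C := by
  refine ⟨?_, gla_le h.ha, gla_one h.hb, gla_one h.hab, gla_le h.hc₂, gla_le h.hc₁, gla_le h.hc₀,
    gla_one h.hd⟩
  have h2 := gla_one h.two
  rwa [map_ofNat] at h2

variable [Fact (Irreducible C.g)]

/-- The class of `y` at the place `w` of `F[w] / g`. Proof: `cmp_surj`, `emL_surj`: `w` is given by a root `e`; `exists_cls` gives `a`; the other roots which give `w` are conjugate (`cmp_conj`, `del_act`). `uc_del`: `a` is a unit up to squares. -/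
theorem exists_a (v : HeightOneSpectrum (𝓞 F)) (y : Pt C.W₂ (FK F v))
    (w : HeightOneSpectrum (𝓞 (AdjoinRoot C.g))) (hw : w.under (𝓞 F) = v) :
    ∃ a : (AdjoinRoot C.g)ˣ,
      (∀ (e : AlgebraicClosure (FK F v)) (he : aeval e C.g = 0),
        Cmp (lf v) (emL C he : AdjoinRoot C.g →+* AlgebraicClosure (FK F v)) w →
        SqM (IntermediateField.adjoin (FK F v) {e}) (emL C he (a : AdjoinRoot C.g) *
          C.del e (Pt.map _ (IsScalarTower.toAlgHom F (FK F v) (AlgebraicClosure (FK F v))) y))) ∧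
      (C.G1 v → Ev w a) := by
  obtain ⟨i, hi⟩ := cmp_surj (lf_lg v) (N := AdjoinRoot C.g) hw
  obtain ⟨e, he, rfl⟩ := emL_surj C i
  set y' := Pt.map C.W₂ (IsScalarTower.toAlgHom F (FK F v) (AlgebraicClosure (FK F v))) y with hy'
  have hyγ : ∀ γ : AlgebraicClosure (FK F v) ≃ₐ[FK F v] AlgebraicClosure (FK F v),
      γ • y' = y' := by
    intro γ
    rw [hy', Pt.smul_def, Pt.map_map']
    congr 1
    exact congrArg (Pt.map C.W₂) (AlgHom.ext fun a => γ.commutes a)
  have hadj := adj_emL (K := FK F v) C he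
  have hdel : C.del e y' ∈ IntermediateField.adjoin (FK F v) {e} := by
    refine mem_of_fix _ fun γ hγ => ?_
    rw [← del_act C γ (hyγ γ)]
    congr 1
    exact (IntermediateField.mem_fixingSubgroup_iff _ _).1 hγ e
      (IntermediateField.mem_adjoin_simple_self _ e)
  have hdel0 : C.del e y' ≠ 0 := del_ne C he y'
  obtain ⟨a, ha⟩ := exists_cls (lf_lg v) (i := emL C he) (z := C.del e y') (by
    rw [hadj]
    exact hdel) hdel0
  rw [hadj] at ha
  refine ⟨a, ?_, ?_⟩
  · intro e₁ he₁ hc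
    obtain ⟨γ, hγ⟩ := cmp_conj (lf_lg v) hi hc
    have he1 : e₁ = γ e := by
      have h1 := hγ (AdjoinRoot.mk C.g X)
      rwa [emL_mk, emL_mk, aeval_X, aeval_X] at h1
    obtain ⟨s, hs, hse⟩ := ha
    refine ⟨γ s, ?_, ?_⟩
    · have h1 : γ s ∈ (IntermediateField.adjoin (FK F v) {e}).map
          (γ : AlgebraicClosure (FK F v) →ₐ[FK F v] AlgebraicClosure (FK F v)) := ⟨s, hs, rfl⟩
      rw [IntermediateField.adjoin_map, Set.image_singleton] at h1
      rw [he1]
      exact h1
    · rw [hγ, ← map_pow, ← hse, map_mul]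
      congr 1
      rw [he1]
      exact del_act C γ (hyγ γ)
  · intro hG
    have hfd : FiniteDimensional (FK F v)
        (IntermediateField.adjoin (FK F v) {e} : IntermediateField (FK F v)
          (AlgebraicClosure (FK F v))) :=
      IntermediateField.adjoin.finiteDimensional (Algebra.IsIntegral.isIntegral e)
    obtain ⟨c, hc, m, hm, hc1, hm0, hcm⟩ := uc_del C (lf v) (lf_H1 C hG)
      (M := IntermediateField.adjoin (FK F v) {e}) he
      (IntermediateField.mem_adjoin_simple_self _ e) (y := y') fun γ _ => hyγ γ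
    obtain ⟨s, hs, hse⟩ := ha
    have ha0 : emL C he (a : AdjoinRoot C.g) ≠ 0 := (_root_.map_ne_zero _).2 a.ne_zero
    have hs0 : s ≠ 0 := by
      rintro rfl
      rw [zero_pow two_ne_zero] at hse
      exact mul_ne_zero ha0 hdel0 hse
    have hms0 : m / s ≠ 0 := div_ne_zero hm0 hs0
    obtain ⟨x, hx⟩ := dense_N (lf_lg v) (emL C he) (z := m / s) (by
      rw [hadj]
      exact div_mem hm hs) ((lf v).pos hms0)
    have hnx := (lf v).eq_of_close hx
    have hx0 : x ≠ 0 := by
      rintro rfl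
      rw [map_zero, ((lf v).zero_iff 0).2 rfl] at hnx
      exact hms0 (((lf v).zero_iff _).1 hnx.symm)
    refine ⟨Units.mk0 x hx0, ?_⟩
    rw [hi.eq_one]
    have e1 : ((a * Units.mk0 x hx0 ^ 2 : (AdjoinRoot C.g)ˣ) : AdjoinRoot C.g) =
        (a : AdjoinRoot C.g) * x ^ 2 := by
      rw [Units.val_mul, Units.val_pow_eq_pow_val, Units.val_mk0]
    rw [e1]
    have e2 : (emL C he : AdjoinRoot C.g →+* AlgebraicClosure (FK F v)) ((a : AdjoinRoot C.g) * x ^ 2)
        = emL C he (a : AdjoinRoot C.g) * emL C he x ^ 2 := by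
      change emL C he ((a : AdjoinRoot C.g) * x ^ 2) = _
      rw [map_mul, map_pow]
    rw [e2, (lf v).mul, (lf v).pow, hnx, ← (lf v).pow, ← (lf v).mul]
    have e3 : emL C he (a : AdjoinRoot C.g) * (m / s) ^ 2 = c⁻¹ := by
      have hc0 : c ≠ 0 := (lf v).ne_zero (by rw [hc1]; exact one_pos)
      rw [hcm] at hse
      field_simp
      linear_combination hse
    rw [e3, (lf v).inv, hc1, inv_one]

end BE
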