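import Pool.Agent.Lib.MP_f80667_ag.Be.DcB
import Pool.Agent.Lib.MP_f80667_ag.Be.DcC
import Pool.Agent.Lib.MP_f80667_ag.Be.Du
import Pool.Agent.Lib.MP_f80667_ag.Be.Lh

/-! The field `F[w] / g` and its embeddings. -/

open ZC Polynomial IntermediateField IsDedekindDomain NumberField

namespace BE

variable {F : Type} [Field F] [NumberField F] (C : Cf F)

/-- There is a place above `2`. -/
private theorem exists_dyadic (F : Type) [Field F] [NumberField F] :
    ∃ v : HeightOneSpectrum (𝓞 F), v.valuation F 2 ≠ 1 := by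
  have h2 : (2 : 𝓞 F) ≠ 0 := two_ne_zero
  have hnu : ¬ IsUnit (2 : 𝓞 F) := by
    intro h
    obtain ⟨u, hu⟩ := h.exists_right_inv
    have h1 : algebraMap (𝓞 F) F u = algebraMap ℚ F (1 / 2) := by
      have h3 := congrArg (algebraMap (𝓞 F) F) hu
      rw [map_mul, map_ofNat, map_one] at h3
      rw [map_div₀, map_one, map_ofNat, eq_div_iff two_ne_zero, mul_comm, h3]
    have h3 : IsIntegral ℤ (algebraMap ℚ F (1 / 2)) := by
      rw [← h1]
      exact RingOfIntegers.isIntegral_coe u
    have h4 := (isIntegral_algebraMap_iff (algebraMap ℚ F).injective).1 h3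
    obtain ⟨y, hy⟩ := IsIntegrallyClosed.isIntegral_iff.1 h4
    have h5 : (2 * y : ℤ) = 1 := by
      have h6 : ((2 * y : ℤ) : ℚ) = 1 := by
        rw [eq_intCast] at hy
        push_cast
        rw [hy]
        norm_num
      exact_mod_cast h6
    omega
  have h3 : Ideal.span {(2 : 𝓞 F)} ≠ ⊤ := by
    rwa [Ne, Ideal.span_singleton_eq_top]
  obtain ⟨m, hm, hle⟩ := Ideal.exists_le_maximal _ h3
  have h4 : (2 : 𝓞 F) ∈ m := hle (Ideal.mem_span_singleton_self _)
  have hb : m ≠ ⊥ := fun h => h2 (by rwa [h, Ideal.mem_bot] at h4)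
  refine ⟨⟨m, hm.isPrime, hb⟩, fun h => ?_⟩
  have h5 : HeightOneSpectrum.valuation F ⟨m, hm.isPrime, hb⟩ (algebraMap (𝓞 F) F 2) < 1 :=
    (HeightOneSpectrum.valuation_lt_one_iff_mem (K := F) ⟨m, hm.isPrime, hb⟩ 2).2 h4
  rw [map_ofNat, h] at h5
  exact lt_irrefl _ h5

section poly

variable {F : Type} [Field F] (C : Cf F)

private theorem g_monic : C.g.Monic := by
  unfold Cf.g
  monicity!

private theorem g_natDegree : C.g.natDegree = 3 := by
  unfold Cf.g
  compute_degree!

private theorem g_eval (x : F) : C.g.eval x = x ^ 3 + C.c₂ * x ^ 2 + C.c₁ * x + C.c₀ := by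
  simp [Cf.g]

end poly

/-- `g` is irreducible over `F`. Proof: let `v` be a dyadic place, so `G3` holds; a root of `g` in `F` is integral at `v` and congruent to some `a ∈ 𝓞 F`, `v (g(a)) < 1`: contradiction. -/
theorem irr (h : C.Ok) : Irreducible C.g := by
  obtain ⟨v, hv⟩ := exists_dyadic F
  have h3 : C.G3 v := by
    rcases h.fin v with h1 | h1 | h1
    · exact absurd h1.two hv
    · exact absurd h1.two hv
    · exact h1
  rw [(g_monic C).irreducible_iff_roots_eq_zero_of_degree_le_three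
    (by rw [g_natDegree]; norm_num) (by rw [g_natDegree]), Multiset.eq_zero_iff_forall_notMem]
  intro x hx
  rw [mem_roots (g_monic C).ne_zero, IsRoot.def, g_eval] at hx
  -- the root is integral
  have hx1 : v.valuation F x ≤ 1 := by
    by_contra hcon
    rw [not_le] at hcon
    have hx0 : v.valuation F x ≠ 0 := fun h0 => by
      rw [h0] at hcon
      exact not_lt_zero hcon
    have e : x ^ 3 = -(C.c₂ * x ^ 2 + C.c₁ * x + C.c₀) := by linear_combination hx
    have hle : v.valuation F (x ^ 3) ≤ v.valuation F x ^ 2 := by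
      rw [e, Valuation.map_neg]
      have h4 : (1 : WithZero (Multiplicative ℤ)) ≤ v.valuation F x := hcon.le
      have h5 : v.valuation F x ≤ v.valuation F x ^ 2 := le_self_pow₀ h4 two_ne_zero
      refine (Valuation.map_add _ _ _).trans (max_le ((Valuation.map_add _ _ _).trans
        (max_le ?_ ?_)) ?_)
      · rw [map_mul, map_pow]
        exact mul_le_of_le_one_left' h3.hc₂
      · rw [map_mul]
        exact (mul_le_of_le_one_left' h3.hc₁).trans h5
      · exact h3.hc₀.trans (h4.trans h5)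
    rw [map_pow] at hle
    have h6 : v.valuation F x ^ 2 < v.valuation F x ^ 3 :=
      pow_lt_pow_right₀ hcon (by norm_num)
    exact absurd hle (not_le.2 h6)
  obtain ⟨a, ha⟩ := HeightOneSpectrum.exists_valuation_sub_lt_of_integer v hx1 1
  rw [Units.val_one] at ha
  have h7 := h3.root a
  set y := algebraMap (𝓞 F) F a
  have hy1 : v.valuation F y ≤ 1 := HeightOneSpectrum.valuation_le_one v a
  have e : C.g.eval y = (y - x) * (y ^ 2 + y * x + x ^ 2 + C.c₂ * (y + x) + C.c₁) := by
    rw [g_eval]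
    linear_combination hx
  rw [e, map_mul] at h7
  have h8 : v.valuation F (y ^ 2 + y * x + x ^ 2 + C.c₂ * (y + x) + C.c₁) ≤ 1 := by
    have hs : ∀ s t : F, v.valuation F s ≤ 1 → v.valuation F t ≤ 1 → v.valuation F (s + t) ≤ 1 :=
      fun s t hs ht => (Valuation.map_add _ _ _).trans (max_le hs ht)
    have hp : ∀ s t : F, v.valuation F s ≤ 1 → v.valuation F t ≤ 1 → v.valuation F (s * t) ≤ 1 :=
      fun s t hs ht => by
        rw [map_mul]
        exact mul_le_one' hs ht
    refine hs _ _ (hs _ _ (hs _ _ (hs _ _ ?_ (hp _ _ hy1 hx1)) ?_) (hp _ _ h3.hc₂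
      (hs _ _ hy1 hx1))) h3.hc₁
    · rw [map_pow]
      exact pow_le_one' hy1 2
    · rw [map_pow]
      exact pow_le_one' hx1 2
  have h9 : v.valuation F (y - x) *
      v.valuation F (y ^ 2 + y * x + x ^ 2 + C.c₂ * (y + x) + C.c₁) < 1 :=
    lt_of_le_of_lt (mul_le_of_le_one_right' h8) ha
  rw [h7] at h9
  exact lt_irrefl _ h9

/-- Almost all places satisfy `G1`. -/
theorem not_G1_fin : {v | ¬ C.G1 v}.Finite := by
  have hne : ∀ x : F, x ≠ 0 → {v : HeightOneSpectrum (𝓞 F) | v.valuation F x ≠ 1}.Finite :=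
    fun x hx => Hm.finite_val_ne_one (Units.mk0 x hx)
  have hle : ∀ x : F, {v : HeightOneSpectrum (𝓞 F) | ¬ v.valuation F x ≤ 1}.Finite := by
    intro x
    by_cases hx : x = 0
    · refine Set.Finite.subset Set.finite_empty fun v hv => hv ?_
      rw [hx, map_zero]
      exact zero_le_one
    · exact (hne x hx).subset fun v hv h => hv h.le
  refine (((hne 2 C.h2).union (hle C.a)).union (((hne C.b C.hb).union (hne _ C.hab)).union
    (((hle C.c₂).union (hle C.c₁)).union ((hle C.c₀).union (hne C.disc C.hc))))).subset ?_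
  intro v hv
  by_contra hcon
  simp only [Set.mem_union, Set.mem_ofPred_eq, not_or, not_not] at hcon
  obtain ⟨⟨a1, a2⟩, ⟨a3, a4⟩, ⟨a5, a6⟩, a7, a8⟩ := hcon
  exact hv ⟨a1, a2, a3, a4, a5, a6, a7, a8⟩

variable [Fact (Irreducible C.g)]

noncomputable instance : NumberField (AdjoinRoot C.g) := by
  have h : C.g.Monic := by
    unfold Cf.g
    monicity!
  have h1 : Module.Finite F (AdjoinRoot C.g) := h.finite_adjoinRoot
  exact NumberField.of_module_finite F (AdjoinRoot C.g)

/-- The embedding given by a root. -/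
noncomputable def emL {E : Type} [Field E] [Algebra F E] {e : E} (he : aeval e C.g = 0) :
    AdjoinRoot C.g →ₐ[F] E := AdjoinRoot.liftAlgHom C.g (Algebra.ofId F E) e he

theorem emL_mk {E : Type} [Field E] [Algebra F E] {e : E} (he : aeval e C.g = 0) (c : F[X]) :
    emL C he (AdjoinRoot.mk C.g c) = aeval e c := by
  unfold emL
  rw [AdjoinRoot.liftAlgHom_mk]
  rfl

/-- Every embedding is given by a root. -/
theorem emL_surj {E : Type} [Field E] [Algebra F E] (i : AdjoinRoot C.g →ₐ[F] E) :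
    ∃ (e : E) (he : aeval e C.g = 0), i = emL C he := by
  have he : aeval (i (AdjoinRoot.root C.g)) C.g = 0 := by
    rw [aeval_algHom_apply, AdjoinRoot.aeval_eq, AdjoinRoot.mk_self, map_zero]
  refine ⟨i (AdjoinRoot.root C.g), he, AdjoinRoot.algHom_ext ?_⟩
  have h1 := emL_mk C he X
  rw [AdjoinRoot.mk_X, aeval_X] at h1
  exact h1.symm

theorem adj_emL {K Ω : Type} [Field K] [Field Ω] [Algebra F K] [Algebra F Ω] [Algebra K Ω]
    [IsScalarTower F K Ω] {e : Ω} (he : aeval e C.g = 0) :
    IntermediateField.adjoin K (Set.range (emL C he)) = IntermediateField.adjoin K {e} := by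
  apply le_antisymm
  · rw [IntermediateField.adjoin_le_iff]
    rintro _ ⟨x, rfl⟩
    obtain ⟨c, rfl⟩ := AdjoinRoot.mk_surjective x
    rw [emL_mk]
    have h1 : aeval e c = aeval e (c.map (algebraMap F K)) := (aeval_map_algebraMap K e c).symm
    rw [h1]
    exact IntermediateField.algebra_adjoin_le_adjoin K {e} (aeval_mem_adjoin_singleton K e)
  · rw [IntermediateField.adjoin_le_iff, Set.singleton_subset_iff]
    apply IntermediateField.subset_adjoin
    refine ⟨AdjoinRoot.mk C.g X, ?_⟩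
    rw [emL_mk, aeval_X]

/-- The class of a polynomial which is prime to `g`. -/
theorem exists_cu {c : F[X]} (hc : IsCoprime c C.g) :
    ∃ u : (AdjoinRoot C.g)ˣ, (u : AdjoinRoot C.g) = AdjoinRoot.mk C.g c := by
  obtain ⟨s, t, hst⟩ := hc
  have h1 : AdjoinRoot.mk C.g s * AdjoinRoot.mk C.g c = 1 := by
    have h2 := congrArg (AdjoinRoot.mk C.g) hst
    rwa [map_add, map_mul, map_mul, AdjoinRoot.mk_self, mul_zero, add_zero, map_one] at h2
  exact ⟨⟨AdjoinRoot.mk C.g c, AdjoinRoot.mk C.g s, by rw [mul_comm, h1], h1⟩, rfl⟩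

theorem exists_pol (u : (AdjoinRoot C.g)ˣ) :
    ∃ c : F[X], IsCoprime c C.g ∧ AdjoinRoot.mk C.g c = (u : AdjoinRoot C.g) := by
  obtain ⟨c, hc⟩ := AdjoinRoot.mk_surjective (u : AdjoinRoot C.g)
  obtain ⟨s, hs⟩ := AdjoinRoot.mk_surjective ((u⁻¹ : (AdjoinRoot C.g)ˣ) : AdjoinRoot C.g)
  refine ⟨c, ?_, hc⟩
  have h1 : AdjoinRoot.mk C.g (s * c - 1) = 0 := by
    rw [map_sub, map_mul, hs, hc, map_one, Units.inv_mul, sub_self]
  obtain ⟨t, ht⟩ := AdjoinRoot.mk_eq_zero.1 h1
  exact ⟨s, -t, by linear_combination ht⟩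

end BE
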