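import Pool.Agent.Lib.MP_f80667_ag.Be.HatA

/-! The completed adelic groups. -/

open ZC Polynomial IntermediateField IsDedekindDomain NumberField

namespace BE

variable {F : Type} [Field F] [NumberField F] (C : Cf F)

/-- The push-forward by the section on cycles of degree `0`. -/
noncomputable def scD (K : Type) [Field K] [CharZero K] [Algebra F K] : Dz C.B K →+ Dz C.X K where
  toFun z := ⟨Finsupp.mapDomain (C.sc _) z.1, sc_D0 C z.2⟩
  map_zero' := Subtype.ext (Finsupp.mapDomain_zero (f := C.sc (AlgebraicClosure K)))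
  map_add' z z' := Subtype.ext Finsupp.mapDomain_add

/-- The push-forward by the projection on cycles of degree `0`. -/
noncomputable def prD (K : Type) [Field K] [CharZero K] [Algebra F K] : Dz C.X K →+ Dz C.B K where
  toFun z := ⟨Finsupp.mapDomain (C.pr _) z.1, pr_D0 C z.2⟩
  map_zero' := Subtype.ext (Finsupp.mapDomain_zero (f := C.pr (AlgebraicClosure K)))
  map_add' z z' := Subtype.ext Finsupp.mapDomain_add

/-- The values of `θ_e` on the section are `1`. -/
theorem th_sc {L : Type} [Field L] [Algebra F L] (e : L) (x : C.B.pt L) :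
    C.th L e (C.sc L x) = 1 := by
  induction x using Quotient.inductionOn with
  | h u => rfl

theorem hat_th_ne {K : Type} [Field K] [CharZero K] [Algebra F K] {e : AlgebraicClosure K}
    (he : aeval e C.g = 0) (x : C.X.pt (AlgebraicClosure K)) :
    C.th (AlgebraicClosure K) e x ≠ 0 := by
  induction x using Quotient.inductionOn with
  | h P => exact th_ne C e he P.1 P.2

theorem hat_thz {K : Type} [Field K] [CharZero K] [Algebra F K] {e : AlgebraicClosure K}
    (he : aeval e C.g = 0) (z : C.X.pt (AlgebraicClosure K) →₀ ℤ)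
    (w : C.B.pt (AlgebraicClosure K) →₀ ℤ) :
    C.thz e (z + Finsupp.mapDomain (C.sc _) w) = C.thz e z := by
  have h1 : C.thz e (z + Finsupp.mapDomain (C.sc _) w) =
      C.thz e z * C.thz e (Finsupp.mapDomain (C.sc _) w) := by
    unfold Cf.thz
    exact Finsupp.prod_add_index' (fun x => zpow_zero _)
      (fun x n m => zpow_add₀ (hat_th_ne C he x) n m)
  have h2 : C.thz e (Finsupp.mapDomain (C.sc (AlgebraicClosure K)) w) = 1 := by
    unfold Cf.thz
    rw [Finsupp.prod_mapDomain_index (fun x => zpow_zero _)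
      (fun x n m => zpow_add₀ (hat_th_ne C he x) n m)]
    refine Finset.prod_eq_one fun x _ => ?_
    change (C.th _ e (C.sc _ x)) ^ (w x) = 1
    rw [th_sc, one_zpow]
  rw [h1, h2, mul_one]

theorem hat_Fl {K : Type} [Field K] [CharZero K] [Algebra F K]
    (z : C.X.pt (AlgebraicClosure K) →₀ ℤ) (w : C.B.pt (AlgebraicClosure K) →₀ ℤ) (c : F[X]) :
    C.Fl K (z + Finsupp.mapDomain (C.sc _) w) c = C.Fl K z c := by
  ext q
  refine and_congr_right fun _ => and_congr_right fun _ => and_congr_right fun hq => ?_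
  refine exists_congr fun e => and_congr_right fun he => ?_
  have hg : aeval e C.g = 0 := by
    obtain ⟨r, hr⟩ := hq
    rw [← Polynomial.aeval_map_algebraMap K, hr, map_mul, he, zero_mul]
  rw [hat_thz C hg]

/-- Adding cycles on the section does not change the symbols. -/
theorem orth_add (z z' : AdF C.X) (w : AdF C.B)
    (h₁ : ∀ v, z'.1 v = z.1 v + scD C (FK F v) (w.1 v))
    (h₂ : ∀ v, z'.2 v = z.2 v + scD C (IK F v) (w.2 v)) : C.Orth z' ↔ C.Orth z := by
  have e1 : ∀ c, C.FlF z' c = C.FlF z c := by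
    intro c
    ext p
    change p.2 ∈ C.Fl (FK F p.1) (z'.1 p.1).1 c ↔ p.2 ∈ C.Fl (FK F p.1) (z.1 p.1).1 c
    rw [h₁ p.1]
    change p.2 ∈ C.Fl (FK F p.1) ((z.1 p.1).1 + Finsupp.mapDomain (C.sc _) (w.1 p.1).1) c ↔ _
    rw [hat_Fl]
  have e2 : ∀ c, C.FlI z' c = C.FlI z c := by
    intro c
    ext p
    change p.2 ∈ C.Fl (IK F p.1) (z'.2 p.1).1 c ↔ p.2 ∈ C.Fl (IK F p.1) (z.2 p.1).1 c
    rw [h₂ p.1]
    change p.2 ∈ C.Fl (IK F p.1) ((z.2 p.1).1 + Finsupp.mapDomain (C.sc _) (w.2 p.1).1) c ↔ _
    rw [hat_Fl]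
  unfold Cf.Orth
  simp only [e1, e2]

/-! ### Families -/

/-- The section on families. -/
noncomputable def sA : AdF C.B →+ AdF C.X where
  toFun w := (fun v => scD C (FK F v) (w.1 v), fun v => scD C (IK F v) (w.2 v))
  map_zero' := Prod.ext (funext fun _ => map_zero _) (funext fun _ => map_zero _)
  map_add' _ _ := Prod.ext (funext fun _ => map_add _ _ _) (funext fun _ => map_add _ _ _)

/-- The projection on families. -/
noncomputable def pA : AdF C.X →+ AdF C.B where
  toFun w := (fun v => prD C (FK F v) (w.1 v), fun v => prD C (IK F v) (w.2 v))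
  map_zero' := Prod.ext (funext fun _ => map_zero _) (funext fun _ => map_zero _)
  map_add' _ _ := Prod.ext (funext fun _ => map_add _ _ _) (funext fun _ => map_add _ _ _)

theorem hat_sc_sup {K : Type} [Field K] [CharZero K] [Algebra F K]
    {z : C.B.pt (AlgebraicClosure K) →₀ ℤ}
    (hz : z ∈ C.B.ratEq K (AlgebraicClosure K) ⊔ C.B.nrm K (AlgebraicClosure K)) :
    Finsupp.mapDomain (C.sc _) z ∈
      C.X.ratEq K (AlgebraicClosure K) ⊔ C.X.nrm K (AlgebraicClosure K) := by
  rw [AddSubgroup.mem_sup] at hz ⊢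
  obtain ⟨a, ha, b, hb, rfl⟩ := hz
  exact ⟨_, sc_ratEq C ha, _, sc_nrm C hb, Finsupp.mapDomain_add.symm⟩

theorem hat_pr_sup {K : Type} [Field K] [CharZero K] [Algebra F K]
    {z : C.X.pt (AlgebraicClosure K) →₀ ℤ}
    (hz : z ∈ C.X.ratEq K (AlgebraicClosure K) ⊔ C.X.nrm K (AlgebraicClosure K)) :
    Finsupp.mapDomain (C.pr _) z ∈
      C.B.ratEq K (AlgebraicClosure K) ⊔ C.B.nrm K (AlgebraicClosure K) := by
  rw [AddSubgroup.mem_sup] at hz ⊢
  obtain ⟨a, ha, b, hb, rfl⟩ := hz
  exact ⟨_, pr_ratEq C ha, _, pr_nrm C hb, Finsupp.mapDomain_add.symm⟩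

/-- The section on the groups of classes. -/
noncomputable def sG (K : Type) [Field K] [CharZero K] [Algebra F K] : Gp C.B K →+ Gp C.X K :=
  Gp.map (scD C K) fun _ h => sc_ratEq C h

/-- The section on the adelic groups. -/
noncomputable def sF : FA C.B →+ FA C.X where
  toFun x := (fun v => sG C (FK F v) (x.1 v),
    fun v => Gb.map (scD C (IK F v)) (fun _ h => hat_sc_sup C h) (x.2 v))
  map_zero' := Prod.ext (funext fun _ => map_zero _) (funext fun _ => map_zero _)
  map_add' _ _ := Prod.ext (funext fun _ => map_add _ _ _) (funext fun _ => map_add _ _ _)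

/-- The projection on the adelic groups. -/
noncomputable def pF : FA C.X →+ FA C.B where
  toFun x := (fun v => Gp.map (prD C (FK F v)) (fun _ h => pr_ratEq C h) (x.1 v),
    fun v => Gb.map (prD C (IK F v)) (fun _ h => hat_pr_sup C h) (x.2 v))
  map_zero' := Prod.ext (funext fun _ => map_zero _) (funext fun _ => map_zero _)
  map_add' _ _ := Prod.ext (funext fun _ => map_add _ _ _) (funext fun _ => map_add _ _ _)

theorem sF_cl (w : AdF C.B) : sF C (clH C.B w) = clH C.X (sA C w) := rfl

theorem pF_cl (w : AdF C.X) : pF C (clH C.X w) = clH C.B (pA C w) := rfl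

theorem pr_sc {L : Type} [Field L] [Algebra F L] (x : C.B.pt L) : C.pr L (C.sc L x) = x := by
  induction x using Quotient.inductionOn with
  | h u => rfl

theorem prD_scD {K : Type} [Field K] [CharZero K] [Algebra F K] (w : Dz C.B K) :
    prD C K (scD C K w) = w := by
  refine Subtype.ext ?_
  change Finsupp.mapDomain (C.pr _) (Finsupp.mapDomain (C.sc _) w.1) = w.1
  rw [← Finsupp.mapDomain_comp]
  have : C.pr (AlgebraicClosure K) ∘ C.sc (AlgebraicClosure K) = id := funext fun x => pr_sc C x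
  rw [this, Finsupp.mapDomain_id]

theorem pA_sA (w : AdF C.B) : pA C (sA C w) = w :=
  Prod.ext (funext fun _ => prD_scD C _) (funext fun _ => prD_scD C _)

/-- The difference of a family and its image on the section is in the kernel. -/
theorem ker_sub (c : AdF C.X) : C.Ker (c - sA C (pA C c)) := by
  have h1 : pA C (c - sA C (pA C c)) = 0 := by
    rw [map_sub, pA_sA, sub_self]
  constructor
  · intro v
    have h2 : prD C (FK F v) ((c - sA C (pA C c)).1 v) = 0 := congrFun (congrArg Prod.fst h1) v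
    have h3 : Finsupp.mapDomain (C.pr _) ((c - sA C (pA C c)).1 v).1 = 0 := congrArg Subtype.val h2
    rw [h3, Eqv, sub_zero]
    exact zero_mem _
  · intro v
    have h2 : prD C (IK F v) ((c - sA C (pA C c)).2 v) = 0 := congrFun (congrArg Prod.snd h1) v
    have h3 : Finsupp.mapDomain (C.pr _) ((c - sA C (pA C c)).2 v).1 = 0 := congrArg Subtype.val h2
    rw [h3, EqvN, sub_zero]
    exact zero_mem _

/-- The classes in the kernel are killed by `2`. -/
theorem two_ker (h : C.Ok) (c : AdF C.X) (hc : C.Ker c) : 2 • clH C.X c = 0 := by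
  rw [← map_nsmul, ← map_zero (clH C.X), clH_apply, clH_apply, clA_eq]
  constructor
  · intro v
    obtain ⟨h1, h2, -⟩ := loc_fin C v (h.fin v)
    obtain ⟨y, hy⟩ := h1 _ (c.1 v).2.1 (hc.1 v)
    have h3 := h2 y
    rw [Eqv] at hy h3 ⊢
    have h4 := add_mem (AddSubgroup.nsmul_mem _ hy 2) h3
    convert h4 using 1
    change 2 • (c.1 v).1 - 0 = _
    rw [nsmul_sub]
    abel
  · intro v
    obtain ⟨h1, h2, -⟩ := loc_inf C h v
    obtain ⟨y, hy⟩ := h1 _ (c.2 v).2.1 (hc.2 v)
    have h3 := h2 y
    rw [EqvN] at hy h3 ⊢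
    have h4 := add_mem (AddSubgroup.nsmul_mem _ hy 2) h3
    convert h4 using 1
    change 2 • (c.2 v).1 - 0 = _
    rw [nsmul_sub]
    abel

/-- The cycle `fc` as a cycle of degree `0`. -/
noncomputable def fcD (K : Type) [Field K] [CharZero K] [Algebra F K] (y : Pt C.W₂ K) : Dz C.X K :=
  ⟨C.fc K y, fc_mem C K y⟩

/-- The family of the cycles `fc` of a point over `F`. -/
noncomputable def fcA (y : Pt C.W₂ F) : AdF C.X :=
  (fun v => fcD C (FK F v) (C.toK (FK F v) y), fun v => fcD C (IK F v) (C.toK (IK F v) y))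

/-- The section commutes with base change. -/
theorem bc_sc (K : Type) [Field K] [CharZero K] [Algebra F K]
    (z : C.B.pt (AlgebraicClosure F) →₀ ℤ) :
    bc K (Finsupp.mapDomain (C.sc _) z) = Finsupp.mapDomain (C.sc _) (bc K z) := by
  unfold bc
  rw [← Finsupp.mapDomain_comp, ← Finsupp.mapDomain_comp]
  congr 1
  funext x
  induction x using Quotient.inductionOn with
  | h u =>
    change C.px (Pt.map C.W₁ (emb F K) u) (Pt.map C.W₂ (emb F K) 0) = C.px (Pt.map C.W₁ (emb F K) u) 0
    rw [map_zero]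

theorem bc_add (K : Type) [Field K] [Algebra F K] {V : Vr F}
    (z z' : V.pt (AlgebraicClosure F) →₀ ℤ) : bc K (z + z') = bc K z + bc K z' :=
  Finsupp.mapDomain_add

/-- **The completed statement.** Proof: for every `m` let `c_m` be a family of cycles which represents `z` modulo `m`, `h_m = c_m - s p c_m`. It is in the kernel (`Ker`), so its class is killed by `2` (`loc_fin`, `loc_inf`); for even `m` the class of
`h_m` is the class of `h_2` (`c_m - c_2` is `2 w` up to equivalence, and `w - s p w` is killed by `2`). A family `z'` equivalent to `h_2` is orthogonal: `z' + s p c_2` represents `z` modulo `2` (`orth_add`). `ker_glob`: `h_2` is equivalent to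
`fc y`, `y ∈ E₂(F)`. Let `x'` be as in `ImD z'`, represented modulo `m` by `c'_m`; let `x` be represented by `s c'_m + fc y` for all `m` (`LHat.map` and a constant). For even `m` this represents `z` modulo `m`; for odd `m` the classes of `h_m` and of
`fc y` are killed by `2`, so they are multiples of `m`. -/
theorem hat (h : C.Ok) (hS : C.Sel) (z : LHat (FA C.X)) (z' : LHat (FA C.B)) (hz : C.IsPf z z')
    (hz' : ImD z') (ho : ∀ c : AdF C.X, z.Rep 2 (clA c) → C.Orth c) : ImD z := by
  -- representatives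
  have hrep : ∀ m : ℕ+, ∃ c : AdF C.X, z.Rep m (clH C.X c) := by
    intro m
    obtain ⟨a, ha⟩ := z.exists_rep m
    obtain ⟨c, hc⟩ := clA_surj a
    exact ⟨c, by rw [clH_apply, hc]; exact ha⟩
  choose c hc using hrep
  -- projection to the kernel on classes
  have hker : ∀ x : FA C.X, 2 • (x - sF C (pF C x)) = 0 := by
    intro x
    obtain ⟨w, rfl⟩ := clA_surj x
    have := two_ker C h _ (ker_sub C w)
    rw [map_sub] at this
    exact this
  have h2c : ∀ m : ℕ+, (2 : ℕ+) ∣ m → clH C.X (c m) - sF C (pF C (clH C.X (c m))) =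
      clH C.X (c 2) - sF C (pF C (clH C.X (c 2))) := by
    intro m hm
    have h1 : z.Rep 2 (clH C.X (c m)) := z.2 2 m hm _ (hc m)
    obtain ⟨w, hw⟩ := rep_sub h1 (hc 2)
    have h3 := hker w
    have h4 : ((2 : ℕ+) : ℕ) = 2 := rfl
    rw [h4] at hw
    rw [hw, map_add, map_add, map_nsmul, map_nsmul]
    rw [nsmul_sub] at h3
    have h5 : clH C.X (c 2) + 2 • w - (sF C (pF C (clH C.X (c 2))) + 2 • sF C (pF C w)) =
        clH C.X (c 2) - sF C (pF C (clH C.X (c 2))) + (2 • w - 2 • sF C (pF C w)) := by abel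
    rw [h5, h3, add_zero]
  -- orthogonality
  have horth : ∀ z'', C.EqvA (c 2 - sA C (pA C (c 2))) z'' → C.Orth z'' := by
    intro z'' he
    have h1 : clA (c 2 - sA C (pA C (c 2))) = clA z'' := clA_eq.2 he
    have h2 : clH C.X (z'' + sA C (pA C (c 2))) = clH C.X (c 2) := by
      rw [map_add, clH_apply z'', ← h1, ← clH_apply, map_sub, sub_add_cancel]
    have h3 : z.Rep 2 (clA (z'' + sA C (pA C (c 2)))) := by
      rw [← clH_apply, h2]
      exact hc 2
    exact (orth_add C z'' _ (pA C (c 2)) (fun _ => rfl) (fun _ => rfl)).1 (ho _ h3)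
  obtain ⟨y, hy1, hy2⟩ := ker_glob C h hS _ (ker_sub C (c 2)) horth
  have hy : clH C.X (c 2) - sF C (pF C (clH C.X (c 2))) = clH C.X (fcA C y) := by
    have h1 : clA (c 2 - sA C (pA C (c 2))) = clA (fcA C y) := clA_eq.2 ⟨hy1, hy2⟩
    rw [← clH_apply, ← clH_apply, map_sub] at h1
    exact h1
  have hfc2 : 2 • clH C.X (fcA C y) = 0 := by
    rw [← hy]
    exact hker _
  obtain ⟨x', hx'⟩ := hz'
  refine ⟨LHat.tr (LHat.map (sG C F) x') (Gp.cls (fcD C F y)), fun m => ?_⟩
  obtain ⟨b, b', hbc, hb1, hb2⟩ := hx' m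
  refine ⟨scD C F b + fcD C F y, sA C b' + fcA C y, ?_, ?_, ?_⟩
  · constructor
    · intro v
      change Finsupp.mapDomain (C.sc _) (b'.1 v).1 + C.fc (FK F v) (C.toK (FK F v) y) =
        bc (FK F v) (Finsupp.mapDomain (C.sc _) b.1 + C.fc F y)
      rw [bc_add, bc_sc, bc_fc, hbc.1 v]
    · intro v
      change Finsupp.mapDomain (C.sc _) (b'.2 v).1 + C.fc (IK F v) (C.toK (IK F v) y) =
        bc (IK F v) (Finsupp.mapDomain (C.sc _) b.1 + C.fc F y)
      rw [bc_add, bc_sc, bc_fc, hbc.2 v]
  · have h1 := rep_tr (hb1.map (sG C F)) (Gp.cls (fcD C F y))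
    exact h1
  · -- the class of the family represents `z` modulo `m`
    have hpf : z'.Rep m (clA (pA C (c m))) :=
      hz m (c m) (pA C (c m)) ⟨fun _ => rfl, fun _ => rfl⟩ (hc m)
    obtain ⟨w, hw⟩ := rep_sub hb2 hpf
    have hsw : sF C (clH C.B b') = sF C (pF C (clH C.X (c m))) + (m : ℕ) • sF C w := by
      rw [pF_cl, ← map_nsmul, ← map_add]
      exact congrArg (sF C) hw
    have hkey : ∃ w' : FA C.X, clH C.X (fcA C y) =
        clH C.X (c m) - sF C (pF C (clH C.X (c m))) + (m : ℕ) • w' := by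
      rcases Nat.even_or_odd (m : ℕ) with hm | hm
      · refine ⟨0, ?_⟩
        rw [h2c m (PNat.dvd_iff.2 hm.two_dvd), hy, smul_zero, add_zero]
      · obtain ⟨k, hk⟩ := hm
        refine ⟨clH C.X (fcA C y) - (clH C.X (c m) - sF C (pF C (clH C.X (c m)))), ?_⟩
        have h3 := hker (clH C.X (c m))
        have h4 : (m : ℕ) • (clH C.X (fcA C y) -
            (clH C.X (c m) - sF C (pF C (clH C.X (c m))))) = clH C.X (fcA C y) -
            (clH C.X (c m) - sF C (pF C (clH C.X (c m)))) := by
          rw [hk, add_smul, one_smul, mul_comm, mul_smul, nsmul_sub (a := clH C.X (fcA C y)), hfc2,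
            h3, sub_zero, smul_zero, zero_add]
        rw [h4]
        abel
    obtain ⟨w', hw'⟩ := hkey
    have h5 : clA (sA C b' + fcA C y) = clH C.X (c m) + (m : ℕ) • (sF C w + w') := by
      rw [← clH_apply, map_add, ← sF_cl, hsw, hw', smul_add]
      abel
    rw [h5]
    exact rep_add (hc m) _

end BE
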