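import Pool.Agent.Lib.MP_f80667_ag.Be.HfT

/-! Descent: halves in `E₂` and its twists. -/

open ZC Polynomial IntermediateField

namespace BE

section poly

/-- The Chinese remainder theorem for square roots modulo a squarefree polynomial. -/
theorem HfH_crt {M : Type} [Field M] (h f : M[X]) (hf : Squarefree f)
    (H : ∀ p : M[X], Irreducible p → p ∣ f → ∃ s : M[X], p ∣ s ^ 2 - h) :
    ∃ s : M[X], f ∣ s ^ 2 - h := by
  classical
  revert hf H
  refine UniqueFactorizationMonoid.induction_on_coprime (P := fun f : M[X] => Squarefree f →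
    (∀ p : M[X], Irreducible p → p ∣ f → ∃ s : M[X], p ∣ s ^ 2 - h) → ∃ s : M[X], f ∣ s ^ 2 - h)
    f ?_ ?_ ?_ ?_
  · intro h0
    exact absurd h0 not_squarefree_zero
  · intro x hx _ _
    exact ⟨0, hx.dvd⟩
  · intro p i hp hsq H
    match i with
    | 0 => exact ⟨0, by rw [pow_zero]; exact one_dvd _⟩
    | 1 =>
      rw [pow_one] at *
      exact H p hp.irreducible dvd_rfl
    | i + 2 =>
      exact absurd (hsq p ⟨p ^ i, by ring⟩) hp.not_isUnit
  · intro x y hxy hx hy hsq H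
    obtain ⟨s₁, h₁⟩ := hx (hsq.squarefree_of_dvd (dvd_mul_right x y))
      fun p hp hpx => H p hp (hpx.mul_right y)
    obtain ⟨s₂, h₂⟩ := hy (hsq.squarefree_of_dvd (dvd_mul_left y x))
      fun p hp hpx => H p hp (hpx.mul_left x)
    have hc : IsCoprime x y := hxy.isCoprime
    obtain ⟨a, b, hab⟩ := id hc
    refine ⟨s₁ * (b * y) + s₂ * (a * x), hc.mul_dvd ?_ ?_⟩
    · obtain ⟨c, hc⟩ := h₁
      refine ⟨(s₂ - s₁) * a * (s₁ * (b * y) + s₂ * (a * x) + s₁) + c, ?_⟩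
      linear_combination hc + s₁ * (s₁ * (b * y) + s₂ * (a * x) + s₁) * hab
    · obtain ⟨c, hc⟩ := h₂
      refine ⟨(s₁ - s₂) * b * (s₁ * (b * y) + s₂ * (a * x) + s₂) + c, ?_⟩
      linear_combination hc + s₂ * (s₁ * (b * y) + s₂ * (a * x) + s₂) * hab

/-- An element of `M(e)` is a polynomial in `e`. -/
theorem HfH_pol {K Ω : Type} [Field K] [Field Ω] [Algebra K Ω] [Algebra.IsAlgebraic K Ω]
    (M : IntermediateField K Ω) (e x : Ω) (hx : x ∈ M ⊔ IntermediateField.adjoin K {e}) :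
    ∃ s : M[X], aeval e s = x := by
  have h1 : M ⊔ IntermediateField.adjoin K {e} =
      (IntermediateField.adjoin M {e}).restrictScalars K := by
    rw [IntermediateField.restrictScalars_adjoin]
    apply le_antisymm
    · refine sup_le ?_ ?_
      · exact fun z hz => IntermediateField.subset_adjoin K _ (Or.inl hz)
      · exact IntermediateField.adjoin.mono K _ _ (Set.subset_union_right)
    · rw [IntermediateField.adjoin_le_iff]
      rintro z (hz | hz)
      · exact (le_sup_left : M ≤ _) hz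
      · exact (le_sup_right : IntermediateField.adjoin K {e} ≤ _)
          (IntermediateField.subset_adjoin K _ hz)
  rw [h1, IntermediateField.mem_restrictScalars] at hx
  have h2 : IsAlgebraic M e := by
    have : IsIntegral K e := Algebra.IsIntegral.isIntegral e
    exact this.tower_top.isAlgebraic
  have h3 : x ∈ (IntermediateField.adjoin M {e}).toSubalgebra := hx
  rw [IntermediateField.adjoin_simple_toSubalgebra_of_isAlgebraic h2,
    Algebra.adjoin_singleton_eq_range_aeval] at h3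
  obtain ⟨s, hs⟩ := h3
  exact ⟨s, hs⟩

/-- Square roots of the values of `h` at the roots of `g` are values of a polynomial. -/
theorem HfH_s {K Ω : Type} [Field K] [Field Ω] [Algebra K Ω] [Algebra.IsAlgebraic K Ω]
    [IsAlgClosed Ω] (M : IntermediateField K Ω) (g h : M[X]) (hg : Squarefree g)
    (H : ∀ e : Ω, aeval e g = 0 → aeval e h = 0 ∨
      ∃ x ∈ M ⊔ IntermediateField.adjoin K {e}, aeval e h = x ^ 2) :
    ∃ s : M[X], ∀ e : Ω, aeval e g = 0 → (aeval e s) ^ 2 = aeval e h := by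
  obtain ⟨s, hs⟩ := HfH_crt h g hg (by
    intro p hp hpg
    obtain ⟨e, he⟩ := IsAlgClosed.exists_aeval_eq_zero Ω p
      (Polynomial.degree_pos_of_irreducible hp).ne'
    have hint : IsIntegral M e := by
      have : IsIntegral K e := Algebra.IsIntegral.isIntegral e
      exact this.tower_top
    have hpd : ∀ q : M[X], aeval e q = 0 → p ∣ q := fun q hq =>
      ((minpoly.irreducible hint).dvd_symm hp (minpoly.dvd M e he)).trans (minpoly.dvd M e hq)
    have heg : aeval e g = 0 := by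
      obtain ⟨q, rfl⟩ := hpg
      rw [map_mul, he, zero_mul]
    rcases H e heg with h0 | ⟨x, hx, h0⟩
    · exact ⟨0, hpd _ (by rw [map_sub, map_pow, map_zero, h0]; ring)⟩
    · obtain ⟨s, hs⟩ := HfH_pol M e x hx
      exact ⟨s, hpd _ (by rw [map_sub, map_pow, hs, h0, sub_self])⟩)
  refine ⟨s, fun e he => ?_⟩
  obtain ⟨q, hq⟩ := hs
  have h1 := congrArg (aeval e) hq
  rw [map_sub, map_pow, map_mul, he, zero_mul] at h1
  exact sub_eq_zero.1 h1

end poly

section cub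

variable {F : Type} [Field F] {Ω : Type} [Field Ω] [Algebra F Ω] [CharZero Ω] [IsAlgClosed Ω]
  (C : Cf F)

omit [IsAlgClosed Ω] in
theorem HfH_sep : (C.g.map (algebraMap F Ω)).Separable := by
  have hD : algebraMap F Ω (C.c₂ ^ 2 * C.c₁ ^ 2 - 4 * C.c₁ ^ 3 - 4 * C.c₂ ^ 3 * C.c₀ -
      27 * C.c₀ ^ 2 + 18 * C.c₂ * C.c₁ * C.c₀) ≠ 0 := by
    rw [Ne, map_eq_zero]
    exact C.hc
  simp only [map_add, map_sub, map_mul, map_pow, map_ofNat] at hD
  have hg : C.g.map (algebraMap F Ω) = Polynomial.X ^ 3 +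
      Polynomial.C (algebraMap F Ω C.c₂) * Polynomial.X ^ 2 +
      Polynomial.C (algebraMap F Ω C.c₁) * Polynomial.X + Polynomial.C (algebraMap F Ω C.c₀) := by
    simp [Cf.g]
  rw [hg]
  generalize algebraMap F Ω C.c₂ = a at *
  generalize algebraMap F Ω C.c₁ = b at *
  generalize algebraMap F Ω C.c₀ = c at *
  set D := a ^ 2 * b ^ 2 - 4 * b ^ 3 - 4 * a ^ 3 * c - 27 * c ^ 2 + 18 * a * b * c with hDdef
  have hder : derivative (Polynomial.X ^ 3 + Polynomial.C a * Polynomial.X ^ 2 +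
      Polynomial.C b * Polynomial.X + Polynomial.C c : Polynomial Ω) =
      3 * Polynomial.X ^ 2 + 2 * Polynomial.C a * Polynomial.X + Polynomial.C b := by
    simp only [derivative_add, derivative_mul, derivative_C, derivative_X_pow, derivative_X]
    simp only [Nat.cast_ofNat, map_ofNat]
    ring
  have h9 : Polynomial.C ((-9 * D)⁻¹) * (-9 * ((Polynomial.C a) ^ 2 * (Polynomial.C b) ^ 2 -
      4 * (Polynomial.C b) ^ 3 - 4 * (Polynomial.C a) ^ 3 * Polynomial.C c -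
      27 * (Polynomial.C c) ^ 2 + 18 * Polynomial.C a * Polynomial.C b * Polynomial.C c)) =
      (1 : Polynomial Ω) := by
    have h1 : (-9 * D)⁻¹ * (-9 * D) = 1 := inv_mul_cancel₀ (mul_ne_zero (by norm_num) hD)
    have h2 := congrArg (fun z => Polynomial.C z) h1
    rw [hDdef] at h2 ⊢
    simp only [map_mul, map_add, map_sub, map_pow, map_ofNat, map_neg, map_one] at h2 ⊢
    exact h2
  rw [Polynomial.Separable, hder]
  refine ⟨Polynomial.C ((-9 * D)⁻¹) * (-9 * (3 * (6 * Polynomial.C b - 2 * Polynomial.C a ^ 2) *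
      Polynomial.X + (2 * Polynomial.C a * (6 * Polynomial.C b - 2 * Polynomial.C a ^ 2) -
      3 * (9 * Polynomial.C c - Polynomial.C a * Polynomial.C b)))),
    Polynomial.C ((-9 * D)⁻¹) * ((6 * Polynomial.C b - 2 * Polynomial.C a ^ 2) ^ 2 +
      (3 * (6 * Polynomial.C b - 2 * Polynomial.C a ^ 2) *
      Polynomial.X + (2 * Polynomial.C a * (6 * Polynomial.C b - 2 * Polynomial.C a ^ 2) -
      3 * (9 * Polynomial.C c - Polynomial.C a * Polynomial.C b))) *
      (3 * Polynomial.X + Polynomial.C a)), ?_⟩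
  linear_combination h9

theorem HfH_roots : ∃ e₁ e₂ e₃ : Ω, e₁ ≠ e₂ ∧ e₁ ≠ e₃ ∧ e₂ ≠ e₃ ∧
    algebraMap F Ω C.c₂ = -(e₁ + e₂ + e₃) ∧
    algebraMap F Ω C.c₁ = e₁ * e₂ + e₁ * e₃ + e₂ * e₃ ∧
    algebraMap F Ω C.c₀ = -(e₁ * e₂ * e₃) := by
  classical
  have hg : C.g.map (algebraMap F Ω) = Polynomial.X ^ 3 +
      Polynomial.C (algebraMap F Ω C.c₂) * Polynomial.X ^ 2 +
      Polynomial.C (algebraMap F Ω C.c₁) * Polynomial.X + Polynomial.C (algebraMap F Ω C.c₀) := by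
    simp [Cf.g]
  have hD : algebraMap F Ω (C.c₂ ^ 2 * C.c₁ ^ 2 - 4 * C.c₁ ^ 3 - 4 * C.c₂ ^ 3 * C.c₀ -
      27 * C.c₀ ^ 2 + 18 * C.c₂ * C.c₁ * C.c₀) ≠ 0 := by
    rw [Ne, map_eq_zero]
    exact C.hc
  simp only [map_add, map_sub, map_mul, map_pow, map_ofNat] at hD
  have hdeg : (C.g.map (algebraMap F Ω)).natDegree = 3 := by
    rw [hg]
    compute_degree!
  have hmon : (C.g.map (algebraMap F Ω)).Monic := by
    rw [hg]
    monicity!
  have hsp := IsAlgClosed.splits (C.g.map (algebraMap F Ω))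
  have hcard : (C.g.map (algebraMap F Ω)).roots.card = 3 := by
    rw [← hsp.natDegree_eq_card_roots, hdeg]
  obtain ⟨e₁, e₂, e₃, he⟩ := Multiset.card_eq_three.1 hcard
  have hprod := hsp.eq_prod_roots_of_monic hmon
  rw [he] at hprod
  simp only [Multiset.insert_eq_cons, Multiset.map_cons, Multiset.map_singleton,
    Multiset.prod_cons, Multiset.prod_singleton] at hprod
  rw [hg] at hprod
  have ev : ∀ x : Ω, x ^ 3 + algebraMap F Ω C.c₂ * x ^ 2 + algebraMap F Ω C.c₁ * x +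
      algebraMap F Ω C.c₀ = (x - e₁) * ((x - e₂) * (x - e₃)) := by
    intro x
    have := congrArg (Polynomial.eval x) hprod
    simpa using this
  have h0 := ev 0
  have h1 := ev 1
  have h2 := ev (-1)
  have k0 : algebraMap F Ω C.c₀ = -(e₁ * e₂ * e₃) := by linear_combination h0
  have k2 : algebraMap F Ω C.c₂ = -(e₁ + e₂ + e₃) := by
    linear_combination (1 / 2 : Ω) * h1 + (1 / 2 : Ω) * h2 - h0
  have k1 : algebraMap F Ω C.c₁ = e₁ * e₂ + e₁ * e₃ + e₂ * e₃ := by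
    linear_combination (1 / 2 : Ω) * h1 - (1 / 2 : Ω) * h2
  rw [k0, k1, k2] at hD
  refine ⟨e₁, e₂, e₃, ?_, ?_, ?_, k2, k1, k0⟩
  · rintro rfl
    exact hD (by ring)
  · rintro rfl
    exact hD (by ring)
  · rintro rfl
    exact hD (by ring)

end cub

section pts

variable {F : Type} [Field F] {W : WeierstrassCurve F} {L : Type} [Field L] [Algebra F L]

theorem HfH_inj {x y x' y' : L} {h : (W.baseChange L).toAffine.Nonsingular x y}
    {h' : (W.baseChange L).toAffine.Nonsingular x' y'} :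
    (Pt.aff x y h : Pt W L) = Pt.aff x' y' h' ↔ x = x' ∧ y = y' := by
  constructor
  · intro he
    have := WeierstrassCurve.Affine.Point.some.inj he
    exact this
  · rintro ⟨rfl, rfl⟩
    rfl

theorem HfH_neg (ha₁ : W.a₁ = 0) (ha₃ : W.a₃ = 0) {x y : L}
    (h : (W.baseChange L).toAffine.Nonsingular x y) :
    ∃ h', -(Pt.aff x y h : Pt W L) = Pt.aff x (-y) h' := by
  have h0 : (W.baseChange L).toAffine.negY x y = -y := by
    simp [WeierstrassCurve.Affine.negY, WeierstrassCurve.baseChange, WeierstrassCurve.map, ha₁, ha₃]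
  have h1 : (W.baseChange L).toAffine.Nonsingular x (-y) := by
    rw [← h0]
    exact (WeierstrassCurve.Affine.nonsingular_neg ..).2 h
  refine ⟨h1, ?_⟩
  have h2 : -(Pt.aff x y h : Pt W L) = Pt.aff x ((W.baseChange L).toAffine.negY x y)
      ((WeierstrassCurve.Affine.nonsingular_neg ..).2 h) := rfl
  rw [h2, HfH_inj]
  exact ⟨rfl, h0⟩

/-- Doubling. -/
theorem HfH_dbl (ha₁ : W.a₁ = 0) (ha₃ : W.a₃ = 0) {x y x' y' l : L}
    (n : (W.baseChange L).toAffine.Nonsingular x y)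
    (n' : (W.baseChange L).toAffine.Nonsingular x' y') (hy : y + y ≠ 0)
    (hl : (y + y) * l = 3 * x ^ 2 + 2 * algebraMap F L W.a₂ * x + algebraMap F L W.a₄)
    (hx' : x' = l ^ 2 - algebraMap F L W.a₂ - x - x) (hy' : y' = -(y + l * (x' - x))) :
    (Pt.aff x y n + Pt.aff x y n : Pt W L) = Pt.aff x' y' n' := by
  classical
  have hneg : ∀ x y : L, (W.baseChange L).toAffine.negY x y = -y := by
    intro x y
    simp [WeierstrassCurve.Affine.negY, WeierstrassCurve.baseChange, WeierstrassCurve.map, ha₁, ha₃]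
  have hxy : ¬ (x = x ∧ y = (W.baseChange L).toAffine.negY x y) := by
    rintro ⟨-, h2⟩
    rw [hneg] at h2
    exact hy (by linear_combination h2)
  have hadd : (Pt.aff x y n + Pt.aff x y n : Pt W L) = Pt.aff _ _
      (WeierstrassCurve.Affine.nonsingular_add n n hxy) :=
    WeierstrassCurve.Affine.Point.add_some (W := (W.baseChange L).toAffine) (h₁ := n) (h₂ := n) hxy
  have hs : (W.baseChange L).toAffine.slope x x y y = l := by
    rw [WeierstrassCurve.Affine.slope_of_Y_ne rfl (fun h => hxy ⟨rfl, h⟩), hneg, sub_neg_eq_add,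
      div_eq_iff hy]
    simp only [WeierstrassCurve.baseChange, WeierstrassCurve.map, ha₁, map_zero]
    linear_combination -hl
  have hX : (W.baseChange L).toAffine.addX x x ((W.baseChange L).toAffine.slope x x y y) = x' := by
    rw [hs, hx']
    simp only [WeierstrassCurve.Affine.addX, WeierstrassCurve.baseChange, WeierstrassCurve.map, ha₁,
      map_zero]
    ring
  have hY : (W.baseChange L).toAffine.addY x x y
      ((W.baseChange L).toAffine.slope x x y y) = y' := by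
    rw [WeierstrassCurve.Affine.addY, hneg, WeierstrassCurve.Affine.negAddY, hX, hs, hy']
    ring
  rw [hadd, HfH_inj]
  exact ⟨hX, hY⟩

end pts

section perm

/-- Symmetric functions of conjugate elements. -/
theorem HfH_perm {Ω : Type} [Field Ω] {γ : Ω → Ω} (inj : Function.Injective γ) (f : Ω → Ω)
    {e₁ e₂ e₃ : Ω} (h12 : e₁ ≠ e₂) (h13 : e₁ ≠ e₃) (h23 : e₂ ≠ e₃)
    (h1 : γ e₁ = e₁ ∨ γ e₁ = e₂ ∨ γ e₁ = e₃) (h2 : γ e₂ = e₁ ∨ γ e₂ = e₂ ∨ γ e₂ = e₃)
    (h3 : γ e₃ = e₁ ∨ γ e₃ = e₂ ∨ γ e₃ = e₃) :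
    f (γ e₁) * f (γ e₂) + f (γ e₁) * f (γ e₃) + f (γ e₂) * f (γ e₃) =
      f e₁ * f e₂ + f e₁ * f e₃ + f e₂ * f e₃ ∧
    (f (γ e₁) + f (γ e₂)) * (f (γ e₁) + f (γ e₃)) * (f (γ e₂) + f (γ e₃)) =
      (f e₁ + f e₂) * (f e₁ + f e₃) * (f e₂ + f e₃) := by
  rcases h1 with h1 | h1 | h1 <;> rcases h2 with h2 | h2 | h2 <;>
    rcases h3 with h3 | h3 | h3 <;>
    first
    | exact absurd (inj (h1.trans h2.symm)) h12
    | exact absurd (inj (h1.trans h3.symm)) h13
    | exact absurd (inj (h2.trans h3.symm)) h23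
    | (rw [h1, h2, h3]; constructor <;> ring)

end perm

section main

variable {F : Type} [Field F] {K : Type} [Field K] [CharZero K] [Algebra F K] {Ω : Type} [Field Ω]
  [Algebra K Ω] [Algebra F Ω] [IsScalarTower F K Ω] [IsAlgClosure K Ω] (C : Cf F)

omit [CharZero K] [IsAlgClosure K Ω] in
theorem HfH_tow (M : IntermediateField K Ω) : IsScalarTower F M Ω :=
  IsScalarTower.of_algebraMap_eq fun _ => rfl

/-- `exists_r` over `M`. -/
theorem HfH_r {M : IntermediateField K Ω} {u : Pt C.W₁ Ω}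
    (hu : (C.dt K Ω).UU M.fixingSubgroup u) :
    ∃ r : Ω, r ≠ 0 ∧ r ^ 2 = C.kap Ω u ∧ ∀ γ ∈ M.fixingSubgroup,
      (γ • u = u → γ r = r) ∧ (γ • u = u + C.t Ω → γ r = - r) := by
  have hcl : IsAlgClosed Ω := IsAlgClosure.isAlgClosed K
  have halg : Algebra.IsAlgebraic K Ω := IsAlgClosure.isAlgebraic
  have halg' : Algebra.IsAlgebraic M Ω := Algebra.IsAlgebraic.tower_top (K := K) M
  have hM : IsAlgClosure M Ω := ⟨hcl, halg'⟩
  have htow : IsScalarTower F M Ω := HfH_tow M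
  obtain ⟨r, hr, hr2, -, h⟩ := exists_r (K := M) C (u := u) (by
    intro γ
    have h1 : γ.restrictScalars K ∈ M.fixingSubgroup := by
      rw [IntermediateField.mem_fixingSubgroup_iff]
      intro x hx
      exact γ.commutes ⟨x, hx⟩
    exact hu (γ.restrictScalars K) h1)
  refine ⟨r, hr, hr2, fun γ hγ => ?_⟩
  exact h (IntermediateField.fixingSubgroupEquiv M ⟨γ, hγ⟩)

/-- Conjugate square roots of `w - e`. -/
theorem HfH_f {M : IntermediateField K Ω} {u : Pt C.W₁ Ω} {w v : Ω}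
    {n : ((C.W₂).baseChange Ω).toAffine.Nonsingular w v}
    (hP : ∀ γ ∈ M.fixingSubgroup, (γ • u = u ∧ γ w = w ∧ γ v = v) ∨
      (γ • u = u + C.t Ω ∧ γ w = w ∧ γ v = -v))
    (hs : ∀ e : Ω, aeval e C.g = 0 → SqM (Me M e) (C.th0 Ω e u (Pt.aff w v n))) :
    ∃ f : Ω → Ω, (∀ e : Ω, aeval e C.g = 0 → f e ^ 2 = w - e) ∧
      ∀ γ ∈ M.fixingSubgroup, (γ • u = u → ∀ e, γ (f e) = f (γ e)) ∧
        (γ • u = u + C.t Ω → ∀ e, γ (f e) = - f (γ e)) := by
  classical
  have hcl : IsAlgClosed Ω := IsAlgClosure.isAlgClosed K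
  have halg : Algebra.IsAlgebraic K Ω := IsAlgClosure.isAlgebraic
  have hch : CharZero Ω := charZero_of_injective_algebraMap (algebraMap K Ω).injective
  obtain ⟨r, hr, hr2, hrγ⟩ := HfH_r C (M := M) (u := u) (fun γ hγ => by
    rcases hP γ hγ with h1 | h1
    · exact Or.inl h1.1
    · exact Or.inr h1.1)
  have hr2' : r ^ 2 ≠ 0 := pow_ne_zero 2 hr
  have htow : IsScalarTower F M Ω := HfH_tow M
  have hκM : r ^ 2 ∈ M := mem_of_fix M fun γ hγ => by
    rw [map_pow]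
    rcases hP γ hγ with h1 | h1
    · rw [(hrγ γ hγ).1 h1.1]
    · rw [(hrγ γ hγ).2 h1.1, neg_sq]
  have hwM : w ∈ M := mem_of_fix M fun γ hγ => by
    rcases hP γ hγ with h1 | h1
    · exact h1.2.1
    · exact h1.2.1
  have hsepM : (C.g.map (algebraMap F M)).Separable := by
    have h1 := HfH_sep (Ω := Ω) C
    rw [IsScalarTower.algebraMap_eq F M Ω, ← Polynomial.map_map, Polynomial.separable_map] at h1
    exact h1
  have hgM : ∀ e : Ω, aeval e (C.g.map (algebraMap F M)) = aeval e C.g := fun e =>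
    Polynomial.aeval_map_algebraMap M e C.g
  have hh : ∀ e : Ω, aeval e (Polynomial.C (⟨r ^ 2, hκM⟩ : M) *
      (Polynomial.C (⟨w, hwM⟩ : M) - Polynomial.X)) = r ^ 2 * (w - e) := by
    intro e
    rw [map_mul, map_sub, aeval_C, aeval_C, aeval_X]
    rfl
  obtain ⟨s, hs'⟩ := HfH_s M (C.g.map (algebraMap F M)) (Polynomial.C (⟨r ^ 2, hκM⟩ : M) *
      (Polynomial.C (⟨w, hwM⟩ : M) - Polynomial.X)) hsepM.squarefree (by
    intro e he
    rw [hgM] at he
    rw [hh]
    by_cases hwe : w = e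
    · left
      rw [hwe, sub_self, mul_zero]
    · right
      obtain ⟨x, hx, hx2⟩ := hs e he
      refine ⟨x, hx, ?_⟩
      rw [← hx2, hr2]
      exact (if_neg hwe).symm)
  refine ⟨fun e => aeval e s / r, ?_, ?_⟩
  · intro e he
    have h1 := hs' e (by rw [hgM]; exact he)
    rw [hh] at h1
    rw [div_pow, h1, mul_div_cancel_left₀ _ hr2']
  · intro γ hγ
    have hγs : ∀ e : Ω, γ (aeval e s) = aeval (γ e) s := by
      intro e
      exact (Polynomial.aeval_algHom_apply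
        ((IntermediateField.fixingSubgroupEquiv M ⟨γ, hγ⟩ : Ω ≃ₐ[M] Ω) : Ω →ₐ[M] Ω) e s).symm
    constructor
    · intro h1 e
      rw [map_div₀, hγs, (hrγ γ hγ).1 h1]
    · intro h1 e
      rw [map_div₀, hγs, (hrγ γ hγ).2 h1, div_neg]

/-- **Halves.** A point all of whose classes are squares is the double of a point. Proof: let `r`, `κ` be as in `exists_r`
over `M`, `y = (w, v)`; `κ (w - e) = s_e²` with `s_e ∈ M(e)`, conjugate for conjugate roots `e` (choose one root in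
every orbit), with signs such that `∏ s_e = r³ v` (if `w = e` the value `0` is used; the class of `g'(e)` is
that of the product of the other two). The point with `w' = w + (s₁ s₂ + s₁ s₃ + s₂ s₃) / κ` is a
half of `y`. -/
theorem half₂ {M : IntermediateField K Ω} {u : Pt C.W₁ Ω} {y : Pt C.W₂ Ω}
    (h : (C.dt K Ω).PP M.fixingSubgroup u y)
    (hs : ∀ e : Ω, aeval e C.g = 0 → SqM (Me M e) (C.th0 Ω e u y)) :
    ∃ y' : Pt C.W₂ Ω, (C.dt K Ω).PP M.fixingSubgroup u y' ∧ y' + y' = y := by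
  classical
  have hcl : IsAlgClosed Ω := IsAlgClosure.isAlgClosed K
  have hch : CharZero Ω := charZero_of_injective_algebraMap (algebraMap K Ω).injective
  rcases Pt.cases' y with rfl | ⟨w, v, n, rfl⟩
  · exact ⟨0, h, add_zero 0⟩
  have ha₁ : C.W₂.a₁ = 0 := rfl
  have ha₃ : C.W₂.a₃ = 0 := rfl
  have htt : C.t Ω + C.t Ω = 0 := C.two_t Ω
  have hP : ∀ γ ∈ M.fixingSubgroup, (γ • u = u ∧ γ w = w ∧ γ v = v) ∨
      (γ • u = u + C.t Ω ∧ γ w = w ∧ γ v = -v) := by
    intro γ hγ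
    have h1 : C.px (γ • u) (γ • (Pt.aff w v n : Pt C.W₂ Ω)) = C.px u (Pt.aff w v n) := h γ hγ
    rw [C.px_eq_iff] at h1
    rcases h1 with ⟨h1, h2⟩ | ⟨h1, h2⟩
    · exact Or.inl ⟨h1.symm, (Gal_smul_aff n γ).1 h2.symm⟩
    · refine Or.inr ⟨?_, ?_⟩
      · calc γ • u = γ • u + C.t Ω + C.t Ω := by rw [add_assoc, htt, add_zero]
          _ = u + C.t Ω := by rw [← h1]
      · obtain ⟨n', hn'⟩ : ∃ n', γ • (Pt.aff w v n : Pt C.W₂ Ω) = Pt.aff (γ w) (γ v) n' := ⟨_, rfl⟩
        obtain ⟨n'', hn''⟩ := HfH_neg ha₁ ha₃ n'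
        rw [hn', hn'', HfH_inj] at h2
        exact ⟨h2.1.symm, by linear_combination h2.2⟩
  obtain ⟨f, hf, hfγ⟩ := HfH_f C hP hs
  obtain ⟨e₁, e₂, e₃, h12, h13, h23, k2, k1, k0⟩ := HfH_roots (Ω := Ω) C
  have hg : ∀ x : Ω, aeval x C.g = (x - e₁) * (x - e₂) * (x - e₃) := by
    intro x
    simp only [Cf.g, map_add, map_mul, map_pow, aeval_X, aeval_C]
    rw [k2, k1, k0]
    ring
  have q1 := hf e₁ (by rw [hg]; ring)
  have q2 := hf e₂ (by rw [hg]; ring)
  have q3 := hf e₃ (by rw [hg]; ring)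
  have hv : v ^ 2 = (w - e₁) * (w - e₂) * (w - e₃) := by
    have h1 := n.1
    rw [WeierstrassCurve.Affine.equation_iff] at h1
    simp only [Cf.W₂, WeierstrassCurve.baseChange, WeierstrassCurve.map, map_zero] at h1
    rw [k2, k1, k0] at h1
    linear_combination h1
  -- the sign
  obtain ⟨f, q1, q2, q3, q, hfγ⟩ : ∃ f : Ω → Ω, f e₁ ^ 2 = w - e₁ ∧ f e₂ ^ 2 = w - e₂ ∧
      f e₃ ^ 2 = w - e₃ ∧ f e₁ * f e₂ * f e₃ = v ∧
      ∀ γ ∈ M.fixingSubgroup, (γ • u = u → ∀ e, γ (f e) = f (γ e)) ∧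
        (γ • u = u + C.t Ω → ∀ e, γ (f e) = - f (γ e)) := by
    have h1 : (f e₁ * f e₂ * f e₃) ^ 2 = v ^ 2 := by
      rw [hv, ← q1, ← q2, ← q3]
      ring
    rcases sq_eq_sq_iff_eq_or_eq_neg.1 h1 with h2 | h2
    · exact ⟨f, q1, q2, q3, h2, hfγ⟩
    · refine ⟨fun e => - f e, ?_, ?_, ?_, ?_, fun γ hγ => ⟨fun h3 e => ?_, fun h3 e => ?_⟩⟩
      · rw [neg_sq, q1]
      · rw [neg_sq, q2]
      · rw [neg_sq, q3]
      · linear_combination - h2
      · rw [map_neg, (hfγ γ hγ).1 h3]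
      · rw [map_neg, (hfγ γ hγ).2 h3]
  -- the half
  have d12 : f e₁ + f e₂ ≠ 0 := by
    intro h0
    exact h12 (by linear_combination q1 - q2 - (f e₁ - f e₂) * h0)
  have d13 : f e₁ + f e₃ ≠ 0 := by
    intro h0
    exact h13 (by linear_combination q1 - q3 - (f e₁ - f e₃) * h0)
  have d23 : f e₂ + f e₃ ≠ 0 := by
    intro h0
    exact h23 (by linear_combination q2 - q3 - (f e₂ - f e₃) * h0)
  have b1 : w + (f e₁ * f e₂ + f e₁ * f e₃ + f e₂ * f e₃) - e₁ = (f e₁ + f e₂) * (f e₁ + f e₃) := by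
    linear_combination - q1
  have b2 : w + (f e₁ * f e₂ + f e₁ * f e₃ + f e₂ * f e₃) - e₂ = (f e₁ + f e₂) * (f e₂ + f e₃) := by
    linear_combination - q2
  have b3 : w + (f e₁ * f e₂ + f e₁ * f e₃ + f e₂ * f e₃) - e₃ = (f e₁ + f e₃) * (f e₂ + f e₃) := by
    linear_combination - q3
  have heq : ((f e₁ + f e₂) * (f e₁ + f e₃) * (f e₂ + f e₃)) ^ 2 =
      (w + (f e₁ * f e₂ + f e₁ * f e₃ + f e₂ * f e₃)) ^ 3 + algebraMap F Ω C.c₂ *
      (w + (f e₁ * f e₂ + f e₁ * f e₃ + f e₂ * f e₃)) ^ 2 + algebraMap F Ω C.c₁ *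
      (w + (f e₁ * f e₂ + f e₁ * f e₃ + f e₂ * f e₃)) + algebraMap F Ω C.c₀ := by
    have h1 : ((f e₁ + f e₂) * (f e₁ + f e₃) * (f e₂ + f e₃)) ^ 2 =
        (w + (f e₁ * f e₂ + f e₁ * f e₃ + f e₂ * f e₃) - e₁) *
        (w + (f e₁ * f e₂ + f e₁ * f e₃ + f e₂ * f e₃) - e₂) *
        (w + (f e₁ * f e₂ + f e₁ * f e₃ + f e₂ * f e₃) - e₃) := by
      rw [b1, b2, b3]
      ring
    rw [h1, k2, k1, k0]
    ring
  set x' := w + (f e₁ * f e₂ + f e₁ * f e₃ + f e₂ * f e₃) with hx'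
  set y' := (f e₁ + f e₂) * (f e₁ + f e₃) * (f e₂ + f e₃) with hy'
  have hy0 : y' ≠ 0 := mul_ne_zero (mul_ne_zero d12 d13) d23
  have hyy : y' + y' ≠ 0 := by
    rw [← two_mul]
    exact mul_ne_zero two_ne_zero hy0
  obtain ⟨n', hn'⟩ : ∃ n', C.pt₂ x' y' heq = Pt.aff x' y' n' := ⟨_, rfl⟩
  refine ⟨C.pt₂ x' y' heq, ?_, ?_⟩
  · intro γ hγ
    change C.px (γ • u) (γ • C.pt₂ x' y' heq) = C.px u (C.pt₂ x' y' heq)
    rw [hn']
    obtain ⟨m, hm⟩ : ∃ n'', γ • (Pt.aff x' y' n' : Pt C.W₂ Ω) = Pt.aff (γ x') (γ y') n'' := ⟨_, rfl⟩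
    rw [hm]
    have hroot : ∀ e : Ω, (e - e₁) * (e - e₂) * (e - e₃) = 0 →
        γ e = e₁ ∨ γ e = e₂ ∨ γ e = e₃ := by
      intro e he
      rw [← hg] at he
      have hgF : aeval (γ e) C.g = 0 := by
        have h1 := Polynomial.aeval_algHom_apply (γ.restrictScalars F : Ω →ₐ[F] Ω) e C.g
        rw [he, map_zero] at h1
        exact h1
      rw [hg, mul_eq_zero, mul_eq_zero, sub_eq_zero, sub_eq_zero, sub_eq_zero] at hgF
      tauto
    have hp := HfH_perm γ.injective f h12 h13 h23 (hroot e₁ (by ring)) (hroot e₂ (by ring))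
      (hroot e₃ (by ring))
    rcases hP γ hγ with ⟨g1, g2, g3⟩ | ⟨g1, g2, g3⟩
    · have hf1 := (hfγ γ hγ).1 g1
      have c1 : γ x' = x' := by
        rw [hx']
        simp only [map_add, map_mul, hf1, g2]
        rw [hp.1]
      have c2 : γ y' = y' := by
        rw [hy']
        simp only [map_add, map_mul, hf1]
        rw [hp.2]
      rw [C.px_eq_iff]
      exact Or.inl ⟨g1.symm, HfH_inj.2 ⟨c1.symm, c2.symm⟩⟩
    · have hf1 := (hfγ γ hγ).2 g1
      have c1 : γ x' = x' := by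
        rw [hx']
        simp only [map_add, map_mul, hf1, g2]
        linear_combination hp.1
      have c2 : γ y' = - y' := by
        rw [hy']
        simp only [map_add, map_mul, hf1]
        linear_combination - hp.2
      rw [C.px_eq_iff]
      refine Or.inr ⟨by rw [g1, add_assoc, htt, add_zero], ?_⟩
      obtain ⟨m', hm'⟩ := HfH_neg ha₁ ha₃ m
      rw [hm', HfH_inj]
      exact ⟨c1.symm, by rw [c2, neg_neg]⟩
  · rw [hn']
    refine HfH_dbl ha₁ ha₃ (l := f e₁ + f e₂ + f e₃) n' n hyy ?_ ?_ ?_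
    · have e2 : algebraMap F Ω C.W₂.a₂ = -(e₁ + e₂ + e₃) := k2
      have e1 : algebraMap F Ω C.W₂.a₄ = e₁ * e₂ + e₁ * e₃ + e₂ * e₃ := k1
      rw [e2, e1]
      have h1 : 3 * x' ^ 2 + 2 * -(e₁ + e₂ + e₃) * x' + (e₁ * e₂ + e₁ * e₃ + e₂ * e₃) =
          (x' - e₁) * (x' - e₂) + (x' - e₁) * (x' - e₃) + (x' - e₂) * (x' - e₃) := by ring
      rw [h1, b1, b2, b3, hy']
      ring
    · have e2 : algebraMap F Ω C.W₂.a₂ = -(e₁ + e₂ + e₃) := k2
      rw [e2, hx']
      linear_combination - q1 - q2 - q3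
    · rw [hy', hx']
      linear_combination - q

end main

end BE
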