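import Pool.Agent.Lib.MP_f80667_ag.Be.HfN
import Pool.Agent.Lib.MP_f80667_ag.Be.HfH

/-! Descent: `HfD` (definitions, norms of numbers), `HfA`, `HfN` (`E₁`), `HfK` (`E₁ / t`), `HfT`, `HfH` (`E₂`). -/
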