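import Pool.Agent.Lib.MP_f80667_ag.Be.HfD

/-! Descent: classes of points of `E₁`. -/

open ZC Polynomial IntermediateField

namespace BE

section pre

variable {F : Type} [Field F] {L : Type} [Field L] [Algebra F L]

theorem Pt.aff_congr {W : WeierstrassCurve F} {x y x' y' : L}
    {h : (W.baseChange L).toAffine.Nonsingular x y}
    {h' : (W.baseChange L).toAffine.Nonsingular x' y'} (hx : x = x') (hy : y = y') :
    (Pt.aff x y h : Pt W L) = Pt.aff x' y' h' := by
  subst hx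
  subst hy
  rfl

theorem Pt.aff_inj {W : WeierstrassCurve F} {x y x' y' : L}
    {h : (W.baseChange L).toAffine.Nonsingular x y}
    {h' : (W.baseChange L).toAffine.Nonsingular x' y'}
    (hh : (Pt.aff x y h : Pt W L) = Pt.aff x' y' h') : x = x' ∧ y = y' :=
  WeierstrassCurve.Affine.Point.some.inj hh

theorem Cf.eq₁ (C : Cf F) {x y : L} (h : ((C.W₁).baseChange L).toAffine.Nonsingular x y) :
    y ^ 2 = x ^ 3 + algebraMap F L C.a * x ^ 2 + algebraMap F L C.b * x := by
  have h1 := h.1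
  rw [WeierstrassCurve.Affine.equation_iff] at h1
  simp only [Cf.W₁, WeierstrassCurve.baseChange, WeierstrassCurve.map, map_zero] at h1
  linear_combination h1

theorem Cf.negY₁ (C : Cf F) (x y : L) : ((C.W₁).baseChange L).toAffine.negY x y = - y := by
  simp [Cf.W₁, WeierstrassCurve.Affine.negY, WeierstrassCurve.baseChange, WeierstrassCurve.map]

theorem Cf.two_ne (C : Cf F) (L : Type) [Field L] [Algebra F L] : (2 : L) ≠ 0 := by
  have h := C.h2
  intro h1
  apply h
  apply (algebraMap F L).injective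
  rw [map_ofNat, map_zero, h1]

theorem Cf.b_ne (C : Cf F) (L : Type) [Field L] [Algebra F L] : algebraMap F L C.b ≠ 0 := by
  rw [Ne, map_eq_zero]
  exact C.hb

theorem Cf.ab_ne (C : Cf F) (L : Type) [Field L] [Algebra F L] :
    algebraMap F L C.a ^ 2 - 4 * algebraMap F L C.b ≠ 0 := by
  have h := C.hab
  intro h1
  apply h
  apply (algebraMap F L).injective
  rw [map_sub, map_mul, map_pow, map_ofNat, map_zero, h1]

/-- Doubling. -/
theorem Cf.two₁ (C : Cf F) {x y x' y' s : L} (h : ((C.W₁).baseChange L).toAffine.Nonsingular x y)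
    (h' : ((C.W₁).baseChange L).toAffine.Nonsingular x' y') (hy : y ≠ 0)
    (hs : 2 * y * s = 3 * x ^ 2 + 2 * algebraMap F L C.a * x + algebraMap F L C.b)
    (hx' : x' = s ^ 2 - algebraMap F L C.a - 2 * x) (hy' : y' = - (y + s * (x' - x))) :
    (Pt.aff x y h : Pt C.W₁ L) + Pt.aff x y h = Pt.aff x' y' h' := by
  classical
  have h2 := C.two_ne L
  have hne : y ≠ ((C.W₁).baseChange L).toAffine.negY x y := by
    rw [C.negY₁]
    intro h3
    have h4 : 2 * y = 0 := by linear_combination h3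
    rcases mul_eq_zero.1 h4 with h5 | h5
    · exact h2 h5
    · exact hy h5
  have hadd : (Pt.aff x y h : Pt C.W₁ L) + Pt.aff x y h = Pt.aff _ _
      (WeierstrassCurve.Affine.nonsingular_add h h fun hxy => hne hxy.2) :=
    WeierstrassCurve.Affine.Point.add_self_of_Y_ne (h₁ := h) hne
  have hsl : ((C.W₁).baseChange L).toAffine.slope x x y y = s := by
    rw [WeierstrassCurve.Affine.slope_of_Y_ne rfl hne]
    simp only [Cf.W₁, WeierstrassCurve.baseChange, WeierstrassCurve.map, map_zero,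
      WeierstrassCurve.Affine.negY]
    have h3 : (y - (-y - 0 * x - 0)) ≠ 0 := by
      intro h4
      have h5 : 2 * y = 0 := by linear_combination h4
      rcases mul_eq_zero.1 h5 with h6 | h6
      · exact h2 h6
      · exact hy h6
    rw [div_eq_iff h3]
    linear_combination - hs
  have hX : ((C.W₁).baseChange L).toAffine.addX x x
      (((C.W₁).baseChange L).toAffine.slope x x y y) = x' := by
    rw [hsl]
    simp only [WeierstrassCurve.Affine.addX, Cf.W₁, WeierstrassCurve.baseChange,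
      WeierstrassCurve.map, map_zero]
    rw [hx']
    ring
  have hY : ((C.W₁).baseChange L).toAffine.addY x x y
      (((C.W₁).baseChange L).toAffine.slope x x y y) = y' := by
    rw [WeierstrassCurve.Affine.addY, WeierstrassCurve.Affine.negAddY, hX, C.negY₁, hsl, hy']
    ring
  rw [hadd]
  exact Pt.aff_congr hX hY

/-- Translation by `t`. -/
theorem Cf.add_t₁ (C : Cf F) {x y : L} (h : ((C.W₁).baseChange L).toAffine.Nonsingular x y) (hx : x ≠ 0) :
    ∃ h' : ((C.W₁).baseChange L).toAffine.Nonsingular (algebraMap F L C.b / x)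
      (- algebraMap F L C.b * y / x ^ 2),
    (Pt.aff x y h : Pt C.W₁ L) + C.t L = Pt.aff _ _ h' := by
  classical
  have h1 := C.eq₁ h
  have hadd : Pt.aff x y h + C.t L = Pt.aff _ _
      (WeierstrassCurve.Affine.nonsingular_add h (C.nonsing L) fun hxy => hx hxy.1) :=
    WeierstrassCurve.Affine.Point.add_of_X_ne (h₁ := h) (h₂ := C.nonsing L) hx
  have hX : ((C.W₁).baseChange L).toAffine.addX x 0
      (((C.W₁).baseChange L).toAffine.slope x 0 y 0) = algebraMap F L C.b / x := by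
    rw [WeierstrassCurve.Affine.slope_of_X_ne hx]
    simp only [WeierstrassCurve.Affine.addX, Cf.W₁, WeierstrassCurve.baseChange,
      WeierstrassCurve.map, map_zero]
    field_simp
    linear_combination x * h1
  have hY : ((C.W₁).baseChange L).toAffine.addY x 0 y
      (((C.W₁).baseChange L).toAffine.slope x 0 y 0) = - algebraMap F L C.b * y / x ^ 2 := by
    rw [WeierstrassCurve.Affine.addY, WeierstrassCurve.Affine.negAddY, hX,
      WeierstrassCurve.Affine.slope_of_X_ne hx, C.negY₁]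
    field_simp
    ring
  have hn := WeierstrassCurve.Affine.nonsingular_add h (C.nonsing L) fun hxy => hx hxy.1
  rw [hX, hY] at hn
  refine ⟨hn, ?_⟩
  rw [hadd]
  exact Pt.aff_congr hX hY

theorem Pt.neg_aff₁ (C : Cf F) {x y : L} (h : ((C.W₁).baseChange L).toAffine.Nonsingular x y)
    (h' : ((C.W₁).baseChange L).toAffine.Nonsingular x (-y)) :
    - (Pt.aff x y h : Pt C.W₁ L) = Pt.aff x (-y) h' := by
  have h1 : - (Pt.aff x y h : Pt C.W₁ L) = Pt.aff x _
      ((WeierstrassCurve.Affine.nonsingular_neg ..).mpr h) := rfl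
  rw [h1]
  exact Pt.aff_congr rfl (C.negY₁ x y)

/-- A point of order two. -/
theorem Cf.tors₁ (C : Cf F) {T : Pt C.W₁ L} (h : T + T = 0) (h0 : T ≠ 0) (ht : T ≠ C.t L) :
    ∃ (x : L) (h' : ((C.W₁).baseChange L).toAffine.Nonsingular x 0), T = Pt.aff x 0 h' ∧ x ≠ 0 ∧
      x ^ 2 + algebraMap F L C.a * x + algebraMap F L C.b = 0 := by
  rcases Pt.cases' T with rfl | ⟨x, y, hT, rfl⟩
  · exact absurd rfl h0
  · have h1 : (Pt.aff x y hT : Pt C.W₁ L) = - Pt.aff x y hT := eq_neg_of_add_eq_zero_left h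
    have h2 : (Pt.aff x y hT : Pt C.W₁ L) = Pt.aff x _
      ((WeierstrassCurve.Affine.nonsingular_neg ..).mpr hT) := h1
    have h3 := (Pt.aff_inj h2).2
    rw [C.negY₁] at h3
    have h4 : y = 0 := by
      have h5 : 2 * y = 0 := by linear_combination h3
      rcases mul_eq_zero.1 h5 with h6 | h6
      · exact absurd h6 (C.two_ne L)
      · exact h6
    subst h4
    have h5 : x ≠ 0 := by
      intro h6
      subst h6
      exact ht rfl
    refine ⟨x, hT, rfl, h5, ?_⟩
    have h6 := C.eq₁ hT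
    have h7 : x * (x ^ 2 + algebraMap F L C.a * x + algebraMap F L C.b) = 0 := by
      linear_combination - h6
    rcases mul_eq_zero.1 h7 with h8 | h8
    · exact absurd h8 h5
    · exact h8

/-- The sum of two nontrivial classes of points of order two. -/
theorem Cf.tors_add₁ (C : Cf F) {T T' : Pt C.W₁ L} (h : T + T = 0) (h0 : T ≠ 0) (ht : T ≠ C.t L)
    (h' : T' + T' = 0) (h0' : T' ≠ 0) (ht' : T' ≠ C.t L) : T + T' = 0 ∨ T + T' = C.t L := by
  classical
  obtain ⟨x, hx, rfl, hx0, hx1⟩ := C.tors₁ h h0 ht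
  obtain ⟨x', hx', rfl, hx0', hx1'⟩ := C.tors₁ h' h0' ht'
  by_cases hxx : x = x'
  · subst hxx
    exact Or.inl h
  · right
    have hadd : (Pt.aff x 0 hx : Pt C.W₁ L) + Pt.aff x' 0 hx' = Pt.aff _ _
        (WeierstrassCurve.Affine.nonsingular_add hx hx' fun hxy => hxx hxy.1) :=
      WeierstrassCurve.Affine.Point.add_of_X_ne (h₁ := hx) (h₂ := hx') hxx
    have hsum : x + x' = - algebraMap F L C.a := by
      have h1 : (x - x') * (x + x' + algebraMap F L C.a) = 0 := by linear_combination hx1 - hx1'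
      rcases mul_eq_zero.1 h1 with h2 | h2
      · exact absurd (sub_eq_zero.1 h2) hxx
      · linear_combination h2
    have hsl : ((C.W₁).baseChange L).toAffine.slope x x' 0 0 = 0 := by
      rw [WeierstrassCurve.Affine.slope_of_X_ne hxx]
      simp
    have hX : ((C.W₁).baseChange L).toAffine.addX x x'
        (((C.W₁).baseChange L).toAffine.slope x x' 0 0) = 0 := by
      rw [hsl]
      simp only [WeierstrassCurve.Affine.addX, Cf.W₁, WeierstrassCurve.baseChange,
        WeierstrassCurve.map, map_zero]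
      linear_combination - hsum
    have hY : ((C.W₁).baseChange L).toAffine.addY x x' 0
        (((C.W₁).baseChange L).toAffine.slope x x' 0 0) = 0 := by
      rw [WeierstrassCurve.Affine.addY, WeierstrassCurve.Affine.negAddY, hX, hsl, C.negY₁]
      ring
    rw [hadd]
    exact Pt.aff_congr hX hY

open Classical in
/-- The class of a point of order two modulo `t`. -/
noncomputable def Cf.chi (C : Cf F) {L : Type} [Field L] [Algebra F L] (T : Pt C.W₁ L) : L :=
  if T = 0 ∨ T = C.t L then 1 else -1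

theorem Cf.chi_one (C : Cf F) {T : Pt C.W₁ L} (h : T = 0 ∨ T = C.t L) : C.chi T = 1 := by
  rw [Cf.chi, if_pos h]

theorem Cf.chi_neg (C : Cf F) {T : Pt C.W₁ L} (h : ¬ (T = 0 ∨ T = C.t L)) : C.chi T = -1 := by
  rw [Cf.chi, if_neg h]

theorem Cf.chi_sq (C : Cf F) (T : Pt C.W₁ L) : C.chi T * C.chi T = 1 := by
  rw [Cf.chi]
  split_ifs <;> ring

theorem Cf.chi_iff (C : Cf F) {T : Pt C.W₁ L} : C.chi T = 1 ↔ (T = 0 ∨ T = C.t L) := by
  constructor
  · intro h
    by_contra h1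
    rw [C.chi_neg h1] at h
    apply C.two_ne L
    linear_combination - h
  · exact C.chi_one

theorem Cf.chi_add (C : Cf F) {T T' : Pt C.W₁ L} (h : T + T = 0) (h' : T' + T' = 0) :
    C.chi (T + T') = C.chi T * C.chi T' := by
  have ht := C.two_t L
  by_cases h1 : T = 0 ∨ T = C.t L
  · rw [C.chi_one h1, one_mul]
    rcases h1 with rfl | rfl
    · rw [zero_add]
    · by_cases h2 : T' = 0 ∨ T' = C.t L
      · rw [C.chi_one h2]
        rcases h2 with rfl | rfl
        · rw [add_zero, C.chi_one (Or.inr rfl)]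
        · rw [ht, C.chi_one (Or.inl rfl)]
      · rw [C.chi_neg h2, C.chi_neg]
        intro h3
        apply h2
        rcases h3 with h3 | h3
        · right
          have h4 : T' = - C.t L := (neg_eq_of_add_eq_zero_right h3).symm
          rw [h4]
          exact neg_eq_of_add_eq_zero_right ht
        · left
          exact left_eq_add.1 h3.symm
  · rw [C.chi_neg h1]
    by_cases h2 : T' = 0 ∨ T' = C.t L
    · rw [C.chi_one h2, mul_one]
      rw [C.chi_neg]
      intro h3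
      apply h1
      rcases h2 with rfl | rfl
      · rwa [add_zero] at h3
      · rcases h3 with h3 | h3
        · right
          have h4 : T = - C.t L := eq_neg_of_add_eq_zero_left h3
          rw [h4]
          exact neg_eq_of_add_eq_zero_right ht
        · left
          exact right_eq_add.1 h3.symm
    · rw [C.chi_neg h2]
      push Not at h1 h2
      rw [C.chi_one (C.tors_add₁ h h1.1 h1.2 h' h2.1 h2.2)]
      ring

theorem Cf.ns₁ (C : Cf F) {x y : L}
    (h : y ^ 2 = x ^ 3 + algebraMap F L C.a * x ^ 2 + algebraMap F L C.b * x) :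
    ((C.W₁).baseChange L).toAffine.Nonsingular x y :=
  WeierstrassCurve.Affine.equation_iff_nonsingular.1 (by
    rw [WeierstrassCurve.Affine.equation_iff]
    simp only [Cf.W₁, WeierstrassCurve.baseChange, WeierstrassCurve.map, map_zero]
    linear_combination h)

end pre

variable {F : Type} [Field F] {K : Type} [Field K] [CharZero K] [Algebra F K] {Ω : Type} [Field Ω]
  [Algebra K Ω] [Algebra F Ω] [IsScalarTower F K Ω] [IsAlgClosure K Ω] (C : Cf F)

omit [CharZero K] [IsAlgClosure K Ω] in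
theorem gal_F (γ : Ω ≃ₐ[K] Ω) (c : F) : γ (algebraMap F Ω c) = algebraMap F Ω c := by
  rw [IsScalarTower.algebraMap_apply F K Ω, AlgEquiv.commutes]

omit [CharZero K] [IsAlgClosure K Ω] in
theorem gal_aff {W : WeierstrassCurve F} (γ : Ω ≃ₐ[K] Ω) {x y : Ω}
    (h : (W.baseChange Ω).toAffine.Nonsingular x y) :
    ∃ h' : (W.baseChange Ω).toAffine.Nonsingular (γ x) (γ y),
      γ • Pt.aff x y h = Pt.aff (γ x) (γ y) h' :=
  ⟨(WeierstrassCurve.Affine.baseChange_nonsingular W.toAffine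
        (γ.restrictScalars F : Ω →ₐ[F] Ω).injective x y).mpr h, rfl⟩

omit [CharZero K] [IsAlgClosure K Ω] in
theorem gal_t (γ : Ω ≃ₐ[K] Ω) : γ • C.t Ω = C.t Ω := C.map_t _

omit [CharZero K] [IsAlgClosure K Ω] in
/-- The computation for `exists_rho_al`: the point `(X, l X)`. -/
theorem rho_core {X X' l ρ : Ω} (hXX : X * X' = algebraMap F Ω C.b)
    (hl : l ^ 2 = X + algebraMap F Ω C.a + X') (γ : Ω ≃ₐ[K] Ω)
    (hρ : γ ρ = ρ ∨ γ ρ = - ρ) (h1 : γ ρ = ρ → (γ l = l ∧ γ X = X) ∨ (γ l = - l ∧ γ X = X'))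
    (h2 : γ ρ = - ρ → γ X = X → γ l ≠ l) (h3 : γ ρ = - ρ → γ X = X' → γ l ≠ - l)
    (hX : ((C.W₁).baseChange Ω).toAffine.Nonsingular X (l * X)) :
    γ ρ = C.chi (γ • (Pt.aff X (l * X) hX : Pt C.W₁ Ω) - Pt.aff X (l * X) hX) * ρ := by
  have hb := C.b_ne Ω
  have hX0 : X ≠ 0 := by
    rintro rfl
    rw [zero_mul] at hXX
    exact hb hXX.symm
  have hbX : algebraMap F Ω C.b / X = X' := by
    rw [div_eq_iff hX0, ← hXX]
    ring
  have hbY : - algebraMap F Ω C.b * (l * X) / X ^ 2 = - l * X' := by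
    rw [div_eq_iff (pow_ne_zero 2 hX0), ← hXX]
    ring
  obtain ⟨ht', ht⟩ := C.add_t₁ hX hX0
  obtain ⟨hg', hg⟩ := gal_aff γ hX
  rcases hρ with hρ | hρ
  · rw [hρ]
    have h4 : C.chi (γ • (Pt.aff X (l * X) hX : Pt C.W₁ Ω) - Pt.aff X (l * X) hX) = 1 := by
      apply C.chi_one
      rcases h1 hρ with ⟨h5, h6⟩ | ⟨h5, h6⟩
      · left
        rw [sub_eq_zero, hg]
        exact Pt.aff_congr h6 (by rw [map_mul, h5, h6])
      · right
        rw [sub_eq_iff_eq_add', ht, hg]
        exact Pt.aff_congr (by rw [h6, hbX]) (by rw [map_mul, h5, h6, hbY])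
    rw [h4, one_mul]
  · rw [hρ]
    have h4 : C.chi (γ • (Pt.aff X (l * X) hX : Pt C.W₁ Ω) - Pt.aff X (l * X) hX) = -1 := by
      apply C.chi_neg
      rintro (h5 | h5)
      · rw [sub_eq_zero, hg] at h5
        obtain ⟨h6, h7⟩ := Pt.aff_inj h5
        refine h2 hρ h6 ?_
        rw [map_mul, h6] at h7
        exact mul_right_cancel₀ hX0 h7
      · rw [sub_eq_iff_eq_add', ht, hg] at h5
        obtain ⟨h6, h7⟩ := Pt.aff_inj h5
        rw [hbX] at h6
        refine h3 hρ h6 ?_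
        rw [map_mul, h6, hbY] at h7
        have hX0' : X' ≠ 0 := by
          rintro rfl
          rw [mul_zero] at hXX
          exact hb hXX.symm
        exact mul_right_cancel₀ hX0' h7
    rw [h4]
    ring

omit [CharZero K] in
theorem rho_chi (u : Pt C.W₁ Ω) :
    ∃ (τ : Pt C.W₁ Ω) (ρ : Ω), τ + τ = u ∧ ρ ≠ 0 ∧ ρ ^ 2 = C.al u ∧
      ∀ γ : Ω ≃ₐ[K] Ω, γ • u = u → γ ρ = C.chi (γ • τ - τ) * ρ := by
  classical
  have : IsAlgClosed Ω := IsAlgClosure.isAlgClosed K
  have htwo := C.two_ne Ω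
  have hb := C.b_ne Ω
  have hab := C.ab_ne Ω
  rcases Pt.cases' u with rfl | ⟨x₀, y₀, hu, rfl⟩
  · refine ⟨0, 1, add_zero 0, one_ne_zero, one_pow 2, fun γ _ => ?_⟩
    rw [smul_zero, sub_zero, C.chi_one (Or.inl rfl), map_one, mul_one]
  · by_cases hx : x₀ = 0
    · subst hx
      have hy : y₀ = 0 := by
        have h1 := C.eq₁ hu
        have h2 : y₀ ^ 2 = 0 := by rw [h1]; ring
        exact pow_eq_zero_iff (two_ne_zero) |>.1 h2
      subst hy
      obtain ⟨ρ, hρ⟩ := IsAlgClosed.exists_pow_nat_eq (algebraMap F Ω C.b) (n := 2) two_pos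
      obtain ⟨l, hl⟩ := IsAlgClosed.exists_pow_nat_eq (2 * ρ + algebraMap F Ω C.a) (n := 2) two_pos
      have hρ0 : ρ ≠ 0 := by
        rintro rfl
        apply hb
        rw [← hρ]
        ring
      have hl0 : l ≠ 0 := by
        rintro rfl
        apply hab
        linear_combination (algebraMap F Ω C.a - 2 * ρ) * (-hl) + 4 * hρ
      have hX : ((C.W₁).baseChange Ω).toAffine.Nonsingular ρ (l * ρ) := C.ns₁ (by
        linear_combination ρ ^ 2 * hl + ρ * hρ)
      refine ⟨Pt.aff ρ (l * ρ) hX, ρ, ?_, hρ0, ?_, ?_⟩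
      · refine C.two₁ hX hu (mul_ne_zero hl0 hρ0) (s := l) ?_ ?_ ?_
        · linear_combination 2 * ρ * hl - hρ + 2 * hρ
        · linear_combination - hl
        · ring
      · rw [hρ]
        change _ = if (0 : Ω) = 0 then algebraMap F Ω C.b else 0
        rw [if_pos rfl]
      · intro γ hγ
        have hγρ : γ ρ = ρ ∨ γ ρ = - ρ := by
          have h1 : γ ρ ^ 2 = ρ ^ 2 := by
            rw [← map_pow, hρ, gal_F]
          exact sq_eq_sq_iff_eq_or_eq_neg.1 h1
        refine rho_core C (X' := ρ) (by rw [← hρ]; ring) (by rw [hl]; ring) γ hγρ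
          ?_ ?_ ?_ hX
        · intro h1
          have h2 : γ l ^ 2 = l ^ 2 := by
            rw [← map_pow, hl, map_add, map_mul, h1, gal_F, map_ofNat]
          rcases sq_eq_sq_iff_eq_or_eq_neg.1 h2 with h3 | h3
          · exact Or.inl ⟨h3, h1⟩
          · exact Or.inr ⟨h3, h1⟩
        · intro h1 h2 _
          rw [h2] at h1
          have h3 : 2 * ρ = 0 := by linear_combination h1
          rcases mul_eq_zero.1 h3 with h4 | h4
          · exact htwo h4
          · exact hρ0 h4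
        · intro h1 h2 _
          rw [h2] at h1
          have h3 : 2 * ρ = 0 := by linear_combination h1
          rcases mul_eq_zero.1 h3 with h4 | h4
          · exact htwo h4
          · exact hρ0 h4
    · obtain ⟨ρ, hρ⟩ := IsAlgClosed.exists_pow_nat_eq x₀ (n := 2) two_pos
      obtain ⟨l, hl⟩ := IsAlgClosed.exists_pow_nat_eq (algebraMap F Ω C.a + 2 * x₀ + 2 * (y₀ / ρ))
        (n := 2) two_pos
      have hρ0 : ρ ≠ 0 := by
        rintro rfl
        apply hx
        rw [← hρ]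
        ring
      have hy := C.eq₁ hu
      obtain ⟨m, hm⟩ : ∃ m, m = y₀ / ρ := ⟨_, rfl⟩
      have hmy : y₀ = m * ρ := by rw [hm]; field_simp
      rw [← hm] at hl
      have hm2 : m ^ 2 = x₀ ^ 2 + algebraMap F Ω C.a * x₀ + algebraMap F Ω C.b := by
        have h1 : x₀ * m ^ 2 = x₀ * (x₀ ^ 2 + algebraMap F Ω C.a * x₀ + algebraMap F Ω C.b) := by
          rw [hmy] at hy
          linear_combination hy - m ^ 2 * hρ
        exact mul_left_cancel₀ hx h1
      have hXX : (x₀ + m + ρ * l) * (x₀ + m - ρ * l) = algebraMap F Ω C.b := by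
        linear_combination hm2 - ρ ^ 2 * hl - (algebraMap F Ω C.a + 2 * x₀ + 2 * m) * hρ
      have hl0 : l ≠ 0 := by
        rintro rfl
        apply hab
        linear_combination (algebraMap F Ω C.a - 2 * x₀ - 2 * m) * (-hl) + 4 * hXX
      have hX : ((C.W₁).baseChange Ω).toAffine.Nonsingular (x₀ + m + ρ * l)
          (l * (x₀ + m + ρ * l)) := C.ns₁ (by
        linear_combination (x₀ + m + ρ * l) ^ 2 * hl + (x₀ + m + ρ * l) * hXX)
      refine ⟨Pt.aff _ _ hX, ρ, ?_, hρ0, ?_, ?_⟩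
      · have hX0 : x₀ + m + ρ * l ≠ 0 := by
          intro h
          rw [h, zero_mul] at hXX
          exact hb hXX.symm
        refine C.two₁ hX hu (mul_ne_zero hl0 hX0) (s := ρ + l) ?_ ?_ ?_
        · linear_combination 2 * (x₀ + m + ρ * l) * hl + hXX
        · linear_combination - hl - hρ
        · linear_combination hmy - l * hρ
      · rw [hρ]
        change _ = if x₀ = 0 then algebraMap F Ω C.b else x₀
        rw [if_neg hx]
      · intro γ hγ
        obtain ⟨hx1, hy1⟩ := (Gal_smul_aff hu γ).1 hγ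
        have hγρ : γ ρ = ρ ∨ γ ρ = - ρ := by
          have h1 : γ ρ ^ 2 = ρ ^ 2 := by
            rw [← map_pow, hρ, hx1]
          exact sq_eq_sq_iff_eq_or_eq_neg.1 h1
        have hl2 : (γ l) ^ 2 = algebraMap F Ω C.a + 2 * x₀ + 2 * γ m := by
          rw [← map_pow, hl]
          simp only [map_add, map_mul, map_ofNat, gal_F, hx1]
        have hneg : γ ρ = - ρ → (γ l) ^ 2 = l ^ 2 → m = 0 := by
          intro h1 h2
          have hγm : γ m = - m := by
            rw [hm, map_div₀, hy1, h1, div_neg]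
          rw [hγm] at hl2
          have h3 : 2 * (2 * m) = 0 := by linear_combination hl2 - hl - h2
          rcases mul_eq_zero.1 h3 with h4 | h4
          · exact absurd h4 htwo
          · rcases mul_eq_zero.1 h4 with h5 | h5
            · exact absurd h5 htwo
            · exact h5
        have hfin : 2 * (ρ * l) = 0 → False := by
          intro h3
          rcases mul_eq_zero.1 h3 with h4 | h4
          · exact htwo h4
          · rcases mul_eq_zero.1 h4 with h5 | h5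
            · exact hρ0 h5
            · exact hl0 h5
        refine rho_core C (X' := x₀ + m - ρ * l) hXX (by rw [hl]; ring) γ hγρ ?_ ?_ ?_ hX
        · intro h1
          have hγm : γ m = m := by rw [hm, map_div₀, hy1, h1]
          have h2 : γ l ^ 2 = l ^ 2 := by
            rw [hl2, hγm, hl]
          rcases sq_eq_sq_iff_eq_or_eq_neg.1 h2 with h3 | h3
          · left
            refine ⟨h3, ?_⟩
            simp only [map_add, map_mul, hx1, hγm, h1, h3]
          · right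
            refine ⟨h3, ?_⟩
            simp only [map_add, map_mul, hx1, hγm, h1, h3]
            ring
        · intro h1 h2 h3
          have h4 : m = 0 := hneg h1 (by rw [h3])
          simp only [map_add, map_mul, hx1, h1, h3, h4, map_zero] at h2
          exact hfin (by linear_combination - h2)
        · intro h1 h2 h3
          have h4 : m = 0 := hneg h1 (by rw [h3]; ring)
          simp only [map_add, map_mul, hx1, h1, h3, h4, map_zero] at h2
          exact hfin (by linear_combination h2)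

/-! ### `E₁` -/

omit [CharZero K] [IsAlgClosure K Ω] in
theorem chi_gal (γ : Ω ≃ₐ[K] Ω) (T : Pt C.W₁ Ω) : C.chi (γ • T) = C.chi T := by
  by_cases h : T = 0 ∨ T = C.t Ω
  · rw [C.chi_one h, C.chi_one]
    rcases h with rfl | rfl
    · exact Or.inl (smul_zero γ)
    · exact Or.inr (gal_t C γ)
  · rw [C.chi_neg h, C.chi_neg]
    intro h1
    apply h
    rcases h1 with h1 | h1
    · left
      rwa [smul_eq_zero_iff_eq] at h1
    · right
      rw [← gal_t C γ] at h1
      exact smul_left_cancel γ h1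

omit [CharZero K] [IsAlgClosure K Ω] in
/-- The differences of `γ T` and `T` for points of order two. -/
theorem chi_diff (γ : Ω ≃ₐ[K] Ω) {T : Pt C.W₁ Ω} (h : T + T = 0) : C.chi (γ • T - T) = 1 := by
  have h1 : γ • T + γ • T = 0 := by rw [← smul_add, h, smul_zero]
  have h2 : -T = T := neg_eq_of_add_eq_zero_right h
  rw [sub_eq_add_neg, h2, C.chi_add h1 h, chi_gal, C.chi_sq]

theorem al_ne (u : Pt C.W₁ Ω) : C.al u ≠ 0 := by
  classical
  rcases Pt.cases' u with rfl | ⟨x, y, hu, rfl⟩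
  · exact one_ne_zero
  · change (if x = 0 then algebraMap F Ω C.b else x) ≠ 0
    split_ifs with h
    · exact C.b_ne Ω
    · exact h

theorem al_mem {M : IntermediateField K Ω} {u : Pt C.W₁ Ω}
    (hu : ∀ γ ∈ M.fixingSubgroup, γ • u = u) : C.al u ∈ M := by
  classical
  rcases Pt.cases' u with rfl | ⟨x, y, hu', rfl⟩
  · exact M.one_mem
  · change (if x = 0 then algebraMap F Ω C.b else x) ∈ M
    split_ifs with h
    · rw [IsScalarTower.algebraMap_apply F K Ω]
      exact M.algebraMap_mem _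
    · exact ((fix_aff M hu').1 hu).1

omit [CharZero K] in
/-- For `τ ∈ E₁(Ω)` the function `ρ = (X² - b) / (2 Y)` (at `τ`, `Y ≠ 0`) satisfies `ρ(τ)² = X(2 τ)`,
`ρ(τ + t) = ρ(τ)`, `ρ(τ + T) = - ρ(τ)` for the other points `T` of order two. Here: for every `u` there are
`τ`, `ρ` with `2 τ = u`, `ρ² = al u`, and for every automorphism `γ` which fixes `al u`, `u`:
`γ ρ = ρ` iff `γ τ ∈ {τ, τ + t}`. (For `u = 0`: `τ = 0`, `ρ = 1`; for `u = t`: `τ = (√b, ·)`, `ρ = √b`.) -/
theorem exists_rho_al (u : Pt C.W₁ Ω) :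
    ∃ (τ : Pt C.W₁ Ω) (ρ : Ω), τ + τ = u ∧ ρ ≠ 0 ∧ ρ ^ 2 = C.al u ∧
      ∀ γ : Ω ≃ₐ[K] Ω, γ • u = u → ((γ ρ = ρ ∧ (γ • τ = τ ∨ γ • τ = τ + C.t Ω)) ∨
        (γ ρ = - ρ ∧ γ • τ ≠ τ ∧ γ • τ ≠ τ + C.t Ω)) := by
  obtain ⟨τ, ρ, h1, h2, h3, h4⟩ := rho_chi (K := K) C u
  refine ⟨τ, ρ, h1, h2, h3, fun γ hγ => ?_⟩
  have h5 := h4 γ hγ
  by_cases h6 : γ • τ - τ = 0 ∨ γ • τ - τ = C.t Ω
  · rw [C.chi_one h6, one_mul] at h5
    rw [sub_eq_zero, sub_eq_iff_eq_add'] at h6
    exact Or.inl ⟨h5, h6⟩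
  · rw [C.chi_neg h6, neg_one_mul] at h5
    rw [sub_eq_zero, sub_eq_iff_eq_add'] at h6
    push Not at h6
    exact Or.inr ⟨h5, h6⟩

omit [CharZero K] in
/-- Proof: `exists_rho_al`: `ρ` is in `M`, so `[τ]` is invariant. -/
theorem half₁ {M : IntermediateField K Ω} {u : Pt C.W₁ Ω}
    (hu : ∀ γ ∈ M.fixingSubgroup, γ • u = u) (h : SqM M (C.al u)) :
    ∃ τ : Pt C.W₁ Ω, (C.dt K Ω).UU M.fixingSubgroup τ ∧ τ + τ = u := by
  obtain ⟨τ, ρ, h1, h2, h3, h4⟩ := exists_rho_al (K := K) C u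
  obtain ⟨x, hx, hx2⟩ := h
  refine ⟨τ, fun γ hγ => ?_, h1⟩
  have h5 : ρ ∈ M := by
    rw [hx2] at h3
    rcases sq_eq_sq_iff_eq_or_eq_neg.1 h3 with h6 | h6
    · rw [h6]
      exact hx
    · rw [h6]
      exact M.neg_mem hx
  have h6 : γ ρ = ρ := (IntermediateField.mem_fixingSubgroup_iff M γ).1 hγ ρ h5
  rcases h4 γ (hu γ hγ) with h7 | h7
  · exact h7.2
  · exfalso
    have h8 := h7.1
    rw [h6] at h8
    have h9 : 2 * ρ = 0 := by linear_combination h8
    rcases mul_eq_zero.1 h9 with h10 | h10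
    · exact C.two_ne Ω h10
    · exact h2 h10

/-- Converse of `half₁`. -/
theorem al_two {M : IntermediateField K Ω} {τ : Pt C.W₁ Ω}
    (hτ : (C.dt K Ω).UU M.fixingSubgroup τ) : SqM M (C.al (τ + τ)) := by
  obtain ⟨τ', ρ, h1, h2, h3, h4⟩ := rho_chi (K := K) C (τ + τ)
  refine ⟨ρ, mem_of_fix M fun γ hγ => ?_, h3.symm⟩
  have ht := C.two_t Ω
  have h5 : γ • (τ + τ) = τ + τ := by
    rw [smul_add]
    rcases hτ γ hγ with h6 | h6
    · rw [h6]
    · rw [h6]
      change τ + C.t Ω + (τ + C.t Ω) = _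
      rw [add_add_add_comm, ht, add_zero]
  have h6 := h4 γ h5
  obtain ⟨T, hT⟩ : ∃ T, T = τ - τ' := ⟨_, rfl⟩
  have hT2 : T + T = 0 := by
    rw [hT, sub_add_sub_comm, h1, sub_self]
  have h7 : γ • τ' - τ' = (γ • τ - τ) + (γ • T - T) := by
    have h8 : τ' = τ - T := by rw [hT]; abel
    rw [h8, smul_sub]
    have h9 : -T = T := neg_eq_of_add_eq_zero_right hT2
    have h10 : -(γ • T) = γ • T := by rw [← smul_neg, h9]
    rw [sub_eq_add_neg (γ • τ), h10]
    rw [show τ - T = τ + T by rw [sub_eq_add_neg, h9]]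
    abel
  have h8 : γ • τ - τ = 0 ∨ γ • τ - τ = C.t Ω := by
    rw [sub_eq_zero, sub_eq_iff_eq_add']
    exact hτ γ hγ
  have h9 : (γ • τ - τ) + (γ • τ - τ) = 0 := by
    rcases h8 with h10 | h10
    · rw [h10, add_zero]
    · rw [h10, ht]
  have h10 : (γ • T - T) + (γ • T - T) = 0 := by
    rw [sub_add_sub_comm, ← smul_add, hT2, smul_zero, sub_zero]
  rw [h7, C.chi_add h9 h10, chi_diff C γ hT2, C.chi_one h8, one_mul, one_mul] at h6
  exact h6

omit [CharZero K] [IsAlgClosure K Ω] in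
theorem al_gal (γ : Ω ≃ₐ[K] Ω) (u : Pt C.W₁ Ω) : γ (C.al u) = C.al (γ • u) := by
  classical
  rcases Pt.cases' u with rfl | ⟨x, y, hu', rfl⟩
  · rw [smul_zero]
    exact map_one γ
  · obtain ⟨h', hg⟩ := gal_aff γ hu'
    rw [hg]
    change γ (if x = 0 then algebraMap F Ω C.b else x) =
      if γ x = 0 then algebraMap F Ω C.b else γ x
    by_cases h : x = 0
    · rw [if_pos h, if_pos (by rw [h, map_zero]), gal_F]
    · rw [if_neg h, if_neg]
      intro h1
      exact h ((map_eq_zero γ).1 h1)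

omit [CharZero K] [IsAlgClosure K Ω] [Algebra F K] [IsScalarTower F K Ω] in
theorem gal_chi (γ : Ω ≃ₐ[K] Ω) (T : Pt C.W₁ Ω) : γ (C.chi T) = C.chi T := by
  rw [Cf.chi]
  split_ifs
  · exact map_one γ
  · rw [map_neg, map_one]

omit [CharZero K] in
/-- The square roots for a stable pair. -/
theorem rho_pair {M : IntermediateField K Ω} {a₁ a₂ : Pt C.W₁ Ω}
    (h : ∀ γ ∈ M.fixingSubgroup, (γ • a₁ = a₁ ∧ γ • a₂ = a₂) ∨ (γ • a₁ = a₂ ∧ γ • a₂ = a₁)) :
    ∃ (τ : Pt C.W₁ Ω) (ρ : Ω), τ + τ = a₁ + a₂ ∧ ρ ^ 2 = C.al a₁ * C.al a₂ ∧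
      ∀ γ ∈ M.fixingSubgroup, γ ρ = C.chi (γ • τ - τ) * ρ := by
  obtain ⟨τ₁, ρ₁, h1, h2, h3, h4⟩ := rho_chi (K := K) C a₁
  have hdd : ∀ (γ : Ω ≃ₐ[K] Ω) (τ a : Pt C.W₁ Ω), τ + τ = a → γ • a = a →
      (γ • τ - τ) + (γ • τ - τ) = 0 := by
    intro γ τ a h5 h6
    rw [sub_add_sub_comm, ← smul_add, h5, h6, sub_self]
  by_cases hs : ∃ γ₀ ∈ M.fixingSubgroup, γ₀ • a₁ = a₂ ∧ γ₀ • a₂ = a₁
  · obtain ⟨γ₀, hγ₀, hs1, hs2⟩ := hs
    have k1 : γ₀ • τ₁ + γ₀ • τ₁ = a₂ := by rw [← smul_add, h1, hs1]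
    have k4 : ∀ γ : Ω ≃ₐ[K] Ω, γ • a₂ = a₂ →
        γ (γ₀ ρ₁) = C.chi (γ • γ₀ • τ₁ - γ₀ • τ₁) * γ₀ ρ₁ := by
      intro γ hγ
      have h5 : (γ₀⁻¹ * γ * γ₀) • a₁ = a₁ := by
        rw [mul_smul, mul_smul, hs1, hγ, inv_smul_eq_iff, hs1]
      have h6 := congrArg γ₀ (h4 _ h5)
      rw [map_mul, gal_chi, ← chi_gal C γ₀, smul_sub, ← mul_smul γ₀] at h6
      have h7 : γ₀ * (γ₀⁻¹ * γ * γ₀) = γ * γ₀ := by group
      rw [h7, mul_smul, ← AlgEquiv.mul_apply γ₀, h7, AlgEquiv.mul_apply] at h6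
      exact h6
    refine ⟨τ₁ + γ₀ • τ₁, ρ₁ * γ₀ ρ₁, ?_, ?_, ?_⟩
    · rw [add_add_add_comm, h1, k1]
    · rw [mul_pow, ← map_pow, h3, al_gal, hs1]
    · intro γ hγ
      rcases h γ hγ with ⟨h5, h6⟩ | ⟨h5, h6⟩
      · rw [map_mul, h4 γ h5, k4 γ h6, smul_add, add_sub_add_comm,
          C.chi_add (hdd γ _ _ h1 h5) (hdd γ _ _ k1 h6)]
        ring
      · have h7 : (γ * γ₀⁻¹) • a₂ = a₂ := by
          rw [mul_smul, ← hs1, inv_smul_smul, h5, hs1]
        have h8 : (γ * γ₀) • a₁ = a₁ := by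
          rw [mul_smul, hs1, h6]
        have h9 := k4 _ h7
        have h10 := h4 _ h8
        have h11 : (γ * γ₀⁻¹) • γ₀ • τ₁ = γ • τ₁ := by rw [mul_smul, inv_smul_smul]
        have h12 : (γ * γ₀⁻¹) (γ₀ ρ₁) = γ ρ₁ := by
          rw [← AlgEquiv.mul_apply (γ * γ₀⁻¹), inv_mul_cancel_right]
        have h13 : (γ * γ₀) • τ₁ = γ • γ₀ • τ₁ := mul_smul _ _ _
        have h14 : (γ • τ₁ - γ₀ • τ₁) + (γ • τ₁ - γ₀ • τ₁) = 0 := by
          rw [sub_add_sub_comm, ← smul_add, h1, k1, h5, sub_self]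
        have h15 : (γ • γ₀ • τ₁ - τ₁) + (γ • γ₀ • τ₁ - τ₁) = 0 := by
          rw [sub_add_sub_comm, ← smul_add, h1, k1, h6, sub_self]
        rw [h11, h12] at h9
        rw [h13, AlgEquiv.mul_apply] at h10
        rw [map_mul, h9, h10, smul_add]
        have h16 : γ • τ₁ + γ • γ₀ • τ₁ - (τ₁ + γ₀ • τ₁) =
            (γ • τ₁ - γ₀ • τ₁) + (γ • γ₀ • τ₁ - τ₁) := by abel
        rw [h16, C.chi_add h14 h15]
        ring
  · push Not at hs
    have hf : ∀ γ ∈ M.fixingSubgroup, γ • a₁ = a₁ ∧ γ • a₂ = a₂ := by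
      intro γ hγ
      rcases h γ hγ with h5 | h5
      · exact h5
      · exact absurd h5.2 (hs γ hγ h5.1)
    obtain ⟨τ₂, ρ₂, k1, k2, k3, k4⟩ := rho_chi (K := K) C a₂
    refine ⟨τ₁ + τ₂, ρ₁ * ρ₂, ?_, ?_, ?_⟩
    · rw [add_add_add_comm, h1, k1]
    · rw [mul_pow, h3, k3]
    · intro γ hγ
      obtain ⟨h5, h6⟩ := hf γ hγ
      rw [map_mul, h4 γ h5, k4 γ h6, smul_add, add_sub_add_comm,
        C.chi_add (hdd γ _ _ h1 h5) (hdd γ _ _ k1 h6)]
      ring

/-- `al` is multiplicative modulo squares, for stable pairs. Proof: the line `y = s x + c` through `a₁`, `a₂`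
and `- (a₁ + a₂)` is defined over `M` and the product of the `x`-coordinates is `c²`; the cases of a
coordinate `0` (point `t`: divide by `x` first), of vertical lines and of `0` are direct. Or by `exists_rho_al`:
for `u₁`, `u₂` with halves `τᵢ` and roots `ρᵢ` the product `ρ₁ ρ₂` transforms as `τ₁ + τ₂` modulo `t`. -/
theorem al_pair {M : IntermediateField K Ω} {a₁ a₂ : Pt C.W₁ Ω}
    (h : ∀ γ ∈ M.fixingSubgroup, (γ • a₁ = a₁ ∧ γ • a₂ = a₂) ∨ (γ • a₁ = a₂ ∧ γ • a₂ = a₁)) :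
    SqM M (C.al (a₁ + a₂) * (C.al a₁ * C.al a₂)) := by
  obtain ⟨τ, ρ, h1, h2, h3⟩ := rho_pair C h
  obtain ⟨τ₃, ρ₃, k1, k2, k3, k4⟩ := rho_chi (K := K) C (a₁ + a₂)
  refine ⟨ρ₃ * ρ, mem_of_fix M fun γ hγ => ?_, by rw [mul_pow, k3, h2]⟩
  have h5 : γ • (a₁ + a₂) = a₁ + a₂ := by
    rw [smul_add]
    rcases h γ hγ with h6 | h6
    · rw [h6.1, h6.2]
    · rw [h6.1, h6.2, add_comm]
  obtain ⟨T, hT⟩ : ∃ T, T = τ - τ₃ := ⟨_, rfl⟩
  have hT2 : T + T = 0 := by
    rw [hT, sub_add_sub_comm, h1, k1, sub_self]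
  have h7 : γ • τ - τ = (γ • τ₃ - τ₃) + (γ • T - T) := by
    have h8 : τ = τ₃ + T := by rw [hT]; abel
    rw [h8, smul_add]
    abel
  have h9 : (γ • τ₃ - τ₃) + (γ • τ₃ - τ₃) = 0 := by
    rw [sub_add_sub_comm, ← smul_add, k1, h5, sub_self]
  have h10 : (γ • T - T) + (γ • T - T) = 0 := by
    rw [sub_add_sub_comm, ← smul_add, hT2, smul_zero, sub_zero]
  rw [map_mul, k4 γ h5, h3 γ hγ, h7, C.chi_add h9 h10, chi_diff C γ hT2]
  linear_combination (ρ₃ * ρ) * C.chi_sq (γ • τ₃ - τ₃)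

end BE
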