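import Pool.Agent.Lib.MP_f80667_ag.Be.Dat
import Pool.Agent.Lib.MP_f80667_ag.Hm.Spr

/-!
Hilbert symbols over the finite extensions `M` of the completions of a number field.

* `HS M a b`: the symbol `(a, b)` over `M` is trivial.
* `SqM M a`: `a` is the square of an element of `M`.
* `Sym K Ω`: the symbols of all finite extensions of `K` are bimultiplicative and nondegenerate.
-/

open ZC Polynomial IsDedekindDomain NumberField

namespace BE

section sym

variable {K Ω : Type} [Field K] [Field Ω] [Algebra K Ω]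

/-- The symbol `(a, b)` over `M` is trivial: `a` is a norm from `M(√b)`. -/
def HS (M : IntermediateField K Ω) (a b : Ω) : Prop :=
  ∃ x ∈ M, ∃ y ∈ M, a = x ^ 2 - b * y ^ 2

/-- `a` is a square in `M`. -/
def SqM (M : IntermediateField K Ω) (a : Ω) : Prop := ∃ x ∈ M, a = x ^ 2

private theorem two_mem (M : IntermediateField K Ω) : (2 : Ω) ∈ M := by
  have h := M.natCast_mem 2
  rwa [Nat.cast_ofNat] at h

/-- The norm form of a square represents everything. -/
private theorem hs_of_sq {M : IntermediateField K Ω} [CharZero K] {a s : Ω} (ha : a ∈ M)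
    (hs : s ∈ M) (hs0 : s ≠ 0) : HS M a (s ^ 2) := by
  have h0 : CharZero Ω := charZero_of_injective_algebraMap (algebraMap K Ω).injective
  refine ⟨(a + 1) / 2, M.div_mem (M.add_mem ha M.one_mem) (two_mem M),
    (a - 1) / (2 * s), M.div_mem (M.sub_mem ha M.one_mem) (M.mul_mem (two_mem M) hs), ?_⟩
  field_simp
  ring

theorem HS.comm {M : IntermediateField K Ω} [CharZero K] {a b : Ω} (ha : a ∈ M) (hb : b ∈ M)
    (ha0 : a ≠ 0) (hb0 : b ≠ 0) (h : HS M a b) : HS M b a := by
  obtain ⟨x, hx, y, hy, h⟩ := h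
  by_cases hy0 : y = 0
  · have h1 : a = x ^ 2 := by
      rw [h, hy0]
      ring
    have hx0 : x ≠ 0 := by
      rintro rfl
      exact ha0 (by rw [h1]; ring)
    rw [h1]
    exact hs_of_sq hb hx hx0
  · refine ⟨x / y, M.div_mem hx hy, 1 / y, M.div_mem M.one_mem hy, ?_⟩
    rw [h]
    field_simp
    ring

/-- Springer: symbols over an extension of odd degree. Proof: `(a, b)` is trivial iff the form
`x² - a y² - b z² (+ a b t²)` is isotropic; `Hm/Spr.lean` (`spr_ext`). -/
theorem HS.odd [CharZero K] {M N : IntermediateField K Ω} (hMN : M ≤ N) [FiniteDimensional K N]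
    (ho : Odd (Module.finrank K N / Module.finrank K M)) {a b : Ω} (ha : a ∈ M) (hb : b ∈ M)
    (ha0 : a ≠ 0) (hb0 : b ≠ 0) : HS N a b ↔ HS M a b := by
  constructor
  · rintro ⟨x, hx, y, hy, h⟩
    let _ : Algebra M N := (IntermediateField.inclusion hMN).toRingHom.toAlgebra
    have hcoe : ∀ a : M, ((algebraMap M N a : N) : Ω) = a := fun _ => rfl
    have _ : IsScalarTower K M N := IsScalarTower.of_algebraMap_eq fun a => Subtype.ext rfl
    have hfin : FiniteDimensional K M := FiniteDimensional.left K M N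
    have hfin' : FiniteDimensional M N := FiniteDimensional.right K M N
    have hchar : CharZero M := charZero_of_injective_algebraMap (algebraMap K M).injective
    have h1 := Module.finrank_mul_finrank K M N
    rw [← h1, Nat.mul_div_cancel_left _ Module.finrank_pos] at ho
    obtain ⟨z, hz0, hz⟩ := Hm.spr_ext (K := M) (L := N) ho
      ![(1 : M), -⟨b, hb⟩, -⟨a, ha⟩] ⟨![(⟨x, hx⟩ : N), ⟨y, hy⟩, 1], by
        intro h2
        have h3 := congrFun h2 2
        exact one_ne_zero h3, by
        rw [Fin.sum_univ_three]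
        refine Subtype.ext ?_
        simp only [Matrix.cons_val_zero, Matrix.cons_val_one, Matrix.cons_val, map_one, map_neg,
          one_mul, one_pow, mul_one]
        push_cast
        rw [hcoe, hcoe]
        linear_combination -h⟩
    rw [Fin.sum_univ_three] at hz
    simp only [Matrix.cons_val_zero, Matrix.cons_val_one, Matrix.cons_val, one_mul] at hz
    have hz' : (z 0 : Ω) ^ 2 - b * (z 1 : Ω) ^ 2 - a * (z 2 : Ω) ^ 2 = 0 := by
      have h4 := congrArg (fun w : M => (w : Ω)) hz
      push_cast at h4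
      linear_combination h4
    by_cases h2 : (z 2 : Ω) = 0
    · have h5 : (z 0 : Ω) ^ 2 = b * (z 1 : Ω) ^ 2 := by
        rw [h2] at hz'
        linear_combination hz'
      have h6 : (z 1 : Ω) ≠ 0 := by
        intro h7
        rw [h7, zero_pow two_ne_zero, mul_zero] at h5
        have h8 : (z 0 : Ω) = 0 := pow_eq_zero_iff two_ne_zero |>.1 h5
        apply hz0
        funext i
        fin_cases i
        · exact Subtype.ext h8
        · exact Subtype.ext h7
        · exact Subtype.ext h2
      have h7 : b = ((z 0 : Ω) / (z 1 : Ω)) ^ 2 := by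
        rw [div_pow, h5, mul_div_cancel_right₀ _ (pow_ne_zero 2 h6)]
      rw [h7]
      refine hs_of_sq ha (M.div_mem (z 0).2 (z 1).2) ?_
      intro h8
      rw [h8] at h7
      exact hb0 (by rw [h7]; ring)
    · refine ⟨(z 0 : Ω) / (z 2 : Ω), M.div_mem (z 0).2 (z 2).2, (z 1 : Ω) / (z 2 : Ω),
        M.div_mem (z 1).2 (z 2).2, ?_⟩
      field_simp
      linear_combination -hz'
  · rintro ⟨x, hx, y, hy, h⟩
    exact ⟨x, hMN hx, y, hMN hy, h⟩

variable (K Ω) in
/-- Symbols of the finite extensions of `K`. -/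
structure Sym : Prop where
  mul : ∀ M : IntermediateField K Ω, FiniteDimensional K M → ∀ a a' b : Ω, a ∈ M → a' ∈ M → b ∈ M →
    a ≠ 0 → a' ≠ 0 → b ≠ 0 → (HS M (a * a') b ↔ (HS M a b ↔ HS M a' b))
  nondeg : ∀ M : IntermediateField K Ω, FiniteDimensional K M → ∀ b : Ω, b ∈ M → b ≠ 0 →
    ¬ SqM M b → ∃ a ∈ M, a ≠ 0 ∧ ¬ HS M a b

end sym

end BE
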