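import Pool.Agent.Lib.MP_f80667_ag.Be.ThN

/-! Norms for the classes of points. -/

namespace BE

variable {Γ A B X : Type} [Group Γ] [AddCommGroup A] [AddCommGroup B] [DistribMulAction Γ A]
  [DistribMulAction Γ B] [MulAction Γ X] {D : Dt Γ A B X} {G : Type} [AddCommGroup G] (T : Th D G)

/-- The norm from the fixed field of `S` to that of `H` in the fibre over `[u]`. -/
noncomputable def Nb (H S : Subgroup Γ) (u : A) (y : B) : B :=
  ∑ᶠ q : H ⧸ S.subgroupOf H, tw u (q.out : Γ) y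

/-- The norm from the fixed field of `S` to that of `H` on `E₁`. -/
noncomputable def Na (H S : Subgroup Γ) (a : A) : A :=
  ∑ᶠ q : H ⧸ S.subgroupOf H, (q.out : Γ) • a

variable {H S : Subgroup Γ} {u a : A} {y : B}

/-- A function on `H` which is invariant under `S` on the right is determined by the coset. -/
private theorem thm_out_eq {M : Type} {F : Γ → M} (hSH : S ≤ H)
    (hF : ∀ γ ∈ H, ∀ σ ∈ S, F (γ * σ) = F γ) (h : H) :
    F (((QuotientGroup.mk h : H ⧸ S.subgroupOf H).out : H) : Γ) = F (h : Γ) := by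
  obtain ⟨⟨k, hk⟩, h1⟩ := QuotientGroup.mk_out_eq_mul (S.subgroupOf H) h
  rw [h1]
  exact hF _ h.2 _ (Subgroup.mem_subgroupOf.1 hk)

private theorem thm_fin_quot (hf : S.FiniteIndex) : Finite (H ⧸ S.subgroupOf H) := by
  have h1 : (S.subgroupOf H).FiniteIndex := inferInstance
  exact Subgroup.finite_quotient_of_finiteIndex

private theorem thm_out_smul {M : Type} {F : Γ → M} (hSH : S ≤ H)
    (hF : ∀ γ ∈ H, ∀ σ ∈ S, F (γ * σ) = F γ) (h : H) (q : H ⧸ S.subgroupOf H) :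
    F (((h • q).out : H) : Γ) = F ((h : Γ) * ((q.out : H) : Γ)) := by
  have h1 : h • q = QuotientGroup.mk (h * q.out) := by
    conv_lhs => rw [← QuotientGroup.out_eq' q]
    rfl
  rw [h1, thm_out_eq hSH hF]
  rfl

theorem tw_mul (hu : D.UU H u) {γ δ : Γ} (hγ : γ ∈ H) (hδ : δ ∈ H) (y : B) :
    tw u (γ * δ) y = tw u γ (tw u δ y) := by
  have h1 := Dt.smul_px' (y := y) hu (H.mul_mem hγ hδ)
  rw [mul_smul, Dt.smul_px' hu hδ, Dt.smul_px' hu hγ, D.px_eq] at h1
  rcases h1 with h1 | h1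
  · exact h1.2
  · exact absurd (left_eq_add.1 h1.1) D.t_ne

theorem ac_tw (hu : D.UU H u) {γ : Γ} (hγ : γ ∈ H) (y : B) :
    ac γ (D.s u y) = D.s u (tw u γ y) := by
  unfold ac Dt.s
  rw [Finsupp.mapDomain_single, Dt.smul_px' hu hγ]

private theorem thm_tw_inv (hSH : S ≤ H) (hu : D.UU H u) (hy : D.PP S u y) :
    ∀ γ ∈ H, ∀ σ ∈ S, tw u (γ * σ) y = tw u γ y := by
  intro γ hγ σ hσ
  rw [tw_mul hu hγ (hSH hσ), (Dt.pp_iff hy.uu).1 hy σ hσ]

private theorem thm_sm_inv (ha : ∀ γ ∈ S, γ • a = a) :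
    ∀ γ ∈ H, ∀ σ ∈ S, (γ * σ) • a = γ • a := by
  intro γ _ σ hσ
  rw [mul_smul, ha σ hσ]

theorem Nb_add (ha : ∀ γ ∈ H, γ • a = a) : Nb H S (u + a) y = Nb H S u y := by
  unfold Nb
  exact finsum_congr fun q => tw_tr (ha _ q.out.2) y

theorem Nb_fix (hu : ∀ γ ∈ H, γ • u = u) : Nb H S u y = ∑ᶠ q : H ⧸ S.subgroupOf H, (q.out : Γ) • y := by
  unfold Nb
  refine finsum_congr fun q => ?_
  unfold tw
  rw [if_pos (hu _ q.out.2)]

theorem smul_Na (hS : S ≤ H) (hf : S.FiniteIndex) (ha : ∀ γ ∈ S, γ • a = a) {γ : Γ} (hγ : γ ∈ H) :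
    γ • Na H S a = Na H S a := by
  have := thm_fin_quot (H := H) hf
  have := Fintype.ofFinite (H ⧸ S.subgroupOf H)
  unfold Na
  rw [finsum_eq_sum_of_fintype, Finset.smul_sum]
  refine Fintype.sum_equiv (MulAction.toPerm (⟨γ, hγ⟩ : H)) _ _ fun q => ?_
  have h1 := thm_out_smul (F := fun γ => γ • a) hS (thm_sm_inv ha) ⟨γ, hγ⟩ q
  rw [← mul_smul]
  exact h1.symm

private theorem thm_tw_sum {ι : Type} [Fintype ι] (γ : Γ) (w : ι → B) :
    tw u γ (∑ i, w i) = ∑ i, tw u γ (w i) := by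
  unfold tw
  split_ifs
  · rw [Finset.smul_sum]
  · rw [Finset.smul_sum, Finset.sum_neg_distrib]

theorem pp_Nb (hS : S ≤ H) (hf : S.FiniteIndex) (hu : D.UU H u) (hy : D.PP S u y) :
    D.PP H u (Nb H S u y) := by
  have := thm_fin_quot (H := H) hf
  have := Fintype.ofFinite (H ⧸ S.subgroupOf H)
  rw [Dt.pp_iff hu]
  intro γ hγ
  unfold Nb
  rw [finsum_eq_sum_of_fintype, thm_tw_sum]
  refine Fintype.sum_equiv (MulAction.toPerm (⟨γ, hγ⟩ : H)) _ _ fun q => ?_
  have h1 := thm_out_smul (F := fun γ => tw u γ y) hS (thm_tw_inv hS hu hy) ⟨γ, hγ⟩ q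
  rw [← tw_mul hu hγ q.out.2]
  exact h1.symm

/-- The norm for a subgroup of index two. -/
theorem Nb_two (h2 : S.relIndex H = 2) (hS : S ≤ H) (hu : D.UU H u) (hy : D.PP S u y) {σ : Γ}
    (hσ : σ ∈ H) (hσ' : σ ∉ S) : Nb H S u y = y + tw u σ y := by
  classical
  have hc : Nat.card (H ⧸ S.subgroupOf H) = 2 := h2
  have : Finite (H ⧸ S.subgroupOf H) := Nat.finite_of_card_ne_zero (by rw [hc]; decide)
  have := Fintype.ofFinite (H ⧸ S.subgroupOf H)
  have hne : (QuotientGroup.mk 1 : H ⧸ S.subgroupOf H) ≠ QuotientGroup.mk ⟨σ, hσ⟩ := by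
    intro h
    rw [QuotientGroup.eq, inv_one, one_mul] at h
    exact hσ' (Subgroup.mem_subgroupOf.1 h)
  have hun : (Finset.univ : Finset (H ⧸ S.subgroupOf H)) =
      {QuotientGroup.mk 1, QuotientGroup.mk ⟨σ, hσ⟩} := by
    symm
    rw [Finset.eq_univ_iff_forall]
    have h3 : ({QuotientGroup.mk 1, QuotientGroup.mk ⟨σ, hσ⟩} :
        Finset (H ⧸ S.subgroupOf H)).card = Fintype.card (H ⧸ S.subgroupOf H) := by
      rw [Finset.card_pair hne, ← Nat.card_eq_fintype_card, hc]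
    rw [Finset.card_eq_iff_eq_univ] at h3
    rw [h3]
    exact Finset.mem_univ
  unfold Nb
  rw [finsum_eq_sum_of_fintype, hun, Finset.sum_pair hne]
  have h4 := thm_out_eq (F := fun γ => tw u γ y) hS (thm_tw_inv hS hu hy) 1
  have h5 := thm_out_eq (F := fun γ => tw u γ y) hS (thm_tw_inv hS hu hy) ⟨σ, hσ⟩
  have h6 : tw u ((1 : H) : Γ) y = y := by
    unfold tw
    rw [OneMemClass.coe_one, one_smul, one_smul, if_pos rfl]
  exact congrArg₂ (· + ·) (h4.trans h6) h5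

/-- Sylow subgroups. -/
private theorem thm_exists_syl {N : Subgroup Γ} (hN : N.Normal) (hNH : N ≤ H) (hf : N.FiniteIndex) :
    ∃ R : Subgroup Γ, N ≤ R ∧ R ≤ H ∧ Odd (R.relIndex H) ∧ ∃ k, N.relIndex R = 2 ^ k := by
  have : (N.subgroupOf H).Normal := Subgroup.normal_subgroupOf
  have hfin := thm_fin_quot (H := H) hf
  have : Fact (Nat.Prime 2) := ⟨Nat.prime_two⟩
  obtain ⟨P⟩ : Nonempty (Sylow 2 (H ⧸ N.subgroupOf H)) := inferInstance
  set R₀ : Subgroup H := (P : Subgroup (H ⧸ N.subgroupOf H)).comap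
    (QuotientGroup.mk' (N.subgroupOf H)) with hR₀
  have hRH : R₀.map H.subtype ≤ H := by
    rintro _ ⟨x, -, rfl⟩
    exact x.2
  have hNR : N ≤ R₀.map H.subtype := by
    intro x hx
    refine ⟨⟨x, hNH hx⟩, ?_, rfl⟩
    have h1 : QuotientGroup.mk' (N.subgroupOf H) ⟨x, hNH hx⟩ = 1 := by
      rw [QuotientGroup.mk'_apply, QuotientGroup.eq_one_iff]
      exact Subgroup.mem_subgroupOf.2 hx
    change QuotientGroup.mk' (N.subgroupOf H) ⟨x, hNH hx⟩ ∈ (P : Subgroup (H ⧸ N.subgroupOf H))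
    rw [h1]
    exact one_mem _
  have hidx : (R₀.map H.subtype).relIndex H = (P : Subgroup (H ⧸ N.subgroupOf H)).index := by
    have h1 : (R₀.map H.subtype).subgroupOf H = R₀ := by
      ext x
      rw [Subgroup.mem_subgroupOf]
      constructor
      · rintro ⟨x', hx', h2⟩
        rw [← Subtype.ext h2]
        exact hx'
      · intro hx
        exact ⟨x, hx, rfl⟩
    rw [Subgroup.relIndex, h1, hR₀]
    exact Subgroup.index_comap_of_surjective _ (QuotientGroup.mk'_surjective _)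
  have hmul := Subgroup.relIndex_mul_relIndex N (R₀.map H.subtype) H hNR hRH
  have hcard : N.relIndex H = Nat.card (H ⧸ N.subgroupOf H) := rfl
  have hP := (P : Subgroup (H ⧸ N.subgroupOf H)).card_mul_index
  have hne : (P : Subgroup (H ⧸ N.subgroupOf H)).index ≠ 0 := Subgroup.index_ne_zero_of_finite
  refine ⟨R₀.map H.subtype, hNR, hRH, ?_, ?_⟩
  · rw [hidx, ← Nat.not_even_iff_odd, even_iff_two_dvd]
    exact P.not_dvd_index
  · obtain ⟨k, hk⟩ := (IsPGroup.iff_card (p := 2)).1 P.isPGroup'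
    refine ⟨k, ?_⟩
    rw [hidx, hcard, ← hP] at hmul
    rw [← hk]
    exact Nat.eq_of_mul_eq_mul_right (Nat.pos_of_ne_zero hne) hmul

private theorem thm_triv_quot {h : H} (hh : (h : Γ) ∈ S.normalCore) (z : H ⧸ S.subgroupOf H) :
    h • z = z := by
  obtain ⟨g, rfl⟩ := QuotientGroup.mk_surjective z
  change (QuotientGroup.mk (h * g) : H ⧸ S.subgroupOf H) = QuotientGroup.mk g
  rw [eq_comm, QuotientGroup.eq, Subgroup.mem_subgroupOf]
  have h1 := (Subgroup.normalCore_normal S).conj_mem (h : Γ) hh ((g : Γ)⁻¹)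
  have h2 := Subgroup.normalCore_le S h1
  rw [inv_inv, mul_assoc] at h2
  exact h2

private theorem thm_ac_sum {ι : Type} [Fintype ι] (γ : Γ) (w : ι → X →₀ ℤ) :
    ac γ (∑ i, w i) = ∑ i, ac γ (w i) :=
  map_sum (Finsupp.mapDomain.addMonoidHom (M := ℤ) (γ • · : X → X)) _ _

open Th in

/-- **The norm in the fibres.** Proof: `N` the normal core of `S`, `H / N` finite, `R / N` a Sylow
`2`-subgroup of it, `R.relIndex H` odd. The difference `δ` of the two sides is killed by `4`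
(`four_f`), so it is enough that `R.relIndex H • δ = 0`: `Th.tr` gives
`f S u y = cl H (∑_q (s u (tw u q y) - s u 0))`, and `Th.res` (this cycle is invariant under `H`) and
`normB` for the `R`-set `Z = H / S` (`y q = tw u q.out y`) give
`R.relIndex H • f S u y = cl R (∑_q ...) = f R u (Nb H S u y) = R.relIndex H • f H u (Nb H S u y)`. -/
theorem Th.nB (hS : T.op S) (hSH : S ≤ H) (hu : D.UU H u) (hy : D.PP S u y) :
    T.f S u y = T.f H u (Nb H S u y) := by
  have hH := T.op_mono S H hS hSH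
  have hf := T.op_fin S hS
  have := thm_fin_quot (H := H) hf
  have := Fintype.ofFinite (H ⧸ S.subgroupOf H)
  obtain ⟨R, hNR, hRH, hodd, hk⟩ := thm_exists_syl (Subgroup.normalCore_normal S)
    ((Subgroup.normalCore_le S).trans hSH) (T.op_fin _ (T.op_core S hS))
  have hR := T.op_mono _ R (T.op_core S hS) hNR
  have hinv := thm_tw_inv hSH hu hy
  set w : H ⧸ S.subgroupOf H → B := fun q => tw u ((q.out : H) : Γ) y with hw
  have hwsm : ∀ (h : H) (q : H ⧸ S.subgroupOf H), w (h • q) = tw u (h : Γ) (w q) := by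
    intro h q
    have h1 := thm_out_smul (F := fun γ => tw u γ y) hSH hinv h q
    rw [hw]
    exact h1.trans (tw_mul hu h.2 q.out.2 y)
  have hNb : Nb H S u y = ∑ q, w q := by
    unfold Nb
    rw [finsum_eq_sum_of_fintype]
  -- the trace
  have h1 : T.f S u y = T.cl H (∑ q, (D.s u (w q) - D.s u 0)) := by
    unfold f
    rw [T.tr H S _ hS hSH fun γ hγ => by
      rw [ac_sub, Dt.ac_s hy hγ, Dt.ac_s (Dt.pp_zero hy.uu) hγ]]
    rw [finsum_eq_sum_of_fintype]
    congr 1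
    refine Finset.sum_congr rfl fun q _ => ?_
    rw [ac_sub, ac_tw hu q.out.2, Dt.ac_s (Dt.pp_zero hu) q.out.2]
  -- invariance
  have h2 : ∀ γ ∈ H, ac γ (∑ q, (D.s u (w q) - D.s u 0)) = ∑ q, (D.s u (w q) - D.s u 0) := by
    intro γ hγ
    rw [thm_ac_sum]
    refine Fintype.sum_equiv (MulAction.toPerm (⟨γ, hγ⟩ : H)) _ _ fun q => ?_
    rw [ac_sub, ac_tw hu hγ, Dt.ac_s (Dt.pp_zero hu) hγ]
    rw [← hwsm ⟨γ, hγ⟩ q]
    rfl
  have h3 := T.res H R _ hR hRH h2
  -- the norm for `R`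
  let act : MulAction R (H ⧸ S.subgroupOf H) :=
    MulAction.compHom _ (Subgroup.inclusion hRH)
  have h4 := T.normB _ R S.normalCore (Subgroup.normalCore_normal S) (T.op_core S hS) hNR hk u
    (fun γ hγ => hu γ (hRH hγ)) (H ⧸ S.subgroupOf H) w
    (fun h z hh => thm_triv_quot (h := Subgroup.inclusion hRH h) hh z)
    (fun h z => hwsm (Subgroup.inclusion hRH h) z) rfl
  rw [← hNb] at h4
  have hp := pp_Nb hSH hf hu hy
  rw [h3, T.f_res hR hRH hp, ← h1] at h4
  have h5 : R.relIndex H • (T.f S u y - T.f H u (Nb H S u y)) = 0 := by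
    rw [smul_sub, h4, sub_self]
  have h6 : 4 • (T.f S u y - T.f H u (Nb H S u y)) = 0 := by
    rw [smul_sub, T.four_f hS hy, T.four_f hH hp, sub_self]
  have h7 : 2 • (T.f S u y - T.f H u (Nb H S u y)) = 0 := by
    refine two_odd hodd ?_ ?_
    · rw [← mul_smul]
      exact h6
    · rw [smul_comm, h5, smul_zero]
  exact sub_eq_zero.1 (two_odd hodd h7 h5)

private theorem thm_ac_tr (h : D.PP H u y) {γ : Γ} (hγ : γ ∈ H) (b : A) :
    ac γ (D.s (u + b) y) = D.s (u + γ • b) y := by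
  unfold ac Dt.s
  rw [Finsupp.mapDomain_single, D.smul_px, smul_add]
  have h1 := h γ hγ
  rw [D.smul_px, D.px_eq] at h1
  rcases h1 with h1 | h1
  · rw [← h1.1, ← h1.2]
  · have h2 : γ • u = u + D.t := by
      rw [h1.1, add_assoc, D.two_t, add_zero, ← h1.1]
    have h3 : γ • y = -y := by
      rw [h1.2, neg_neg, ← h1.2]
    rw [h2, h3, add_right_comm, Dt.px_add_t]

open Th in

/-- **The norm in the orbits.** Proof: as `nB`, with `normA` and `two_br`. -/
theorem Th.nA (hS : T.op S) (hSH : S ≤ H) (h : D.PP H u y) (ha : ∀ γ ∈ S, γ • a = a) :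
    T.br S a u y = T.br H (Na H S a) u y := by
  have hH := T.op_mono S H hS hSH
  have hf := T.op_fin S hS
  have := thm_fin_quot (H := H) hf
  have := Fintype.ofFinite (H ⧸ S.subgroupOf H)
  obtain ⟨R, hNR, hRH, hodd, hk⟩ := thm_exists_syl (Subgroup.normalCore_normal S)
    ((Subgroup.normalCore_le S).trans hSH) (T.op_fin _ (T.op_core S hS))
  have hR := T.op_mono _ R (T.op_core S hS) hNR
  have hinv := thm_sm_inv (H := H) ha
  have h0 := Dt.pp_zero h.uu
  set w : H ⧸ S.subgroupOf H → A := fun q => ((q.out : H) : Γ) • a with hw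
  have hwsm : ∀ (h : H) (q : H ⧸ S.subgroupOf H), w (h • q) = (h : Γ) • (w q) := by
    intro h q
    have h1 := thm_out_smul (F := fun γ => γ • a) hSH hinv h q
    rw [hw]
    exact h1.trans (mul_smul _ _ _)
  have hNa : Na H S a = ∑ q, w q := by
    unfold Na
    rw [finsum_eq_sum_of_fintype]
  -- the trace
  have h1 : T.br S a u y = T.cl H (∑ q, ((D.s (u + w q) y - D.s (u + w q) 0) -
      (D.s u y - D.s u 0))) := by
    unfold br f
    rw [← map_sub, T.tr H S _ hS hSH fun γ hγ => by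
      rw [ac_sub, ac_sub, ac_sub, Dt.ac_s (Dt.pp_tr (Dt.pp_mono hSH h) ha) hγ,
        Dt.ac_s (Dt.pp_tr (Dt.pp_mono hSH h0) ha) hγ, Dt.ac_s h (hSH hγ), Dt.ac_s h0 (hSH hγ)]]
    rw [finsum_eq_sum_of_fintype]
    congr 1
    refine Finset.sum_congr rfl fun q _ => ?_
    rw [ac_sub, ac_sub, ac_sub, thm_ac_tr h q.out.2, thm_ac_tr h0 q.out.2, Dt.ac_s h q.out.2,
      Dt.ac_s h0 q.out.2]
  -- invariance
  have h2 : ∀ γ ∈ H, ac γ (∑ q, ((D.s (u + w q) y - D.s (u + w q) 0) -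
      (D.s u y - D.s u 0))) = ∑ q, ((D.s (u + w q) y - D.s (u + w q) 0) -
      (D.s u y - D.s u 0)) := by
    intro γ hγ
    rw [thm_ac_sum]
    refine Fintype.sum_equiv (MulAction.toPerm (⟨γ, hγ⟩ : H)) _ _ fun q => ?_
    rw [ac_sub, ac_sub, ac_sub, thm_ac_tr h hγ, thm_ac_tr h0 hγ, Dt.ac_s h hγ, Dt.ac_s h0 hγ]
    rw [← hwsm ⟨γ, hγ⟩ q]
    rfl
  have h3 := T.res H R _ hR hRH h2
  -- the norm for `R`
  let act : MulAction R (H ⧸ S.subgroupOf H) :=
    MulAction.compHom _ (Subgroup.inclusion hRH)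
  have h4 := T.normA _ R S.normalCore (Subgroup.normalCore_normal S) (T.op_core S hS) hNR hk u y
    (Dt.pp_mono hRH h) (H ⧸ S.subgroupOf H) w
    (fun h z hh => thm_triv_quot (h := Subgroup.inclusion hRH h) hh z)
    (fun h z => hwsm (Subgroup.inclusion hRH h) z) rfl
  rw [← hNa] at h4
  have hp : ∀ γ ∈ H, γ • Na H S a = Na H S a := fun γ hγ => smul_Na hSH hf ha hγ
  have h8 : T.br R (Na H S a) u y = R.relIndex H • T.br H (Na H S a) u y := by
    unfold br
    rw [T.f_res hR hRH h, T.f_res hR hRH (Dt.pp_tr h hp), smul_sub]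
  rw [h3, h8, ← h1] at h4
  refine sub_eq_zero.1 (two_odd hodd ?_ ?_)
  · rw [smul_sub, T.two_br hS (Dt.pp_mono hSH h) ha, T.two_br hH h hp, sub_self]
  · rw [smul_sub, h4, sub_self]

end BE
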