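import Pool.Agent.Lib.MP_f80667_ag.Be.Pair
import Pool.Agent.Lib.MP_f80667_ag.Be.Sy
import Pool.Agent.Lib.MP_f80667_ag.Be.ThM

/-!
Descent: halves of points and classes modulo squares.

* `Cf.al u`: the `X`-coordinate of a point of `E₁` up to squares (`1` at `0`, `b` at `t`).
* `Me M e`: the field `M(e)`; `Nf M N x`: the norm from `N` to `M`.
* `Cf.kap`, `Cf.th0`: see `Defs.lean`.
-/

open ZC Polynomial IntermediateField

namespace BE

section defs

/-- The `X`-coordinate up to squares. -/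
noncomputable def Cf.al {F : Type} [Field F] (C : Cf F) {L : Type} [Field L] [Algebra F L] :
    Pt C.W₁ L → L
  | .zero => 1
  | .some x _ _ => open Classical in if x = 0 then algebraMap F L C.b else x

variable {K Ω : Type} [Field K] [Field Ω] [Algebra K Ω]

/-- The field `M(e)`. -/
def Me (M : IntermediateField K Ω) (e : Ω) : IntermediateField K Ω :=
  M ⊔ IntermediateField.adjoin K {e}

/-- The norm from `N` to `M`. -/
noncomputable def Nf (M N : IntermediateField K Ω) (x : Ω) : Ω :=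
  ∏ᶠ q : M.fixingSubgroup ⧸ (N.fixingSubgroup).subgroupOf M.fixingSubgroup, (q.out : Ω ≃ₐ[K] Ω) x

end defs

variable {F : Type} [Field F] {K : Type} [Field K] [CharZero K] [Algebra F K] {Ω : Type} [Field Ω]
  [Algebra K Ω] [Algebra F Ω] [IsScalarTower F K Ω] [IsAlgClosure K Ω] (C : Cf F)

/-! ### The norm -/

omit [CharZero K] [IsAlgClosure K Ω] in
/-- The representatives may be changed. -/
private theorem hfD_rep {M N : IntermediateField K Ω} {x : Ω} (hx : x ∈ N)
    {g g' : M.fixingSubgroup}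
    (h : (QuotientGroup.mk g : M.fixingSubgroup ⧸ (N.fixingSubgroup).subgroupOf M.fixingSubgroup) =
      QuotientGroup.mk g') : (g : Ω ≃ₐ[K] Ω) x = (g' : Ω ≃ₐ[K] Ω) x := by
  rw [QuotientGroup.eq] at h
  have h1 : ((g⁻¹ * g' : M.fixingSubgroup) : Ω ≃ₐ[K] Ω) ∈ N.fixingSubgroup := h
  have h2 := (IntermediateField.mem_fixingSubgroup_iff N _).1 h1 x hx
  have h3 : ((g⁻¹ * g' : M.fixingSubgroup) : Ω ≃ₐ[K] Ω) x =
      (g : Ω ≃ₐ[K] Ω)⁻¹ ((g' : Ω ≃ₐ[K] Ω) x) := rfl
  rw [h3] at h2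
  have h4 := congrArg (g : Ω ≃ₐ[K] Ω) h2
  have h5 : (g : Ω ≃ₐ[K] Ω) ((g : Ω ≃ₐ[K] Ω)⁻¹ ((g' : Ω ≃ₐ[K] Ω) x)) = (g' : Ω ≃ₐ[K] Ω) x :=
    AlgEquiv.apply_symm_apply _ _
  rw [h5] at h4
  exact h4.symm

private theorem hfD_fin (M N : IntermediateField K Ω) [FiniteDimensional K N] :
    Finite (M.fixingSubgroup ⧸ (N.fixingSubgroup).subgroupOf M.fixingSubgroup) := by
  have h1 : N.fixingSubgroup.FiniteIndex := opn_fin _ (opn_fix N)
  infer_instance

theorem Nf_mem {M N : IntermediateField K Ω} (h : M ≤ N) [FiniteDimensional K N] {x : Ω}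
    (hx : x ∈ N) : Nf M N x ∈ M := by
  have hfin := hfD_fin M N
  cases nonempty_fintype (M.fixingSubgroup ⧸ (N.fixingSubgroup).subgroupOf M.fixingSubgroup)
  refine mem_of_fix M fun γ hγ => ?_
  rw [Nf, finprod_eq_prod_of_fintype, map_prod]
  refine Fintype.prod_equiv (MulAction.toPerm (⟨γ, hγ⟩ : M.fixingSubgroup)) _ _ fun q => ?_
  have h1 : γ ((q.out : Ω ≃ₐ[K] Ω) x) =
      (((⟨γ, hγ⟩ : M.fixingSubgroup) * q.out : M.fixingSubgroup) : Ω ≃ₐ[K] Ω) x := rfl
  rw [h1]
  refine hfD_rep hx ?_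
  rw [QuotientGroup.out_eq']
  have h2 : (QuotientGroup.mk ((⟨γ, hγ⟩ : M.fixingSubgroup) * q.out) :
      M.fixingSubgroup ⧸ (N.fixingSubgroup).subgroupOf M.fixingSubgroup) =
      (⟨γ, hγ⟩ : M.fixingSubgroup) • (QuotientGroup.mk q.out :
        M.fixingSubgroup ⧸ (N.fixingSubgroup).subgroupOf M.fixingSubgroup) := rfl
  rw [h2, QuotientGroup.out_eq']
  rfl

theorem Nf_mul (M N : IntermediateField K Ω) (h : M ≤ N) [FiniteDimensional K N] (x y : Ω) :
    Nf M N (x * y) = Nf M N x * Nf M N y := by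
  have hfin := hfD_fin M N
  cases nonempty_fintype (M.fixingSubgroup ⧸ (N.fixingSubgroup).subgroupOf M.fixingSubgroup)
  rw [Nf, Nf, Nf, finprod_eq_prod_of_fintype, finprod_eq_prod_of_fintype,
    finprod_eq_prod_of_fintype, ← Finset.prod_mul_distrib]
  exact Finset.prod_congr rfl fun q _ => map_mul _ _ _

theorem Nf_ne {M N : IntermediateField K Ω} (h : M ≤ N) [FiniteDimensional K N] {x : Ω}
    (hx : x ≠ 0) : Nf M N x ≠ 0 := by
  have hfin := hfD_fin M N
  cases nonempty_fintype (M.fixingSubgroup ⧸ (N.fixingSubgroup).subgroupOf M.fixingSubgroup)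
  rw [Nf, finprod_eq_prod_of_fintype]
  refine Finset.prod_ne_zero_iff.2 fun q _ => ?_
  rwa [Ne, map_eq_zero_iff _ (q.out : Ω ≃ₐ[K] Ω).injective]

theorem Nf_base {M N : IntermediateField K Ω} (h : M ≤ N) [FiniteDimensional K N] {x : Ω}
    (hx : x ∈ M) : Nf M N x = x ^ (Module.finrank K N / Module.finrank K M) := by
  have hfin := hfD_fin M N
  cases nonempty_fintype (M.fixingSubgroup ⧸ (N.fixingSubgroup).subgroupOf M.fixingSubgroup)
  have hM : FiniteDimensional K M :=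
    FiniteDimensional.of_injective (IntermediateField.inclusion h).toLinearMap
      (IntermediateField.inclusion_injective h)
  have h1 : ∀ q : M.fixingSubgroup ⧸ (N.fixingSubgroup).subgroupOf M.fixingSubgroup,
      (q.out : Ω ≃ₐ[K] Ω) x = x := fun q =>
    (IntermediateField.mem_fixingSubgroup_iff M _).1 q.out.2 x hx
  rw [Nf, finprod_eq_prod_of_fintype, Finset.prod_congr rfl fun q _ => h1 q, Finset.prod_const,
    Finset.card_univ, ← Nat.card_eq_fintype_card]
  congr 1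
  have h2 := relIndex_fix h
  rw [← h2, Nat.mul_div_cancel _ Module.finrank_pos]
  rfl

end BE
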