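import Pool.Agent.Lib.MP_f80667_ag.Be.HfD
import Pool.Agent.Lib.MP_f80667_ag.Be.Gal

/-! Descent: the classes `kap` of the points of `E₁ / t`. -/

open ZC Polynomial IntermediateField

namespace BE

variable {F : Type} [Field F] {K : Type} [Field K] [CharZero K] [Algebra F K] {Ω : Type} [Field Ω]
  [Algebra K Ω] [Algebra F Ω] [IsScalarTower F K Ω] [IsAlgClosure K Ω] (C : Cf F)

/-! ### `kap` -/

omit [CharZero K] [Algebra F K] [Algebra K Ω] [IsScalarTower F K Ω] [IsAlgClosure K Ω] [Field K] in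
theorem kap_ne (u : Pt C.W₁ Ω) : C.kap Ω u ≠ 0 := by
  classical
  match u with
  | .zero => exact one_ne_zero
  | .some x y h =>
    simp only [Cf.kap]
    split_ifs with h1 h2
    · exact one_ne_zero
    · rw [Ne, map_eq_zero]
      exact C.hab
    · exact pow_ne_zero 2 (div_ne_zero h2 h1)

/-- `exists_r` over `M`. -/
theorem HfK_r {M : IntermediateField K Ω} {u : Pt C.W₁ Ω}
    (hu : (C.dt K Ω).UU M.fixingSubgroup u) :
    ∃ r : Ω, r ≠ 0 ∧ r ^ 2 = C.kap Ω u ∧ C.kap Ω u ∈ M ∧ ∀ γ ∈ M.fixingSubgroup,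
      (γ • u = u → γ r = r) ∧ (γ • u = u + C.t Ω → γ r = -r) := by
  have i1 : IsAlgClosure M Ω := ⟨IsAlgClosure.isAlgClosed K, inferInstance⟩
  have i2 : IsScalarTower F M Ω := IsScalarTower.of_algebraMap_eq fun _ => rfl
  obtain ⟨r, hr0, hr, ⟨κ, hκ⟩, hγ⟩ := exists_r (K := M) (Ω := Ω) C (u := u) fun γ =>
    hu (γ.restrictScalars K) (by
      rw [IntermediateField.mem_fixingSubgroup_iff]
      intro x hx
      exact γ.commutes ⟨x, hx⟩)
  refine ⟨r, hr0, hr, ?_, fun γ hγM => ?_⟩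
  · rw [← hr, ← hκ]
    exact κ.2
  · rw [IntermediateField.mem_fixingSubgroup_iff] at hγM
    let γ' : Ω ≃ₐ[M] Ω := { γ with commutes' := fun x => hγM x x.2 }
    exact hγ γ'

/-- Proof: `exists_r` over `M`. -/
theorem kap_mem {M : IntermediateField K Ω} {u : Pt C.W₁ Ω}
    (hu : (C.dt K Ω).UU M.fixingSubgroup u) : C.kap Ω u ∈ M := by
  obtain ⟨r, -, -, h, -⟩ := HfK_r C hu
  exact h

theorem HfK_two (K : Type) {Ω : Type} [Field K] [CharZero K] [Field Ω] [Algebra K Ω] :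
    (2 : Ω) ≠ 0 := by
  have i1 : CharZero Ω := charZero_of_injective_algebraMap (algebraMap K Ω).injective
  exact two_ne_zero

theorem kap_fix {M : IntermediateField K Ω} {u : Pt C.W₁ Ω}
    (hu : (C.dt K Ω).UU M.fixingSubgroup u) :
    SqM M (C.kap Ω u) ↔ ∀ γ ∈ M.fixingSubgroup, γ • u = u := by
  obtain ⟨r, hr0, hr, -, hγ⟩ := HfK_r C hu
  constructor
  · rintro ⟨x, hx, hxr⟩ γ hγM
    have hrM : r ∈ M := by
      have h1 : r ^ 2 = x ^ 2 := by rw [hr, hxr]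
      rcases sq_eq_sq_iff_eq_or_eq_neg.1 h1 with h2 | h2
      · rw [h2]
        exact hx
      · rw [h2]
        exact neg_mem hx
    rcases hu γ hγM with h1 | h1
    · exact h1
    · exfalso
      have h2 := (hγ γ hγM).2 h1
      rw [(IntermediateField.mem_fixingSubgroup_iff M γ).1 hγM r hrM] at h2
      have h3 : 2 * r = 0 := by linear_combination h2
      exact (mul_ne_zero (HfK_two K) hr0) h3
  · intro h
    exact ⟨r, mem_of_fix M fun γ hγM => (hγ γ hγM).1 (h γ hγM), hr.symm⟩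

/-- Proof: `exists_r`: the signs of the square roots multiply as the shifts by `t` add. -/
theorem kap_add {M : IntermediateField K Ω} {u u' : Pt C.W₁ Ω}
    (hu : (C.dt K Ω).UU M.fixingSubgroup u) (hu' : (C.dt K Ω).UU M.fixingSubgroup u') :
    (C.dt K Ω).UU M.fixingSubgroup (u + u') ∧
      SqM M (C.kap Ω (u + u') * (C.kap Ω u * C.kap Ω u')) := by
  have key : ∀ γ ∈ M.fixingSubgroup,
      (γ • u = u ∧ γ • u' = u' ∧ γ • (u + u') = u + u') ∨
      (γ • u = u ∧ γ • u' = u' + C.t Ω ∧ γ • (u + u') = u + u' + C.t Ω) ∨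
      (γ • u = u + C.t Ω ∧ γ • u' = u' ∧ γ • (u + u') = u + u' + C.t Ω) ∨
      (γ • u = u + C.t Ω ∧ γ • u' = u' + C.t Ω ∧ γ • (u + u') = u + u') := by
    intro γ hγ
    rcases hu γ hγ with h1 | h1 <;> rcases hu' γ hγ with h2 | h2
    · exact Or.inl ⟨h1, h2, by rw [smul_add, h1, h2]⟩
    · refine Or.inr (Or.inl ⟨h1, h2, ?_⟩)
      rw [smul_add, h1, h2]
      exact (add_assoc u u' (C.t Ω)).symm
    · refine Or.inr (Or.inr (Or.inl ⟨h1, h2, ?_⟩))
      rw [smul_add, h1, h2]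
      exact add_right_comm u (C.t Ω) u'
    · refine Or.inr (Or.inr (Or.inr ⟨h1, h2, ?_⟩))
      rw [smul_add, h1, h2]
      change u + C.t Ω + (u' + C.t Ω) = u + u'
      rw [add_add_add_comm, C.two_t, add_zero]
  have hUU : (C.dt K Ω).UU M.fixingSubgroup (u + u') := by
    intro γ hγ
    rcases key γ hγ with h | h | h | h
    · exact Or.inl h.2.2
    · exact Or.inr h.2.2
    · exact Or.inr h.2.2
    · exact Or.inl h.2.2
  refine ⟨hUU, ?_⟩
  obtain ⟨r, -, hr, -, hγ⟩ := HfK_r C hu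
  obtain ⟨r', -, hr', -, hγ'⟩ := HfK_r C hu'
  obtain ⟨r'', -, hr'', -, hγ''⟩ := HfK_r C hUU
  refine ⟨r'' * (r * r'), mem_of_fix M fun γ hγM => ?_, by rw [← hr, ← hr', ← hr'']; ring⟩
  rw [map_mul, map_mul]
  rcases key γ hγM with h | h | h | h
  · rw [(hγ γ hγM).1 h.1, (hγ' γ hγM).1 h.2.1, (hγ'' γ hγM).1 h.2.2]
  · rw [(hγ γ hγM).1 h.1, (hγ' γ hγM).2 h.2.1, (hγ'' γ hγM).2 h.2.2]
    ring
  · rw [(hγ γ hγM).2 h.1, (hγ' γ hγM).1 h.2.1, (hγ'' γ hγM).2 h.2.2]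
    ring
  · rw [(hγ γ hγM).2 h.1, (hγ' γ hγM).2 h.2.1, (hγ'' γ hγM).1 h.2.2]
    ring

/-- Sums with shifts and products with signs. -/
theorem HfK_sum {A T : Type} [AddCommGroup A] {t : A} (ht : t + t = 0) {Ω : Type} [Field Ω]
    (s : Finset T) (f g : T → A) (a b : T → Ω)
    (h : ∀ q, (f q = g q ∧ a q = b q) ∨ (f q = g q + t ∧ a q = -b q)) :
    (∑ q ∈ s, f q = ∑ q ∈ s, g q ∧ ∏ q ∈ s, a q = ∏ q ∈ s, b q) ∨
      (∑ q ∈ s, f q = (∑ q ∈ s, g q) + t ∧ ∏ q ∈ s, a q = -∏ q ∈ s, b q) := by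
  classical
  induction s using Finset.induction_on with
  | empty => exact Or.inl ⟨by simp, by simp⟩
  | insert q s hq ih =>
    rw [Finset.sum_insert hq, Finset.sum_insert hq, Finset.prod_insert hq, Finset.prod_insert hq]
    rcases h q with ⟨h1, h2⟩ | ⟨h1, h2⟩ <;> rcases ih with ⟨h3, h4⟩ | ⟨h3, h4⟩
    · left
      rw [h1, h2, h3, h4]
      exact ⟨rfl, rfl⟩
    · right
      rw [h1, h2, h3, h4]
      exact ⟨by rw [add_assoc], by ring⟩
    · right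
      rw [h1, h2, h3, h4]
      exact ⟨by rw [add_right_comm], by ring⟩
    · left
      rw [h1, h2, h3, h4]
      exact ⟨by rw [add_add_add_comm, ht, add_zero], by ring⟩

/-- Proof: `exists_r` over `N`: `r' = ∏ q r` transforms under `Gal(Ω/M)` as `u' = ∑ q u` under the shift by `t`. -/
theorem kap_norm {M N : IntermediateField K Ω} (h : M ≤ N) [FiniteDimensional K N]
    {u : Pt C.W₁ Ω} (hu : (C.dt K Ω).UU N.fixingSubgroup u) :
    (C.dt K Ω).UU M.fixingSubgroup (Na M.fixingSubgroup N.fixingSubgroup u) ∧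
      SqM M (C.kap Ω (Na M.fixingSubgroup N.fixingSubgroup u) * Nf M N (C.kap Ω u)) := by
  classical
  obtain ⟨r, hr0, hr, -, hγ⟩ := HfK_r C hu
  have hfi : N.fixingSubgroup.FiniteIndex := opn_fin _ (opn_fix N)
  have hfi' : (N.fixingSubgroup.subgroupOf M.fixingSubgroup).FiniteIndex := inferInstance
  have hfin : Finite (M.fixingSubgroup ⧸ N.fixingSubgroup.subgroupOf M.fixingSubgroup) :=
    Subgroup.finite_quotient_of_finiteIndex
  have := Fintype.ofFinite (M.fixingSubgroup ⧸ N.fixingSubgroup.subgroupOf M.fixingSubgroup)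
  have key : ∀ γ : M.fixingSubgroup,
      ((γ : Ω ≃ₐ[K] Ω) • Na M.fixingSubgroup N.fixingSubgroup u =
        Na M.fixingSubgroup N.fixingSubgroup u ∧
        (γ : Ω ≃ₐ[K] Ω) (∏ q : M.fixingSubgroup ⧸ N.fixingSubgroup.subgroupOf M.fixingSubgroup,
          (q.out : Ω ≃ₐ[K] Ω) r) =
          ∏ q : M.fixingSubgroup ⧸ N.fixingSubgroup.subgroupOf M.fixingSubgroup,
            (q.out : Ω ≃ₐ[K] Ω) r) ∨
      ((γ : Ω ≃ₐ[K] Ω) • Na M.fixingSubgroup N.fixingSubgroup u =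
        Na M.fixingSubgroup N.fixingSubgroup u + C.t Ω ∧
        (γ : Ω ≃ₐ[K] Ω) (∏ q : M.fixingSubgroup ⧸ N.fixingSubgroup.subgroupOf M.fixingSubgroup,
          (q.out : Ω ≃ₐ[K] Ω) r) =
          -∏ q : M.fixingSubgroup ⧸ N.fixingSubgroup.subgroupOf M.fixingSubgroup,
            (q.out : Ω ≃ₐ[K] Ω) r) := by
    intro γ
    unfold Na
    rw [finsum_eq_sum_of_fintype, Finset.smul_sum, map_prod]
    have e1 : ∑ q : M.fixingSubgroup ⧸ N.fixingSubgroup.subgroupOf M.fixingSubgroup,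
        (q.out : Ω ≃ₐ[K] Ω) • u =
        ∑ q : M.fixingSubgroup ⧸ N.fixingSubgroup.subgroupOf M.fixingSubgroup,
          (((γ • q).out : M.fixingSubgroup) : Ω ≃ₐ[K] Ω) • u :=
      (Equiv.sum_comp (MulAction.toPerm γ) fun q :
        M.fixingSubgroup ⧸ N.fixingSubgroup.subgroupOf M.fixingSubgroup =>
          (q.out : Ω ≃ₐ[K] Ω) • u).symm
    have e2 : ∏ q : M.fixingSubgroup ⧸ N.fixingSubgroup.subgroupOf M.fixingSubgroup,
        (q.out : Ω ≃ₐ[K] Ω) r =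
        ∏ q : M.fixingSubgroup ⧸ N.fixingSubgroup.subgroupOf M.fixingSubgroup,
          (((γ • q).out : M.fixingSubgroup) : Ω ≃ₐ[K] Ω) r :=
      (Equiv.prod_comp (MulAction.toPerm γ) fun q :
        M.fixingSubgroup ⧸ N.fixingSubgroup.subgroupOf M.fixingSubgroup =>
          (q.out : Ω ≃ₐ[K] Ω) r).symm
    rw [e1, e2]
    refine HfK_sum (C.two_t Ω) Finset.univ _ _ _ _ fun q => ?_
    obtain ⟨⟨k, hk⟩, h1⟩ := QuotientGroup.mk_out_eq_mul
      (N.fixingSubgroup.subgroupOf M.fixingSubgroup) (γ * q.out)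
    have h2 : (QuotientGroup.mk (γ * q.out) :
        M.fixingSubgroup ⧸ N.fixingSubgroup.subgroupOf M.fixingSubgroup) = γ • q := by
      conv_rhs => rw [← QuotientGroup.out_eq' q]
      rfl
    rw [h2] at h1
    have hkN : ((k : M.fixingSubgroup) : Ω ≃ₐ[K] Ω)⁻¹ ∈ N.fixingSubgroup :=
      inv_mem (Subgroup.mem_subgroupOf.1 hk)
    have h3 : (γ : Ω ≃ₐ[K] Ω) * (q.out : Ω ≃ₐ[K] Ω) =
        (((γ • q).out : M.fixingSubgroup) : Ω ≃ₐ[K] Ω) *
          ((k : M.fixingSubgroup) : Ω ≃ₐ[K] Ω)⁻¹ := by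
      rw [h1]
      simp
    have h4 : (γ : Ω ≃ₐ[K] Ω) • (q.out : Ω ≃ₐ[K] Ω) • u =
        (((γ • q).out : M.fixingSubgroup) : Ω ≃ₐ[K] Ω) •
          ((k : M.fixingSubgroup) : Ω ≃ₐ[K] Ω)⁻¹ • u := by
      rw [← mul_smul, h3, mul_smul]
    have h5 : (γ : Ω ≃ₐ[K] Ω) ((q.out : Ω ≃ₐ[K] Ω) r) =
        (((γ • q).out : M.fixingSubgroup) : Ω ≃ₐ[K] Ω)
          ((((k : M.fixingSubgroup) : Ω ≃ₐ[K] Ω)⁻¹ : Ω ≃ₐ[K] Ω) r) := by
      rw [← AlgEquiv.mul_apply, h3, AlgEquiv.mul_apply]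
    rw [h4, h5]
    rcases hu _ hkN with h6 | h6
    · left
      rw [h6, (hγ _ hkN).1 h6]
      exact ⟨rfl, rfl⟩
    · right
      have h7 := (hγ _ hkN).2 h6
      rw [h6, h7, smul_add, map_neg, (C.dt K Ω).smul_t]
      exact ⟨rfl, rfl⟩
  have hUU : (C.dt K Ω).UU M.fixingSubgroup (Na M.fixingSubgroup N.fixingSubgroup u) := by
    intro γ hγM
    rcases key ⟨γ, hγM⟩ with h1 | h1
    · exact Or.inl h1.1
    · exact Or.inr h1.1
  refine ⟨hUU, ?_⟩
  obtain ⟨r', -, hr', -, hγ'⟩ := HfK_r C hUU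
  refine ⟨r' * ∏ q : M.fixingSubgroup ⧸ N.fixingSubgroup.subgroupOf M.fixingSubgroup,
    (q.out : Ω ≃ₐ[K] Ω) r, mem_of_fix M fun γ hγM => ?_, ?_⟩
  · rw [map_mul]
    rcases key ⟨γ, hγM⟩ with h1 | h1
    · rw [(hγ' γ hγM).1 h1.1, h1.2]
    · rw [(hγ' γ hγM).2 h1.1, h1.2]
      ring
  · rw [mul_pow, hr', ← Finset.prod_pow]
    congr 1
    unfold Nf
    rw [finprod_eq_prod_of_fintype]
    refine Finset.prod_congr rfl fun q _ => ?_
    rw [← map_pow, hr]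

end BE
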