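import Pool.Agent.Lib.MP_f80667_ag.Be.HfA

/-! Descent: classes of norms. -/

open ZC Polynomial IntermediateField

namespace BE

variable {F : Type} [Field F] {K : Type} [Field K] [CharZero K] [Algebra F K] {Ω : Type} [Field Ω]
  [Algebra K Ω] [Algebra F Ω] [IsScalarTower F K Ω] [IsAlgClosure K Ω] (C : Cf F)

/-! ### Points of order two of `E₁` -/

section two

omit [CharZero K] [IsAlgClosure K Ω] [IsScalarTower F K Ω] [Algebra K Ω] [Field K] [Algebra F K]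

theorem HfN_two (ε : Pt C.W₁ Ω) (h : ε + ε = 0) : ε = 0 ∨ ε = C.t Ω ∨
    ∃ (x : Ω) (hx : (C.W₁.baseChange Ω).toAffine.Nonsingular x 0), x ≠ 0 ∧
      x ^ 2 + algebraMap F Ω C.a * x + algebraMap F Ω C.b = 0 ∧ ε = Pt.aff x 0 hx := by
  classical
  rcases Pt.cases' ε with rfl | ⟨x, y, hP, rfl⟩
  · exact Or.inl rfl
  · right
    have hy : y = 0 := by
      by_contra hy
      have hne : y ≠ (C.W₁.baseChange Ω).toAffine.negY x y := by
        intro h1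
        simp only [WeierstrassCurve.Affine.negY, Cf.W₁, WeierstrassCurve.baseChange,
          WeierstrassCurve.map, map_zero, zero_mul, sub_zero] at h1
        have h2 : (2 : Ω) ≠ 0 := by
          have := C.h2
          intro h3
          apply this
          apply (algebraMap F Ω).injective
          rw [map_ofNat, h3, map_zero]
        apply hy
        have h3 : 2 * y = 0 := by linear_combination h1
        exact (mul_eq_zero.1 h3).resolve_left h2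
      have h1 := WeierstrassCurve.Affine.Point.add_self_of_Y_ne (h₁ := hP) hne
      have h2 : Pt.aff x y hP + Pt.aff x y hP = WeierstrassCurve.Affine.Point.some _ _
        (WeierstrassCurve.Affine.nonsingular_add hP hP fun hxy => hne hxy.right) := h1
      rw [h2] at h
      exact WeierstrassCurve.Affine.Point.some_ne_zero _ h
    subst hy
    have h1 := hP.1
    rw [WeierstrassCurve.Affine.equation_iff] at h1
    simp only [Cf.W₁, WeierstrassCurve.baseChange, WeierstrassCurve.map, map_zero] at h1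
    by_cases hx : x = 0
    · subst hx
      exact Or.inl rfl
    · refine Or.inr ⟨x, hP, hx, ?_, rfl⟩
      have h2 : x * (x ^ 2 + algebraMap F Ω C.a * x + algebraMap F Ω C.b) = 0 := by
        linear_combination - h1
      exact (mul_eq_zero.1 h2).resolve_left hx

theorem HfN_add_t (x : Ω) (hx : x ≠ 0) (h : (C.W₁.baseChange Ω).toAffine.Nonsingular x 0)
    (h' : (C.W₁.baseChange Ω).toAffine.Nonsingular (algebraMap F Ω C.b / x) 0) :
    Pt.aff x 0 h + C.t Ω = Pt.aff _ _ h' := by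
  classical
  have hadd : Pt.aff x 0 h + C.t Ω = Pt.aff _ _
      (WeierstrassCurve.Affine.nonsingular_add h (C.nonsing Ω) fun hxy => hx hxy.1) :=
    WeierstrassCurve.Affine.Point.add_of_X_ne (h₁ := h) (h₂ := C.nonsing Ω) hx
  have h1 := h.1
  rw [WeierstrassCurve.Affine.equation_iff] at h1
  simp only [Cf.W₁, WeierstrassCurve.baseChange, WeierstrassCurve.map, map_zero] at h1
  have h2 : x ^ 2 + algebraMap F Ω C.a * x + algebraMap F Ω C.b = 0 := by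
    have h2 : x * (x ^ 2 + algebraMap F Ω C.a * x + algebraMap F Ω C.b) = 0 := by
      linear_combination - h1
    exact (mul_eq_zero.1 h2).resolve_left hx
  have hX : ((C.W₁).baseChange Ω).toAffine.addX x 0
      (((C.W₁).baseChange Ω).toAffine.slope x 0 0 0) = algebraMap F Ω C.b / x := by
    rw [WeierstrassCurve.Affine.slope_of_X_ne hx]
    simp only [WeierstrassCurve.Affine.addX, Cf.W₁, WeierstrassCurve.baseChange,
      WeierstrassCurve.map, map_zero]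
    field_simp
    linear_combination - x ^ 2 * h2
  have hY : ((C.W₁).baseChange Ω).toAffine.addY x 0 0
      (((C.W₁).baseChange Ω).toAffine.slope x 0 0 0) = 0 := by
    rw [WeierstrassCurve.Affine.addY, WeierstrassCurve.Affine.negAddY, hX,
      WeierstrassCurve.Affine.slope_of_X_ne hx]
    simp only [WeierstrassCurve.Affine.negY, Cf.W₁, WeierstrassCurve.baseChange,
      WeierstrassCurve.map, map_zero]
    simp
  rw [hadd]
  simp only [Pt.aff, hX, hY]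

/-- `ε` is a point of order two and `r = ± 1` is its sign: `1` if `ε` is `0` or `t`. -/
def HfN_R (ε : Pt C.W₁ Ω) (r : Ω) : Prop :=
  ε + ε = 0 ∧ ((r = 1 ∧ (ε = 0 ∨ ε = C.t Ω)) ∨ (r = -1 ∧ ¬ (ε = 0 ∨ ε = C.t Ω)))

variable {C}

theorem HfN_R.sq {ε : Pt C.W₁ Ω} {r : Ω} (h : HfN_R C ε r) : r * r = 1 := by
  rcases h.2 with ⟨h1, -⟩ | ⟨h1, -⟩ <;> rw [h1] <;> ring

theorem HfN_R.neg {ε : Pt C.W₁ Ω} {r : Ω} (h : HfN_R C ε r) : HfN_R C (-ε) r := by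
  have h1 : -ε = ε := (eq_neg_of_add_eq_zero_left h.1).symm
  rw [h1]
  exact h

theorem HfN_R.ex {ε : Pt C.W₁ Ω} (h : ε + ε = 0) : ∃ r, HfN_R C ε r := by
  by_cases h1 : ε = 0 ∨ ε = C.t Ω
  · exact ⟨1, h, Or.inl ⟨rfl, h1⟩⟩
  · exact ⟨-1, h, Or.inr ⟨rfl, h1⟩⟩

theorem HfN_R.uniq {ε : Pt C.W₁ Ω} {r r' : Ω} (h : HfN_R C ε r) (h' : HfN_R C ε r') : r = r' := by
  rcases h.2 with ⟨h1, h2⟩ | ⟨h1, h2⟩ <;> rcases h'.2 with ⟨h3, h4⟩ | ⟨h3, h4⟩
  · rw [h1, h3]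
  · exact absurd h2 h4
  · exact absurd h4 h2
  · rw [h1, h3]

theorem HfN_R.zero : HfN_R C (0 : Pt C.W₁ Ω) 1 := ⟨add_zero _, Or.inl ⟨rfl, Or.inl rfl⟩⟩

theorem HfN_O {ε₁ ε₂ : Pt C.W₁ Ω} (h₁ : ε₁ = 0 ∨ ε₁ = C.t Ω) (h₂ : ε₂ = 0 ∨ ε₂ = C.t Ω) :
    ε₁ + ε₂ = 0 ∨ ε₁ + ε₂ = C.t Ω := by
  rcases h₁ with rfl | rfl <;> rcases h₂ with rfl | rfl
  · simp
  · simp
  · simp
  · left
    exact C.two_t Ω

theorem HfN_O' {ε₁ ε₂ : Pt C.W₁ Ω} (h1 : ε₁ + ε₁ = 0) (h2 : ε₂ + ε₂ = 0)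
    (h₁ : ¬ (ε₁ = 0 ∨ ε₁ = C.t Ω)) (h₂ : ¬ (ε₂ = 0 ∨ ε₂ = C.t Ω)) :
    ε₁ + ε₂ = 0 ∨ ε₁ + ε₂ = C.t Ω := by
  rcases HfN_two C ε₁ h1 with h | h | ⟨x₁, k₁, n₁, q₁, e₁⟩
  · exact absurd (Or.inl h) h₁
  · exact absurd (Or.inr h) h₁
  rcases HfN_two C ε₂ h2 with h | h | ⟨x₂, k₂, n₂, q₂, e₂⟩
  · exact absurd (Or.inl h) h₂
  · exact absurd (Or.inr h) h₂
  by_cases hx : x₁ = x₂
  · left
    subst hx
    rw [e₂, ← e₁]
    exact h1
  · right
    have h3 : x₁ + x₂ + algebraMap F Ω C.a = 0 := by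
      have : (x₁ - x₂) * (x₁ + x₂ + algebraMap F Ω C.a) = 0 := by linear_combination q₁ - q₂
      exact (mul_eq_zero.1 this).resolve_left (sub_ne_zero.2 hx)
    have h4 : x₂ = algebraMap F Ω C.b / x₁ := by
      rw [eq_div_iff n₁]
      linear_combination x₁ * h3 - q₁
    have h5 : ε₁ + C.t Ω = ε₂ := by
      subst h4
      rw [e₁, e₂]
      exact HfN_add_t C x₁ n₁ k₁ k₂
    rw [← h5, ← add_assoc, h1, zero_add]

theorem HfN_R.add {ε₁ ε₂ : Pt C.W₁ Ω} {r₁ r₂ : Ω} (h₁ : HfN_R C ε₁ r₁) (h₂ : HfN_R C ε₂ r₂) :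
    HfN_R C (ε₁ + ε₂) (r₁ * r₂) := by
  have h3 : (ε₁ + ε₂) + (ε₁ + ε₂) = 0 := by
    rw [add_add_add_comm, h₁.1, h₂.1, add_zero]
  refine ⟨h3, ?_⟩
  rcases h₁.2 with ⟨a₁, b₁⟩ | ⟨a₁, b₁⟩ <;> rcases h₂.2 with ⟨a₂, b₂⟩ | ⟨a₂, b₂⟩
  · left
    exact ⟨by rw [a₁, a₂, one_mul], HfN_O b₁ b₂⟩
  · right
    refine ⟨by rw [a₁, a₂, one_mul], fun h => b₂ ?_⟩
    have h4 := HfN_O b₁ h
    rwa [← add_assoc, h₁.1, zero_add] at h4
  · right
    refine ⟨by rw [a₁, a₂, mul_one], fun h => b₁ ?_⟩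
    have h4 := HfN_O h b₂
    rwa [add_assoc, h₂.1, add_zero] at h4
  · left
    exact ⟨by rw [a₁, a₂]; ring, HfN_O' h₁.1 h₂.1 b₁ b₂⟩

theorem HfN_R.sum {ι : Type} (s : Finset ι) (ε : ι → Pt C.W₁ Ω) (r : ι → Ω)
    (h : ∀ i ∈ s, HfN_R C (ε i) (r i)) : HfN_R C (∑ i ∈ s, ε i) (∏ i ∈ s, r i) := by
  classical
  induction s using Finset.induction_on with
  | empty =>
    rw [Finset.sum_empty, Finset.prod_empty]
    exact HfN_R.zero
  | insert i s hi ih =>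
    rw [Finset.sum_insert hi, Finset.prod_insert hi]
    exact (h i (Finset.mem_insert_self i s)).add
      (ih fun j hj => h j (Finset.mem_insert_of_mem hj))

end two

section gal

omit [CharZero K] [IsAlgClosure K Ω]

variable {C}

theorem HfN_R.smul {ε : Pt C.W₁ Ω} {r : Ω} (h : HfN_R C ε r) (γ : Ω ≃ₐ[K] Ω) :
    HfN_R C (γ • ε) r := by
  have ht : γ • C.t Ω = C.t Ω := C.map_t _
  have h1 : (γ • ε = 0 ∨ γ • ε = C.t Ω) ↔ (ε = 0 ∨ ε = C.t Ω) := by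
    refine or_congr (smul_eq_zero_iff_eq γ) ?_
    constructor
    · intro h2
      rw [← ht] at h2
      exact MulAction.injective γ h2
    · intro h2
      rw [h2, ht]
  refine ⟨?_, ?_⟩
  · rw [← smul_add, h.1, smul_zero]
  · rw [h1]
    exact h.2

end gal

/-- `al` commutes with norms modulo squares. Proof: `exists_rho_al` for `a`: let `τ' = ∑ q τ`, `ρ' = ∏ q ρ` (`q`
representatives); `τ'` is a half of the norm of `a`, `ρ'² = Nf (al a)`, and `γ ∈ Gal(Ω/M)` fixes `ρ'` iff it fixes `[τ']`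
(compare the actions of `Gal(Ω/N)` on `τ` modulo `t` and on `ρ`). Compare with a half and a root for the norm of `a`:
the quotient of the roots is in `M`. -/
theorem al_norm {M N : IntermediateField K Ω} (h : M ≤ N) [FiniteDimensional K N]
    {a : Pt C.W₁ Ω} (ha : ∀ γ ∈ N.fixingSubgroup, γ • a = a) :
    SqM M (C.al (Na M.fixingSubgroup N.fixingSubgroup a) * Nf M N (C.al a)) := by
  classical
  have hle : N.fixingSubgroup ≤ M.fixingSubgroup := fix_le h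
  have hfin : N.fixingSubgroup.FiniteIndex := opn_fin _ (opn_fix N)
  have hna : ∀ γ ∈ M.fixingSubgroup, γ • Na M.fixingSubgroup N.fixingSubgroup a =
      Na M.fixingSubgroup N.fixingSubgroup a := fun γ hγ => smul_Na hle hfin ha hγ
  set H := M.fixingSubgroup with hH
  set S := N.fixingSubgroup with hS
  have hfin' : Finite (H ⧸ S.subgroupOf H) := by
    have : (S.subgroupOf H).FiniteIndex := inferInstance
    infer_instance
  have : Fintype (H ⧸ S.subgroupOf H) := Fintype.ofFinite _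
  obtain ⟨τ, ρ, h1, h2, h3, h4⟩ := exists_rho_al (K := K) C a
  have key : ∀ (τ : Pt C.W₁ Ω) (ρ : Ω) (u : Pt C.W₁ Ω) (γ : Ω ≃ₐ[K] Ω), τ + τ = u → γ • u = u →
      ((γ ρ = ρ ∧ (γ • τ = τ ∨ γ • τ = τ + C.t Ω)) ∨
        (γ ρ = - ρ ∧ γ • τ ≠ τ ∧ γ • τ ≠ τ + C.t Ω)) →
      ∃ r : Ω, γ ρ = r * ρ ∧ HfN_R C (γ • τ - τ) r ∧ (r = 1 ∨ r = -1) := by
    intro τ ρ u γ k1 k2 k3
    have k4 : (γ • τ - τ) + (γ • τ - τ) = 0 := by
      rw [sub_add_sub_comm, ← smul_add, k1, k2, sub_self]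
    rcases k3 with ⟨m1, m2⟩ | ⟨m1, m2, m3⟩
    · refine ⟨1, by rw [m1, one_mul], ⟨k4, Or.inl ⟨rfl, ?_⟩⟩, Or.inl rfl⟩
      rcases m2 with m2 | m2
      · left
        rw [m2, sub_self]
      · right
        rw [m2, add_sub_cancel_left]
    · refine ⟨-1, by rw [m1, neg_one_mul], ⟨k4, Or.inr ⟨rfl, ?_⟩⟩, Or.inr rfl⟩
      rintro (m | m)
      · exact m2 (sub_eq_zero.1 m)
      · apply m3
        rw [← m]
        abel
  have h5 : ∀ γ ∈ S, ∃ r : Ω, γ ρ = r * ρ ∧ HfN_R C (γ • τ - τ) r ∧ (r = 1 ∨ r = -1) :=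
    fun γ hγ => key τ ρ a γ h1 (ha γ hγ) (h4 γ (ha γ hγ))
  set τ' : Pt C.W₁ Ω := ∑ q : H ⧸ S.subgroupOf H, (q.out : Ω ≃ₐ[K] Ω) • τ with hτ'
  set ρ' : Ω := ∏ q : H ⧸ S.subgroupOf H, (q.out : Ω ≃ₐ[K] Ω) ρ with hρ'
  have hNa : Na H S a = τ' + τ' := by
    rw [Na, finsum_eq_sum_of_fintype, hτ', ← Finset.sum_add_distrib]
    refine Finset.sum_congr rfl fun q _ => ?_
    rw [← smul_add, h1]
  have hNf : Nf M N (C.al a) = ρ' * ρ' := by
    rw [Nf, finprod_eq_prod_of_fintype, hρ', ← Finset.prod_mul_distrib]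
    refine Finset.prod_congr rfl fun q _ => ?_
    rw [← map_mul, ← h3, sq]
  have h6 : ∀ γ ∈ H, ∃ r : Ω, γ ρ' = r * ρ' ∧ HfN_R C (γ • τ' - τ') r := by
    intro γ hγ
    have hs : ∀ q : H ⧸ S.subgroupOf H,
        (((⟨γ, hγ⟩ : H) • q).out : Ω ≃ₐ[K] Ω)⁻¹ * (γ * (q.out : Ω ≃ₐ[K] Ω)) ∈ S := by
      intro q
      have e1 : (QuotientGroup.mk (((⟨γ, hγ⟩ : H) • q).out) : H ⧸ S.subgroupOf H) =
          QuotientGroup.mk ((⟨γ, hγ⟩ : H) * q.out) := by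
        rw [QuotientGroup.out_eq']
        conv_lhs => rw [← QuotientGroup.out_eq' q]
        rfl
      rw [QuotientGroup.eq] at e1
      exact e1
    choose r hr1 hr2 hr3 using fun q => h5 _ (hs q)
    have hg : ∀ q : H ⧸ S.subgroupOf H, γ * (q.out : Ω ≃ₐ[K] Ω) =
        (((⟨γ, hγ⟩ : H) • q).out : Ω ≃ₐ[K] Ω) *
          ((((⟨γ, hγ⟩ : H) • q).out : Ω ≃ₐ[K] Ω)⁻¹ * (γ * (q.out : Ω ≃ₐ[K] Ω))) := by
      intro q
      rw [mul_inv_cancel_left]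
    refine ⟨∏ q, r q, ?_, ?_⟩
    · have e1 : γ ρ' = ∏ q : H ⧸ S.subgroupOf H,
          r q * (((⟨γ, hγ⟩ : H) • q).out : Ω ≃ₐ[K] Ω) ρ := by
        rw [hρ', map_prod]
        refine Finset.prod_congr rfl fun q _ => ?_
        have e2 : γ ((q.out : Ω ≃ₐ[K] Ω) ρ) = (γ * (q.out : Ω ≃ₐ[K] Ω)) ρ := rfl
        rw [e2, hg q]
        change (((⟨γ, hγ⟩ : H) • q).out : Ω ≃ₐ[K] Ω) (((((⟨γ, hγ⟩ : H) • q).out : Ω ≃ₐ[K] Ω)⁻¹ *
          (γ * (q.out : Ω ≃ₐ[K] Ω))) ρ) = _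
        rw [hr1 q, map_mul]
        congr 1
        rcases hr3 q with e | e <;> rw [e] <;> simp
      rw [e1, Finset.prod_mul_distrib]
      congr 1
      exact Fintype.prod_equiv (MulAction.toPerm (⟨γ, hγ⟩ : H)) _ _ fun q => rfl
    · have e1 : γ • τ' = ∑ q : H ⧸ S.subgroupOf H, ((((⟨γ, hγ⟩ : H) • q).out : Ω ≃ₐ[K] Ω) • τ +
          (((⟨γ, hγ⟩ : H) • q).out : Ω ≃ₐ[K] Ω) •
            ((((((⟨γ, hγ⟩ : H) • q).out : Ω ≃ₐ[K] Ω)⁻¹ * (γ * (q.out : Ω ≃ₐ[K] Ω))) • τ) - τ)) := by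
        rw [hτ', Finset.smul_sum]
        refine Finset.sum_congr rfl fun q _ => ?_
        rw [← mul_smul, hg q, mul_smul, smul_sub]
        rw [add_sub_cancel]
        rw [← hg q]
      have e2 : ∑ q : H ⧸ S.subgroupOf H, (((⟨γ, hγ⟩ : H) • q).out : Ω ≃ₐ[K] Ω) • τ = τ' :=
        Fintype.sum_equiv (MulAction.toPerm (⟨γ, hγ⟩ : H)) _ _ fun q => rfl
      rw [e1, Finset.sum_add_distrib, e2, add_sub_cancel_left]
      exact HfN_R.sum _ _ _ fun q _ => (hr2 q).smul _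
  obtain ⟨τ₂, ρ₂, g1, g2, g3, g4⟩ := exists_rho_al (K := K) C (Na H S a)
  have h7 : ∀ γ ∈ H, γ (ρ' * ρ₂) = ρ' * ρ₂ := by
    intro γ hγ
    obtain ⟨r, m1, m2⟩ := h6 γ hγ
    obtain ⟨r₂, n1, n2, n3⟩ := key τ₂ ρ₂ _ γ g1 (hna γ hγ) (g4 γ (hna γ hγ))
    have hδ : (τ' - τ₂) + (τ' - τ₂) = 0 := by
      rw [sub_add_sub_comm, g1, ← hNa, sub_self]
    obtain ⟨r₃, k1⟩ := HfN_R.ex hδ
    have k2 : HfN_R C (γ • (τ' - τ₂) + -(τ' - τ₂)) (r₃ * r₃) := (k1.smul γ).add k1.neg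
    have k3 := n2.add k2
    have k4 : (γ • τ₂ - τ₂) + (γ • (τ' - τ₂) + -(τ' - τ₂)) = γ • τ' - τ' := by
      rw [smul_sub]
      abel
    rw [k4, k1.sq, mul_one] at k3
    have k5 : r = r₂ := m2.uniq k3
    rw [map_mul, m1, n1, k5]
    have k6 := n2.sq
    linear_combination (ρ' * ρ₂) * k6
  refine ⟨ρ' * ρ₂, mem_of_fix M h7, ?_⟩
  rw [hNf, ← g3]
  ring

end BE
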