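import Pool.Agent.Lib.MP_f80667_ag.Be.HfK

/-! Descent: classes of points of `E₂` and of its twists. -/

open ZC Polynomial IntermediateField

namespace BE

variable {F : Type} [Field F] {K : Type} [Field K] [CharZero K] [Algebra F K] {Ω : Type} [Field Ω]
  [Algebra K Ω] [Algebra F Ω] [IsScalarTower F K Ω] [IsAlgClosure K Ω] (C : Cf F)

/-! ### `E₂` -/

/-! #### Coordinates -/

private theorem hft_ev_g (w : Ω) : aeval w C.g = w ^ 3 + algebraMap F Ω C.c₂ * w ^ 2 +
    algebraMap F Ω C.c₁ * w + algebraMap F Ω C.c₀ := by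
  simp [Cf.g]

private theorem hft_ev_dg (w : Ω) : aeval w (derivative C.g) = 3 * w ^ 2 +
    2 * algebraMap F Ω C.c₂ * w + algebraMap F Ω C.c₁ := by
  simp only [Cf.g, derivative_add, derivative_mul, derivative_X_pow, derivative_C, derivative_X,
    map_add, map_mul, map_pow, aeval_X, aeval_C, zero_mul, zero_add, mul_one, add_zero,
    map_natCast, Nat.cast_ofNat, map_ofNat]
  ring

private theorem hft_eq_iff₂ {w v : Ω} : ((C.W₂).baseChange Ω).toAffine.Equation w v ↔
    v ^ 2 = aeval w C.g := by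
  rw [hft_ev_g, WeierstrassCurve.Affine.equation_iff]
  simp only [Cf.W₂, WeierstrassCurve.baseChange, WeierstrassCurve.map, map_zero, zero_mul,
    add_zero]

private theorem hft_eq₂ {w v : Ω} (h : ((C.W₂).baseChange Ω).toAffine.Nonsingular w v) :
    v ^ 2 = aeval w C.g := (hft_eq_iff₂ C).1 h.1

private theorem hft_dg_ne {e : Ω} (he : aeval e C.g = 0) : aeval e (derivative C.g) ≠ 0 := by
  have h1 : ((C.W₂).baseChange Ω).toAffine.Equation e 0 := by
    rw [hft_eq_iff₂, he]
    simp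
  have h2 := WeierstrassCurve.Affine.equation_iff_nonsingular.1 h1
  rw [WeierstrassCurve.Affine.nonsingular_iff] at h2
  rw [hft_ev_dg]
  rcases h2.2 with h3 | h3
  · intro h4
    apply h3
    simp only [Cf.W₂, WeierstrassCurve.baseChange, WeierstrassCurve.map, map_zero, zero_mul]
    exact h4.symm
  · exfalso
    apply h3
    simp [Cf.W₂, WeierstrassCurve.baseChange, WeierstrassCurve.map]

open Classical in
private theorem hft_th0_aff {e : Ω} {u : Pt C.W₁ Ω} {w v : Ω}
    (h : ((C.W₂).baseChange Ω).toAffine.Nonsingular w v) :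
    C.th0 Ω e u (Pt.aff w v h) =
      if w = e then aeval e (derivative C.g) else C.kap Ω u * (w - e) := rfl

private theorem hft_th0_zero {e : Ω} {u : Pt C.W₁ Ω} : C.th0 Ω e u 0 = 1 := rfl

private theorem hft_neg_aff {w v : Ω} (h : ((C.W₂).baseChange Ω).toAffine.Nonsingular w v) :
    ∃ h', -(Pt.aff w v h : Pt C.W₂ Ω) = Pt.aff w (-v) h' := by
  have h1 : ((C.W₂).baseChange Ω).toAffine.negY w v = -v := by
    simp [Cf.W₂, WeierstrassCurve.Affine.negY, WeierstrassCurve.baseChange, WeierstrassCurve.map]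
  have h2 : ((C.W₂).baseChange Ω).toAffine.Nonsingular w
      (((C.W₂).baseChange Ω).toAffine.negY w v) :=
    (WeierstrassCurve.Affine.nonsingular_neg _ _).2 h
  have h3 : -(Pt.aff w v h : Pt C.W₂ Ω) =
      Pt.aff w (((C.W₂).baseChange Ω).toAffine.negY w v) h2 := rfl
  refine ⟨h1 ▸ h2, ?_⟩
  rw [h3]
  unfold Pt.aff
  simp only [h1]

private theorem hft_aff_inj {w v w' v' : Ω} {h : ((C.W₂).baseChange Ω).toAffine.Nonsingular w v}
    {h' : ((C.W₂).baseChange Ω).toAffine.Nonsingular w' v'}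
    (he : (Pt.aff w v h : Pt C.W₂ Ω) = Pt.aff w' v' h') : w = w' ∧ v = v' :=
  WeierstrassCurve.Affine.Point.some.inj he

/-! #### The Galois action -/

/-- `exists_r` over `M`. -/
private theorem hft_exists_rM {M : IntermediateField K Ω} {u : Pt C.W₁ Ω}
    (hu : (C.dt K Ω).UU M.fixingSubgroup u) : ∃ r : Ω, r ≠ 0 ∧ r ^ 2 = C.kap Ω u ∧ r ^ 2 ∈ M ∧
      ∀ γ ∈ M.fixingSubgroup, (γ • u = u → γ r = r) ∧ (γ • u = u + C.t Ω → γ r = - r) := by
  have : IsAlgClosure M Ω := ⟨IsAlgClosure.isAlgClosed K, inferInstance⟩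
  have : IsScalarTower F M Ω := IsScalarTower.of_algebraMap_eq fun _ => rfl
  have h1 : ∀ γ : Ω ≃ₐ[M] Ω, γ.restrictScalars K ∈ M.fixingSubgroup := by
    intro γ
    rw [IntermediateField.mem_fixingSubgroup_iff]
    intro x hx
    exact γ.commutes ⟨x, hx⟩
  obtain ⟨r, hr, hr2, ⟨κ, hκ⟩, h⟩ := exists_r (K := M) C (u := u) fun γ => hu _ (h1 γ)
  refine ⟨r, hr, hr2, ?_, ?_⟩
  · rw [← hκ]
    exact κ.2
  · intro γ hγ
    exact h (IntermediateField.fixingSubgroupEquiv M ⟨γ, hγ⟩)

private theorem hft_px_inj {u : Pt C.W₁ Ω} {y y' : Pt C.W₂ Ω}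
    (h : (C.dt K Ω).px u y = (C.dt K Ω).px u y') : y = y' := by
  rw [(C.dt K Ω).px_eq] at h
  rcases h with h | h
  · exact h.2.symm
  · exact absurd (left_eq_add.1 h.1) (C.dt K Ω).t_ne

/-- The action on the coordinates. -/
private theorem hft_tw_aff {M : IntermediateField K Ω} {u : Pt C.W₁ Ω}
    (hu : (C.dt K Ω).UU M.fixingSubgroup u) {r : Ω}
    (hr : ∀ γ ∈ M.fixingSubgroup, (γ • u = u → γ r = r) ∧ (γ • u = u + C.t Ω → γ r = - r))
    {γ : Ω ≃ₐ[K] Ω} (hγ : γ ∈ M.fixingSubgroup) {w v w' v' : Ω}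
    {h : ((C.W₂).baseChange Ω).toAffine.Nonsingular w v}
    {h' : ((C.W₂).baseChange Ω).toAffine.Nonsingular w' v'}
    (he : γ • C.px u (Pt.aff w v h) = C.px u (Pt.aff w' v' h')) :
    γ w = w' ∧ γ (r * v) = r * v' := by
  have h1 := Dt.smul_px' (D := C.dt K Ω) (y := Pt.aff w v h) hu hγ
  have h2 : tw u γ (Pt.aff w v h : Pt C.W₂ Ω) = Pt.aff w' v' h' :=
    hft_px_inj (K := K) C (h1.symm.trans he)
  have hns : ((C.W₂).baseChange Ω).toAffine.Nonsingular (γ w) (γ v) :=
    (WeierstrassCurve.Affine.baseChange_nonsingular (C.W₂).toAffine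
      (γ.restrictScalars F : Ω →ₐ[F] Ω).injective w v).mpr h
  have h3 : γ • (Pt.aff w v h : Pt C.W₂ Ω) = Pt.aff (γ w) (γ v) hns := rfl
  unfold tw at h2
  by_cases hu' : γ • u = u
  · rw [if_pos hu', h3] at h2
    obtain ⟨h4, h5⟩ := hft_aff_inj C h2
    rw [map_mul, (hr γ hγ).1 hu', h4, h5]
    exact ⟨rfl, rfl⟩
  · rw [if_neg hu', h3] at h2
    obtain ⟨h6, h7⟩ := hft_neg_aff C hns
    rw [h7] at h2
    obtain ⟨h4, h5⟩ := hft_aff_inj C h2
    have h8 : γ • u = u + C.t Ω := (hu γ hγ).resolve_left hu'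
    rw [map_mul, (hr γ hγ).2 h8, h4, ← h5]
    exact ⟨rfl, by ring⟩

private theorem hft_F_mem (M : IntermediateField K Ω) (c : F) : algebraMap F Ω c ∈ M := by
  rw [IsScalarTower.algebraMap_apply F K Ω]
  exact M.algebraMap_mem _

private theorem hft_F_fix (γ : Ω ≃ₐ[K] Ω) (c : F) : γ (algebraMap F Ω c) = algebraMap F Ω c := by
  rw [IsScalarTower.algebraMap_apply F K Ω]
  exact γ.commutes _

private theorem hft_dg_mem {N : IntermediateField K Ω} {e : Ω} (he : e ∈ N) :
    aeval e (derivative C.g) ∈ N := by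
  rw [hft_ev_dg]
  have h2 : (2 : Ω) ∈ N := by
    have := N.algebraMap_mem 2
    rwa [map_ofNat] at this
  have h3 : (3 : Ω) ∈ N := by
    have := N.algebraMap_mem 3
    rwa [map_ofNat] at this
  exact add_mem (add_mem (mul_mem h3 (pow_mem he 2)) (mul_mem (mul_mem h2 (hft_F_mem N _)) he))
    (hft_F_mem N _)

private theorem hft_le_Me (M : IntermediateField K Ω) (e : Ω) : M ≤ Me M e := le_sup_left

private theorem hft_mem_Me (M : IntermediateField K Ω) (e : Ω) : e ∈ Me M e :=
  (le_sup_right : _ ≤ Me M e) (IntermediateField.mem_adjoin_simple_self K e)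

/-! #### The classes -/

theorem th_ne (e : Ω) (he : aeval e C.g = 0) (u : Pt C.W₁ Ω) (y : Pt C.W₂ Ω) :
    C.th0 Ω e u y ≠ 0 := by
  rcases Pt.cases' y with rfl | ⟨w, v, hP, rfl⟩
  · exact one_ne_zero
  · rw [hft_th0_aff]
    split_ifs with hw
    · exact hft_dg_ne C he
    · exact mul_ne_zero (kap_ne C u) (sub_ne_zero.2 hw)

theorem th_mem {M : IntermediateField K Ω} {e : Ω} (he : aeval e C.g = 0) {u : Pt C.W₁ Ω}
    {y : Pt C.W₂ Ω} (h : (C.dt K Ω).PP M.fixingSubgroup u y) : C.th0 Ω e u y ∈ Me M e := by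
  have hu := h.uu
  obtain ⟨r, -, -, -, hr⟩ := hft_exists_rM C hu
  rcases Pt.cases' y with rfl | ⟨w, v, hP, rfl⟩
  · exact one_mem _
  · have hw : w ∈ M := mem_of_fix M fun γ hγ => (hft_tw_aff C hu hr hγ (h γ hγ)).1
    rw [hft_th0_aff]
    split_ifs with hw
    · exact hft_dg_mem C (hft_mem_Me M e)
    · exact mul_mem (hft_le_Me M e (kap_mem C hu)) (sub_mem (hft_le_Me M e ‹_›) (hft_mem_Me M e))

/-- The product of the three values is a square. -/
theorem th_prod {M : IntermediateField K Ω} {e₁ e₂ e₃ : Ω}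
    (he : C.g.map (algebraMap F Ω) = (X - Polynomial.C e₁) * (X - Polynomial.C e₂) *
      (X - Polynomial.C e₃)) {u : Pt C.W₁ Ω} {y : Pt C.W₂ Ω}
    (h : (C.dt K Ω).PP M.fixingSubgroup u y) :
    SqM M (C.th0 Ω e₁ u y * C.th0 Ω e₂ u y * C.th0 Ω e₃ u y) := by
  have hu := h.uu
  obtain ⟨r, -, hr2, -, hr⟩ := hft_exists_rM C hu
  rcases Pt.cases' y with rfl | ⟨w, v, hP, rfl⟩
  · rw [hft_th0_zero, hft_th0_zero, hft_th0_zero]
    exact ⟨1, one_mem _, by ring⟩
  · have hact := fun γ hγ => hft_tw_aff C hu hr hγ (h γ hγ)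
    have hw : w ∈ M := mem_of_fix M fun γ hγ => (hact γ hγ).1
    have hrv : r * v ∈ M := mem_of_fix M fun γ hγ => (hact γ hγ).2
    have hk := kap_mem C hu
    have hg : ∀ z : Ω, aeval z C.g = (z - e₁) * (z - e₂) * (z - e₃) := by
      intro z
      have h1 := congrArg (Polynomial.eval z) he
      rw [Polynomial.eval_map_algebraMap] at h1
      rw [h1]
      simp
    have hdg : ∀ z : Ω, aeval z (derivative C.g) = (z - e₁) * (z - e₂) + (z - e₁) * (z - e₃) +
        (z - e₂) * (z - e₃) := by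
      intro z
      have h1 := congrArg (fun p => Polynomial.eval z (derivative p)) he
      simp only [Polynomial.derivative_map, Polynomial.eval_map_algebraMap] at h1
      rw [h1]
      simp only [derivative_mul, derivative_sub, derivative_X, derivative_C, sub_zero, one_mul,
        mul_one, eval_add, eval_mul, eval_sub, eval_X, eval_C]
      ring
    have h₁ : aeval e₁ C.g = 0 := by
      rw [hg]
      ring
    have h₂ : aeval e₂ C.g = 0 := by
      rw [hg]
      ring
    have h₃ : aeval e₃ C.g = 0 := by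
      rw [hg]
      ring
    have d₁ := hft_dg_ne C h₁
    have d₂ := hft_dg_ne C h₂
    have d₃ := hft_dg_ne C h₃
    have hv := hft_eq₂ C hP
    rw [hg] at hv
    have n12 : e₁ ≠ e₂ := by
      rintro rfl
      apply d₁
      rw [hdg]
      ring
    have n13 : e₁ ≠ e₃ := by
      rintro rfl
      apply d₁
      rw [hdg]
      ring
    have n23 : e₂ ≠ e₃ := by
      rintro rfl
      apply d₂
      rw [hdg]
      ring
    rw [hft_th0_aff, hft_th0_aff, hft_th0_aff]
    by_cases c1 : w = e₁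
    · subst c1
      rw [if_pos rfl, if_neg n12, if_neg n13]
      refine ⟨C.kap Ω u * aeval w (derivative C.g), mul_mem hk (hft_dg_mem C hw), ?_⟩
      rw [hdg]
      ring
    · by_cases c2 : w = e₂
      · subst c2
        rw [if_pos rfl, if_neg c1, if_neg n23]
        refine ⟨C.kap Ω u * aeval w (derivative C.g), mul_mem hk (hft_dg_mem C hw), ?_⟩
        rw [hdg]
        ring
      · by_cases c3 : w = e₃
        · subst c3
          rw [if_pos rfl, if_neg c1, if_neg c2]
          refine ⟨C.kap Ω u * aeval w (derivative C.g), mul_mem hk (hft_dg_mem C hw), ?_⟩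
          rw [hdg]
          ring
        · rw [if_neg c1, if_neg c2, if_neg c3]
          refine ⟨C.kap Ω u * (r * v), mul_mem hk hrv, ?_⟩
          rw [mul_pow, mul_pow, hr2, hv]
          ring

/-- `th0` is multiplicative modulo squares, for stable pairs in the fibre over `[u]`. Proof: as `al_pair`, for the line
through the two points of the twist of `E₂` by `κ = r²` (`exists_r`): the product of the three values of
`κ (w - e)` is `(line at e)²`. -/
theorem th_pair {M : IntermediateField K Ω} {e : Ω} (he : aeval e C.g = 0) {u : Pt C.W₁ Ω}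
    {y₁ y₂ : Pt C.W₂ Ω} (hu : (C.dt K Ω).UU M.fixingSubgroup u)
    (h : ∀ γ ∈ M.fixingSubgroup, (γ • C.px u y₁ = C.px u y₁ ∧ γ • C.px u y₂ = C.px u y₂) ∨
      (γ • C.px u y₁ = C.px u y₂ ∧ γ • C.px u y₂ = C.px u y₁)) :
    SqM (Me M e) (C.th0 Ω e u (y₁ + y₂) * (C.th0 Ω e u y₁ * C.th0 Ω e u y₂)) := by
  classical
  obtain ⟨r, hr0, hr2, hr2m, hr⟩ := hft_exists_rM C hu
  have hk : C.kap Ω u ∈ Me M e := hft_le_Me M e (kap_mem C hu)
  have hd := hft_dg_mem (K := K) C (hft_mem_Me M e)
  have hz : ∀ γ ∈ M.fixingSubgroup, γ • C.px u (0 : Pt C.W₂ Ω) = C.px u 0 := fun γ hγ =>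
    Dt.pp_zero (D := C.dt K Ω) hu γ hγ
  -- one of the points is zero
  have case0 : ∀ y : Pt C.W₂ Ω, (∀ γ ∈ M.fixingSubgroup, γ • C.px u y = C.px u y) →
      SqM (Me M e) (C.th0 Ω e u y * C.th0 Ω e u y) := fun y hy =>
    ⟨C.th0 Ω e u y, th_mem C he hy, by ring⟩
  rcases Pt.cases' y₁ with rfl | ⟨w₁, v₁, h₁, rfl⟩
  · rw [zero_add, hft_th0_zero, one_mul]
    refine case0 _ fun γ hγ => ?_
    rcases h γ hγ with h1 | h1
    · exact h1.2
    · rw [h1.2, ← h1.1, hz γ hγ]
  rcases Pt.cases' y₂ with rfl | ⟨w₂, v₂, h₂, rfl⟩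
  · rw [add_zero, hft_th0_zero, mul_one]
    refine case0 _ fun γ hγ => ?_
    rcases h γ hγ with h1 | h1
    · exact h1.1
    · rw [h1.1, ← h1.2, hz γ hγ]
  -- the action
  have hact : ∀ γ ∈ M.fixingSubgroup, (γ w₁ = w₁ ∧ γ (r * v₁) = r * v₁ ∧ γ w₂ = w₂ ∧
      γ (r * v₂) = r * v₂) ∨ (γ w₁ = w₂ ∧ γ (r * v₁) = r * v₂ ∧ γ w₂ = w₁ ∧
      γ (r * v₂) = r * v₁) := by
    intro γ hγ
    rcases h γ hγ with h1 | h1
    · have h2 := hft_tw_aff C hu hr hγ h1.1
      have h3 := hft_tw_aff C hu hr hγ h1.2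
      exact Or.inl ⟨h2.1, h2.2, h3.1, h3.2⟩
    · have h2 := hft_tw_aff C hu hr hγ h1.1
      have h3 := hft_tw_aff C hu hr hγ h1.2
      exact Or.inr ⟨h2.1, h2.2, h3.1, h3.2⟩
  have hnY : ∀ w v : Ω, ((C.W₂).baseChange Ω).toAffine.negY w v = -v := by
    intro w v
    simp [Cf.W₂, WeierstrassCurve.Affine.negY, WeierstrassCurve.baseChange, WeierstrassCurve.map]
  by_cases hxy : w₁ = w₂ ∧ v₁ = ((C.W₂).baseChange Ω).toAffine.negY w₂ v₂
  · -- opposite points
    have h3 : (Pt.aff w₁ v₁ h₁ + Pt.aff w₂ v₂ h₂ : Pt C.W₂ Ω) = 0 :=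
      WeierstrassCurve.Affine.Point.add_of_Y_eq hxy.1 hxy.2
    obtain ⟨rfl, -⟩ := hxy
    have hw : w₁ ∈ M := mem_of_fix M fun γ hγ => by
      rcases hact γ hγ with h4 | h4
      · exact h4.1
      · exact h4.1
    rw [h3, hft_th0_zero, one_mul, hft_th0_aff, hft_th0_aff]
    split_ifs with hw1
    · exact ⟨_, hd, by ring⟩
    · exact ⟨_, mul_mem hk (sub_mem (hft_le_Me M e hw) (hft_mem_Me M e)), (pow_two _).symm⟩
  · -- the line
    have h3 : (Pt.aff w₁ v₁ h₁ + Pt.aff w₂ v₂ h₂ : Pt C.W₂ Ω) =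
        Pt.aff _ _ (WeierstrassCurve.Affine.nonsingular_add h₁ h₂ hxy) :=
      WeierstrassCurve.Affine.Point.add_some hxy
    have hE := congrArg (Polynomial.eval e)
      (WeierstrassCurve.Affine.addPolynomial_slope h₁.1 h₂.1 hxy)
    have hD := congrArg (Polynomial.eval e)
      (WeierstrassCurve.Affine.derivative_addPolynomial_slope h₁.1 h₂.1 hxy)
    rw [h3, hft_th0_aff, hft_th0_aff, hft_th0_aff]
    set ℓ := ((C.W₂).baseChange Ω).toAffine.slope w₁ w₂ v₁ v₂ with hℓ
    set w₃ := ((C.W₂).baseChange Ω).toAffine.addX w₁ w₂ ℓ with hw₃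
    rw [WeierstrassCurve.Affine.addPolynomial_eq] at hE hD
    simp only [Cubic.toPoly, Cf.W₂, WeierstrassCurve.baseChange, WeierstrassCurve.map, map_zero,
      eval_neg, eval_add, eval_mul, eval_sub, eval_pow, eval_C, eval_X, derivative_neg,
      derivative_add, derivative_mul, derivative_X_pow, derivative_C, derivative_X, zero_mul,
      zero_add, mul_one, add_zero, Nat.cast_ofNat, map_one, one_mul, sub_zero, neg_zero,
      mul_zero, eval_ofNat, eval_natCast, Nat.add_one_sub_one, pow_one, eval_one, eval_zero] at hE hD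
    have hg1 := hft_eq₂ C h₁
    have hg2 := hft_eq₂ C h₂
    have hge := he
    rw [hft_ev_g] at hg1 hg2 hge
    -- slope
    have hs : ℓ * (w₁ - w₂) = v₁ - v₂ := by
      rw [hℓ]
      by_cases hx : w₁ = w₂
      · have hy : v₁ ≠ ((C.W₂).baseChange Ω).toAffine.negY w₂ v₂ := fun hh => hxy ⟨hx, hh⟩
        have h4 := WeierstrassCurve.Affine.Y_eq_of_Y_ne h₁.1 h₂.1 hx hy
        rw [hx, h4]
        ring
      · rw [WeierstrassCurve.Affine.slope_of_X_ne hx]
        exact div_mul_cancel₀ _ (sub_ne_zero.2 hx)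
    have hrl : r * ℓ ∈ M := by
      refine mem_of_fix M fun γ hγ => ?_
      by_cases hx : w₁ = w₂
      · have hy : v₁ ≠ ((C.W₂).baseChange Ω).toAffine.negY w₂ v₂ := fun hh => hxy ⟨hx, hh⟩
        have h4 := WeierstrassCurve.Affine.Y_eq_of_Y_ne h₁.1 h₂.1 hx hy
        subst hx
        subst h4
        have h5 : γ w₁ = w₁ ∧ γ (r * v₁) = r * v₁ := by
          rcases hact γ hγ with h5 | h5
          · exact ⟨h5.1, h5.2.1⟩
          · exact ⟨h5.1, h5.2.1⟩
        have hv0 : v₁ ≠ 0 := by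
          intro h6
          apply hy
          rw [hnY, h6, neg_zero]
        have h7 : r * ℓ = r ^ 2 * (3 * w₁ ^ 2 + 2 * algebraMap F Ω C.c₂ * w₁ +
            algebraMap F Ω C.c₁) / (2 * (r * v₁)) := by
          rw [hℓ, WeierstrassCurve.Affine.slope_of_Y_ne rfl hy, hnY]
          simp only [Cf.W₂, WeierstrassCurve.baseChange, WeierstrassCurve.map, map_zero, zero_mul,
            sub_zero]
          have : CharZero Ω := charZero_of_injective_algebraMap (algebraMap K Ω).injective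
          have h8 : v₁ - -v₁ = 2 * v₁ := by ring
          rw [h8]
          field_simp
        have h9 : γ (r ^ 2) = r ^ 2 := by
          rw [IntermediateField.mem_fixingSubgroup_iff] at hγ
          exact hγ _ hr2m
        rw [h7]
        simp only [map_div₀, map_mul, map_add, hft_F_fix, map_ofNat]
        rw [map_mul] at h5
        rw [h9, h5.2, map_pow, h5.1]
      · have h7 : r * ℓ = (r * v₁ - r * v₂) / (w₁ - w₂) := by
          rw [hℓ, WeierstrassCurve.Affine.slope_of_X_ne hx]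
          ring
        rw [h7, map_div₀, map_sub, map_sub]
        rcases hact γ hγ with h5 | h5
        · rw [h5.1, h5.2.1, h5.2.2.1, h5.2.2.2]
        · rw [h5.1, h5.2.1, h5.2.2.1, h5.2.2.2, ← neg_sub (r * v₁), ← neg_sub w₁, neg_div_neg_eq]
    have hrc : r * v₁ - r * ℓ * w₁ ∈ M := by
      refine mem_of_fix M fun γ hγ => ?_
      have h6 : γ (r * ℓ) = r * ℓ := by
        have hγ' := hγ
        rw [IntermediateField.mem_fixingSubgroup_iff] at hγ'
        exact hγ' _ hrl
      rw [map_sub, map_mul γ (r * ℓ), h6]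
      rcases hact γ hγ with h5 | h5
      · rw [h5.1, h5.2.1]
      · rw [h5.1, h5.2.1]
        linear_combination r * hs
    by_cases hL : ℓ * (e - w₁) + v₁ = 0
    · -- one of the points has order two
      have hD' : aeval e (derivative C.g) = (e - w₁) * (e - w₂) + (e - w₁) * (e - w₃) +
          (e - w₂) * (e - w₃) := by
        rw [hft_ev_dg]
        linear_combination (-1 : Ω) * hD + 2 * ℓ * hL
      have hE' : (e - w₁) * (e - w₂) * (e - w₃) = 0 := by
        linear_combination hE - (ℓ * (e - w₁) + v₁) * hL + hge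
      have hdne := hft_dg_ne C he
      refine ⟨C.kap Ω u * aeval e (derivative C.g), mul_mem hk hd, ?_⟩
      by_cases c1 : w₁ = e
      · have n2 : w₂ ≠ e := by
          intro c2
          apply hdne
          rw [hD', c1, c2]
          ring
        have n3 : w₃ ≠ e := by
          intro c3
          apply hdne
          rw [hD', c1, c3]
          ring
        rw [if_pos c1, if_neg n2, if_neg n3, hD', c1]
        ring
      · by_cases c2 : w₂ = e
        · have n3 : w₃ ≠ e := by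
            intro c3
            apply hdne
            rw [hD', c2, c3]
            ring
          rw [if_neg c1, if_pos c2, if_neg n3, hD', c2]
          ring
        · have c3 : w₃ = e := by
            rcases mul_eq_zero.1 hE' with h5 | h5
            · rcases mul_eq_zero.1 h5 with h6 | h6
              · exact absurd (sub_eq_zero.1 h6).symm c1
              · exact absurd (sub_eq_zero.1 h6).symm c2
            · exact (sub_eq_zero.1 h5).symm
          rw [if_neg c1, if_neg c2, if_pos c3, hD', c3]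
          ring
    · -- no point of order two
      have hE' : (ℓ * (e - w₁) + v₁) ^ 2 = (w₁ - e) * (w₂ - e) * (w₃ - e) := by
        linear_combination hE + hge
      have n : (w₁ - e) * (w₂ - e) * (w₃ - e) ≠ 0 := by
        rw [← hE']
        exact pow_ne_zero 2 hL
      have n1 : w₁ ≠ e := by
        rintro rfl
        apply n
        ring
      have n2 : w₂ ≠ e := by
        rintro rfl
        apply n
        ring
      have n3 : w₃ ≠ e := by
        intro c3
        apply n
        rw [c3]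
        ring
      rw [if_neg n1, if_neg n2, if_neg n3]
      refine ⟨C.kap Ω u * (r * ℓ * e + (r * v₁ - r * ℓ * w₁)),
        mul_mem hk (add_mem (mul_mem (hft_le_Me M e hrl) (hft_mem_Me M e)) (hft_le_Me M e hrc)), ?_⟩
      have h9 : (C.kap Ω u * (r * ℓ * e + (r * v₁ - r * ℓ * w₁))) ^ 2 =
          C.kap Ω u ^ 2 * r ^ 2 * (ℓ * (e - w₁) + v₁) ^ 2 := by ring
      rw [h9, hE', hr2]
      ring

end BE
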