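import Pool.Agent.Lib.MP_f80667_ag.Be.Lh

/-! The kernel of the reduction of `E₂` at an odd place of good reduction. -/

open ZC Polynomial IntermediateField

namespace BE

section dfs

variable {F : Type} [Field F] {K Ω : Type} [Field K] [Field Ω] [Algebra K Ω] [Algebra F Ω]

/-- The kernel of the reduction: `0` and the points with `‖x‖ > 1`. -/
def Kr (L : Lf K Ω) (C : Cf F) : Set (Pt C.W₂ Ω) :=
  {P | P = 0 ∨ ∃ (x y : Ω) (h : ((C.W₂).baseChange Ω).toAffine.Nonsingular x y),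
    P = Pt.aff x y h ∧ 1 < L.nm x}

/-- The integral points. -/
def Ig (L : Lf K Ω) (C : Cf F) : Set (Pt C.W₂ Ω) :=
  {P | ∃ (x y : Ω) (h : ((C.W₂).baseChange Ω).toAffine.Nonsingular x y),
    P = Pt.aff x y h ∧ L.nm x ≤ 1 ∧ L.nm y ≤ 1}

end dfs

set_option linter.unusedSectionVars false

variable {F : Type} [Field F] {K : Type} [Field K] [CharZero K] [Algebra F K] {Ω : Type} [Field Ω]
  [Algebra K Ω] [Algebra F Ω] [IsScalarTower F K Ω] (C : Cf F) (L : Lf K Ω)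

/-- The equation of `E₂`. -/
theorem eq₂ {x y : Ω} (h : ((C.W₂).baseChange Ω).toAffine.Nonsingular x y) :
    y ^ 2 = x ^ 3 + algebraMap F Ω C.c₂ * x ^ 2 + algebraMap F Ω C.c₁ * x + algebraMap F Ω C.c₀ := by
  have h1 := h.1
  rw [WeierstrassCurve.Affine.equation_iff] at h1
  simp only [Cf.W₂, WeierstrassCurve.baseChange, WeierstrassCurve.map, map_zero] at h1
  linear_combination h1

/-! ### Norms -/

private theorem kr_mul_le1 {x y : Ω} (hx : L.nm x ≤ 1) (hy : L.nm y ≤ 1) : L.nm (x * y) ≤ 1 := by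
  rw [L.mul]
  exact mul_le_one₀ hx (L.nonneg _) hy

private theorem kr_add_le1 {x y : Ω} (hx : L.nm x ≤ 1) (hy : L.nm y ≤ 1) : L.nm (x + y) ≤ 1 :=
  (L.add x y).trans (max_le hx hy)

private theorem kr_sub_le1 {x y : Ω} (hx : L.nm x ≤ 1) (hy : L.nm y ≤ 1) : L.nm (x - y) ≤ 1 :=
  (L.sub x y).trans (max_le hx hy)

private theorem kr_pow_le1 {x : Ω} (hx : L.nm x ≤ 1) (n : ℕ) : L.nm (x ^ n) ≤ 1 := by
  rw [L.pow]
  exact pow_le_one₀ (L.nonneg _) hx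

private theorem kr_ofNat_le1 (n : ℕ) [n.AtLeastTwo] : L.nm (OfNat.ofNat n : Ω) ≤ 1 := by
  have h := L.nat_le (OfNat.ofNat n)
  rwa [Nat.cast_ofNat] at h

/-- The right hand side of the equation is integral. -/
private theorem kr_rhs_le (h : L.H1 C) {x : Ω} (hx : L.nm x ≤ 1) :
    L.nm (x ^ 3 + algebraMap F Ω C.c₂ * x ^ 2 + algebraMap F Ω C.c₁ * x + algebraMap F Ω C.c₀) ≤
      1 :=
  kr_add_le1 L (kr_add_le1 L (kr_add_le1 L (kr_pow_le1 L hx 3) (kr_mul_le1 L h.hc₂ (kr_pow_le1 L hx 2)))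
    (kr_mul_le1 L h.hc₁ hx)) h.hc₀

private theorem kr_le_of_sq {y : Ω} (h : L.nm (y ^ 2) ≤ 1) : L.nm y ≤ 1 := by
  rw [L.pow] at h
  by_contra h1
  push Not at h1
  exact absurd h (not_le.2 (one_lt_pow₀ h1 two_ne_zero))

private theorem kr_lt_of_sq {y : Ω} (h : L.nm (y ^ 2) < 1) : L.nm y < 1 := by
  rw [L.pow] at h
  by_contra h1
  push Not at h1
  exact absurd h (not_lt.2 (one_le_pow₀ h1))

/-- The derivative at a point where `g` is not a unit. -/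
private theorem kr_dg_unit (h : L.H1 C) {x : Ω} (hx : L.nm x ≤ 1)
    (hg : L.nm (x ^ 3 + algebraMap F Ω C.c₂ * x ^ 2 + algebraMap F Ω C.c₁ * x +
      algebraMap F Ω C.c₀) < 1) :
    L.nm (3 * x ^ 2 + 2 * algebraMap F Ω C.c₂ * x + algebraMap F Ω C.c₁) = 1 := by
  set c₂ := algebraMap F Ω C.c₂ with hc₂
  set c₁ := algebraMap F Ω C.c₁ with hc₁
  set c₀ := algebraMap F Ω C.c₀ with hc₀
  have l₂ : L.nm c₂ ≤ 1 := h.hc₂
  have l₁ : L.nm c₁ ≤ 1 := h.hc₁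
  have l₀ : L.nm c₀ ≤ 1 := h.hc₀
  have hd := h.hd
  have hdd : algebraMap F Ω C.disc = c₂ ^ 2 * c₁ ^ 2 - 4 * c₁ ^ 3 - 4 * c₂ ^ 3 * c₀ -
      27 * c₀ ^ 2 + 18 * c₂ * c₁ * c₀ := by
    simp only [Cf.disc, map_add, map_sub, map_mul, map_pow, map_ofNat, hc₂, hc₁, hc₀]
  have key : algebraMap F Ω C.disc =
      ((18 * c₁ - 6 * c₂ ^ 2) * x + (15 * c₁ * c₂ - 4 * c₂ ^ 3 - 27 * c₀)) *
        (x ^ 3 + c₂ * x ^ 2 + c₁ * x + c₀) -
      ((6 * c₁ - 2 * c₂ ^ 2) * x ^ 2 + (7 * c₁ * c₂ - 2 * c₂ ^ 3 - 9 * c₀) * x +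
        (4 * c₁ ^ 2 - c₁ * c₂ ^ 2 - 3 * c₀ * c₂)) * (3 * x ^ 2 + 2 * c₂ * x + c₁) := by
    rw [hdd]
    ring
  have hA : L.nm ((18 * c₁ - 6 * c₂ ^ 2) * x + (15 * c₁ * c₂ - 4 * c₂ ^ 3 - 27 * c₀)) ≤ 1 :=
    kr_add_le1 L (kr_mul_le1 L (kr_sub_le1 L (kr_mul_le1 L (kr_ofNat_le1 L 18) l₁)
      (kr_mul_le1 L (kr_ofNat_le1 L 6) (kr_pow_le1 L l₂ 2))) hx)
      (kr_sub_le1 L (kr_sub_le1 L (kr_mul_le1 L (kr_mul_le1 L (kr_ofNat_le1 L 15) l₁) l₂)
        (kr_mul_le1 L (kr_ofNat_le1 L 4) (kr_pow_le1 L l₂ 3))) (kr_mul_le1 L (kr_ofNat_le1 L 27) l₀))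
  have hB : L.nm ((6 * c₁ - 2 * c₂ ^ 2) * x ^ 2 + (7 * c₁ * c₂ - 2 * c₂ ^ 3 - 9 * c₀) * x +
        (4 * c₁ ^ 2 - c₁ * c₂ ^ 2 - 3 * c₀ * c₂)) ≤ 1 :=
    kr_add_le1 L (kr_add_le1 L (kr_mul_le1 L (kr_sub_le1 L (kr_mul_le1 L (kr_ofNat_le1 L 6) l₁)
      (kr_mul_le1 L (kr_ofNat_le1 L 2) (kr_pow_le1 L l₂ 2))) (kr_pow_le1 L hx 2))
      (kr_mul_le1 L (kr_sub_le1 L (kr_sub_le1 L (kr_mul_le1 L (kr_mul_le1 L (kr_ofNat_le1 L 7) l₁) l₂)
        (kr_mul_le1 L (kr_ofNat_le1 L 2) (kr_pow_le1 L l₂ 3))) (kr_mul_le1 L (kr_ofNat_le1 L 9) l₀)) hx))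
      (kr_sub_le1 L (kr_sub_le1 L (kr_mul_le1 L (kr_ofNat_le1 L 4) (kr_pow_le1 L l₁ 2))
        (kr_mul_le1 L l₁ (kr_pow_le1 L l₂ 2))) (kr_mul_le1 L (kr_mul_le1 L (kr_ofNat_le1 L 3) l₀) l₂))
  have hD : L.nm (3 * x ^ 2 + 2 * c₂ * x + c₁) ≤ 1 :=
    kr_add_le1 L (kr_add_le1 L (kr_mul_le1 L (kr_ofNat_le1 L 3) (kr_pow_le1 L hx 2))
      (kr_mul_le1 L (kr_mul_le1 L (kr_ofNat_le1 L 2) l₂) hx)) l₁
  refine le_antisymm hD ?_
  by_contra hlt
  push Not at hlt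
  have h1 : L.nm (((18 * c₁ - 6 * c₂ ^ 2) * x + (15 * c₁ * c₂ - 4 * c₂ ^ 3 - 27 * c₀)) *
        (x ^ 3 + c₂ * x ^ 2 + c₁ * x + c₀)) < 1 := by
    rw [L.mul]
    exact mul_lt_one_of_nonneg_of_lt_one_right hA (L.nonneg _) hg
  have h2 : L.nm (((6 * c₁ - 2 * c₂ ^ 2) * x ^ 2 + (7 * c₁ * c₂ - 2 * c₂ ^ 3 - 9 * c₀) * x +
        (4 * c₁ ^ 2 - c₁ * c₂ ^ 2 - 3 * c₀ * c₂)) * (3 * x ^ 2 + 2 * c₂ * x + c₁)) < 1 := by
    rw [L.mul]
    exact mul_lt_one_of_nonneg_of_lt_one_right hB (L.nonneg _) hlt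
  have h3 : L.nm (algebraMap F Ω C.disc) < 1 := by
    rw [key]
    exact (L.sub _ _).trans_lt (max_lt h1 h2)
  rw [hd] at h3
  exact lt_irrefl _ h3

/-! ### Addition -/

private theorem kr_neg_aff {x y : Ω} (h : ((C.W₂).baseChange Ω).toAffine.Nonsingular x y) :
    ∃ h' : ((C.W₂).baseChange Ω).toAffine.Nonsingular x (-y),
      -(Pt.aff x y h : Pt C.W₂ Ω) = Pt.aff x (-y) h' :=
  HfH_neg rfl rfl h

private theorem kr_add_aff {x y x' y' : Ω} (h : ((C.W₂).baseChange Ω).toAffine.Nonsingular x y)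
    (h' : ((C.W₂).baseChange Ω).toAffine.Nonsingular x' y') (hx : x ≠ x') :
    ∃ (y₂ : Ω) (h₂ : ((C.W₂).baseChange Ω).toAffine.Nonsingular
      (((y - y') / (x - x')) ^ 2 - algebraMap F Ω C.c₂ - x - x') y₂),
      (Pt.aff x y h + Pt.aff x' y' h' : Pt C.W₂ Ω) = Pt.aff _ y₂ h₂ := by
  classical
  have hadd : (Pt.aff x y h + Pt.aff x' y' h' : Pt C.W₂ Ω) = Pt.aff _ _
      (WeierstrassCurve.Affine.nonsingular_add h h' fun hxy => hx hxy.1) :=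
    WeierstrassCurve.Affine.Point.add_of_X_ne (h₁ := h) (h₂ := h') hx
  have hX : ((C.W₂).baseChange Ω).toAffine.addX x x'
      (((C.W₂).baseChange Ω).toAffine.slope x x' y y') =
      ((y - y') / (x - x')) ^ 2 - algebraMap F Ω C.c₂ - x - x' := by
    rw [WeierstrassCurve.Affine.slope_of_X_ne hx]
    simp only [WeierstrassCurve.Affine.addX, Cf.W₂, WeierstrassCurve.baseChange,
      WeierstrassCurve.map, map_zero]
    ring
  have hn := WeierstrassCurve.Affine.nonsingular_add h h' fun hxy => hx hxy.1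
  rw [hX] at hn
  refine ⟨_, hn, ?_⟩
  rw [hadd, HfH_inj]
  exact ⟨hX, rfl⟩

private theorem kr_dbl_aff {x y : Ω} (h : ((C.W₂).baseChange Ω).toAffine.Nonsingular x y)
    (hy : y + y ≠ 0) :
    ∃ (y₂ : Ω) (h₂ : ((C.W₂).baseChange Ω).toAffine.Nonsingular
      (((3 * x ^ 2 + 2 * algebraMap F Ω C.c₂ * x + algebraMap F Ω C.c₁) / (y + y)) ^ 2 -
        algebraMap F Ω C.c₂ - x - x) y₂),
      (Pt.aff x y h + Pt.aff x y h : Pt C.W₂ Ω) = Pt.aff _ y₂ h₂ := by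
  classical
  have hneg : ∀ x y : Ω, ((C.W₂).baseChange Ω).toAffine.negY x y = -y := by
    intro x y
    simp [WeierstrassCurve.Affine.negY, WeierstrassCurve.baseChange, WeierstrassCurve.map, Cf.W₂]
  have hxy : ¬ (x = x ∧ y = ((C.W₂).baseChange Ω).toAffine.negY x y) := by
    rintro ⟨-, h2⟩
    rw [hneg] at h2
    exact hy (by linear_combination h2)
  have hadd : (Pt.aff x y h + Pt.aff x y h : Pt C.W₂ Ω) = Pt.aff _ _
      (WeierstrassCurve.Affine.nonsingular_add h h hxy) :=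
    WeierstrassCurve.Affine.Point.add_some (W := ((C.W₂).baseChange Ω).toAffine) (h₁ := h)
      (h₂ := h) hxy
  have hX : ((C.W₂).baseChange Ω).toAffine.addX x x
      (((C.W₂).baseChange Ω).toAffine.slope x x y y) =
      ((3 * x ^ 2 + 2 * algebraMap F Ω C.c₂ * x + algebraMap F Ω C.c₁) / (y + y)) ^ 2 -
        algebraMap F Ω C.c₂ - x - x := by
    rw [WeierstrassCurve.Affine.slope_of_Y_ne rfl (fun h => hxy ⟨rfl, h⟩), hneg, sub_neg_eq_add]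
    simp only [WeierstrassCurve.Affine.addX, Cf.W₂, WeierstrassCurve.baseChange,
      WeierstrassCurve.map, map_zero]
    ring
  have hn := WeierstrassCurve.Affine.nonsingular_add h h hxy
  rw [hX] at hn
  refine ⟨_, hn, ?_⟩
  rw [hadd, HfH_inj]
  exact ⟨hX, rfl⟩

/-- The `x`-coordinate of a sum is large if the slope is large. -/
private theorem kr_big {l c x x' : Ω} (hl : 1 < L.nm l) (hc : L.nm c ≤ 1) (hx : L.nm x ≤ 1)
    (hx' : L.nm x' ≤ 1) : 1 < L.nm (l ^ 2 - c - x - x') := by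
  have h1 : L.nm (-(c + x + x')) ≤ 1 := by
    rw [L.neg]
    exact kr_add_le1 L (kr_add_le1 L hc hx) hx'
  have h2 : 1 < L.nm (l ^ 2) := by
    rw [L.pow]
    exact one_lt_pow₀ hl two_ne_zero
  have h3 : l ^ 2 - c - x - x' = l ^ 2 + -(c + x + x') := by ring
  rw [h3, L.add_eq' (h1.trans_lt h2)]
  exact h2

theorem kr_or_ig (h : L.H1 C) (P : Pt C.W₂ Ω) : P ∈ Kr L C ∨ P ∈ Ig L C := by
  match P with
  | .zero => exact Or.inl (Or.inl rfl)
  | .some x y hxy =>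
    by_cases hx : L.nm x ≤ 1
    · refine Or.inr ⟨x, y, hxy, rfl, hx, kr_le_of_sq L ?_⟩
      rw [eq₂ C hxy]
      exact kr_rhs_le C L h hx
    · exact Or.inl (Or.inr ⟨x, y, hxy, rfl, not_le.1 hx⟩)

theorem kr_aff_ne_zero {x y : Ω} (h : ((C.W₂).baseChange Ω).toAffine.Nonsingular x y) :
    (Pt.aff x y h : Pt C.W₂ Ω) ≠ 0 :=
  WeierstrassCurve.Affine.Point.some_ne_zero h

theorem not_kr_ig {P : Pt C.W₂ Ω} (h : P ∈ Kr L C) (h' : P ∈ Ig L C) : False := by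
  obtain ⟨x, y, hxy, rfl, hx, hy⟩ := h'
  rcases h with h | ⟨x', y', hxy', he, hx'⟩
  · exact kr_aff_ne_zero C hxy h
  · rw [HfH_inj] at he
    rw [← he.1] at hx'
    exact absurd hx (not_le.2 hx')

/-- The duplication formula: if `‖x‖ > 1` then `λ² = g'(x)² / (4 g(x)) = (9/4) x (1 + small)` and
`x(2 P) = λ² - c₂ - 2 x = (1/4) x (1 + small)`. -/
theorem kr_two (h : L.H1 C) {P : Pt C.W₂ Ω} (hP : P ∈ Kr L C) (h0 : P ≠ 0) :
    P + P ∈ Kr L C ∧ P + P ≠ 0 := by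
  rcases hP with hP | ⟨x, y, hxy, rfl, hx⟩
  · exact absurd hP h0
  set c₂ := algebraMap F Ω C.c₂ with hc₂
  set c₁ := algebraMap F Ω C.c₁ with hc₁
  set c₀ := algebraMap F Ω C.c₀ with hc₀
  have l₂ : L.nm c₂ ≤ 1 := h.hc₂
  have l₁ : L.nm c₁ ≤ 1 := h.hc₁
  have l₀ : L.nm c₀ ≤ 1 := h.hc₀
  have he : y ^ 2 = x ^ 3 + c₂ * x ^ 2 + c₁ * x + c₀ := eq₂ C hxy
  have hx0 : 0 < L.nm x := zero_lt_one.trans hx
  -- `‖g(x)‖ = ‖x‖³`
  have hg : L.nm (y ^ 2) = L.nm x ^ 3 := by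
    have h1 : L.nm (c₂ * x ^ 2 + c₁ * x + c₀) ≤ L.nm x ^ 2 := by
      refine (L.add _ _).trans (max_le ((L.add _ _).trans (max_le ?_ ?_)) ?_)
      · rw [L.mul, L.pow]
        exact mul_le_of_le_one_left (pow_nonneg hx0.le _) l₂
      · rw [L.mul]
        calc L.nm c₁ * L.nm x ≤ L.nm x := mul_le_of_le_one_left hx0.le l₁
          _ ≤ L.nm x ^ 2 := le_self_pow₀ hx.le two_ne_zero
      · exact l₀.trans (one_le_pow₀ hx.le)
    have h2 : L.nm (c₂ * x ^ 2 + c₁ * x + c₀) < L.nm (x ^ 3) := by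
      rw [L.pow]
      exact h1.trans_lt (pow_lt_pow_right₀ hx (by norm_num))
    rw [he, show x ^ 3 + c₂ * x ^ 2 + c₁ * x + c₀ = x ^ 3 + (c₂ * x ^ 2 + c₁ * x + c₀) by ring,
      L.add_eq' h2, L.pow]
  have hy : y ≠ 0 := by
    rintro rfl
    rw [zero_pow two_ne_zero, (L.zero_iff 0).2 rfl] at hg
    exact absurd hg.symm (pow_pos hx0 3).ne'
  have h2 : (2 : Ω) ≠ 0 := L.ne_zero (by rw [h.two]; exact one_pos)
  have hyy : y + y ≠ 0 := by
    rw [← two_mul]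
    exact mul_ne_zero h2 hy
  obtain ⟨y₂, h₂, hs⟩ := kr_dbl_aff C hxy hyy
  rw [hs]
  refine ⟨Or.inr ⟨_, y₂, h₂, rfl, ?_⟩, kr_aff_ne_zero C h₂⟩
  rw [← hc₂, ← hc₁]
  have h3 : ((3 * x ^ 2 + 2 * c₂ * x + c₁) / (y + y)) ^ 2 - c₂ - x - x =
      (x ^ 4 + (-(2 * c₁ * x ^ 2) - 8 * c₀ * x + (c₁ ^ 2 - 4 * c₀ * c₂))) / (2 ^ 2 * y ^ 2) := by
    have h6 : x ^ 4 + (-(2 * c₁ * x ^ 2) - 8 * c₀ * x + (c₁ ^ 2 - 4 * c₀ * c₂)) =
        (3 * x ^ 2 + 2 * c₂ * x + c₁) ^ 2 - (c₂ + x + x) * (2 ^ 2 * y ^ 2) := by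
      linear_combination (4 * (c₂ + 2 * x)) * he
    rw [h6, ← two_mul, sub_div, mul_div_assoc, div_self (mul_ne_zero (pow_ne_zero 2 h2)
      (pow_ne_zero 2 hy)), div_pow, mul_pow]
    ring
  have h4 : L.nm (-(2 * c₁ * x ^ 2) - 8 * c₀ * x + (c₁ ^ 2 - 4 * c₀ * c₂)) ≤ L.nm x ^ 2 := by
    refine (L.add _ _).trans (max_le ((L.sub _ _).trans (max_le ?_ ?_)) ?_)
    · rw [L.neg, L.mul, L.pow]
      exact mul_le_of_le_one_left (pow_nonneg hx0.le _) (kr_mul_le1 L (kr_ofNat_le1 L 2) l₁)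
    · rw [L.mul]
      calc L.nm (8 * c₀) * L.nm x ≤ L.nm x :=
            mul_le_of_le_one_left hx0.le (kr_mul_le1 L (kr_ofNat_le1 L 8) l₀)
        _ ≤ L.nm x ^ 2 := le_self_pow₀ hx.le two_ne_zero
    · exact (kr_sub_le1 L (kr_pow_le1 L l₁ 2) (kr_mul_le1 L (kr_mul_le1 L (kr_ofNat_le1 L 4) l₀) l₂)).trans
        (one_le_pow₀ hx.le)
  have h5 : L.nm (-(2 * c₁ * x ^ 2) - 8 * c₀ * x + (c₁ ^ 2 - 4 * c₀ * c₂)) < L.nm (x ^ 4) := by
    rw [L.pow]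
    exact h4.trans_lt (pow_lt_pow_right₀ hx (by norm_num))
  rw [h3, L.div, L.add_eq' h5, L.mul, L.pow 2, h.two, hg, L.pow, one_pow, one_mul,
    lt_div_iff₀ (pow_pos hx0 3), one_mul]
  exact pow_lt_pow_right₀ hx (by norm_num)

/-- The kernel of the reduction has no torsion of order a power of `2`. -/
theorem kr_tor (h : L.H1 C) {P : Pt C.W₂ Ω} (hP : P ∈ Kr L C) {k : ℕ} (hk : 2 ^ k • P = 0) :
    P = 0 := by
  by_contra h0
  have h1 : ∀ k : ℕ, 2 ^ k • P ∈ Kr L C ∧ 2 ^ k • P ≠ 0 := by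
    intro k
    induction k with
    | zero =>
      rw [pow_zero, one_smul]
      exact ⟨hP, h0⟩
    | succ k ih =>
      rw [pow_succ, mul_comm, mul_smul, two_smul]
      exact kr_two C L h ih.1 ih.2
  exact (h1 k).2 hk

theorem ig_half (h : L.H1 C) {P : Pt C.W₂ Ω} (hP : P + P ∈ Ig L C) : P ∈ Ig L C := by
  rcases kr_or_ig C L h P with h1 | h1
  · exfalso
    by_cases h0 : P = 0
    · refine not_kr_ig C L (Or.inl ?_) hP
      rw [h0, add_zero]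
    · exact not_kr_ig C L (kr_two C L h h1 h0).1 hP
  · exact h1

/-- The difference of two integral points which are congruent is in the kernel of the reduction. Proof: `P = (x, y)`, `P' = (x', y')`.
If `x ≠ x'` the slope `λ` of the line through `P` and `- P' = (x', - y')` is
`(y + y') / (x - x') = G / (y - y')` with `G = (g(x) - g(x')) / (x - x')` a polynomial in `x`, `x'`, close to `g'(x)`. If `‖y‖ = 1` then
`‖y + y'‖ = 1` and `‖λ‖ > 1`; if `‖y‖ < 1` then `‖g(x)‖ < 1`, so `‖g'(x)‖ = 1` (the discriminant of `g` is a combination of `g(x)` and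
`g'(x)` with integral coefficients) and `‖λ‖ > 1`. Then `‖λ² - c₂ - x - x'‖ > 1`. If `x = x'` then `P' = P` or `P' = - P`, `P - P' = 2 P`, `‖y‖ < 1`: the
same with the tangent, `λ = g'(x) / (2 y)`, or `y = 0`, `2 P = 0`. -/
theorem ig_close (h : L.H1 C) {x y x' y' : Ω}
    (hP : ((C.W₂).baseChange Ω).toAffine.Nonsingular x y)
    (hP' : ((C.W₂).baseChange Ω).toAffine.Nonsingular x' y') (hx : L.nm x ≤ 1) (hy : L.nm y ≤ 1)
    (hxx : L.nm (x - x') < 1) (hyy : L.nm (y - y') < 1) :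
    (Pt.aff x y hP - Pt.aff x' y' hP' : Pt C.W₂ Ω) ∈ Kr L C := by
  set c₂ := algebraMap F Ω C.c₂ with hc₂
  set c₁ := algebraMap F Ω C.c₁ with hc₁
  set c₀ := algebraMap F Ω C.c₀ with hc₀
  have l₂ : L.nm c₂ ≤ 1 := h.hc₂
  have l₁ : L.nm c₁ ≤ 1 := h.hc₁
  have he : y ^ 2 = x ^ 3 + c₂ * x ^ 2 + c₁ * x + c₀ := eq₂ C hP
  have he' : y' ^ 2 = x' ^ 3 + c₂ * x' ^ 2 + c₁ * x' + c₀ := eq₂ C hP'
  have h2 : (2 : Ω) ≠ 0 := L.ne_zero (by rw [h.two]; exact one_pos)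
  have hx' : L.nm x' ≤ 1 := by
    rw [show x' = x - (x - x') by ring]
    exact kr_sub_le1 L hx hxx.le
  obtain ⟨hn, hneg⟩ := kr_neg_aff C hP'
  -- the derivative
  have hdg : L.nm y < 1 → L.nm (3 * x ^ 2 + 2 * c₂ * x + c₁) = 1 := by
    intro hlt
    refine kr_dg_unit C L h hx ?_
    rw [← eq₂ C hP, L.pow]
    exact pow_lt_one₀ (L.nonneg _) hlt two_ne_zero
  by_cases hne : x = x'
  · subst hne
    by_cases hyy' : y = y'
    · subst hyy'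
      left
      exact sub_self _
    · have h3 : (y - y') * (y + y') = 0 := by linear_combination he - he'
      have h4 : y' = -y := by
        rcases mul_eq_zero.1 h3 with h5 | h5
        · exact absurd (sub_eq_zero.1 h5) hyy'
        · linear_combination h5
      subst h4
      have hy0 : y + y ≠ 0 := by
        intro h5
        apply hyy'
        linear_combination h5
      obtain ⟨y₂, h₂, hs⟩ := kr_dbl_aff C hP hy0
      have h6 : (Pt.aff x y hP - Pt.aff x (-y) hP' : Pt C.W₂ Ω) =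
          Pt.aff x y hP + Pt.aff x y hP := by
        rw [sub_eq_add_neg, hneg]
        congr 1
        rw [HfH_inj]
        exact ⟨rfl, neg_neg y⟩
      rw [h6, hs]
      refine Or.inr ⟨_, y₂, h₂, rfl, ?_⟩
      have h7 : L.nm (y + y) = L.nm y := by rw [← two_mul, L.mul, h.two, one_mul]
      have h8 : L.nm y < 1 := by
        rw [sub_neg_eq_add, h7] at hyy
        exact hyy
      refine kr_big L ?_ l₂ hx hx
      rw [L.div, ← hc₂, ← hc₁, hdg h8, h7, lt_div_iff₀, one_mul]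
      · exact h8
      · rw [← h7]
        exact L.pos hy0
  · rw [sub_eq_add_neg, hneg]
    obtain ⟨y₂, h₂, hs⟩ := kr_add_aff C hP hn hne
    rw [hs]
    refine Or.inr ⟨_, y₂, h₂, rfl, kr_big L ?_ l₂ hx hx'⟩
    have hxx0 : x - x' ≠ 0 := sub_ne_zero.2 hne
    rw [sub_neg_eq_add]
    rcases hy.lt_or_eq with hlt | heq
    · -- `‖y‖ < 1`
      have h3 : (y - y') * (y + y') = (x - x') * ((3 * x ^ 2 + 2 * c₂ * x + c₁) +
          (x' - x) * (x' + 2 * x + c₂)) := by linear_combination he - he'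
      have h4 : L.nm ((x' - x) * (x' + 2 * x + c₂)) < 1 := by
        rw [L.mul, L.sub_comm]
        exact mul_lt_one_of_nonneg_of_lt_one_left (L.nonneg _) hxx
          (kr_add_le1 L (kr_add_le1 L hx' (kr_mul_le1 L (kr_ofNat_le1 L 2) hx)) l₂)
      have h5 : L.nm ((3 * x ^ 2 + 2 * c₂ * x + c₁) + (x' - x) * (x' + 2 * x + c₂)) = 1 := by
        rw [L.add_eq' (by rw [hdg hlt]; exact h4), hdg hlt]
      have h6 : y - y' ≠ 0 := by
        intro h7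
        rw [h7, zero_mul] at h3
        rcases mul_eq_zero.1 h3.symm with h8 | h8
        · exact hxx0 h8
        · rw [h8, (L.zero_iff 0).2 rfl] at h5
          exact zero_ne_one h5
      have h7 : (y + y') / (x - x') = ((3 * x ^ 2 + 2 * c₂ * x + c₁) +
          (x' - x) * (x' + 2 * x + c₂)) / (y - y') := by
        rw [div_eq_div_iff hxx0 h6]
        linear_combination h3
      rw [h7, L.div, h5, lt_div_iff₀ (L.pos h6), one_mul]
      exact hyy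
    · -- `‖y‖ = 1`
      have h3 : L.nm (y + y') = 1 := by
        have h4 : L.nm (2 * y) = 1 := by rw [L.mul, h.two, heq, one_mul]
        rw [show y + y' = 2 * y + -(y - y') by ring, L.add_eq' (by rw [L.neg, h4]; exact hyy), h4]
      rw [L.div, h3, lt_div_iff₀ (L.pos hxx0), one_mul]
      exact hxx

end BE
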