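import Pool.Agent.Lib.MP_f80667_ag.Be.Tor

/-! The local theorem at the odd places of good reduction. -/

open ZC Polynomial IntermediateField

namespace BE

variable {F : Type} [Field F] {K : Type} [Field K] [CharZero K] [Algebra F K] {Ω : Type} [Field Ω]
  [Algebra K Ω] [Algebra F Ω] [IsScalarTower F K Ω] [IsAlgClosure K Ω] (C : Cf F) (L : Lf K Ω)

/-- `{a, P} = 0`. Proof: `exists_frob`, `exists_plus`, `exists_nrm`: `y = 2 y' + N y₂`; `br (2 y') = 2 br = 0`; `br_M(a, N y₂) = br_(M₂)(a, y₂)` (`nB` for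
`u + a` and `u`, `Nb_add`), and `al a` is a square over `M₂` (`uc_al`), so `a = 2 τ` with `UU τ` (`half₁`) and `br_two` gives `0`. -/
theorem br_eq_zero₁ (h : L.H1 C) {G : Type} [AddCommGroup G] (T : Th (C.dt K Ω) G)
    (hT : T.op = opn K Ω) {M : IntermediateField K Ω} [FiniteDimensional K M] {u a : Pt C.W₁ Ω}
    {y : Pt C.W₂ Ω} (hy : (C.dt K Ω).PP M.fixingSubgroup u y)
    (ha : ∀ γ ∈ M.fixingSubgroup, γ • a = a) : T.br M.fixingSubgroup a u y = 0 := by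
  have hop : T.op M.fixingSubgroup := by
    rw [hT]
    exact opn_fix M
  obtain ⟨φ, q, hφ⟩ := exists_frob L M
  obtain ⟨M₂, s, hfin, hM, hsM, hs, hφs, hγs, hi, hsq⟩ := exists_plus L h.two hφ
  have hle : M₂.fixingSubgroup ≤ M.fixingSubgroup := fix_le hM
  have hop2 : T.op M₂.fixingSubgroup := by
    rw [hT]
    exact opn_fix M₂
  have hff : M₂.fixingSubgroup.FiniteIndex := T.op_fin _ hop2
  obtain ⟨y', y₂, hy', hy₂, hyy⟩ := exists_nrm C L h hφ hM hs hφs hγs hi hy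
  have ha2 : ∀ γ ∈ M₂.fixingSubgroup, γ • a = a := fun γ hγ => ha γ (hle hγ)
  -- the square class over `M₂`
  obtain ⟨c, hcM, m, hmM, hc1, hm0, hal⟩ := uc_al C L h ha
  have hsqa : SqM M₂ (C.al a) := by
    obtain ⟨x, hx, hcx⟩ := hsq c hcM hc1
    refine ⟨x * m, M₂.mul_mem hx (hM hmM), ?_⟩
    rw [hal, hcx, mul_pow]
  obtain ⟨τ, hτ, hττ⟩ := half₁ C ha2 hsqa
  have h0 : T.br M₂.fixingSubgroup a u y₂ = 0 := by
    rw [← hττ]
    exact T.br_two hop2 hy₂ hτ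
  have hNb : (C.dt K Ω).PP M.fixingSubgroup u (Nb M.fixingSubgroup M₂.fixingSubgroup u y₂) :=
    pp_Nb hle hff hy.uu hy₂
  have h1 : T.br M.fixingSubgroup a u (Nb M.fixingSubgroup M₂.fixingSubgroup u y₂) = 0 := by
    rw [← h0]
    unfold Th.br
    rw [Th.nB T hop2 hle hy.uu hy₂, Th.nB T hop2 hle (Dt.pp_tr hy ha).uu (Dt.pp_tr hy₂ ha2),
      Nb_add ha]
  have h2 : T.br M.fixingSubgroup a u (y' + y') = 0 := by
    rw [T.br_add_y hop ha hy' hy', ← two_nsmul]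
    exact T.two_br hop hy' ha
  rw [hyy, T.br_add_y hop ha (Dt.pp_add hy' hy') hNb, h1, h2, add_zero]

/-- **The local theorem at the odd places of good reduction.** Proof: `br = 0` (`br_eq_zero₁`), so `2 f(u, y) = - br(t, u, y) = 0` (`br_t`);
`y = 2 y' + N y₂` gives `f_M(u, y) = f_(M₂)(u, y₂)`; over `M₂` the number `kap u` is a square (`uc_kap`), so `u` is fixed (`kap_fix`),
`f_(M₂)(u, y₂) = f_(M₂)(0, y₂)` by `br_eq_zero₁`, and this is `f ⊤ 0 (Nb ⊤ _ 0 y₂)`. -/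
theorem loc₁ (h : L.H1 C) {G : Type} [AddCommGroup G] (T : Th (C.dt K Ω) G)
    (hT : T.op = opn K Ω) : T.Loc := by
  have htwo : ∀ (M : IntermediateField K Ω) [FiniteDimensional K M] (u : Pt C.W₁ Ω)
      (y : Pt C.W₂ Ω), (C.dt K Ω).PP M.fixingSubgroup u y →
      2 • T.f M.fixingSubgroup u y = 0 := by
    intro M _ u y hy
    have hop : T.op M.fixingSubgroup := by
      rw [hT]
      exact opn_fix M
    have h1 := T.br_t hop hy
    rw [br_eq_zero₁ C L h T hT hy (fun γ _ => (C.dt K Ω).smul_t γ)] at h1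
    exact neg_eq_zero.1 h1.symm
  have hz : ∀ (S : Subgroup (Ω ≃ₐ[K] Ω)), ∀ γ ∈ S, γ • (0 : Pt C.W₁ Ω) = 0 :=
    fun S γ _ => smul_zero γ
  refine ⟨?_, ?_⟩
  · intro H u y hH hy
    obtain ⟨M, hMf, rfl⟩ := exists_fix (K := K) (Ω := Ω) (H := H) (by rw [← hT]; exact hH)
    obtain ⟨φ, q, hφ⟩ := exists_frob L M
    obtain ⟨M₂, s, hfin, hM, hsM, hs, hφs, hγs, hi, hsq⟩ := exists_plus L h.two hφ
    have hle : M₂.fixingSubgroup ≤ M.fixingSubgroup := fix_le hM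
    have hop2 : T.op M₂.fixingSubgroup := by
      rw [hT]
      exact opn_fix M₂
    have hff : M₂.fixingSubgroup.FiniteIndex := T.op_fin _ hop2
    obtain ⟨y', y₂, hy', hy₂, hyy⟩ := exists_nrm C L h hφ hM hs hφs hγs hi hy
    obtain ⟨c, hcM, m, hmM, hc1, hm0, hkap⟩ := uc_kap C L h hy.uu
    have hsqa : SqM M₂ (C.kap Ω u) := by
      obtain ⟨x, hx, hcx⟩ := hsq c hcM hc1
      refine ⟨x * m, M₂.mul_mem hx (hM hmM), ?_⟩
      rw [hkap, hcx, mul_pow]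
    have hu2 : ∀ γ ∈ M₂.fixingSubgroup, γ • u = u := (kap_fix C hy₂.uu).1 hsqa
    have hy20 : (C.dt K Ω).PP M₂.fixingSubgroup 0 y₂ :=
      (Dt.pp_fix (hz _)).2 ((Dt.pp_fix hu2).1 hy₂)
    have hNb : (C.dt K Ω).PP M.fixingSubgroup u (Nb M.fixingSubgroup M₂.fixingSubgroup u y₂) :=
      pp_Nb hle hff hy.uu hy₂
    refine ⟨Nb ⊤ M₂.fixingSubgroup (0 : Pt C.W₁ Ω) y₂, ?_, ?_⟩
    · have h1 : (C.dt K Ω).PP ⊤ 0 (Nb ⊤ M₂.fixingSubgroup (0 : Pt C.W₁ Ω) y₂) :=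
        pp_Nb le_top hff (Dt.uu_of_fix (hz _)) hy20
      intro γ
      exact (Dt.pp_fix (hz _)).1 h1 γ (Subgroup.mem_top γ)
    · have h1 : T.f M.fixingSubgroup u (y' + y') = 0 := by
        rw [T.f_add hH hy' hy', ← two_nsmul]
        exact htwo M u y' hy'
      have h2 : T.f M₂.fixingSubgroup u y₂ = T.f M₂.fixingSubgroup 0 y₂ := by
        have h3 := br_eq_zero₁ C L h T hT hy20 hu2
        unfold Th.br at h3
        rw [zero_add] at h3
        exact sub_eq_zero.1 h3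
      have h4 : T.f M₂.fixingSubgroup 0 y₂ = T.f ⊤ 0 (Nb ⊤ M₂.fixingSubgroup (0 : Pt C.W₁ Ω) y₂) :=
        Th.nB T hop2 le_top (Dt.uu_of_fix (hz _)) hy20
      rw [← h4, ← h2, Th.nB T hop2 hle hy.uu hy₂]
      nth_rewrite 1 [hyy]
      rw [T.f_add hH (Dt.pp_add hy' hy') hNb, h1, zero_add]
  · intro y₀ hy₀
    have hbot : (⊥ : IntermediateField K Ω).fixingSubgroup = ⊤ :=
      IntermediateField.fixingSubgroup_bot
    have h1 := htwo (⊥ : IntermediateField K Ω) 0 y₀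
      ((Dt.pp_fix (hz _)).2 fun γ _ => hy₀ γ)
    rw [hbot] at h1
    exact h1

end BE
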