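import Pool.Agent.Lib.MP_f80667_ag.Be.Hf

/-!
Local fields: the absolute value on the algebraic closure `Ω` of a nonarchimedean local field `K` of
characteristic `0`.
-/

open ZC Polynomial IntermediateField

namespace BE

/-- The absolute value of the algebraic closure `Ω` of a nonarchimedean local field `K`. -/
structure Lf (K Ω : Type) [Field K] [Field Ω] [Algebra K Ω] where
  /-- the absolute value -/
  nm : Ω → ℝ
  nonneg : ∀ x, 0 ≤ nm x
  zero_iff : ∀ x, nm x = 0 ↔ x = 0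
  mul : ∀ x y, nm (x * y) = nm x * nm y
  add : ∀ x y, nm (x + y) ≤ max (nm x) (nm y)
  act : ∀ (γ : Ω ≃ₐ[K] Ω) (x : Ω), nm (γ x) = nm x
  /-- Hensel's lemma for monic polynomials -/
  hens : ∀ M : IntermediateField K Ω, FiniteDimensional K M → ∀ f : Polynomial Ω, f.Monic →
    (∀ i, f.coeff i ∈ M ∧ nm (f.coeff i) ≤ 1) → ∀ x ∈ M, nm x ≤ 1 → nm (f.eval x) < 1 →
    nm (f.derivative.eval x) = 1 → ∃ y ∈ M, f.eval y = 0 ∧ nm (y - x) < 1
  /-- the value group of a finite extension is infinite cyclic -/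
  unif : ∀ M : IntermediateField K Ω, FiniteDimensional K M →
    ∃ π ∈ M, 0 < nm π ∧ nm π < 1 ∧ ∀ x ∈ M, x ≠ 0 → ∃ n : ℤ, nm x = nm π ^ n
  /-- the residue field of a finite extension is finite -/
  fin : ∀ M : IntermediateField K Ω, FiniteDimensional K M →
    ∃ S : Finset Ω, (∀ s ∈ S, s ∈ M ∧ nm s ≤ 1) ∧ ∀ x ∈ M, nm x ≤ 1 → ∃ s ∈ S, nm (x - s) < 1

namespace Lf

variable {K Ω : Type} [Field K] [Field Ω] [Algebra K Ω] (L : Lf K Ω)

theorem one : L.nm 1 = 1 := by
  have h1 := L.mul 1 1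
  rw [mul_one] at h1
  have h2 : L.nm 1 ≠ 0 := fun h => one_ne_zero ((L.zero_iff 1).1 h)
  exact (mul_right_cancel₀ h2 (by rw [one_mul, ← h1])).symm

theorem neg (x : Ω) : L.nm (-x) = L.nm x := by
  have h1 : L.nm (-x) * L.nm (-x) = L.nm x * L.nm x := by
    rw [← L.mul, ← L.mul, neg_mul_neg]
  exact (mul_self_inj (L.nonneg _) (L.nonneg _)).1 h1

theorem sub (x y : Ω) : L.nm (x - y) ≤ max (L.nm x) (L.nm y) := by
  have h1 := L.add x (-y)
  rwa [L.neg, ← sub_eq_add_neg] at h1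

theorem sub_comm (x y : Ω) : L.nm (x - y) = L.nm (y - x) := by
  rw [← L.neg, neg_sub]

theorem inv (x : Ω) : L.nm x⁻¹ = (L.nm x)⁻¹ := by
  by_cases hx : x = 0
  · rw [hx, inv_zero, (L.zero_iff 0).2 rfl, inv_zero]
  · apply eq_inv_of_mul_eq_one_left
    rw [← L.mul, inv_mul_cancel₀ hx, L.one]

theorem div (x y : Ω) : L.nm (x / y) = L.nm x / L.nm y := by
  rw [div_eq_mul_inv, L.mul, L.inv, div_eq_mul_inv]

theorem pow (x : Ω) (n : ℕ) : L.nm (x ^ n) = L.nm x ^ n := by
  induction n with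
  | zero => rw [pow_zero, pow_zero, L.one]
  | succ n ih => rw [pow_succ, pow_succ, L.mul, ih]

theorem zpow (x : Ω) (n : ℤ) : L.nm (x ^ n) = L.nm x ^ n := by
  obtain ⟨m, rfl | rfl⟩ := n.eq_nat_or_neg
  · rw [zpow_natCast, zpow_natCast, L.pow]
  · rw [zpow_neg, zpow_neg, zpow_natCast, zpow_natCast, L.inv, L.pow]

theorem pos {x : Ω} (hx : x ≠ 0) : 0 < L.nm x := by
  exact lt_of_le_of_ne (L.nonneg x) fun h => hx ((L.zero_iff x).1 h.symm)

theorem ne_zero {x : Ω} (hx : 0 < L.nm x) : x ≠ 0 := by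
  rintro rfl
  rw [(L.zero_iff 0).2 rfl] at hx
  exact lt_irrefl _ hx

/-- The larger of two different norms wins. -/
theorem add_eq {x y : Ω} (h : L.nm x < L.nm y) : L.nm (x + y) = L.nm y := by
  apply le_antisymm
  · exact (L.add x y).trans (max_le h.le le_rfl)
  · have h1 := L.sub (x + y) x
    rw [add_sub_cancel_left] at h1
    rcases le_max_iff.1 h1 with h2 | h2
    · exact h2
    · exact absurd h (not_lt.2 h2)

theorem add_eq' {x y : Ω} (h : L.nm y < L.nm x) : L.nm (x + y) = L.nm x := by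
  rw [add_comm]
  exact L.add_eq h

theorem one_add {x : Ω} (h : L.nm x < 1) : L.nm (1 + x) = 1 := by
  rw [L.add_eq' (by rw [L.one]; exact h), L.one]

/-- Numbers which are close have the same norm. -/
theorem eq_of_close {x y : Ω} (h : L.nm (x - y) < L.nm y) : L.nm x = L.nm y := by
  have h1 := L.add_eq h
  rwa [sub_add_cancel] at h1

theorem nat_le (n : ℕ) : L.nm (n : Ω) ≤ 1 := by
  induction n with
  | zero =>
    rw [Nat.cast_zero, (L.zero_iff 0).2 rfl]
    exact zero_le_one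
  | succ n ih =>
    rw [Nat.cast_succ]
    exact (L.add _ _).trans (max_le ih L.one.le)

theorem int_le (n : ℤ) : L.nm (n : Ω) ≤ 1 := by
  obtain ⟨m, rfl | rfl⟩ := n.eq_nat_or_neg
  · rw [Int.cast_natCast]
    exact L.nat_le m
  · rw [Int.cast_neg, Int.cast_natCast, L.neg]
    exact L.nat_le m

theorem two_le : L.nm 2 ≤ 1 := by
  have h1 := L.nat_le 2
  rwa [Nat.cast_ofNat] at h1

/-- An odd integer is a unit if `‖2‖ < 1`. -/
theorem odd_unit (h2 : L.nm 2 < 1) {n : ℕ} (hn : Odd n) : L.nm (n : Ω) = 1 := by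
  obtain ⟨m, rfl⟩ := hn
  rw [Nat.cast_add, Nat.cast_mul, Nat.cast_one, Nat.cast_ofNat, add_comm]
  refine L.one_add ?_
  rw [L.mul]
  exact mul_lt_one_of_nonneg_of_lt_one_left (L.nonneg _) h2 (L.nat_le m)

theorem sum_le {ι : Type} (s : Finset ι) (f : ι → Ω) {c : ℝ} (hc : 0 ≤ c)
    (h : ∀ i ∈ s, L.nm (f i) ≤ c) : L.nm (∑ i ∈ s, f i) ≤ c := by
  classical
  induction s using Finset.induction_on with
  | empty =>
    rw [Finset.sum_empty, (L.zero_iff 0).2 rfl]
    exact hc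
  | insert a s ha ih =>
    rw [Finset.sum_insert ha]
    exact (L.add _ _).trans (max_le (h a (Finset.mem_insert_self _ _))
      (ih fun i hi => h i (Finset.mem_insert_of_mem hi)))

/-- The values of a polynomial with integral coefficients at two close points. -/
theorem eval_close {f : Polynomial Ω} (hf : ∀ i, L.nm (f.coeff i) ≤ 1) {x y : Ω} (hx : L.nm x ≤ 1)
    (hy : L.nm y ≤ 1) : L.nm (f.eval x - f.eval y) ≤ L.nm (x - y) := by
  have hpow : ∀ i : ℕ, L.nm (x ^ i - y ^ i) ≤ L.nm (x - y) := by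
    intro i
    induction i with
    | zero =>
      rw [pow_zero, pow_zero, sub_self, (L.zero_iff 0).2 rfl]
      exact L.nonneg _
    | succ i ih =>
      have h1 : x ^ (i + 1) - y ^ (i + 1) = x * (x ^ i - y ^ i) + (x - y) * y ^ i := by ring
      rw [h1]
      refine (L.add _ _).trans (max_le ?_ ?_)
      · rw [L.mul]
        exact (mul_le_of_le_one_left (L.nonneg _) hx).trans ih
      · rw [L.mul, L.pow]
        exact mul_le_of_le_one_right (L.nonneg _) (pow_le_one₀ (L.nonneg _) hy)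
  rw [eval_eq_sum_range, eval_eq_sum_range, ← Finset.sum_sub_distrib]
  refine L.sum_le _ _ (L.nonneg _) fun i _ => ?_
  rw [← mul_sub, L.mul]
  exact (mul_le_of_le_one_left (L.nonneg _) (hf i)).trans (hpow i)

theorem eval_le {f : Polynomial Ω} (hf : ∀ i, L.nm (f.coeff i) ≤ 1) {x : Ω} (hx : L.nm x ≤ 1) :
    L.nm (f.eval x) ≤ 1 := by
  rw [eval_eq_sum_range]
  refine L.sum_le _ _ zero_le_one fun i _ => ?_
  rw [L.mul, L.pow]
  exact mul_le_one₀ (hf i) (pow_nonneg (L.nonneg _) i) (pow_le_one₀ (L.nonneg _) hx)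

/-- A root of a monic polynomial with integral coefficients is integral. -/
theorem root_le {f : Polynomial Ω} (hm : f.Monic) (hf : ∀ i, L.nm (f.coeff i) ≤ 1) {x : Ω}
    (hx : f.eval x = 0) : L.nm x ≤ 1 := by
  by_contra hlt
  rw [not_le] at hlt
  have h1 := congrArg (fun p => p.eval x) hm.as_sum
  simp only [eval_add, eval_pow, eval_X, eval_finset_sum, eval_mul, eval_C] at h1
  rw [hx] at h1
  obtain ⟨n, hn⟩ : ∃ n, n = f.natDegree := ⟨_, rfl⟩
  rw [← hn] at h1
  rcases n with _ | n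
  · rw [pow_zero, Finset.range_zero, Finset.sum_empty, add_zero] at h1
    exact zero_ne_one h1
  · have h2 : x ^ (n + 1) = -∑ i ∈ Finset.range (n + 1), f.coeff i * x ^ i :=
      eq_neg_of_add_eq_zero_left h1.symm
    have h3 : L.nm (x ^ (n + 1)) ≤ L.nm x ^ n := by
      rw [h2, L.neg]
      refine L.sum_le _ _ (pow_nonneg (L.nonneg _) n) fun i hi => ?_
      rw [L.mul, L.pow]
      refine (mul_le_of_le_one_left (pow_nonneg (L.nonneg _) i) (hf i)).trans ?_
      exact pow_le_pow_right₀ hlt.le (Nat.lt_succ_iff.1 (Finset.mem_range.1 hi))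
    rw [L.pow] at h3
    exact absurd (pow_lt_pow_right₀ hlt (Nat.lt_succ_self n)) (not_lt.2 h3)

/-- `1 + 4 z` is a square if `‖z‖ < 1`. Proof: `hens` for `W² + W - z` at `0`. -/
theorem sq [CharZero K] (M : IntermediateField K Ω) [FiniteDimensional K M] {x : Ω} (hx : x ∈ M)
    (h : L.nm x < L.nm 4) : SqM M (1 + x) := by
  have h4 : (4 : Ω) ≠ 0 := L.ne_zero ((L.nonneg x).trans_lt h)
  have h4M : (4 : Ω) ∈ M := by
    have := M.natCast_mem 4
    rwa [Nat.cast_ofNat] at this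
  obtain ⟨z, hz⟩ : ∃ z, z = x / 4 := ⟨_, rfl⟩
  have hzM : z ∈ M := by
    rw [hz]
    exact M.div_mem hx h4M
  have hz1 : L.nm z < 1 := by
    rw [hz, L.div, div_lt_one (L.pos h4)]
    exact h
  have hxz : x = 4 * z := by
    rw [hz, mul_div_cancel₀ _ h4]
  have hd : (Polynomial.X - Polynomial.C z : Polynomial Ω).degree < (2 : ℕ) := by
    rw [degree_X_sub_C]
    exact_mod_cast one_lt_two
  have hm : (Polynomial.X ^ 2 + (Polynomial.X - Polynomial.C z) : Polynomial Ω).Monic :=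
    monic_X_pow_add hd
  have hev : ∀ w : Ω, (Polynomial.X ^ 2 + (Polynomial.X - Polynomial.C z) : Polynomial Ω).eval w =
      w ^ 2 + (w - z) := by
    intro w
    simp only [eval_add, eval_pow, eval_X, eval_sub, eval_C]
  have hco : ∀ i, (Polynomial.X ^ 2 + (Polynomial.X - Polynomial.C z) : Polynomial Ω).coeff i ∈ M ∧
      L.nm ((Polynomial.X ^ 2 + (Polynomial.X - Polynomial.C z) : Polynomial Ω).coeff i) ≤ 1 := by
    intro i
    rw [coeff_add, coeff_sub, coeff_X_pow, coeff_X, coeff_C]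
    rcases i with _ | _ | _ | i
    · rw [if_neg (by omega), if_neg (by omega), if_pos rfl, zero_sub, zero_add, L.neg]
      exact ⟨M.neg_mem hzM, hz1.le⟩
    · rw [if_neg (by omega), if_pos (by omega), if_neg (by omega), sub_zero, zero_add]
      exact ⟨M.one_mem, L.one.le⟩
    · rw [if_pos (by omega), if_neg (by omega), if_neg (by omega), sub_zero, add_zero]
      exact ⟨M.one_mem, L.one.le⟩
    · rw [if_neg (by omega), if_neg (by omega), if_neg (by omega), sub_zero, add_zero]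
      refine ⟨M.zero_mem, ?_⟩
      rw [(L.zero_iff 0).2 rfl]
      exact zero_le_one
  obtain ⟨y, hyM, hy, -⟩ := L.hens M inferInstance _ hm hco 0 M.zero_mem
    (by rw [(L.zero_iff 0).2 rfl]; exact zero_le_one)
    (by
      rw [hev, zero_sub, zero_pow two_ne_zero, zero_add, L.neg]
      exact hz1)
    (by
      have h5 : (derivative (Polynomial.X ^ 2 + (Polynomial.X - Polynomial.C z) :
          Polynomial Ω)).eval 0 = 1 := by
        simp
      rw [h5, L.one])
  rw [hev] at hy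
  refine ⟨1 + 2 * y, M.add_mem M.one_mem (M.mul_mem ?_ hyM), ?_⟩
  · have := M.natCast_mem 2
    rwa [Nat.cast_ofNat] at this
  · rw [hxz]
    linear_combination (-4) * hy

/-- If `c` and `c'` are close their quotient is a square. -/
theorem sq' [CharZero K] (M : IntermediateField K Ω) [FiniteDimensional K M] {c c' : Ω}
    (hc : c ∈ M) (hc' : c' ∈ M) (h0 : c' ≠ 0) (h : L.nm (c - c') < L.nm 4 * L.nm c') :
    SqM M (c * c') := by
  have hpos := L.pos h0
  have h1 : L.nm ((c - c') / c') < L.nm 4 := by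
    rw [L.div, div_lt_iff₀ hpos]
    exact h
  obtain ⟨s, hs, h2⟩ := L.sq M (M.div_mem (M.sub_mem hc hc') hc') h1
  refine ⟨s * c', M.mul_mem hs hc', ?_⟩
  rw [mul_pow, ← h2]
  field_simp
  ring

end Lf

/-! ### Squares -/

section sq

variable {K Ω : Type} [Field K] [Field Ω] [Algebra K Ω] {M N : IntermediateField K Ω}

theorem SqM.mul {a b : Ω} (ha : SqM M a) (hb : SqM M b) : SqM M (a * b) := by
  obtain ⟨x, hx, rfl⟩ := ha
  obtain ⟨y, hy, rfl⟩ := hb
  exact ⟨x * y, M.mul_mem hx hy, (mul_pow x y 2).symm⟩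

theorem SqM.mono (h : M ≤ N) {a : Ω} (ha : SqM M a) : SqM N a := by
  obtain ⟨x, hx, rfl⟩ := ha
  exact ⟨x, h hx, rfl⟩

theorem SqM.of_mul {a b : Ω} (hb : b ∈ M) (hb0 : b ≠ 0) (h : SqM M (a * b)) (h' : SqM M b) :
    SqM M a := by
  obtain ⟨x, hx, h1⟩ := h
  obtain ⟨y, hy, h2⟩ := h'
  have _ := hb
  refine ⟨x / y, M.div_mem hx hy, ?_⟩
  rw [div_pow, ← h1, ← h2, mul_div_cancel_right₀ _ hb0]

theorem SqM.of_sq {a b : Ω} (hb : b ∈ M) (hb0 : b ≠ 0) (h : SqM M (a * b ^ 2)) : SqM M a := by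
  obtain ⟨x, hx, h1⟩ := h
  refine ⟨x / b, M.div_mem hx hb, ?_⟩
  rw [div_pow, ← h1, mul_div_cancel_right₀ _ (pow_ne_zero 2 hb0)]

/-- Transitivity: `a ~ b`, `b ~ c`. -/
theorem SqM.trans {a b c : Ω} (hb : b ∈ M) (hb0 : b ≠ 0) (h : SqM M (a * b))
    (h' : SqM M (b * c)) : SqM M (a * c) := by
  obtain ⟨x, hx, h1⟩ := h
  obtain ⟨y, hy, h2⟩ := h'
  refine ⟨x * y / b, M.div_mem (M.mul_mem hx hy) hb, ?_⟩
  rw [div_pow, mul_pow, ← h1, ← h2, eq_div_iff (pow_ne_zero 2 hb0)]
  ring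

theorem SqM.self {a : Ω} (ha : a ∈ M) : SqM M (a * a) := by
  exact ⟨a, ha, (sq a).symm⟩

/-- An extension of odd degree is injective on square classes. Proof: if `c = s²`, `s ∈ N`, `s ∉ M` then `M(s)`
has degree two over `M` and `[N : M]` is even. -/
theorem SqM.odd [CharZero K] (h : M ≤ N) [FiniteDimensional K N]
    (ho : Odd (Module.finrank K N / Module.finrank K M)) {c : Ω} (hc : c ∈ M) (hs : SqM N c) :
    SqM M c := by
  obtain ⟨s, hsN, hcs⟩ := hs
  let _ : Algebra M N := (IntermediateField.inclusion h).toRingHom.toAlgebra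
  have hcoe : ∀ a : M, ((algebraMap M N a : N) : Ω) = a := fun _ => rfl
  have _ : IsScalarTower K M N := IsScalarTower.of_algebraMap_eq fun a => Subtype.ext rfl
  have hfin : FiniteDimensional K M := FiniteDimensional.left K M N
  have hfin' : FiniteDimensional M N := FiniteDimensional.right K M N
  have h1 := Module.finrank_mul_finrank K M N
  rw [← h1, Nat.mul_div_cancel_left _ Module.finrank_pos] at ho
  have hint : IsIntegral M (⟨s, hsN⟩ : N) := IsIntegral.of_finite M _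
  have h2 := minpoly.degree_dvd hint
  have h3 : minpoly M (⟨s, hsN⟩ : N) ∣ Polynomial.X ^ 2 - Polynomial.C (⟨c, hc⟩ : M) := by
    refine minpoly.dvd _ _ ?_
    rw [map_sub, map_pow, aeval_X, aeval_C, sub_eq_zero]
    refine Subtype.ext ?_
    rw [hcoe]
    exact hcs.symm
  have h4 : (minpoly M (⟨s, hsN⟩ : N)).natDegree ≤ 2 := by
    have h5 := natDegree_le_of_dvd h3 (X_pow_sub_C_ne_zero two_pos _)
    rwa [natDegree_X_pow_sub_C] at h5
  have h5 : Odd (minpoly M (⟨s, hsN⟩ : N)).natDegree := ho.of_dvd_nat h2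
  have h6 : (minpoly M (⟨s, hsN⟩ : N)).natDegree = 1 := by
    obtain ⟨r, hr⟩ := h5
    omega
  rw [minpoly.natDegree_eq_one_iff] at h6
  obtain ⟨a, ha⟩ := h6
  refine ⟨s, ?_, hcs⟩
  have h7 := congrArg Subtype.val ha
  rw [hcoe] at h7
  change (a : Ω) = s at h7
  rw [← h7]
  exact a.2

end sq

end BE
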