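import Pool.Agent.Lib.MP_f80667_ag.Be.Qe

/-!
Lines. `f(x) = x³ + A x² + B x + D` over a field `M`; points of the curve `y² = f(x)` over `Ω` are the elements of
`Option (Ω × Ω)` (`none` is the point at infinity).
-/

open ZC Polynomial

namespace BE

section defs

variable {M E Ω : Type} [Field M] [Field E] [Algebra M E] [Field Ω] [Algebra M Ω]

/-- The value of the point `(ξ, η)` of the curve at a place. -/
def Vl (w : Place M E Ω) (ξ η : E) : Option (Ω × Ω) → Prop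
  | none => ξ ∉ w.V
  | some p => ∃ (hx : ξ ∈ w.V) (hy : η ∈ w.V), w.res ⟨ξ, hx⟩ = p.1 ∧ w.res ⟨η, hy⟩ = p.2

variable (M Ω) in
/-- `z` is the push-forward of a principal divisor by a morphism to the curve `y² = f(x)`. -/
def Prn (A B D : M) (z : Option (Ω × Ω) →₀ ℤ) : Prop :=
  ∃ (E : Type) (_ : Field E) (_ : Algebra M E), IsFunField M E ∧ ∃ ξ η g : E, g ≠ 0 ∧
    η ^ 2 = ξ ^ 3 + algebraMap M E A * ξ ^ 2 + algebraMap M E B * ξ + algebraMap M E D ∧
    ∃ (S : Finset (Place M E Ω)) (m : Place M E Ω → ℤ) (p : Place M E Ω → Option (Ω × Ω)),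
      (∀ w, w ∉ S → g ∈ w.V ∧ g⁻¹ ∈ w.V) ∧ (∀ w ∈ S, w.IsOrd g (m w) ∧ Vl w ξ η (p w)) ∧
      z = ∑ w ∈ S, Finsupp.single (p w) (m w)

end defs

section aux

variable {M E Ω : Type} [Field M] [Field E] [Algebra M E] [Field Ω] [Algebra M Ω]

private theorem Ln_inv {w : Place M E Ω} {s : E} (hs : s ∉ w.V) :
    s ≠ 0 ∧ s⁻¹ ∈ w.V.nonunits := by
  refine ⟨fun h => hs (h ▸ w.V.zero_mem), ?_⟩
  exact (w.V.inv_mem_nonunits_iff).2 (Or.inr hs)

private theorem Ln_mul {w : Place M E Ω} {a b : E} (ha : a ∈ w.V) (hb : b ∈ w.V.nonunits) :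
    a * b ∈ w.V.nonunits := by
  rw [ValuationSubring.mem_nonunits_iff] at hb ⊢
  rw [map_mul]
  exact lt_of_le_of_lt (mul_le_of_le_one_left' ((w.V.valuation_le_one_iff _).2 ha)) hb

private theorem Ln_unit {w : Place M E Ω} {x : E} (hx : x ∈ w.V.nonunits) :
    1 - x ∈ w.V ∧ (1 - x)⁻¹ ∈ w.V ∧ 1 - x ≠ 0 := by
  have h1 : 1 - x ∈ w.V := sub_mem w.V.one_mem (w.V.nonunits_subset hx)
  have h2 : 1 - x ∉ w.V.nonunits := by
    intro h
    have h3 : (1 : E) ∈ w.V.nonunits := by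
      have h4 := add_mem h hx
      rwa [sub_add_cancel] at h4
    rw [ValuationSubring.mem_nonunits_iff_or] at h3
    rcases h3 with h3 | h3
    · exact one_ne_zero h3
    · exact h3 (by rw [inv_one]; exact w.V.one_mem)
  rw [ValuationSubring.mem_nonunits_iff_or, not_or, not_not] at h2
  exact ⟨h1, h2.2, h2.1⟩

/-- The order of `s - c` at a pole of `s`. -/
private theorem Ln_ord {w : Place M E Ω} {s : E} {m : ℤ} (hs : s ∉ w.V) (h : w.IsOrd s m) (c : M) :
    w.IsOrd (s - algebraMap M E c) m := by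
  obtain ⟨h0, h1⟩ := Ln_inv hs
  obtain ⟨h3, h4, h5⟩ := Ln_unit (Ln_mul (w.mem c) h1)
  obtain ⟨π, hπ⟩ := h.unif
  have h6 := Qb.ord_mul h (Qb.ord_unit hπ h3 h4 h5)
  have h7 : s * (1 - algebraMap M E c * s⁻¹) = s - algebraMap M E c := by
    field_simp
  rwa [add_zero, h7] at h6

private theorem Ln_mem {w : Place M E Ω} {x : E} {y : E} (hy : y ∈ w.V)
    (h : x - y ∈ w.V.nonunits) : x ∈ w.V := by
  have h1 := w.V.add_mem _ _ (w.V.nonunits_subset h) hy
  rwa [sub_add_cancel] at h1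

private theorem Ln_res {w : Place M E Ω} {x : E} {c : M}
    (h : x - algebraMap M E c ∈ w.V.nonunits) (hx : x ∈ w.V) :
    w.res ⟨x, hx⟩ = algebraMap M Ω c := by
  rw [← w.res_k c, ← sub_eq_zero, ← map_sub]
  exact (Fa.res_eq_zero_iff w _).2 h

/-- The residue of an affine combination. -/
private theorem Ln_res_lin {w : Place M E Ω} {x s : E} (hx : x ∈ w.V) (hs : s ∈ w.V) (a b : M)
    (h : algebraMap M E a + s * (x - algebraMap M E b) ∈ w.V) :
    w.res ⟨algebraMap M E a + s * (x - algebraMap M E b), h⟩ =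
      algebraMap M Ω a + w.res ⟨s, hs⟩ * (w.res ⟨x, hx⟩ - algebraMap M Ω b) := by
  rw [← w.res_k a, ← w.res_k b, ← map_sub, ← map_mul, ← map_add]
  rfl

/-- `Prn` for the function `s - s₀`, from its zeros and poles. -/
private theorem Ln_asm {A B D : M} (hE : IsFunField M E) {s ξ η : E} (hs : Transcendental M s)
    (he : η ^ 2 = ξ ^ 3 + algebraMap M E A * ξ ^ 2 + algebraMap M E B * ξ + algebraMap M E D)
    (s₀ : M) {S₀ S₁ : Finset (Place M E Ω)} {m₀ m₁ : Place M E Ω → ℤ}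
    {p₀ p₁ : Place M E Ω → Option (Ω × Ω)}
    (h₀ : ∀ w, w ∈ S₀ ↔ s - algebraMap M E s₀ ∈ w.V.nonunits)
    (h₀' : ∀ w ∈ S₀, w.IsOrd (s - algebraMap M E s₀) (m₀ w) ∧ Vl w ξ η (p₀ w))
    (h₁ : ∀ w, w ∈ S₁ ↔ s ∉ w.V) (h₁' : ∀ w ∈ S₁, w.IsOrd s (- m₁ w) ∧ Vl w ξ η (p₁ w)) :
    Prn M Ω A B D (∑ w ∈ S₀, Finsupp.single (p₀ w) (m₀ w) -
      ∑ w ∈ S₁, Finsupp.single (p₁ w) (m₁ w)) := by
  classical
  have hg : s - algebraMap M E s₀ ≠ 0 := by
    intro h
    exact hs (sub_eq_zero.1 h ▸ isAlgebraic_algebraMap s₀)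
  have hd : Disjoint S₀ S₁ := by
    rw [Finset.disjoint_left]
    intro w hw hw'
    exact (h₁ w).1 hw' (Ln_mem (w.mem s₀) ((h₀ w).1 hw))
  refine ⟨E, inferInstance, inferInstance, hE, ξ, η, s - algebraMap M E s₀, hg, he, S₀ ∪ S₁,
    fun w => if w ∈ S₀ then m₀ w else - m₁ w, fun w => if w ∈ S₀ then p₀ w else p₁ w, ?_, ?_, ?_⟩
  · intro w hw
    rw [Finset.mem_union, not_or] at hw
    have h1 : s ∈ w.V := by
      by_contra h
      exact hw.2 ((h₁ w).2 h)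
    have h2 : s - algebraMap M E s₀ ∉ w.V.nonunits := fun h => hw.1 ((h₀ w).2 h)
    rw [ValuationSubring.mem_nonunits_iff_or, not_or, not_not] at h2
    exact ⟨sub_mem h1 (w.mem s₀), h2.2⟩
  · intro w hw
    by_cases h : w ∈ S₀
    · simp only [if_pos h]
      exact h₀' w h
    · simp only [if_neg h]
      have h1 : w ∈ S₁ := (Finset.mem_union.1 hw).resolve_left h
      exact ⟨Ln_ord ((h₁ w).1 h1) (h₁' w h1).1 s₀, (h₁' w h1).2⟩
  · rw [Finset.sum_union hd, sub_eq_add_neg, ← Finset.sum_neg_distrib]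
    congr 1
    · refine Finset.sum_congr rfl fun w hw => ?_
      simp only [if_pos hw]
    · refine Finset.sum_congr rfl fun w hw => ?_
      have h : w ∉ S₀ := fun h => Finset.disjoint_left.1 hd h hw
      simp only [if_neg h, Finsupp.single_neg]

private theorem Ln_single {I Y : Type*} (S : Finset I) (m : I → ℤ) (y : Y) :
    ∑ w ∈ S, Finsupp.single y (m w) = Finsupp.single y (∑ w ∈ S, m w) :=
  (map_sum (Finsupp.singleAddHom y) m S).symm

private theorem Ln_map {I X Y : Type*} (S : Finset I) (m : I → ℤ) (p : I → X) (φ : X → Y)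
    {x₁ x₂ : X} (h : ∑ w ∈ S, Finsupp.single (p w) (m w) =
      Finsupp.single x₁ 1 + Finsupp.single x₂ 1) :
    ∑ w ∈ S, Finsupp.single (φ (p w)) (m w) =
      Finsupp.single (φ x₁) 1 + Finsupp.single (φ x₂) 1 := by
  have h1 := congrArg (Finsupp.mapDomain φ) h
  rw [Finsupp.mapDomain_finsetSum, Finsupp.mapDomain_add] at h1
  simpa only [Finsupp.mapDomain_single] using h1

private theorem Ln_sq {A B x₀ y₀ : M} [CharZero M] (hs : y₀ = 0 → 3 * x₀ ^ 2 + 2 * A * x₀ + B ≠ 0)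
    (r : M[X]) : r ^ 2 ≠ (X ^ 2 - C (A + x₀)) ^ 2 -
      4 * (C x₀ * X ^ 2 - C (2 * y₀) * X + C (x₀ ^ 2 + A * x₀ + B)) := by
  intro h
  have h1 : ((X ^ 2 - C (A + x₀)) ^ 2 -
      4 * (C x₀ * X ^ 2 - C (2 * y₀) * X + C (x₀ ^ 2 + A * x₀ + B)) : M[X]).natDegree ≤ 4 := by
    compute_degree
  have h2 : r.natDegree ≤ 2 := by
    rw [← h, natDegree_pow] at h1
    omega
  have h3 : r.degree ≤ 2 := natDegree_le_iff_degree_le.1 h2
  rw [eq_quadratic_of_degree_le_two h3] at h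
  generalize r.coeff 2 = a at h
  generalize r.coeff 1 = b at h
  generalize r.coeff 0 = c at h
  have e : ∀ t : M, (a * t ^ 2 + b * t + c) ^ 2 = (t ^ 2 - (A + x₀)) ^ 2 -
      4 * (x₀ * t ^ 2 - 2 * y₀ * t + (x₀ ^ 2 + A * x₀ + B)) := by
    intro t
    have h4 := congrArg (eval t) h
    simpa using h4
  have e0 := e 0
  have e1 := e 1
  have e2 := e (-1)
  have e3 := e 2
  have e4 := e (-2)
  have c4 : a ^ 2 = 1 := by
    linear_combination (1 / 24) * (e3 + e4) - (1 / 6) * (e1 + e2) + (1 / 4) * e0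
  have c3 : a * b = 0 := by
    linear_combination (1 / 24) * (e3 - e4) - (1 / 12) * (e1 - e2)
  have ha : a ≠ 0 := by
    rintro rfl
    norm_num at c4
  have hb : b = 0 := (mul_eq_zero.1 c3).resolve_left ha
  subst hb
  have hy : y₀ = 0 := by
    linear_combination (1 / 16) * (e2 - e1)
  have c2 : a * c = -(A + 3 * x₀) := by
    linear_combination (1 / 4) * (e1 + e2) - (1 / 2) * c4 - (1 / 2) * e0
  refine hs hy ?_
  have c0 : c ^ 2 = (A + 3 * x₀) ^ 2 := by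
    linear_combination (-c ^ 2) * c4 + (a * c - (A + 3 * x₀)) * c2
  linear_combination (1 / 4) * e0 - (1 / 4) * c0

private theorem Ln_one {w : Place M E Ω} {x : E} (hx : x ∈ w.V.nonunits)
    (h : 1 - x ∈ w.V.nonunits) : False := by
  obtain ⟨-, h1, h2⟩ := Ln_unit hx
  rw [ValuationSubring.mem_nonunits_iff_or] at h
  rcases h with h | h
  · exact h2 h
  · exact h h1

/-- At a pole of `s`, exactly one of the two roots is regular. -/
private theorem Ln_not_both {w : Place M E Ω} {s a b : E} {x₀ A : M} (hs : s ∉ w.V)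
    (h : a + b = s ^ 2 - algebraMap M E (A + x₀)) (ha : a ∈ w.V) (hb : b ∈ w.V) : False := by
  obtain ⟨h0, h1⟩ := Ln_inv hs
  have h2 : s ^ 2 ∈ w.V := by
    have h3 := w.V.add_mem _ _ (w.V.add_mem _ _ ha hb) (w.mem (A + x₀))
    rwa [h, sub_add_cancel] at h3
  apply hs
  have h4 := w.V.mul_mem _ _ h2 (w.V.nonunits_subset h1)
  have h5 : s ^ 2 * s⁻¹ = s := by
    field_simp
  rwa [h5] at h4

private theorem Ln_one_of {w : Place M E Ω} {s a b : E} {x₀ A B y₀ : M} (hs : s ∉ w.V)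
    (h : a + b = s ^ 2 - algebraMap M E (A + x₀))
    (h' : a * b = algebraMap M E x₀ * s ^ 2 - algebraMap M E (2 * y₀) * s +
      algebraMap M E (x₀ ^ 2 + A * x₀ + B)) (ha : a ∉ w.V) (hb : b ∉ w.V) : False := by
  obtain ⟨h0, h1⟩ := Ln_inv hs
  obtain ⟨ha0, ha1⟩ := Ln_inv ha
  obtain ⟨hb0, hb1⟩ := Ln_inv hb
  have h2 : s⁻¹ ^ 2 ∈ w.V.nonunits := by
    rw [pow_two]
    exact Ln_mul (w.V.nonunits_subset h1) h1
  have h3 : (a * b) * s⁻¹ ^ 2 ∈ w.V := by
    have h4 : (a * b) * s⁻¹ ^ 2 = algebraMap M E x₀ - algebraMap M E (2 * y₀) * s⁻¹ +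
        algebraMap M E (x₀ ^ 2 + A * x₀ + B) * s⁻¹ ^ 2 := by
      rw [h']
      field_simp
    rw [h4]
    exact w.V.add_mem _ _ (sub_mem (w.mem _)
      (w.V.mul_mem _ _ (w.mem _) (w.V.nonunits_subset h1)))
      (w.V.mul_mem _ _ (w.mem _) (w.V.nonunits_subset h2))
  have h5 := Ln_mul h3 (add_mem ha1 hb1)
  have h6 : a * b * s⁻¹ ^ 2 * (a⁻¹ + b⁻¹) = 1 - algebraMap M E (A + x₀) * s⁻¹ ^ 2 := by
    have h7 : a * b * s⁻¹ ^ 2 * (a⁻¹ + b⁻¹) = (a + b) * s⁻¹ ^ 2 := by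
      field_simp
      ring
    rw [h7, h]
    field_simp
  rw [h6] at h5
  exact Ln_one (Ln_mul (w.mem _) h2) h5

end aux

section lines

variable {M Ω : Type} [Field M] [CharZero M] [Field Ω] [Algebra M Ω] [IsAlgClosed Ω] {A B D : M}

/-- Vertical lines: the function `x - x₁`. Proof: `exists_qd` with `s = x`, `ξ = y`, `T = 0`, `N = - f` (`f` has odd
degree, so `4 f` is not a square); `Qd.fib` at `x₁`, `Qd.inf`: all places over `x = ∞` have the value
`none`. -/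
theorem prn_vert (x₁ : M) (y₁ : Ω) (h : y₁ ^ 2 = algebraMap M Ω (x₁ ^ 3 + A * x₁ ^ 2 + B * x₁ + D)) :
    Prn M Ω A B D (Finsupp.single (some (algebraMap M Ω x₁, y₁)) 1 +
      Finsupp.single (some (algebraMap M Ω x₁, - y₁)) 1 - Finsupp.single none 2) := by
  classical
  have hdeg : (X ^ 3 + C A * X ^ 2 + C B * X + C D : M[X]).natDegree = 3 := by
    compute_degree!
  obtain ⟨E, _, _, s, ξ, σ, H⟩ := exists_qd (M := M) 0 (-(X ^ 3 + C A * X ^ 2 + C B * X + C D)) (by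
    intro r hr
    have h1 : r ^ 2 = C 4 * (X ^ 3 + C A * X ^ 2 + C B * X + C D) := by
      rw [hr]
      simp only [map_ofNat]
      ring
    have h2 := congrArg natDegree h1
    rw [natDegree_pow, natDegree_C_mul (by norm_num : (4 : M) ≠ 0), hdeg] at h2
    omega)
  have hξ : ξ ^ 2 = s ^ 3 + algebraMap M E A * s ^ 2 + algebraMap M E B * s +
      algebraMap M E D := by
    have h1 := H.eq
    simp only [map_zero, zero_mul, sub_zero, map_neg, map_add, map_mul, map_pow, aeval_X,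
      aeval_C] at h1
    linear_combination h1
  obtain ⟨S₀, m₀, p₀, h1, h2, h3⟩ := H.fib (Ω := Ω) x₁ y₁ (-y₁) (by simp) (by
    simp only [map_neg, map_add, map_mul, map_pow, aeval_X, aeval_C] at h ⊢
    linear_combination -h)
  obtain ⟨S₁, m₁, h4, h5, h6, -⟩ := H.inf (Ω := Ω)
  have ha : ∀ w ∈ S₀, w.IsOrd (s - algebraMap M E x₁) (m₀ w) ∧
      Vl w s ξ (some (algebraMap M Ω x₁, p₀ w)) := by
    intro w hw
    obtain ⟨h8, -, h9, h10⟩ := h2 w hw
    have h11 := (h1 w).1 hw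
    have h12 := Ln_mem (w.mem x₁) h11
    exact ⟨h8, h12, h9, Ln_res h11 h12, h10⟩
  have hb : ∀ w ∈ S₁, w.IsOrd s (- m₁ w) ∧ Vl w s ξ (none : Option (Ω × Ω)) := by
    intro w hw
    exact ⟨(h5 w hw).1, (h4 w).1 hw⟩
  have h7 := Ln_asm H.ff H.tr hξ x₁ (p₀ := fun w => some (algebraMap M Ω x₁, p₀ w))
    (p₁ := fun _ => none) h1 ha h4 hb
  rw [Ln_single, h6, Ln_map S₀ m₀ p₀ (fun y => some (algebraMap M Ω x₁, y)) h3] at h7
  exact h7

/-- Lines through a point `(x₀, y₀)` over `M`: the function `s - s₀` with `s = (y - y₀) / (x - x₀)`. Proof: `exists_qd`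
with `ξ = x`, `T = s² - A - x₀`, `N = x₀ s² - 2 y₀ s + x₀² + A x₀ + B`; `T² - 4 N` is
`s⁴ - (2 A + 6 x₀) s² + 8 y₀ s + (A + x₀)² - 4 (x₀² + A x₀ + B)`, a square only if `y₀ = 0` and
`f'(x₀) = 0`. `η = y₀ + s (ξ - x₀)`. `Qd.fib` at `s₀` gives the zeros. Places over `s = ∞`: if `ξ` is regular then
`ξ = x₀`, `η = - y₀` at the place (`η² = f(ξ)` and `η - y₀ = s (ξ - x₀)`, so
`s (η + y₀) = (f(ξ) - f(x₀)) / (ξ - x₀)` is regular, `η + y₀ = 0`); the automorphism `σ` exchanges the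
places where `ξ` is regular and those where it is not (`ξ + σ ξ = s² - A - x₀`, `ξ σ ξ = N(s)`: not both
are regular; if both are not regular, the order of `ξ + σ ξ` is `- 2 n`, `n = - ord s > 0`, so one has order at
most `- 2 n` and the other at most `- 1`, but the order of the product is at least `- 2 n`). The sum of the orders is
`2`, so each kind has exactly one place, of order `1`. -/
theorem prn_line (x₀ y₀ s₀ : M) (h₀ : y₀ ^ 2 = x₀ ^ 3 + A * x₀ ^ 2 + B * x₀ + D)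
    (hs : y₀ = 0 → 3 * x₀ ^ 2 + 2 * A * x₀ + B ≠ 0) (x₁ x₂ : Ω)
    (h₁ : x₁ + x₂ = algebraMap M Ω (s₀ ^ 2 - A - x₀))
    (h₂ : x₁ * x₂ = algebraMap M Ω (x₀ * s₀ ^ 2 - 2 * y₀ * s₀ + x₀ ^ 2 + A * x₀ + B)) :
    Prn M Ω A B D
      (Finsupp.single (some (x₁, algebraMap M Ω y₀ + algebraMap M Ω s₀ * (x₁ - algebraMap M Ω x₀))) 1 +
      Finsupp.single (some (x₂, algebraMap M Ω y₀ + algebraMap M Ω s₀ * (x₂ - algebraMap M Ω x₀))) 1 -
      Finsupp.single none 1 - Finsupp.single (some (algebraMap M Ω x₀, - algebraMap M Ω y₀)) 1) := by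
  classical
  obtain ⟨E, _, _, s, ξ, σ, H⟩ := exists_qd (M := M) (X ^ 2 - C (A + x₀))
    (C x₀ * X ^ 2 - C (2 * y₀) * X + C (x₀ ^ 2 + A * x₀ + B)) (Ln_sq hs)
  have heq : ξ ^ 2 - (s ^ 2 - algebraMap M E (A + x₀)) * ξ +
      (algebraMap M E x₀ * s ^ 2 - algebraMap M E (2 * y₀) * s +
        algebraMap M E (x₀ ^ 2 + A * x₀ + B)) = 0 := by
    have h3 := H.eq
    simpa only [map_sub, map_add, map_mul, map_pow, aeval_X, aeval_C] using h3
  have hσ : σ ξ = s ^ 2 - algebraMap M E (A + x₀) - ξ := by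
    have h3 := H.sig_xi
    simpa only [map_sub, map_add, map_mul, map_pow, aeval_X, aeval_C] using h3
  have h0 := congrArg (algebraMap M E) h₀
  simp only [map_add, map_mul, map_pow, map_ofNat] at heq h0
  obtain ⟨η, hη⟩ : ∃ η, η = algebraMap M E y₀ + s * (ξ - algebraMap M E x₀) := ⟨_, rfl⟩
  have hξ : η ^ 2 = ξ ^ 3 + algebraMap M E A * ξ ^ 2 + algebraMap M E B * ξ +
      algebraMap M E D := by
    rw [hη]
    linear_combination (-(ξ - algebraMap M E x₀)) * heq + h0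
  obtain ⟨S₀, m₀, p₀, h1, h2, h3⟩ := H.fib (Ω := Ω) s₀ x₁ x₂ (by
    rw [h₁]
    simp only [map_sub, map_add, map_mul, map_pow, aeval_X, aeval_C, map_ofNat]
    ring) (by
    rw [h₂]
    simp only [map_sub, map_add, map_mul, map_pow, aeval_X, aeval_C, map_ofNat]
    ring)
  obtain ⟨S₁, m₁, h4, h5, h6, h6'⟩ := H.inf (Ω := Ω)
  have ha : ∀ w ∈ S₀, w.IsOrd (s - algebraMap M E s₀) (m₀ w) ∧
      Vl w ξ η (some (p₀ w, algebraMap M Ω y₀ + algebraMap M Ω s₀ *
        (p₀ w - algebraMap M Ω x₀))) := by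
    intro w hw
    obtain ⟨h8, -, h9, h10⟩ := h2 w hw
    have h11 := (h1 w).1 hw
    have h12 := Ln_mem (w.mem s₀) h11
    have h13 : algebraMap M E y₀ + s * (ξ - algebraMap M E x₀) ∈ w.V :=
      w.V.add_mem _ _ (w.mem _) (w.V.mul_mem _ _ h12 (sub_mem h9 (w.mem _)))
    subst hη
    refine ⟨h8, h9, h13, h10, ?_⟩
    rw [Ln_res_lin h9 h12, h10, Ln_res h11 h12]
  have hb : ∀ w ∈ S₁, w.IsOrd s (- m₁ w) ∧ Vl w ξ η (if ξ ∈ w.V then
      some (algebraMap M Ω x₀, - algebraMap M Ω y₀) else none) := by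
    intro w hw
    refine ⟨(h5 w hw).1, ?_⟩
    obtain ⟨hs0, hs1⟩ := Ln_inv ((h4 w).1 hw)
    by_cases hx : ξ ∈ w.V
    · rw [if_pos hx]
      have h8 : ξ ^ 3 + algebraMap M E A * ξ ^ 2 + algebraMap M E B * ξ +
          algebraMap M E D ∈ w.V :=
        w.V.add_mem _ _ (w.V.add_mem _ _ (w.V.add_mem _ _ (w.V.toSubring.pow_mem hx 3)
          (w.V.mul_mem _ _ (w.mem _) (w.V.toSubring.pow_mem hx 2)))
          (w.V.mul_mem _ _ (w.mem _) hx)) (w.mem _)
      have h9 : η ∈ w.V := by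
        by_contra h
        obtain ⟨h10, h11⟩ := Ln_inv h
        have h12 := w.V.mul_mem _ _ h8 (w.V.nonunits_subset h11)
        rw [← hξ] at h12
        have h13 : η ^ 2 * η⁻¹ = η := by
          field_simp
        exact h (h13 ▸ h12)
      have h10 : ξ - algebraMap M E x₀ ∈ w.V.nonunits := by
        have h11 := Ln_mul (sub_mem h9 (w.mem y₀)) hs1
        have h12 : (η - algebraMap M E y₀) * s⁻¹ = ξ - algebraMap M E x₀ := by
          rw [hη]
          field_simp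
          ring
        rwa [h12] at h11
      have h11 : η - algebraMap M E (-y₀) ∈ w.V.nonunits := by
        have h12 : ξ ^ 2 + algebraMap M E (A + x₀) * ξ +
            algebraMap M E (x₀ ^ 2 + A * x₀ + B) ∈ w.V :=
          w.V.add_mem _ _ (w.V.add_mem _ _ (w.V.toSubring.pow_mem hx 2)
            (w.V.mul_mem _ _ (w.mem _) hx)) (w.mem _)
        have h13 := Ln_mul h12 hs1
        have h14 : (ξ ^ 2 + algebraMap M E (A + x₀) * ξ +
            algebraMap M E (x₀ ^ 2 + A * x₀ + B)) * s⁻¹ = η - algebraMap M E (-y₀) := by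
          rw [← div_eq_mul_inv, div_eq_iff hs0, hη]
          simp only [map_add, map_mul, map_pow, map_neg]
          linear_combination heq
        rwa [h14] at h13
      refine ⟨hx, h9, Ln_res h10 hx, ?_⟩
      rw [Ln_res h11 h9, map_neg]
    · rw [if_neg hx]
      exact hx
  have h7 := Ln_asm H.ff H.tr hξ s₀ h1 ha h4 hb
  rw [Ln_map S₀ m₀ p₀ (fun x => some (x, algebraMap M Ω y₀ + algebraMap M Ω s₀ *
    (x - algebraMap M Ω x₀))) h3] at h7
  have hex : ∀ w ∈ S₁, (ξ ∈ w.V ↔ ξ ∉ (Qb.cmp σ w).V) := by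
    intro w hw
    have hsw := (h4 w).1 hw
    have k1 : ξ + (s ^ 2 - algebraMap M E (A + x₀) - ξ) = s ^ 2 - algebraMap M E (A + x₀) := by
      ring
    rw [Qb.mem_cmp, hσ]
    constructor
    · intro h8 h9
      exact Ln_not_both hsw k1 h8 h9
    · intro h8
      by_contra h9
      refine Ln_one_of (y₀ := y₀) (B := B) hsw k1 ?_ h9 h8
      simp only [map_add, map_mul, map_pow, map_ofNat]
      linear_combination -heq
  have hne : S₁.Nonempty := by
    rw [Finset.nonempty_iff_ne_empty]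
    rintro rfl
    simp at h6
  obtain ⟨w, hw⟩ := hne
  have n1 : (S₁.filter (fun w => ξ ∈ w.V)).Nonempty := by
    by_cases h8 : ξ ∈ w.V
    · exact ⟨w, Finset.mem_filter.2 ⟨hw, h8⟩⟩
    · refine ⟨_, Finset.mem_filter.2 ⟨h6' w hw, ?_⟩⟩
      by_contra h9
      exact h8 ((hex w hw).2 h9)
  have n2 : (S₁.filter (fun w => ¬ ξ ∈ w.V)).Nonempty := by
    by_cases h8 : ξ ∈ w.V
    · exact ⟨_, Finset.mem_filter.2 ⟨h6' w hw, (hex w hw).1 h8⟩⟩
    · exact ⟨w, Finset.mem_filter.2 ⟨hw, h8⟩⟩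
  have s0 : ∑ w ∈ S₁.filter (fun w => ξ ∈ w.V), m₁ w +
      ∑ w ∈ S₁.filter (fun w => ¬ ξ ∈ w.V), m₁ w = 2 := by
    rw [Finset.sum_filter_add_sum_filter_not]
    exact h6
  have s1 : 0 < ∑ w ∈ S₁.filter (fun w => ξ ∈ w.V), m₁ w :=
    Finset.sum_pos (fun w hw => (h5 w (Finset.mem_filter.1 hw).1).2) n1
  have s2 : 0 < ∑ w ∈ S₁.filter (fun w => ¬ ξ ∈ w.V), m₁ w :=
    Finset.sum_pos (fun w hw => (h5 w (Finset.mem_filter.1 hw).1).2) n2
  have s3 : ∑ w ∈ S₁.filter (fun w => ξ ∈ w.V), m₁ w = 1 := by omega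
  have s4 : ∑ w ∈ S₁.filter (fun w => ¬ ξ ∈ w.V), m₁ w = 1 := by omega
  have s5 : ∑ w ∈ S₁, Finsupp.single (if ξ ∈ w.V then
      some (algebraMap M Ω x₀, - algebraMap M Ω y₀) else none) (m₁ w) =
      Finsupp.single (some (algebraMap M Ω x₀, - algebraMap M Ω y₀)) 1 +
        Finsupp.single none 1 := by
    rw [← Finset.sum_filter_add_sum_filter_not S₁ (fun w => ξ ∈ w.V)]
    congr 1
    · rw [← s3, ← Ln_single]
      refine Finset.sum_congr rfl fun w hw => ?_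
      rw [if_pos (Finset.mem_filter.1 hw).2]
    · rw [← s4, ← Ln_single]
      refine Finset.sum_congr rfl fun w hw => ?_
      rw [if_neg (Finset.mem_filter.1 hw).2]
  rw [s5] at h7
  rw [sub_sub, add_comm (Finsupp.single none 1)]
  exact h7

end lines

end BE
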