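import Pool.Agent.Lib.MP_f80667_ag.Be.PlX

/-! The reduction of points of Weierstrass curves at a place. -/

open ZC

namespace BE

section hv

variable {M L Ω : Type} [Field M] [Field L] [Field Ω] [Algebra M L] [Algebra M Ω]

/-- `r` is the value of `x` at the place `w`. -/
def Hv (w : Place M L Ω) (x : L) (r : Ω) : Prop := ∃ h : x ∈ w.V, w.res ⟨x, h⟩ = r

variable {w : Place M L Ω} {x y : L} {r s : Ω}

theorem Hv.uniq (h : Hv w x r) (h' : Hv w x s) : r = s := by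
  obtain ⟨h1, rfl⟩ := h
  obtain ⟨h2, rfl⟩ := h'
  rfl

theorem Hv.add (h : Hv w x r) (h' : Hv w y s) : Hv w (x + y) (r + s) := by
  obtain ⟨h1, rfl⟩ := h
  obtain ⟨h2, rfl⟩ := h'
  exact ⟨add_mem h1 h2, map_add w.res ⟨x, h1⟩ ⟨y, h2⟩⟩

theorem Hv.mul (h : Hv w x r) (h' : Hv w y s) : Hv w (x * y) (r * s) := by
  obtain ⟨h1, rfl⟩ := h
  obtain ⟨h2, rfl⟩ := h'
  exact ⟨mul_mem h1 h2, map_mul w.res ⟨x, h1⟩ ⟨y, h2⟩⟩

theorem Hv.neg (h : Hv w x r) : Hv w (-x) (-r) := by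
  obtain ⟨h1, rfl⟩ := h
  exact ⟨neg_mem h1, map_neg w.res ⟨x, h1⟩⟩

theorem Hv.sub (h : Hv w x r) (h' : Hv w y s) : Hv w (x - y) (r - s) := by
  rw [sub_eq_add_neg, sub_eq_add_neg]
  exact h.add h'.neg

theorem Hv.one : Hv w (1 : L) (1 : Ω) := ⟨one_mem _, map_one w.res⟩

theorem Hv.zero : Hv w (0 : L) (0 : Ω) := ⟨zero_mem _, map_zero w.res⟩

theorem Hv.two : Hv w (2 : L) (2 : Ω) := by
  rw [← one_add_one_eq_two, ← one_add_one_eq_two]
  exact Hv.one.add Hv.one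

theorem Hv.pow (h : Hv w x r) (n : ℕ) : Hv w (x ^ n) (r ^ n) := by
  induction n with
  | zero =>
    rw [pow_zero, pow_zero]
    exact Hv.one
  | succ n ih =>
    rw [pow_succ, pow_succ]
    exact ih.mul h

theorem Hv.ne (h : Hv w x r) (hr : r ≠ 0) : x ≠ 0 := by
  rintro rfl
  exact hr (h.uniq Hv.zero)

theorem Hv.inv (h : Hv w x r) (hr : r ≠ 0) : Hv w x⁻¹ r⁻¹ := by
  have hx := h.ne hr
  obtain ⟨h1, rfl⟩ := h
  have hu : IsUnit (⟨x, h1⟩ : w.V) := by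
    by_contra hn
    exact hr (w.res_zero _ hn)
  have h2 : x⁻¹ ∈ w.V := by
    obtain ⟨u, hu⟩ := hu
    have h3 : x * ((u⁻¹ : (w.V)ˣ) : w.V).1 = 1 := by
      have h4 := congrArg Subtype.val (Units.mul_inv u)
      rw [hu] at h4
      exact h4
    rw [inv_eq_of_mul_eq_one_right h3]
    exact ((u⁻¹ : (w.V)ˣ) : w.V).2
  refine ⟨h2, ?_⟩
  have h5 : (⟨x, h1⟩ : w.V) * ⟨x⁻¹, h2⟩ = 1 := Subtype.ext (mul_inv_cancel₀ hx)
  have h6 : w.res ⟨x, h1⟩ * w.res ⟨x⁻¹, h2⟩ = 1 := by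
    rw [← map_mul, h5, map_one]
  exact (inv_eq_of_mul_eq_one_right h6).symm

theorem Hv.div (h : Hv w x r) (h' : Hv w y s) (hs : s ≠ 0) : Hv w (x / y) (r / s) := by
  rw [div_eq_mul_inv, div_eq_mul_inv]
  exact h.mul (h'.inv hs)

/-- The inverse of an element which is not in the valuation ring has value `0`. -/
theorem Hv.of_not_mem (h : x ∉ w.V) : Hv w x⁻¹ 0 := by
  have hx : x ≠ 0 := by
    rintro rfl
    exact h (zero_mem _)
  have h1 : x⁻¹ ∈ w.V := (w.V.mem_or_inv_mem x).resolve_left h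
  refine ⟨h1, w.res_zero _ fun hu => h ?_⟩
  obtain ⟨u, hu⟩ := hu
  have h3 : x⁻¹ * ((u⁻¹ : (w.V)ˣ) : w.V).1 = 1 := by
    have h4 := congrArg Subtype.val (Units.mul_inv u)
    rw [hu] at h4
    exact h4
  have h5 : ((u⁻¹ : (w.V)ˣ) : w.V).1 = x := by
    rw [inv_mul_eq_one₀ hx] at h3
    exact h3.symm
  rw [← h5]
  exact ((u⁻¹ : (w.V)ˣ) : w.V).2

theorem Hv.mem (h : Hv w x r) : x ∈ w.V := h.1

theorem Hv.of_mem (h : x ∈ w.V) : Hv w x (w.res ⟨x, h⟩) := ⟨h, rfl⟩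

/-- An element whose square is in the valuation ring is in the valuation ring. -/
theorem Hv.of_sq (h : Hv w (x ^ 2) 0) : Hv w x 0 := by
  have h1 : x ∈ w.V := by
    by_contra hn
    have h2 := (Hv.of_not_mem hn).pow 2
    have hx : x ≠ 0 := by
      rintro rfl
      exact hn (zero_mem _)
    have h3 := h.mul h2
    rw [← mul_pow, mul_inv_cancel₀ hx, one_pow, zero_mul] at h3
    exact one_ne_zero (Hv.one.uniq h3)
  have h2 := (Hv.of_mem h1).pow 2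
  have h3 := h2.uniq h
  have h4 : w.res ⟨x, h1⟩ = 0 := by
    rwa [sq_eq_zero_iff] at h3
  exact ⟨h1, h4⟩

end hv

section red

variable {F : Type} [Field F] {W : WeierstrassCurve F} {M L Ω : Type} [Field M] [Field L] [Field Ω]
  [Algebra M L] [Algebra M Ω] [Algebra F M] [Algebra F L] [Algebra F Ω] [IsScalarTower F M L]
  [IsScalarTower F M Ω]

theorem plr_hv (w : Place M L Ω) (a : F) : Hv w (algebraMap F L a) (algebraMap F Ω a) := by
  rw [IsScalarTower.algebraMap_apply F M L, IsScalarTower.algebraMap_apply F M Ω]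
  exact ⟨w.mem _, w.res_k _⟩

omit [IsScalarTower F M L] [IsScalarTower F M Ω] [Algebra F M] in
theorem red_aff_iff (w : Place M L Ω) {x y : L} (h : (W.baseChange L).toAffine.Nonsingular x y)
    {Q : Pt W Ω} : Pt.Red W w (Pt.aff x y h) Q ↔ (x ∉ w.V ∧ Q = 0) ∨
      ∃ (r s : Ω) (h' : (W.baseChange Ω).toAffine.Nonsingular r s), Hv w x r ∧ Hv w y s ∧
        Q = Pt.aff r s h' := by
  refine or_congr Iff.rfl ⟨?_, ?_⟩
  · rintro ⟨hx, hy, h1, h2⟩
    exact ⟨_, _, h1, ⟨hx, rfl⟩, ⟨hy, rfl⟩, h2⟩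
  · rintro ⟨r, s, h', ⟨hx, rfl⟩, ⟨hy, rfl⟩, h2⟩
    exact ⟨hx, hy, h', h2⟩

omit [IsScalarTower F M L] [IsScalarTower F M Ω] [Algebra F M] in
theorem plr_cases {L : Type} [Field L] [Algebra F L] (P : Pt W L) :
    P = 0 ∨ ∃ (x y : L) (h : (W.baseChange L).toAffine.Nonsingular x y), P = Pt.aff x y h := by
  match P with
  | .zero => exact Or.inl rfl
  | .some x y h => exact Or.inr ⟨x, y, h, rfl⟩

omit [IsScalarTower F M L] [IsScalarTower F M Ω] [Algebra F M] in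
theorem red_zero_iff (w : Place M L Ω) {Q : Pt W Ω} : Pt.Red W w (0 : Pt W L) Q ↔ Q = 0 := Iff.rfl

omit [IsScalarTower F M L] [IsScalarTower F M Ω] [Algebra F M] in
theorem plr_aff_ext {x y x' y' : L} {h : (W.baseChange L).toAffine.Nonsingular x y}
    {h' : (W.baseChange L).toAffine.Nonsingular x' y'} (hx : x = x') (hy : y = y') :
    Pt.aff x y h = Pt.aff x' y' h' := by
  subst hx hy
  rfl

theorem red_zero (w : Place M L Ω) : Pt.Red W w (0 : Pt W L) 0 := by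
  rw [red_zero_iff]

/-- The reduction is unique. -/
theorem red_unique (w : Place M L Ω) {P : Pt W L} {Q Q' : Pt W Ω} (h : Pt.Red W w P Q)
    (h' : Pt.Red W w P Q') : Q = Q' := by
  obtain rfl | ⟨x, y, hxy, rfl⟩ := plr_cases P
  · rw [red_zero_iff] at h h'
    rw [h, h']
  · rw [red_aff_iff] at h h'
    obtain ⟨h1, rfl⟩ | ⟨r, s, h1, h2, h3, rfl⟩ := h
    · obtain ⟨h4, rfl⟩ | ⟨r, s, h4, h5, h6, rfl⟩ := h'
      · rfl
      · exact absurd h5.mem h1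
    · obtain ⟨h4, rfl⟩ | ⟨r', s', h4, h5, h6, rfl⟩ := h'
      · exact absurd h2.mem h4
      · exact plr_aff_ext (h2.uniq h5) (h3.uniq h6)

omit [IsScalarTower F M L] [IsScalarTower F M Ω] [Algebra F M] in
theorem plr_eq_iff {L : Type} [Field L] [Algebra F L] {x y : L} :
    (W.baseChange L).toAffine.Equation x y ↔
      y ^ 2 + algebraMap F L W.a₁ * x * y + algebraMap F L W.a₃ * y =
        x ^ 3 + algebraMap F L W.a₂ * x ^ 2 + algebraMap F L W.a₄ * x + algebraMap F L W.a₆ :=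
  WeierstrassCurve.Affine.equation_iff _ _

/-- Every point has a reduction (`W` is smooth). -/
theorem exists_red [(W.baseChange Ω).IsElliptic] (w : Place M L Ω) (P : Pt W L) :
    ∃ Q, Pt.Red W w P Q := by
  obtain rfl | ⟨x, y, hxy, rfl⟩ := plr_cases P
  · exact ⟨0, red_zero w⟩
  by_cases hx : x ∈ w.V
  · have heq := plr_eq_iff.1 hxy.1
    have hX := Hv.of_mem hx
    have hy : y ∈ w.V := by
      by_contra hy
      have hY := Hv.of_not_mem hy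
      have hy0 : y ≠ 0 := by
        rintro rfl
        exact hy (zero_mem _)
      have h1 : 1 + algebraMap F L W.a₁ * x * y⁻¹ + algebraMap F L W.a₃ * y⁻¹ =
          (x ^ 3 + algebraMap F L W.a₂ * x ^ 2 + algebraMap F L W.a₄ * x +
            algebraMap F L W.a₆) * (y⁻¹) ^ 2 := by
        rw [← heq]
        field_simp
      have h2 := ((Hv.one.add (((plr_hv w W.a₁).mul hX).mul hY)).add ((plr_hv w W.a₃).mul hY))
      have h3 := (((((hX.pow 3).add ((plr_hv w W.a₂).mul (hX.pow 2))).add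
        ((plr_hv w W.a₄).mul hX)).add (plr_hv w W.a₆)).mul (hY.pow 2))
      rw [← h1] at h3
      have h4 := h2.uniq h3
      rw [mul_zero, mul_zero, add_zero, add_zero, zero_pow two_ne_zero, mul_zero] at h4
      exact one_ne_zero h4
    have hY := Hv.of_mem hy
    have h2 := (((hY.pow 2).add (((plr_hv w W.a₁).mul hX).mul hY)).add ((plr_hv w W.a₃).mul hY))
    have h3 := ((((hX.pow 3).add ((plr_hv w W.a₂).mul (hX.pow 2))).add
        ((plr_hv w W.a₄).mul hX)).add (plr_hv w W.a₆))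
    rw [← heq] at h3
    have h4 := plr_eq_iff.2 (h2.uniq h3)
    refine ⟨Pt.aff _ _ (WeierstrassCurve.Affine.equation_iff_nonsingular.1 h4), ?_⟩
    rw [red_aff_iff]
    exact Or.inr ⟨_, _, _, hX, hY, rfl⟩
  · exact ⟨0, Or.inl ⟨hx, rfl⟩⟩

omit [IsScalarTower F M L] [IsScalarTower F M Ω] [Algebra F M] in
theorem plr_neg_aff {L : Type} [Field L] [Algebra F L] {x y : L}
    (h : (W.baseChange L).toAffine.Nonsingular x y) :
    ∃ h' : (W.baseChange L).toAffine.Nonsingular x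
      (-y - algebraMap F L W.a₁ * x - algebraMap F L W.a₃),
      -(Pt.aff x y h) = Pt.aff x (-y - algebraMap F L W.a₁ * x - algebraMap F L W.a₃) h' :=
  ⟨(WeierstrassCurve.Affine.nonsingular_neg ..).2 h, rfl⟩

/-- The reduction commutes with the negation. -/
theorem red_neg (w : Place M L Ω) {P : Pt W L} {Q : Pt W Ω} (h : Pt.Red W w P Q) :
    Pt.Red W w (-P) (-Q) := by
  obtain rfl | ⟨x, y, hxy, rfl⟩ := plr_cases P
  · rw [red_zero_iff] at h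
    rw [h, neg_zero, neg_zero, red_zero_iff]
  · obtain ⟨h', e⟩ := plr_neg_aff hxy
    rw [e, red_aff_iff]
    rw [red_aff_iff] at h
    obtain ⟨h1, rfl⟩ | ⟨r, s, h1, h2, h3, rfl⟩ := h
    · exact Or.inl ⟨h1, neg_zero⟩
    · obtain ⟨h4, e'⟩ := plr_neg_aff h1
      exact Or.inr ⟨_, _, h4, h2, (h3.neg.sub ((plr_hv w W.a₁).mul h2)).sub (plr_hv w W.a₃), e'⟩

/-- The reduction of a constant point. -/
theorem red_const [CharZero M] (w : Place M L Ω) (j : Ω →ₐ[M] L) (ρ : Ω ≃ₐ[M] Ω)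
    (hρ : ∀ x : Ω, ∃ h : j x ∈ w.V, w.res ⟨j x, h⟩ = ρ x) (c : Pt W Ω) :
    Pt.Red W w (Pt.map W (j.restrictScalars F) c) (ρ • c) := by
  obtain rfl | ⟨x, y, hxy, rfl⟩ := plr_cases c
  · rw [map_zero, smul_zero, red_zero_iff]
  · exact (red_aff_iff w _).2 (Or.inr ⟨_, _, _, hρ x, hρ y, rfl⟩)

omit [IsScalarTower F M L] [IsScalarTower F M Ω] [Algebra F M] in
theorem plr_add_opp {L : Type} [Field L] [Algebra F L] (h₁ : W.a₁ = 0) (h₃ : W.a₃ = 0)
    {x₁ y₁ x₂ y₂ : L} (h : (W.baseChange L).toAffine.Nonsingular x₁ y₁)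
    (h' : (W.baseChange L).toAffine.Nonsingular x₂ y₂) (hx : x₁ = x₂) (hy : y₁ = -y₂) :
    Pt.aff x₁ y₁ h + Pt.aff x₂ y₂ h' = 0 := by
  classical
  have h1 : y₁ = (W.baseChange L).toAffine.negY x₂ y₂ := by
    rw [WeierstrassCurve.Affine.negY]
    change y₁ = -y₂ - algebraMap F L W.a₁ * x₂ - algebraMap F L W.a₃
    rw [h₁, h₃, map_zero, hy]
    ring
  exact WeierstrassCurve.Affine.Point.add_of_Y_eq (h₁ := h) (h₂ := h') hx h1

omit [IsScalarTower F M L] [IsScalarTower F M Ω] [Algebra F M] in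
/-- The slope. -/
theorem plr_slope {L : Type} [Field L] [Algebra F L] (h₁ : W.a₁ = 0) (h₃ : W.a₃ = 0)
    {x₁ y₁ x₂ y₂ : L} (h : (W.baseChange L).toAffine.Nonsingular x₁ y₁)
    (h' : (W.baseChange L).toAffine.Nonsingular x₂ y₂) (hne : ¬(x₁ = x₂ ∧ y₁ = -y₂)) :
    ∃ l : L, l * (x₁ - x₂) = y₁ - y₂ ∧
      l * (y₁ + y₂) = x₁ ^ 2 + x₁ * x₂ + x₂ ^ 2 + algebraMap F L W.a₂ * (x₁ + x₂) +
        algebraMap F L W.a₄ ∧
      ∃ h'' : (W.baseChange L).toAffine.Nonsingular (l ^ 2 - algebraMap F L W.a₂ - x₁ - x₂)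
        (-(l * ((l ^ 2 - algebraMap F L W.a₂ - x₁ - x₂) - x₁) + y₁)),
        Pt.aff x₁ y₁ h + Pt.aff x₂ y₂ h' = Pt.aff _ _ h'' := by
  classical
  have hneg : (W.baseChange L).toAffine.negY x₂ y₂ = -y₂ := by
    rw [WeierstrassCurve.Affine.negY]
    change -y₂ - algebraMap F L W.a₁ * x₂ - algebraMap F L W.a₃ = -y₂
    rw [h₁, h₃, map_zero]
    ring
  have hneg1 : (W.baseChange L).toAffine.negY x₁ y₁ = -y₁ := by
    rw [WeierstrassCurve.Affine.negY]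
    change -y₁ - algebraMap F L W.a₁ * x₁ - algebraMap F L W.a₃ = -y₁
    rw [h₁, h₃, map_zero]
    ring
  have e₁ := plr_eq_iff.1 h.1
  have e₂ := plr_eq_iff.1 h'.1
  rw [h₁, h₃, map_zero] at e₁ e₂
  have hxy : ¬(x₁ = x₂ ∧ y₁ = (W.baseChange L).toAffine.negY x₂ y₂) := by
    rwa [hneg]
  have key : ∀ l : L, l = (W.baseChange L).toAffine.slope x₁ x₂ y₁ y₂ →
      ∃ h'' : (W.baseChange L).toAffine.Nonsingular (l ^ 2 - algebraMap F L W.a₂ - x₁ - x₂)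
        (-(l * ((l ^ 2 - algebraMap F L W.a₂ - x₁ - x₂) - x₁) + y₁)),
        Pt.aff x₁ y₁ h + Pt.aff x₂ y₂ h' = Pt.aff _ _ h'' := by
    intro l hl
    have e : Pt.aff x₁ y₁ h + Pt.aff x₂ y₂ h' = Pt.aff _ _
        (WeierstrassCurve.Affine.nonsingular_add h h' hxy) :=
      WeierstrassCurve.Affine.Point.add_some hxy
    have hX : (W.baseChange L).toAffine.addX x₁ x₂
        ((W.baseChange L).toAffine.slope x₁ x₂ y₁ y₂) =
        l ^ 2 - algebraMap F L W.a₂ - x₁ - x₂ := by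
      rw [← hl, WeierstrassCurve.Affine.addX]
      change l ^ 2 + algebraMap F L W.a₁ * l - algebraMap F L W.a₂ - x₁ - x₂ = _
      rw [h₁, map_zero]
      ring
    have hY : (W.baseChange L).toAffine.addY x₁ x₂ y₁
        ((W.baseChange L).toAffine.slope x₁ x₂ y₁ y₂) =
        -(l * ((l ^ 2 - algebraMap F L W.a₂ - x₁ - x₂) - x₁) + y₁) := by
      rw [WeierstrassCurve.Affine.addY, WeierstrassCurve.Affine.negAddY, hX, ← hl,
        WeierstrassCurve.Affine.negY]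
      change _ - algebraMap F L W.a₁ * _ - algebraMap F L W.a₃ = _
      rw [h₁, h₃, map_zero]
      ring
    have hns := WeierstrassCurve.Affine.nonsingular_add h h' hxy
    rw [hX, hY] at hns
    exact ⟨hns, e.trans (plr_aff_ext hX hY)⟩
  by_cases hx : x₁ = x₂
  · have hy : y₁ ≠ -y₂ := fun hy => hne ⟨hx, hy⟩
    have hy1 : y₁ ≠ (W.baseChange L).toAffine.negY x₂ y₂ := by
      rwa [hneg]
    have hyy : y₁ = y₂ := WeierstrassCurve.Affine.Y_eq_of_Y_ne h.1 h'.1 hx hy1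
    have hs := WeierstrassCurve.Affine.slope_of_Y_ne hx hy1
    have hs' : (W.baseChange L).toAffine.slope x₁ x₂ y₁ y₂ =
        (3 * x₁ ^ 2 + 2 * algebraMap F L W.a₂ * x₁ + algebraMap F L W.a₄ -
          algebraMap F L W.a₁ * y₁) / (y₁ - (W.baseChange L).toAffine.negY x₁ y₁) := hs
    rw [hneg1, h₁, map_zero, zero_mul, sub_zero, sub_neg_eq_add] at hs'
    refine ⟨_, ?_, ?_, key _ rfl⟩
    · rw [hx, hyy]
      ring
    · have h0 : y₁ + y₁ ≠ 0 := by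
        intro h0
        apply hy
        rw [← hyy]
        exact eq_neg_of_add_eq_zero_left h0
      rw [hs', ← hyy, ← hx, div_mul_cancel₀ _ h0]
      ring
  · have hs := WeierstrassCurve.Affine.slope_of_X_ne (W := (W.baseChange L).toAffine)
      (y₁ := y₁) (y₂ := y₂) hx
    have h0 : x₁ - x₂ ≠ 0 := sub_ne_zero.2 hx
    refine ⟨_, ?_, ?_, key _ rfl⟩
    · rw [hs, div_mul_cancel₀ _ h0]
    · rw [hs, div_mul_eq_mul_div, div_eq_iff h0]
      linear_combination e₁ - e₂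

theorem Hv.congr {w : Place M L Ω} {x y : L} {r s : Ω} (h : Hv w x r) (hx : x = y)
    (hr : r = s) : Hv w y s := by
  subst hx hr
  exact h

/-- The reduction of the sum of two integral points. -/
theorem red_add_int [CharZero M] (h₁ : W.a₁ = 0) (h₃ : W.a₃ = 0) (w : Place M L Ω)
    {x₁ y₁ x₂ y₂ : L} {r₁ s₁ r₂ s₂ : Ω} (h : (W.baseChange L).toAffine.Nonsingular x₁ y₁)
    (h' : (W.baseChange L).toAffine.Nonsingular x₂ y₂)
    (g : (W.baseChange Ω).toAffine.Nonsingular r₁ s₁)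
    (g' : (W.baseChange Ω).toAffine.Nonsingular r₂ s₂) (hx₁ : Hv w x₁ r₁) (hy₁ : Hv w y₁ s₁)
    (hx₂ : Hv w x₂ r₂) (hy₂ : Hv w y₂ s₂) :
    Pt.Red W w (Pt.aff x₁ y₁ h + Pt.aff x₂ y₂ h') (Pt.aff r₁ s₁ g + Pt.aff r₂ s₂ g') := by
  have hch : CharZero Ω := charZero_of_injective_algebraMap (algebraMap M Ω).injective
  by_cases hr : r₁ = r₂ ∧ s₁ = -s₂
  · rw [plr_add_opp h₁ h₃ g g' hr.1 hr.2]
    by_cases hx : x₁ = x₂ ∧ y₁ = -y₂
    · rw [plr_add_opp h₁ h₃ h h' hx.1 hx.2]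
      exact red_zero (F := F) (M := M) w
    · obtain ⟨l, hl1, hl2, hns, e⟩ := plr_slope h₁ h₃ h h' hx
      rw [e, red_aff_iff]
      refine Or.inl ⟨fun hX => ?_, rfl⟩
      have hlV : l ∈ w.V := by
        by_contra hlV
        have hl0 : l ≠ 0 := by
          rintro rfl
          exact hlV (zero_mem _)
        have h2 := (Hv.of_not_mem hlV).pow 2
        have h3 := ((((Hv.of_mem hX).add (plr_hv w W.a₂)).add hx₁).add hx₂).mul h2
        have h4 := h3.congr (y := 1) (s := 0) (by field_simp; ring) (by ring)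
        exact one_ne_zero (Hv.one.uniq h4)
      have hl := Hv.of_mem hlV
      have e1 := (hl.mul (hx₁.sub hx₂)).uniq ((hy₁.sub hy₂).congr hl1.symm rfl)
      rw [hr.1, sub_self, mul_zero] at e1
      have hs2 : s₂ = 0 := by
        have h5 : (2 : Ω) * s₂ = 0 := by
          linear_combination e1 + hr.2
        exact (mul_eq_zero.1 h5).resolve_left two_ne_zero
      have e2 := (hl.mul (hy₁.add hy₂)).uniq ((((((hx₁.pow 2).add (hx₁.mul hx₂)).add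
        (hx₂.pow 2)).add ((plr_hv w W.a₂).mul (hx₁.add hx₂))).add (plr_hv w W.a₄)).congr
        hl2.symm rfl)
      have hns2 := ((WeierstrassCurve.Affine.nonsingular_iff _ _).1 g').2
      have hns3 : algebraMap F Ω W.a₁ * s₂ ≠ 3 * r₂ ^ 2 + 2 * algebraMap F Ω W.a₂ * r₂ +
          algebraMap F Ω W.a₄ ∨ s₂ ≠ -s₂ - algebraMap F Ω W.a₁ * r₂ - algebraMap F Ω W.a₃ := hns2
      rw [h₁, h₃, map_zero, hs2] at hns3
      rcases hns3 with h6 | h6
      · apply h6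
        rw [hr.1, hr.2, hs2] at e2
        linear_combination e2
      · apply h6
        ring
  · have hx : ¬(x₁ = x₂ ∧ y₁ = -y₂) := by
      rintro ⟨rfl, rfl⟩
      exact hr ⟨hx₁.uniq hx₂, hy₁.uniq hy₂.neg⟩
    obtain ⟨l, hl1, hl2, hns, e⟩ := plr_slope h₁ h₃ h h' hx
    obtain ⟨m, hm1, hm2, hns', e'⟩ := plr_slope h₁ h₃ g g' hr
    have hl : Hv w l m := by
      by_cases hrr : r₁ = r₂
      · have hss : s₁ + s₂ ≠ 0 := fun h0 => hr ⟨hrr, eq_neg_of_add_eq_zero_left h0⟩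
        have hyy := hy₁.add hy₂
        have h0 := hyy.ne hss
        exact ((((((hx₁.pow 2).add (hx₁.mul hx₂)).add
          (hx₂.pow 2)).add ((plr_hv w W.a₂).mul (hx₁.add hx₂))).add (plr_hv w W.a₄)).div hyy
          hss).congr (by rw [← hl2, mul_div_cancel_right₀ _ h0])
          (by rw [← hm2, mul_div_cancel_right₀ _ hss])
      · have hss : r₁ - r₂ ≠ 0 := sub_ne_zero.2 hrr
        have hxx := hx₁.sub hx₂
        have h0 := hxx.ne hss
        exact ((hy₁.sub hy₂).div hxx hss).congr (by rw [← hl1, mul_div_cancel_right₀ _ h0])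
          (by rw [← hm1, mul_div_cancel_right₀ _ hss])
    rw [e, e', red_aff_iff]
    have hX := (((hl.pow 2).sub (plr_hv w W.a₂)).sub hx₁).sub hx₂
    exact Or.inr ⟨_, _, _, hX, ((hl.mul (hX.sub hx₁)).add hy₁).neg, rfl⟩

/-- The reduction of the sum of an integral point and a point which reduces to `0`. -/
theorem red_add_inf (h₁ : W.a₁ = 0) (h₃ : W.a₃ = 0) (w : Place M L Ω)
    {x₁ y₁ x₂ y₂ : L} {r₁ s₁ : Ω} (h : (W.baseChange L).toAffine.Nonsingular x₁ y₁)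
    (h' : (W.baseChange L).toAffine.Nonsingular x₂ y₂)
    (g : (W.baseChange Ω).toAffine.Nonsingular r₁ s₁) (hx₁ : Hv w x₁ r₁) (hy₁ : Hv w y₁ s₁)
    (hx₂ : x₂ ∉ w.V) :
    Pt.Red W w (Pt.aff x₁ y₁ h + Pt.aff x₂ y₂ h') (Pt.aff r₁ s₁ g) := by
  have hne : x₁ ≠ x₂ := by
    rintro rfl
    exact hx₂ hx₁.mem
  have hx20 : x₂ ≠ 0 := by
    rintro rfl
    exact hx₂ (zero_mem _)
  obtain ⟨l, hl1, -, hns, e⟩ := plr_slope h₁ h₃ h h' fun h0 => hne h0.1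
  have e₂ := plr_eq_iff.1 h'.1
  rw [h₁, h₃, map_zero] at e₂
  obtain ⟨A, hA⟩ : ∃ A, A = algebraMap F L W.a₂ := ⟨_, rfl⟩
  obtain ⟨B, hB⟩ : ∃ B, B = algebraMap F L W.a₄ := ⟨_, rfl⟩
  obtain ⟨C, hC⟩ : ∃ C, C = algebraMap F L W.a₆ := ⟨_, rfl⟩
  have hvA : Hv w A (algebraMap F Ω W.a₂) := hA ▸ plr_hv w W.a₂
  have hvB : Hv w B (algebraMap F Ω W.a₄) := hB ▸ plr_hv w W.a₄
  have hvC : Hv w C (algebraMap F Ω W.a₆) := hC ▸ plr_hv w W.a₆
  rw [← hA, ← hB, ← hC] at e₂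
  obtain ⟨u, hu⟩ : ∃ u, u = x₂⁻¹ := ⟨_, rfl⟩
  have hu0 : u ≠ 0 := by
    rw [hu]
    exact inv_ne_zero hx20
  have hvu : Hv w u 0 := hu ▸ Hv.of_not_mem hx₂
  have hx2 : x₂ = u⁻¹ := by
    rw [hu, inv_inv]
  obtain ⟨v, hv⟩ : ∃ v, v = y₂ * u ^ 2 := ⟨_, rfl⟩
  have hy2 : y₂ = v / u ^ 2 := by
    rw [hv]
    field_simp
  have hv2 : v ^ 2 = u + A * u ^ 2 + B * u ^ 3 + C * u ^ 4 := by
    have h5 : v ^ 2 = (y₂ ^ 2 + 0 * x₂ * y₂ + 0 * y₂) * u ^ 4 := by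
      rw [hv]
      ring
    rw [h5, e₂, hx2]
    field_simp
  have hvv : Hv w v 0 := by
    refine Hv.of_sq ((((hvu.add (hvA.mul (hvu.pow 2))).add (hvB.mul (hvu.pow 3))).add
      (hvC.mul (hvu.pow 4))).congr hv2.symm (by ring))
  obtain ⟨D, hD⟩ : ∃ D, D = 1 - x₁ * u := ⟨_, rfl⟩
  have hvD : Hv w D 1 := (Hv.one.sub (hx₁.mul hvu)).congr hD.symm (by ring)
  have hD0 : D ≠ 0 := hvD.ne one_ne_zero
  have hl : l = (v - y₁ * u ^ 2) / (u * D) := by
    rw [eq_div_iff (mul_ne_zero hu0 hD0)]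
    have h6 : l * (x₁ * u - 1) * u = y₁ * u ^ 2 - v := by
      have h7 : l * (x₁ * u - 1) * u = (l * (x₁ - x₂)) * u ^ 2 := by
        rw [hx2]
        field_simp
      rw [h7, hl1, hy2]
      field_simp
    rw [hD]
    linear_combination - h6
  have hX : l ^ 2 - A - x₁ - x₂ = (x₁ + (B + x₁ ^ 2 + 2 * A * x₁) * u +
      (C + y₁ ^ 2 - x₁ ^ 3 - A * x₁ ^ 2) * u ^ 2 - 2 * y₁ * v) / D ^ 2 := by
    rw [hl, hx2]
    field_simp
    rw [hD]
    linear_combination hv2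
  have hXr : Hv w (l ^ 2 - A - x₁ - x₂) r₁ := by
    rw [hX]
    exact ((((hx₁.add (((hvB.add (hx₁.pow 2)).add ((Hv.two.mul hvA).mul hx₁)).mul hvu)).add
      ((((hvC.add (hy₁.pow 2)).sub (hx₁.pow 3)).sub (hvA.mul (hx₁.pow 2))).mul
      (hvu.pow 2))).sub ((Hv.two.mul hy₁).mul hvv)).div (hvD.pow 2)
      (pow_ne_zero 2 one_ne_zero)).congr rfl (by ring)
  have hY : l * ((l ^ 2 - A - x₁ - x₂) - x₁) = (v * (B + 3 * x₁ ^ 2 + 2 * A * x₁) +
      v * (C + y₁ ^ 2 - 2 * x₁ ^ 3 - A * x₁ ^ 2) * u -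
      2 * y₁ * (1 + A * u + B * u ^ 2 + C * u ^ 3) - y₁ * (B + 3 * x₁ ^ 2 + 2 * A * x₁) * u ^ 2 -
      y₁ * (C + y₁ ^ 2 - 2 * x₁ ^ 3 - A * x₁ ^ 2) * u ^ 3 + 2 * y₁ ^ 2 * v * u) / D ^ 3 := by
    rw [hX, hl]
    field_simp
    rw [hD]
    linear_combination (-2 * y₁) * hv2
  have hYr : Hv w (l * ((l ^ 2 - A - x₁ - x₂) - x₁)) (-2 * s₁) := by
    rw [hY]
    have h3 : Hv w (3 : L) (3 : Ω) :=
      (Hv.two.add Hv.one).congr (by norm_num) (by norm_num)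
    have hvP : Hv w (B + 3 * x₁ ^ 2 + 2 * A * x₁) _ :=
      (hvB.add (h3.mul (hx₁.pow 2))).add ((Hv.two.mul hvA).mul hx₁)
    have hvQ : Hv w (C + y₁ ^ 2 - 2 * x₁ ^ 3 - A * x₁ ^ 2) _ :=
      ((hvC.add (hy₁.pow 2)).sub (Hv.two.mul (hx₁.pow 3))).sub (hvA.mul (hx₁.pow 2))
    have hvR : Hv w (1 + A * u + B * u ^ 2 + C * u ^ 3) _ :=
      ((Hv.one.add (hvA.mul hvu)).add (hvB.mul (hvu.pow 2))).add (hvC.mul (hvu.pow 3))
    exact (((((((hvv.mul hvP).add ((hvv.mul hvQ).mul hvu)).sub ((Hv.two.mul hy₁).mul hvR)).sub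
      ((hy₁.mul hvP).mul (hvu.pow 2))).sub ((hy₁.mul hvQ).mul (hvu.pow 3))).add
      (((Hv.two.mul (hy₁.pow 2)).mul hvv).mul hvu)).div (hvD.pow 3)
      (pow_ne_zero 3 one_ne_zero)).congr rfl (by ring)
  rw [e, red_aff_iff]
  refine Or.inr ⟨r₁, s₁, g, ?_, ?_, rfl⟩
  · rw [← hA]
    exact hXr
  · rw [← hA]
    exact (hYr.add hy₁).neg.congr rfl (by ring)

/-- **The reduction of a translate by a constant point** (`a₁ = a₃ = 0`). Proof: `c = 0` and `P = 0`: trivial.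
`c = (x₁, y₁)` and `P = (x₂, y₂)` with `x₂` in the valuation ring: the addition formulas; if
`x₁ ≠ x₂` at the place, the slope is regular; if `x₁ = x₂`, `y₁ ≠ - y₂` at the place the slope is
`(x₁² + x₁ x₂ + x₂² + a₂ (x₁ + x₂) + a₄) / (y₁ + y₂)`; if `x₁ = x₂`, `y₁ = - y₂` at the place, the sum is
`0` or has infinite `x`: the slope is infinite (if `y₁ = - y₂ ≠ 0` its numerator is a unit and its
denominator is not, if `y₁ = 0` use the second expression: the numerator is `f'(x₁) ≠ 0`). If `x₂` is infinite: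
`x₃ = (x₁ x₂² + (a₄ + x₁² + 2 a₂ x₁) x₂ + (a₆ + y₁² - x₁³ - a₂ x₁²) - 2 y₁ y₂) / (x₂ - x₁)²` goes to `x₁` and
`y₃ = - y₁ - slope (x₃ - x₁)` to `y₁` (`y₂² ~ x₂³`, so `y₂ / x₂²` goes to `0` and `y₂² / x₂³` to `1`). -/
theorem red_add [CharZero M] [(W.baseChange Ω).IsElliptic] (h₁ : W.a₁ = 0) (h₃ : W.a₃ = 0)
    (w : Place M L Ω) (j : Ω →ₐ[M] L) (ρ : Ω ≃ₐ[M] Ω)
    (hρ : ∀ x : Ω, ∃ h : j x ∈ w.V, w.res ⟨j x, h⟩ = ρ x) (c : Pt W Ω) {P : Pt W L} {Q : Pt W Ω}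
    (h : Pt.Red W w P Q) :
    Pt.Red W w (Pt.map W (j.restrictScalars F) c + P) (ρ • c + Q) := by
  obtain rfl | ⟨x₂, y₂, h2, rfl⟩ := plr_cases P
  · rw [red_zero_iff] at h
    rw [h, add_zero, add_zero]
    exact red_const w j ρ hρ c
  obtain rfl | ⟨x, y, hxy, rfl⟩ := plr_cases c
  · rw [map_zero, smul_zero, zero_add, zero_add]
    exact h
  have h3 : ∃ h3 : (W.baseChange L).toAffine.Nonsingular (j x) (j y),
      Pt.map W (j.restrictScalars F) (Pt.aff x y hxy) = Pt.aff (j x) (j y) h3 := ⟨_, rfl⟩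
  have h4 : ∃ h4 : (W.baseChange Ω).toAffine.Nonsingular (ρ x) (ρ y),
      ρ • (Pt.aff x y hxy : Pt W Ω) = Pt.aff (ρ x) (ρ y) h4 := ⟨_, rfl⟩
  obtain ⟨h3, e3⟩ := h3
  obtain ⟨h4, e4⟩ := h4
  rw [e3, e4]
  rw [red_aff_iff] at h
  obtain ⟨h5, rfl⟩ | ⟨r, s, h5, h6, h7, rfl⟩ := h
  · rw [add_zero]
    exact red_add_inf h₁ h₃ w h3 h2 h4 (hρ x) (hρ y) h5
  · exact red_add_int h₁ h₃ w h3 h2 h4 h5 (hρ x) (hρ y) h6 h7

end red

end BE
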