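import Pool.Agent.Lib.MP_f80667_ag.Be.Ln
import Pool.Agent.Lib.MP_f80667_ag.Be.PlR

/-! Principal divisors move to the orbits of `E₁` and to the fibres of `X → B`. -/

open ZC Polynomial

namespace BE

section basic

variable {F : Type} [Field F] (C : Cf F) {L : Type} [Field L] [Algebra F L]

theorem aff_congr {W : WeierstrassCurve F} {x y x' y' : L}
    (h : (W.baseChange L).toAffine.Nonsingular x y)
    (h' : (W.baseChange L).toAffine.Nonsingular x' y') (e1 : x = x') (e2 : y = y') :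
    (Pt.aff x y h : Pt W L) = Pt.aff x' y' h' := by
  subst e1 e2
  rfl

/-- The translate of `(x, y)` by `t`. -/
theorem add_t_some {x y : L} (h : ((C.W₁).baseChange L).toAffine.Nonsingular x y) (hx : x ≠ 0) :
    ∃ h' : ((C.W₁).baseChange L).toAffine.Nonsingular (algebraMap F L C.b / x)
      (- algebraMap F L C.b * y / x ^ 2),
      (Pt.aff x y h : Pt C.W₁ L) + C.t L = Pt.aff _ _ h' := by
  classical
  have h1 := h.1
  rw [WeierstrassCurve.Affine.equation_iff] at h1
  simp only [Cf.W₁, WeierstrassCurve.baseChange, WeierstrassCurve.map, map_zero] at h1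
  have hadd : (Pt.aff x y h : Pt C.W₁ L) + C.t L = Pt.aff _ _
      (WeierstrassCurve.Affine.nonsingular_add h (C.nonsing L) fun hxy => hx hxy.1) :=
    WeierstrassCurve.Affine.Point.add_of_X_ne (h₁ := h) (h₂ := C.nonsing L) hx
  have hX : ((C.W₁).baseChange L).toAffine.addX x 0
      (((C.W₁).baseChange L).toAffine.slope x 0 y 0) = algebraMap F L C.b / x := by
    rw [WeierstrassCurve.Affine.slope_of_X_ne hx]
    simp only [WeierstrassCurve.Affine.addX, Cf.W₁, WeierstrassCurve.baseChange,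
      WeierstrassCurve.map, map_zero]
    field_simp
    linear_combination x * h1
  have hY : ((C.W₁).baseChange L).toAffine.addY x 0 y
      (((C.W₁).baseChange L).toAffine.slope x 0 y 0) = - algebraMap F L C.b * y / x ^ 2 := by
    rw [WeierstrassCurve.Affine.addY, WeierstrassCurve.Affine.negAddY, hX,
      WeierstrassCurve.Affine.slope_of_X_ne hx]
    simp only [WeierstrassCurve.Affine.negY, Cf.W₁, WeierstrassCurve.baseChange,
      WeierstrassCurve.map, map_zero]
    field_simp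
    ring
  have hn := WeierstrassCurve.Affine.nonsingular_add h (C.nonsing L) fun hxy => hx hxy.1
  rw [hX, hY] at hn
  exact ⟨hn, hadd.trans (aff_congr _ _ hX hY)⟩

/-- The map on points on affine points. -/
theorem map_aff {W : WeierstrassCurve F} {M : Type} [Field M] [Algebra F M] (σ : L →ₐ[F] M)
    {x y : L} (h : (W.baseChange L).toAffine.Nonsingular x y) :
    ∃ h' : (W.baseChange M).toAffine.Nonsingular (σ x) (σ y),
      Pt.map W σ (Pt.aff x y h) = Pt.aff (σ x) (σ y) h' := by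
  classical
  exact ⟨_, rfl⟩

/-- The negative of `(x, y)` on `E₂`. -/
theorem neg_aff₂ {x y y' : L} (h : ((C.W₂).baseChange L).toAffine.Nonsingular x y)
    (h' : ((C.W₂).baseChange L).toAffine.Nonsingular x y') (e : y' = -y) :
    (Pt.aff x y' h' : Pt C.W₂ L) = -(Pt.aff x y h) := by
  classical
  subst e
  symm
  refine (WeierstrassCurve.Affine.Point.neg_some h).trans ?_
  unfold Pt.aff
  congr 1
  simp only [WeierstrassCurve.Affine.negY, Cf.W₂, WeierstrassCurve.baseChange,
      WeierstrassCurve.map, map_zero]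
  ring

theorem aff_inj {W : WeierstrassCurve F} {x y x' y' : L}
    {h : (W.baseChange L).toAffine.Nonsingular x y}
    {h' : (W.baseChange L).toAffine.Nonsingular x' y'}
    (e : (Pt.aff x y h : Pt W L) = Pt.aff x' y' h') : x = x' ∧ y = y' := by
  unfold Pt.aff at e
  injection e with e1 e2
  exact ⟨e1, e2⟩

end basic

variable {F : Type} [Field F] {K : Type} [Field K] [CharZero K] [Algebra F K] {Ω : Type} [Field Ω]
  [Algebra K Ω] [Algebra F Ω] [IsScalarTower F K Ω] [IsAlgClosure K Ω] (C : Cf F)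

/-- The field of definition of the fibre over `[u]` up to twist: `r = 1` if `u = 0` or `u = t`, `r = Y / X` if `X`,
`Y ≠ 0`, `r = X - b / X` if `Y = 0` and `X ≠ 0` (the other points of order two; then `X + b / X = - a`). -/
theorem exists_r {u : Pt C.W₁ Ω} (hu : ∀ γ : Ω ≃ₐ[K] Ω, γ • u = u ∨ γ • u = u + C.t Ω) :
    ∃ r : Ω, r ≠ 0 ∧ r ^ 2 = C.kap Ω u ∧ (∃ κ : K, algebraMap K Ω κ = r ^ 2) ∧
      ∀ γ : Ω ≃ₐ[K] Ω, (γ • u = u → γ r = r) ∧ (γ • u = u + C.t Ω → γ r = - r) := by
  classical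
  have hgal : IsGalois K Ω := by
    have : Algebra.IsAlgebraic K Ω := IsAlgClosure.isAlgebraic
    have : Algebra.IsSeparable K Ω := inferInstance
    have : Normal K Ω := IsAlgClosure.normal K Ω
    exact ⟨⟩
  have key : ∀ r : Ω, r ≠ 0 → r ^ 2 = C.kap Ω u →
      (∀ γ : Ω ≃ₐ[K] Ω, (γ • u = u → γ r = r) ∧ (γ • u = u + C.t Ω → γ r = - r)) →
      ∃ r : Ω, r ≠ 0 ∧ r ^ 2 = C.kap Ω u ∧ (∃ κ : K, algebraMap K Ω κ = r ^ 2) ∧
      ∀ γ : Ω ≃ₐ[K] Ω, (γ • u = u → γ r = r) ∧ (γ • u = u + C.t Ω → γ r = - r) := by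
    intro r h0 h1 h2
    refine ⟨r, h0, h1, ?_, h2⟩
    have : ∀ γ : Ω ≃ₐ[K] Ω, γ (r ^ 2) = r ^ 2 := by
      intro γ
      rcases hu γ with h | h
      · rw [map_pow, (h2 γ).1 h]
      · rw [map_pow, (h2 γ).2 h, neg_sq]
    have := (InfiniteGalois.mem_range_algebraMap_iff_fixed (r ^ 2)).2 this
    exact this
  have ht0 : C.t Ω ≠ 0 := WeierstrassCurve.Affine.Point.some_ne_zero _
  match u, hu, key with
  | .zero, hu, key =>
    refine key 1 one_ne_zero (by rw [one_pow]; rfl) fun γ => ⟨fun _ => map_one γ, fun h => ?_⟩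
    exfalso
    have e : γ • (0 : Pt C.W₁ Ω) = 0 := smul_zero γ
    have h' : γ • (0 : Pt C.W₁ Ω) = 0 + C.t Ω := h
    rw [e, zero_add] at h'
    exact ht0 h'.symm
  | .some x y hxy, hu, key =>
    by_cases hx : x = 0
    · subst hx
      have hy : y = 0 := by
        have h1 := hxy.1
        rw [WeierstrassCurve.Affine.equation_iff] at h1
        simpa [Cf.W₁, WeierstrassCurve.baseChange, WeierstrassCurve.map] using h1
      subst hy
      refine key 1 one_ne_zero ?_ fun γ => ⟨fun _ => map_one γ, fun h => ?_⟩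
      · change (1 : Ω) ^ 2 = if (0 : Ω) = 0 then (1 : Ω) else _
        rw [if_pos rfl, one_pow]
      · exfalso
        have e : γ • C.t Ω = C.t Ω := C.map_t _
        have h' : γ • C.t Ω = C.t Ω + C.t Ω := h
        rw [e, C.two_t] at h'
        exact ht0 h'
    · have h1 := hxy.1
      rw [WeierstrassCurve.Affine.equation_iff] at h1
      simp only [Cf.W₁, WeierstrassCurve.baseChange, WeierstrassCurve.map, map_zero] at h1
      have hfix : ∀ γ : Ω ≃ₐ[K] Ω, γ • (Pt.aff x y hxy : Pt C.W₁ Ω) = Pt.aff x y hxy →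
          γ x = x ∧ γ y = y := by
        intro γ h
        obtain ⟨h', e⟩ := map_aff (W := C.W₁) (γ.restrictScalars F : Ω →ₐ[F] Ω) hxy
        exact aff_inj (e.symm.trans h)
      have hmov : ∀ γ : Ω ≃ₐ[K] Ω, γ • (Pt.aff x y hxy : Pt C.W₁ Ω) = Pt.aff x y hxy + C.t Ω →
          γ x = algebraMap F Ω C.b / x ∧ γ y = - algebraMap F Ω C.b * y / x ^ 2 := by
        intro γ h
        obtain ⟨h', e⟩ := map_aff (W := C.W₁) (γ.restrictScalars F : Ω →ₐ[F] Ω) hxy
        obtain ⟨h'', e'⟩ := add_t_some C hxy hx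
        exact aff_inj (e.symm.trans (h.trans e'))
      have hb : algebraMap F Ω C.b ≠ 0 := by
        rw [Ne, map_eq_zero]
        exact C.hb
      have hγb : ∀ γ : Ω ≃ₐ[K] Ω, γ (algebraMap F Ω C.b) = algebraMap F Ω C.b := by
        intro γ
        rw [IsScalarTower.algebraMap_apply F K Ω]
        exact γ.commutes _
      by_cases hy : y = 0
      · subst hy
        have hq : x ^ 2 + algebraMap F Ω C.a * x + algebraMap F Ω C.b = 0 := by
          have : x * (x ^ 2 + algebraMap F Ω C.a * x + algebraMap F Ω C.b) = 0 := by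
            linear_combination -h1
          exact (mul_eq_zero.1 this).resolve_left hx
        have hr2 : (x - algebraMap F Ω C.b / x) ^ 2 = algebraMap F Ω (C.a ^ 2 - 4 * C.b) := by
          rw [map_sub, map_pow, map_mul, map_ofNat]
          field_simp
          linear_combination (x ^ 2 - algebraMap F Ω C.a * x + algebraMap F Ω C.b) * hq
        have hab : algebraMap F Ω (C.a ^ 2 - 4 * C.b) ≠ 0 := by
          rw [Ne, map_eq_zero]
          exact C.hab
        refine key (x - algebraMap F Ω C.b / x) ?_ ?_ fun γ => ⟨fun h => ?_, fun h => ?_⟩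
        · intro h
          rw [h] at hr2
          exact hab (by rw [← hr2]; ring)
        · rw [hr2]
          change _ = if x = 0 then (1 : Ω) else if (0 : Ω) = 0 then _ else _
          rw [if_neg hx, if_pos rfl]
        · rw [map_sub, map_div₀, hγb, (hfix γ h).1]
        · rw [map_sub, map_div₀, hγb, (hmov γ h).1]
          field_simp
          ring
      · refine key (y / x) (div_ne_zero hy hx) ?_ fun γ => ⟨fun h => ?_, fun h => ?_⟩
        · change _ = if x = 0 then (1 : Ω) else if y = 0 then _ else (y / x) ^ 2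
          rw [if_neg hx, if_neg hy]
        · rw [map_div₀, (hfix γ h).1, (hfix γ h).2]
        · rw [map_div₀, (hmov γ h).1, (hmov γ h).2]
          field_simp

section red

variable {W : WeierstrassCurve F} {L : Type} [Field L] [Algebra K L] [Algebra F L]

omit [CharZero K] [Algebra F K] [IsScalarTower F K Ω] [IsAlgClosure K Ω] in
theorem red_aff (w : Place K L Ω) {X Y : L} (h : (W.baseChange L).toAffine.Nonsingular X Y)
    {Q : Pt W Ω} (hr : Pt.Red W w (Pt.aff X Y h) Q) : (X ∉ w.V ∧ Q = 0) ∨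
      ∃ (hx : X ∈ w.V) (hy : Y ∈ w.V)
        (h : (W.baseChange Ω).toAffine.Nonsingular (w.res ⟨X, hx⟩) (w.res ⟨Y, hy⟩)),
        Q = Pt.aff _ _ h := hr

end red

section push

variable {E : Type} [Field E] [Algebra K E] [Algebra F E] [IsScalarTower F K E]

omit [CharZero K] [IsAlgClosure K Ω] in
/-- The value of the first kind of points. -/
theorem orb_red {w : Place K E Ω} {W : Place K (AlgebraicClosure E) Ω} (hW : Above w W) {ξ η : E}
    (h : (algebraMap E (AlgebraicClosure E) η) ^ 2 = (algebraMap E (AlgebraicClosure E) ξ) ^ 3 +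
      algebraMap F (AlgebraicClosure E) C.a * (algebraMap E (AlgebraicClosure E) ξ) ^ 2 +
      algebraMap F (AlgebraicClosure E) C.b * algebraMap E (AlgebraicClosure E) ξ)
    (p : Option (Ω × Ω)) (hp : Vl w ξ η p)
    (q : Option (Ω × Ω) → Pt C.W₁ Ω) (hq : q none = 0)
    (hq' : ∀ (x y : Ω) (h : y ^ 2 = x ^ 3 + algebraMap F Ω C.a * x ^ 2 + algebraMap F Ω C.b * x),
      q (some (x, y)) = C.pt₁ x y h) :
    Pt.Red C.W₁ W (C.pt₁ (algebraMap E (AlgebraicClosure E) ξ)
      (algebraMap E (AlgebraicClosure E) η) h) (q p) := by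
  obtain ⟨Q, hQ⟩ := exists_red W (C.pt₁ (algebraMap E (AlgebraicClosure E) ξ)
      (algebraMap E (AlgebraicClosure E) η) h)
  have e : Q = q p := by
    rcases red_aff W _ hQ with ⟨h1, h2⟩ | ⟨hx, hy, hn, h2⟩
    · match p, hp with
      | none, hp => rw [h2, hq]
      | some p, ⟨hx, _⟩ => exact absurd ((hW.1 ξ).2 hx) h1
    · match p, hp with
      | none, hp => exact absurd ((hW.1 ξ).1 hx) hp
      | some (a, b), ⟨hx', hy', e1, e2⟩ =>
        have e1' : W.res ⟨_, hx⟩ = a := (hW.2 ξ hx' hx).trans e1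
        have e2' : W.res ⟨_, hy⟩ = b := (hW.2 η hy' hy).trans e2
        subst e1' e2'
        have hn1 := hn.1
        rw [WeierstrassCurve.Affine.equation_iff] at hn1
        simp only [Cf.W₁, WeierstrassCurve.baseChange, WeierstrassCurve.map, map_zero] at hn1
        rw [h2, hq' _ _ (by linear_combination hn1)]
        rfl
  rw [← e]
  exact hQ

end push

/-- A principal divisor on `E₁` moves to the orbit of `(u, y)`. -/
theorem orb (u : Pt C.W₁ Ω) (y : Pt C.W₂ Ω) (h : ∀ γ : Ω ≃ₐ[K] Ω, γ • C.px u y = C.px u y)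
    {z : Option (Ω × Ω) →₀ ℤ} (hz : Prn K Ω (algebraMap F K C.a) (algebraMap F K C.b) 0 z)
    (q : Option (Ω × Ω) → Pt C.W₁ Ω) (hq : q none = 0)
    (hq' : ∀ (x y : Ω) (h : y ^ 2 = x ^ 3 + algebraMap F Ω C.a * x ^ 2 + algebraMap F Ω C.b * x),
      q (some (x, y)) = C.pt₁ x y h) :
    Finsupp.mapDomain (fun p => C.px (u + q p) y) z ∈ C.X.ratEq K Ω := by
  classical
  obtain ⟨E, _, _, hE, ξ, η, g, hg, heq, S, m, p, h1, h2, rfl⟩ := hz
  let _ : Algebra F E := ((algebraMap K E).comp (algebraMap F K)).toAlgebra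
  have _ : IsScalarTower F K E := IsScalarTower.of_algebraMap_eq fun _ => rfl
  have hcl : IsAlgClosed Ω := IsAlgClosure.isAlgClosed K
  have heq' : (algebraMap E (AlgebraicClosure E) η) ^ 2 =
      (algebraMap E (AlgebraicClosure E) ξ) ^ 3 +
      algebraMap F (AlgebraicClosure E) C.a * (algebraMap E (AlgebraicClosure E) ξ) ^ 2 +
      algebraMap F (AlgebraicClosure E) C.b * algebraMap E (AlgebraicClosure E) ξ := by
    rw [IsScalarTower.algebraMap_apply F K (AlgebraicClosure E),
      IsScalarTower.algebraMap_apply F K (AlgebraicClosure E) C.b,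
      IsScalarTower.algebraMap_apply K E (AlgebraicClosure E),
      IsScalarTower.algebraMap_apply K E (AlgebraicClosure E) (algebraMap F K C.b)]
    have := congrArg (algebraMap E (AlgebraicClosure E)) heq
    simp only [map_pow, map_add, map_mul, map_zero, add_zero] at this
    exact this
  have _ : Algebra.IsAlgebraic K Ω := IsAlgClosure.isAlgebraic
  obtain ⟨j⟩ : Nonempty (Ω →ₐ[K] AlgebraicClosure E) := ⟨IsAlgClosed.lift⟩
  set P : Pt C.W₁ (AlgebraicClosure E) := C.pt₁ (algebraMap E (AlgebraicClosure E) ξ)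
    (algebraMap E (AlgebraicClosure E) η) heq' with hP
  have hor : ∀ ρ : Ω ≃ₐ[K] Ω, (ρ • u = u ∧ ρ • y = y) ∨ (ρ • u = u + C.t Ω ∧ ρ • y = -y) := by
    intro ρ
    exact (C.px_eq_iff u (ρ • u) y (ρ • y)).1 (h ρ).symm
  refine AddSubgroup.subset_closure ⟨E, _, _, _, ‹_›, hE, g,
    C.px (Pt.map C.W₁ (j.restrictScalars F) u + P) (Pt.map C.W₂ (j.restrictScalars F) y), hg, ?_,
    S, m, fun w => C.px (u + q (p w)) y, h1, ?_, ?_⟩
  · intro σ
    obtain ⟨ρ, hρ⟩ := exists_rho' (σ.restrictScalars K) j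
    have hj : ∀ (W : WeierstrassCurve F) (v : Pt W Ω),
        Pt.map W (σ.restrictScalars F : AlgebraicClosure E →ₐ[F] AlgebraicClosure E)
          (Pt.map W (j.restrictScalars F) v) = Pt.map W (j.restrictScalars F) (ρ • v) := by
      intro W v
      rw [Pt.smul_def, Pt.map_map', Pt.map_map']
      exact congrArg (fun τ => Pt.map W τ v) (AlgHom.ext fun x => hρ x)
    have hPσ : Pt.map C.W₁ (σ.restrictScalars F : AlgebraicClosure E →ₐ[F] AlgebraicClosure E) P
        = P := by
      obtain ⟨h', e⟩ := map_aff (W := C.W₁)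
        (σ.restrictScalars F : AlgebraicClosure E →ₐ[F] AlgebraicClosure E)
        (x := algebraMap E (AlgebraicClosure E) ξ) (y := algebraMap E (AlgebraicClosure E) η) _
      refine e.trans ?_
      have e1 : σ (algebraMap E (AlgebraicClosure E) ξ) = algebraMap E (AlgebraicClosure E) ξ :=
        σ.commutes ξ
      have e2 : σ (algebraMap E (AlgebraicClosure E) η) = algebraMap E (AlgebraicClosure E) η :=
        σ.commutes η
      exact aff_congr _ _ e1 e2
    change C.px (Pt.map C.W₁ (σ.restrictScalars F :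
        AlgebraicClosure E →ₐ[F] AlgebraicClosure E) (Pt.map C.W₁ (j.restrictScalars F) u + P))
      (Pt.map C.W₂ (σ.restrictScalars F : AlgebraicClosure E →ₐ[F] AlgebraicClosure E)
        (Pt.map C.W₂ (j.restrictScalars F) y)) = _
    rw [map_add, hj, hj, hPσ]
    rcases hor ρ with ⟨e1, e2⟩ | ⟨e1, e2⟩
    · rw [e1, e2]
    · rw [e1, e2, map_add, map_neg, C.map_t]
      symm
      rw [C.px_eq_iff]
      right
      exact ⟨by abel, rfl⟩
  · intro w hw
    refine ⟨(h2 w hw).1, ?_⟩
    obtain ⟨W, hW⟩ := exists_above w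
    obtain ⟨ρ, hρ⟩ := exists_rho W j
    refine ⟨W, hW.1, hW.2, ?_⟩
    refine ⟨_, (ρ • u + q (p w), ρ • y), rfl, ?_, ?_, ?_⟩
    · change C.px (u + q (p w)) y = C.px (ρ • u + q (p w)) (ρ • y)
      rw [C.px_eq_iff]
      rcases hor ρ with ⟨e1, e2⟩ | ⟨e1, e2⟩
      · left
        rw [e1, e2]
        exact ⟨rfl, rfl⟩
      · right
        rw [e1, e2]
        exact ⟨by abel, rfl⟩
    · exact red_add rfl rfl W j ρ hρ u (orb_red C hW heq' (p w) (h2 w hw).2 q hq hq')
    · exact red_const W j ρ hρ y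
  · rw [Finsupp.mapDomain_finsetSum]
    refine Finset.sum_congr rfl fun w _ => ?_
    rw [Finsupp.mapDomain_single]

omit [CharZero K] in
/-- The value of the second kind of points. -/
theorem fib_red {E : Type} [Field E] [Algebra K E] [Algebra F E] [IsScalarTower F K E]
    {w : Place K E Ω} {W : Place K (AlgebraicClosure E) Ω} (hW : Above w W)
    (j : Ω →ₐ[K] AlgebraicClosure E) (ρ : Ω ≃ₐ[K] Ω)
    (hρ : ∀ x : Ω, ∃ h : j x ∈ W.V, W.res ⟨j x, h⟩ = ρ x) {ξ η : E} {r : Ω} (hr : r ≠ 0)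
    (h : (algebraMap E (AlgebraicClosure E) η / j r ^ 3) ^ 2 =
      (algebraMap E (AlgebraicClosure E) ξ / j r ^ 2) ^ 3 +
      algebraMap F (AlgebraicClosure E) C.c₂ * (algebraMap E (AlgebraicClosure E) ξ / j r ^ 2) ^ 2 +
      algebraMap F (AlgebraicClosure E) C.c₁ * (algebraMap E (AlgebraicClosure E) ξ / j r ^ 2) +
      algebraMap F (AlgebraicClosure E) C.c₀)
    (p : Option (Ω × Ω)) (hp : Vl w ξ η p)
    (q : Option (Ω × Ω) → Pt C.W₂ Ω) (hq : q none = 0)
    (hq' : ∀ (x y : Ω) (h : (y / r ^ 3) ^ 2 = (x / r ^ 2) ^ 3 +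
        algebraMap F Ω C.c₂ * (x / r ^ 2) ^ 2 + algebraMap F Ω C.c₁ * (x / r ^ 2) +
        algebraMap F Ω C.c₀), q (some (x, y)) = C.pt₂ (x / r ^ 2) (y / r ^ 3) h) :
    (ρ r = r → Pt.Red C.W₂ W (C.pt₂ (algebraMap E (AlgebraicClosure E) ξ / j r ^ 2)
      (algebraMap E (AlgebraicClosure E) η / j r ^ 3) h) (q p)) ∧
    (ρ r = -r → Pt.Red C.W₂ W (C.pt₂ (algebraMap E (AlgebraicClosure E) ξ / j r ^ 2)
      (algebraMap E (AlgebraicClosure E) η / j r ^ 3) h) (-q p)) := by
  have hcl : IsAlgClosed Ω := IsAlgClosure.isAlgClosed K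
  obtain ⟨Q, hQ⟩ := exists_red W (C.pt₂ (algebraMap E (AlgebraicClosure E) ξ / j r ^ 2)
      (algebraMap E (AlgebraicClosure E) η / j r ^ 3) h)
  have hjr : j r ≠ 0 := by
    rw [Ne, map_eq_zero]
    exact hr
  have hρr : ρ r ≠ 0 := by
    rw [Ne, map_eq_zero]
    exact hr
  obtain ⟨hrV, hrr⟩ := hρ r
  have hinv : (j r)⁻¹ ∈ W.V := by
    obtain ⟨h1, _⟩ := hρ r⁻¹
    rwa [map_inv₀] at h1
  have hmul : ∀ n : ℕ, ∀ x : AlgebraicClosure E, x / j r ^ n ∈ W.V ↔ x ∈ W.V := by
    intro n x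
    constructor
    · intro hx
      have := W.V.mul_mem _ _ hx (W.V.toSubring.pow_mem hrV n)
      rwa [div_mul_cancel₀ _ (pow_ne_zero n hjr)] at this
    · intro hx
      have := W.V.mul_mem _ _ hx (W.V.toSubring.pow_mem hinv n)
      rwa [inv_pow, ← div_eq_mul_inv] at this
  have hres : ∀ (n : ℕ) (x : AlgebraicClosure E) (hx : x / j r ^ n ∈ W.V) (hx' : x ∈ W.V),
      W.res ⟨x / j r ^ n, hx⟩ = W.res ⟨x, hx'⟩ / ρ r ^ n := by
    intro n x hx hx'
    rw [eq_div_iff (pow_ne_zero n hρr)]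
    have e1 : ρ r ^ n = W.res (⟨j r, hrV⟩ ^ n) := by rw [map_pow, hrr]
    rw [e1, ← map_mul]
    congr 1
    apply Subtype.ext
    change x / j r ^ n * j r ^ n = x
    rw [div_mul_cancel₀ _ (pow_ne_zero n hjr)]
  have main : (p = none ∧ Q = 0) ∨ ∃ (a b : Ω) (hn : ((C.W₂).baseChange Ω).toAffine.Nonsingular
      (a / ρ r ^ 2) (b / ρ r ^ 3)), p = some (a, b) ∧ Q = Pt.aff _ _ hn := by
    rcases red_aff W _ hQ with ⟨h1, h2⟩ | ⟨hx, hy, hn, h2⟩
    · match p, hp with
      | none, hp => exact Or.inl ⟨rfl, h2⟩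
      | some p, ⟨hx, _⟩ => exact absurd ((hmul 2 _).2 ((hW.1 ξ).2 hx)) h1
    · match p, hp with
      | none, hp => exact absurd ((hW.1 ξ).1 ((hmul 2 _).1 hx)) hp
      | some (a, b), ⟨hx', hy', e1, e2⟩ =>
        right
        have e1' : W.res ⟨_, hx⟩ = a / ρ r ^ 2 := by
          rw [hres 2 _ hx ((hmul 2 _).1 hx), hW.2 ξ hx' ((hmul 2 _).1 hx), e1]
        have e2' : W.res ⟨_, hy⟩ = b / ρ r ^ 3 := by
          rw [hres 3 _ hy ((hmul 3 _).1 hy), hW.2 η hy' ((hmul 3 _).1 hy), e2]
        have hn' : ((C.W₂).baseChange Ω).toAffine.Nonsingular (a / ρ r ^ 2) (b / ρ r ^ 3) := by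
          rw [← e1', ← e2']
          exact hn
        exact ⟨a, b, hn', rfl, h2.trans (aff_congr _ _ e1' e2')⟩
  constructor
  · intro hr1
    have e : Q = q p := by
      rcases main with ⟨rfl, h2⟩ | ⟨a, b, hn, rfl, h2⟩
      · rw [h2, hq]
      · have hn' := hn
        rw [hr1] at hn'
        have hn1 := hn'.1
        rw [WeierstrassCurve.Affine.equation_iff] at hn1
        simp only [Cf.W₂, WeierstrassCurve.baseChange, WeierstrassCurve.map, map_zero] at hn1
        rw [h2, hq' _ _ (by linear_combination hn1)]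
        exact aff_congr _ _ (by rw [hr1]) (by rw [hr1])
    rw [← e]
    exact hQ
  · intro hr1
    have e : Q = -q p := by
      rcases main with ⟨rfl, h2⟩ | ⟨a, b, hn, rfl, h2⟩
      · rw [h2, hq, neg_zero]
      · have hn' := hn
        rw [hr1] at hn'
        have hn1 := hn'.1
        rw [WeierstrassCurve.Affine.equation_iff] at hn1
        simp only [Cf.W₂, WeierstrassCurve.baseChange, WeierstrassCurve.map, map_zero] at hn1
        have h3 : (-r) ^ 3 = - r ^ 3 := by ring
        have h4 : (-r) ^ 2 = r ^ 2 := by ring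
        rw [h4, h3, div_neg] at hn1
        rw [h2, hq' _ _ (by linear_combination hn1)]
        have hn2 := hn
        rw [hr1, h4, h3, div_neg] at hn2
        refine (aff_congr hn hn2 (by rw [hr1, h4]) (by rw [hr1, h3, div_neg])).trans ?_
        exact neg_aff₂ C _ _ rfl
    rw [← e]
    exact hQ

/-- A principal divisor on the twist of `E₂` by `κ = r²` moves to the fibre over `[u]`. -/
theorem fib (u : Pt C.W₁ Ω) (r : Ω) (κ : K) (hr : r ≠ 0) (hκ : algebraMap K Ω κ = r ^ 2)
    (h : ∀ γ : Ω ≃ₐ[K] Ω, (γ • u = u ∧ γ r = r) ∨ (γ • u = u + C.t Ω ∧ γ r = - r))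
    {z : Option (Ω × Ω) →₀ ℤ}
    (hz : Prn K Ω (κ * algebraMap F K C.c₂) (κ ^ 2 * algebraMap F K C.c₁)
      (κ ^ 3 * algebraMap F K C.c₀) z)
    (q : Option (Ω × Ω) → Pt C.W₂ Ω) (hq : q none = 0)
    (hq' : ∀ (x y : Ω) (h : (y / r ^ 3) ^ 2 = (x / r ^ 2) ^ 3 +
        algebraMap F Ω C.c₂ * (x / r ^ 2) ^ 2 + algebraMap F Ω C.c₁ * (x / r ^ 2) +
        algebraMap F Ω C.c₀), q (some (x, y)) = C.pt₂ (x / r ^ 2) (y / r ^ 3) h) :
    Finsupp.mapDomain (fun p => C.px u (q p)) z ∈ C.X.ratEq K Ω := by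
  classical
  obtain ⟨E, _, _, hE, ξ, η, g, hg, heq, S, m, p, h1, h2, rfl⟩ := hz
  let _ : Algebra F E := ((algebraMap K E).comp (algebraMap F K)).toAlgebra
  have _ : IsScalarTower F K E := IsScalarTower.of_algebraMap_eq fun _ => rfl
  have hcl : IsAlgClosed Ω := IsAlgClosure.isAlgClosed K
  have _ : Algebra.IsAlgebraic K Ω := IsAlgClosure.isAlgebraic
  obtain ⟨j⟩ : Nonempty (Ω →ₐ[K] AlgebraicClosure E) := ⟨IsAlgClosed.lift⟩
  have hjr : j r ≠ 0 := by
    rw [Ne, map_eq_zero]
    exact hr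
  have hjκ : algebraMap K (AlgebraicClosure E) κ = j r ^ 2 := by
    rw [← map_pow, ← hκ, j.commutes]
  have heq' : (algebraMap E (AlgebraicClosure E) η / j r ^ 3) ^ 2 =
      (algebraMap E (AlgebraicClosure E) ξ / j r ^ 2) ^ 3 +
      algebraMap F (AlgebraicClosure E) C.c₂ * (algebraMap E (AlgebraicClosure E) ξ / j r ^ 2) ^ 2 +
      algebraMap F (AlgebraicClosure E) C.c₁ * (algebraMap E (AlgebraicClosure E) ξ / j r ^ 2) +
      algebraMap F (AlgebraicClosure E) C.c₀ := by
    have := congrArg (algebraMap E (AlgebraicClosure E)) heq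
    simp only [map_pow, map_add, map_mul] at this
    rw [← IsScalarTower.algebraMap_apply K E (AlgebraicClosure E),
      ← IsScalarTower.algebraMap_apply K E (AlgebraicClosure E),
      ← IsScalarTower.algebraMap_apply K E (AlgebraicClosure E),
      ← IsScalarTower.algebraMap_apply K E (AlgebraicClosure E),
      ← IsScalarTower.algebraMap_apply F K (AlgebraicClosure E),
      ← IsScalarTower.algebraMap_apply F K (AlgebraicClosure E),
      ← IsScalarTower.algebraMap_apply F K (AlgebraicClosure E), hjκ] at this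
    field_simp
    linear_combination this
  set P : Pt C.W₂ (AlgebraicClosure E) := C.pt₂ (algebraMap E (AlgebraicClosure E) ξ / j r ^ 2)
    (algebraMap E (AlgebraicClosure E) η / j r ^ 3) heq' with hP
  refine AddSubgroup.subset_closure ⟨E, _, _, _, ‹_›, hE, g,
    C.px (Pt.map C.W₁ (j.restrictScalars F) u) P, hg, ?_,
    S, m, fun w => C.px u (q (p w)), h1, ?_, ?_⟩
  · intro σ
    obtain ⟨ρ, hρ⟩ := exists_rho' (σ.restrictScalars K) j
    have hρ' : ∀ x : Ω, σ (j x) = j (ρ x) := hρ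
    have hj : ∀ (W : WeierstrassCurve F) (v : Pt W Ω),
        Pt.map W (σ.restrictScalars F : AlgebraicClosure E →ₐ[F] AlgebraicClosure E)
          (Pt.map W (j.restrictScalars F) v) = Pt.map W (j.restrictScalars F) (ρ • v) := by
      intro W v
      rw [Pt.smul_def, Pt.map_map', Pt.map_map']
      exact congrArg (fun τ => Pt.map W τ v) (AlgHom.ext fun x => hρ x)
    have e1 : σ (algebraMap E (AlgebraicClosure E) ξ) = algebraMap E (AlgebraicClosure E) ξ :=
      σ.commutes ξ
    have e2 : σ (algebraMap E (AlgebraicClosure E) η) = algebraMap E (AlgebraicClosure E) η :=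
      σ.commutes η
    obtain ⟨h', e⟩ := map_aff (W := C.W₂)
      (σ.restrictScalars F : AlgebraicClosure E →ₐ[F] AlgebraicClosure E)
      (x := algebraMap E (AlgebraicClosure E) ξ / j r ^ 2)
      (y := algebraMap E (AlgebraicClosure E) η / j r ^ 3)
      (WeierstrassCurve.Affine.equation_iff_nonsingular.1 (by
        rw [WeierstrassCurve.Affine.equation_iff]
        simp only [Cf.W₂, WeierstrassCurve.baseChange, WeierstrassCurve.map, map_zero]
        linear_combination heq'))
    have f1 : σ (algebraMap E (AlgebraicClosure E) ξ / j r ^ 2) =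
        algebraMap E (AlgebraicClosure E) ξ / j (ρ r) ^ 2 := by
      rw [map_div₀, map_pow, e1, hρ']
    have f2 : σ (algebraMap E (AlgebraicClosure E) η / j r ^ 3) =
        algebraMap E (AlgebraicClosure E) η / j (ρ r) ^ 3 := by
      rw [map_div₀, map_pow, e2, hρ']
    change C.px (Pt.map C.W₁ (σ.restrictScalars F :
        AlgebraicClosure E →ₐ[F] AlgebraicClosure E) (Pt.map C.W₁ (j.restrictScalars F) u))
      (Pt.map C.W₂ (σ.restrictScalars F : AlgebraicClosure E →ₐ[F] AlgebraicClosure E) P) = _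
    rw [hj]
    symm
    rw [C.px_eq_iff]
    rcases h ρ with ⟨g1, g2⟩ | ⟨g1, g2⟩
    · left
      refine ⟨by rw [g1], e.trans ?_⟩
      exact aff_congr _ _ (f1.trans (by rw [g2])) (f2.trans (by rw [g2]))
    · right
      refine ⟨by rw [g1, map_add, C.map_t], e.trans ?_⟩
      have f1' : σ (algebraMap E (AlgebraicClosure E) ξ / j r ^ 2) =
        algebraMap E (AlgebraicClosure E) ξ / j r ^ 2 := by
        rw [f1, g2, map_neg, neg_sq]
      have f2' : σ (algebraMap E (AlgebraicClosure E) η / j r ^ 3) =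
        -(algebraMap E (AlgebraicClosure E) η / j r ^ 3) := by
        have h3 : (-(j r)) ^ 3 = - (j r) ^ 3 := by ring
        rw [f2, g2, map_neg, h3, div_neg]
      have h'' : ((C.W₂).baseChange (AlgebraicClosure E)).toAffine.Nonsingular
          (algebraMap E (AlgebraicClosure E) ξ / j r ^ 2)
          (-(algebraMap E (AlgebraicClosure E) η / j r ^ 3)) := by
        rw [← f1', ← f2']
        exact h'
      refine (aff_congr h' h'' f1' f2').trans ?_
      exact neg_aff₂ C _ _ rfl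
  · intro w hw
    refine ⟨(h2 w hw).1, ?_⟩
    obtain ⟨W, hW⟩ := exists_above w
    obtain ⟨ρ, hρ⟩ := exists_rho W j
    refine ⟨W, hW.1, hW.2, ?_⟩
    have hfr := fib_red C hW j ρ hρ hr heq' (p w) (h2 w hw).2 q hq hq'
    rcases h ρ with ⟨g1, g2⟩ | ⟨g1, g2⟩
    · refine ⟨_, (ρ • u, q (p w)), rfl, ?_, red_const W j ρ hρ u, hfr.1 g2⟩
      change C.px u (q (p w)) = C.px (ρ • u) (q (p w))
      rw [g1]
    · refine ⟨_, (ρ • u, - q (p w)), rfl, ?_, red_const W j ρ hρ u, hfr.2 g2⟩
      change C.px u (q (p w)) = C.px (ρ • u) (- q (p w))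
      rw [C.px_eq_iff]
      exact Or.inr ⟨g1, rfl⟩
  · rw [Finsupp.mapDomain_finsetSum]
    refine Finset.sum_congr rfl fun w _ => ?_
    rw [Finsupp.mapDomain_single]

end BE
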