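import Pool.Agent.Lib.MP_f80667_ag.Be.Ln
import Pool.Agent.Lib.MP_f80667_ag.Be.Gal

/-! Lines through two conjugate points. -/

open ZC Polynomial

namespace BE

section gen

variable {K Ω : Type} [Field K] [CharZero K] [Field Ω] [Algebra K Ω] [IsAlgClosure K Ω]

theorem PairL_desc {x : Ω} (h : ∀ γ : Ω ≃ₐ[K] Ω, γ x = x) : ∃ a : K, algebraMap K Ω a = x := by
  have h1 : x ∈ (⊥ : IntermediateField K Ω) := mem_of_fix ⊥ fun γ _ => h γ
  exact IntermediateField.mem_bot.1 h1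

theorem PairL_vert {A B D : K} {x₁ y₁ : Ω}
    (h : y₁ ^ 2 = x₁ ^ 3 + algebraMap K Ω A * x₁ ^ 2 + algebraMap K Ω B * x₁ + algebraMap K Ω D)
    (hγ : ∀ γ : Ω ≃ₐ[K] Ω, γ x₁ = x₁) :
    Prn K Ω A B D (Finsupp.single (some (x₁, y₁)) 1 + Finsupp.single (some (x₁, - y₁)) 1 -
      Finsupp.single none 2) := by
  have : IsAlgClosed Ω := IsAlgClosure.isAlgClosed K
  obtain ⟨a, rfl⟩ := PairL_desc hγ
  exact prn_vert a y₁ (by simp only [map_add, map_mul, map_pow]; exact h)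

theorem PairL_line {A B D : K} {x₁ y₁ x₂ y₂ s : Ω}
    (h₁ : y₁ ^ 2 = x₁ ^ 3 + algebraMap K Ω A * x₁ ^ 2 + algebraMap K Ω B * x₁ + algebraMap K Ω D)
    (hsep : ∀ x : Ω, x ^ 3 + algebraMap K Ω A * x ^ 2 + algebraMap K Ω B * x +
      algebraMap K Ω D = 0 → 3 * x ^ 2 + 2 * algebraMap K Ω A * x + algebraMap K Ω B ≠ 0)
    (hs : s * (x₁ - x₂) = y₁ - y₂)
    (hs' : s * (y₁ + y₂) = x₁ ^ 2 + x₁ * x₂ + x₂ ^ 2 + algebraMap K Ω A * (x₁ + x₂) +
      algebraMap K Ω B)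
    (hne : x₁ ≠ x₂ ∨ y₁ + y₂ ≠ 0)
    (hγ : ∀ γ : Ω ≃ₐ[K] Ω, (γ x₁ = x₁ ∧ γ y₁ = y₁ ∧ γ x₂ = x₂ ∧ γ y₂ = y₂) ∨
      (γ x₁ = x₂ ∧ γ y₁ = y₂ ∧ γ x₂ = x₁ ∧ γ y₂ = y₁)) :
    Prn K Ω A B D (Finsupp.single (some (x₁, y₁)) 1 + Finsupp.single (some (x₂, y₂)) 1 -
      Finsupp.single none 1 - Finsupp.single (some (s ^ 2 - algebraMap K Ω A - x₁ - x₂,
        -(y₁ + s * (s ^ 2 - algebraMap K Ω A - x₁ - x₂ - x₁)))) 1) := by
  have : IsAlgClosed Ω := IsAlgClosure.isAlgClosed K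
  -- the slope is invariant
  have hsγ : ∀ γ : Ω ≃ₐ[K] Ω, γ s = s := by
    intro γ
    have e1 := congrArg γ hs
    have e2 := congrArg γ hs'
    simp only [map_mul, map_add, map_sub, map_pow, AlgEquiv.commutes] at e1 e2
    have e3 : (γ s - s) * (x₁ - x₂) = 0 := by
      rcases hγ γ with ⟨g1, g2, g3, g4⟩ | ⟨g1, g2, g3, g4⟩
      · rw [g1, g2, g3, g4] at e1
        linear_combination e1 - hs
      · rw [g1, g2, g3, g4] at e1
        linear_combination - e1 - hs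
    have e4 : (γ s - s) * (y₁ + y₂) = 0 := by
      rcases hγ γ with ⟨g1, g2, g3, g4⟩ | ⟨g1, g2, g3, g4⟩
      · rw [g1, g2, g3, g4] at e2
        linear_combination e2 - hs'
      · rw [g1, g2, g3, g4] at e2
        linear_combination e2 - hs'
    rcases hne with h | h
    · exact sub_eq_zero.1 ((mul_eq_zero.1 e3).resolve_right (sub_ne_zero.2 h))
    · exact sub_eq_zero.1 ((mul_eq_zero.1 e4).resolve_right h)
  set x₃ := s ^ 2 - algebraMap K Ω A - x₁ - x₂ with hx₃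
  have hxγ : ∀ γ : Ω ≃ₐ[K] Ω, γ x₃ = x₃ := by
    intro γ
    rw [hx₃]
    simp only [map_sub, map_pow, AlgEquiv.commutes, hsγ]
    rcases hγ γ with ⟨g1, g2, g3, g4⟩ | ⟨g1, g2, g3, g4⟩
    · rw [g1, g3]
    · rw [g1, g3]
      ring
  have hyγ : ∀ γ : Ω ≃ₐ[K] Ω, γ (y₁ + s * (x₃ - x₁)) = y₁ + s * (x₃ - x₁) := by
    intro γ
    simp only [map_add, map_mul, map_sub, hsγ, hxγ]
    rcases hγ γ with ⟨g1, g2, g3, g4⟩ | ⟨g1, g2, g3, g4⟩
    · rw [g1, g2]
    · rw [g1, g2]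
      linear_combination hs
  obtain ⟨s₀, hs₀⟩ := PairL_desc hsγ
  obtain ⟨x₀, hx₀⟩ := PairL_desc hxγ
  obtain ⟨y₀, hy₀⟩ := PairL_desc hyγ
  have hcurve : (y₁ + s * (x₃ - x₁)) ^ 2 = x₃ ^ 3 + algebraMap K Ω A * x₃ ^ 2 +
      algebraMap K Ω B * x₃ + algebraMap K Ω D := by
    rw [hx₃]
    linear_combination h₁ + (s ^ 2 - algebraMap K Ω A - x₁ - x₂ - x₁) * hs' -
      (s ^ 2 - algebraMap K Ω A - x₁ - x₂ - x₁) * s * hs
  have h₀ : y₀ ^ 2 = x₀ ^ 3 + A * x₀ ^ 2 + B * x₀ + D := by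
    apply (algebraMap K Ω).injective
    simp only [map_add, map_mul, map_pow]
    rw [hx₀, hy₀]
    exact hcurve
  have hsing : y₀ = 0 → 3 * x₀ ^ 2 + 2 * A * x₀ + B ≠ 0 := by
    intro hy0 hcon
    refine hsep x₃ ?_ ?_
    · rw [← hcurve, ← hy₀, hy0, map_zero]
      ring
    · have := congrArg (algebraMap K Ω) hcon
      simp only [map_add, map_mul, map_pow, map_ofNat, map_zero, hx₀] at this
      exact this
  have key := prn_line (Ω := Ω) x₀ y₀ s₀ h₀ hsing x₁ x₂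
    (by
      simp only [map_sub, map_pow, hs₀, hx₀]
      rw [hx₃]
      ring)
    (by
      simp only [map_sub, map_add, map_mul, map_pow, map_ofNat, hs₀, hx₀, hy₀]
      rw [hx₃]
      linear_combination hs' - s * hs)
  rw [hs₀, hx₀, hy₀] at key
  have e1 : y₁ + s * (x₃ - x₁) + s * (x₁ - x₃) = y₁ := by ring
  have e2 : y₁ + s * (x₃ - x₁) + s * (x₂ - x₃) = y₂ := by linear_combination - hs
  rw [e1, e2] at key
  exact key

end gen

section pts

variable {F : Type} [Field F] {W : WeierstrassCurve F} {L : Type} [Field L] [Algebra F L]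

theorem PairL_inj {x y x' y' : L} {h : (W.baseChange L).toAffine.Nonsingular x y}
    {h' : (W.baseChange L).toAffine.Nonsingular x' y'} :
    (Pt.aff x y h : Pt W L) = Pt.aff x' y' h' ↔ x = x' ∧ y = y' := by
  constructor
  · intro he
    have := WeierstrassCurve.Affine.Point.some.inj he
    exact this
  · rintro ⟨rfl, rfl⟩
    rfl

theorem PairL_eqn (ha₁ : W.a₁ = 0) (ha₃ : W.a₃ = 0) {x y : L}
    (h : (W.baseChange L).toAffine.Nonsingular x y) :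
    y ^ 2 = x ^ 3 + algebraMap F L W.a₂ * x ^ 2 + algebraMap F L W.a₄ * x + algebraMap F L W.a₆ := by
  have h1 := h.1
  rw [WeierstrassCurve.Affine.equation_iff] at h1
  simp only [WeierstrassCurve.baseChange, WeierstrassCurve.map, ha₁, ha₃, map_zero] at h1
  linear_combination h1

theorem PairL_neg (ha₁ : W.a₁ = 0) (ha₃ : W.a₃ = 0) {x y : L}
    (h : (W.baseChange L).toAffine.Nonsingular x y) :
    ∃ h', -(Pt.aff x y h : Pt W L) = Pt.aff x (-y) h' := by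
  have h0 : (W.baseChange L).toAffine.negY x y = -y := by
    simp [WeierstrassCurve.Affine.negY, WeierstrassCurve.baseChange, WeierstrassCurve.map, ha₁, ha₃]
  have h1 : (W.baseChange L).toAffine.Nonsingular x (-y) := by
    rw [← h0]
    exact (WeierstrassCurve.Affine.nonsingular_neg ..).2 h
  refine ⟨h1, ?_⟩
  have h2 : -(Pt.aff x y h : Pt W L) = Pt.aff x ((W.baseChange L).toAffine.negY x y)
      ((WeierstrassCurve.Affine.nonsingular_neg ..).2 h) := rfl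
  rw [h2, PairL_inj]
  exact ⟨rfl, h0⟩

theorem PairL_add (ha₁ : W.a₁ = 0) (ha₃ : W.a₃ = 0) {x₁ y₁ x₂ y₂ : L}
    (n₁ : (W.baseChange L).toAffine.Nonsingular x₁ y₁)
    (n₂ : (W.baseChange L).toAffine.Nonsingular x₂ y₂)
    (hne : (Pt.aff x₁ y₁ n₁ + Pt.aff x₂ y₂ n₂ : Pt W L) ≠ 0) :
    ∃ s : L, s * (x₁ - x₂) = y₁ - y₂ ∧
      s * (y₁ + y₂) = x₁ ^ 2 + x₁ * x₂ + x₂ ^ 2 + algebraMap F L W.a₂ * (x₁ + x₂) +
        algebraMap F L W.a₄ ∧ (x₁ ≠ x₂ ∨ y₁ + y₂ ≠ 0) ∧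
      ∃ h, (Pt.aff x₁ y₁ n₁ + Pt.aff x₂ y₂ n₂ : Pt W L) =
        Pt.aff (s ^ 2 - algebraMap F L W.a₂ - x₁ - x₂)
          (-(y₁ + s * (s ^ 2 - algebraMap F L W.a₂ - x₁ - x₂ - x₁))) h := by
  classical
  have hneg : ∀ x y : L, (W.baseChange L).toAffine.negY x y = -y := by
    intro x y
    simp [WeierstrassCurve.Affine.negY, WeierstrassCurve.baseChange, WeierstrassCurve.map, ha₁, ha₃]
  have hxy : ¬ (x₁ = x₂ ∧ y₁ = (W.baseChange L).toAffine.negY x₂ y₂) := by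
    rintro ⟨h1, h2⟩
    exact hne (WeierstrassCurve.Affine.Point.add_of_Y_eq (W := (W.baseChange L).toAffine)
      (h₁ := n₁) (h₂ := n₂) h1 h2)
  have hadd : (Pt.aff x₁ y₁ n₁ + Pt.aff x₂ y₂ n₂ : Pt W L) = Pt.aff _ _
      (WeierstrassCurve.Affine.nonsingular_add n₁ n₂ hxy) :=
    WeierstrassCurve.Affine.Point.add_some (W := (W.baseChange L).toAffine) (h₁ := n₁) (h₂ := n₂) hxy
  have e₁ := PairL_eqn ha₁ ha₃ n₁
  have e₂ := PairL_eqn ha₁ ha₃ n₂
  rw [hneg] at hxy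
  set s := (W.baseChange L).toAffine.slope x₁ x₂ y₁ y₂ with hsdef
  have hX : (W.baseChange L).toAffine.addX x₁ x₂ s = s ^ 2 - algebraMap F L W.a₂ - x₁ - x₂ := by
    simp only [WeierstrassCurve.Affine.addX, WeierstrassCurve.baseChange, WeierstrassCurve.map, ha₁,
      map_zero]
    ring
  have hY : (W.baseChange L).toAffine.addY x₁ x₂ y₁ s =
      -(y₁ + s * (s ^ 2 - algebraMap F L W.a₂ - x₁ - x₂ - x₁)) := by
    rw [WeierstrassCurve.Affine.addY, hneg, WeierstrassCurve.Affine.negAddY, hX]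
    ring
  have hsum : ∃ h, (Pt.aff x₁ y₁ n₁ + Pt.aff x₂ y₂ n₂ : Pt W L) =
        Pt.aff (s ^ 2 - algebraMap F L W.a₂ - x₁ - x₂)
          (-(y₁ + s * (s ^ 2 - algebraMap F L W.a₂ - x₁ - x₂ - x₁))) h := by
    have h1 := WeierstrassCurve.Affine.nonsingular_add n₁ n₂ (by rw [hneg]; exact hxy)
    rw [← hsdef, hX, hY] at h1
    refine ⟨h1, ?_⟩
    rw [hadd, PairL_inj]
    exact ⟨hX, hY⟩
  by_cases hx : x₁ = x₂
  · have hy : y₁ + y₂ ≠ 0 := fun h => hxy ⟨hx, eq_neg_of_add_eq_zero_left h⟩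
    have hyy : y₁ = y₂ := by
      have : (y₁ - y₂) * (y₁ + y₂) = 0 := by
        rw [hx] at e₁
        linear_combination e₁ - e₂
      exact sub_eq_zero.1 ((mul_eq_zero.1 this).resolve_right hy)
    subst hx
    subst hyy
    have hs : s = (3 * x₁ ^ 2 + 2 * algebraMap F L W.a₂ * x₁ + algebraMap F L W.a₄) / (y₁ + y₁) := by
      rw [hsdef, WeierstrassCurve.Affine.slope_of_Y_ne rfl (by
        rw [hneg]
        exact fun h => hxy ⟨rfl, h⟩), hneg, sub_neg_eq_add]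
      simp only [WeierstrassCurve.baseChange, WeierstrassCurve.map, ha₁, map_zero]
      ring
    refine ⟨s, by ring, ?_, Or.inr hy, hsum⟩
    rw [hs, div_mul_cancel₀ _ hy]
    ring
  · have hxs : x₁ - x₂ ≠ 0 := sub_ne_zero.2 hx
    have hs : s = (y₁ - y₂) / (x₁ - x₂) := by
      rw [hsdef, WeierstrassCurve.Affine.slope_of_X_ne hx]
    refine ⟨s, ?_, ?_, Or.inl hx, hsum⟩
    · rw [hs, div_mul_cancel₀ _ hxs]
    · rw [hs]
      field_simp
      linear_combination e₁ - e₂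

theorem PairL_sep (ha₁ : W.a₁ = 0) (ha₃ : W.a₃ = 0) [(W.baseChange L).IsElliptic] {x : L}
    (h : x ^ 3 + algebraMap F L W.a₂ * x ^ 2 + algebraMap F L W.a₄ * x + algebraMap F L W.a₆ = 0) :
    3 * x ^ 2 + 2 * algebraMap F L W.a₂ * x + algebraMap F L W.a₄ ≠ 0 := by
  have h1 : (W.baseChange L).toAffine.Equation x 0 := by
    rw [WeierstrassCurve.Affine.equation_iff]
    simp only [WeierstrassCurve.baseChange, WeierstrassCurve.map, ha₁, ha₃, map_zero]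
    linear_combination -h
  have h2 := WeierstrassCurve.Affine.equation_iff_nonsingular.1 h1
  rw [WeierstrassCurve.Affine.nonsingular_iff] at h2
  simp only [WeierstrassCurve.baseChange, WeierstrassCurve.map, ha₁, ha₃, map_zero] at h2
  rcases h2.2 with h3 | h3
  · intro h4
    apply h3
    rw [h4]
    ring
  · exact absurd (by ring) h3

end pts

section act

variable {F : Type} [Field F] {K : Type} [Field K] [Algebra F K] {Ω : Type} [Field Ω]
  [Algebra K Ω] [Algebra F Ω] [IsScalarTower F K Ω] {W : WeierstrassCurve F}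

theorem PairL_smul (γ : Ω ≃ₐ[K] Ω) {x y : Ω} (h : (W.baseChange Ω).toAffine.Nonsingular x y) :
    ∃ h', γ • (Pt.aff x y h : Pt W Ω) = Pt.aff (γ x) (γ y) h' := ⟨_, rfl⟩

end act

end BE
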