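import Pool.Agent.Lib.MP_f80667_ag.Be.PaO
import Pool.Agent.Lib.MP_f80667_ag.Be.PairL

/-! The rational equivalences given by lines in the fibres of `X → B` and in the orbits of `E₁`. -/

open ZC Polynomial

namespace BE

variable {F : Type} [Field F] {K : Type} [Field K] [CharZero K] [Algebra F K] {Ω : Type} [Field Ω]
  [Algebra K Ω] [Algebra F Ω] [IsScalarTower F K Ω] [IsAlgClosure K Ω] (C : Cf F)

/-- **Lines in the orbits.** Proof: if `a₁ = 0` or `a₂ = 0`: trivial. If `a₁ + a₂ = 0`: `prn_vert` (the `x`-coordinate of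
`a₁` is invariant) and `orb`. Otherwise `- (a₁ + a₂) = (x₀, y₀)` is invariant, so `x₀`, `y₀ ∈ K`, and so is the slope `s₀`
of the line through `a₁`, `a₂` (the tangent if `a₁ = a₂`): `prn_line` and `orb`. -/
theorem pairA (u a₁ a₂ : Pt C.W₁ Ω) (y : Pt C.W₂ Ω)
    (h : ∀ γ : Ω ≃ₐ[K] Ω, γ • C.px u y = C.px u y)
    (ha : ∀ γ : Ω ≃ₐ[K] Ω, (γ • a₁ = a₁ ∧ γ • a₂ = a₂) ∨ (γ • a₁ = a₂ ∧ γ • a₂ = a₁)) :
    (Finsupp.single (C.px (u + a₁) y) 1 + Finsupp.single (C.px (u + a₂) y) 1) -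
      (Finsupp.single (C.px (u + a₁ + a₂) y) 1 + Finsupp.single (C.px u y) 1) ∈
      C.X.ratEq K Ω := by
  classical
  rcases Pt.cases' a₁ with rfl | ⟨x₁, y₁, n₁, rfl⟩
  · rw [add_zero, add_comm (Finsupp.single (C.px u y) (1 : ℤ)), sub_self]
    exact zero_mem _
  rcases Pt.cases' a₂ with rfl | ⟨x₂, y₂, n₂, rfl⟩
  · rw [add_zero, add_zero, sub_self]
    exact zero_mem _
  have ha₁ : C.W₁.a₁ = 0 := rfl
  have ha₃ : C.W₁.a₃ = 0 := rfl
  have h6 : algebraMap F Ω C.W₁.a₆ = 0 := map_zero _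
  have e₁ := PairL_eqn ha₁ ha₃ n₁
  have e₂ := PairL_eqn ha₁ ha₃ n₂
  -- the points as values of `q`
  let q : Option (Ω × Ω) → Pt C.W₁ Ω := fun o => match o with
    | none => 0
    | some p => if h : p.2 ^ 2 = p.1 ^ 3 + algebraMap F Ω C.a * p.1 ^ 2 + algebraMap F Ω C.b * p.1
        then C.pt₁ p.1 p.2 h else 0
  have hq : q none = 0 := rfl
  have hq' : ∀ (x y : Ω) (h : y ^ 2 = x ^ 3 + algebraMap F Ω C.a * x ^ 2 + algebraMap F Ω C.b * x),
      q (some (x, y)) = C.pt₁ x y h := fun x y h => dif_pos h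
  have hqa : ∀ (x y : Ω) (n : ((C.W₁).baseChange Ω).toAffine.Nonsingular x y),
      q (some (x, y)) = Pt.aff x y n := by
    intro x y n
    have e := PairL_eqn ha₁ ha₃ n
    rw [h6, add_zero] at e
    exact hq' x y e
  -- the action on the coordinates
  have hγ : ∀ γ : Ω ≃ₐ[K] Ω, (γ x₁ = x₁ ∧ γ y₁ = y₁ ∧ γ x₂ = x₂ ∧ γ y₂ = y₂) ∨
      (γ x₁ = x₂ ∧ γ y₁ = y₂ ∧ γ x₂ = x₁ ∧ γ y₂ = y₁) := by
    intro γ
    obtain ⟨m₁, hm₁⟩ := PairL_smul γ n₁
    obtain ⟨m₂, hm₂⟩ := PairL_smul γ n₂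
    have := ha γ
    rw [hm₁, hm₂, PairL_inj, PairL_inj, PairL_inj, PairL_inj] at this
    tauto
  have hA : algebraMap K Ω (algebraMap F K C.a) = algebraMap F Ω C.W₁.a₂ :=
    (IsScalarTower.algebraMap_apply F K Ω C.a).symm
  have hB : algebraMap K Ω (algebraMap F K C.b) = algebraMap F Ω C.W₁.a₄ :=
    (IsScalarTower.algebraMap_apply F K Ω C.b).symm
  have h6' : algebraMap K Ω 0 = algebraMap F Ω C.W₁.a₆ := by rw [h6, map_zero]
  by_cases hsum : (Pt.aff x₁ y₁ n₁ + Pt.aff x₂ y₂ n₂ : Pt C.W₁ Ω) = 0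
  · obtain ⟨n₁', hn₁'⟩ := PairL_neg ha₁ ha₃ n₁
    have h2 : (Pt.aff x₂ y₂ n₂ : Pt C.W₁ Ω) = Pt.aff x₁ (-y₁) n₁' := by
      rw [← hn₁']
      exact eq_neg_of_add_eq_zero_right hsum
    have h3 := PairL_inj.1 h2
    have hfix : ∀ γ : Ω ≃ₐ[K] Ω, γ x₁ = x₁ := by
      intro γ
      rcases hγ γ with h4 | h4
      · exact h4.1
      · rw [h4.1, h3.1]
    have hz := PairL_vert (K := K) (A := algebraMap F K C.a) (B := algebraMap F K C.b) (D := 0)
      (x₁ := x₁) (y₁ := y₁) (by rw [hA, hB, h6']; exact e₁) hfix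
    have key := orb C u y h hz q hq hq'
    rw [← Finsupp.mapDomain.addMonoidHom_apply, map_sub, map_add] at key
    simp only [Finsupp.mapDomain.addMonoidHom_apply, Finsupp.mapDomain_single] at key
    rw [hqa x₁ y₁ n₁, hqa x₁ (-y₁) n₁', ← h2, hq, add_zero] at key
    rw [add_assoc, hsum, add_zero]
    have h5 : (Finsupp.single (C.px u y) (1 : ℤ) + Finsupp.single (C.px u y) 1) =
        Finsupp.single (C.px u y) 2 := by
      rw [← Finsupp.single_add]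
      norm_num
    rw [h5]
    exact key
  · obtain ⟨s, hs, hs', hne, n₃, hadd⟩ := PairL_add ha₁ ha₃ n₁ n₂ hsum
    have hz := PairL_line (K := K) (A := algebraMap F K C.a) (B := algebraMap F K C.b) (D := 0)
      (x₁ := x₁) (y₁ := y₁) (x₂ := x₂) (y₂ := y₂) (s := s) (by rw [hA, hB, h6']; exact e₁)
      (by
        intro x
        rw [hA, hB, h6']
        exact PairL_sep ha₁ ha₃) hs (by rw [hA, hB]; exact hs') hne hγ
    rw [hA] at hz
    have key := orb C u y h hz q hq hq'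
    rw [← Finsupp.mapDomain.addMonoidHom_apply, map_sub, map_sub, map_add] at key
    simp only [Finsupp.mapDomain.addMonoidHom_apply, Finsupp.mapDomain_single] at key
    rw [hqa x₁ y₁ n₁, hqa x₂ y₂ n₂, hqa _ _ n₃, ← hadd, hq, add_zero, sub_sub,
      add_comm (Finsupp.single (C.px u y) (1 : ℤ)), ← add_assoc u] at key
    exact key

/-- **Lines in the fibres.** Proof: `exists_r`; `yᵢ = (wᵢ, vᵢ)` gives the point `(r² wᵢ, r³ vᵢ)` of the twist
`y² = x³ + κ c₂ x² + κ² c₁ x + κ³ c₀`, and the pair of these points is stable. The cases as in `pairA`, with `fib`. -/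
theorem pairB (u : Pt C.W₁ Ω) (y₁ y₂ : Pt C.W₂ Ω)
    (hu : ∀ γ : Ω ≃ₐ[K] Ω, γ • u = u ∨ γ • u = u + C.t Ω)
    (h : ∀ γ : Ω ≃ₐ[K] Ω, (γ • C.px u y₁ = C.px u y₁ ∧ γ • C.px u y₂ = C.px u y₂) ∨
      (γ • C.px u y₁ = C.px u y₂ ∧ γ • C.px u y₂ = C.px u y₁)) :
    (Finsupp.single (C.px u y₁) 1 + Finsupp.single (C.px u y₂) 1) -
      (Finsupp.single (C.px u (y₁ + y₂)) 1 + Finsupp.single (C.px u 0) 1) ∈ C.X.ratEq K Ω := by
  classical
  rcases Pt.cases' y₁ with rfl | ⟨w₁, v₁, n₁, rfl⟩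
  · rw [zero_add, add_comm (Finsupp.single (C.px u 0) (1 : ℤ)), sub_self]
    exact zero_mem _
  rcases Pt.cases' y₂ with rfl | ⟨w₂, v₂, n₂, rfl⟩
  · rw [add_zero, sub_self]
    exact zero_mem _
  have ha₁ : C.W₂.a₁ = 0 := rfl
  have ha₃ : C.W₂.a₃ = 0 := rfl
  have e₁ := PairL_eqn ha₁ ha₃ n₁
  have e₂ := PairL_eqn ha₁ ha₃ n₂
  obtain ⟨r, hr, -, ⟨κ, hκ⟩, hrγ⟩ := exists_r C hu
  have hr2 : r ^ 2 ≠ 0 := pow_ne_zero 2 hr
  have hr3 : r ^ 3 ≠ 0 := pow_ne_zero 3 hr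
  have hfib : ∀ γ : Ω ≃ₐ[K] Ω, (γ • u = u ∧ γ r = r) ∨ (γ • u = u + C.t Ω ∧ γ r = - r) := by
    intro γ
    rcases hu γ with h1 | h1
    · exact Or.inl ⟨h1, (hrγ γ).1 h1⟩
    · exact Or.inr ⟨h1, (hrγ γ).2 h1⟩
  have ht : C.t Ω ≠ 0 := WeierstrassCurve.Affine.Point.some_ne_zero _
  -- the points as values of `q`
  let q : Option (Ω × Ω) → Pt C.W₂ Ω := fun o => match o with
    | none => 0
    | some p => if h : (p.2 / r ^ 3) ^ 2 = (p.1 / r ^ 2) ^ 3 +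
          algebraMap F Ω C.c₂ * (p.1 / r ^ 2) ^ 2 + algebraMap F Ω C.c₁ * (p.1 / r ^ 2) +
          algebraMap F Ω C.c₀
        then C.pt₂ (p.1 / r ^ 2) (p.2 / r ^ 3) h else 0
  have hq : q none = 0 := rfl
  have hq' : ∀ (x y : Ω) (h : (y / r ^ 3) ^ 2 = (x / r ^ 2) ^ 3 +
        algebraMap F Ω C.c₂ * (x / r ^ 2) ^ 2 + algebraMap F Ω C.c₁ * (x / r ^ 2) +
        algebraMap F Ω C.c₀), q (some (x, y)) = C.pt₂ (x / r ^ 2) (y / r ^ 3) h :=
    fun x y h => dif_pos h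
  have hqa : ∀ (x y w v : Ω) (n : ((C.W₂).baseChange Ω).toAffine.Nonsingular w v),
      x = r ^ 2 * w → y = r ^ 3 * v → q (some (x, y)) = Pt.aff w v n := by
    intro x y w v n hx hy
    have e := PairL_eqn ha₁ ha₃ n
    have hw : x / r ^ 2 = w := by rw [hx]; field_simp
    have hv : y / r ^ 3 = v := by rw [hy]; field_simp
    rw [hq' x y (by rw [hw, hv]; exact e)]
    exact PairL_inj.2 ⟨hw, hv⟩
  -- the action on the coordinates
  have hγ : ∀ γ : Ω ≃ₐ[K] Ω, (γ (r ^ 2 * w₁) = r ^ 2 * w₁ ∧ γ (r ^ 3 * v₁) = r ^ 3 * v₁ ∧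
        γ (r ^ 2 * w₂) = r ^ 2 * w₂ ∧ γ (r ^ 3 * v₂) = r ^ 3 * v₂) ∨
      (γ (r ^ 2 * w₁) = r ^ 2 * w₂ ∧ γ (r ^ 3 * v₁) = r ^ 3 * v₂ ∧
        γ (r ^ 2 * w₂) = r ^ 2 * w₁ ∧ γ (r ^ 3 * v₂) = r ^ 3 * v₁) := by
    intro γ
    obtain ⟨m₁, hm₁⟩ := PairL_smul γ n₁
    obtain ⟨m₂, hm₂⟩ := PairL_smul γ n₂
    have hact : ∀ y : Pt C.W₂ Ω, γ • C.px u y = C.px (γ • u) (γ • y) := fun _ => rfl
    simp only [map_mul, map_pow]
    rcases hfib γ with ⟨g1, g2⟩ | ⟨g1, g2⟩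
    · -- `γ u = u`
      have hpe : ∀ y y' : Pt C.W₂ Ω, γ • C.px u y = C.px u y' → γ • y = y' := by
        intro y y' h1
        rw [hact, g1, C.px_eq_iff] at h1
        rcases h1 with h1 | h1
        · exact h1.2.symm
        · exact absurd (left_eq_add.1 h1.1) ht
      rw [g2]
      rcases h γ with ⟨h1, h2⟩ | ⟨h1, h2⟩
      · have h3 := hpe _ _ h1
        have h4 := hpe _ _ h2
        rw [hm₁, PairL_inj] at h3
        rw [hm₂, PairL_inj] at h4
        left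
        rw [h3.1, h3.2, h4.1, h4.2]
        exact ⟨rfl, rfl, rfl, rfl⟩
      · have h3 := hpe _ _ h1
        have h4 := hpe _ _ h2
        rw [hm₁, PairL_inj] at h3
        rw [hm₂, PairL_inj] at h4
        right
        rw [h3.1, h3.2, h4.1, h4.2]
        exact ⟨rfl, rfl, rfl, rfl⟩
    · -- `γ u = u + t`
      have hpe : ∀ y y' : Pt C.W₂ Ω, γ • C.px u y = C.px u y' → γ • y = -y' := by
        intro y y' h1
        rw [hact, g1, C.px_eq_iff] at h1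
        rcases h1 with h1 | h1
        · exact absurd (left_eq_add.1 h1.1) ht
        · rw [h1.2, neg_neg]
      obtain ⟨k₁, hk₁⟩ := PairL_neg ha₁ ha₃ n₁
      obtain ⟨k₂, hk₂⟩ := PairL_neg ha₁ ha₃ n₂
      rw [g2]
      rcases h γ with ⟨h1, h2⟩ | ⟨h1, h2⟩
      · have h3 := hpe _ _ h1
        have h4 := hpe _ _ h2
        rw [hm₁, hk₁, PairL_inj] at h3
        rw [hm₂, hk₂, PairL_inj] at h4
        left
        rw [h3.1, h3.2, h4.1, h4.2]
        exact ⟨by ring, by ring, by ring, by ring⟩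
      · have h3 := hpe _ _ h1
        have h4 := hpe _ _ h2
        rw [hm₁, hk₂, PairL_inj] at h3
        rw [hm₂, hk₁, PairL_inj] at h4
        right
        rw [h3.1, h3.2, h4.1, h4.2]
        exact ⟨by ring, by ring, by ring, by ring⟩
  have hA : algebraMap K Ω (κ * algebraMap F K C.c₂) = r ^ 2 * algebraMap F Ω C.W₂.a₂ := by
    rw [map_mul, hκ, ← IsScalarTower.algebraMap_apply F K Ω]
    rfl
  have hB : algebraMap K Ω (κ ^ 2 * algebraMap F K C.c₁) = r ^ 4 * algebraMap F Ω C.W₂.a₄ := by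
    rw [map_mul, map_pow, hκ, ← IsScalarTower.algebraMap_apply F K Ω, ← pow_mul]
    rfl
  have hD : algebraMap K Ω (κ ^ 3 * algebraMap F K C.c₀) = r ^ 6 * algebraMap F Ω C.W₂.a₆ := by
    rw [map_mul, map_pow, hκ, ← IsScalarTower.algebraMap_apply F K Ω, ← pow_mul]
    rfl
  by_cases hsum : (Pt.aff w₁ v₁ n₁ + Pt.aff w₂ v₂ n₂ : Pt C.W₂ Ω) = 0
  · obtain ⟨n₁', hn₁'⟩ := PairL_neg ha₁ ha₃ n₁
    have h2 : (Pt.aff w₂ v₂ n₂ : Pt C.W₂ Ω) = Pt.aff w₁ (-v₁) n₁' := by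
      rw [← hn₁']
      exact eq_neg_of_add_eq_zero_right hsum
    have h3 := PairL_inj.1 h2
    have hfix : ∀ γ : Ω ≃ₐ[K] Ω, γ (r ^ 2 * w₁) = r ^ 2 * w₁ := by
      intro γ
      rcases hγ γ with h4 | h4
      · exact h4.1
      · rw [h4.1, h3.1]
    have hz := PairL_vert (K := K) (A := κ * algebraMap F K C.c₂) (B := κ ^ 2 * algebraMap F K C.c₁)
      (D := κ ^ 3 * algebraMap F K C.c₀) (x₁ := r ^ 2 * w₁) (y₁ := r ^ 3 * v₁)
      (by rw [hA, hB, hD]; linear_combination r ^ 6 * e₁) hfix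
    have key := fib C u r κ hr hκ hfib hz q hq hq'
    rw [← Finsupp.mapDomain.addMonoidHom_apply, map_sub, map_add] at key
    simp only [Finsupp.mapDomain.addMonoidHom_apply, Finsupp.mapDomain_single] at key
    rw [hqa _ _ w₁ v₁ n₁ rfl rfl, hqa _ _ w₁ (-v₁) n₁' rfl (by ring), ← h2, hq] at key
    rw [hsum]
    have h5 : (Finsupp.single (C.px u (0 : Pt C.W₂ Ω)) (1 : ℤ) + Finsupp.single (C.px u 0) 1) =
        Finsupp.single (C.px u 0) 2 := by
      rw [← Finsupp.single_add]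
      norm_num
    rw [h5]
    exact key
  · obtain ⟨s, hs, hs', hne, n₃, hadd⟩ := PairL_add ha₁ ha₃ n₁ n₂ hsum
    have hz := PairL_line (K := K) (A := κ * algebraMap F K C.c₂) (B := κ ^ 2 * algebraMap F K C.c₁)
      (D := κ ^ 3 * algebraMap F K C.c₀) (x₁ := r ^ 2 * w₁) (y₁ := r ^ 3 * v₁) (x₂ := r ^ 2 * w₂)
      (y₂ := r ^ 3 * v₂) (s := r * s) (by rw [hA, hB, hD]; linear_combination r ^ 6 * e₁)
      (by
        intro x hx
        rw [hA, hB, hD] at hx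
        rw [hA, hB]
        have h4 := PairL_sep (L := Ω) (W := C.W₂) ha₁ ha₃ (x := x / r ^ 2) (by
          field_simp
          linear_combination hx)
        intro h5
        apply h4
        field_simp
        linear_combination h5)
      (by linear_combination r ^ 3 * hs) (by rw [hA, hB]; linear_combination r ^ 4 * hs')
      (by
        rcases hne with h4 | h4
        · exact Or.inl fun h5 => h4 (mul_left_cancel₀ hr2 h5)
        · refine Or.inr ?_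
          rw [← mul_add]
          exact mul_ne_zero hr3 h4) hγ
    rw [hA] at hz
    have key := fib C u r κ hr hκ hfib hz q hq hq'
    rw [← Finsupp.mapDomain.addMonoidHom_apply, map_sub, map_sub, map_add] at key
    simp only [Finsupp.mapDomain.addMonoidHom_apply, Finsupp.mapDomain_single] at key
    rw [hqa _ _ w₁ v₁ n₁ rfl rfl, hqa _ _ w₂ v₂ n₂ rfl rfl, hqa _ _ _ _ n₃ (by ring) (by ring),
      ← hadd, hq, sub_sub, add_comm (Finsupp.single (C.px u 0) (1 : ℤ))] at key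
    exact key

end BE
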