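import Pool.Agent.Lib.MP_f80667_ag.Be.Gal
import Pool.Agent.Lib.MP_f80667_ag.Qb.Nrm
import Pool.Agent.Lib.MP_f80667_ag.Bx.Zeros

/-! Quadratic extensions `E = M(s)(ξ)` of a rational function field. -/

open ZC Polynomial

namespace BE

/-- `E = M(s)(ξ)`, `ξ² - T(s) ξ + N(s) = 0`, is a quadratic extension of `M(s)` with the automorphism `σ`. -/
structure Qd {M E : Type} [Field M] [Field E] [Algebra M E] (s ξ : E) (T N : M[X])
    (σ : E ≃ₐ[M] E) : Prop where
  ff : IsFunField M E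
  tr : Transcendental M s
  rank : Module.finrank (IntermediateField.adjoin M {s}) E = 2
  eq : ξ ^ 2 - aeval s T * ξ + aeval s N = 0
  sig_s : σ s = s
  sig_xi : σ ξ = aeval s T - ξ

/-- Proof: `E` is the quadratic extension of `RatFunc M` by the polynomial `X² - T X + N`, which has no root
because its discriminant is not a square (a square in `RatFunc M` which is a polynomial is the square of a
polynomial). -/
theorem exists_qd {M : Type} [Field M] [CharZero M] (T N : M[X])
    (h : ∀ r : M[X], r ^ 2 ≠ T ^ 2 - 4 * N) :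
    ∃ (E : Type) (_ : Field E) (_ : Algebra M E) (s ξ : E) (σ : E ≃ₐ[M] E), Qd s ξ T N σ := by
  classical
  let K := RatFunc M
  obtain ⟨t, ht⟩ : ∃ t : K, t = algebraMap M[X] K T := ⟨_, rfl⟩
  obtain ⟨n, hn⟩ : ∃ n : K, n = algebraMap M[X] K N := ⟨_, rfl⟩
  let q : K[X] := X ^ 2 - C t * X + C n
  have hq : q = X ^ 2 - C t * X + C n := rfl
  have hqd : q.natDegree = 2 := by
    rw [hq]
    compute_degree!
  have hqm : q.Monic := by
    rw [hq]
    monicity!
  have hinj : Function.Injective (algebraMap M[X] K) := FaithfulSMul.algebraMap_injective _ _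
  have hirr : Irreducible q := by
    rw [hqm.irreducible_iff_roots_eq_zero_of_degree_le_three (by omega) (by omega),
      Multiset.eq_zero_iff_forall_notMem]
    intro x hx
    have hx1 : x ^ 2 - t * x + n = 0 := by
      have h1 := (mem_roots'.1 hx).2
      rw [IsRoot, hq] at h1
      simpa using h1
    have hx2 : (2 * x - t) ^ 2 = algebraMap M[X] K (T ^ 2 - 4 * N) := by
      rw [map_sub, map_mul, map_pow, ← ht, ← hn, map_ofNat]
      linear_combination 4 * hx1
    have hint : IsIntegral M[X] (2 * x - t) := by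
      refine ⟨X ^ 2 - C (T ^ 2 - 4 * N), monic_X_pow_sub_C _ two_ne_zero, ?_⟩
      rw [eval₂_sub, eval₂_X_pow, eval₂_C, hx2, sub_self]
    obtain ⟨r, hr⟩ := IsIntegrallyClosed.isIntegral_iff.1 hint
    refine h r (hinj ?_)
    rw [map_pow, hr, hx2]
  have hfact : Fact (Irreducible q) := ⟨hirr⟩
  let E := AdjoinRoot q
  let s : E := algebraMap K E RatFunc.X
  let ξ : E := AdjoinRoot.root q
  have hξ : ξ ^ 2 - algebraMap K E t * ξ + algebraMap K E n = 0 := by
    have h1 : aeval ξ (X ^ 2 - C t * X + C n : K[X]) = 0 := by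
      change aeval ξ q = 0
      rw [AdjoinRoot.aeval_eq, AdjoinRoot.mk_self]
    simpa only [map_add, map_sub, map_mul, map_pow, aeval_X, aeval_C] using h1
  have haev : ∀ P : M[X], aeval s P = algebraMap K E (algebraMap M[X] K P) := by
    intro P
    rw [← RatFunc.aeval_X_left_eq_algebraMap, ← aeval_algebraMap_apply]
  have hroot : eval₂ (Algebra.ofId K E : K →+* E) (algebraMap K E t - ξ) q = 0 := by
    change eval₂ (Algebra.ofId K E : K →+* E) (algebraMap K E t - ξ)
      (X ^ 2 - C t * X + C n : K[X]) = 0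
    simp only [eval₂_add, eval₂_sub, eval₂_mul, eval₂_pow, eval₂_X, eval₂_C]
    change (algebraMap K E t - ξ) ^ 2 - algebraMap K E t * (algebraMap K E t - ξ) +
      algebraMap K E n = 0
    linear_combination hξ
  let σ₀ : E →ₐ[K] E := AdjoinRoot.liftAlgHom q (Algebra.ofId K E) (algebraMap K E t - ξ) hroot
  have hσ₀ : σ₀ ξ = algebraMap K E t - ξ := AdjoinRoot.liftAlgHom_root _ _ _ hroot
  have hinv : σ₀.comp σ₀ = AlgHom.id K E := by
    refine AdjoinRoot.algHom_ext ?_
    rw [AlgHom.comp_apply, AlgHom.id_apply]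
    change σ₀ (σ₀ ξ) = ξ
    rw [hσ₀, map_sub, AlgHom.commutes, hσ₀, sub_sub_cancel]
  let σ₁ : E ≃ₐ[K] E := AlgEquiv.ofAlgHom σ₀ σ₀ hinv hinv
  -- the base field
  let f : K →ₐ[M] E := IsScalarTower.toAlgHom M K E
  have hf : ∀ x : K, f x = algebraMap K E x := fun x => rfl
  have hA : IntermediateField.adjoin M {s} = (⊤ : IntermediateField M K).map f := by
    rw [← RatFunc.adjoin_X, IntermediateField.adjoin_map, Set.image_singleton]
    rfl
  have hrank : Module.finrank (IntermediateField.adjoin M {s}) E = 2 := by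
    have h1 : Module.finrank K E = 2 := by
      rw [(AdjoinRoot.powerBasis hirr.ne_zero).finrank, AdjoinRoot.powerBasis_dim, hqd]
    rw [← h1]
    symm
    let g : K →+* IntermediateField.adjoin M {s} :=
      (algebraMap K E).codRestrict (IntermediateField.adjoin M {s}).toSubfield (fun x => by
        change algebraMap K E x ∈ IntermediateField.adjoin M {s}
        rw [hA]
        exact ⟨x, Set.mem_univ _, rfl⟩)
    have hg : Function.Bijective g := by
      refine ⟨g.injective, fun y => ?_⟩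
      have h2 : (y : E) ∈ (⊤ : IntermediateField M K).map f := by
        rw [← hA]
        exact y.2
      obtain ⟨x, -, hx⟩ := h2
      exact ⟨x, Subtype.ext hx⟩
    exact Algebra.finrank_eq_of_equiv_equiv (RingEquiv.ofBijective g hg) (RingEquiv.refl E) rfl
  have htr : Transcendental M s := by
    have h1 : Transcendental M (RatFunc.X : K) := RatFunc.transcendental_X
    exact (transcendental_algebraMap_iff (algebraMap K E).injective).2 h1
  refine ⟨E, inferInstance, inferInstance, s, ξ, σ₁.restrictScalars M, ?_, htr, hrank, ?_, ?_, ?_⟩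
  · exact ⟨s, htr, Module.finite_of_finrank_pos (by rw [hrank]; norm_num)⟩
  · rw [haev, haev, ← ht, ← hn]
    exact hξ
  · exact σ₁.commutes _
  · rw [haev, ← ht]
    exact hσ₀

section places

variable {M E Ω : Type} [Field M] [CharZero M] [Field E] [Algebra M E] [Field Ω] [Algebra M Ω]
  [IsAlgClosed Ω] {s ξ : E} {T N : M[X]} {σ : E ≃ₐ[M] E}

/-- A positive order. -/
theorem qe_pos {w : Place M E Ω} {g : E} {m : ℤ} (h : w.IsOrd g m) (hg : g ∈ w.V.nonunits) :
    0 < m := by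
  obtain ⟨π, h1, h2, -, h4⟩ := Place.ord_aux h
  rw [ValuationSubring.mem_nonunits_iff, h4] at hg
  by_contra hm
  exact absurd hg (not_lt.2 (one_le_zpow_of_nonpos₀ (zero_lt_iff.2 h2) h1.le (not_lt.1 hm)))

/-- The value of a polynomial at a place. -/
theorem qe_res (w : Place M E Ω) {x : E} (hx : x ∈ w.V) (P : M[X]) :
    ∃ h : aeval x P ∈ w.V, w.res ⟨aeval x P, h⟩ = aeval (w.res ⟨x, hx⟩) P := by
  let c : M →+* w.V := (algebraMap M E).codRestrict w.V.toSubring w.mem
  have h1 : w.V.subtype (eval₂ c ⟨x, hx⟩ P) = aeval x P := by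
    rw [hom_eval₂]
    rfl
  have h2 : aeval x P ∈ w.V := by
    rw [← h1]
    exact Subtype.property _
  refine ⟨h2, ?_⟩
  have h3 : (⟨aeval x P, h2⟩ : w.V) = eval₂ c ⟨x, hx⟩ P := Subtype.ext h1.symm
  rw [h3, hom_eval₂, aeval_def]
  congr 1
  ext a
  exact w.res_k a

theorem qe_adj (s : E) (s₀ : M) : IntermediateField.adjoin M {s - algebraMap M E s₀} =
    IntermediateField.adjoin M {s} := by
  apply le_antisymm
  · rw [IntermediateField.adjoin_simple_le_iff]
    exact sub_mem (IntermediateField.mem_adjoin_simple_self M s)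
      (IntermediateField.algebraMap_mem _ _)
  · rw [IntermediateField.adjoin_simple_le_iff]
    have h1 : s = s - algebraMap M E s₀ + algebraMap M E s₀ := by ring
    rw [h1]
    refine add_mem ?_ (IntermediateField.algebraMap_mem _ _)
    rw [← h1]
    exact IntermediateField.mem_adjoin_simple_self M _

theorem qe_adj' (s : E) : IntermediateField.adjoin M {s⁻¹} = IntermediateField.adjoin M {s} := by
  apply le_antisymm
  · rw [IntermediateField.adjoin_simple_le_iff]
    exact inv_mem (IntermediateField.mem_adjoin_simple_self M s)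
  · rw [IntermediateField.adjoin_simple_le_iff]
    have h1 := inv_mem (IntermediateField.mem_adjoin_simple_self M s⁻¹)
    rwa [inv_inv] at h1

open Classical in
/-- The places over `s = s₀`. Proof: `exists_zeros` of `Bx/Zeros.lean` and `Dz.sum_zeros` (the sum of the
orders of `s - s₀` is `2`; `M(s) = M(s - s₀)`). `ξ` is integral over `M[s]`, so it is regular with value a
root of `X² - T(s₀) X + N(s₀)`. If `x₁ = x₂` this is all. If `x₁ ≠ x₂`: there is a place `w` in `S`; the
composite of `w` and `σ` (`Qb.cmp`) is in `S` and has the other root as value of `ξ`; both have positive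
order with sum at most `2`, so `S` has exactly these two elements, of order `1`. -/
theorem Qd.fib (h : Qd s ξ T N σ) (s₀ : M) (x₁ x₂ : Ω)
    (h₁ : x₁ + x₂ = aeval (algebraMap M Ω s₀) T) (h₂ : x₁ * x₂ = aeval (algebraMap M Ω s₀) N) :
    ∃ (S : Finset (Place M E Ω)) (m : Place M E Ω → ℤ) (p : Place M E Ω → Ω),
      (∀ w, w ∈ S ↔ s - algebraMap M E s₀ ∈ w.V.nonunits) ∧
      (∀ w ∈ S, w.IsOrd (s - algebraMap M E s₀) (m w) ∧ 0 < m w ∧
        ∃ h : ξ ∈ w.V, w.res ⟨ξ, h⟩ = p w) ∧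
      ∑ w ∈ S, Finsupp.single (p w) (m w) = Finsupp.single x₁ 1 + Finsupp.single x₂ 1 := by
  have htr : Transcendental M (s - algebraMap M E s₀) := by
    intro hal
    apply h.tr
    have h1 : s = s - algebraMap M E s₀ + algebraMap M E s₀ := by ring
    rw [h1]
    exact hal.add (isAlgebraic_algebraMap _)
  obtain ⟨S, m, hS, hm⟩ := Bx.exists_zeros (Ω := Ω) h.ff htr
  have hsum := Dz.sum_zeros h.ff htr S m hS hm
  rw [qe_adj, h.rank] at hsum
  -- the values
  have hsV : ∀ w ∈ S, ∃ hs : s ∈ w.V, w.res ⟨s, hs⟩ = algebraMap M Ω s₀ := by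
    intro w hw
    have h1 := (hS w).1 hw
    have h2 := w.V.nonunits_subset h1
    have h3 : s ∈ w.V := by
      have h4 := add_mem h2 (w.mem s₀)
      rwa [sub_add_cancel] at h4
    refine ⟨h3, ?_⟩
    have h5 := (Fa.res_eq_zero_iff w ⟨s - algebraMap M E s₀, h2⟩).2 h1
    have h6 : (⟨s, h3⟩ : w.V) = ⟨s - algebraMap M E s₀, h2⟩ + ⟨algebraMap M E s₀, w.mem s₀⟩ :=
      Subtype.ext (sub_add_cancel _ _).symm
    rw [h6, map_add, h5, zero_add, w.res_k]
  have hval : ∀ w ∈ S, ∃ hξ : ξ ∈ w.V, (w.res ⟨ξ, hξ⟩ - x₁) * (w.res ⟨ξ, hξ⟩ - x₂) = 0 ∧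
      ∃ hξ' : ξ ∈ (Qb.cmp σ w).V, (Qb.cmp σ w).res ⟨ξ, hξ'⟩ = x₁ + x₂ - w.res ⟨ξ, hξ⟩ := by
    intro w hw
    obtain ⟨hs, hs'⟩ := hsV w hw
    obtain ⟨hT, hT'⟩ := qe_res w hs T
    obtain ⟨hN, hN'⟩ := qe_res w hs N
    rw [hs', ← h₁] at hT'
    rw [hs', ← h₂] at hN'
    have hξ : ξ ∈ w.V := by
      rcases w.V.mem_or_inv_mem ξ with h1 | h1
      · exact h1
      · by_cases hξ0 : ξ = 0
        · rw [hξ0]
          exact w.V.zero_mem
        have h2 : ξ = aeval s T - aeval s N * ξ⁻¹ := by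
          have h3 := h.eq
          field_simp
          linear_combination h3
        rw [h2]
        exact sub_mem hT (mul_mem hN h1)
    refine ⟨hξ, ?_, ?_⟩
    · have h1 : (⟨ξ, hξ⟩ : w.V) ^ 2 - ⟨aeval s T, hT⟩ * ⟨ξ, hξ⟩ + ⟨aeval s N, hN⟩ = 0 :=
        Subtype.ext h.eq
      have h2 := congrArg w.res h1
      rw [map_add, map_sub, map_mul, map_pow, hT', hN', map_zero] at h2
      linear_combination h2
    · have h1 : σ ξ ∈ w.V := by
        rw [h.sig_xi]
        exact sub_mem hT hξ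
      refine ⟨h1, ?_⟩
      change w.res ⟨σ ξ, h1⟩ = _
      have h2 : (⟨σ ξ, h1⟩ : w.V) = ⟨aeval s T, hT⟩ - ⟨ξ, hξ⟩ := Subtype.ext h.sig_xi
      rw [h2, map_sub, hT']
  let p : Place M E Ω → Ω := fun w => if hξ : ξ ∈ w.V then w.res ⟨ξ, hξ⟩ else 0
  have hp : ∀ w, ∀ hξ : ξ ∈ w.V, w.res ⟨ξ, hξ⟩ = p w := by
    intro w hξ
    simp only [p, dif_pos hξ]
  have hpos : ∀ w ∈ S, 0 < m w := fun w hw => qe_pos (hm w hw) ((hS w).1 hw)
  refine ⟨S, m, p, hS, fun w hw => ⟨hm w hw, hpos w hw, ?_⟩, ?_⟩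
  · obtain ⟨hξ, -, -⟩ := hval w hw
    exact ⟨hξ, hp w hξ⟩
  have hpx : ∀ w ∈ S, p w = x₁ ∨ p w = x₂ := by
    intro w hw
    obtain ⟨hξ, h1, -⟩ := hval w hw
    rw [hp w hξ] at h1
    rcases mul_eq_zero.1 h1 with h2 | h2
    · exact Or.inl (sub_eq_zero.1 h2)
    · exact Or.inr (sub_eq_zero.1 h2)
  by_cases hx : x₁ = x₂
  · have h1 : ∀ w ∈ S, Finsupp.single (p w) (m w) = Finsupp.single x₁ (m w) := by
      intro w hw
      rcases hpx w hw with h2 | h2
      · rw [h2]
      · rw [h2, hx]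
    rw [Finset.sum_congr rfl h1, ← Finsupp.single_finset_sum, hsum, ← hx,
      ← Finsupp.single_add]
    rfl
  · -- the conjugate place
    have hcj : ∀ w ∈ S, Qb.cmp σ w ∈ S ∧ p (Qb.cmp σ w) = x₁ + x₂ - p w := by
      intro w hw
      obtain ⟨hξ, -, hξ', h1⟩ := hval w hw
      refine ⟨?_, ?_⟩
      · rw [hS, Qb.nonunits_cmp, map_sub, h.sig_s, AlgEquiv.commutes]
        exact (hS w).1 hw
      · rw [← hp _ hξ', h1, hp w hξ]
    have hne : S.Nonempty := by
      rw [Finset.nonempty_iff_ne_empty]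
      rintro rfl
      rw [Finset.sum_empty] at hsum
      norm_num at hsum
    obtain ⟨w₁, w₂, hw₁, hw₂, hp₁, hp₂⟩ : ∃ w₁ w₂, w₁ ∈ S ∧ w₂ ∈ S ∧ p w₁ = x₁ ∧ p w₂ = x₂ := by
      obtain ⟨w, hw⟩ := hne
      obtain ⟨h1, h2⟩ := hcj w hw
      rcases hpx w hw with h3 | h3
      · exact ⟨w, Qb.cmp σ w, hw, h1, h3, by rw [h2, h3]; ring⟩
      · exact ⟨Qb.cmp σ w, w, h1, hw, by rw [h2, h3]; ring, h3⟩
    have hw12 : w₁ ≠ w₂ := by
      rintro rfl
      exact hx (hp₁.symm.trans hp₂)
    have hsub : ({w₁, w₂} : Finset (Place M E Ω)) ⊆ S := by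
      intro w hw
      rcases Finset.mem_insert.1 hw with rfl | hw
      · exact hw₁
      · rw [Finset.mem_singleton.1 hw]
        exact hw₂
    have hge : m w₁ + m w₂ + ((S \ {w₁, w₂}).card : ℤ) ≤ 2 := by
      have h1 := Finset.sum_sdiff hsub (f := m)
      rw [hsum, Finset.sum_pair hw12] at h1
      have h2 : ((S \ {w₁, w₂}).card : ℤ) ≤ ∑ w ∈ S \ {w₁, w₂}, m w := by
        rw [Finset.card_eq_sum_ones, Nat.cast_sum]
        refine Finset.sum_le_sum fun w hw => ?_
        have h3 := hpos w (Finset.mem_sdiff.1 hw).1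
        push_cast
        omega
      push_cast at h1
      omega
    have h1 := hpos w₁ hw₁
    have h2 := hpos w₂ hw₂
    have h3 : (S \ {w₁, w₂}).card = 0 := by omega
    have h4 : S = {w₁, w₂} := by
      refine le_antisymm ?_ hsub
      rw [Finset.card_eq_zero, Finset.sdiff_eq_empty_iff_subset] at h3
      exact h3
    rw [h4, Finset.sum_pair hw12, hp₁, hp₂, show m w₁ = 1 by omega, show m w₂ = 1 by omega]

/-- The places over `s = ∞`. Proof: the same for `s⁻¹`. -/
theorem Qd.inf (h : Qd s ξ T N σ) :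
    ∃ (S : Finset (Place M E Ω)) (m : Place M E Ω → ℤ), (∀ w, w ∈ S ↔ s ∉ w.V) ∧
      (∀ w ∈ S, w.IsOrd s (- m w) ∧ 0 < m w) ∧ ∑ w ∈ S, m w = 2 ∧
      ∀ w ∈ S, Qb.cmp σ w ∈ S := by
  have htr : Transcendental M s⁻¹ := by
    intro hal
    apply h.tr
    have h1 := hal.inv
    rwa [inv_inv] at h1
  have hs0 : s ≠ 0 := by
    rintro rfl
    exact h.tr (isAlgebraic_zero)
  obtain ⟨S, m, hS, hm⟩ := Bx.exists_zeros (Ω := Ω) h.ff htr
  have hsum := Dz.sum_zeros h.ff htr S m hS hm
  rw [qe_adj', h.rank] at hsum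
  have hS' : ∀ w, w ∈ S ↔ s ∉ w.V := by
    intro w
    rw [hS, ValuationSubring.mem_nonunits_iff_or, inv_inv]
    constructor
    · rintro (h1 | h1)
      · exact absurd h1 (inv_ne_zero hs0)
      · exact h1
    · intro h1
      exact Or.inr h1
  refine ⟨S, m, hS', fun w hw => ⟨?_, qe_pos (hm w hw) ((hS w).1 hw)⟩, ?_, fun w hw => ?_⟩
  · have h1 := Dz.ord_inv (hm w hw)
    rwa [inv_inv] at h1
  · rw [hsum]
    rfl
  · rw [hS', Qb.mem_cmp, h.sig_s]
    exact (hS' w).1 hw

end places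

end BE
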