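import Pool.Agent.Lib.MP_f80667_ag.Be.St
import Pool.Agent.Lib.MP_f80667_ag.Be.Hat
import Pool.Agent.Lib.MP_f80667_ag.Be.Ex

/-! The theorems in terms of the definitions of `St.lean`. -/

open ZC Polynomial IsDedekindDomain NumberField

namespace BE

section loc

variable {F : Type} [Field F] {V : Vr F} {K : Type} [Field K] [Algebra F K]

theorem Zc.cl_eq {z z' : Zc V K} : z.cl = z'.cl ↔ Eqv V K z.cy z'.cy := Gp.cls_eq

theorem Zc.clN_eq {z z' : Zc V K} : z.clN = z'.clN ↔ EqvN V K z.cy z'.cy := Gb.cls_eq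

theorem Zc.cl_zero {z : Zc V K} : z.cl = 0 ↔ Eqv V K z.cy 0 := by
  rw [← map_zero (Gp.clsH V K)]
  exact Gp.cls_eq

theorem Zc.clN_zero {z : Zc V K} : z.clN = 0 ↔ EqvN V K z.cy 0 := by
  rw [← map_zero (Gb.clsH V K)]
  exact Gb.cls_eq

theorem loc_of (C : Cf F)
    (h1 : ∀ z ∈ C.X.cyc K (AlgebraicClosure K),
      Eqv C.B K (Finsupp.mapDomain (C.pr _) z) 0 → ∃ y : Pt C.W₂ K, Eqv C.X K z (C.fc K y))
    (h2 : ∀ y : Pt C.W₂ K, Eqv C.X K (2 • C.fc K y) 0)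
    (h3 : ∀ y y' : Pt C.W₂ K, Eqv C.X K (C.fc K (y + y')) (C.fc K y + C.fc K y')) : C.Loc K := by
  refine ⟨fun z hz => ?_, fun y => ?_, fun y y' => ?_⟩
  · obtain ⟨y, hy⟩ := h1 z.cy z.2.1 (Zc.cl_zero.1 hz)
    exact ⟨y, Zc.cl_eq.2 hy⟩
  · have h4 : Gp.clsH C.X K (2 • (⟨C.fc K y, fz_mem C K y⟩ : Dz C.X K)) = 0 := Zc.cl_zero.2 (h2 y)
    rw [map_nsmul] at h4
    exact h4
  · have h4 : Gp.clsH C.X K (⟨C.fc K (y + y'), fz_mem C K (y + y')⟩ : Dz C.X K) =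
      Gp.clsH C.X K ((⟨C.fc K y, fz_mem C K y⟩ : Dz C.X K) + (⟨C.fc K y', fz_mem C K y'⟩ : Dz C.X K)) := Gp.cls_eq.2 (h3 y y')
    rw [map_add] at h4
    exact h4

theorem locN_of (C : Cf F)
    (h1 : ∀ z ∈ C.X.cyc K (AlgebraicClosure K),
      EqvN C.B K (Finsupp.mapDomain (C.pr _) z) 0 → ∃ y : Pt C.W₂ K, EqvN C.X K z (C.fc K y))
    (h2 : ∀ y : Pt C.W₂ K, EqvN C.X K (2 • C.fc K y) 0)
    (h3 : ∀ y y' : Pt C.W₂ K, EqvN C.X K (C.fc K (y + y')) (C.fc K y + C.fc K y')) : C.LocN K := by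
  refine ⟨fun z hz => ?_, fun y => ?_, fun y y' => ?_⟩
  · obtain ⟨y, hy⟩ := h1 z.cy z.2.1 (Zc.clN_zero.1 hz)
    exact ⟨y, Zc.clN_eq.2 hy⟩
  · have h4 : Gb.clsH C.X K (2 • (⟨C.fc K y, fz_mem C K y⟩ : Dz C.X K)) = 0 := Zc.clN_zero.2 (h2 y)
    rw [map_nsmul] at h4
    exact h4
  · have h4 : Gb.clsH C.X K (⟨C.fc K (y + y'), fz_mem C K (y + y')⟩ : Dz C.X K) =
      Gb.clsH C.X K ((⟨C.fc K y, fz_mem C K y⟩ : Dz C.X K) + (⟨C.fc K y', fz_mem C K y'⟩ : Dz C.X K)) := Gb.cls_eq.2 (h3 y y')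
    rw [map_add] at h4
    exact h4

end loc

section nf

variable {F : Type} [Field F] [NumberField F] (C : Cf F)

theorem Fam.cl_eq {V : Vr F} {z z' : Fam V} : z.cl = z'.cl ↔
    (∀ v, Eqv V (FK F v) (z.f v).cy (z'.f v).cy) ∧ ∀ v, EqvN V (IK F v) (z.i v).cy (z'.i v).cy :=
  clA_eq (c := z) (c' := z')

theorem ker_of {z : Fam C.X} (h : (C.psA z).cl = 0) : C.Ker z :=
  ⟨fun v => Zc.cl_zero.1 (congrFun (congrArg Prod.fst h) v),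
    fun v => Zc.clN_zero.1 (congrFun (congrArg Prod.snd h) v)⟩

theorem orth_of {z : Fam C.X} : C.Orth z ↔ C.Ort z := Iff.rfl

theorem eqvA_of {z z' : Fam C.X} (h : C.EqvA z z') : z'.cl = z.cl := (Fam.cl_eq.2 h).symm

theorem sel_of (h : C.Slm) : C.Sel := by
  rintro c₀ ⟨h1, h2, h3⟩
  choose y₁ hy₁ using h2
  choose y₂ hy₂ using h3
  exact h c₀ (y₁, y₂) h1 ⟨hy₁, hy₂⟩

theorem slm_of (h : C.Sel) : C.Slm := fun c₀ y h1 h2 =>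
  h c₀ ⟨h1, fun v => ⟨_, h2.1 v⟩, fun v => ⟨_, h2.2 v⟩⟩

/-- The Albanese kernel: the Selmer group. -/
theorem st_sel (h : C.Ok) (z : Fam C.X) (hz : (C.psA z).cl = 0)
    (ho : ∀ z' : Fam C.X, z'.cl = z.cl → C.Ort z') :
    ∃ (c₀ : F[X]) (y : C.PtA), IsCoprime c₀ C.g ∧ C.DlA c₀ y ∧ z.cl = (C.fzA y).cl := by
  obtain ⟨c₀, y₁, y₂, h1, h2, h3, h4, h5⟩ := ker_sel C h z (ker_of C hz)
    fun z' hz' => orth_of C |>.2 (ho z' (eqvA_of C hz'))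
  exact ⟨c₀, (y₁, y₂), h1, ⟨h2, h3⟩, Fam.cl_eq.2 ⟨h4, h5⟩⟩

/-- The Albanese kernel: one point. -/
theorem st_glob (h : C.Ok) (hS : C.Slm) (z : Fam C.X) (hz : (C.psA z).cl = 0)
    (ho : ∀ z' : Fam C.X, z'.cl = z.cl → C.Ort z') :
    ∃ y : Pt C.W₂ F, z.cl = (C.fzA (C.dgP y)).cl := by
  obtain ⟨y, h1, h2⟩ := ker_glob C h (sel_of C hS) z (ker_of C hz)
    fun z' hz' => orth_of C |>.2 (ho z' (eqvA_of C hz'))
  exact ⟨y, Fam.cl_eq.2 ⟨h1, h2⟩⟩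

theorem imD_of {V : Vr F} {z : LHat (FA V)} : ImD z ↔ ImDe z := Iff.rfl

/-- The completion. -/
theorem st_hat (h : C.Ok) (hS : C.Slm) (z : LHat (FA C.X)) (z' : LHat (FA C.B))
    (hz : C.IsPs z z') (hz' : ImDe z') (ho : ∀ c : Fam C.X, z.Rep 2 c.cl → C.Ort c) : ImDe z := by
  refine imD_of.1 (hat C h (sel_of C hS) z z' ?_ (imD_of.2 hz') fun c hc =>
    (orth_of C).2 (ho c hc))
  intro m c c' hc hr
  have h1 : C.psA c = c' := Prod.ext (funext fun v => Subtype.ext (hc.1 v).symm)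
    (funext fun v => Subtype.ext (hc.2 v).symm)
  rw [← h1]
  exact hz m c hr

end nf

end BE
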