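import Pool.Agent.Lib.MP_f80667_ag.Be.Lf
import Pool.Agent.Lib.MP_f80667_ag.Be.Nq

/-! The index of `2 O` in the ring of integers `O` of a finite extension of a local field. -/

open ZC Polynomial IntermediateField

namespace BE

variable {K Ω : Type} [Field K] [Field Ω] [Algebra K Ω] (L : Lf K Ω)

/-- The elements of `M` with norm at most `r` (for `r ≥ 0`; otherwise `{0}`). -/
def Bl (L : Lf K Ω) (M : IntermediateField K Ω) (r : ℝ) : AddSubgroup Ω where
  carrier := {x | x = 0 ∨ (x ∈ M ∧ L.nm x ≤ r)}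
  zero_mem' := Or.inl rfl
  add_mem' := by
    rintro a b (rfl | ⟨ha, ha'⟩) (rfl | ⟨hb, hb'⟩)
    · exact Or.inl (add_zero 0)
    · exact Or.inr ⟨by rwa [zero_add], by rwa [zero_add]⟩
    · exact Or.inr ⟨by rwa [add_zero], by rwa [add_zero]⟩
    · exact Or.inr ⟨add_mem ha hb, (L.add a b).trans (max_le ha' hb')⟩
  neg_mem' := by
    rintro a (rfl | ⟨ha, ha'⟩)
    · exact Or.inl neg_zero
    · exact Or.inr ⟨neg_mem ha, by rwa [L.neg]⟩

/-- The index of `2 O` in `O`. -/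
noncomputable def cO (L : Lf K Ω) (M : IntermediateField K Ω) : ℕ :=
  (Bl L M (L.nm 2)).relIndex (Bl L M 1)

section aux

variable {L}

private theorem mem_bl {M : IntermediateField K Ω} {r : ℝ} (hr : 0 ≤ r) {x : Ω} :
    x ∈ Bl L M r ↔ x ∈ M ∧ L.nm x ≤ r := by
  constructor
  · rintro (rfl | h)
    · exact ⟨M.zero_mem, by rwa [(L.zero_iff 0).2 rfl]⟩
    · exact h
  · exact fun h => Or.inr h

private theorem bl_mono {M : IntermediateField K Ω} {r r' : ℝ} (h : r ≤ r') :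
    Bl L M r ≤ Bl L M r' := by
  rintro x (rfl | ⟨hx, hx'⟩)
  · exact Or.inl rfl
  · exact Or.inr ⟨hx, hx'.trans h⟩

/-- A finite set of representatives. -/
private theorem fin_index (H G : AddSubgroup Ω) (S : Finset Ω)
    (h : ∀ x ∈ G, ∃ s ∈ S, x - s ∈ H) : H.relIndex G ≠ 0 := by
  classical
  have h1 : ∀ q : G ⧸ H.addSubgroupOf G, ∃ s : S, (q.out : Ω) - s ∈ H := fun q => by
    obtain ⟨s, hs, h2⟩ := h q.out q.out.2
    exact ⟨⟨s, hs⟩, h2⟩
  choose f hf using h1
  have hinj : Function.Injective f := by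
    intro a b hab
    rw [← QuotientAddGroup.out_eq' a, ← QuotientAddGroup.out_eq' b, QuotientAddGroup.eq,
      AddSubgroup.mem_addSubgroupOf]
    have h2 := hf a
    have h3 := hf b
    rw [hab] at h2
    have h4 := H.sub_mem h3 h2
    rw [sub_sub_sub_cancel_right] at h4
    rw [AddSubgroup.coe_add, AddSubgroup.coe_neg, neg_add_eq_sub]
    exact h4
  have : Finite (G ⧸ H.addSubgroupOf G) := Finite.of_injective f hinj
  exact AddSubgroup.index_ne_zero_of_finite

/-- Multiplication by a scalar. -/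
private theorem bl_map {M : IntermediateField K Ω} {c : Ω} (hc : c ∈ M) (h0 : c ≠ 0) {r : ℝ}
    (hr : 0 ≤ r) : (Bl L M r).map (AddMonoidHom.mulLeft c) = Bl L M (r * L.nm c) := by
  have hp := L.pos h0
  ext x
  rw [AddSubgroup.mem_map, mem_bl (mul_nonneg hr hp.le)]
  constructor
  · rintro ⟨y, hy, rfl⟩
    rw [mem_bl hr] at hy
    change c * y ∈ M ∧ L.nm (c * y) ≤ _
    refine ⟨M.mul_mem hc hy.1, ?_⟩
    rw [L.mul, mul_comm]
    exact mul_le_mul_of_nonneg_right hy.2 hp.le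
  · rintro ⟨hx, hx'⟩
    refine ⟨x / c, (mem_bl hr).2 ⟨M.div_mem hx hc, ?_⟩, ?_⟩
    · rw [L.div, div_le_iff₀ hp]
      exact hx'
    · change c * (x / c) = x
      field_simp

private theorem mul_inj' {c : Ω} (h0 : c ≠ 0) :
    Function.Injective (AddMonoidHom.mulLeft c : Ω →+ Ω) :=
  mul_right_injective₀ h0

private theorem bl_scale' {M : IntermediateField K Ω} {c : Ω} (hc : c ∈ M) (h0 : c ≠ 0) {r r' : ℝ}
    (hr : 0 ≤ r) (hr' : 0 ≤ r') :
    (Bl L M (r * L.nm c)).relIndex (Bl L M (r' * L.nm c)) = (Bl L M r).relIndex (Bl L M r') := by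
  rw [← bl_map hc h0 hr, ← bl_map hc h0 hr']
  exact AddSubgroup.relIndex_map_map_of_injective _ _ (mul_inj' h0)

private theorem bl_pow {M : IntermediateField K Ω} [FiniteDimensional K M] {π : Ω} (hπ : π ∈ M)
    (h0 : 0 < L.nm π) (h1 : L.nm π < 1) (h2 : ∀ x ∈ M, x ≠ 0 → ∃ n : ℤ, L.nm x = L.nm π ^ n)
    (n : ℕ) : (Bl L M (L.nm π ^ n)).relIndex (Bl L M 1) ≠ 0 := by
  have hπ0 := L.ne_zero h0
  have step : (Bl L M (L.nm π)).relIndex (Bl L M 1) ≠ 0 := by
    obtain ⟨S, hS, h3⟩ := L.fin M inferInstance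
    refine fin_index _ _ S fun x hx => ?_
    rw [mem_bl zero_le_one] at hx
    obtain ⟨s, hs, h4⟩ := h3 x hx.1 hx.2
    refine ⟨s, hs, ?_⟩
    by_cases h5 : x - s = 0
    · exact Or.inl h5
    · have h6 : x - s ∈ M := M.sub_mem hx.1 (hS s hs).1
      obtain ⟨k, hk⟩ := h2 _ h6 h5
      refine Or.inr ⟨h6, ?_⟩
      rw [hk] at h4 ⊢
      have hk1 : 0 < k := by
        by_contra hk1
        rw [not_lt] at hk1
        exact absurd h4 (not_lt.2 (one_le_zpow_of_nonpos₀ h0 h1.le hk1))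
      calc L.nm π ^ k ≤ L.nm π ^ (1 : ℤ) :=
            zpow_le_zpow_right_of_le_one₀ h0 h1.le (by omega)
        _ = L.nm π := zpow_one _
  induction n with
  | zero =>
    rw [pow_zero, AddSubgroup.relIndex_self]
    exact one_ne_zero
  | succ n ih =>
    refine AddSubgroup.relIndex_ne_zero_trans (K := Bl L M (L.nm π ^ n)) ?_ ih
    have h3 := bl_scale' (L := L) (pow_mem hπ n) (pow_ne_zero n hπ0) h0.le zero_le_one
    rw [L.pow, one_mul, ← pow_succ'] at h3
    rw [h3]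
    exact step

end aux

variable [CharZero K]

/-- Balls have finite index in each other. Proof: `Lf.unif`, `Lf.fin`: the index of the ball of radius `‖π‖^(n+1)` in that of radius `‖π‖^n` is finite. -/
theorem bl_index {M : IntermediateField K Ω} [FiniteDimensional K M] {r r' : ℝ} (h : 0 < r) :
    (Bl L M r).relIndex (Bl L M r') ≠ 0 := by
  obtain ⟨π, hπ, h0, h1, h2⟩ := L.unif M inferInstance
  have hπ0 := L.ne_zero h0
  -- `r' ≤ ‖π‖^(-m)`
  obtain ⟨m, hm⟩ : ∃ m : ℕ, r' ≤ (L.nm π)⁻¹ ^ m := by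
    obtain ⟨m, hm⟩ := pow_unbounded_of_one_lt r' ((one_lt_inv₀ h0).2 h1)
    exact ⟨m, hm.le⟩
  obtain ⟨n, hn⟩ : ∃ n : ℕ, L.nm π ^ n < r * L.nm π ^ m :=
    exists_pow_lt_of_lt_one (mul_pos h (pow_pos h0 m)) h1
  have h3 : (Bl L M (r * L.nm (π ^ m))).relIndex (Bl L M 1) ≠ 0 := by
    intro h4
    refine bl_pow hπ h0 h1 h2 n (AddSubgroup.relIndex_eq_zero_of_le_left (bl_mono ?_) h4)
    rw [L.pow]
    exact hn.le
  have h4 : (Bl L M (r * L.nm (π ^ m))).relIndex (Bl L M ((L.nm π)⁻¹ ^ m * L.nm (π ^ m))) ≠ 0 := by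
    rwa [L.pow, ← mul_pow, inv_mul_cancel₀ h0.ne', one_pow, ← L.pow]
  rw [bl_scale' (pow_mem hπ m) (pow_ne_zero m hπ0) h.le (pow_nonneg (inv_nonneg.2 h0.le) m)] at h4
  intro h5
  exact h4 (AddSubgroup.relIndex_eq_zero_of_le_right (bl_mono hm) h5)

/-- Scaling: the index of `2 Λ` in `Λ` is `cO` for the ball `Λ` of radius `‖c‖`. -/
theorem bl_scale {M : IntermediateField K Ω} [FiniteDimensional K M] {c : Ω} (hc : c ∈ M)
    (h0 : c ≠ 0) : (Bl L M (L.nm 2 * L.nm c)).relIndex (Bl L M (L.nm c)) = cO L M := by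
  have h1 := bl_scale' (L := L) hc h0 (L.nonneg 2) zero_le_one
  rwa [one_mul] at h1

section quad

variable {L}

/-- The lattice `O + O s`. -/
private def La (L : Lf K Ω) (M : IntermediateField K Ω) (s : Ω) (r : ℝ) : AddSubgroup Ω :=
  (Bl L M r) ⊔ (Bl L M r).map (AddMonoidHom.mulRight s)

omit [CharZero K] in
private theorem mem_la {M : IntermediateField K Ω} {s : Ω} {r : ℝ} (hr : 0 ≤ r) {x : Ω} :
    x ∈ La L M s r ↔ ∃ p ∈ M, ∃ q ∈ M, L.nm p ≤ r ∧ L.nm q ≤ r ∧ x = p + q * s := by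
  rw [La, AddSubgroup.mem_sup]
  constructor
  · rintro ⟨p, hp, _, ⟨q, hq, rfl⟩, rfl⟩
    rw [mem_bl hr] at hp
    have hq' := (mem_bl hr).1 hq
    exact ⟨p, hp.1, q, hq'.1, hp.2, hq'.2, rfl⟩
  · rintro ⟨p, hp, q, hq, hp', hq', rfl⟩
    exact ⟨p, (mem_bl hr).2 ⟨hp, hp'⟩, q * s, ⟨q, (mem_bl hr).2 ⟨hq, hq'⟩, rfl⟩, rfl⟩

omit [CharZero K] in
private theorem relIndex_prod' {A B : Type} [AddCommGroup A] [AddCommGroup B]
    (H K : AddSubgroup A) (H' K' : AddSubgroup B) :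
    (H.prod H').relIndex (K.prod K') = H.relIndex K * H'.relIndex K' := by
  have h1 : ((H.prod H').addSubgroupOf (K.prod K')).map
      ((AddSubgroup.prodEquiv K K' : K.prod K' ≃+ K × K') : K.prod K' →+ K × K') =
      (H.addSubgroupOf K).prod (H'.addSubgroupOf K') := by
    ext ⟨a, b⟩
    rw [AddSubgroup.mem_map, AddSubgroup.mem_prod, AddSubgroup.mem_addSubgroupOf,
      AddSubgroup.mem_addSubgroupOf]
    constructor
    · rintro ⟨⟨⟨x, y⟩, hxy⟩, h2, h3⟩
      rw [AddSubgroup.mem_addSubgroupOf] at h2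
      have h4 := congrArg Prod.fst h3
      have h5 := congrArg Prod.snd h3
      change (⟨x, _⟩ : K) = a at h4
      change (⟨y, _⟩ : K') = b at h5
      subst h4 h5
      exact h2
    · rintro ⟨h2, h3⟩
      refine ⟨⟨(a, b), a.2, b.2⟩, ?_, rfl⟩
      rw [AddSubgroup.mem_addSubgroupOf]
      exact ⟨h2, h3⟩
  rw [AddSubgroup.relIndex, ← AddSubgroup.index_map_equiv _ (AddSubgroup.prodEquiv K K'), h1,
    AddSubgroup.index_prod]
  rfl

omit [CharZero K] in
/-- The index of `2 Λ` in `Λ`. -/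
private theorem la_index {M : IntermediateField K Ω} {s : Ω} (hn : s ∉ M) :
    (La L M s (L.nm 2)).relIndex (La L M s 1) = cO L M ^ 2 := by
  obtain ⟨i, hi⟩ : ∃ i : M →+ Ω, ∀ x, i x = x := ⟨M.val.toRingHom.toAddMonoidHom, fun _ => rfl⟩
  have hinj : Function.Injective i := by
    intro a b hab
    rw [hi, hi] at hab
    exact Subtype.ext hab
  obtain ⟨f, hf⟩ : ∃ f : M × M →+ Ω, ∀ x, f x = (x.1 : Ω) + x.2 * s :=
    ⟨(i.comp (AddMonoidHom.fst M M)) +
      ((AddMonoidHom.mulRight s).comp (i.comp (AddMonoidHom.snd M M))), fun x => by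
        change i x.1 + i x.2 * s = _
        rw [hi, hi]⟩
  have hfinj : Function.Injective f := by
    rw [injective_iff_map_eq_zero]
    rintro ⟨a, b⟩ hab
    rw [hf] at hab
    change (a : Ω) + b * s = 0 at hab
    by_cases hb : (b : Ω) = 0
    · rw [hb, zero_mul, add_zero] at hab
      exact Prod.ext (Subtype.ext hab) (Subtype.ext hb)
    · exfalso
      apply hn
      have h1 : s = -(a : Ω) / b := by
        rw [eq_div_iff hb]
        linear_combination hab
      rw [h1]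
      exact M.div_mem (M.neg_mem a.2) b.2
  have h1 : ∀ r : ℝ, 0 ≤ r → Bl L M r = ((Bl L M r).comap i).map i := by
    intro r hr
    ext x
    rw [AddSubgroup.mem_map]
    constructor
    · intro hx
      exact ⟨⟨x, ((mem_bl hr).1 hx).1⟩, by rw [AddSubgroup.mem_comap, hi]; exact hx, hi _⟩
    · rintro ⟨y, hy, rfl⟩
      exact hy
  have h2 : ∀ r : ℝ, 0 ≤ r →
      La L M s r = (((Bl L M r).comap i).prod ((Bl L M r).comap i)).map f := by
    intro r hr
    ext x
    rw [AddSubgroup.mem_map, mem_la hr]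
    constructor
    · rintro ⟨p, hp, q, hq, hp', hq', rfl⟩
      refine ⟨(⟨p, hp⟩, ⟨q, hq⟩), ⟨?_, ?_⟩, hf _⟩
      · change i _ ∈ Bl L M r
        rw [hi, mem_bl hr]
        exact ⟨hp, hp'⟩
      · change i _ ∈ Bl L M r
        rw [hi, mem_bl hr]
        exact ⟨hq, hq'⟩
    · rintro ⟨⟨p, q⟩, ⟨h3, h4⟩, rfl⟩
      change i p ∈ Bl L M r at h3
      change i q ∈ Bl L M r at h4
      rw [hi, mem_bl hr] at h3 h4
      exact ⟨p, h3.1, q, h4.1, h3.2, h4.2, hf _⟩
  rw [h2 _ (L.nonneg 2), h2 _ zero_le_one, AddSubgroup.relIndex_map_map_of_injective _ _ hfinj,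
    relIndex_prod', cO, h1 _ (L.nonneg 2), h1 _ zero_le_one,
    AddSubgroup.relIndex_map_map_of_injective _ _ hinj, ← h1 _ (L.nonneg 2), ← h1 _ zero_le_one,
    sq]

omit [CharZero K] in
/-- The trace of an integral element is integral. -/
private theorem tr_le {M : IntermediateField K Ω} [FiniteDimensional K M] {s : Ω}
    (hs : s ^ 2 ∈ M) (hn : s ∉ M) {p q : Ω} (hp : p ∈ M) (hq : q ∈ M)
    (h : L.nm (p + q * s) ≤ 1) : L.nm (2 * p) ≤ 1 := by
  by_cases hq0 : q = 0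
  · rw [hq0, zero_mul, add_zero] at h
    rw [L.mul]
    exact mul_le_one₀ L.two_le (L.nonneg p) h
  by_contra hlt
  rw [not_le] at hlt
  obtain ⟨x, hx⟩ : ∃ x, x = p + q * s := ⟨_, rfl⟩
  obtain ⟨t, ht⟩ : ∃ t, t = 2 * p := ⟨_, rfl⟩
  obtain ⟨c, hc⟩ : ∃ c, c = p ^ 2 - s ^ 2 * q ^ 2 := ⟨_, rfl⟩
  rw [← hx] at h
  rw [← ht] at hlt
  have h2M : (2 : Ω) ∈ M := by
    have := M.natCast_mem 2
    rwa [Nat.cast_ofNat] at this
  have htM : t ∈ M := by
    rw [ht]
    exact M.mul_mem h2M hp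
  have hcM : c ∈ M := by
    rw [hc]
    exact M.sub_mem (pow_mem hp 2) (M.mul_mem hs (pow_mem hq 2))
  have htp : 0 < L.nm t := zero_lt_one.trans hlt
  have ht0 : t ≠ 0 := L.ne_zero htp
  have hxx : c = x * (t - x) := by
    rw [hc, ht, hx]
    ring
  have hx' : L.nm (t - x) ≤ L.nm t := (L.sub t x).trans (max_le le_rfl (h.trans hlt.le))
  obtain ⟨e, he⟩ : ∃ e, e = c / t ^ 2 := ⟨_, rfl⟩
  have heM : e ∈ M := by
    rw [he]
    exact M.div_mem hcM (pow_mem htM 2)
  have he1 : L.nm e < 1 := by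
    rw [he, L.div, L.pow, div_lt_one (pow_pos htp 2), hxx, L.mul, sq]
    calc L.nm x * L.nm (t - x) ≤ 1 * L.nm t :=
          mul_le_mul h hx' (L.nonneg _) zero_le_one
      _ < L.nm t * L.nm t := mul_lt_mul_of_pos_right hlt htp
  have hd : (Polynomial.C e - Polynomial.X : Polynomial Ω).degree < (2 : ℕ) := by
    refine (degree_sub_le _ _).trans_lt (max_lt ?_ ?_)
    · exact degree_C_le.trans_lt (by exact_mod_cast two_pos)
    · rw [degree_X]
      exact_mod_cast one_lt_two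
  have hm : (Polynomial.X ^ 2 + (Polynomial.C e - Polynomial.X) : Polynomial Ω).Monic :=
    monic_X_pow_add hd
  have hev : ∀ w : Ω, (Polynomial.X ^ 2 + (Polynomial.C e - Polynomial.X) : Polynomial Ω).eval w =
      w ^ 2 + (e - w) := by
    intro w
    simp only [eval_add, eval_pow, eval_X, eval_sub, eval_C]
  have hco : ∀ i, (Polynomial.X ^ 2 + (Polynomial.C e - Polynomial.X) : Polynomial Ω).coeff i ∈ M ∧
      L.nm ((Polynomial.X ^ 2 + (Polynomial.C e - Polynomial.X) : Polynomial Ω).coeff i) ≤ 1 := by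
    intro i
    rw [coeff_add, coeff_sub, coeff_X_pow, coeff_X, coeff_C]
    rcases i with _ | _ | _ | i
    · rw [if_neg (by omega), if_pos rfl, if_neg (by omega), zero_add, sub_zero]
      exact ⟨heM, he1.le⟩
    · rw [if_neg (by omega), if_neg (by omega), if_pos (by omega), zero_add, zero_sub, L.neg]
      exact ⟨M.neg_mem M.one_mem, L.one.le⟩
    · rw [if_pos (by omega), if_neg (by omega), if_neg (by omega), sub_zero, add_zero]
      exact ⟨M.one_mem, L.one.le⟩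
    · rw [if_neg (by omega), if_neg (by omega), if_neg (by omega), sub_zero, add_zero]
      refine ⟨M.zero_mem, ?_⟩
      rw [(L.zero_iff 0).2 rfl]
      exact zero_le_one
  obtain ⟨y, hyM, hy, -⟩ := L.hens M inferInstance _ hm hco 0 M.zero_mem
    (by rw [(L.zero_iff 0).2 rfl]; exact zero_le_one)
    (by
      rw [hev, sub_zero, zero_pow two_ne_zero, zero_add]
      exact he1)
    (by
      have h5 : (derivative (Polynomial.X ^ 2 + (Polynomial.C e - Polynomial.X) :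
          Polynomial Ω)).eval 0 = -1 := by
        simp
      rw [h5, L.neg, L.one])
  rw [hev] at hy
  have hte : t ^ 2 * e = x * (t - x) := by
    rw [he, hxx]
    field_simp
  have h6 : (t * y - x) * (t * y - (t - x)) = 0 := by
    linear_combination t ^ 2 * hy - hte
  have hxM : x ∈ M := by
    rcases mul_eq_zero.1 h6 with h7 | h7
    · have h8 : x = t * y := by linear_combination -h7
      rw [h8]
      exact M.mul_mem htM hyM
    · have h8 : x = t - t * y := by linear_combination h7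
      rw [h8]
      exact M.sub_mem htM (M.mul_mem htM hyM)
  apply hn
  have h9 : s = (x - p) / q := by
    rw [hx, eq_div_iff hq0]
    ring
  rw [h9]
  exact M.div_mem (M.sub_mem hxM hp) hq

/-- `2 Λ`. -/
private theorem la_two {M : IntermediateField K Ω} {s : Ω} :
    (La L M s 1).map (AddMonoidHom.mulLeft 2) = La L M s (L.nm 2) := by
  have hc : CharZero Ω := charZero_of_injective_algebraMap (algebraMap K Ω).injective
  have h2 : (2 : Ω) ≠ 0 := two_ne_zero
  have h2p := L.pos h2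
  have h2M : (2 : Ω) ∈ M := by
    have := M.natCast_mem 2
    rwa [Nat.cast_ofNat] at this
  ext x
  rw [AddSubgroup.mem_map, mem_la h2p.le]
  constructor
  · rintro ⟨y, hy, rfl⟩
    obtain ⟨p, hp, q, hq, hp', hq', rfl⟩ := (mem_la zero_le_one).1 hy
    refine ⟨2 * p, M.mul_mem h2M hp, 2 * q, M.mul_mem h2M hq, ?_, ?_, ?_⟩
    · rw [L.mul]
      exact mul_le_of_le_one_right h2p.le hp'
    · rw [L.mul]
      exact mul_le_of_le_one_right h2p.le hq'
    · change 2 * (p + q * s) = _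
      ring
  · rintro ⟨p, hp, q, hq, hp', hq', rfl⟩
    refine ⟨p / 2 + q / 2 * s, (mem_la zero_le_one).2 ⟨p / 2, M.div_mem hp h2M, q / 2,
      M.div_mem hq h2M, ?_, ?_, rfl⟩, ?_⟩
    · rw [L.div, div_le_one h2p]
      exact hp'
    · rw [L.div, div_le_one h2p]
      exact hq'
    · change 2 * (p / 2 + q / 2 * s) = _
      ring

omit [CharZero K] in
private theorem quad_fd {M : IntermediateField K Ω} [FiniteDimensional K M] {s : Ω}
    (hs : s ^ 2 ∈ M) : FiniteDimensional K (Me M s) := by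
  have h1 : IsIntegral K (s ^ 2) := by
    have h2 : IsIntegral K (⟨s ^ 2, hs⟩ : M) := IsIntegral.of_finite K _
    exact h2.map M.val
  have h3 : IsIntegral K s := IsIntegral.of_pow two_pos h1
  have h4 : FiniteDimensional K (IntermediateField.adjoin K {s}) :=
    IntermediateField.adjoin.finiteDimensional h3
  unfold Me
  infer_instance

private theorem quad_aux {M : IntermediateField K Ω} [FiniteDimensional K M] {s : Ω}
    (hs : s ^ 2 ∈ M) (hn : s ∉ M) (h1 : L.nm s ≤ 1) : cO L (Me M s) = cO L M ^ 2 := by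
  have hc : CharZero Ω := charZero_of_injective_algebraMap (algebraMap K Ω).injective
  have h2 : (2 : Ω) ≠ 0 := two_ne_zero
  have h2M : (2 : Ω) ∈ M := by
    have := M.natCast_mem 2
    rwa [Nat.cast_ofNat] at this
  have hle : M ≤ Me M s := le_sup_left
  have hfd : FiniteDimensional K (Me M s) := quad_fd hs
  have hs0 : s ≠ 0 := by
    intro h
    rw [h] at hn
    exact hn M.zero_mem
  have hsN : s ∈ Me M s := (mem_quad hs).2 ⟨0, M.zero_mem, 1, M.one_mem, by ring⟩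
  have hs1 : L.nm (s ^ 2) ≤ 1 := by
    rw [L.pow]
    exact pow_le_one₀ (L.nonneg s) h1
  -- `Λ ≤ O_N`
  have hΛ : La L M s 1 ≤ Bl L (Me M s) 1 := by
    intro x hx
    obtain ⟨p, hp, q, hq, hp', hq', rfl⟩ := (mem_la zero_le_one).1 hx
    refine (mem_bl zero_le_one).2 ⟨(mem_quad hs).2 ⟨p, hp, q, hq, rfl⟩, ?_⟩
    refine (L.add _ _).trans (max_le hp' ?_)
    rw [L.mul]
    exact mul_le_one₀ hq' (L.nonneg s) h1
  -- `2 b O_N ≤ Λ`
  have hb0 : 2 * s ^ 2 ≠ 0 := mul_ne_zero h2 (pow_ne_zero 2 hs0)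
  have hbN : 2 * s ^ 2 ∈ Me M s := hle (M.mul_mem h2M hs)
  have hΛ' : Bl L (Me M s) (L.nm (2 * s ^ 2)) ≤ La L M s 1 := by
    intro y hy
    rw [mem_bl (L.nonneg _)] at hy
    obtain ⟨x, hx⟩ : ∃ x, x = y / (2 * s ^ 2) := ⟨_, rfl⟩
    have hyx : y = 2 * s ^ 2 * x := by
      rw [hx]
      field_simp
    have hxN : x ∈ Me M s := by
      rw [hx]
      exact (Me M s).div_mem hy.1 hbN
    have hx1 : L.nm x ≤ 1 := by
      rw [hx, L.div, div_le_one (L.pos hb0)]
      exact hy.2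
    obtain ⟨p, hp, q, hq, hpq⟩ := (mem_quad hs).1 hxN
    have h3 : L.nm (2 * p) ≤ 1 := tr_le hs hn hp hq (by rw [← hpq]; exact hx1)
    have h4 : L.nm (2 * (q * s ^ 2)) ≤ 1 := by
      refine tr_le hs hn (M.mul_mem hq hs) hp ?_
      have h5 : q * s ^ 2 + p * s = x * s := by
        rw [hpq]
        ring
      rw [h5, L.mul]
      exact mul_le_one₀ hx1 (L.nonneg s) h1
    refine (mem_la zero_le_one).2 ⟨s ^ 2 * (2 * p), M.mul_mem hs (M.mul_mem h2M hp),
      2 * (q * s ^ 2), M.mul_mem h2M (M.mul_mem hq hs), ?_, h4, ?_⟩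
    · rw [L.mul]
      exact mul_le_one₀ hs1 (L.nonneg _) h3
    · rw [hyx, hpq]
      ring
  have h3 : (La L M s 1).relIndex (Bl L (Me M s) 1) ≠ 0 := by
    intro h4
    exact bl_index L (M := Me M s) (r := L.nm (2 * s ^ 2)) (r' := 1) (L.pos hb0)
      (AddSubgroup.relIndex_eq_zero_of_le_left hΛ' h4)
  have h4 : La L M s (L.nm 2) ≤ La L M s 1 := by
    intro x hx
    obtain ⟨p, hp, q, hq, hp', hq', rfl⟩ := (mem_la (L.nonneg 2)).1 hx
    exact (mem_la zero_le_one).2 ⟨p, hp, q, hq, hp'.trans L.two_le, hq'.trans L.two_le, rfl⟩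
  have h5 : (Bl L (Me M s) 1).map (AddMonoidHom.mulLeft 2) = Bl L (Me M s) (L.nm 2) := by
    rw [bl_map (hle h2M) h2 zero_le_one, one_mul]
  have h6 : (La L M s (L.nm 2)).relIndex (Bl L (Me M s) (L.nm 2)) =
      (La L M s 1).relIndex (Bl L (Me M s) 1) := by
    rw [← la_two, ← h5]
    exact AddSubgroup.relIndex_map_map_of_injective _ _ (mul_inj' h2)
  have h7 : La L M s (L.nm 2) ≤ Bl L (Me M s) (L.nm 2) := by
    rw [← la_two, ← h5]
    exact AddSubgroup.map_mono hΛ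
  have h8 := AddSubgroup.relIndex_mul_relIndex _ _ _ h4 hΛ
  have h9 := AddSubgroup.relIndex_mul_relIndex _ _ _ h7 (bl_mono L.two_le)
  rw [h6, ← h8, la_index hn, mul_comm] at h9
  exact mul_right_cancel₀ h3 h9

end quad

/-- **Quadratic extensions.** Let `N = M(s)`, `s² = b ∈ M` integral (scale `s`), `Λ = O_M + O_M s ≤ O_N`; `O_N ≤ (2 b)⁻¹ Λ` (for `x = p + q s` integral, the trace `2 p` and the trace of
`x s`, `2 q b`, are integral), so the index of `Λ` in `O_N` is finite, `[O_N : 2 O_N] [2 O_N : 2 Λ] = [O_N : 2 Λ] = [O_N : Λ] [Λ : 2 Λ]`, `[2 O_N : 2 Λ] = [O_N : Λ]`, and `[Λ : 2 Λ] = [O_M : 2 O_M]²`. -/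
theorem cO_quad {M : IntermediateField K Ω} [FiniteDimensional K M] {s : Ω} (hs : s ^ 2 ∈ M)
    (hn : s ∉ M) : cO L (Me M s) = cO L M ^ 2 := by
  obtain ⟨π, hπ, h0, h1, -⟩ := L.unif M inferInstance
  obtain ⟨n, hn'⟩ : ∃ n : ℕ, L.nm π ^ n < (L.nm s + 1)⁻¹ :=
    exists_pow_lt_of_lt_one (inv_pos.2 (add_pos_of_nonneg_of_pos (L.nonneg s) zero_lt_one)) h1
  obtain ⟨c, hc⟩ : ∃ c, c = π ^ n := ⟨_, rfl⟩
  have hcM : c ∈ M := by
    rw [hc]
    exact pow_mem hπ n
  have hc0 : c ≠ 0 := by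
    rw [hc]
    exact pow_ne_zero n (L.ne_zero h0)
  have h2 : L.nm (c * s) ≤ 1 := by
    rw [L.mul, hc, L.pow]
    have h3 : 0 < L.nm s + 1 := add_pos_of_nonneg_of_pos (L.nonneg s) zero_lt_one
    calc L.nm π ^ n * L.nm s ≤ (L.nm s + 1)⁻¹ * (L.nm s + 1) :=
          mul_le_mul hn'.le (by linarith) (L.nonneg s) (inv_nonneg.2 h3.le)
      _ = 1 := inv_mul_cancel₀ h3.ne'
  have hcs : (c * s) ^ 2 ∈ M := by
    rw [mul_pow]
    exact M.mul_mem (pow_mem hcM 2) hs
  have hcn : c * s ∉ M := by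
    intro h3
    apply hn
    have h4 := M.div_mem h3 hcM
    rwa [mul_div_cancel_left₀ _ hc0] at h4
  have h3 : Me M (c * s) = Me M s := by
    ext x
    rw [mem_quad hcs, mem_quad hs]
    constructor
    · rintro ⟨p, hp, q, hq, rfl⟩
      exact ⟨p, hp, q * c, M.mul_mem hq hcM, by ring⟩
    · rintro ⟨p, hp, q, hq, rfl⟩
      exact ⟨p, hp, q / c, M.div_mem hq hcM, by field_simp⟩
  rw [← h3]
  exact quad_aux hcs hcn h2

end BE
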