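import Pool.Agent.Lib.MP_f80667_ag.Be.SyL

/-! The number of square classes of a local field. -/

open ZC Polynomial IntermediateField

namespace BE

variable {K Ω : Type} [Field K] [Field Ω] [Algebra K Ω] (L : Lf K Ω)

/-- The multiplicative group of `M`. -/
def Mu (M : IntermediateField K Ω) : Subgroup Ωˣ where
  carrier := {x | (x : Ω) ∈ M}
  one_mem' := one_mem M
  mul_mem' ha hb := mul_mem (S := IntermediateField K Ω) ha hb
  inv_mem' {a} ha := by
    change ((a⁻¹ : Ωˣ) : Ω) ∈ M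
    rw [Units.val_inv_eq_inv_val]
    exact inv_mem ha

/-- The squares. -/
def Ms (M : IntermediateField K Ω) : Subgroup Ωˣ := (Mu M).map (powMonoidHom 2)

theorem mem_Mu {M : IntermediateField K Ω} {x : Ωˣ} : x ∈ Mu M ↔ (x : Ω) ∈ M := Iff.rfl

theorem mem_Ms {M : IntermediateField K Ω} {x : Ωˣ} : x ∈ Ms M ↔ SqM M (x : Ω) := by
  constructor
  · rintro ⟨y, hy, rfl⟩
    exact ⟨(y : Ω), hy, Units.val_pow_eq_pow_val y 2⟩
  · rintro ⟨y, hy, h⟩
    have h0 : y ≠ 0 := by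
      rintro rfl
      rw [zero_pow two_ne_zero] at h
      exact x.ne_zero h
    refine ⟨Units.mk0 y h0, hy, ?_⟩
    refine Units.ext ?_
    change ((Units.mk0 y h0 ^ 2 : Ωˣ) : Ω) = x
    rw [Units.val_pow_eq_pow_val, Units.val_mk0, h]

section herb

variable {G : Type} [CommGroup G]

/-- Herbrand quotients. -/
theorem su_herb (φ : G →* G) {A B : Subgroup G} (hBA : B ≤ A) (hA : A.map φ ≤ A)
    (hB : B.map φ ≤ B) (hf : B.relIndex A ≠ 0) :
    (A.map φ).relIndex A = B.relIndex (φ.ker ⊓ A) * (B.map φ).relIndex B := by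
  have h1 := Subgroup.relIndex_mul_relIndex (B.map φ) (A.map φ) A (Subgroup.map_mono hBA) hA
  have h2 := Subgroup.relIndex_mul_relIndex (B.map φ) B A hB hBA
  have h3 : (B.map φ).relIndex (A.map φ) = (B ⊔ φ.ker).relIndex A := by
    rw [Subgroup.relIndex_map_map]
    have h4 : A ⊔ φ.ker = A ⊔ (B ⊔ φ.ker) := by
      rw [← sup_assoc, sup_eq_left.2 hBA]
    rw [h4, Subgroup.relIndex_sup_right]
  have h5 : (B ⊔ φ.ker) ⊓ A = B ⊔ (φ.ker ⊓ A) := by
    rw [sup_inf_assoc_of_le _ hBA]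
  have h6 : B.relIndex A = B.relIndex (φ.ker ⊓ A) * (B.map φ).relIndex (A.map φ) := by
    rw [h3, ← Subgroup.inf_relIndex_right (B ⊔ φ.ker) A, h5]
    have h7 := Subgroup.relIndex_mul_relIndex B (B ⊔ (φ.ker ⊓ A)) A le_sup_left
      (sup_le hBA inf_le_right)
    rw [sup_comm, Subgroup.relIndex_sup_right] at h7
    rw [sup_comm, h7]
  have h8 : (B.map φ).relIndex (A.map φ) ≠ 0 := by
    intro h
    rw [h, mul_zero] at h6
    exact hf h6
  refine Nat.eq_of_mul_eq_mul_left (Nat.pos_of_ne_zero h8) ?_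
  rw [h1, ← h2, h6]
  ring

end herb

/-- The units. -/
def su_U (M : IntermediateField K Ω) : Subgroup Ωˣ where
  carrier := {x | (x : Ω) ∈ M ∧ L.nm x = 1}
  one_mem' := ⟨one_mem M, L.one⟩
  mul_mem' := by
    rintro a b ⟨ha, ha'⟩ ⟨hb, hb'⟩
    refine ⟨mul_mem (S := IntermediateField K Ω) ha hb, ?_⟩
    rw [Units.val_mul, L.mul, ha', hb', mul_one]
  inv_mem' := by
    rintro a ⟨ha, ha'⟩
    change ((a⁻¹ : Ωˣ) : Ω) ∈ M ∧ L.nm ((a⁻¹ : Ωˣ) : Ω) = 1
    rw [Units.val_inv_eq_inv_val]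
    exact ⟨inv_mem ha, by rw [L.inv, ha', inv_one]⟩

/-- The higher units. -/
def su_V (M : IntermediateField K Ω) (r : ℝ) (hr : 0 ≤ r) : Subgroup Ωˣ where
  carrier := {x | (x : Ω) ∈ M ∧ L.nm x = 1 ∧ L.nm ((x : Ω) - 1) ≤ r}
  one_mem' := ⟨one_mem M, L.one, by
    rw [Units.val_one, sub_self, (L.zero_iff 0).2 rfl]
    exact hr⟩
  mul_mem' := by
    rintro a b ⟨ha, ha', ha''⟩ ⟨hb, hb', hb''⟩
    refine ⟨mul_mem (S := IntermediateField K Ω) ha hb, ?_, ?_⟩
    · rw [Units.val_mul, L.mul, ha', hb', mul_one]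
    · have h1 : (((a * b : Ωˣ) : Ω) - 1) = a * ((b : Ω) - 1) + ((a : Ω) - 1) := by
        rw [Units.val_mul]
        ring
      rw [h1]
      refine (L.add _ _).trans (max_le ?_ ha'')
      rw [L.mul, ha', one_mul]
      exact hb''
  inv_mem' := by
    rintro a ⟨ha, ha', ha''⟩
    change ((a⁻¹ : Ωˣ) : Ω) ∈ M ∧ L.nm ((a⁻¹ : Ωˣ) : Ω) = 1 ∧ L.nm (((a⁻¹ : Ωˣ) : Ω) - 1) ≤ r
    rw [Units.val_inv_eq_inv_val]
    refine ⟨inv_mem ha, by rw [L.inv, ha', inv_one], ?_⟩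
    have h1 : ((a : Ω)⁻¹ - 1) = (a : Ω)⁻¹ * (1 - (a : Ω)) := by
      rw [mul_sub, mul_one, inv_mul_cancel₀ a.ne_zero]
    rw [h1, L.mul, L.inv, ha', inv_one, one_mul, L.sub_comm]
    exact ha''

theorem su_V_le (M : IntermediateField K Ω) {r : ℝ} (hr : 0 ≤ r) : su_V L M r hr ≤ su_U L M :=
  fun _ hx => ⟨hx.1, hx.2.1⟩

theorem su_U_le (M : IntermediateField K Ω) : su_U L M ≤ Mu M := fun _ hx => hx.1

theorem su_V_mono (M : IntermediateField K Ω) {r r' : ℝ} (hr : 0 ≤ r) (hr' : 0 ≤ r')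
    (h : r ≤ r') : su_V L M r hr ≤ su_V L M r' hr' :=
  fun _ hx => ⟨hx.1, hx.2.1, hx.2.2.trans h⟩

/-- The cosets of the units modulo the higher units. -/
theorem su_coset {M : IntermediateField K Ω} {r : ℝ} (hr : 0 ≤ r) {x y : Ωˣ}
    (hx : x ∈ su_U L M) (hy : y ∈ su_U L M) :
    x⁻¹ * y ∈ su_V L M r hr ↔ L.nm (-(x : Ω) + y) ≤ r := by
  have h1 : (((x⁻¹ * y : Ωˣ) : Ω) - 1) = (x : Ω)⁻¹ * (-(x : Ω) + y) := by
    rw [Units.val_mul, Units.val_inv_eq_inv_val, mul_add, mul_neg, inv_mul_cancel₀ x.ne_zero]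
    ring
  have h2 : L.nm (((x⁻¹ * y : Ωˣ) : Ω) - 1) = L.nm (-(x : Ω) + y) := by
    rw [h1, L.mul, L.inv, hx.2, inv_one, one_mul]
  constructor
  · intro h
    rw [← h2]
    exact h.2.2
  · intro h
    have h3 := (su_U L M).mul_mem ((su_U L M).inv_mem hx) hy
    exact ⟨h3.1, h3.2, h2.trans_le h⟩

/-- Elements of balls. -/
theorem su_mem_Bl {M : IntermediateField K Ω} {r : ℝ} (hr : 0 ≤ r) {x : Ω} :
    x ∈ Bl L M r ↔ x ∈ M ∧ L.nm x ≤ r := by
  constructor
  · rintro (rfl | h)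
    · exact ⟨M.zero_mem, by rw [(L.zero_iff 0).2 rfl]; exact hr⟩
    · exact h
  · intro h
    exact Or.inr h

/-- The index of the higher units in one another. -/
theorem su_V_V (M : IntermediateField K Ω) {r r' : ℝ} (hr : 0 ≤ r) (hr' : 0 ≤ r') (h1 : r' < 1)
    : (su_V L M r hr).relIndex (su_V L M r' hr') = (Bl L M r).relIndex (Bl L M r') := by
  let e : su_V L M r' hr' ≃ Bl L M r' :=
    { toFun := fun x => ⟨((x : Ωˣ) : Ω) - 1, Or.inr ⟨sub_mem x.2.1 (one_mem M), x.2.2.2⟩⟩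
      invFun := fun x => ⟨Units.mk0 (1 + (x : Ω)) (by
          have h2 := (su_mem_Bl L hr').1 x.2
          have h3 := L.one_add (h2.2.trans_lt h1)
          exact L.ne_zero (by rw [h3]; exact one_pos)), by
          have h2 := (su_mem_Bl L hr').1 x.2
          refine ⟨add_mem (one_mem M) h2.1, ?_, ?_⟩
          · rw [Units.val_mk0]
            exact L.one_add (h2.2.trans_lt h1)
          · rw [Units.val_mk0, add_sub_cancel_left]
            exact h2.2⟩
      left_inv := fun x => Subtype.ext (Units.ext (by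
        change 1 + (((x : Ωˣ) : Ω) - 1) = _
        ring))
      right_inv := fun x => Subtype.ext (by
        change (1 + (x : Ω)) - 1 = _
        ring) }
  refine Nat.card_congr (Quotient.congr e ?_)
  intro a b
  rw [QuotientGroup.leftRel_apply, QuotientAddGroup.leftRel_apply, Subgroup.mem_subgroupOf,
    AddSubgroup.mem_addSubgroupOf]
  change (a : Ωˣ)⁻¹ * (b : Ωˣ) ∈ su_V L M r hr ↔
    -(((a : Ωˣ) : Ω) - 1) + (((b : Ωˣ) : Ω) - 1) ∈ Bl L M r
  rw [su_coset L hr (su_V_le L M hr' a.2) (su_V_le L M hr' b.2), su_mem_Bl L hr]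
  have h2 : -(((a : Ωˣ) : Ω) - 1) + (((b : Ωˣ) : Ω) - 1) = -((a : Ωˣ) : Ω) + ((b : Ωˣ) : Ω) := by
    ring
  rw [h2]
  exact ⟨fun h => ⟨add_mem (neg_mem a.2.1) b.2.1, h⟩, fun h => h.2⟩

/-- The higher units have finite index in the units. -/
theorem su_U_V (M : IntermediateField K Ω) {r : ℝ} (hr : 0 ≤ r)
    (hf : (Bl L M r).relIndex (Bl L M 1) ≠ 0) : (su_V L M r hr).relIndex (su_U L M) ≠ 0 := by
  have h0 : Finite (Bl L M 1 ⧸ (Bl L M r).addSubgroupOf (Bl L M 1)) := by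
    refine Nat.finite_of_card_ne_zero ?_
    exact hf
  let e : su_U L M → Bl L M 1 := fun x => ⟨((x : Ωˣ) : Ω), Or.inr ⟨x.2.1, x.2.2.le⟩⟩
  let e' : (su_U L M ⧸ (su_V L M r hr).subgroupOf (su_U L M)) →
      (Bl L M 1 ⧸ (Bl L M r).addSubgroupOf (Bl L M 1)) :=
    Quotient.map' e (by
      intro a b hab
      change QuotientGroup.leftRel _ a b at hab
      rw [QuotientGroup.leftRel_apply, Subgroup.mem_subgroupOf] at hab
      rw [QuotientAddGroup.leftRel_apply, AddSubgroup.mem_addSubgroupOf]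
      have h1 := (su_coset L hr a.2 b.2).1 hab
      exact (su_mem_Bl L hr).2 ⟨add_mem (neg_mem a.2.1) b.2.1, h1⟩)
  have hinj : Function.Injective e' := by
    intro x y
    refine Quotient.inductionOn₂' x y ?_
    intro a b hab
    have h2 : (QuotientAddGroup.mk (e a) : Bl L M 1 ⧸ (Bl L M r).addSubgroupOf (Bl L M 1)) =
      QuotientAddGroup.mk (e b) := hab
    rw [QuotientAddGroup.eq, AddSubgroup.mem_addSubgroupOf] at h2
    have h3 : -((a : Ωˣ) : Ω) + ((b : Ωˣ) : Ω) ∈ Bl L M r := h2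
    rw [su_mem_Bl L hr] at h3
    refine QuotientGroup.eq.2 ?_
    rw [Subgroup.mem_subgroupOf]
    exact (su_coset L hr a.2 b.2).2 h3.2
  have h4 : Finite (su_U L M ⧸ (su_V L M r hr).subgroupOf (su_U L M)) := Finite.of_injective e' hinj
  have h5 : Nonempty (su_U L M ⧸ (su_V L M r hr).subgroupOf (su_U L M)) := ⟨QuotientGroup.mk 1⟩
  exact Nat.card_pos.ne'

variable [CharZero K]

/-- Squares of higher units. -/
theorem su_V_sq (M : IntermediateField K Ω) [FiniteDimensional K M] {r r' : ℝ} (hr : 0 ≤ r)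
    (hr' : 0 ≤ r') (h : r < L.nm 2) (he : r' = L.nm 2 * r) :
    (su_V L M r hr).map (powMonoidHom 2) = su_V L M r' hr' := by
  have h2M : (2 : Ω) ∈ M := by
    have := M.natCast_mem 2
    rwa [Nat.cast_ofNat] at this
  have h20 : 0 < L.nm 2 := hr.trans_lt h
  have h21 := L.two_le
  have h4 : L.nm 4 = L.nm 2 * L.nm 2 := by
    rw [← L.mul]
    norm_num
  ext x
  constructor
  · rintro ⟨y, ⟨hy, hy', hy''⟩, rfl⟩
    change (((y ^ 2 : Ωˣ) : Ω)) ∈ M ∧ L.nm ((y ^ 2 : Ωˣ) : Ω) = 1 ∧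
      L.nm (((y ^ 2 : Ωˣ) : Ω) - 1) ≤ r'
    rw [Units.val_pow_eq_pow_val]
    refine ⟨pow_mem hy 2, by rw [L.pow, hy', one_pow], ?_⟩
    have h5 : (y : Ω) ^ 2 - 1 = (((y : Ω) - 1) + 2) * ((y : Ω) - 1) := by ring
    rw [h5, L.mul, he]
    refine mul_le_mul ?_ hy'' (L.nonneg _) h20.le
    exact (L.add _ _).trans (max_le (hy''.trans h.le) le_rfl)
  · rintro ⟨hx, hx', hx''⟩
    have h6 : L.nm ((x : Ω) - 1) < L.nm 4 := by
      rw [h4]
      refine hx''.trans_lt ?_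
      rw [he]
      exact mul_lt_mul_of_pos_left h h20
    obtain ⟨s, hs, h7⟩ := L.sq M (sub_mem hx (one_mem M)) h6
    have h8 : (x : Ω) = s ^ 2 := by
      rw [← h7]
      ring
    have h9 : L.nm (s - 1) * L.nm (s + 1) ≤ L.nm 2 * r := by
      rw [← L.mul]
      have h10 : (s - 1) * (s + 1) = (x : Ω) - 1 := by
        rw [h8]
        ring
      rw [h10, ← he]
      exact hx''
    have hs1 : L.nm s = 1 := by
      have h11 : L.nm s ^ 2 = 1 := by
        rw [← L.pow, ← h8, hx']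
      exact (pow_eq_one_iff_of_nonneg (L.nonneg s) two_ne_zero).1 h11
    have hs0 : s ≠ 0 := L.ne_zero (by rw [hs1]; exact one_pos)
    have key : ∃ t ∈ M, t ^ 2 = s ^ 2 ∧ L.nm t = 1 ∧ L.nm (t - 1) ≤ r := by
      rcases lt_trichotomy (L.nm (s - 1)) (L.nm 2) with h12 | h12 | h12
      · refine ⟨s, hs, rfl, hs1, ?_⟩
        have h13 : L.nm (s + 1) = L.nm 2 := by
          have h14 : s + 1 = (s - 1) + 2 := by ring
          rw [h14]
          exact L.add_eq h12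
        rw [h13, mul_comm] at h9
        exact le_of_mul_le_mul_left h9 h20
      · refine ⟨-s, neg_mem hs, by ring, by rw [L.neg, hs1], ?_⟩
        have h13 : L.nm (-s - 1) = L.nm (s + 1) := by
          rw [← L.neg]
          congr 1
          ring
        rw [h13]
        rw [h12] at h9
        exact le_of_mul_le_mul_left h9 h20
      · exfalso
        have h13 : L.nm (s + 1) = L.nm (s - 1) := by
          have h14 : s + 1 = (s - 1) + 2 := by ring
          rw [h14]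
          exact L.add_eq' h12
        rw [h13] at h9
        have h15 : L.nm 2 * r < L.nm (s - 1) * L.nm (s - 1) := by
          calc L.nm 2 * r ≤ L.nm 2 * L.nm 2 := mul_le_mul_of_nonneg_left h.le h20.le
            _ < L.nm (s - 1) * L.nm (s - 1) := mul_self_lt_mul_self h20.le h12
        exact absurd h9 (not_le.2 h15)
    obtain ⟨t, ht, ht2, ht1, htr⟩ := key
    have ht0 : t ≠ 0 := L.ne_zero (by rw [ht1]; exact one_pos)
    refine ⟨Units.mk0 t ht0, ⟨ht, ht1, htr⟩, ?_⟩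
    refine Units.ext ?_
    change ((Units.mk0 t ht0 ^ 2 : Ωˣ) : Ω) = x
    rw [Units.val_pow_eq_pow_val, Units.val_mk0, h8, ht2]

/-- The squares of units. -/
theorem su_U_sq (M : IntermediateField K Ω) [FiniteDimensional K M] :
    ((su_U L M).map (powMonoidHom 2)).relIndex (su_U L M) = 2 * cO L M := by
  have h2M : (2 : Ω) ∈ M := by
    have := M.natCast_mem 2
    rwa [Nat.cast_ofNat] at this
  have hc : CharZero Ω := charZero_of_injective_algebraMap (algebraMap K Ω).injective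
  have h20 : 0 < L.nm 2 := L.pos two_ne_zero
  obtain ⟨π, hπ, hπ0, hπ1, -⟩ := L.unif M inferInstance
  have hπ0' : π ≠ 0 := L.ne_zero hπ0
  obtain ⟨c, hcd⟩ : ∃ c : Ω, c = 2 * π := ⟨_, rfl⟩
  have hcM : c ∈ M := by
    rw [hcd]
    exact mul_mem h2M hπ
  have hc0 : c ≠ 0 := by
    rw [hcd]
    exact mul_ne_zero two_ne_zero hπ0'
  have hcn : L.nm c < L.nm 2 := by
    rw [hcd, L.mul]
    exact mul_lt_of_lt_one_right h20 hπ1
  have hcp : 0 < L.nm c := L.pos hc0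
  have hc1 : L.nm c < 1 := hcn.trans_le L.two_le
  have hfin := su_U_V L M hcp.le (bl_index L hcp)
  have hpow : ∀ B : Subgroup Ωˣ, B.map (powMonoidHom 2) ≤ B := by
    rintro B _ ⟨y, hy, rfl⟩
    exact B.pow_mem hy 2
  rw [su_herb (powMonoidHom 2) (su_V_le L M hcp.le) (hpow _) (hpow _) hfin,
    su_V_sq L M hcp.le (mul_nonneg h20.le hcp.le) hcn rfl,
    su_V_V L M _ hcp.le hc1, bl_scale L hcM hc0]
  congr 1
  rw [Subgroup.relIndex_eq_two_iff]
  have hm1 : (-1 : Ωˣ) ∉ su_V L M (L.nm c) hcp.le := by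
    rintro ⟨-, -, h3⟩
    have h4 : (((-1 : Ωˣ) : Ω) - 1) = -2 := by
      rw [Units.val_neg, Units.val_one]
      norm_num
    rw [h4, L.neg] at h3
    exact absurd hcn (not_lt.2 h3)
  refine ⟨-1, ⟨?_, ?_⟩, ?_⟩
  · change (-1 : Ωˣ) ^ 2 = 1
    exact neg_one_sq
  · refine ⟨?_, ?_⟩
    · rw [Units.val_neg, Units.val_one]
      exact neg_mem (one_mem M)
    · rw [Units.val_neg, Units.val_one, L.neg, L.one]
  · rintro b ⟨hb, -⟩
    have hb' : b ^ 2 = 1 := hb
    have hb2 : b = 1 ∨ b = -1 := by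
      have h3 : (b : Ω) ^ 2 = 1 := by
        rw [← Units.val_pow_eq_pow_val, hb', Units.val_one]
      have h3' : ((b : Ω) - 1) * ((b : Ω) + 1) = 0 := by
        linear_combination h3
      rcases mul_eq_zero.1 h3' with h4 | h4
      · exact Or.inl (Units.ext (sub_eq_zero.1 h4))
      · exact Or.inr (Units.ext (by
          rw [Units.val_neg, Units.val_one]
          exact eq_neg_of_add_eq_zero_left h4))
    rcases hb2 with rfl | rfl
    · right
      exact ⟨Subgroup.one_mem _, by rwa [one_mul]⟩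
    · left
      refine ⟨?_, hm1⟩
      rw [neg_one_mul, neg_neg]
      exact Subgroup.one_mem _

/-- **The number of square classes.** Proof: let `U` be the group of the `x ∈ M` with `‖x‖ = 1`, `U_c = {x ∈ M : ‖x - 1‖ ≤ ‖c‖}` for some `c ∈ M` with `0 < ‖c‖ < ‖2‖`. (a) `[M^* : M^*²] = 2 [U : U²]` (`Lf.unif`). (b) `[U : U_c]` is finite (`Lf.fin`); squaring is an
isomorphism `U_c → U_{2 c}` (`(1 + c y)² = 1 + 2 c (y + (c/2) y²)`, `Lf.hens`; or: `U_{2 c} ⊆ U_c²` by `Lf.sq`-type arguments, `- 1 ∉ U_c`) and `1 + x ↦ x` induces `U_c / U_{2 c} ≅ cO / 2 c O`, so `[U_c : U_c²] = cO` (`bl_scale`). (c) The map `U → U²` has the kernel `{± 1}`, and it is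
injective on `U_c`, so `[U² : U_c²] = [U : U_c] / 2` and `[U : U²] [U² : U_c²] = [U : U_c] [U_c : U_c²]` gives `[U : U²] = 2 cO`. -/
theorem sq_index (M : IntermediateField K Ω) [FiniteDimensional K M] :
    (Ms M).relIndex (Mu M) = 4 * cO L M := by
  obtain ⟨π, hπ, hπ0, hπ1, hπv⟩ := L.unif M inferInstance
  have hπ0' : π ≠ 0 := L.ne_zero hπ0
  have hsU : Ms M ⊔ su_U L M ≤ Mu M := by
    refine sup_le ?_ (su_U_le L M)
    rintro _ ⟨y, hy, rfl⟩
    exact (Mu M).pow_mem hy 2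
  have h1 := Subgroup.relIndex_mul_relIndex (Ms M) (Ms M ⊔ su_U L M) (Mu M) le_sup_left hsU
  have h2 : (Ms M).relIndex (Ms M ⊔ su_U L M) = 2 * cO L M := by
    rw [sup_comm, Subgroup.relIndex_sup_right, ← su_U_sq L M, ← Subgroup.inf_relIndex_right]
    congr 1
    ext x
    constructor
    · rintro ⟨⟨y, hy, rfl⟩, hx⟩
      refine ⟨y, ⟨hy, ?_⟩, rfl⟩
      have h3 : L.nm ((y ^ 2 : Ωˣ) : Ω) = 1 := hx.2
      rw [Units.val_pow_eq_pow_val, L.pow] at h3
      exact (pow_eq_one_iff_of_nonneg (L.nonneg _) two_ne_zero).1 h3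
    · rintro ⟨y, hy, rfl⟩
      exact ⟨⟨y, hy.1, rfl⟩, (su_U L M).pow_mem hy 2⟩
  have hval : ∀ x : Ωˣ, x ∈ Mu M → (x ∈ Ms M ⊔ su_U L M ↔ ∃ n : ℤ, L.nm x = L.nm π ^ (2 * n)) := by
    intro x hx
    constructor
    · intro h
      obtain ⟨_, ⟨y, hy, rfl⟩, z, hz, rfl⟩ := Subgroup.mem_sup.1 h
      obtain ⟨n, hn⟩ := hπv _ hy y.ne_zero
      refine ⟨n, ?_⟩
      change L.nm ((y ^ 2 * z : Ωˣ) : Ω) = _
      rw [Units.val_mul, L.mul, hz.2, mul_one, Units.val_pow_eq_pow_val, L.pow, hn, mul_comm,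
        zpow_mul, zpow_ofNat]
    · rintro ⟨n, hn⟩
      have h4 : x = (Units.mk0 π hπ0' ^ n) ^ 2 * (x * ((Units.mk0 π hπ0' ^ n) ^ 2)⁻¹) := by
        rw [mul_comm x, mul_inv_cancel_left]
      have h5 : Units.mk0 π hπ0' ^ n ∈ Mu M := (Mu M).zpow_mem (by exact hπ) n
      rw [h4]
      refine mul_mem ((le_sup_left : Ms M ≤ _) ⟨_, h5, rfl⟩) ((le_sup_right : su_U L M ≤ _) ?_)
      refine ⟨(Mu M).mul_mem hx ((Mu M).inv_mem ((Mu M).pow_mem h5 2)), ?_⟩
      rw [Units.val_mul, Units.val_inv_eq_inv_val, Units.val_pow_eq_pow_val,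
        Units.val_zpow_eq_zpow_val, Units.val_mk0, L.mul, L.inv, L.pow, L.zpow, hn, ← zpow_natCast,
        ← zpow_mul]
      have h6 : n * ((2 : ℕ) : ℤ) = 2 * n := by
        push_cast
        ring
      rw [h6]
      exact mul_inv_cancel₀ (zpow_ne_zero _ hπ0.ne')
  have h7 : (Ms M ⊔ su_U L M).relIndex (Mu M) = 2 := by
    rw [Subgroup.relIndex_eq_two_iff]
    refine ⟨Units.mk0 π hπ0', by exact hπ, ?_⟩
    intro b hb
    have h8 : b * Units.mk0 π hπ0' ∈ Mu M := (Mu M).mul_mem hb (by exact hπ)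
    rw [hval b hb, hval _ h8]
    obtain ⟨n, hn⟩ := hπv _ hb b.ne_zero
    have hinj : ∀ a b : ℤ, L.nm π ^ a = L.nm π ^ b → a = b := by
      intro a b hab
      exact zpow_right_injective₀ hπ0 hπ1.ne hab
    rw [Units.val_mul, Units.val_mk0, L.mul, hn, ← zpow_add_one₀ hπ0.ne']
    rcases Int.even_or_odd n with he | ho
    · right
      obtain ⟨k, hk⟩ := he
      refine ⟨⟨k, by rw [hk, two_mul]⟩, ?_⟩
      rintro ⟨k', hk'⟩
      have := hinj _ _ hk'
      omega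
    · left
      obtain ⟨k, hk⟩ := ho
      refine ⟨⟨k + 1, by rw [hk]; congr 1; ring⟩, ?_⟩
      rintro ⟨k', hk'⟩
      have := hinj _ _ hk'
      omega
  rw [← h1, h2, h7]
  ring

end BE
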