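import Pool.Agent.Lib.MP_f80667_ag.Be.Th

/-!
The calculus of the classes `f H u y` of `[(u, y)] - [(u, 0)]` and of
`br H a u y = f H (u + a) y - f H u y`.
-/

namespace BE

variable {Γ A B X : Type} [Group Γ] [AddCommGroup A] [AddCommGroup B] [DistribMulAction Γ A]
  [DistribMulAction Γ B] [MulAction Γ X] {D : Dt Γ A B X}

theorem tw_add (u : A) (γ : Γ) (y y' : B) : tw u γ (y + y') = tw u γ y + tw u γ y' := by
  unfold tw
  split_ifs
  · rw [smul_add]
  · rw [smul_add, neg_add]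

theorem tw_neg (u : A) (γ : Γ) (y : B) : tw u γ (-y) = -tw u γ y := by
  unfold tw
  split_ifs
  · rw [smul_neg]
  · rw [smul_neg]

theorem tw_tr {u a : A} {γ : Γ} (ha : γ • a = a) (y : B) : tw (u + a) γ y = tw u γ y := by
  have h : γ • (u + a) = u + a ↔ γ • u = u := by
    rw [smul_add, ha, add_left_inj]
  unfold tw
  by_cases h1 : γ • u = u
  · rw [if_pos h1, if_pos (h.2 h1)]
  · rw [if_neg h1, if_neg fun h2 => h1 (h.1 h2)]

theorem ac_sub (γ : Γ) (z z' : X →₀ ℤ) : ac γ (z - z') = ac γ z - ac γ z' :=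
  (Finsupp.mapDomain.addMonoidHom (M := ℤ) (γ • · : X → X)).map_sub z z'

/-! ### Points -/

namespace Dt

variable {H : Subgroup Γ} {u a : A} {y y₁ y₂ : B}

theorem px_add_t : D.px (u + D.t) (-y) = D.px u y := by
  exact ((D.px_eq u y (u + D.t) (-y)).2 (Or.inr ⟨rfl, rfl⟩)).symm

theorem s_add_t : D.s (u + D.t) (-y) = D.s u y := by
  unfold s
  rw [px_add_t]

/-- `tw u γ y` is determined by `γ [(u, y)] = [(u, tw u γ y)]` for `UU`. -/
theorem smul_px' (hu : D.UU H u) {γ : Γ} (hγ : γ ∈ H) :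
    γ • D.px u y = D.px u (tw u γ y) := by
  rw [D.smul_px]
  unfold tw
  split_ifs with h
  · rw [h]
  · rw [(hu γ hγ).resolve_left h]
    have h1 := px_add_t (D := D) (u := u) (y := -(γ • y))
    rw [neg_neg] at h1
    exact h1

theorem PP.uu (h : D.PP H u y) : D.UU H u := by
  intro γ hγ
  have h1 := h γ hγ
  rw [D.smul_px, D.px_eq] at h1
  rcases h1 with h1 | h1
  · exact Or.inl h1.1.symm
  · right
    rw [h1.1, add_assoc, D.two_t, add_zero, ← h1.1]

theorem ac_s (hu : D.PP H u y) {γ : Γ} (hγ : γ ∈ H) : ac γ (D.s u y) = D.s u y := by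
  unfold ac s
  rw [Finsupp.mapDomain_single, hu γ hγ]

theorem pp_iff (hu : D.UU H u) : D.PP H u y ↔ ∀ γ ∈ H, tw u γ y = y := by
  constructor
  · intro h γ hγ
    have h1 := h γ hγ
    rw [smul_px' hu hγ, D.px_eq] at h1
    rcases h1 with h1 | h1
    · exact h1.2.symm
    · exact absurd (left_eq_add.1 h1.1) D.t_ne
  · intro h γ hγ
    rw [smul_px' hu hγ, h γ hγ]

theorem pp_zero (hu : D.UU H u) : D.PP H u 0 := by
  rw [pp_iff hu]
  intro γ _
  unfold tw
  split_ifs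
  · rw [smul_zero]
  · rw [smul_zero, neg_zero]

theorem pp_add (h₁ : D.PP H u y₁) (h₂ : D.PP H u y₂) : D.PP H u (y₁ + y₂) := by
  have hu := h₁.uu
  rw [pp_iff hu] at h₁ h₂ ⊢
  intro γ hγ
  rw [tw_add, h₁ γ hγ, h₂ γ hγ]

theorem pp_neg (h : D.PP H u y) : D.PP H u (-y) := by
  have hu := h.uu
  rw [pp_iff hu] at h ⊢
  intro γ hγ
  rw [tw_neg, h γ hγ]

/-- translation by a point of `E₁` -/
theorem pp_tr (h : D.PP H u y) (ha : ∀ γ ∈ H, γ • a = a) : D.PP H (u + a) y := by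
  have hu := h.uu
  have hu' : D.UU H (u + a) := by
    intro γ hγ
    rw [smul_add, ha γ hγ]
    rcases hu γ hγ with h1 | h1
    · exact Or.inl (by rw [h1])
    · exact Or.inr (by rw [h1, add_right_comm])
  rw [pp_iff hu] at h
  rw [pp_iff hu']
  intro γ hγ
  rw [tw_tr (ha γ hγ), h γ hγ]

theorem pp_t (h : D.PP H u y) : D.PP H (u + D.t) y := by
  exact pp_tr h fun γ _ => D.smul_t γ

theorem pp_mono {T : Subgroup Γ} (hT : T ≤ H) (h : D.PP H u y) : D.PP T u y := by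
  exact fun γ hγ => h γ (hT hγ)

theorem uu_of_fix (hu : ∀ γ ∈ H, γ • u = u) : D.UU H u := by
  exact fun γ hγ => Or.inl (hu γ hγ)

/-- For a fixed `u` the points over `[u]` are the fixed `y`. -/
theorem pp_fix (hu : ∀ γ ∈ H, γ • u = u) : D.PP H u y ↔ ∀ γ ∈ H, γ • y = y := by
  rw [pp_iff (uu_of_fix hu)]
  refine forall_congr' fun γ => forall_congr' fun hγ => ?_
  unfold tw
  rw [if_pos (hu γ hγ)]

end Dt

namespace Th

variable {G : Type} [AddCommGroup G] (T : Th D G) {H : Subgroup Γ} {u a a₁ a₂ τ : A} {y y₁ y₂ : B}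

theorem f_eq (H : Subgroup Γ) (u : A) (y : B) :
    T.f H u y = T.cl H (D.s u y) - T.cl H (D.s u 0) := by
  unfold f
  rw [map_sub]

/-- an element killed by `2` and by an odd number -/
theorem two_odd {g : G} {n : ℕ} (hn : Odd n) (h2 : 2 • g = 0) (h : n • g = 0) : g = 0 := by
  obtain ⟨k, rfl⟩ := hn
  rw [add_smul, mul_comm, mul_smul, h2, smul_zero, zero_add, one_smul] at h
  exact h

/-- The symbol `{a, (u, y)}`. -/
noncomputable def br (H : Subgroup Γ) (a u : A) (y : B) : G := T.f H (u + a) y - T.f H u y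

theorem f_zero : T.f H u 0 = 0 := by
  rw [f_eq, sub_self]

/-- Proof: `pB`. -/
theorem f_add (hH : T.op H) (h₁ : D.PP H u y₁) (h₂ : D.PP H u y₂) :
    T.f H u (y₁ + y₂) = T.f H u y₁ + T.f H u y₂ := by
  have h := T.pB H u y₁ y₂ hH h₁.uu fun γ hγ => Or.inl ⟨h₁ γ hγ, h₂ γ hγ⟩
  rw [map_add, map_add] at h
  rw [f_eq, f_eq, f_eq, eq_sub_of_add_eq h.symm]
  abel

theorem f_neg (hH : T.op H) (h : D.PP H u y) : T.f H u (-y) = - T.f H u y := by
  have h1 := T.f_add hH h (Dt.pp_neg h)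
  rw [add_neg_cancel, f_zero] at h1
  exact (neg_eq_of_add_eq_zero_right h1.symm).symm

/-- Proof: `[(u + t, y)] = [(u, - y)]`. -/
theorem f_add_t (hH : T.op H) (h : D.PP H u y) : T.f H (u + D.t) y = - T.f H u y := by
  rw [← T.f_neg hH h, f_eq, f_eq]
  have h1 := Dt.s_add_t (D := D) (u := u) (y := -y)
  have h2 := Dt.s_add_t (D := D) (u := u) (y := 0)
  rw [neg_neg] at h1
  rw [neg_zero] at h2
  rw [h1, h2]

theorem f_pA (hH : T.op H) (h : D.PP H u y) (ha : ∀ γ ∈ H, (γ • a₁ = a₁ ∧ γ • a₂ = a₂) ∨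
    (γ • a₁ = a₂ ∧ γ • a₂ = a₁)) : T.f H (u + a₁) y + T.f H (u + a₂) y =
      T.f H (u + a₁ + a₂) y + T.f H u y := by
  have h1 := T.pA H u a₁ a₂ y hH h ha
  have h2 := T.pA H u a₁ a₂ 0 hH (Dt.pp_zero h.uu) ha
  rw [map_add, map_add] at h1 h2
  rw [f_eq, f_eq, f_eq, f_eq, eq_sub_of_add_eq h1, eq_sub_of_add_eq h2]
  abel

/-- Proof: `pA` for `y` and for `0`. -/
theorem br_add (hH : T.op H) (h : D.PP H u y) (h₁ : ∀ γ ∈ H, γ • a₁ = a₁)
    (h₂ : ∀ γ ∈ H, γ • a₂ = a₂) : T.br H (a₁ + a₂) u y = T.br H a₁ u y + T.br H a₂ u y := by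
  have h3 := T.f_pA hH h fun γ hγ => Or.inl ⟨h₁ γ hγ, h₂ γ hγ⟩
  unfold br
  rw [← add_assoc, eq_sub_of_add_eq h3.symm]
  abel

/-- The symbol does not depend on the base point. Proof: `br_add`. -/
theorem br_base (hH : T.op H) (h : D.PP H u y) (h₁ : ∀ γ ∈ H, γ • a₁ = a₁)
    (h₂ : ∀ γ ∈ H, γ • a₂ = a₂) : T.br H a₁ (u + a₂) y = T.br H a₁ u y := by
  have h3 := T.br_add hH h h₁ h₂
  have h4 : T.br H (a₁ + a₂) u y = T.br H a₁ (u + a₂) y + T.br H a₂ u y := by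
    unfold br
    rw [add_comm a₁ a₂, ← add_assoc]
    abel
  rw [h4] at h3
  exact add_right_cancel h3

theorem br_add_y (hH : T.op H) (ha : ∀ γ ∈ H, γ • a = a) (h₁ : D.PP H u y₁) (h₂ : D.PP H u y₂) :
    T.br H a u (y₁ + y₂) = T.br H a u y₁ + T.br H a u y₂ := by
  unfold br
  rw [T.f_add hH (Dt.pp_tr h₁ ha) (Dt.pp_tr h₂ ha), T.f_add hH h₁ h₂]
  abel

/-- `{t, (u, y)} = - 2 f (u, y)`. -/
theorem br_t (hH : T.op H) (h : D.PP H u y) : T.br H D.t u y = - (2 • T.f H u y) := by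
  unfold br
  rw [T.f_add_t hH h, two_nsmul]
  abel

/-- `2 {a, P} = 0`. Proof: `br_t` at `u` and at `u + a`, and `br_base`. -/
theorem two_br (hH : T.op H) (h : D.PP H u y) (ha : ∀ γ ∈ H, γ • a = a) :
    2 • T.br H a u y = 0 := by
  have h1 := T.br_base (a₁ := D.t) hH h (fun γ _ => D.smul_t γ) ha
  rw [T.br_t hH (Dt.pp_tr h ha), T.br_t hH h, neg_inj] at h1
  unfold br
  rw [smul_sub, h1, sub_self]

/-- `4 f = 0`. -/
theorem four_f (hH : T.op H) (h : D.PP H u y) : 4 • T.f H u y = 0 := by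
  have h1 := T.two_br (a := D.t) hH h fun γ _ => D.smul_t γ
  rw [T.br_t hH h, smul_neg, neg_eq_zero, ← mul_smul] at h1
  exact h1

/-- `{2 τ, P} = 0` if `[τ]` is a point of `E₁ / t`. Proof: `pA` for `a₁ = τ`, `a₂ = τ + t` over `(u, y)` and
over `(u, 0)`: `[(u + τ + t, y)] = [(u + τ, - y)]` and `[(u + τ, y)] + [(u + τ, - y)] ~ 2 [(u + τ, 0)]` by
`pB` (the pair is stable: `γ (u + τ) = u + τ` or `u + τ + t`, `γ y = ± y`), so
`f (u + 2 τ + t) y + f u y = 0`, and `f (u + 2 τ + t) y = - f (u + 2 τ) y` by `f_add_t`. -/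
theorem br_two (hH : T.op H) (h : D.PP H u y) (hτ : D.UU H τ) : T.br H (τ + τ) u y = 0 := by
  have hu := h.uu
  have ht2 : ∀ z : A, z + D.t + D.t = z := fun z => by rw [add_assoc, D.two_t, add_zero]
  -- the pair `τ`, `τ + t`
  have hτ' : ∀ γ ∈ H, (γ • τ = τ ∧ γ • (τ + D.t) = τ + D.t) ∨
      (γ • τ = τ + D.t ∧ γ • (τ + D.t) = τ) := by
    intro γ hγ
    rw [smul_add, D.smul_t]
    rcases hτ γ hγ with h1 | h1
    · exact Or.inl ⟨h1, by rw [h1]⟩
    · exact Or.inr ⟨h1, by rw [h1, ht2]⟩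
  have h1 := T.f_pA hH h hτ'
  -- `f (u + τ + t) y = f (u + τ) (-y)` in terms of cycles
  have huτ : D.UU H (u + τ) := by
    intro γ hγ
    rw [smul_add]
    rcases hu γ hγ with h2 | h2 <;> rcases hτ γ hγ with h3 | h3 <;> rw [h2, h3]
    · exact Or.inl rfl
    · exact Or.inr (by rw [add_assoc])
    · exact Or.inr (by rw [add_right_comm])
    · left
      rw [← add_assoc, add_right_comm u D.t τ, ht2]
  have hy : ∀ γ ∈ H, γ • y = y ∨ γ • y = -y := by
    intro γ hγ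
    have h2 := (Dt.pp_iff hu).1 h γ hγ
    unfold tw at h2
    split_ifs at h2
    · exact Or.inl h2
    · exact Or.inr (neg_eq_iff_eq_neg.1 h2)
  have htw : ∀ γ ∈ H, (tw (u + τ) γ y = y ∧ tw (u + τ) γ (-y) = -y) ∨
      (tw (u + τ) γ y = -y ∧ tw (u + τ) γ (-y) = y) := by
    intro γ hγ
    rw [tw_neg]
    have h2 : tw (u + τ) γ y = y ∨ tw (u + τ) γ y = -y := by
      unfold tw
      split_ifs
      · exact hy γ hγ
      · rcases hy γ hγ with h3 | h3
        · exact Or.inr (by rw [h3])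
        · exact Or.inl (by rw [h3, neg_neg])
    rcases h2 with h2 | h2
    · exact Or.inl ⟨h2, by rw [h2]⟩
    · exact Or.inr ⟨h2, by rw [h2, neg_neg]⟩
  have h2 := T.pB H (u + τ) y (-y) hH huτ fun γ hγ => by
    rw [Dt.smul_px' huτ hγ, Dt.smul_px' huτ hγ]
    rcases htw γ hγ with h3 | h3
    · exact Or.inl ⟨by rw [h3.1], by rw [h3.2]⟩
    · exact Or.inr ⟨by rw [h3.1], by rw [h3.2]⟩
  rw [add_neg_cancel, map_add, map_add] at h2
  have h3 := Dt.s_add_t (D := D) (u := u + τ) (y := -y)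
  have h4 := Dt.s_add_t (D := D) (u := u + τ) (y := 0)
  rw [neg_neg] at h3
  rw [neg_zero] at h4
  have h5 : T.f H (u + τ) y + T.f H (u + (τ + D.t)) y = 0 := by
    rw [← add_assoc, f_eq, f_eq, h3, h4, eq_sub_of_add_eq h2]
    abel
  have hfix : ∀ γ ∈ H, γ • (τ + τ) = τ + τ := by
    intro γ hγ
    rw [smul_add]
    rcases hτ γ hγ with h6 | h6 <;> rw [h6]
    rw [← add_assoc, add_right_comm τ D.t τ, ht2]
  have h7 := T.f_add_t hH (Dt.pp_tr h hfix)
  have h8 : u + τ + (τ + D.t) = u + (τ + τ) + D.t := by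
    rw [← add_assoc, ← add_assoc]
  rw [h5, h8, h7] at h1
  unfold br
  rw [neg_add_eq_sub] at h1
  rw [← neg_sub, ← h1, neg_zero]

/-- Restriction. -/
theorem f_res {S : Subgroup Γ} (hS : T.op S) (hSH : S ≤ H) (h : D.PP H u y) :
    T.f S u y = S.relIndex H • T.f H u y := by
  unfold f
  refine T.res H S _ hS hSH fun γ hγ => ?_
  rw [ac_sub, Dt.ac_s h hγ, Dt.ac_s (Dt.pp_zero h.uu) hγ]

/-- Restriction to an extension of odd degree is injective on the classes. -/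
theorem f_odd {S : Subgroup Γ} (hS : T.op S) (hSH : S ≤ H) (ho : Odd (S.relIndex H))
    (h : D.PP H u y) (h0 : T.f S u y = 0) : T.f H u y = 0 := by
  have hH := T.op_mono S H hS hSH
  rw [T.f_res hS hSH h] at h0
  have h4 := T.four_f hH h
  have h2 : 2 • T.f H u y = 0 := by
    refine two_odd ho ?_ ?_
    · rw [← mul_smul]
      exact h4
    · rw [smul_comm, h0, smul_zero]
  exact two_odd ho h2 h0

theorem br_odd {S : Subgroup Γ} (hS : T.op S) (hSH : S ≤ H) (ho : Odd (S.relIndex H))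
    (h : D.PP H u y) (ha : ∀ γ ∈ H, γ • a = a) (h0 : T.br S a u y = 0) : T.br H a u y = 0 := by
  have hH := T.op_mono S H hS hSH
  have h1 : T.br S a u y = S.relIndex H • T.br H a u y := by
    unfold br
    rw [T.f_res hS hSH h, T.f_res hS hSH (Dt.pp_tr h ha), smul_sub]
  rw [h1] at h0
  exact two_odd ho (T.two_br hH h ha) h0

end Th

end BE
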