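import Pool.Agent.Lib.MP_f80667_ag.Be.Pair
import Pool.Agent.Lib.MP_f80667_ag.Be.Trc
import Pool.Agent.Lib.MP_f80667_ag.Be.ThM

/-! The formal properties hold for the classes of the points of `X`. -/

open ZC Polynomial

namespace BE

variable {F : Type} [Field F] {K : Type} [Field K] [CharZero K] [Algebra F K] {Ω : Type} [Field Ω]
  [Algebra K Ω] [Algebra F Ω] [IsScalarTower F K Ω] [IsAlgClosure K Ω] (C : Cf F)

omit [CharZero K] [IsAlgClosure K Ω] in
/-- An automorphism over `M` is an element of the fixing subgroup. -/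
theorem res_mem_fix (M : IntermediateField K Ω) (γ : Ω ≃ₐ[M] Ω) :
    γ.restrictScalars K ∈ M.fixingSubgroup := by
  rw [IntermediateField.mem_fixingSubgroup_iff]
  intro x hx
  exact γ.commutes ⟨x, hx⟩

/-- A cycle rationally equivalent to `0` over the fixed field of `H` gives the class `0`. -/
theorem cl_eq (R : AddSubgroup (C.X.pt Ω →₀ ℤ)) (hR : C.X.ratEq K Ω ≤ R)
    (M : IntermediateField K Ω) [FiniteDimensional K M] {z z' : C.X.pt Ω →₀ ℤ}
    (h : z - z' ∈ C.X.ratEq M Ω) :
    (QuotientAddGroup.mk' R).comp (trG (C.X.pt Ω) M.fixingSubgroup) z =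
      (QuotientAddGroup.mk' R).comp (trG (C.X.pt Ω) M.fixingSubgroup) z' := by
  have h1 := hR (tr_ratEq C M h)
  rw [← sub_eq_zero, ← map_sub, AddMonoidHom.comp_apply]
  exact (QuotientAddGroup.eq_zero_iff _).2 h1

/-- The classes modulo a group `R` which contains the cycles rationally equivalent to `0`. Proofs: `opn_top`, ...;
`trG_res`, `trG_tr`; `exists_fix`, `pairA`, `pairB` over the fixed field `M` of `H` (as `K`) and `tr_ratEq`. -/
noncomputable def Cf.th' (R : AddSubgroup (C.X.pt Ω →₀ ℤ)) (hR : C.X.ratEq K Ω ≤ R) :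
    Th (C.dt K Ω) ((C.X.pt Ω →₀ ℤ) ⧸ R) where
  op := opn K Ω
  op_top := opn_top
  op_mono := opn_mono
  op_core := opn_core
  op_fin := opn_fin
  cl H := (QuotientAddGroup.mk' R).comp (trG (C.X.pt Ω) H)
  res := by
    intro H T z hT hTH hz
    rw [AddMonoidHom.comp_apply, AddMonoidHom.comp_apply, trG_res (opn_fin T hT) hTH hz, map_nsmul]
  tr := by
    intro H T z hT hTH hz
    rw [AddMonoidHom.comp_apply, AddMonoidHom.comp_apply, trG_tr (opn_fin T hT) hTH hz]
    rfl
  pB := by
    intro H u y₁ y₂ hH hu h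
    obtain ⟨M, hM, rfl⟩ := exists_fix hH
    have : IsAlgClosure M Ω := ⟨IsAlgClosure.isAlgClosed K, inferInstance⟩
    have : IsScalarTower F M Ω := IsScalarTower.of_algebraMap_eq fun _ => rfl
    refine cl_eq C R hR M ?_
    refine pairB (K := M) C u y₁ y₂ ?_ ?_
    · intro γ
      exact hu _ (res_mem_fix M γ)
    · intro γ
      exact h _ (res_mem_fix M γ)
  pA := by
    intro H u a₁ a₂ y hH hu h
    obtain ⟨M, hM, rfl⟩ := exists_fix hH
    have : IsAlgClosure M Ω := ⟨IsAlgClosure.isAlgClosed K, inferInstance⟩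
    have : IsScalarTower F M Ω := IsScalarTower.of_algebraMap_eq fun _ => rfl
    refine cl_eq C R hR M ?_
    refine pairA (K := M) C u a₁ a₂ y ?_ ?_
    · intro γ
      exact hu _ (res_mem_fix M γ)
    · intro γ
      exact h _ (res_mem_fix M γ)

end BE
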