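import Pool.Agent.Lib.MP_f80667_ag.Be.ThA

/-! Norms for the classes of points, for groups which act through a group of order a power of two. -/

namespace BE

variable {Γ A B X : Type} [Group Γ] [AddCommGroup A] [AddCommGroup B] [DistribMulAction Γ A]
  [DistribMulAction Γ B] [MulAction Γ X] {D : Dt Γ A B X} {G : Type} [AddCommGroup G] (T : Th D G)

theorem ThN_ac_sum {ι : Type*} (γ : Γ) (s : Finset ι) (g : ι → X →₀ ℤ) :
    ac γ (∑ i ∈ s, g i) = ∑ i ∈ s, ac γ (g i) :=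
  map_sum (Finsupp.mapDomain.addMonoidHom (M := ℤ) (γ • · : X → X)) g s

theorem ThN_ac_mul (γ δ : Γ) (z : X →₀ ℤ) : ac (γ * δ) z = ac γ (ac δ z) := by
  unfold ac
  rw [← Finsupp.mapDomain_comp]
  congr 1
  funext x
  exact mul_smul γ δ x

/-- The trace over a quadratic extension. Proof: `Th.tr`; the quotient has the two elements `1`, `σ` and
`z` is invariant under `S`. -/
theorem Th.tr2 {H S : Subgroup Γ} (hS : T.op S) (hSH : S ≤ H) (h2 : S.relIndex H = 2) {σ : Γ}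
    (hσ : σ ∈ H) (hσ' : σ ∉ S) {z : X →₀ ℤ} (hz : ∀ γ ∈ S, ac γ z = z) :
    T.cl S z = T.cl H (z + ac σ z) := by
  classical
  rw [T.tr H S z hS hSH hz]
  congr 1
  have hc : Nat.card (H ⧸ S.subgroupOf H) = 2 := h2
  have hfin : Finite (H ⧸ S.subgroupOf H) := Nat.finite_of_card_ne_zero (by rw [hc]; norm_num)
  have : Fintype (H ⧸ S.subgroupOf H) := Fintype.ofFinite _
  have hout : ∀ g : H, ac (((g : H ⧸ S.subgroupOf H).out : H) : Γ) z = ac (g : Γ) z := by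
    intro g
    have h1 : g⁻¹ * ((g : H ⧸ S.subgroupOf H).out : H) ∈ S.subgroupOf H := by
      rw [← QuotientGroup.eq]
      exact (QuotientGroup.out_eq' _).symm
    have h3 : (((g : H ⧸ S.subgroupOf H).out : H) : Γ) =
        (g : Γ) * ((g⁻¹ * ((g : H ⧸ S.subgroupOf H).out : H) : H) : Γ) := by
      rw [Subgroup.coe_mul, Subgroup.coe_inv, mul_inv_cancel_left]
    rw [h3, ThN_ac_mul, hz _ (Subgroup.mem_subgroupOf.1 h1)]
  have hne : ((1 : H) : H ⧸ S.subgroupOf H) ≠ ((⟨σ, hσ⟩ : H) : H ⧸ S.subgroupOf H) := by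
    intro h
    rw [QuotientGroup.eq, inv_one, one_mul, Subgroup.mem_subgroupOf] at h
    exact hσ' h
  obtain ⟨q, _, hq⟩ := (Nat.card_eq_two_iff' ((1 : H) : H ⧸ S.subgroupOf H)).1 hc
  rw [finsum_eq_sum_of_fintype, Fintype.sum_eq_add _ _ hne, hout, hout]
  · congr 1
    unfold ac
    have h4 : (fun x : X => ((1 : H) : Γ) • x) = id := by
      funext x
      exact one_smul Γ x
    rw [h4, Finsupp.mapDomain_id]
  · rintro x ⟨hx1, hx2⟩
    exact absurd ((hq x hx1).trans (hq _ hne.symm).symm) hx2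

/-- A transitive action of a group `H` with more than one point, through a finite `2`-group `H / N`: there is
a subgroup `S` of index two which contains the stabiliser of `z`; the set is the disjoint union of the
orbit `S z` and of its image under `σ ∉ S`. Proof: the stabiliser is a proper subgroup, contained in a
maximal one, which has index `2` (`p`-groups: `IsPGroup`, normalizer condition or
`Sylow.exists_subgroup_card_pow_succ`). -/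
theorem exists_index_two {H : Subgroup Γ} {N : Subgroup Γ} (hN : N.Normal) (hNH : N ≤ H)
    (hp : ∃ k, N.relIndex H = 2 ^ k) (S₀ : Subgroup Γ) (hS₀ : N ≤ S₀)
    (hS₀H : S₀ < H) : ∃ S : Subgroup Γ, S₀ ≤ S ∧ S ≤ H ∧ S.relIndex H = 2 := by
  classical
  obtain ⟨k, hk⟩ := hp
  have hNn : (N.subgroupOf H).Normal := hN.subgroupOf H
  have hcard : Nat.card (H ⧸ N.subgroupOf H) = 2 ^ k := hk
  have hfin : Finite (H ⧸ N.subgroupOf H) :=
    Nat.finite_of_card_ne_zero (by rw [hcard]; positivity)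
  have hp2 : Fact (Nat.Prime 2) := ⟨Nat.prime_two⟩
  let π : H →* H ⧸ N.subgroupOf H := QuotientGroup.mk' (N.subgroupOf H)
  have hπ : Function.Surjective π := QuotientGroup.mk'_surjective _
  have hker : π.ker = N.subgroupOf H := QuotientGroup.ker_mk' _
  let S' : Subgroup (H ⧸ N.subgroupOf H) := (S₀.subgroupOf H).map π
  have hcm : S'.comap π = S₀.subgroupOf H := by
    rw [Subgroup.comap_map_eq, hker, sup_eq_left]
    exact fun g hg => Subgroup.mem_subgroupOf.2 (hS₀ (Subgroup.mem_subgroupOf.1 hg))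
  have hS't : S' ≠ ⊤ := by
    intro h
    rw [h, Subgroup.comap_top] at hcm
    have h1 : H ≤ S₀ := Subgroup.subgroupOf_eq_top.1 hcm.symm
    exact absurd h1 (not_le_of_gt hS₀H)
  obtain ⟨j, hj⟩ : ∃ j, Nat.card S' = 2 ^ j := by
    have h1 : Nat.card S' ∣ 2 ^ k := hcard ▸ Subgroup.card_subgroup_dvd_card S'
    obtain ⟨j, _, hj⟩ := (Nat.dvd_prime_pow Nat.prime_two).1 h1
    exact ⟨j, hj⟩
  have hjk : j < k := by
    by_contra h
    have h1 : Nat.card (H ⧸ N.subgroupOf H) ≤ Nat.card S' := by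
      rw [hcard, hj]
      exact Nat.pow_le_pow_right (by norm_num) (not_lt.1 h)
    exact hS't (Subgroup.eq_top_of_le_card S' h1)
  obtain ⟨K, hK, hS'K⟩ := Sylow.exists_subgroup_card_pow_prime_le 2 (n := j) (m := k - 1)
    (G := H ⧸ N.subgroupOf H) (by rw [hcard]; exact pow_dvd_pow _ (Nat.sub_le _ _)) S' hj
    (Nat.le_sub_one_of_lt hjk)
  refine ⟨(K.comap π).map H.subtype, ?_, Subgroup.map_subtype_le _, ?_⟩
  · intro γ hγ
    rw [Subgroup.mem_map]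
    refine ⟨⟨γ, hS₀H.le hγ⟩, ?_, rfl⟩
    refine Subgroup.mem_comap.2 (hS'K ?_)
    exact Subgroup.mem_map_of_mem π (Subgroup.mem_subgroupOf.2 hγ)
  · have h1 : ((K.comap π).map H.subtype).subgroupOf H = K.comap π :=
      Subgroup.comap_map_eq_self_of_injective H.subtype_injective (K.comap π)
    change (((K.comap π).map H.subtype).subgroupOf H).index = 2
    rw [h1, Subgroup.index_comap_of_surjective K hπ]
    have h2 := K.card_mul_index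
    rw [hcard, hK] at h2
    have h3 : 2 ^ k = 2 ^ (k - 1) * 2 := by
      rw [← pow_succ, Nat.sub_add_cancel (Nat.one_le_of_lt hjk)]
    rw [h3] at h2
    exact Nat.eq_of_mul_eq_mul_left (by positivity) h2

/-- The common induction for the norms. `act γ` is the action of `γ ∈ H₀` on the group `M` and `w x` a
cycle which depends on `x ∈ M`. -/
theorem Th.ThN_ind {M : Type} [AddCommGroup M] (H₀ : Subgroup Γ) (act : Γ → M →+ M)
    (w : M → X →₀ ℤ) (hac : ∀ γ ∈ H₀, ∀ x, ac γ (w x) = w (act γ x)) (h0 : w 0 = 0)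
    (hadd : ∀ H : Subgroup Γ, H ≤ H₀ → T.op H → ∀ x₁ x₂ : M,
      (∀ γ ∈ H, (act γ x₁ = x₁ ∧ act γ x₂ = x₂) ∨ (act γ x₁ = x₂ ∧ act γ x₂ = x₁)) →
      T.cl H (w x₁ + w x₂) = T.cl H (w (x₁ + x₂)))
    {N : Subgroup Γ} (hN : N.Normal) (hNo : T.op N) {Z : Type} (m : Γ → Z → Z) (x : Z → M)
    (n : ℕ) : ∀ (H : Subgroup Γ), H ≤ H₀ → N ≤ H → (∃ k, N.relIndex H = 2 ^ k) →
    ∀ (C : Finset Z), (∀ γ ∈ H, ∀ z ∈ C, m γ z ∈ C) →
    (∀ γ ∈ H, ∀ δ ∈ H, ∀ z ∈ C, m (γ * δ) z = m γ (m δ z)) → (∀ γ ∈ N, ∀ z ∈ C, m γ z = z) →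
    (∀ γ ∈ H, ∀ z ∈ C, x (m γ z) = act γ (x z)) → C.card = n →
    T.cl H (∑ z ∈ C, w (x z)) = T.cl H (w (∑ z ∈ C, x z)) := by
  classical
  induction n using Nat.strong_induction_on with
  | _ n ih =>
  intro H hH0 hNH hp C hst hmul htr hx hcard
  have hHo : T.op H := T.op_mono N H hNo hNH
  have hone : ∀ z ∈ C, m 1 z = z := htr 1 N.one_mem
  have hinv : ∀ γ ∈ H, ∀ z ∈ C, m γ⁻¹ (m γ z) = z := by
    intro γ hγ z hz
    rw [← hmul _ (H.inv_mem hγ) _ hγ z hz, inv_mul_cancel, hone z hz]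
  have hinv' : ∀ γ ∈ H, ∀ z ∈ C, m γ (m γ⁻¹ z) = z := by
    intro γ hγ z hz
    rw [← hmul _ hγ _ (H.inv_mem hγ) z hz, mul_inv_cancel, hone z hz]
  -- transport of sums
  have hsum : ∀ γ ∈ H, ∀ (C₁ C₂ : Finset Z), C₁ ⊆ C → C₂ ⊆ C → (∀ z ∈ C₁, m γ z ∈ C₂) →
      (∀ z ∈ C₂, m γ⁻¹ z ∈ C₁) → ∀ {R : Type} [AddCommMonoid R] (g : Z → R),
      ∑ z ∈ C₁, g (m γ z) = ∑ z ∈ C₂, g z := by
    intro γ hγ C₁ C₂ h1 h2 h3 h4 R _ g
    exact Finset.sum_nbij' (m γ) (m γ⁻¹) h3 h4 (fun z hz => hinv γ hγ z (h1 hz))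
      (fun z hz => hinv' γ hγ z (h2 hz)) (fun z _ => rfl)
  have hactsum : ∀ γ ∈ H, ∀ (C₁ C₂ : Finset Z), C₁ ⊆ C → C₂ ⊆ C → (∀ z ∈ C₁, m γ z ∈ C₂) →
      (∀ z ∈ C₂, m γ⁻¹ z ∈ C₁) → act γ (∑ z ∈ C₁, x z) = ∑ z ∈ C₂, x z := by
    intro γ hγ C₁ C₂ h1 h2 h3 h4
    rw [map_sum, ← hsum γ hγ C₁ C₂ h1 h2 h3 h4 x]
    exact Finset.sum_congr rfl fun z hz => (hx γ hγ z (h1 hz)).symm
  have hacsum : ∀ γ ∈ H, ∀ (C₁ C₂ : Finset Z), C₁ ⊆ C → C₂ ⊆ C → (∀ z ∈ C₁, m γ z ∈ C₂) →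
      (∀ z ∈ C₂, m γ⁻¹ z ∈ C₁) → ac γ (∑ z ∈ C₁, w (x z)) = ∑ z ∈ C₂, w (x z) := by
    intro γ hγ C₁ C₂ h1 h2 h3 h4
    rw [ThN_ac_sum, ← hsum γ hγ C₁ C₂ h1 h2 h3 h4 fun z => w (x z)]
    refine Finset.sum_congr rfl fun z hz => ?_
    rw [hac γ (hH0 hγ), hx γ hγ z (h1 hz)]
  rcases C.eq_empty_or_nonempty with rfl | ⟨z₀, hz₀⟩
  · rw [Finset.sum_empty, Finset.sum_empty, h0]
  by_cases htrans : ∀ z ∈ C, ∃ γ ∈ H, m γ z₀ = z
  · -- the transitive case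
    by_cases hone' : ∀ z ∈ C, z = z₀
    · have hC : C = {z₀} := by
        ext z
        rw [Finset.mem_singleton]
        exact ⟨fun h => hone' z h, fun h => h ▸ hz₀⟩
      rw [hC, Finset.sum_singleton, Finset.sum_singleton]
    · push Not at hone'
      obtain ⟨z₁, hz₁, hz₁₀⟩ := hone'
      let S₀ : Subgroup Γ :=
        { carrier := {γ | γ ∈ H ∧ m γ z₀ = z₀}
          mul_mem' := fun {γ δ} h1 h2 => ⟨H.mul_mem h1.1 h2.1, by
            rw [hmul γ h1.1 δ h2.1 z₀ hz₀, h2.2, h1.2]⟩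
          one_mem' := ⟨H.one_mem, hone z₀ hz₀⟩
          inv_mem' := fun {γ} h1 => ⟨H.inv_mem h1.1, by
            have h2 := hinv γ h1.1 z₀ hz₀
            rw [h1.2] at h2
            exact h2⟩ }
      have hNS₀ : N ≤ S₀ := fun γ hγ => ⟨hNH hγ, htr γ hγ z₀ hz₀⟩
      have hS₀H : S₀ < H := by
        refine lt_of_le_of_ne (fun γ hγ => hγ.1) fun h => ?_
        obtain ⟨γ, hγ, h1⟩ := htrans z₁ hz₁
        rw [← h] at hγ
        exact hz₁₀ (h1.symm.trans hγ.2)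
      obtain ⟨S, hS₀S, hSH, hS2⟩ := exists_index_two hN hNH hp S₀ hNS₀ hS₀H
      have hNS : N ≤ S := hNS₀.trans hS₀S
      have hSo : T.op S := T.op_mono N S hNo hNS
      have hmm : ∀ γ ∈ H, ∀ δ ∈ H, (γ * δ ∈ S ↔ (γ ∈ S ↔ δ ∈ S)) := by
        intro γ hγ δ hδ
        have h1 := Subgroup.mul_mem_iff_of_index_two (H := S.subgroupOf H) hS2
          (a := ⟨γ, hγ⟩) (b := ⟨δ, hδ⟩)
        rw [Subgroup.mem_subgroupOf, Subgroup.mem_subgroupOf, Subgroup.mem_subgroupOf] at h1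
        exact h1
      obtain ⟨σ, hσ, hσS⟩ : ∃ σ ∈ H, σ ∉ S := by
        by_contra h
        push Not at h
        have h1 : S.relIndex H = 1 := Subgroup.relIndex_eq_one.2 h
        rw [h1] at hS2
        exact absurd hS2 (by norm_num)
      have hpS : ∃ k, N.relIndex S = 2 ^ k := by
        obtain ⟨k, hk⟩ := hp
        have h1 := Subgroup.relIndex_mul_relIndex N S H hNS hSH
        rw [hk, hS2] at h1
        have h2 : N.relIndex S ∣ 2 ^ k := ⟨2, h1.symm⟩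
        obtain ⟨j, _, hj⟩ := (Nat.dvd_prime_pow Nat.prime_two).1 h2
        exact ⟨j, hj⟩
      let C₀ : Finset Z := C.filter fun z => ∃ γ ∈ S, m γ z₀ = z
      let C₁ : Finset Z := C.filter fun z => ∃ γ ∈ H, γ ∉ S ∧ m γ z₀ = z
      have hC₀ : C₀ ⊆ C := Finset.filter_subset _ _
      have hC₁ : C₁ ⊆ C := Finset.filter_subset _ _
      have hmem₀ : ∀ {z}, z ∈ C₀ ↔ z ∈ C ∧ ∃ γ ∈ S, m γ z₀ = z := fun {z} => Finset.mem_filter
      have hmem₁ : ∀ {z}, z ∈ C₁ ↔ z ∈ C ∧ ∃ γ ∈ H, γ ∉ S ∧ m γ z₀ = z :=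
        fun {z} => Finset.mem_filter
      have h00 : ∀ γ ∈ S, ∀ z ∈ C₀, m γ z ∈ C₀ := by
        intro γ hγ z hz
        obtain ⟨h1, δ, h2, h3⟩ := hmem₀.1 hz
        refine hmem₀.2 ⟨hst γ (hSH hγ) z h1, γ * δ, S.mul_mem hγ h2, ?_⟩
        rw [hmul γ (hSH hγ) δ (hSH h2) z₀ hz₀, h3]
      have h11 : ∀ γ ∈ S, ∀ z ∈ C₁, m γ z ∈ C₁ := by
        intro γ hγ z hz
        obtain ⟨h1, δ, h2, h3, h4⟩ := hmem₁.1 hz
        refine hmem₁.2 ⟨hst γ (hSH hγ) z h1, γ * δ, H.mul_mem (hSH hγ) h2, ?_, ?_⟩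
        · intro h5
          exact h3 (((hmm γ (hSH hγ) δ h2).1 h5).1 hγ)
        · rw [hmul γ (hSH hγ) δ h2 z₀ hz₀, h4]
      have h01 : ∀ γ ∈ H, γ ∉ S → ∀ z ∈ C₀, m γ z ∈ C₁ := by
        intro γ hγ hγS z hz
        obtain ⟨h1, δ, h2, h3⟩ := hmem₀.1 hz
        refine hmem₁.2 ⟨hst γ hγ z h1, γ * δ, H.mul_mem hγ (hSH h2), ?_, ?_⟩
        · intro h5
          exact hγS (((hmm γ hγ δ (hSH h2)).1 h5).2 h2)
        · rw [hmul γ hγ δ (hSH h2) z₀ hz₀, h3]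
      have h10 : ∀ γ ∈ H, γ ∉ S → ∀ z ∈ C₁, m γ z ∈ C₀ := by
        intro γ hγ hγS z hz
        obtain ⟨h1, δ, h2, h3, h4⟩ := hmem₁.1 hz
        refine hmem₀.2 ⟨hst γ hγ z h1, γ * δ, ?_, ?_⟩
        · exact (hmm γ hγ δ h2).2 ⟨fun h => absurd h hγS, fun h => absurd h h3⟩
        · rw [hmul γ hγ δ h2 z₀ hz₀, h4]
      have hun : C = C₀ ∪ C₁ := by
        refine Finset.Subset.antisymm (fun z hz => ?_) (Finset.union_subset hC₀ hC₁)
        rw [Finset.mem_union]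
        obtain ⟨γ, hγ, h1⟩ := htrans z hz
        by_cases h2 : γ ∈ S
        · exact Or.inl (hmem₀.2 ⟨hz, γ, h2, h1⟩)
        · exact Or.inr (hmem₁.2 ⟨hz, γ, hγ, h2, h1⟩)
      have hdis : Disjoint C₀ C₁ := by
        rw [Finset.disjoint_left]
        intro z hz hz'
        obtain ⟨h1, δ, h2, h3⟩ := hmem₀.1 hz
        obtain ⟨_, ε, h4, h5, h6⟩ := hmem₁.1 hz'
        have h7 : δ⁻¹ * ε ∈ S₀ := by
          refine ⟨H.mul_mem (H.inv_mem (hSH h2)) h4, ?_⟩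
          rw [hmul _ (H.inv_mem (hSH h2)) _ h4 z₀ hz₀, h6, ← h3, hinv δ (hSH h2) z₀ hz₀]
        have h8 : δ * (δ⁻¹ * ε) ∈ S := S.mul_mem h2 (hS₀S h7)
        rw [mul_inv_cancel_left] at h8
        exact h5 h8
      have hz₀₀ : z₀ ∈ C₀ := hmem₀.2 ⟨hz₀, 1, S.one_mem, hone z₀ hz₀⟩
      have hlt : C₀.card < n := by
        rw [← hcard]
        refine Finset.card_lt_card ⟨hC₀, fun h => ?_⟩
        have h1 := h01 σ hσ hσS z₀ hz₀₀
        exact Finset.disjoint_left.1 hdis (h (hC₁ h1)) h1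
      have hih := ih C₀.card hlt S (hSH.trans hH0) hNS hpS C₀ h00
        (fun γ hγ δ hδ z hz => hmul γ (hSH hγ) δ (hSH hδ) z (hC₀ hz))
        (fun γ hγ z hz => htr γ hγ z (hC₀ hz))
        (fun γ hγ z hz => hx γ (hSH hγ) z (hC₀ hz)) rfl
      have e00 : ∀ γ ∈ S, act γ (∑ z ∈ C₀, x z) = ∑ z ∈ C₀, x z := fun γ hγ =>
        hactsum γ (hSH hγ) C₀ C₀ hC₀ hC₀ (h00 γ hγ) (h00 γ⁻¹ (S.inv_mem hγ))
      have e11 : ∀ γ ∈ S, act γ (∑ z ∈ C₁, x z) = ∑ z ∈ C₁, x z := fun γ hγ =>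
        hactsum γ (hSH hγ) C₁ C₁ hC₁ hC₁ (h11 γ hγ) (h11 γ⁻¹ (S.inv_mem hγ))
      have hiS : ∀ γ, γ ∉ S → γ⁻¹ ∉ S := fun γ h h' => h (inv_inv γ ▸ S.inv_mem h')
      have e01 : ∀ γ ∈ H, γ ∉ S → act γ (∑ z ∈ C₀, x z) = ∑ z ∈ C₁, x z := fun γ hγ hγS =>
        hactsum γ hγ C₀ C₁ hC₀ hC₁ (h01 γ hγ hγS) (h10 γ⁻¹ (H.inv_mem hγ) (hiS γ hγS))
      have e10 : ∀ γ ∈ H, γ ∉ S → act γ (∑ z ∈ C₁, x z) = ∑ z ∈ C₀, x z := fun γ hγ hγS =>
        hactsum γ hγ C₁ C₀ hC₁ hC₀ (h10 γ hγ hγS) (h01 γ⁻¹ (H.inv_mem hγ) (hiS γ hγS))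
      have t1 := T.tr2 hSo hSH hS2 hσ hσS (z := ∑ z ∈ C₀, w (x z)) (fun γ hγ =>
        hacsum γ (hSH hγ) C₀ C₀ hC₀ hC₀ (h00 γ hγ) (h00 γ⁻¹ (S.inv_mem hγ)))
      rw [hacsum σ hσ C₀ C₁ hC₀ hC₁ (h01 σ hσ hσS) (h10 σ⁻¹ (H.inv_mem hσ) (hiS σ hσS)),
        ← Finset.sum_union hdis, ← hun] at t1
      have t2 := T.tr2 hSo hSH hS2 hσ hσS (z := w (∑ z ∈ C₀, x z)) (fun γ hγ => by
        rw [hac γ (hH0 (hSH hγ)), e00 γ hγ])
      rw [hac σ (hH0 hσ), e01 σ hσ hσS] at t2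
      have t3 := hadd H hH0 hHo (∑ z ∈ C₀, x z) (∑ z ∈ C₁, x z) (fun γ hγ => by
        by_cases hγS : γ ∈ S
        · exact Or.inl ⟨e00 γ hγS, e11 γ hγS⟩
        · exact Or.inr ⟨e01 γ hγ hγS, e10 γ hγ hγS⟩)
      rw [← Finset.sum_union hdis, ← hun] at t3
      rw [← t1, hih, t2, t3]
  · -- two stable subsets
    push Not at htrans
    obtain ⟨z₁, hz₁, hz₁₀⟩ := htrans
    let C₀ : Finset Z := C.filter fun z => ∃ γ ∈ H, m γ z₀ = z
    let C₁ : Finset Z := C.filter fun z => ¬ ∃ γ ∈ H, m γ z₀ = z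
    have hC₀ : C₀ ⊆ C := Finset.filter_subset _ _
    have hC₁ : C₁ ⊆ C := Finset.filter_subset _ _
    have hmem₀ : ∀ {z}, z ∈ C₀ ↔ z ∈ C ∧ ∃ γ ∈ H, m γ z₀ = z := fun {z} => Finset.mem_filter
    have hmem₁ : ∀ {z}, z ∈ C₁ ↔ z ∈ C ∧ ¬ ∃ γ ∈ H, m γ z₀ = z := fun {z} => Finset.mem_filter
    have h00 : ∀ γ ∈ H, ∀ z ∈ C₀, m γ z ∈ C₀ := by
      intro γ hγ z hz
      obtain ⟨h1, δ, h2, h3⟩ := hmem₀.1 hz
      refine hmem₀.2 ⟨hst γ hγ z h1, γ * δ, H.mul_mem hγ h2, ?_⟩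
      rw [hmul γ hγ δ h2 z₀ hz₀, h3]
    have h11 : ∀ γ ∈ H, ∀ z ∈ C₁, m γ z ∈ C₁ := by
      intro γ hγ z hz
      obtain ⟨h1, h2⟩ := hmem₁.1 hz
      refine hmem₁.2 ⟨hst γ hγ z h1, ?_⟩
      rintro ⟨δ, h3, h4⟩
      refine h2 ⟨γ⁻¹ * δ, H.mul_mem (H.inv_mem hγ) h3, ?_⟩
      rw [hmul _ (H.inv_mem hγ) _ h3 z₀ hz₀, h4, hinv γ hγ z h1]
    have hun : C = C₀ ∪ C₁ := (Finset.filter_union_filter_not_eq _ _).symm
    have hdis : Disjoint C₀ C₁ := Finset.disjoint_filter_filter_not _ _ _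
    have hz₀₀ : z₀ ∈ C₀ := hmem₀.2 ⟨hz₀, 1, H.one_mem, hone z₀ hz₀⟩
    have hz₁₁ : z₁ ∈ C₁ := hmem₁.2 ⟨hz₁, by
      rintro ⟨γ, h1, h2⟩
      exact hz₁₀ γ h1 h2⟩
    have hlt₀ : C₀.card < n := by
      rw [← hcard]
      exact Finset.card_lt_card ⟨hC₀, fun h => Finset.disjoint_left.1 hdis (h hz₁) hz₁₁⟩
    have hlt₁ : C₁.card < n := by
      rw [← hcard]
      exact Finset.card_lt_card ⟨hC₁, fun h => Finset.disjoint_left.1 hdis hz₀₀ (h hz₀)⟩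
    have ih₀ := ih C₀.card hlt₀ H hH0 hNH hp C₀ h00
      (fun γ hγ δ hδ z hz => hmul γ hγ δ hδ z (hC₀ hz))
      (fun γ hγ z hz => htr γ hγ z (hC₀ hz)) (fun γ hγ z hz => hx γ hγ z (hC₀ hz)) rfl
    have ih₁ := ih C₁.card hlt₁ H hH0 hNH hp C₁ h11
      (fun γ hγ δ hδ z hz => hmul γ hγ δ hδ z (hC₁ hz))
      (fun γ hγ z hz => htr γ hγ z (hC₁ hz)) (fun γ hγ z hz => hx γ hγ z (hC₁ hz)) rfl
    have t3 := hadd H hH0 hHo (∑ z ∈ C₀, x z) (∑ z ∈ C₁, x z) (fun γ hγ => Or.inl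
      ⟨hactsum γ hγ C₀ C₀ hC₀ hC₀ (h00 γ hγ) (h00 γ⁻¹ (H.inv_mem hγ)),
        hactsum γ hγ C₁ C₁ hC₁ hC₁ (h11 γ hγ) (h11 γ⁻¹ (H.inv_mem hγ))⟩)
    rw [map_add, ← ih₀, ← ih₁, ← map_add, ← Finset.sum_union hdis, ← Finset.sum_union hdis,
      ← hun] at t3
    exact t3

/-- The same for an action of `H` on a finite type. -/
theorem Th.ThN_ind' {M : Type} [AddCommGroup M] (H : Subgroup Γ) (act : Γ → M →+ M)
    (w : M → X →₀ ℤ) (hac : ∀ γ ∈ H, ∀ x, ac γ (w x) = w (act γ x)) (h0 : w 0 = 0)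
    (hadd : ∀ H' : Subgroup Γ, H' ≤ H → T.op H' → ∀ x₁ x₂ : M,
      (∀ γ ∈ H', (act γ x₁ = x₁ ∧ act γ x₂ = x₂) ∨ (act γ x₁ = x₂ ∧ act γ x₂ = x₁)) →
      T.cl H' (w x₁ + w x₂) = T.cl H' (w (x₁ + x₂)))
    {N : Subgroup Γ} (hN : N.Normal) (hNo : T.op N) (hNH : N ≤ H)
    (hp : ∃ k, N.relIndex H = 2 ^ k) (Z : Type) [Fintype Z] [MulAction H Z] (x : Z → M)
    (htr : ∀ (h : H) (z : Z), (h : Γ) ∈ N → h • z = z)
    (hx : ∀ (h : H) (z : Z), x (h • z) = act (h : Γ) (x z)) :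
    T.cl H (∑ z, w (x z)) = T.cl H (w (∑ z, x z)) := by
  classical
  let m : Γ → Z → Z := fun γ z => if h : γ ∈ H then (⟨γ, h⟩ : H) • z else z
  have hm : ∀ γ (h : γ ∈ H) z, m γ z = (⟨γ, h⟩ : H) • z := fun γ h z => dif_pos h
  refine T.ThN_ind H act w hac h0 hadd hN hNo m x _ H le_rfl hNH hp Finset.univ
    (fun _ _ _ _ => Finset.mem_univ _) ?_ ?_ ?_ rfl
  · intro γ hγ δ hδ z _
    rw [hm _ (H.mul_mem hγ hδ), hm _ hγ, hm _ hδ, ← mul_smul]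
    rfl
  · intro γ hγ z _
    rw [hm _ (hNH hγ)]
    exact htr _ _ hγ
  · intro γ hγ z _
    rw [hm _ hγ]
    exact hx _ _

/-- Norms in the fibre over `[u]` for a finite `H`-set `Z` on which `N` acts trivially, `H / N` a `2`-group.
Proof: induction on the number of elements of `Z` (for all `H`). No element: trivial. If `Z` is the
disjoint union of two stable subsets: `pB` for the sums (`f_add`). If `Z` is transitive with one
element: trivial. If it is transitive with more elements take `S` from `exists_index_two` (`S₀` the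
stabiliser of a point `z₀`), `Z₀` the orbit of `z₀` under `S`, `σ ∈ H`, `σ ∉ S`: `Z = Z₀ ⊔ σ Z₀`, so by
`tr2` and the induction hypothesis for `S`, `Z₀` the left side is
`cl S (s u y' - s u 0) = cl H (s u y' + s u (tw u σ y') - 2 s u 0)` with `y' = ∑_(Z₀) y z`, and `pB`
gives the claim. -/
theorem Th.normB (n : ℕ) : ∀ (H N : Subgroup Γ), N.Normal → T.op N → N ≤ H →
    (∃ k, N.relIndex H = 2 ^ k) → ∀ (u : A), D.UU H u → ∀ (Z : Type) [Fintype Z]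
    [MulAction H Z] (y : Z → B), (∀ (h : H) (z : Z), (h : Γ) ∈ N → h • z = z) →
    (∀ (h : H) (z : Z), y (h • z) = tw u (h : Γ) (y z)) → Fintype.card Z = n →
    T.cl H (∑ z, (D.s u (y z) - D.s u 0)) = T.f H u (∑ z, y z) := by
  intro H N hN hNo hNH hp u hu Z _ _ y htr hy _
  have hz0 : ∀ γ : Γ, tw u γ (0 : B) = 0 := by
    intro γ
    unfold tw
    split_ifs
    · rw [smul_zero]
    · rw [smul_zero, neg_zero]
  let act : Γ → B →+ B := fun γ =>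
    { toFun := tw u γ
      map_zero' := hz0 γ
      map_add' := tw_add u γ }
  have hs : ∀ γ ∈ H, ∀ y : B, ac γ (D.s u y) = D.s u (tw u γ y) := by
    intro γ hγ y
    unfold ac Dt.s
    rw [Finsupp.mapDomain_single, Dt.smul_px' hu hγ]
  refine T.ThN_ind' H act (fun y => D.s u y - D.s u 0) ?_ (sub_self _) ?_ hN hNo hNH hp Z y htr hy
  · intro γ hγ y
    change ac γ (D.s u y - D.s u 0) = D.s u (tw u γ y) - D.s u 0
    rw [ac_sub, hs γ hγ, hs γ hγ, hz0]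
  · intro H' hH' hH'o y₁ y₂ h
    have hu' : D.UU H' u := fun γ hγ => hu γ (hH' hγ)
    have h1 := T.pB H' u y₁ y₂ hH'o hu' fun γ hγ => by
      rw [Dt.smul_px' hu' hγ, Dt.smul_px' hu' hγ]
      rcases h γ hγ with h2 | h2
      · exact Or.inl ⟨congrArg _ h2.1, congrArg _ h2.2⟩
      · exact Or.inr ⟨congrArg _ h2.1, congrArg _ h2.2⟩
    change T.cl H' (D.s u y₁ - D.s u 0 + (D.s u y₂ - D.s u 0)) =
      T.cl H' (D.s u (y₁ + y₂) - D.s u 0)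
    have h3 : D.s u y₁ - D.s u 0 + (D.s u y₂ - D.s u 0) =
        (D.s u y₁ + D.s u y₂) - (D.s u 0 + D.s u 0) := by abel
    rw [h3, map_sub, h1, ← map_sub]
    congr 1
    abel

/-- Norms in the orbits of `E₁`. Proof: as `normB`, with `pA` for `y` and for `0`. -/
theorem Th.normA (n : ℕ) : ∀ (H N : Subgroup Γ), N.Normal → T.op N → N ≤ H →
    (∃ k, N.relIndex H = 2 ^ k) → ∀ (u : A) (y : B), D.PP H u y → ∀ (Z : Type) [Fintype Z]
    [MulAction H Z] (a : Z → A), (∀ (h : H) (z : Z), (h : Γ) ∈ N → h • z = z) →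
    (∀ (h : H) (z : Z), a (h • z) = (h : Γ) • a z) → Fintype.card Z = n →
    T.cl H (∑ z, ((D.s (u + a z) y - D.s (u + a z) 0) - (D.s u y - D.s u 0))) =
      T.br H (∑ z, a z) u y := by
  intro H N hN hNo hNH hp u y hP Z _ _ a htr ha _
  have hs : ∀ v : B, D.PP H u v → ∀ γ ∈ H, ∀ a : A,
      ac γ (D.s (u + a) v) = D.s (u + γ • a) v := by
    intro v hv γ hγ a
    unfold ac Dt.s
    rw [Finsupp.mapDomain_single, D.smul_px, smul_add]
    have h1 := hv γ hγ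
    rw [D.smul_px, D.px_eq] at h1
    congr 1
    rcases h1 with h1 | h1
    · rw [← h1.1, ← h1.2]
    · have h2 : γ • u = u + D.t := by
        rw [h1.1, add_assoc, D.two_t, add_zero, ← h1.1]
      have h3 : γ • v = -v := by
        rw [h1.2, neg_neg, ← h1.2]
      rw [h2, h3, add_right_comm]
      exact Dt.px_add_t
  have hP0 : D.PP H u 0 := Dt.pp_zero hP.uu
  let act : Γ → A →+ A := fun γ => DistribSMul.toAddMonoidHom A γ
  have hw0 : ((D.s (u + 0) y - D.s (u + 0) 0) - (D.s u y - D.s u 0)) = 0 := by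
    rw [add_zero, sub_self]
  have h := T.ThN_ind' H act
    (fun a => (D.s (u + a) y - D.s (u + a) 0) - (D.s u y - D.s u 0)) ?_ hw0 ?_ hN hNo hNH hp Z a
    htr ha
  · rw [h]
    unfold Th.br Th.f
    rw [← map_sub]
  · intro γ hγ a
    change ac γ ((D.s (u + a) y - D.s (u + a) 0) - (D.s u y - D.s u 0)) =
      (D.s (u + γ • a) y - D.s (u + γ • a) 0) - (D.s u y - D.s u 0)
    rw [ac_sub, ac_sub, ac_sub, hs y hP γ hγ, hs 0 hP0 γ hγ, Dt.ac_s hP hγ, Dt.ac_s hP0 hγ]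
  · intro H' hH' hH'o a₁ a₂ h
    have h1 := T.pA H' u a₁ a₂ y hH'o (Dt.pp_mono hH' hP) h
    have h2 := T.pA H' u a₁ a₂ 0 hH'o (Dt.pp_mono hH' hP0) h
    rw [map_add, map_add] at h1 h2
    change T.cl H' ((D.s (u + a₁) y - D.s (u + a₁) 0) - (D.s u y - D.s u 0) +
      ((D.s (u + a₂) y - D.s (u + a₂) 0) - (D.s u y - D.s u 0))) =
      T.cl H' ((D.s (u + (a₁ + a₂)) y - D.s (u + (a₁ + a₂)) 0) - (D.s u y - D.s u 0))
    simp only [map_add, map_sub, ← add_assoc]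
    rw [eq_sub_of_add_eq h1, eq_sub_of_add_eq h2]
    abel

end BE
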