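import Pool.Agent.Lib.MP_f80667_ag.Be.LocA
import Pool.Agent.Lib.MP_f80667_ag.Be.Gl
import Pool.Agent.Lib.MP_f80667_ag.Be.Dsc

/-! Adelic elements of the Albanese kernel. -/

open ZC Polynomial IntermediateField IsDedekindDomain NumberField

namespace BE

variable {F : Type} [Field F] [NumberField F] (C : Cf F)

/-- The cycle `fc` is a cycle of degree `0` over `K`. -/
theorem fc_mem (K : Type) [Field K] [CharZero K] [Algebra F K] (y : Pt C.W₂ K) :
    C.fc K y ∈ Dz C.X K := by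
  have hfix : ∀ γ : AlgebraicClosure K ≃ₐ[K] AlgebraicClosure K,
      Pt.map C.W₂ (γ.restrictScalars F : AlgebraicClosure K →ₐ[F] AlgebraicClosure K)
        (Pt.map C.W₂ (IsScalarTower.toAlgHom F K (AlgebraicClosure K)) y) =
      Pt.map C.W₂ (IsScalarTower.toAlgHom F K (AlgebraicClosure K)) y := by
    intro γ
    rw [Pt.map_map']
    congr 1
    congr 1
    ext a
    change γ (algebraMap K (AlgebraicClosure K) a) = algebraMap K (AlgebraicClosure K) a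
    exact γ.commutes a
  have e : ∀ (γ : AlgebraicClosure K ≃ₐ[K] AlgebraicClosure K) (v : Pt C.W₂ (AlgebraicClosure K)),
      Pt.map C.W₂ (γ.restrictScalars F : AlgebraicClosure K →ₐ[F] AlgebraicClosure K) v = v →
      C.X.act γ (C.px 0 v) = C.px 0 v := by
    intro γ v hv
    change C.px (Pt.map C.W₁ (γ.restrictScalars F : AlgebraicClosure K →ₐ[F] AlgebraicClosure K) 0)
      (Pt.map C.W₂ (γ.restrictScalars F : AlgebraicClosure K →ₐ[F] AlgebraicClosure K) v) = _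
    rw [map_zero, hv]
  refine ⟨fun γ => ?_, ?_⟩
  · have h1 := (Finsupp.mapDomain.addMonoidHom (M := ℤ) (C.X.act γ)).map_sub
      (Finsupp.single (C.px 0 (Pt.map C.W₂
        (IsScalarTower.toAlgHom F K (AlgebraicClosure K)) y)) 1) (Finsupp.single (C.px 0 0) 1)
    rw [Cf.fc]
    refine h1.trans ?_
    rw [Finsupp.mapDomain.addMonoidHom_apply, Finsupp.mapDomain.addMonoidHom_apply,
      Finsupp.mapDomain_single, Finsupp.mapDomain_single, e γ _ (hfix γ), e γ _ (map_zero _)]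
  · change C.X.deg (AlgebraicClosure K) (C.fc K y) = 0
    rw [Cf.fc, map_sub, Vr.deg, Finsupp.liftAddHom_apply_single, Finsupp.liftAddHom_apply_single]
    exact sub_self _

/-- The base change of the cycle `fc`. -/
theorem bc_fc (K : Type) [Field K] [CharZero K] [Algebra F K] (y : Pt C.W₂ F) :
    bc K (C.fc F y) = C.fc K (C.toK K y) := by
  have e : ∀ v : Pt C.W₂ (AlgebraicClosure F),
      C.X.map (emb F K) (C.px 0 v) = C.px 0 (Pt.map C.W₂ (emb F K) v) := by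
    intro v
    change C.px (Pt.map C.W₁ (emb F K) 0) (Pt.map C.W₂ (emb F K) v) = _
    rw [map_zero]
  have h1 := (Finsupp.mapDomain.addMonoidHom (M := ℤ) (C.X.map (emb F K))).map_sub
      (Finsupp.single (C.px 0 (Pt.map C.W₂
        (IsScalarTower.toAlgHom F F (AlgebraicClosure F)) y)) 1) (Finsupp.single (C.px 0 0) 1)
  rw [bc, Cf.fc]
  refine h1.trans ?_
  rw [Finsupp.mapDomain.addMonoidHom_apply, Finsupp.mapDomain.addMonoidHom_apply,
    Finsupp.mapDomain_single, Finsupp.mapDomain_single, e, e, map_zero, Pt.map_map', Cf.fc,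
    Cf.toK, Pt.map_map']
  have h3 : (emb F K).comp (IsScalarTower.toAlgHom F F (AlgebraicClosure F)) =
      (IsScalarTower.toAlgHom F K (AlgebraicClosure K)).comp (IsScalarTower.toAlgHom F F K) :=
    AlgHom.ext fun a => (AlgHom.commutes _ a).trans (AlgHom.commutes _ a).symm
  rw [h3]

/-- **Adelic elements of the Albanese kernel which are orthogonal to the classes `A_c`** come from the Selmer group of `E₂`. Proof: `loc_fin`, `loc_inf` give points `y_v` with `z_v ~ fc y_v`; `glob` for the family of the `fc y_v`. -/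
theorem ker_sel (h : C.Ok) (z : AdF C.X) (hz : C.Ker z) (ho : ∀ z', C.EqvA z z' → C.Orth z') :
    ∃ (c₀ : F[X]) (y₁ : ∀ v, Pt C.W₂ (FK F v)) (y₂ : ∀ v, Pt C.W₂ (IK F v)),
      IsCoprime c₀ C.g ∧ (∀ v, C.Dl (FK F v) c₀ (y₁ v)) ∧ (∀ v, C.Dl (IK F v) c₀ (y₂ v)) ∧
      (∀ v, Eqv C.X (FK F v) (z.1 v).1 (C.fc (FK F v) (y₁ v))) ∧
      ∀ v, EqvN C.X (IK F v) (z.2 v).1 (C.fc (IK F v) (y₂ v)) := by
  have h1 : ∀ v, ∃ y : Pt C.W₂ (FK F v), Eqv C.X (FK F v) (z.1 v).1 (C.fc (FK F v) y) :=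
    fun v => (loc_fin C v (h.fin v)).1 _ (z.1 v).2.1 (hz.1 v)
  have h2 : ∀ v, ∃ y : Pt C.W₂ (IK F v), EqvN C.X (IK F v) (z.2 v).1 (C.fc (IK F v) y) :=
    fun v => (loc_inf C h v).1 _ (z.2 v).2.1 (hz.2 v)
  choose y₁ hy₁ using h1
  choose y₂ hy₂ using h2
  obtain ⟨c₀, hc, hc₁, hc₂⟩ := glob C h
    (fun v => ⟨C.fc (FK F v) (y₁ v), fc_mem C _ _⟩, fun v => ⟨C.fc (IK F v) (y₂ v), fc_mem C _ _⟩)
    y₁ y₂ (fun v => rfl) (fun v => rfl) (ho _ ⟨hy₁, hy₂⟩)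
  exact ⟨c₀, y₁, y₂, hc, hc₁, hc₂, hy₁, hy₂⟩

/-- The class of `fc y` depends only on `y` modulo doubles. -/
private theorem top_aux {K : Type} [Field K] [Algebra F K]
    (R : AddSubgroup (C.X.pt (AlgebraicClosure K) →₀ ℤ))
    (h2 : ∀ y : Pt C.W₂ K, 2 • C.fc K y - 0 ∈ R)
    (ha : ∀ y y' : Pt C.W₂ K, C.fc K (y + y') - (C.fc K y + C.fc K y') ∈ R)
    {z : C.X.pt (AlgebraicClosure K) →₀ ℤ} {y y₀ y' : Pt C.W₂ K} (hy : y = y₀ + (y' + y'))
    (hz : z - C.fc K y ∈ R) : z - C.fc K y₀ ∈ R := by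
  have e1 := ha y₀ (y' + y')
  have e2 := ha y' y'
  have e3 := h2 y'
  rw [← hy] at e1
  have e4 := add_mem (add_mem (add_mem hz e1) e2) e3
  convert e4 using 1
  abel

/-- **They are global** if the Selmer group comes from `E₂(F)`. Proof: `ker_sel`, `Sel`: a point `y ∈ E₂(F)` with the class `c₀`; `dl_bc`, `dl_two`: `y_v = y + 2 y''`, and `fc (y + 2 y'') ~ fc y` (`loc_fin`, `loc_inf`). -/
theorem ker_glob (h : C.Ok) (hS : C.Sel) (z : AdF C.X) (hz : C.Ker z)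
    (ho : ∀ z', C.EqvA z z' → C.Orth z') :
    ∃ y : Pt C.W₂ F, (∀ v, Eqv C.X (FK F v) (z.1 v).1 (C.fc (FK F v) (C.toK (FK F v) y))) ∧
      ∀ v, EqvN C.X (IK F v) (z.2 v).1 (C.fc (IK F v) (C.toK (IK F v) y)) := by
  obtain ⟨c₀, y₁, y₂, hc, hc₁, hc₂, hz₁, hz₂⟩ := ker_sel C h z hz ho
  obtain ⟨y, hy⟩ := hS c₀ ⟨hc, fun v => ⟨y₁ v, hc₁ v⟩, fun v => ⟨y₂ v, hc₂ v⟩⟩
  refine ⟨y, fun v => ?_, fun v => ?_⟩
  · obtain ⟨y', hy'⟩ := dl_two C hc (hc₁ v) (dl_bc C hy)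
    exact top_aux C _ (loc_fin C v (h.fin v)).2.1 (loc_fin C v (h.fin v)).2.2 hy' (hz₁ v)
  · obtain ⟨y', hy'⟩ := dl_two C hc (hc₂ v) (dl_bc C hy)
    exact top_aux C _ (loc_inf C h v).2.1 (loc_inf C h v).2.2 hy' (hz₂ v)

end BE
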