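import Mathlib

/-! A lemma on abelian groups. -/

namespace BE

theorem torA_div {T : Type} [AddCommGroup T] (hd : ∀ x : T, ∃ y, y + y = x) (j : ℕ) (z : T) :
    ∃ w : T, 2 ^ j • w = z := by
  induction j generalizing z with
  | zero => exact ⟨z, by simp⟩
  | succ j ih =>
    obtain ⟨y, hy⟩ := hd z
    obtain ⟨w, hw⟩ := ih y
    exact ⟨w, by rw [pow_succ, mul_comm, mul_smul, hw, two_nsmul, hy]⟩

/-- An endomorphism with finite kernel of a divisible `2`-primary group with finite `2 ^ n`-torsion is surjective. Proof: let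
`D = T / ψ T`, `c = |ker ψ|`. The image of `T[2^n]` in `D` has at most `|T[2^n] / ψ T[2^n]| = |T[2^n] ∩ ker ψ| ≤ c` elements. If
`z ∉ ψ T` choose `z_j` with `2^j z_j = z`; the image of `z_j` in `D` generates a cyclic group with more than `2^j` elements which is
contained in the image of some `T[2^n]`: contradiction for `2^j ≥ c`. -/
theorem surj_of_fin {T : Type} [AddCommGroup T] (hT : ∀ x : T, ∃ k : ℕ, 2 ^ k • x = 0)
    (hd : ∀ x : T, ∃ y, y + y = x) (hf : ∀ n : ℕ, {x : T | 2 ^ n • x = 0}.Finite) (ψ : T →+ T)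
    (hk : {x : T | ψ x = 0}.Finite) : Function.Surjective ψ := by
  classical
  intro z
  by_contra hz
  obtain ⟨c, hc⟩ : ∃ c, c = hk.toFinset.card := ⟨_, rfl⟩
  obtain ⟨j, hj⟩ : ∃ j, c ≤ 2 ^ j := ⟨c, Nat.lt_two_pow_self.le⟩
  obtain ⟨w, hw⟩ := torA_div hd j z
  obtain ⟨n, hn⟩ := hT w
  obtain ⟨S, hS⟩ : ∃ S : Finset T, ∀ x, x ∈ S ↔ 2 ^ n • x = 0 :=
    ⟨(hf n).toFinset, fun x => by simp⟩
  have h1 : S.card ≤ c * (S.image ψ).card := by
    refine Finset.card_le_mul_card_image _ _ fun a ha => ?_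
    obtain ⟨x0, _, rfl⟩ := Finset.mem_image.1 ha
    rw [hc]
    refine Finset.card_le_card_of_injOn (fun x => x - x0) (fun x hx => ?_)
      (fun x _ y _ h => sub_left_injective h)
    have hx' := (Finset.mem_filter.1 (Finset.mem_coe.1 hx)).2
    simp only [Set.Finite.coe_toFinset]
    change ψ (x - x0) = 0
    rw [map_sub, hx', sub_self]
  -- small multiples of `w` are different modulo the image
  have h2 : ∀ m : ℕ, 0 < m → m ≤ 2 ^ j → ∀ a : T, m • w ≠ ψ a := by
    intro m hm hmj a hma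
    obtain ⟨r, q, hq, hrq⟩ := Nat.exists_eq_two_pow_mul_odd hm.ne'
    have hcop : Nat.Coprime q (2 ^ n) := Nat.Coprime.pow_right _ hq.coprime_two_right
    obtain ⟨s, t, hst⟩ := Nat.isCoprime_iff_coprime.2 hcop
    have hrj : r ≤ j := by
      have h3 : 2 ^ r ≤ 2 ^ j := (Nat.le_of_dvd hm ⟨q, hrq⟩).trans hmj
      exact (Nat.pow_le_pow_iff_right (by norm_num)).1 h3
    have h4 : 2 ^ r • w = ψ (s • a) := by
      rw [map_zsmul, ← hma, hrq]
      have h5 : (2 ^ r : ℕ) • w = (2 ^ r : ℕ) • ((s * (q : ℤ) + t * ((2 ^ n : ℕ) : ℤ)) • w) := by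
        rw [hst, one_zsmul]
      have h6 : (t * ((2 ^ n : ℕ) : ℤ)) • w = 0 := by
        rw [mul_smul, natCast_zsmul, hn, smul_zero]
      rw [h5, add_smul, h6, add_zero, mul_smul, natCast_zsmul, mul_smul, smul_comm s (2 ^ r),
        smul_comm s q]
    apply hz
    refine ⟨2 ^ (j - r) • (s • a), ?_⟩
    rw [map_nsmul, ← h4, ← mul_smul, ← pow_add, Nat.sub_add_cancel hrj, hw]
  have h3 : (Finset.range (2 ^ j + 1) ×ˢ (S.image ψ)).card ≤ S.card := by
    refine Finset.card_le_card_of_injOn (fun p => p.1 • w + p.2) (fun p hp => ?_) ?_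
    · obtain ⟨a, ha, hp2⟩ := Finset.mem_image.1 (Finset.mem_product.1 (Finset.mem_coe.1 hp)).2
      change p.1 • w + p.2 ∈ S
      rw [hS] at ha ⊢
      rw [← hp2, smul_add, smul_comm, hn, smul_zero, zero_add, ← map_nsmul, ha, map_zero]
    · intro p hp q hq hpq
      obtain ⟨hp1, hp2⟩ := Finset.mem_product.1 (Finset.mem_coe.1 hp)
      obtain ⟨hq1, hq2⟩ := Finset.mem_product.1 (Finset.mem_coe.1 hq)
      obtain ⟨a, _, ha⟩ := Finset.mem_image.1 hp2
      obtain ⟨b, _, hb⟩ := Finset.mem_image.1 hq2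
      rw [Finset.mem_range] at hp1 hq1
      change p.1 • w + p.2 = q.1 • w + q.2 at hpq
      rcases lt_trichotomy p.1 q.1 with h | h | h
      · exfalso
        refine h2 (q.1 - p.1) (by omega) (by omega) (a - b) ?_
        rw [map_sub, ha, hb, sub_nsmul _ h.le, ← sub_eq_add_neg, sub_eq_sub_iff_add_eq_add,
          add_comm p.2, hpq]
      · refine Prod.ext h ?_
        rw [h] at hpq
        exact add_left_cancel hpq
      · exfalso
        refine h2 (p.1 - q.1) (by omega) (by omega) (b - a) ?_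
        rw [map_sub, ha, hb, sub_nsmul _ h.le, ← sub_eq_add_neg, sub_eq_sub_iff_add_eq_add,
          add_comm q.2, ← hpq]
  rw [Finset.card_product, Finset.card_range] at h3
  have h4 : 0 < (S.image ψ).card := by
    refine Finset.card_pos.2 ⟨ψ 0, Finset.mem_image_of_mem _ ((hS 0).2 (smul_zero _))⟩
  have h5 := h3.trans h1
  have h6 := Nat.le_of_mul_le_mul_right h5 h4
  omega

end BE
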