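import Pool.Agent.Lib.MP_f80667_ag.Be.TwA
import Pool.Agent.Lib.MP_f80667_ag.Be.Fr
import Pool.Agent.Lib.MP_f80667_ag.Be.TorA
import Pool.Agent.Lib.MP_f80667_ag.Be.ThA

/-! Fixed points of order a power of two. -/

open ZC Polynomial IntermediateField

namespace BE

section frb

variable {K Ω : Type} [Field K] [Field Ω] [Algebra K Ω] (L : Lf K Ω)

/-- The powers of the Frobenius automorphism. -/
theorem frob_pow {M : IntermediateField K Ω} {φ : Ω ≃ₐ[K] Ω} {q : ℕ} (hφ : Frob L M φ q) (n : ℕ)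
    {x : Ω} (hx : L.nm x ≤ 1) : L.nm ((φ ^ n) x - x ^ q ^ n) < 1 := by
  induction n with
  | zero =>
    rw [pow_zero, pow_zero, pow_one, AlgEquiv.one_apply, sub_self, (L.zero_iff 0).2 rfl]
    exact one_pos
  | succ n ih =>
    have h0 : (φ ^ (n + 1)) x = φ ((φ ^ n) x) := by
      rw [pow_succ', AlgEquiv.mul_apply]
    have h1 : L.nm ((φ ^ n) x) ≤ 1 := by rw [L.act]; exact hx
    have h2 := hφ.frob _ h1
    have h3 : L.nm (x ^ q ^ n) ≤ 1 := by
      rw [L.pow]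
      exact pow_le_one₀ (L.nonneg x) hx
    have h4 : L.nm (((X ^ q : Polynomial Ω)).eval ((φ ^ n) x) - ((X ^ q : Polynomial Ω)).eval (x ^ q ^ n)) ≤
        L.nm ((φ ^ n) x - x ^ q ^ n) := by
      refine L.eval_close (fun i => ?_) h1 h3
      rw [coeff_X_pow]
      split_ifs
      · rw [L.one]
      · rw [(L.zero_iff 0).2 rfl]
        exact zero_le_one
    rw [eval_pow, eval_X, eval_pow, eval_X, ← pow_mul, ← pow_succ] at h4
    have h5 : (φ ^ (n + 1)) x - x ^ q ^ (n + 1) =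
        (φ ((φ ^ n) x) - ((φ ^ n) x) ^ q) + (((φ ^ n) x) ^ q - x ^ q ^ (n + 1)) := by
      rw [h0]
      ring
    rw [h5]
    exact (L.add _ _).trans_lt (max_lt h2 (h4.trans_lt ih))

/-- A number which is close to its `Q`-th power is close to a root of `X ^ Q - X`. -/
theorem close_root [IsAlgClosed Ω] {Q : ℕ} (hQ : 1 < Q) {x : Ω} (hx : L.nm (x - x ^ Q) < 1) :
    ∃ z ∈ (X ^ Q - X : Polynomial Ω).roots, L.nm (x - z) < 1 := by
  have hm : (X ^ Q - X : Polynomial Ω).Monic := monic_X_pow_sub (by rw [degree_X]; exact_mod_cast hQ)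
  have h1 := (IsAlgClosed.splits (X ^ Q - X : Polynomial Ω)).eval_eq_prod_roots_of_monic hm x
  rw [eval_sub, eval_pow, eval_X] at h1
  by_contra hc
  push Not at hc
  have h2 : ∀ s : Multiset Ω, (∀ z ∈ s, 1 ≤ L.nm (x - z)) → 1 ≤ L.nm (s.map (x - ·)).prod := by
    intro s
    induction s using Multiset.induction_on with
    | empty =>
      intro _
      rw [Multiset.map_zero, Multiset.prod_zero, L.one]
    | cons a s ih =>
      intro h
      rw [Multiset.map_cons, Multiset.prod_cons, L.mul]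
      exact one_le_mul_of_one_le_of_one_le (h a (Multiset.mem_cons_self a s))
        (ih fun z hz => h z (Multiset.mem_cons_of_mem hz))
  have h3 := h2 _ hc
  rw [← h1, L.sub_comm] at h3
  exact absurd hx (not_lt.2 h3)

end frb

variable {F : Type} [Field F] {K : Type} [Field K] [CharZero K] [Algebra F K] {Ω : Type} [Field Ω]
  [Algebra K Ω] [Algebra F Ω] [IsScalarTower F K Ω] [IsAlgClosure K Ω] (C : Cf F) (L : Lf K Ω)

/-- The action of a power of `φ` has finitely many fixed points of order a power of `2`. Proof: for such a point `P ≠ 0`, `P` is integral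
(`kr_tor`, `kr_or_ig`), `φ^(2 i) P = P`, so the coordinates `x`, `y` satisfy `nm (x^Q - x) < 1`, `Q = q^(2 i)`; `x^Q - x` is the product of the
`x - ζ`, `ζ^Q = ζ`, so `x` and `y` are close to such numbers `ζ`, `ζ'`; two points with the same `ζ`, `ζ'` are equal (`ig_close`,
`kr_tor`). -/
theorem fix_fin (h : L.H1 C) {M : IntermediateField K Ω} [FiniteDimensional K M]
    {φ : Ω ≃ₐ[K] Ω} {q : ℕ} (hφ : Frob L M φ q) (u : Pt C.W₁ Ω) {i : ℕ} (hi : 0 < i) :
    {P : Pt C.W₂ Ω | P ∈ Tr C Ω ∧ tw u (φ ^ i) P = P}.Finite := by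
  classical
  have hac : IsAlgClosed Ω := IsAlgClosure.isAlgClosed K
  have hQ : 1 < q ^ (2 * i) := Nat.one_lt_pow (by omega) hφ.one_lt
  set R : Finset Ω := (X ^ (q ^ (2 * i)) - X : Polynomial Ω).roots.toFinset with hR
  have hroot : ∀ {x : Ω}, (φ ^ (2 * i)) x = x → L.nm x ≤ 1 → ∃ z ∈ R, L.nm (x - z) < 1 := by
    intro x hx hx1
    have h1 := frob_pow L hφ (2 * i) hx1
    rw [hx] at h1
    obtain ⟨z, hz, hz1⟩ := close_root L hQ h1
    exact ⟨z, Multiset.mem_toFinset.2 hz, hz1⟩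
  -- every nonzero point of the set is integral and close to a pair of roots
  have hpt : ∀ P : Pt C.W₂ Ω, P ∈ Tr C Ω → tw u (φ ^ i) P = P → P ≠ 0 →
      ∃ (x y : Ω) (hxy : ((C.W₂).baseChange Ω).toAffine.Nonsingular x y), P = Pt.aff x y hxy ∧
        L.nm x ≤ 1 ∧ L.nm y ≤ 1 ∧ ∃ z ∈ R, ∃ z' ∈ R, L.nm (x - z) < 1 ∧ L.nm (y - z') < 1 := by
    intro P hT hP h0
    obtain ⟨k, hk⟩ := hT
    have hig : P ∈ Ig L C := (kr_or_ig C L h P).resolve_left fun hK => h0 (kr_tor C L h hK hk)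
    obtain ⟨x, y, hxy, hPe, hx, hy⟩ := hig
    have h2 : (φ ^ (2 * i)) • P = P := by
      have h3 : (φ ^ (2 * i)) • P = φ ^ i • (φ ^ i • P) := by
        rw [← mul_smul, ← pow_add]
        congr 2
        omega
      rw [h3]
      unfold tw at hP
      split_ifs at hP with hu
      · rw [hP, hP]
      · have h4 : φ ^ i • P = -P := by rw [← hP, neg_neg, hP]
        rw [h4, smul_neg, h4, neg_neg]
    have hns : ((C.W₂).baseChange Ω).toAffine.Nonsingular ((φ ^ (2 * i)) x) ((φ ^ (2 * i)) y) :=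
      (WeierstrassCurve.Affine.baseChange_nonsingular (C.W₂).toAffine
        ((φ ^ (2 * i)).restrictScalars F : Ω →ₐ[F] Ω).injective x y).mpr hxy
    have h5 : (φ ^ (2 * i)) • (Pt.aff x y hxy : Pt C.W₂ Ω) = Pt.aff _ _ hns := rfl
    rw [hPe, h5] at h2
    have h6 : (φ ^ (2 * i)) x = x ∧ (φ ^ (2 * i)) y = y :=
      WeierstrassCurve.Affine.Point.some.inj h2
    obtain ⟨z, hz, hz1⟩ := hroot h6.1 hx
    obtain ⟨z', hz', hz1'⟩ := hroot h6.2 hy
    exact ⟨x, y, hxy, hPe, hx, hy, z, hz, z', hz', hz1, hz1'⟩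
  choose! fx fy hf hfe hfx hfy fz hfz fz' hfz' hz hz' using hpt
  have hfin : ({P : Pt C.W₂ Ω | P ∈ Tr C Ω ∧ tw u (φ ^ i) P = P} \ {0}).Finite := by
    refine Set.Finite.of_finite_image (f := fun P => (fz P, fz' P)) ?_ ?_
    · refine (R ×ˢ R).finite_toSet.subset ?_
      rintro _ ⟨P, ⟨⟨hT, hP⟩, h0⟩, rfl⟩
      rw [Finset.mem_coe, Finset.mem_product]
      exact ⟨hfz P hT hP h0, hfz' P hT hP h0⟩
    · rintro P ⟨⟨hT, hP⟩, h0⟩ P' ⟨⟨hT', hP'⟩, h0'⟩ he
      have he1 : fz P = fz P' := congrArg Prod.fst he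
      have he2 : fz' P = fz' P' := congrArg Prod.snd he
      have h1 : P - P' ∈ Kr L C := by
        rw [hfe P hT hP h0, hfe P' hT' hP' h0']
        refine ig_close C L h (hf P hT hP h0) (hf P' hT' hP' h0') (hfx P hT hP h0)
          (hfy P hT hP h0) ?_ ?_
        · have e : fx P - fx P' = (fx P - fz P) - (fx P' - fz P') := by
            rw [he1]
            ring
          rw [e]
          exact (L.sub _ _).trans_lt (max_lt (hz P hT hP h0) (hz P' hT' hP' h0'))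
        · have e : fy P - fy P' = (fy P - fz' P) - (fy P' - fz' P') := by
            rw [he2]
            ring
          rw [e]
          exact (L.sub _ _).trans_lt (max_lt (hz' P hT hP h0) (hz' P' hT' hP' h0'))
      obtain ⟨k, hk⟩ := (Tr C Ω).sub_mem hT hT'
      exact sub_eq_zero.1 (kr_tor C L h h1 hk)
  exact (hfin.union (Set.finite_singleton 0)).subset (by
    intro P hP
    by_cases h0 : P = 0
    · exact Or.inr h0
    · exact Or.inl ⟨hP, h0⟩)

/-- Proof: `surj_of_fin` for `Tr C Ω` and `P ↦ tw u (φ^i) P - P`. -/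
theorem surj_tw (h : L.H1 C) {M : IntermediateField K Ω} [FiniteDimensional K M]
    {φ : Ω ≃ₐ[K] Ω} {q : ℕ} (hφ : Frob L M φ q) (u : Pt C.W₁ Ω) {i : ℕ} (hi : 0 < i)
    {P : Pt C.W₂ Ω} (hP : P ∈ Tr C Ω) : ∃ Q ∈ Tr C Ω, tw u (φ ^ i) Q - Q = P := by
  have hcl : IsAlgClosed Ω := IsAlgClosure.isAlgClosed K
  have hch : CharZero Ω := charZero_of_injective_algebraMap (algebraMap K Ω).injective
  have hmem : ∀ Q : Pt C.W₂ Ω, Q ∈ Tr C Ω → tw u (φ ^ i) Q - Q ∈ Tr C Ω := by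
    intro Q hQ
    refine (Tr C Ω).sub_mem ?_ hQ
    obtain ⟨k, hk⟩ := hQ
    refine ⟨k, ?_⟩
    unfold tw
    have h1 : 2 ^ k • (φ ^ i • Q) = 0 := by
      have h2 := map_nsmul (DistribSMul.toAddMonoidHom (Pt C.W₂ Ω) (φ ^ i)) (2 ^ k) Q
      rw [hk, map_zero] at h2
      exact h2.symm
    split_ifs
    · exact h1
    · rw [smul_neg, h1, neg_zero]
  let ψ : Tr C Ω →+ Tr C Ω :=
    { toFun := fun Q => ⟨tw u (φ ^ i) Q.1 - Q.1, hmem Q.1 Q.2⟩
      map_zero' := by
        apply Subtype.ext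
        change tw u (φ ^ i) (0 : Pt C.W₂ Ω) - 0 = 0
        unfold tw
        split_ifs
        · rw [smul_zero, sub_zero]
        · rw [smul_zero, neg_zero, sub_zero]
      map_add' := by
        intro Q Q'
        apply Subtype.ext
        change tw u (φ ^ i) (Q.1 + Q'.1) - (Q.1 + Q'.1) =
          (tw u (φ ^ i) Q.1 - Q.1) + (tw u (φ ^ i) Q'.1 - Q'.1)
        rw [tw_add]
        abel }
  have hT : ∀ x : Tr C Ω, ∃ k : ℕ, 2 ^ k • x = 0 := by
    rintro ⟨x, k, hk⟩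
    exact ⟨k, Subtype.ext hk⟩
  have hd : ∀ x : Tr C Ω, ∃ y, y + y = x := by
    rintro ⟨x, k, hk⟩
    obtain ⟨Q, hQ⟩ := exists_dbl C x
    refine ⟨⟨Q, k + 1, ?_⟩, Subtype.ext hQ⟩
    rw [pow_succ, mul_smul, two_smul, hQ, hk]
  have hf : ∀ n : ℕ, {x : Tr C Ω | 2 ^ n • x = 0}.Finite := by
    intro n
    refine Set.Finite.of_finite_image (f := fun x : Tr C Ω => (x : Pt C.W₂ Ω)) ?_
      Subtype.val_injective.injOn
    refine (tor_fin C n).subset ?_
    rintro _ ⟨x, hx, rfl⟩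
    have h1 := congrArg Subtype.val hx
    exact h1
  have hk : {x : Tr C Ω | ψ x = 0}.Finite := by
    refine Set.Finite.of_finite_image (f := fun x : Tr C Ω => (x : Pt C.W₂ Ω)) ?_
      Subtype.val_injective.injOn
    refine (fix_fin C L h hφ u hi).subset ?_
    rintro _ ⟨x, hx, rfl⟩
    have h1 : tw u (φ ^ i) x.1 - x.1 = 0 := congrArg Subtype.val hx
    exact ⟨x.2, sub_eq_zero.1 h1⟩
  obtain ⟨Q, hQ⟩ := surj_of_fin hT hd hf ψ hk ⟨P, hP⟩
  exact ⟨Q.1, Q.2, congrArg Subtype.val hQ⟩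

end BE
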