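import Pool.Agent.Lib.MP_f80667_ag.Be.TorP
import Pool.Agent.Lib.MP_f80667_ag.Be.TorF

/-! Points are norms from the unramified quadratic extension up to doubles. -/

open ZC Polynomial IntermediateField

namespace BE

variable {F : Type} [Field F] {K : Type} [Field K] [CharZero K] [Algebra F K] {Ω : Type} [Field Ω]
  [Algebra K Ω] [Algebra F Ω] [IsScalarTower F K Ω] [IsAlgClosure K Ω] (C : Cf F) (L : Lf K Ω)

open Classical in
private theorem tor_th0_aff' {e : Ω} {u : Pt C.W₁ Ω} {w v : Ω}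
    (h : ((C.W₂).baseChange Ω).toAffine.Nonsingular w v) :
    C.th0 Ω e u (Pt.aff w v h) =
      if w = e then aeval e (derivative C.g) else C.kap Ω u * (w - e) := rfl

private theorem tor_F_mem' (M : IntermediateField K Ω) (c : F) : algebraMap F Ω c ∈ M := by
  rw [IsScalarTower.algebraMap_apply F K Ω]
  exact M.algebraMap_mem _

private theorem tor_w_mem {M : IntermediateField K Ω} {u : Pt C.W₁ Ω} {w v : Ω}
    {hP : ((C.W₂).baseChange Ω).toAffine.Nonsingular w v}
    (hy : (C.dt K Ω).PP M.fixingSubgroup u (Pt.aff w v hP)) : w ∈ M := by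
  refine mem_of_fix M fun γ hγ => ?_
  have h1 := (Dt.pp_iff hy.uu).1 hy γ hγ
  have hns : ((C.W₂).baseChange Ω).toAffine.Nonsingular (γ w) (γ v) :=
    (WeierstrassCurve.Affine.baseChange_nonsingular (C.W₂).toAffine
      (γ.restrictScalars F : Ω →ₐ[F] Ω).injective w v).mpr hP
  have h3 : γ • (Pt.aff w v hP : Pt C.W₂ Ω) = Pt.aff (γ w) (γ v) hns := rfl
  unfold tw at h1
  split_ifs at h1
  · rw [h3] at h1
    exact (WeierstrassCurve.Affine.Point.some.inj h1).1
  · rw [h3] at h1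
    exact (WeierstrassCurve.Affine.Point.some.inj h1).1

private theorem tor_exists_fac [IsAlgClosed Ω] : ∃ e₁ e₂ e₃ : Ω, C.g.map (algebraMap F Ω) =
    (X - Polynomial.C e₁) * (X - Polynomial.C e₂) * (X - Polynomial.C e₃) := by
  have hdeg : C.g.natDegree = 3 := by
    unfold Cf.g
    compute_degree!
  have hmon : C.g.Monic := by
    unfold Cf.g
    monicity!
  have hm : (C.g.map (algebraMap F Ω)).Monic := hmon.map _
  have hs := IsAlgClosed.splits (C.g.map (algebraMap F Ω))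
  have h1 := hs.eq_prod_roots
  have h2 := hs.natDegree_eq_card_roots
  rw [Polynomial.natDegree_map, hdeg] at h2
  obtain ⟨a, b, c, h3⟩ := Multiset.card_eq_three.1 h2.symm
  refine ⟨a, b, c, ?_⟩
  rw [h1, hm.leadingCoeff, h3]
  simp [mul_assoc]

private theorem tor_root_int (h : L.H1 C) {e : Ω} (he : aeval e C.g = 0) : L.nm e ≤ 1 := by
  have hmon : C.g.Monic := by
    unfold Cf.g
    monicity!
  refine L.root_le (hmon.map (algebraMap F Ω)) ?_ (x := e) ?_
  · intro i
    rw [Polynomial.coeff_map]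
    have h0 : L.nm (algebraMap F Ω 0) ≤ 1 := by
      rw [map_zero, (L.zero_iff 0).2 rfl]
      exact zero_le_one
    have h1 : L.nm (algebraMap F Ω 1) ≤ 1 := by
      rw [map_one, L.one]
    rcases i with _ | _ | _ | _ | i
    · have : C.g.coeff 0 = C.c₀ := by simp [Cf.g]
      rw [this]
      exact h.hc₀
    · have : C.g.coeff 1 = C.c₁ := by simp [Cf.g, Polynomial.coeff_X, Polynomial.coeff_C]
      rw [zero_add, this]
      exact h.hc₁
    · have : C.g.coeff 2 = C.c₂ := by simp [Cf.g, Polynomial.coeff_X, Polynomial.coeff_C]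
      rw [zero_add, this]
      exact h.hc₂
    · have : C.g.coeff 3 = 1 := by simp [Cf.g, Polynomial.coeff_X, Polynomial.coeff_C]
      rw [zero_add, this]
      exact h1
    · have : C.g.coeff (i + 1 + 1 + 1 + 1) = 0 := by
        simp [Cf.g, Polynomial.coeff_X, Polynomial.coeff_C, Polynomial.coeff_X_pow]
      rw [this]
      exact h0
  · rw [Polynomial.eval_map_algebraMap]
    exact he

private theorem tor_fd_Me (M : IntermediateField K Ω) [FiniteDimensional K M] (e : Ω) :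
    FiniteDimensional K (Me M e) := by
  have halg : Algebra.IsAlgebraic K Ω := IsAlgClosure.isAlgebraic
  have h1 : FiniteDimensional K (IntermediateField.adjoin K {e}) :=
    IntermediateField.adjoin.finiteDimensional (halg.isAlgebraic e).isIntegral
  unfold Me
  infer_instance

/-- A point in the kernel of the reduction is a double. Proof: `half₂`: `kap u (w - e)` is a square for `‖w‖ > 1`, since `w - e` is `w` times a
square and the product of the three values is a square. -/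
theorem kr_half (h : L.H1 C) {M : IntermediateField K Ω} [FiniteDimensional K M] {u : Pt C.W₁ Ω}
    {y : Pt C.W₂ Ω} (hy : (C.dt K Ω).PP M.fixingSubgroup u y) (hK : y ∈ Kr L C) :
    ∃ y', (C.dt K Ω).PP M.fixingSubgroup u y' ∧ y' + y' = y := by
  have hu := hy.uu
  rcases hK with rfl | ⟨w, v, hP, rfl, hw⟩
  · exact ⟨0, Dt.pp_zero hu, add_zero 0⟩
  · have hwM := tor_w_mem C hy
    have hk := kap_mem C hu
    have hk0 := kap_ne C u
    have hw0 : w ≠ 0 := L.ne_zero (lt_trans one_pos hw)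
    have : IsAlgClosed Ω := IsAlgClosure.isAlgClosed K
    obtain ⟨e₁, e₂, e₃, he⟩ := tor_exists_fac (Ω := Ω) C
    have hg : ∀ z : Ω, aeval z C.g = (z - e₁) * (z - e₂) * (z - e₃) := by
      intro z
      have h1 := congrArg (Polynomial.eval z) he
      rw [Polynomial.eval_map_algebraMap] at h1
      rw [h1]
      simp
    have hroot : ∀ e : Ω, aeval e C.g = 0 → L.nm e ≤ 1 ∧ w ≠ e := by
      intro e h1
      have h2 := tor_root_int C L h h1
      refine ⟨h2, ?_⟩
      rintro rfl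
      exact absurd hw (not_lt.2 h2)
    have h₁ := hroot e₁ (by rw [hg]; ring)
    have h₂ := hroot e₂ (by rw [hg]; ring)
    have h₃ := hroot e₃ (by rw [hg]; ring)
    have hpr := th_prod C he hy
    rw [tor_th0_aff', tor_th0_aff', tor_th0_aff', if_neg h₁.2, if_neg h₂.2, if_neg h₃.2] at hpr
    -- `g w = w ^ 3 (1 + z)`
    have hinv : L.nm w⁻¹ < 1 := by
      rw [L.inv]
      exact inv_lt_one_of_one_lt₀ hw
    have hz1 : L.nm (algebraMap F Ω C.c₂ * w⁻¹ + algebraMap F Ω C.c₁ * w⁻¹ ^ 2 +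
        algebraMap F Ω C.c₀ * w⁻¹ ^ 3) < 1 := by
      have hn : ∀ (c : Ω) (k : ℕ), L.nm c ≤ 1 → k ≠ 0 → L.nm (c * w⁻¹ ^ k) < 1 := by
        intro c k hc hk
        rw [L.mul, L.pow]
        calc L.nm c * L.nm w⁻¹ ^ k ≤ 1 * L.nm w⁻¹ ^ k :=
              mul_le_mul_of_nonneg_right hc (pow_nonneg (L.nonneg _) _)
          _ = L.nm w⁻¹ ^ k := one_mul _
          _ < 1 := pow_lt_one₀ (L.nonneg _) hinv hk
      have h4 := hn _ 1 h.hc₂ one_ne_zero
      rw [pow_one] at h4
      exact lt_of_le_of_lt (L.add _ _) (max_lt (lt_of_le_of_lt (L.add _ _)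
        (max_lt h4 (hn _ 2 h.hc₁ two_ne_zero))) (hn _ 3 h.hc₀ three_ne_zero))
    have hzM : algebraMap F Ω C.c₂ * w⁻¹ + algebraMap F Ω C.c₁ * w⁻¹ ^ 2 +
        algebraMap F Ω C.c₀ * w⁻¹ ^ 3 ∈ M :=
      add_mem (add_mem (mul_mem (tor_F_mem' M _) (inv_mem hwM)) (mul_mem (tor_F_mem' M _)
        (pow_mem (inv_mem hwM) 2))) (mul_mem (tor_F_mem' M _) (pow_mem (inv_mem hwM) 3))
    have hsq := odd_sq L h.two M hzM hz1
    have hne : 1 + (algebraMap F Ω C.c₂ * w⁻¹ + algebraMap F Ω C.c₁ * w⁻¹ ^ 2 +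
        algebraMap F Ω C.c₀ * w⁻¹ ^ 3) ≠ 0 := by
      refine L.ne_zero ?_
      rw [L.one_add hz1]
      exact one_pos
    have hgw : (w - e₁) * (w - e₂) * (w - e₃) = w ^ 3 * (1 + (algebraMap F Ω C.c₂ * w⁻¹ +
        algebraMap F Ω C.c₁ * w⁻¹ ^ 2 + algebraMap F Ω C.c₀ * w⁻¹ ^ 3)) := by
      rw [← hg]
      simp only [Cf.g, map_add, map_mul, map_pow, aeval_X, aeval_C]
      field_simp
      ring
    have h5 : SqM M ((C.kap Ω u * w) * (C.kap Ω u * w) ^ 2) := by
      refine SqM.of_mul (add_mem (one_mem M) hzM) hne ?_ hsq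
      have h6 : C.kap Ω u * (w - e₁) * (C.kap Ω u * (w - e₂)) * (C.kap Ω u * (w - e₃)) =
          (C.kap Ω u * w) * (C.kap Ω u * w) ^ 2 * (1 + (algebraMap F Ω C.c₂ * w⁻¹ +
            algebraMap F Ω C.c₁ * w⁻¹ ^ 2 + algebraMap F Ω C.c₀ * w⁻¹ ^ 3)) := by
        linear_combination C.kap Ω u ^ 3 * hgw
      rw [← h6]
      exact hpr
    have h7 : SqM M (C.kap Ω u * w) := SqM.of_sq (mul_mem hk hwM) (mul_ne_zero hk0 hw0) h5
    refine half₂ C hy fun e hee => ?_
    obtain ⟨hen, hwe⟩ := hroot e hee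
    rw [tor_th0_aff', if_neg hwe]
    have hfd : FiniteDimensional K (Me M e) := tor_fd_Me M e
    have h8 : L.nm (-(e * w⁻¹)) < 1 := by
      rw [L.neg, L.mul]
      calc L.nm e * L.nm w⁻¹ ≤ 1 * L.nm w⁻¹ :=
            mul_le_mul_of_nonneg_right hen (L.nonneg _)
        _ = L.nm w⁻¹ := one_mul _
        _ < 1 := hinv
    have hMM : M ≤ Me M e := le_sup_left
    have heM : e ∈ Me M e :=
      (le_sup_right : _ ≤ Me M e) (IntermediateField.mem_adjoin_simple_self K e)
    have h9 := odd_sq L h.two (Me M e) (neg_mem (mul_mem heM (inv_mem (hMM hwM)))) h8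
    have h10 := (SqM.mono hMM h7).mul h9
    have h11 : C.kap Ω u * w * (1 + -(e * w⁻¹)) = C.kap Ω u * (w - e) := by
      field_simp
      ring
    rw [← h11]
    exact h10

/-- **Points are norms from the unramified quadratic extension up to doubles.** Proof: if `y ∈ Kr` use `kr_half`. Otherwise let `2 Q = y` (`exists_dbl`), `Q` is
integral (`ig_half`), `c = tw φ Q - Q` is of order two, `c = tw φ z - z` with `z ∈ Tr` (`surj_tw`). The point `y' = Q - z` is
fixed by `φ`, so by all `γ` (`exists_pow` for `{Q, z}`; if `z = 0` leave it out): it is a point over `M`. `y - 2 y' = 2 z ∈ Tr` is a point over `M`,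
`2 z = tw (φ²) w - w` with `w ∈ Tr`, `y₊ = tw φ w - w`: `tw φ y₊ + y₊ = 2 z`. `y₊` is fixed by `φ²`, so it is a point over
`M₂` (`exists_pow` for `y₊` (if it is not `0`) and `S = {s}`: for `γ ∈ Gal(Ω/M₂)` the exponent `n` is even). `Nb_two`. -/
theorem exists_nrm (h : L.H1 C) {M : IntermediateField K Ω} [FiniteDimensional K M]
    {φ : Ω ≃ₐ[K] Ω} {q : ℕ} (hφ : Frob L M φ q) {M₂ : IntermediateField K Ω} {s : Ω}
    (hM : M ≤ M₂) (hs : L.nm s = 1) (hφs : φ s = -s)
    (hγs : ∀ γ ∈ M.fixingSubgroup, γ ∈ M₂.fixingSubgroup ↔ γ s = s)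
    (hi : M₂.fixingSubgroup.relIndex M.fixingSubgroup = 2) {u : Pt C.W₁ Ω} {y : Pt C.W₂ Ω}
    (hy : (C.dt K Ω).PP M.fixingSubgroup u y) :
    ∃ y' y₂ : Pt C.W₂ Ω, (C.dt K Ω).PP M.fixingSubgroup u y' ∧
      (C.dt K Ω).PP M₂.fixingSubgroup u y₂ ∧
      y = y' + y' + Nb M.fixingSubgroup M₂.fixingSubgroup u y₂ := by
  have hu := hy.uu
  have hfm : φ ∈ M.fixingSubgroup := hφ.mem
  have hle := fix_le hM
  have hs0 : s ≠ 0 := L.ne_zero (by rw [hs]; exact one_pos)
  have h20 : L.nm (s + s) = 1 := by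
    rw [← two_mul, L.mul, h.two, hs, one_mul]
  have hfn : φ ∉ M₂.fixingSubgroup := by
    intro h1
    have h2 := (hγs φ hfm).1 h1
    rw [hφs] at h2
    have h3 : s + s = 0 := by
      nth_rewrite 1 [← h2]
      exact neg_add_cancel s
    rw [h3, (L.zero_iff 0).2 rfl] at h20
    exact zero_ne_one h20
  rcases kr_or_ig C L h y with hK | hI
  · obtain ⟨y', hy', he⟩ := kr_half C L h hy hK
    have h0 := Dt.pp_zero (D := C.dt K Ω) hu
    refine ⟨y', 0, hy', Dt.pp_mono hle h0, ?_⟩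
    rw [Nb_two hi hle hu (Dt.pp_mono hle h0) hfm hfn, (Dt.pp_iff hu).1 h0 φ hfm, add_zero,
      add_zero, he]
  -- `2 Q = y`
  have : IsAlgClosed Ω := IsAlgClosure.isAlgClosed K
  have : CharZero Ω := charZero_of_injective_algebraMap (algebraMap K Ω).injective
  obtain ⟨Q, hQ⟩ := exists_dbl C y
  have hQI : Q ∈ Ig L C := ig_half C L h (by rw [hQ]; exact hI)
  have twsub : ∀ (γ : Ω ≃ₐ[K] Ω) (a b : Pt C.W₂ Ω), tw u γ (a - b) = tw u γ a - tw u γ b := by
    intro γ a b
    rw [sub_eq_add_neg, tw_add, tw_neg, ← sub_eq_add_neg]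
  have twt : ∀ (γ : Ω ≃ₐ[K] Ω) (a : Pt C.W₂ Ω), a ∈ Tr C Ω → tw u γ a ∈ Tr C Ω := by
    rintro γ a ⟨k, hk⟩
    refine ⟨k, ?_⟩
    have h1 : ∀ n : ℕ, n • tw u γ a = tw u γ (n • a) := by
      intro n
      induction n with
      | zero =>
        rw [zero_smul, zero_smul]
        have := twsub γ 0 0
        rw [sub_self, sub_self] at this
        exact this.symm
      | succ n ih => rw [succ_nsmul, succ_nsmul, tw_add, ih]
    rw [h1, hk]
    have := twsub γ 0 0
    rwa [sub_self, sub_self] at this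
  have hig : ∀ a : Pt C.W₂ Ω, a ∈ Tr C Ω → a ≠ 0 → a ∈ Ig L C := by
    rintro a ⟨k, hk⟩ ha
    rcases kr_or_ig C L h a with h1 | h1
    · exact absurd (kr_tor C L h h1 hk) ha
    · exact h1
  have hyφ := (Dt.pp_iff hu).1 hy φ hfm
  have hc : tw u φ Q - Q ∈ Tr C Ω := by
    refine ⟨1, ?_⟩
    rw [pow_one, two_nsmul]
    have h1 : tw u φ Q + tw u φ Q = Q + Q := by
      rw [← tw_add, hQ, hyφ]
    rw [← add_sub_add_comm, h1, sub_self]
  obtain ⟨z, hz, hz2⟩ := surj_tw C L h hφ u one_pos hc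
  rw [pow_one] at hz2
  have h' : tw u φ (Q - z) = Q - z := by
    rw [twsub]
    have h1 : tw u φ Q = Q + (tw u φ z - z) := by
      rw [hz2, add_sub_cancel]
    rw [h1]
    abel
  have hpw : ∀ {a : Pt C.W₂ Ω}, tw u φ a = a → ∀ n : ℕ, tw u (φ ^ n) a = a := by
    intro a ha n
    induction n with
    | zero => rw [pow_zero, tw_one]
    | succ n ih =>
      rw [pow_succ, tw_mul (D := C.dt K Ω) hu (pow_mem hfm n) hfm, ha, ih]
  have hy' : (C.dt K Ω).PP M.fixingSubgroup u (Q - z) := by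
    rw [Dt.pp_iff hu]
    intro γ hγ
    have hQk : ∃ k : ℕ, (C.dt K Ω).PP M.fixingSubgroup u (2 ^ k • Q) :=
      ⟨1, by rw [pow_one, two_nsmul, hQ]; exact hy⟩
    have hcl : ∃ n : ℕ, tw u γ Q = tw u (φ ^ n) Q ∧ tw u γ z = tw u (φ ^ n) z := by
      classical
      by_cases hz0 : z = 0
      · obtain ⟨n, -, hn⟩ := exists_pow C L h hφ hu ∅ (fun x hx => absurd hx (Finset.notMem_empty x))
          {Q} (fun P hP => by
            rw [Finset.mem_singleton] at hP
            subst hP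
            exact ⟨hQI, hQk⟩) hγ
        refine ⟨n, hn Q (Finset.mem_singleton_self Q), ?_⟩
        have t0 : ∀ γ : Ω ≃ₐ[K] Ω, tw u γ (0 : Pt C.W₂ Ω) = 0 := by
          intro γ
          have := twsub γ 0 0
          rwa [sub_self, sub_self] at this
        rw [hz0, t0, t0]
      · obtain ⟨n, -, hn⟩ := exists_pow C L h hφ hu ∅ (fun x hx => absurd hx (Finset.notMem_empty x))
          {Q, z} (fun P hP => by
            rw [Finset.mem_insert, Finset.mem_singleton] at hP
            rcases hP with hP | hP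
            · subst hP
              exact ⟨hQI, hQk⟩
            · subst hP
              obtain ⟨k, hk⟩ := hz
              refine ⟨hig P ⟨k, hk⟩ hz0, k, ?_⟩
              rw [hk]
              exact Dt.pp_zero hu) hγ
        exact ⟨n, hn Q (Finset.mem_insert_self _ _),
          hn z (Finset.mem_insert_of_mem (Finset.mem_singleton_self _))⟩
    obtain ⟨n, h1, h2⟩ := hcl
    rw [twsub, h1, h2, ← twsub, hpw h']
  -- `y - 2 y' = 2 z`
  have hd : (C.dt K Ω).PP M.fixingSubgroup u (z + z) := by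
    have h1 := Dt.pp_add hy (Dt.pp_neg (Dt.pp_add hy' hy'))
    have h2 : y + -(Q - z + (Q - z)) = z + z := by
      rw [← hQ]
      abel
    rwa [h2] at h1
  have hdT : z + z ∈ Tr C Ω := (Tr C Ω).add_mem hz hz
  obtain ⟨w, hw, hw2⟩ := surj_tw C L h hφ u two_pos hdT
  rw [pow_two, tw_mul (D := C.dt K Ω) hu hfm hfm] at hw2
  have hy2T : tw u φ w - w ∈ Tr C Ω := (Tr C Ω).sub_mem (twt φ w hw) hw
  have hsum : tw u φ w - w + tw u φ (tw u φ w - w) = z + z := by
    rw [twsub, ← hw2]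
    abel
  have hdφ := (Dt.pp_iff hu).1 hd φ hfm
  have hfix2 : tw u (φ * φ) (tw u φ w - w) = tw u φ w - w := by
    rw [tw_mul (D := C.dt K Ω) hu hfm hfm]
    have h1 : tw u φ (tw u φ w - w) = z + z - (tw u φ w - w) := by
      rw [← hsum]
      abel
    rw [h1, twsub, hdφ, h1]
    abel
  have hpw2 : ∀ n : ℕ, tw u ((φ * φ) ^ n) (tw u φ w - w) = tw u φ w - w := by
    intro n
    induction n with
    | zero => rw [pow_zero, tw_one]
    | succ n ih =>
      rw [pow_succ, tw_mul (D := C.dt K Ω) hu (pow_mem (mul_mem hfm hfm) n) (mul_mem hfm hfm),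
        hfix2, ih]
  have hs' : ∀ n : ℕ, (φ ^ n) s = (-1) ^ n * s := by
    intro n
    induction n with
    | zero => rw [pow_zero, pow_zero, one_mul]; rfl
    | succ n ih =>
      rw [pow_succ', AlgEquiv.mul_apply, ih, map_mul, map_pow, map_neg, map_one, hφs, pow_succ]
      ring
  have hy₂ : (C.dt K Ω).PP M₂.fixingSubgroup u (tw u φ w - w) := by
    by_cases h0 : tw u φ w - w = 0
    · rw [h0]
      exact Dt.pp_mono hle (Dt.pp_zero hu)
    · rw [Dt.pp_iff (fun γ hγ => hu γ (hle hγ))]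
      intro γ hγ
      obtain ⟨n, h1, h2⟩ := exists_pow C L h hφ hu {s} (fun x hx => by
          rw [Finset.mem_singleton] at hx
          rw [hx, hs]) {tw u φ w - w} (fun P hP => by
            rw [Finset.mem_singleton] at hP
            rw [hP]
            obtain ⟨k, hk⟩ := hy2T
            refine ⟨hig _ ⟨k, hk⟩ h0, k, ?_⟩
            rw [hk]
            exact Dt.pp_zero hu) (hle hγ)
      have h3 := h1 s (Finset.mem_singleton_self s)
      have h4 := h2 _ (Finset.mem_singleton_self _)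
      rw [(hγs γ (hle hγ)).1 hγ, hs'] at h3
      rcases Nat.even_or_odd n with hn | hn
      · obtain ⟨m, rfl⟩ := hn
        rw [h4, ← two_mul, pow_mul, pow_two, hpw2]
      · rw [hn.neg_one_pow, neg_one_mul, sub_neg_eq_add, h20] at h3
        exact absurd h3 (lt_irrefl 1)
  refine ⟨Q - z, tw u φ w - w, hy', hy₂, ?_⟩
  rw [Nb_two hi hle hu hy₂ hfm hfn, hsum, ← hQ]
  abel

end BE
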