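import Pool.Agent.Lib.MP_f80667_ag.Be.TwA
import Pool.Agent.Lib.MP_f80667_ag.Be.Fr
import Pool.Agent.Lib.MP_f80667_ag.Be.Uc

/-! The action of the Galois group on unramified points. -/

open ZC Polynomial IntermediateField

namespace BE

variable {F : Type} [Field F] {K : Type} [Field K] [CharZero K] [Algebra F K] {Ω : Type} [Field Ω]
  [Algebra K Ω] [Algebra F Ω] [IsScalarTower F K Ω] [IsAlgClosure K Ω] (C : Cf F) (L : Lf K Ω)

theorem torp_tw_smul {Γ A B : Type} [Group Γ] [AddCommGroup A] [AddCommGroup B]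
    [DistribMulAction Γ A] [DistribMulAction Γ B] (u : A) (γ : Γ) (n : ℕ) (y : B) :
    tw u γ (n • y) = n • tw u γ y := by
  have h0 : tw u γ (0 : B) = 0 := by
    unfold tw
    split_ifs
    · exact smul_zero γ
    · rw [smul_zero, neg_zero]
  let ψ : B →+ B := { toFun := tw u γ, map_zero' := h0, map_add' := tw_add u γ }
  exact map_nsmul ψ n y

/-- The coordinates of a point. -/
def torp_x {W : WeierstrassCurve F} {L : Type} [Field L] [Algebra F L] : Pt W L → L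
  | .zero => 0
  | .some x _ _ => x

/-- The coordinates of a point. -/
def torp_y {W : WeierstrassCurve F} {L : Type} [Field L] [Algebra F L] : Pt W L → L
  | .zero => 0
  | .some _ y _ => y

/-- The congruence of the two images. -/
theorem torp_kr (h : L.H1 C) {γ δ : Ω ≃ₐ[K] Ω} {x y : Ω}
    (hP : ((C.W₂).baseChange Ω).toAffine.Nonsingular x y) (hx : L.nm x ≤ 1) (hy : L.nm y ≤ 1)
    (hxx : L.nm (γ x - δ x) < 1) (hyy : L.nm (γ y - δ y) < 1) :
    γ • (Pt.aff x y hP : Pt C.W₂ Ω) - δ • (Pt.aff x y hP : Pt C.W₂ Ω) ∈ Kr L C := by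
  have h1 : ∀ σ : Ω ≃ₐ[K] Ω, ∃ hσ, σ • (Pt.aff x y hP : Pt C.W₂ Ω) = Pt.aff (σ x) (σ y) hσ :=
    fun σ => ⟨(WeierstrassCurve.Affine.baseChange_nonsingular (C.W₂).toAffine
      (σ.restrictScalars F : Ω →ₐ[F] Ω).injective x y).mpr hP, rfl⟩
  obtain ⟨h2, h3⟩ := h1 γ
  obtain ⟨h4, h5⟩ := h1 δ
  rw [h3, h5]
  exact ig_close C L h h2 h4 (by rw [L.act]; exact hx) (by rw [L.act]; exact hy) hxx hyy

/-- **Everything is unramified.** The automorphism `γ` acts as a power of the Frobenius automorphism on finitely many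
integral points `Q` with `2^k Q` over `M`. Proof: apply `Frob.gen` to `S`, the coordinates of the points and `s = r / m`, where `r² = kap u`
(`exists_r`), `kap u = c m²`, `c` a unit of `M`, `m ∈ M` (`uc_kap`): `γ s = ± s`, with the sign of the action of `γ` on `u`, and the sign of
`φ^n` is the same since `nm 2 = 1`. So `tw u γ Q` and `tw u (φ^n) Q` are congruent integral points, their difference is in the
kernel of the reduction (`ig_close`) and `2^k` kills it: `kr_tor`. -/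
theorem exists_pow (h : L.H1 C) {M : IntermediateField K Ω} [FiniteDimensional K M]
    {φ : Ω ≃ₐ[K] Ω} {q : ℕ} (hφ : Frob L M φ q) {u : Pt C.W₁ Ω}
    (hu : (C.dt K Ω).UU M.fixingSubgroup u) (S : Finset Ω) (hS : ∀ x ∈ S, L.nm x ≤ 1)
    (Z : Finset (Pt C.W₂ Ω)) (hZ : ∀ Q ∈ Z, Q ∈ Ig L C ∧
      ∃ k : ℕ, (C.dt K Ω).PP M.fixingSubgroup u (2 ^ k • Q)) {γ : Ω ≃ₐ[K] Ω}
    (hγ : γ ∈ M.fixingSubgroup) :
    ∃ n : ℕ, (∀ x ∈ S, L.nm (γ x - (φ ^ n) x) < 1) ∧ ∀ Q ∈ Z, tw u γ Q = tw u (φ ^ n) Q := by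
  classical
  obtain ⟨r, hr0, hr, -, hra⟩ := HfK_r C hu
  obtain ⟨c, hc, m, hm, hc1, hm0, hk⟩ := uc_kap C L h hu
  have hs2 : (r / m) ^ 2 = c := by
    rw [div_pow, hr, hk, mul_div_assoc, div_self (pow_ne_zero 2 hm0), mul_one]
  have hs1 : L.nm (r / m) = 1 := by
    have h1 : L.nm (r / m) ^ 2 = 1 := by rw [← L.pow, hs2, hc1]
    exact (pow_eq_one_iff_of_nonneg (L.nonneg _) two_ne_zero).1 h1
  have hsa : ∀ σ ∈ M.fixingSubgroup, (σ • u = u → σ (r / m) = r / m) ∧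
      (σ • u = u + C.t Ω → σ (r / m) = -(r / m)) := by
    intro σ hσ
    have h1 : σ m = m := (IntermediateField.mem_fixingSubgroup_iff M σ).1 hσ m hm
    refine ⟨fun h2 => ?_, fun h2 => ?_⟩
    · rw [map_div₀, h1, (hra σ hσ).1 h2]
    · rw [map_div₀, h1, (hra σ hσ).2 h2, neg_div]
  obtain ⟨n, hn⟩ := hφ.gen γ hγ (S ∪ {r / m} ∪ (Z.image torp_x ∪ Z.image torp_y)) (by
    intro x hx
    simp only [Finset.mem_union, Finset.mem_singleton, Finset.mem_image] at hx
    rcases hx with (hx | hx) | ⟨Q, hQ, hx⟩ | ⟨Q, hQ, hx⟩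
    · exact hS x hx
    · rw [hx, hs1]
    · obtain ⟨x', y', h', h1, h2, h3⟩ := (hZ Q hQ).1
      subst h1
      rw [← hx]
      exact h2
    · obtain ⟨x', y', h', h1, h2, h3⟩ := (hZ Q hQ).1
      subst h1
      rw [← hx]
      exact h3)
  have hφn : φ ^ n ∈ M.fixingSubgroup := Subgroup.pow_mem _ hφ.mem n
  have hns := hn (r / m) (by simp)
  -- the signs agree
  have h2s : ∀ z : Ω, L.nm z = 1 → ¬ L.nm (z - -z) < 1 := by
    intro z hz hlt
    have h1 : z - -z = 2 * z := by ring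
    rw [h1, L.mul, h.two, hz, one_mul] at hlt
    exact lt_irrefl _ hlt
  have hsg : γ • u = u ↔ (φ ^ n) • u = u := by
    constructor
    · intro h1
      by_contra h2
      have h3 := (hu (φ ^ n) hφn).resolve_left h2
      rw [(hsa γ hγ).1 h1, (hsa _ hφn).2 h3] at hns
      exact h2s _ hs1 hns
    · intro h1
      by_contra h2
      have h3 := (hu γ hγ).resolve_left h2
      rw [(hsa γ hγ).2 h3, (hsa _ hφn).1 h1, L.sub_comm] at hns
      exact h2s _ hs1 hns
  refine ⟨n, fun x hx => hn x (by simp [hx]), fun Q hQ => ?_⟩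
  obtain ⟨⟨x, y, hP, rfl, hx, hy⟩, k, hk2⟩ := hZ Q hQ
  have hxx := hn x (Finset.mem_union_right _ (Finset.mem_union_left _
    (Finset.mem_image.2 ⟨_, hQ, rfl⟩)))
  have hyy := hn y (Finset.mem_union_right _ (Finset.mem_union_right _
    (Finset.mem_image.2 ⟨_, hQ, rfl⟩)))
  have hkr := torp_kr C L h hP hx hy hxx hyy
  have hpp := (Dt.pp_iff hu).1 hk2
  have h1 : (2 ^ k : ℕ) • tw u γ (Pt.aff x y hP : Pt C.W₂ Ω) =
      (2 ^ k : ℕ) • tw u (φ ^ n) (Pt.aff x y hP : Pt C.W₂ Ω) := by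
    rw [← torp_tw_smul, ← torp_tw_smul, hpp γ hγ, hpp _ hφn]
  by_cases hg : γ • u = u
  · have hg' := hsg.1 hg
    simp only [tw, if_pos hg, if_pos hg'] at h1 ⊢
    exact sub_eq_zero.1 (kr_tor C L h hkr (k := k) (by rw [smul_sub, h1, sub_self]))
  · have hg' : ¬ (φ ^ n) • u = u := fun h2 => hg (hsg.2 h2)
    simp only [tw, if_neg hg, if_neg hg', smul_neg, neg_inj] at h1 ⊢
    exact sub_eq_zero.1 (kr_tor C L h hkr (k := k) (by rw [smul_sub, h1, sub_self]))

end BE
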