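import Pool.Agent.Lib.MP_f80667_ag.Be.Odd
import Pool.Agent.Lib.MP_f80667_ag.Be.Gal
import Pool.Agent.Lib.MP_f80667_ag.Be.ThN

/-! Extensions of even degree contain quadratic extensions (odd residue characteristic). -/

open ZC Polynomial IntermediateField

namespace BE

/-- Over a finite group: a chain of `2`-groups. -/
theorem Tow_fin {Q : Type} [Group Q] [Finite Q] {H S : Subgroup Q} (hSH : S ≤ H)
    (he : Even (S.relIndex H)) :
    ∃ R S' : Subgroup Q, S' ≤ S ∧ Odd (S'.relIndex S) ∧ S' < R ∧ R ≤ H ∧ Odd (R.relIndex H) ∧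
      ∃ k, Nat.card R = 2 ^ k := by
  have hp2 : Fact (Nat.Prime 2) := ⟨Nat.prime_two⟩
  obtain ⟨P⟩ : Nonempty (Sylow 2 S) := inferInstance
  set P' : Subgroup Q := (P : Subgroup S).map S.subtype with hP'
  have hPS : P' ≤ S := Subgroup.map_subtype_le _
  have hPodd : Odd (P'.relIndex S) := by
    have h1 : P'.subgroupOf S = (P : Subgroup S) :=
      Subgroup.comap_map_eq_self_of_injective S.subtype_injective _
    rw [Subgroup.relIndex, h1, ← Nat.not_even_iff_odd, even_iff_two_dvd]
    exact P.not_dvd_index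
  have hPg : IsPGroup 2 P' := P.isPGroup'.map S.subtype
  have hPH : P' ≤ H := hPS.trans hSH
  have hPg' : IsPGroup 2 (P'.subgroupOf H) :=
    hPg.comap_of_injective H.subtype H.subtype_injective
  obtain ⟨R, hR⟩ := hPg'.exists_le_sylow
  set R' : Subgroup Q := (R : Subgroup H).map H.subtype with hR'
  have hRH : R' ≤ H := Subgroup.map_subtype_le _
  have hRodd : Odd (R'.relIndex H) := by
    have h1 : R'.subgroupOf H = (R : Subgroup H) :=
      Subgroup.comap_map_eq_self_of_injective H.subtype_injective _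
    rw [Subgroup.relIndex, h1, ← Nat.not_even_iff_odd, even_iff_two_dvd]
    exact R.not_dvd_index
  have hPR : P' ≤ R' := by
    intro x hx
    exact ⟨⟨x, hPH hx⟩, hR (Subgroup.mem_subgroupOf.2 hx), rfl⟩
  refine ⟨R', P', hPS, hPodd, lt_of_le_of_ne hPR ?_, hRH, hRodd, ?_⟩
  · intro h
    rw [← h] at hRodd
    rw [← Subgroup.relIndex_mul_relIndex P' S H hPS hSH, Nat.odd_mul] at hRodd
    exact (Nat.not_even_iff_odd.2 hRodd.2) he
  · exact (IsPGroup.iff_card).1 (R.isPGroup'.map H.subtype)

/-- A statement on finite groups: `S ≤ H`, `N` normal of finite index in `Γ`, `N ≤ S`. If the index of `S` in `H` is even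
there are `R ≤ H` of odd index and `S' ≤ S` of odd index with `N ≤ S' ≤ R₁ ≤ R`, `R₁` of index two in `R`. Proof: `S' / N` a Sylow
`2`-subgroup of `S / N`, `R / N` a Sylow `2`-subgroup of `H / N` which contains it, `R₁ / N` a maximal subgroup of `R / N` which
contains `S' / N` (`exists_index_two` in `Be/ThN.lean`). -/
theorem exists_chain {Γ : Type} [Group Γ] {H S N : Subgroup Γ} (hN : N.Normal) (hf : N.FiniteIndex)
    (hNS : N ≤ S) (hSH : S ≤ H) (he : Even (S.relIndex H)) :
    ∃ R R₁ S' : Subgroup Γ, N ≤ S' ∧ S' ≤ S ∧ Odd (S'.relIndex S) ∧ S' ≤ R₁ ∧ R₁ ≤ R ∧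
      R₁.relIndex R = 2 ∧ R ≤ H ∧ Odd (R.relIndex H) := by
  let π : Γ →* Γ ⧸ N := QuotientGroup.mk' N
  have hπ : Function.Surjective π := QuotientGroup.mk'_surjective _
  have hker : π.ker = N := QuotientGroup.ker_mk' _
  have hfin : Finite (Γ ⧸ N) := Subgroup.finite_quotient_of_finiteIndex
  have hcm : ∀ A : Subgroup Γ, N ≤ A → (A.map π).comap π = A := by
    intro A hA
    rw [Subgroup.comap_map_eq, hker, sup_eq_left]
    exact hA
  have hrel : ∀ A B : Subgroup (Γ ⧸ N), (A.comap π).relIndex (B.comap π) = A.relIndex B := by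
    intro A B
    rw [Subgroup.relIndex_comap, Subgroup.map_comap_eq_self_of_surjective hπ]
  have he' : Even ((S.map π).relIndex (H.map π)) := by
    rw [← hrel, hcm S hNS, hcm H (hNS.trans hSH)]
    exact he
  obtain ⟨R, S', h1, h2, h3, h4, h5, k, hk⟩ := Tow_fin (Subgroup.map_mono hSH) he'
  have hNc : ∀ A : Subgroup (Γ ⧸ N), N ≤ A.comap π := fun A =>
    hker.ge.trans (Subgroup.ker_le_comap π A)
  have hlt : S'.comap π < R.comap π := by
    refine lt_of_le_of_ne (Subgroup.comap_mono h3.le) ?_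
    intro h
    exact h3.ne (Subgroup.comap_injective hπ h)
  have hNR : N.relIndex (R.comap π) = 2 ^ k := by
    have h6 : N = (⊥ : Subgroup (Γ ⧸ N)).comap π := by
      rw [MonoidHom.comap_bot, hker]
    have h7 : N.relIndex (R.comap π) = ((⊥ : Subgroup (Γ ⧸ N)).comap π).relIndex (R.comap π) := by
      rw [← h6]
    rw [h7, hrel, Subgroup.relIndex_bot_left, hk]
  obtain ⟨R₁, h8, h9, h10⟩ := exists_index_two hN (hNc R) ⟨k, hNR⟩ (S'.comap π) (hNc S') hlt
  refine ⟨R.comap π, R₁, S'.comap π, hNc S', ?_, ?_, h8, h9, h10, ?_, ?_⟩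
  · rw [← hcm S hNS]
    exact Subgroup.comap_mono h1
  · have := h2
    rw [← hrel, hcm S hNS] at this
    exact this
  · rw [← hcm H (hNS.trans hSH)]
    exact Subgroup.comap_mono h4
  · have := h5
    rw [← hrel, hcm H (hNS.trans hSH)] at this
    exact this

section alg

variable {K Ω : Type} [Field K] [CharZero K] [Field Ω] [Algebra K Ω]

/-- Adjoining a square root which is not in the field doubles the degree. -/
theorem Tow_adj {M N : IntermediateField K Ω} (h : M ≤ N) [FiniteDimensional K N] {s : Ω}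
    (hsN : s ∈ N) (hsM : s ∉ M) (hs2 : s ^ 2 ∈ M) :
    ∃ M₁ : IntermediateField K Ω, M ≤ M₁ ∧ M₁ ≤ N ∧ s ∈ M₁ ∧
      Module.finrank K M₁ = 2 * Module.finrank K M := by
  have hMfin : FiniteDimensional K M :=
    FiniteDimensional.of_injective (IntermediateField.inclusion h).toLinearMap
      (IntermediateField.inclusion_injective h)
  refine ⟨(IntermediateField.adjoin M {s}).restrictScalars K, ?_, ?_, ?_, ?_⟩
  · intro x hx
    rw [IntermediateField.mem_restrictScalars]
    exact (IntermediateField.adjoin M {s}).algebraMap_mem ⟨x, hx⟩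
  · intro x hx
    rw [IntermediateField.mem_restrictScalars] at hx
    have h1 : IntermediateField.adjoin M {s} ≤ IntermediateField.extendScalars h := by
      rw [IntermediateField.adjoin_le_iff]
      intro y hy
      rw [Set.mem_singleton_iff] at hy
      rw [hy]
      exact hsN
    exact h1 hx
  · rw [IntermediateField.mem_restrictScalars]
    exact IntermediateField.mem_adjoin_simple_self M s
  · have h2 : Module.finrank M (IntermediateField.adjoin M {s}) = 2 := by
      have hint : IsIntegral M s := by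
        refine ⟨X ^ 2 - C (⟨s ^ 2, hs2⟩ : M), monic_X_pow_sub_C _ two_ne_zero, ?_⟩
        rw [eval₂_sub, eval₂_pow, eval₂_X, eval₂_C]
        exact sub_self _
      rw [IntermediateField.adjoin.finrank hint]
      have h3 : minpoly M s ∣ X ^ 2 - C (⟨s ^ 2, hs2⟩ : M) := by
        apply minpoly.dvd
        rw [map_sub, map_pow, aeval_X, aeval_C]
        exact sub_self _
      have h4 : (minpoly M s).natDegree ≤ 2 := by
        have h5 := Polynomial.natDegree_le_of_dvd h3 (monic_X_pow_sub_C _ two_ne_zero).ne_zero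
        rwa [natDegree_X_pow_sub_C] at h5
      have h6 : 2 ≤ (minpoly M s).natDegree := by
        rw [minpoly.two_le_natDegree_iff hint]
        rintro ⟨y, hy⟩
        apply hsM
        rw [← hy]
        exact y.2
      omega
    have h7 := Module.finrank_mul_finrank K M (IntermediateField.adjoin M {s})
    rw [h2] at h7
    rw [mul_comm]
    exact h7.symm

end alg

variable {K Ω : Type} [Field K] [CharZero K] [Field Ω] [Algebra K Ω] [IsAlgClosure K Ω] (L : Lf K Ω)

theorem Tow_div {M N : IntermediateField K Ω} (h : M ≤ N) [FiniteDimensional K N]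
    (hM : FiniteDimensional K M) :
    N.fixingSubgroup.relIndex M.fixingSubgroup = Module.finrank K N / Module.finrank K M := by
  rw [← relIndex_fix h, Nat.mul_div_cancel _ Module.finrank_pos]

omit [CharZero K] [IsAlgClosure K Ω] in
theorem Tow_fin_of_le {M N : IntermediateField K Ω} (h : M ≤ N) [FiniteDimensional K N] :
    FiniteDimensional K M :=
  FiniteDimensional.of_injective (IntermediateField.inclusion h).toLinearMap
    (IntermediateField.inclusion_injective h)

/-- A quadratic extension is generated by a square root. -/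
theorem Tow_root {M N : IntermediateField K Ω} (h : M ≤ N) [FiniteDimensional K N]
    (h2 : N.fixingSubgroup.relIndex M.fixingSubgroup = 2) :
    ∃ s ∈ N, s ∉ M ∧ s ^ 2 ∈ M := by
  -- an element `w` of `N` which is not in `M`
  obtain ⟨w, hwN, hwM⟩ : ∃ w ∈ N, w ∉ M := by
    by_contra hcon
    push Not at hcon
    have h3 : N.fixingSubgroup.relIndex M.fixingSubgroup = 1 :=
      Subgroup.relIndex_eq_one.2 (fix_le hcon)
    omega
  obtain ⟨σ, hσM, hσN⟩ : ∃ σ ∈ M.fixingSubgroup, σ ∉ N.fixingSubgroup := by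
    by_contra hcon
    push Not at hcon
    have h3 : N.fixingSubgroup.relIndex M.fixingSubgroup = 1 :=
      Subgroup.relIndex_eq_one.2 hcon
    omega
  have hmm : ∀ γ ∈ M.fixingSubgroup, ∀ δ ∈ M.fixingSubgroup,
      (γ * δ ∈ N.fixingSubgroup ↔ (γ ∈ N.fixingSubgroup ↔ δ ∈ N.fixingSubgroup)) := by
    intro γ hγ δ hδ
    have h1 := Subgroup.mul_mem_iff_of_index_two
      (H := N.fixingSubgroup.subgroupOf M.fixingSubgroup) h2 (a := ⟨γ, hγ⟩) (b := ⟨δ, hδ⟩)
    rw [Subgroup.mem_subgroupOf, Subgroup.mem_subgroupOf, Subgroup.mem_subgroupOf] at h1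
    exact h1
  have hfixN : ∀ γ ∈ N.fixingSubgroup, γ w = w := fun γ hγ =>
    (IntermediateField.mem_fixingSubgroup_iff N γ).1 hγ w hwN
  have hinvN : ∀ γ ∈ M.fixingSubgroup, γ ∉ N.fixingSubgroup → γ w = σ w := by
    intro γ hγ hγN
    have h3 : σ⁻¹ * γ ∈ N.fixingSubgroup := by
      rw [hmm _ (Subgroup.inv_mem _ hσM) γ hγ, Subgroup.inv_mem_iff]
      exact iff_of_false hσN hγN
    have h4 := hfixN _ h3
    rw [AlgEquiv.mul_apply] at h4
    have h5 := congrArg σ h4
    have h6 : σ ((σ⁻¹ : Ω ≃ₐ[K] Ω) (γ w)) = γ w := by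
      rw [← AlgEquiv.mul_apply, mul_inv_cancel, AlgEquiv.one_apply]
    rw [h6] at h5
    exact h5
  have hσσ : σ (σ w) = w := by
    have h3 : σ * σ ∈ N.fixingSubgroup := by
      rw [hmm σ hσM σ hσM]
    exact hfixN _ h3
  have hσw : σ w ∈ N := by
    apply mem_of_fix N
    intro γ hγ
    have h3 : γ * σ ∉ N.fixingSubgroup := by
      rw [hmm γ (fix_le h hγ) σ hσM]
      exact fun h4 => hσN (h4.1 hγ)
    exact hinvN _ (Subgroup.mul_mem _ (fix_le h hγ) hσM) h3
  have hne : σ w ≠ w := by
    intro h3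
    apply hwM
    apply mem_of_fix M
    intro γ hγ
    by_cases h4 : γ ∈ N.fixingSubgroup
    · exact hfixN γ h4
    · rw [hinvN γ hγ h4, h3]
  refine ⟨w - σ w, N.sub_mem hwN hσw, ?_, ?_⟩
  · intro h3
    have h4 : σ (w - σ w) = w - σ w := (IntermediateField.mem_fixingSubgroup_iff M σ).1 hσM _ h3
    rw [map_sub, hσσ] at h4
    have h5 : (2 : Ω) * (w - σ w) = 0 := by linear_combination -h4
    have i1 : CharZero Ω := charZero_of_injective_algebraMap (algebraMap K Ω).injective
    rcases mul_eq_zero.1 h5 with h6 | h6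
    · exact two_ne_zero h6
    · exact hne (sub_eq_zero.1 h6).symm
  · apply mem_of_fix M
    intro γ hγ
    by_cases h4 : γ ∈ N.fixingSubgroup
    · have h5 : γ (σ w) = σ w := (IntermediateField.mem_fixingSubgroup_iff N γ).1 h4 _ hσw
      rw [map_pow, map_sub, hfixN γ h4, h5]
    · have h5 : γ (σ w) = w := by
        have h6 : γ * σ ∈ N.fixingSubgroup := by
          rw [hmm γ hγ σ hσM]
          exact iff_of_false h4 hσN
        exact hfixN _ h6
      rw [map_pow, map_sub, hinvN γ hγ h4, h5]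
      ring

/-- An extension `M ≤ N` of even degree contains a quadratic extension of `M`. Proof: `exists_chain` for
`H = Gal(Ω/M)`, `S = Gal(Ω/N)`: there are `M ≤ M'' ≤ M₁'' ≤ N'`, `N ≤ N'`, `[M'' : M]`, `[N' : N]` odd, `[M₁'' : M''] = 2`,
`M₁'' = M''(√b)`, and by `odd_onto` we may take `b ∈ M`. `b` is a square in `N'`, so in `N` (`SqM.odd`), and it is not a square in
`M`. -/
theorem exists_quad (h2 : L.nm 2 = 1) {M N : IntermediateField K Ω} (h : M ≤ N)
    [FiniteDimensional K N] (he : Even (Module.finrank K N / Module.finrank K M)) :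
    ∃ M₁ : IntermediateField K Ω, M ≤ M₁ ∧ M₁ ≤ N ∧
      Module.finrank K M₁ = 2 * Module.finrank K M := by
  have hMf : FiniteDimensional K M := Tow_fin_of_le h
  have hopN := opn_fix N
  have hcore := opn_core _ hopN
  rw [← Tow_div h hMf] at he
  obtain ⟨R, R₁, S', c1, c2, c3, c4, c5, c6, c7, c8⟩ := exists_chain
    (Subgroup.normalCore_normal N.fixingSubgroup) (opn_fin _ hcore)
    (Subgroup.normalCore_le N.fixingSubgroup) (fix_le h) he
  have hopS' := opn_mono _ _ hcore c1
  have hopR₁ := opn_mono _ _ hopS' c4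
  have hopR := opn_mono _ _ hopR₁ c5
  obtain ⟨N', hN'f, rfl⟩ := exists_fix hopS'
  obtain ⟨P₁, hP₁f, rfl⟩ := exists_fix hopR₁
  obtain ⟨P, hPf, rfl⟩ := exists_fix hopR
  have hMP : M ≤ P := le_of_fix_le c7
  have hPP₁ : P ≤ P₁ := le_of_fix_le c5
  have hP₁N' : P₁ ≤ N' := le_of_fix_le c4
  have hNN' : N ≤ N' := le_of_fix_le c2
  rw [Tow_div hMP hMf] at c8
  rw [Tow_div hNN' inferInstance] at c3
  obtain ⟨s, hs1, hs2, hs3⟩ := Tow_root hPP₁ c6
  have hs0 : s ≠ 0 := fun h0 => hs2 (h0 ▸ P.zero_mem)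
  obtain ⟨c, hcM, hc0, hc⟩ := odd_onto L h2 hMP c8 hs3 (pow_ne_zero 2 hs0)
  obtain ⟨z, hzP, hz⟩ := hc
  -- `c = (z / s) ^ 2`
  have hcz : c = (z / s) ^ 2 := by
    rw [div_pow, eq_div_iff (pow_ne_zero 2 hs0)]
    exact hz
  have hsqN' : SqM N' c :=
    ⟨z / s, hP₁N' (P₁.div_mem (hPP₁ hzP) hs1), hcz⟩
  obtain ⟨t, htN, ht⟩ := SqM.odd hNN' c3 (h hcM) hsqN'
  have htM : t ∉ M := by
    intro htM
    apply hs2
    have h3 : (z / s) ^ 2 = t ^ 2 := by rw [← hcz, ht]
    have h4 : z / s ∈ P := by
      rcases sq_eq_sq_iff_eq_or_eq_neg.1 h3 with h5 | h5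
      · rw [h5]
        exact hMP htM
      · rw [h5]
        exact P.neg_mem (hMP htM)
    have h6 : z / s ≠ 0 := by
      intro h7
      rw [h7] at hcz
      exact hc0 (by rw [hcz, zero_pow two_ne_zero])
    have h7 : s = z / (z / s) := by
      have hz0 : z ≠ 0 := fun h8 => h6 (by rw [h8, zero_div])
      field_simp
    rw [h7]
    exact P.div_mem hzP h4
  obtain ⟨M₁, d1, d2, d3, d4⟩ := Tow_adj h htN htM (by rw [← ht]; exact hcM)
  exact ⟨M₁, d1, d2, d4⟩

/-- Every finite extension of `K` is of odd degree over an extension whose degree over `K` is a power of `2`. -/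
theorem exists_tow (h2 : L.nm 2 = 1) (N : IntermediateField K Ω) [FiniteDimensional K N] :
    ∃ M : IntermediateField K Ω, M ≤ N ∧ (∃ n, Module.finrank K M = 2 ^ n) ∧
      Odd (Module.finrank K N / Module.finrank K M) := by
  have key : ∀ (j : ℕ) (M : IntermediateField K Ω), M ≤ N →
      (∃ n, Module.finrank K M = 2 ^ n) → Module.finrank K N < Module.finrank K M + j →
      ∃ M : IntermediateField K Ω, M ≤ N ∧ (∃ n, Module.finrank K M = 2 ^ n) ∧
        Odd (Module.finrank K N / Module.finrank K M) := by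
    intro j
    induction j with
    | zero =>
      intro M hM _ hj
      exfalso
      have : Module.finrank K M ≤ Module.finrank K N :=
        LinearMap.finrank_le_finrank_of_injective
          (f := (IntermediateField.inclusion hM).toLinearMap)
          (IntermediateField.inclusion_injective hM)
      omega
    | succ j ih =>
      intro M hM hn hj
      rcases Nat.even_or_odd (Module.finrank K N / Module.finrank K M) with he | ho
      · obtain ⟨M₁, e1, e2, e3⟩ := exists_quad L h2 hM he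
        have hMf : FiniteDimensional K M := Tow_fin_of_le hM
        have hpos : 0 < Module.finrank K M := Module.finrank_pos
        refine ih M₁ e2 ?_ (by omega)
        obtain ⟨n, hn⟩ := hn
        exact ⟨n + 1, by rw [e3, hn, pow_succ, mul_comm]⟩
      · exact ⟨M, hM, hn, ho⟩
  exact key (Module.finrank K N) ⊥ bot_le ⟨0, by rw [IntermediateField.finrank_bot, pow_zero]⟩
    (by rw [IntermediateField.finrank_bot]; omega)

end BE
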