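import Pool.Agent.Lib.MP_f80667_ag.Be.Kr

/-! Points of order a power of two on `E₂`. -/

open ZC Polynomial IntermediateField

namespace BE

theorem tw_one {Γ A B : Type} [Group Γ] [AddCommGroup A] [AddCommGroup B] [DistribMulAction Γ A]
    [DistribMulAction Γ B] (u : A) (y : B) : tw u (1 : Γ) y = y := by
  rw [tw, if_pos (one_smul Γ u), one_smul]

section tors

variable {F : Type} [Field F] {Ω : Type} [Field Ω] [Algebra F Ω] [CharZero Ω] [IsAlgClosed Ω]
  (C : Cf F)

/-- Every point is a double. Proof: `half₂` for `K = Ω`, `u = 0`. -/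
theorem exists_dbl (P : Pt C.W₂ Ω) : ∃ Q, Q + Q = P := by
  have hM : ∀ (M : IntermediateField Ω Ω) (x : Ω), x ∈ M := fun M x => M.algebraMap_mem x
  obtain ⟨Q, _, hQ⟩ := half₂ (K := Ω) C (M := (⊤ : IntermediateField Ω Ω)) (u := 0) (y := P)
    (fun γ _ => by
      have h1 : γ = 1 := by
        ext x
        exact γ.commutes x
      rw [h1, one_smul])
    (fun e _ => by
      obtain ⟨z, hz⟩ := IsAlgClosed.exists_pow_nat_eq (C.th0 Ω e 0 P) (n := 2) (by norm_num)
      exact ⟨z, hM _ z, hz.symm⟩)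
  exact ⟨Q, hQ⟩

/-- The points of order two. -/
theorem tor_two : {P : Pt C.W₂ Ω | P + P = 0}.Finite := by
  classical
  obtain ⟨e₁, e₂, e₃, -, -, -, k2, k1, k0⟩ := HfH_roots (Ω := Ω) C
  let f : Ω → Pt C.W₂ Ω := fun x =>
    if h : ((C.W₂).baseChange Ω).toAffine.Nonsingular x 0 then Pt.aff x 0 h else 0
  refine ((Set.finite_singleton (0 : Pt C.W₂ Ω)).union
    ((((Set.finite_singleton e₃).insert e₂).insert e₁).image f)).subset ?_
  intro P hP
  rcases Pt.cases' P with rfl | ⟨x, y, n, rfl⟩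
  · exact Or.inl rfl
  · right
    have ha₁ : C.W₂.a₁ = 0 := rfl
    have ha₃ : C.W₂.a₃ = 0 := rfl
    obtain ⟨n', hn'⟩ := HfH_neg ha₁ ha₃ n
    have h1 : (Pt.aff x y n : Pt C.W₂ Ω) = Pt.aff x (-y) n' := by
      rw [← hn']
      exact eq_neg_of_add_eq_zero_left hP
    have hy : y = 0 := by
      have h2 := (HfH_inj.1 h1).2
      have h3 : (2 : Ω) * y = 0 := by linear_combination h2
      exact (mul_eq_zero.1 h3).resolve_left two_ne_zero
    subst hy
    have h4 := eq₂ C n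
    have h5 : (x - e₁) * ((x - e₂) * (x - e₃)) = 0 := by
      rw [k2, k1, k0] at h4
      linear_combination -h4
    refine ⟨x, ?_, ?_⟩
    · rcases mul_eq_zero.1 h5 with h | h
      · exact Or.inl (sub_eq_zero.1 h)
      · rcases mul_eq_zero.1 h with h | h
        · exact Or.inr (Or.inl (sub_eq_zero.1 h))
        · exact Or.inr (Or.inr (sub_eq_zero.1 h))
    · exact dif_pos n

/-- Proof: induction on `n`; for `n = 1` the points are `0` and the `(e, 0)`. -/
theorem tor_fin (n : ℕ) : {P : Pt C.W₂ Ω | 2 ^ n • P = 0}.Finite := by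
  induction n with
  | zero =>
    refine (Set.finite_singleton (0 : Pt C.W₂ Ω)).subset fun P hP => ?_
    have h1 : 2 ^ 0 • P = 0 := hP
    rwa [pow_zero, one_nsmul] at h1
  | succ n ih =>
    have h1 : {P : Pt C.W₂ Ω | 2 ^ (n + 1) • P = 0} ⊆
        (fun P : Pt C.W₂ Ω => P + P) ⁻¹' {P : Pt C.W₂ Ω | 2 ^ n • P = 0} := by
      intro P hP
      have h2 : 2 ^ (n + 1) • P = 0 := hP
      change 2 ^ n • (P + P) = 0
      rwa [← two_nsmul, ← mul_smul, ← pow_succ]
    refine Set.Finite.subset (Set.Finite.preimage' ih fun Q _ => ?_) h1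
    rcases Set.eq_empty_or_nonempty ((fun P : Pt C.W₂ Ω => P + P) ⁻¹' {Q}) with h0 | ⟨P₀, hP₀⟩
    · rw [h0]
      exact Set.finite_empty
    · refine ((tor_two C).image fun T => P₀ + T).subset fun P hP => ?_
      refine ⟨P - P₀, ?_, add_sub_cancel _ _⟩
      have h3 : P₀ + P₀ = Q := hP₀
      have h4 : P + P = Q := hP
      change (P - P₀) + (P - P₀) = 0
      rw [sub_add_sub_comm, h3, h4, sub_self]

end tors

variable {F : Type} [Field F] {K : Type} [Field K] [CharZero K] [Algebra F K] {Ω : Type} [Field Ω]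
  [Algebra K Ω] [Algebra F Ω] [IsScalarTower F K Ω] [IsAlgClosure K Ω] (C : Cf F) (L : Lf K Ω)

/-- The points of order a power of `2`. -/
def Tr (C : Cf F) (Ω : Type) [Field Ω] [Algebra F Ω] : AddSubgroup (Pt C.W₂ Ω) where
  carrier := {P | ∃ k : ℕ, 2 ^ k • P = 0}
  zero_mem' := ⟨0, smul_zero _⟩
  add_mem' := by
    rintro a b ⟨k, hk⟩ ⟨l, hl⟩
    refine ⟨k + l, ?_⟩
    have h1 : 2 ^ (k + l) • a = 0 := by rw [pow_add, mul_comm, mul_smul, hk, smul_zero]
    have h2 : 2 ^ (k + l) • b = 0 := by rw [pow_add, mul_smul, hl, smul_zero]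
    rw [smul_add, h1, h2, add_zero]
  neg_mem' := by
    rintro a ⟨k, hk⟩
    exact ⟨k, by rw [smul_neg, hk, neg_zero]⟩

end BE
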