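import Pool.Agent.Lib.MP_f80667_ag.Be.Vg0

/-! Dyadic places: the value group of `K(e, θ)`, `θ^N = 2`. -/

open ZC Polynomial IntermediateField

namespace BE

section aux

variable {K Ω : Type} [Field K] [Field Ω] [Algebra K Ω] (L : Lf K Ω)

/-- The norm of a sum of numbers with different norms. -/
theorem vg_sum {ι : Type} (s : Finset ι) (hs : s.Nonempty) (f : ι → Ω)
    (hd : ∀ i ∈ s, ∀ j ∈ s, i ≠ j → L.nm (f i) ≠ L.nm (f j)) :
    ∃ i ∈ s, L.nm (∑ j ∈ s, f j) = L.nm (f i) := by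
  classical
  induction s using Finset.induction_on with
  | empty => exact absurd hs Finset.not_nonempty_empty
  | insert a s ha ih =>
    rw [Finset.sum_insert ha]
    rcases s.eq_empty_or_nonempty with rfl | hne
    · exact ⟨a, Finset.mem_insert_self _ _, by rw [Finset.sum_empty, add_zero]⟩
    · obtain ⟨i, hi, h1⟩ := ih hne fun i hi j hj =>
        hd i (Finset.mem_insert_of_mem hi) j (Finset.mem_insert_of_mem hj)
      have h2 : L.nm (f a) ≠ L.nm (f i) :=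
        hd a (Finset.mem_insert_self _ _) i (Finset.mem_insert_of_mem hi) (by
          rintro rfl
          exact ha hi)
      rcases lt_or_gt_of_ne h2 with h3 | h3
      · exact ⟨i, Finset.mem_insert_of_mem hi, by rw [L.add_eq (by rw [h1]; exact h3), h1]⟩
      · exact ⟨a, Finset.mem_insert_self _ _, by rw [L.add_eq' (by rw [h1]; exact h3)]⟩

theorem vg_theta (h2 : L.nm 2 < 1) (h0 : (2 : Ω) ≠ 0) {θ : Ω} {N : ℕ} (hN : 0 < N)
    (hθ : θ ^ N = 2) : 0 < L.nm θ ∧ L.nm θ < 1 := by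
  have h1 : θ ≠ 0 := by
    rintro rfl
    rw [zero_pow hN.ne'] at hθ
    exact h0 hθ.symm
  refine ⟨L.pos h1, ?_⟩
  by_contra h3
  rw [not_lt] at h3
  have h4 := one_le_pow₀ (n := N) h3
  rw [← L.pow, hθ] at h4
  exact absurd h2 (not_lt.2 h4)

theorem vg_inj {c : ℝ} (h0 : 0 < c) (h1 : c < 1) {m n : ℤ} (h : c ^ m = c ^ n) : m = n :=
  zpow_right_injective₀ h0 h1.ne h

/-- The values of the polynomials of degree less than `N` at `θ`. -/
theorem vg_poly (h2 : L.nm 2 < 1) (h0 : (2 : Ω) ≠ 0) {M : IntermediateField K Ω}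
    (hv : ∀ x ∈ M, x ≠ 0 → ∃ n : ℤ, L.nm x = L.nm 2 ^ n) {θ : Ω} {N : ℕ} (hN : 0 < N)
    (hθ : θ ^ N = 2) {p : Polynomial M} (hp : p ≠ 0) (hd : p.degree < N) :
    ∃ n : ℤ, L.nm (aeval θ p) = L.nm θ ^ n := by
  classical
  obtain ⟨hθ0, hθ1⟩ := vg_theta L h2 h0 hN hθ
  have hterm : ∀ i ∈ p.support, ∃ n : ℤ,
      L.nm ((p.coeff i : Ω) * θ ^ i) = L.nm θ ^ ((N : ℤ) * n + i) := by
    intro i hi
    have h3 : (p.coeff i : Ω) ≠ 0 := by
      intro h
      exact (mem_support_iff.1 hi) (Subtype.ext h)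
    obtain ⟨n, hn⟩ := hv _ (p.coeff i).2 h3
    refine ⟨n, ?_⟩
    rw [L.mul, hn, L.pow, ← hθ, L.pow, zpow_add₀ hθ0.ne', zpow_mul, zpow_natCast, zpow_natCast]
  have hlt : ∀ i ∈ p.support, i < N := by
    intro i hi
    have h3 := (le_degree_of_mem_supp i hi).trans_lt hd
    exact_mod_cast h3
  have hsum : aeval θ p = ∑ i ∈ p.support, (p.coeff i : Ω) * θ ^ i := by
    rw [aeval_def, eval₂_eq_sum, Polynomial.sum]
    rfl
  obtain ⟨i, hi, h4⟩ := vg_sum L p.support (nonempty_support_iff.2 hp)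
    (fun i => (p.coeff i : Ω) * θ ^ i) (by
      intro i hi j hj hij h
      obtain ⟨m, hm⟩ := hterm i hi
      obtain ⟨n, hn⟩ := hterm j hj
      have h5 : L.nm θ ^ ((N : ℤ) * m + i) = L.nm θ ^ ((N : ℤ) * n + j) := by
        rw [← hm, ← hn]
        exact h
      have h6 := vg_inj hθ0 hθ1 h5
      have hi' := hlt i hi
      have hj' := hlt j hj
      have h7 : ((i : ℤ) - j) = N * (n - m) := by
        linear_combination h6
      have h8 : (N : ℤ) ∣ (i : ℤ) - j := ⟨_, h7⟩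
      have h9 : (i : ℤ) - j = 0 := by
        refine Int.eq_zero_of_abs_lt_dvd h8 ?_
        rw [abs_lt]
        constructor <;> omega
      omega)
  obtain ⟨n, hn⟩ := hterm i hi
  exact ⟨_, by rw [hsum, h4, hn]⟩

/-- The elements of `M(θ)`. -/
theorem vg_mem (M : IntermediateField K Ω) {θ : Ω} {N : ℕ} (hN : 0 < N) (hθ : θ ^ N = 2) {x : Ω}
    (hx : x ∈ Me M θ) : ∃ p : Polynomial M, p.degree < N ∧ aeval θ p = x := by
  rw [Me, ← IntermediateField.restrictScalars_adjoin_eq_sup,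
    IntermediateField.mem_restrictScalars] at hx
  have hmon : (Polynomial.X ^ N - Polynomial.C 2 : Polynomial M).Monic :=
    monic_X_pow_sub_C _ hN.ne'
  have hroot : aeval θ (Polynomial.X ^ N - Polynomial.C 2 : Polynomial M) = 0 := by
    rw [map_sub, map_pow, aeval_X, aeval_C, hθ, map_ofNat, sub_self]
  have hint : IsIntegral M θ := ⟨_, hmon, hroot⟩
  rw [← IntermediateField.mem_toSubalgebra,
    IntermediateField.adjoin_simple_toSubalgebra_of_isAlgebraic hint.isAlgebraic,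
    Algebra.adjoin_singleton_eq_range_aeval] at hx
  obtain ⟨p, hp⟩ := hx
  refine ⟨p %ₘ (Polynomial.X ^ N - Polynomial.C 2), ?_, ?_⟩
  · have h1 := degree_modByMonic_lt p hmon
    rwa [degree_X_pow_sub_C hN] at h1
  · rw [aeval_modByMonic_eq_self_of_root hroot]
    exact hp

theorem vg_fin (h2 : L.nm 2 < 1) (h0 : (2 : Ω) ≠ 0) {M : IntermediateField K Ω}
    (hv : ∀ x ∈ M, x ≠ 0 → ∃ n : ℤ, L.nm x = L.nm 2 ^ n) {θ : Ω} {N : ℕ} (hN : 0 < N)
    (hθ : θ ^ N = 2) : Module.finrank K (Me M θ) = Module.finrank K M * N := by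
  have hmon : (Polynomial.X ^ N - Polynomial.C 2 : Polynomial M).Monic :=
    monic_X_pow_sub_C _ hN.ne'
  have hroot : aeval θ (Polynomial.X ^ N - Polynomial.C 2 : Polynomial M) = 0 := by
    rw [map_sub, map_pow, aeval_X, aeval_C, hθ, map_ofNat, sub_self]
  have hint : IsIntegral M θ := ⟨_, hmon, hroot⟩
  have hdeg : (minpoly M θ).natDegree = N := by
    apply le_antisymm
    · have h1 := natDegree_le_of_dvd (minpoly.dvd M θ hroot) hmon.ne_zero
      rwa [natDegree_X_pow_sub_C] at h1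
    · by_contra hlt
      rw [not_le] at hlt
      obtain ⟨n, hn⟩ := vg_poly L h2 h0 hv hN hθ (minpoly.ne_zero hint) (by
        rw [degree_eq_natDegree (minpoly.ne_zero hint)]
        exact_mod_cast hlt)
      rw [minpoly.aeval, (L.zero_iff 0).2 rfl] at hn
      exact (zpow_pos (vg_theta L h2 h0 hN hθ).1 n).ne hn
  have h1 := Module.finrank_mul_finrank K M (IntermediateField.adjoin M {θ})
  rw [IntermediateField.adjoin.finrank hint, hdeg] at h1
  rw [h1, Me, ← IntermediateField.restrictScalars_adjoin_eq_sup]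
  rfl

end aux

variable {F : Type} [Field F] {K : Type} [Field K] [CharZero K] [Algebra F K] {Ω : Type} [Field Ω]
  [Algebra K Ω] [Algebra F Ω] [IsScalarTower F K Ω] [IsAlgClosure K Ω] (C : Cf F) (L : Lf K Ω)

omit [IsAlgClosure K Ω] in
theorem vg_two (K : Type) [Field K] [CharZero K] (Ω : Type) [Field Ω] [Algebra K Ω] :
    (2 : Ω) ≠ 0 := by
  have := charZero_of_injective_algebraMap (algebraMap K Ω).injective
  exact two_ne_zero

/-- The value group of `K(e, θ)`. Proof: every element is `∑_(i < N) a_i θ^i` with `a_i ∈ K(e)`; the norms of the summands are different (`val_e`). -/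
theorem val_th (h : L.H3 C) {e θ : Ω} (he : aeval e C.g = 0) {N : ℕ} (hN : 0 < N)
    (hθ : θ ^ N = 2) {x : Ω} (hx : x ∈ Me (Me (⊥ : IntermediateField K Ω) e) θ) (h0 : x ≠ 0) :
    ∃ n : ℤ, L.nm x = L.nm θ ^ n := by
  obtain ⟨p, hp, rfl⟩ := vg_mem _ hN hθ hx
  exact vg_poly L h.two (vg_two K Ω) (fun x hx hx0 => val_e C L h he hx hx0) hN hθ (by
    rintro rfl
    exact h0 (map_zero _)) hp

/-- The degree. Proof: `1, θ, ..., θ^(N-1)` are linearly independent over `K(e)`, since the norms are different modulo the value group of `K(e)`. -/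
theorem finrank_th (h : L.H3 C) {e θ : Ω} (he : aeval e C.g = 0) {N : ℕ} (hN : 0 < N)
    (hθ : θ ^ N = 2) :
    Module.finrank K (Me (Me (⊥ : IntermediateField K Ω) e) θ) = 3 * N := by
  rw [vg_fin L h.two (vg_two K Ω) (fun x hx hx0 => val_e C L h he hx hx0) hN hθ,
    finrank_Me₃ C L h (no_root₃ C L h) he, IntermediateField.finrank_bot, mul_one]

/-- **Odd defects.** Proof: if `1 + η = s²`, `ρ = s - 1`: `ρ (ρ + 2) = η`. If `‖ρ‖ > ‖2‖` then `‖η‖ = ‖ρ‖²`, and `m` is even; if `‖ρ‖ ≤ ‖2‖` then `‖η‖ ≤ ‖4‖`. -/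
theorem not_sq_odd (L : Lf K Ω) (h2 : L.nm 2 < 1) {M : IntermediateField K Ω} {θ : Ω} {N : ℕ}
    (hN : 0 < N) (hθ : θ ^ N = 2)
    (hv : ∀ x ∈ M, x ≠ 0 → ∃ n : ℤ, L.nm x = L.nm θ ^ n) {η : Ω} {m : ℕ} (hm : Odd m)
    (hmN : m < 2 * N) (hη : L.nm η = L.nm θ ^ m) : ¬ SqM M (1 + η) := by
  rintro ⟨s, hs, h1⟩
  obtain ⟨hθ0, hθ1⟩ := vg_theta L h2 (vg_two K Ω) hN hθ
  obtain ⟨ρ, hρ⟩ : ∃ ρ, ρ = s - 1 := ⟨_, rfl⟩
  have hρM : ρ ∈ M := by
    rw [hρ]
    exact M.sub_mem hs M.one_mem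
  have h3 : ρ * (ρ + 2) = η := by
    rw [hρ]
    linear_combination -h1
  have h4 : L.nm ρ * L.nm (ρ + 2) = L.nm θ ^ m := by
    rw [← L.mul, h3, hη]
  have h5 : ρ ≠ 0 := by
    rintro rfl
    rw [(L.zero_iff 0).2 rfl, zero_mul] at h4
    exact (pow_pos hθ0 m).ne h4
  rcases lt_or_ge (L.nm 2) (L.nm ρ) with h6 | h6
  · rw [L.add_eq' h6] at h4
    obtain ⟨n, hn⟩ := hv ρ hρM h5
    rw [hn, ← zpow_add₀ hθ0.ne', ← zpow_natCast] at h4
    have h7 := vg_inj hθ0 hθ1 h4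
    obtain ⟨k, hk⟩ := hm
    omega
  · have h7 : L.nm (ρ + 2) ≤ L.nm 2 := (L.add _ _).trans (max_le h6 le_rfl)
    have h8 : L.nm θ ^ m ≤ L.nm θ ^ (2 * N) := by
      rw [← h4, two_mul, pow_add, ← L.pow, hθ]
      exact mul_le_mul h6 h7 (L.nonneg _) (L.nonneg _)
    have h9 := (pow_le_pow_iff_right_of_lt_one₀ hθ0 hθ1).1 h8
    omega

end BE
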