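import Pool.Agent.Lib.MP_f80667_ag.Be.SyA
import Pool.Agent.Lib.MP_f80667_ag.Be.Vg
import Pool.Agent.Lib.MP_f80667_ag.Be.Tp

/-! Dyadic places: the number `a₀`. -/

open ZC Polynomial IntermediateField

namespace BE

variable {F : Type} [Field F] {K : Type} [Field K] [CharZero K] [Algebra F K] {Ω : Type} [Field Ω]
  [Algebra K Ω] [Algebra F Ω] [IsScalarTower F K Ω] [IsAlgClosure K Ω] (C : Cf F) (L : Lf K Ω)

omit [CharZero K] [IsAlgClosure K Ω] in
/-- Two automorphisms which agree at `e` agree on `K(e)`. -/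
theorem u0_agree {e : Ω} {γ γ' : Ω ≃ₐ[K] Ω} (h : γ e = γ' e) {z : Ω}
    (hz : z ∈ Me (⊥ : IntermediateField K Ω) e) : γ z = γ' z := by
  let E : IntermediateField K Ω :=
    { carrier := {z | γ z = γ' z}
      mul_mem' := fun {a b} ha hb => by
        have ha' : γ a = γ' a := ha
        have hb' : γ b = γ' b := hb
        change γ (a * b) = γ' (a * b)
        rw [map_mul, map_mul, ha', hb']
      add_mem' := fun {a b} ha hb => by
        have ha' : γ a = γ' a := ha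
        have hb' : γ b = γ' b := hb
        change γ (a + b) = γ' (a + b)
        rw [map_add, map_add, ha', hb']
      algebraMap_mem' := fun r => by
        change γ (algebraMap K Ω r) = γ' (algebraMap K Ω r)
        rw [AlgEquiv.commutes, AlgEquiv.commutes]
      inv_mem' := fun a ha => by
        have ha' : γ a = γ' a := ha
        change γ a⁻¹ = γ' a⁻¹
        rw [map_inv₀, map_inv₀, ha'] }
  have hE : Me (⊥ : IntermediateField K Ω) e ≤ E := by
    refine sup_le bot_le ?_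
    rw [IntermediateField.adjoin_le_iff, Set.singleton_subset_iff]
    exact h
  exact hE hz

omit [CharZero K] [IsAlgClosure K Ω] in
theorem u0_stab {e : Ω} {σ : Ω ≃ₐ[K] Ω} (h : σ e ∈ Me (⊥ : IntermediateField K Ω) e) {z : Ω}
    (hz : z ∈ Me (⊥ : IntermediateField K Ω) e) : σ z ∈ Me (⊥ : IntermediateField K Ω) e := by
  have hE : Me (⊥ : IntermediateField K Ω) e ≤
      (Me (⊥ : IntermediateField K Ω) e).comap (σ : Ω →ₐ[K] Ω) := by
    refine sup_le bot_le ?_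
    rw [IntermediateField.adjoin_le_iff, Set.singleton_subset_iff]
    exact h
  exact hE hz

omit [CharZero K] [IsAlgClosure K Ω] in
theorem u0_self (e : Ω) : e ∈ Me (⊥ : IntermediateField K Ω) e :=
  (le_sup_right : IntermediateField.adjoin K {e} ≤ Me (⊥ : IntermediateField K Ω) e)
    (IntermediateField.mem_adjoin_simple_self K e)

omit [CharZero K] [IsAlgClosure K Ω] in
theorem u0_bot {e z : Ω} (hz : z ∈ (⊥ : IntermediateField K Ω)) :
    z ∈ Me (⊥ : IntermediateField K Ω) e :=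
  (le_sup_left : (⊥ : IntermediateField K Ω) ≤ Me (⊥ : IntermediateField K Ω) e) hz

omit [CharZero K] [IsAlgClosure K Ω] in
theorem u0_eval {C : Cf F} {e₁ e₂ e₃ : Ω}
    (hg : C.g.map (algebraMap F Ω) = (X - Polynomial.C e₁) * (X - Polynomial.C e₂) *
      (X - Polynomial.C e₃)) (w : Ω) : aeval w C.g = (w - e₁) * (w - e₂) * (w - e₃) := by
  rw [aeval_def, ← eval_map, hg]
  simp only [eval_mul, eval_sub, eval_X, eval_C]

omit [CharZero K] [IsAlgClosure K Ω] in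
theorem u0_act {C : Cf F} (γ : Ω ≃ₐ[K] Ω) {w : Ω} (hw : aeval w C.g = 0) :
    aeval (γ w) C.g = 0 := by
  rw [← Polynomial.aeval_map_algebraMap K] at hw ⊢
  have h1 := Polynomial.aeval_algHom_apply (γ : Ω →ₐ[K] Ω) w (C.g.map (algebraMap F K))
  rw [hw, map_zero] at h1
  exact h1

/-- The product over the conjugates. -/
theorem u0_core (h : L.H3 C) {e₁ e₂ e₃ : Ω} {σ : Ω ≃ₐ[K] Ω}
    (hg : C.g.map (algebraMap F Ω) = (X - Polynomial.C e₁) * (X - Polynomial.C e₂) *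
      (X - Polynomial.C e₃)) (h12 : e₁ ≠ e₂) (h13 : e₁ ≠ e₃) (h23 : e₂ ≠ e₃) (s1 : σ e₁ = e₂)
    (s2 : σ e₂ = e₃) (s3 : σ e₃ = e₁) {a₀ x y : Ω} (ha₀ : a₀ ∈ (⊥ : IntermediateField K Ω))
    (hx : x ∈ Me (⊥ : IntermediateField K Ω) e₁) (hy : y ∈ Me (⊥ : IntermediateField K Ω) e₁)
    (hxy : (e₁ - e₂) * (e₁ - e₃) = x ^ 2 - a₀ * y ^ 2) :
    HS (⊥ : IntermediateField K Ω) (-1) a₀ := by
  have r1 : aeval e₁ C.g = 0 := by
    rw [u0_eval hg, sub_self, zero_mul, zero_mul]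
  have r2 : aeval e₂ C.g = 0 := by
    rw [u0_eval hg, sub_self, mul_zero, zero_mul]
  have r3 : aeval e₃ C.g = 0 := by
    rw [u0_eval hg, sub_self, mul_zero]
  have m1 : e₁ ∈ Me (⊥ : IntermediateField K Ω) e₁ := u0_self e₁
  have m2 : e₂ ∈ Me (⊥ : IntermediateField K Ω) e₁ := root_mem C L h r1 r2
  have m3 : e₃ ∈ Me (⊥ : IntermediateField K Ω) e₁ := root_mem C L h r1 r3
  have hs : ∀ z ∈ Me (⊥ : IntermediateField K Ω) e₁, σ z ∈ Me (⊥ : IntermediateField K Ω) e₁ :=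
    fun z hz => u0_stab (s1 ▸ m2) hz
  have h3 : ∀ z ∈ Me (⊥ : IntermediateField K Ω) e₁, σ (σ (σ z)) = z := fun z hz =>
    u0_agree (γ := σ.trans (σ.trans σ)) (γ' := AlgEquiv.refl)
      (show σ (σ (σ e₁)) = e₁ by rw [s1, s2, s3]) hz
  have hinv : ∀ z ∈ Me (⊥ : IntermediateField K Ω) e₁, σ z = z →
      z ∈ (⊥ : IntermediateField K Ω) := by
    intro z hz hσ
    refine mem_of_fix _ fun γ _ => ?_
    have h4 := u0_act γ r1
    rw [u0_eval hg, mul_eq_zero, mul_eq_zero, sub_eq_zero, sub_eq_zero, sub_eq_zero] at h4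
    rcases h4 with (h4 | h4) | h4
    · exact u0_agree (γ := γ) (γ' := AlgEquiv.refl) h4 hz
    · rw [u0_agree (γ := γ) (γ' := σ) (by rw [h4, s1]) hz, hσ]
    · have h5 := u0_agree (γ := γ) (γ' := σ.trans σ)
        (show γ e₁ = σ (σ e₁) by rw [h4, s1, s2]) hz
      rw [h5]
      change σ (σ z) = z
      rw [hσ, hσ]
  have sa : σ a₀ = a₀ := by
    obtain ⟨r, rfl⟩ := IntermediateField.mem_bot.1 ha₀
    exact σ.commutes r
  -- the conjugates
  obtain ⟨x', hx'⟩ : ∃ x', x' = σ x := ⟨_, rfl⟩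
  obtain ⟨y', hy'⟩ : ∃ y', y' = σ y := ⟨_, rfl⟩
  obtain ⟨x'', hx''⟩ : ∃ x'', x'' = σ x' := ⟨_, rfl⟩
  obtain ⟨y'', hy''⟩ : ∃ y'', y'' = σ y' := ⟨_, rfl⟩
  have hx3 : σ x'' = x := by rw [hx'', hx', h3 x hx]
  have hy3 : σ y'' = y := by rw [hy'', hy', h3 y hy]
  have mx' : x' ∈ Me (⊥ : IntermediateField K Ω) e₁ := by
    rw [hx']
    exact hs _ hx
  have my' : y' ∈ Me (⊥ : IntermediateField K Ω) e₁ := by
    rw [hy']
    exact hs _ hy
  have mx'' : x'' ∈ Me (⊥ : IntermediateField K Ω) e₁ := by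
    rw [hx'']
    exact hs _ mx'
  have my'' : y'' ∈ Me (⊥ : IntermediateField K Ω) e₁ := by
    rw [hy'']
    exact hs _ my'
  have ma : a₀ ∈ Me (⊥ : IntermediateField K Ω) e₁ := u0_bot ha₀
  have p2 : (e₂ - e₃) * (e₂ - e₁) = x' ^ 2 - a₀ * y' ^ 2 := by
    have h4 := congrArg σ hxy
    simp only [map_mul, map_sub, map_pow, s1, s2, s3, sa, ← hx', ← hy'] at h4
    exact h4
  have p3 : (e₃ - e₁) * (e₃ - e₂) = x'' ^ 2 - a₀ * y'' ^ 2 := by
    have h4 := congrArg σ p2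
    simp only [map_mul, map_sub, map_pow, s1, s2, s3, sa, ← hx'', ← hy''] at h4
    exact h4
  obtain ⟨d, hd⟩ : ∃ d, d = (e₁ - e₂) * (e₁ - e₃) * (e₂ - e₃) := ⟨_, rfl⟩
  have hd0 : d ≠ 0 := by
    rw [hd]
    exact mul_ne_zero (mul_ne_zero (sub_ne_zero.2 h12) (sub_ne_zero.2 h13)) (sub_ne_zero.2 h23)
  obtain ⟨A, hA⟩ : ∃ A, A = x * x' * x'' + a₀ * (y * y' * x'' + x * y' * y'' + x' * y * y'') :=
    ⟨_, rfl⟩
  obtain ⟨B, hB⟩ : ∃ B, B = x * x' * y'' + x * y' * x'' + x' * y * x'' + a₀ * (y * y' * y'') :=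
    ⟨_, rfl⟩
  have hdM : d ∈ (⊥ : IntermediateField K Ω) := by
    refine hinv d ?_ ?_
    · rw [hd]
      exact mul_mem (mul_mem (sub_mem m1 m2) (sub_mem m1 m3)) (sub_mem m2 m3)
    · rw [hd]
      simp only [map_mul, map_sub, s1, s2, s3]
      ring
  have hAM : A ∈ (⊥ : IntermediateField K Ω) := by
    refine hinv A ?_ ?_
    · rw [hA]
      exact add_mem (mul_mem (mul_mem hx mx') mx'') (mul_mem ma (add_mem (add_mem
        (mul_mem (mul_mem hy my') mx'') (mul_mem (mul_mem hx my') my''))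
        (mul_mem (mul_mem mx' hy) my'')))
    · rw [hA]
      simp only [map_mul, map_add, sa, hx3, hy3, ← hx', ← hy', ← hx'', ← hy'']
      ring
  have hBM : B ∈ (⊥ : IntermediateField K Ω) := by
    refine hinv B ?_ ?_
    · rw [hB]
      exact add_mem (add_mem (add_mem (mul_mem (mul_mem hx mx') my'')
        (mul_mem (mul_mem hx my') mx'')) (mul_mem (mul_mem mx' hy) mx''))
        (mul_mem ma (mul_mem (mul_mem hy my') my''))
    · rw [hB]
      simp only [map_mul, map_add, sa, hx3, hy3, ← hx', ← hy', ← hx'', ← hy'']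
      ring
  have hprod : -d ^ 2 = A ^ 2 - a₀ * B ^ 2 := by
    have h4 : -d ^ 2 = ((e₁ - e₂) * (e₁ - e₃)) * ((e₂ - e₃) * (e₂ - e₁)) *
        ((e₃ - e₁) * (e₃ - e₂)) := by
      rw [hd]
      ring
    rw [h4, hxy, p2, p3, hA, hB]
    ring
  refine ⟨A / d, IntermediateField.div_mem _ hAM hdM, B / d,
    IntermediateField.div_mem _ hBM hdM, ?_⟩
  rw [div_pow, div_pow, ← mul_div_assoc, ← sub_div, ← hprod, neg_div, div_self (pow_ne_zero 2 hd0)]

/-- `- 1` is not a square in `K`: `not_sq_odd` for `- 1 = 1 + (- 2)`, `θ = 2`, `N = 1`. -/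
theorem neg_one_not_sq (h : L.H3 C) : ¬ SqM (⊥ : IntermediateField K Ω) (-1 : Ω) := by
  have h1 := not_sq_odd L h.two (M := (⊥ : IntermediateField K Ω)) (θ := 2) (N := 1) one_pos
    (pow_one 2) h.val (η := -2) (m := 1) odd_one (by norm_num) (by rw [L.neg, pow_one])
  have h2 : (1 : Ω) + -2 = -1 := by norm_num
  rwa [h2] at h1

/-- **The number `a₀`.** There is `a₀ ∈ K^*` with `(a₀, - 1) ≠ 1` over `K` (`Sym.nondeg`), and then `(a₀, g'(e)) ≠ 1` over `K(e)` for all roots `e`. Proof: if `(a₀, g'(e)) = 1`, that is (`HS.comm`) `g'(e) = x² - a₀ y²`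
with `x`, `y ∈ K(e)`, then the product over the three conjugates `- disc = ∏ ((σ x)² - a₀ (σ y)²)` is of the form `x'² - a₀ y'²` with `x'`, `y' ∈ K` (expand the product of the `σ x + √a₀ σ y`: the coefficients are symmetric), and `disc` is a square in `K`
(`((e₁ - e₂) (e₁ - e₃) (e₂ - e₃))²`, the square root is invariant: the Galois group permutes the roots cyclically, since one root generates all: `root_mem`), so `(- 1, a₀) = 1`. -/
theorem exists_a0 (h : L.H3 C) (S : Sym K Ω) :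
    ∃ a₀ ∈ (⊥ : IntermediateField K Ω), a₀ ≠ 0 ∧ ∀ e : Ω, aeval e C.g = 0 →
      ¬ HS (Me (⊥ : IntermediateField K Ω) e) a₀ (aeval e (derivative C.g)) := by
  have hm1 : (-1 : Ω) ∈ (⊥ : IntermediateField K Ω) := neg_mem (one_mem _)
  have hne1 : (-1 : Ω) ≠ 0 := neg_ne_zero.2 one_ne_zero
  obtain ⟨a₀, ha₀, h0, hns⟩ := S.nondeg ⊥ inferInstance (-1) hm1 hne1 (neg_one_not_sq C L h)
  refine ⟨a₀, ha₀, h0, fun e he hHS => hns (HS.comm hm1 ha₀ hne1 h0 ?_)⟩
  -- reduction to one of the roots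
  have key : ∀ {e₁ e₂ e₃ : Ω} {σ : Ω ≃ₐ[K] Ω}, C.g.map (algebraMap F Ω) =
      (X - Polynomial.C e₁) * (X - Polynomial.C e₂) * (X - Polynomial.C e₃) → e₁ ≠ e₂ → e₁ ≠ e₃ →
      e₂ ≠ e₃ → σ e₁ = e₂ → σ e₂ = e₃ → σ e₃ = e₁ → e = e₁ →
      HS (⊥ : IntermediateField K Ω) (-1) a₀ := by
    intro e₁ e₂ e₃ σ hg h12 h13 h23 s1 s2 s3 hee
    subst hee
    have r2 : aeval e₂ C.g = 0 := by
      rw [u0_eval hg, sub_self, mul_zero, zero_mul]
    have r3 : aeval e₃ C.g = 0 := by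
      rw [u0_eval hg, sub_self, mul_zero]
    have hder := der_eq C hg
    have hm : aeval e (derivative C.g) ∈ Me (⊥ : IntermediateField K Ω) e := by
      rw [hder]
      exact mul_mem (sub_mem (u0_self e) (root_mem C L h he r2))
        (sub_mem (u0_self e) (root_mem C L h he r3))
    have hne : aeval e (derivative C.g) ≠ 0 := by
      rw [hder]
      exact mul_ne_zero (sub_ne_zero.2 h12) (sub_ne_zero.2 h13)
    obtain ⟨x, hx, y, hy, hxy⟩ := HS.comm (u0_bot ha₀) hm h0 hne hHS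
    rw [hder] at hxy
    exact u0_core C L h hg h12 h13 h23 s1 s2 s3 ha₀ hx hy hxy
  obtain ⟨e₁, e₂, e₃, σ, -, hg, h12, h13, h23, s1, s2, s3⟩ :=
    exists_cyc C L h (M := (⊥ : IntermediateField K Ω)) (no_root₃ C L h)
  have he' := he
  rw [u0_eval hg, mul_eq_zero, mul_eq_zero, sub_eq_zero, sub_eq_zero, sub_eq_zero] at he'
  rcases he' with (he' | he') | he'
  · exact key hg h12 h13 h23 s1 s2 s3 he'
  · exact key (by rw [hg]; ring) h23 h12.symm h13.symm s2 s3 s1 he'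
  · exact key (by rw [hg]; ring) h13.symm h23.symm h12 s3 s1 s2 he'

end BE
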