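import Pool.Agent.Lib.MP_f80667_ag.Be.Cy

/-! Dyadic places: the value group of `K(e)`. -/

open ZC Polynomial IntermediateField

namespace BE

variable {F : Type} [Field F] {K : Type} [Field K] [CharZero K] [Algebra F K] {Ω : Type} [Field Ω]
  [Algebra K Ω] [Algebra F Ω] [IsScalarTower F K Ω] [IsAlgClosure K Ω] (C : Cf F) (L : Lf K Ω)

omit [CharZero K] [IsAlgClosure K Ω] in
private theorem vg0_F (c : F) : algebraMap F Ω c ∈ (⊥ : IntermediateField K Ω) := by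
  rw [IsScalarTower.algebraMap_apply F K Ω]
  exact IntermediateField.algebraMap_mem _ _

omit [CharZero K] [IsAlgClosure K Ω] in
private theorem vg0_g (x : Ω) : aeval x C.g = x ^ 3 + algebraMap F Ω C.c₂ * x ^ 2 +
    algebraMap F Ω C.c₁ * x + algebraMap F Ω C.c₀ := by
  simp [Cf.g]

/-- linear polynomials -/
private theorem vg0_lin (h : L.H3 C) {e : Ω} (he : aeval e C.g = 0) {l m : Ω}
    (hl : l ∈ (⊥ : IntermediateField K Ω)) (hm : m ∈ (⊥ : IntermediateField K Ω))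
    (h1 : L.nm l ≤ 1) (hlt : L.nm (l * e + m) < 1) : L.nm l < 1 ∧ L.nm m < 1 := by
  have hl1 : L.nm l < 1 := by
    rcases lt_or_eq_of_le h1 with h2 | h2
    · exact h2
    · exfalso
      have hl0 : l ≠ 0 := L.ne_zero (by rw [h2]; exact one_pos)
      have h3 := root_far C L h he
        ((⊥ : IntermediateField K Ω).neg_mem ((⊥ : IntermediateField K Ω).div_mem hm hl))
      have h4 : l * e + m = l * (e - -(m / l)) := by
        rw [sub_neg_eq_add, mul_add, mul_div_cancel₀ _ hl0]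
      rw [h4, L.mul, h2, one_mul] at hlt
      exact absurd hlt (not_lt.2 h3)
  refine ⟨hl1, ?_⟩
  have h5 : m = (l * e + m) - l * e := by ring
  rw [h5]
  refine (L.sub _ _).trans_lt (max_lt hlt ?_)
  rw [L.mul]
  exact (mul_le_of_le_one_right (L.nonneg _) (root_int C L h he)).trans_lt hl1

/-- the main point: the coefficients are integral and one of them is a unit -/
private theorem vg0_core (h : L.H3 C) {e : Ω} (he : aeval e C.g = 0) {a₀ a₁ a₂ : Ω}
    (h₀ : a₀ ∈ (⊥ : IntermediateField K Ω)) (h₁ : a₁ ∈ (⊥ : IntermediateField K Ω))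
    (h₂ : a₂ ∈ (⊥ : IntermediateField K Ω)) (n₀ : L.nm a₀ ≤ 1) (n₁ : L.nm a₁ ≤ 1)
    (n₂ : L.nm a₂ ≤ 1) (hlt : L.nm (a₀ + a₁ * e + a₂ * e ^ 2) < 1) :
    L.nm a₀ < 1 ∧ L.nm a₁ < 1 ∧ L.nm a₂ < 1 := by
  have he1 := root_int C L h he
  rcases lt_or_eq_of_le n₂ with h3 | h3
  · have h4 : L.nm (a₁ * e + a₀) < 1 := by
      have h5 : a₁ * e + a₀ = (a₀ + a₁ * e + a₂ * e ^ 2) - a₂ * e ^ 2 := by ring
      rw [h5]
      refine (L.sub _ _).trans_lt (max_lt hlt ?_)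
      rw [L.mul, L.pow]
      exact (mul_le_of_le_one_right (L.nonneg _) (pow_le_one₀ (L.nonneg _) he1)).trans_lt h3
    obtain ⟨h5, h6⟩ := vg0_lin C L h he h₁ h₀ n₁ h4
    exact ⟨h6, h5, h3⟩
  · exfalso
    have ha0 : a₂ ≠ 0 := L.ne_zero (by rw [h3]; exact one_pos)
    obtain ⟨b₀, hb₀⟩ : ∃ b₀, b₀ = a₀ / a₂ := ⟨_, rfl⟩
    obtain ⟨b₁, hb₁⟩ : ∃ b₁, b₁ = a₁ / a₂ := ⟨_, rfl⟩
    have m₀ : b₀ ∈ (⊥ : IntermediateField K Ω) := by
      rw [hb₀]
      exact (⊥ : IntermediateField K Ω).div_mem h₀ h₂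
    have m₁ : b₁ ∈ (⊥ : IntermediateField K Ω) := by
      rw [hb₁]
      exact (⊥ : IntermediateField K Ω).div_mem h₁ h₂
    have k₀ : L.nm b₀ ≤ 1 := by
      rw [hb₀, L.div, h3, div_one]
      exact n₀
    have k₁ : L.nm b₁ ≤ 1 := by
      rw [hb₁, L.div, h3, div_one]
      exact n₁
    have hq : L.nm (b₀ + b₁ * e + e ^ 2) < 1 := by
      have h5 : b₀ + b₁ * e + e ^ 2 = (a₀ + a₁ * e + a₂ * e ^ 2) / a₂ := by
        rw [hb₀, hb₁]
        field_simp
      rw [h5, L.div, h3, div_one]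
      exact hlt
    obtain ⟨c₂, hc₂⟩ : ∃ c₂, c₂ = algebraMap F Ω C.c₂ := ⟨_, rfl⟩
    obtain ⟨c₁, hc₁⟩ : ∃ c₁, c₁ = algebraMap F Ω C.c₁ := ⟨_, rfl⟩
    obtain ⟨c₀, hc₀⟩ : ∃ c₀, c₀ = algebraMap F Ω C.c₀ := ⟨_, rfl⟩
    have M₂ : c₂ ∈ (⊥ : IntermediateField K Ω) := by
      rw [hc₂]
      exact vg0_F _
    have M₁ : c₁ ∈ (⊥ : IntermediateField K Ω) := by
      rw [hc₁]
      exact vg0_F _
    have M₀ : c₀ ∈ (⊥ : IntermediateField K Ω) := by
      rw [hc₀]
      exact vg0_F _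
    have N₂ : L.nm c₂ ≤ 1 := by
      rw [hc₂]
      exact h.hc₂
    have N₁ : L.nm c₁ ≤ 1 := by
      rw [hc₁]
      exact h.hc₁
    have N₀ : L.nm c₀ ≤ 1 := by
      rw [hc₀]
      exact h.hc₀
    have hge : e ^ 3 + c₂ * e ^ 2 + c₁ * e + c₀ = 0 := by
      rw [hc₂, hc₁, hc₀, ← vg0_g]
      exact he
    obtain ⟨s, hs⟩ : ∃ s, s = c₂ - b₁ := ⟨_, rfl⟩
    have sM : s ∈ (⊥ : IntermediateField K Ω) := by
      rw [hs]
      exact (⊥ : IntermediateField K Ω).sub_mem M₂ m₁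
    have sN : L.nm s ≤ 1 := by
      rw [hs]
      exact (L.sub _ _).trans (max_le N₂ k₁)
    have hmul : ∀ {x y : Ω}, L.nm x ≤ 1 → L.nm y ≤ 1 → L.nm (x * y) ≤ 1 := by
      intro x y hx hy
      rw [L.mul]
      exact mul_le_one₀ hx (L.nonneg _) hy
    obtain ⟨l, hl⟩ : ∃ l, l = c₁ - b₀ - s * b₁ := ⟨_, rfl⟩
    obtain ⟨m, hm⟩ : ∃ m, m = c₀ - s * b₀ := ⟨_, rfl⟩
    have lM : l ∈ (⊥ : IntermediateField K Ω) := by
      rw [hl]
      exact (⊥ : IntermediateField K Ω).sub_mem ((⊥ : IntermediateField K Ω).sub_mem M₁ m₀)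
        ((⊥ : IntermediateField K Ω).mul_mem sM m₁)
    have mM : m ∈ (⊥ : IntermediateField K Ω) := by
      rw [hm]
      exact (⊥ : IntermediateField K Ω).sub_mem M₀ ((⊥ : IntermediateField K Ω).mul_mem sM m₀)
    have lN : L.nm l ≤ 1 := by
      rw [hl]
      exact (L.sub _ _).trans (max_le ((L.sub _ _).trans (max_le N₁ k₀)) (hmul sN k₁))
    have hlm : L.nm (l * e + m) < 1 := by
      have h5 : l * e + m = -((e + s) * (b₀ + b₁ * e + e ^ 2)) := by
        rw [hl, hm, hs]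
        linear_combination hge
      rw [h5, L.neg, L.mul]
      refine (mul_le_of_le_one_left (L.nonneg _) ?_).trans_lt hq
      exact (L.add _ _).trans (max_le he1 sN)
    obtain ⟨h6, h7⟩ := vg0_lin C L h he lM mM lN hlm
    have h8 := h.root (-s) ((⊥ : IntermediateField K Ω).neg_mem sM) (by rw [L.neg]; exact sN)
    have h9 : aeval (-s) C.g = -(l * s) + m := by
      rw [vg0_g, ← hc₂, ← hc₁, ← hc₀, hl, hm, hs]
      ring
    have h10 : L.nm (aeval (-s) C.g) < 1 := by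
      rw [h9]
      refine (L.add _ _).trans_lt (max_lt ?_ h7)
      rw [L.neg, L.mul]
      exact (mul_le_of_le_one_right (L.nonneg _) sN).trans_lt h6
    rw [h8] at h10
    exact lt_irrefl _ h10

/-- The norm of `a₀ + a₁ e + a₂ e²`. Proof: divide by the coefficient of largest norm. Suppose that the norm of the value is `< 1`, the largest norm of a coefficient is
`1`. If `‖a₂‖ < 1` then `‖e + a₀ / a₁‖ < 1` (or `‖a₀‖ < 1`): against `root_far`. If `a₂ = 1`: divide `g` by `h = X² + a₁ X + a₀`: `g = (X + s) h + l X + m`, `‖l e + m‖ < 1`, so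
`‖l‖ < 1` (`root_far`), `‖m‖ < 1`, and `‖g(-s)‖ < 1` against `H3.root`. -/
theorem nm_quad (h : L.H3 C) {e : Ω} (he : aeval e C.g = 0) {a₀ a₁ a₂ : Ω}
    (h₀ : a₀ ∈ (⊥ : IntermediateField K Ω)) (h₁ : a₁ ∈ (⊥ : IntermediateField K Ω))
    (h₂ : a₂ ∈ (⊥ : IntermediateField K Ω)) :
    L.nm (a₀ + a₁ * e + a₂ * e ^ 2) = max (max (L.nm a₀) (L.nm a₁)) (L.nm a₂) := by
  have he1 := root_int C L h he
  obtain ⟨m, hm⟩ : ∃ m, m = max (max (L.nm a₀) (L.nm a₁)) (L.nm a₂) := ⟨_, rfl⟩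
  rw [← hm]
  have i₀ : L.nm a₀ ≤ m := by
    rw [hm]
    exact le_max_of_le_left (le_max_left _ _)
  have i₁ : L.nm a₁ ≤ m := by
    rw [hm]
    exact le_max_of_le_left (le_max_right _ _)
  have i₂ : L.nm a₂ ≤ m := by
    rw [hm]
    exact le_max_right _ _
  have hup : L.nm (a₀ + a₁ * e + a₂ * e ^ 2) ≤ m := by
    refine (L.add _ _).trans (max_le ((L.add _ _).trans (max_le i₀ ?_)) ?_)
    · rw [L.mul]
      exact (mul_le_of_le_one_right (L.nonneg _) he1).trans i₁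
    · rw [L.mul, L.pow]
      exact (mul_le_of_le_one_right (L.nonneg _) (pow_le_one₀ (L.nonneg _) he1)).trans i₂
  refine le_antisymm hup ?_
  by_contra hlt
  rw [not_le] at hlt
  have hm0 : 0 < m := (L.nonneg _).trans_lt hlt
  obtain ⟨c, hc, hcm⟩ : ∃ c ∈ (⊥ : IntermediateField K Ω), L.nm c = m := by
    rcases max_choice (max (L.nm a₀) (L.nm a₁)) (L.nm a₂) with h3 | h3
    · rcases max_choice (L.nm a₀) (L.nm a₁) with h4 | h4
      · exact ⟨a₀, h₀, by rw [hm, h3, h4]⟩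
      · exact ⟨a₁, h₁, by rw [hm, h3, h4]⟩
    · exact ⟨a₂, h₂, by rw [hm, h3]⟩
  have hc0 : c ≠ 0 := L.ne_zero (by rw [hcm]; exact hm0)
  have h5 := vg0_core C L h he ((⊥ : IntermediateField K Ω).div_mem h₀ hc)
    ((⊥ : IntermediateField K Ω).div_mem h₁ hc) ((⊥ : IntermediateField K Ω).div_mem h₂ hc)
    (by rw [L.div, hcm]; exact div_le_one_of_le₀ i₀ hm0.le)
    (by rw [L.div, hcm]; exact div_le_one_of_le₀ i₁ hm0.le)
    (by rw [L.div, hcm]; exact div_le_one_of_le₀ i₂ hm0.le)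
    (by
      have h6 : a₀ / c + a₁ / c * e + a₂ / c * e ^ 2 = (a₀ + a₁ * e + a₂ * e ^ 2) / c := by
        field_simp
      rw [h6, L.div, hcm, div_lt_one hm0]
      exact hlt)
  rw [L.div, L.div, L.div, hcm, div_lt_one hm0, div_lt_one hm0, div_lt_one hm0] at h5
  have h7 : m < m := by
    conv_lhs => rw [hm]
    exact max_lt (max_lt h5.1 h5.2.1) h5.2.2
  exact lt_irrefl _ h7

omit [CharZero K] [IsAlgClosure K Ω] in
/-- the elements of `K(e)` -/
private theorem vg0_exp {e : Ω} (he : aeval e C.g = 0) {x : Ω}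
    (hx : x ∈ Me (⊥ : IntermediateField K Ω) e) :
    ∃ a₀ ∈ (⊥ : IntermediateField K Ω), ∃ a₁ ∈ (⊥ : IntermediateField K Ω),
      ∃ a₂ ∈ (⊥ : IntermediateField K Ω), x = a₀ + a₁ * e + a₂ * e ^ 2 := by
  rw [Me, bot_sup_eq] at hx
  have hmon : C.g.Monic := by
    rw [Cf.g]
    monicity!
  have hd : C.g.natDegree = 3 := by
    rw [Cf.g]
    compute_degree!
  have hmon' : (C.g.map (algebraMap F K)).Monic := hmon.map _
  have hd' : (C.g.map (algebraMap F K)).natDegree = 3 := by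
    rw [hmon.natDegree_map, hd]
  have hroot : aeval e (C.g.map (algebraMap F K)) = 0 := by
    rw [aeval_map_algebraMap]
    exact he
  have hint : IsIntegral K e := ⟨_, hmon', hroot⟩
  have h1 : x ∈ (IntermediateField.adjoin K {e}).toSubalgebra := hx
  rw [IntermediateField.adjoin_simple_toSubalgebra_of_isAlgebraic hint.isAlgebraic,
    Algebra.adjoin_singleton_eq_range_aeval] at h1
  obtain ⟨p, rfl⟩ := h1
  have h2 : aeval e p = aeval e (p %ₘ (C.g.map (algebraMap F K))) := by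
    conv_lhs => rw [← modByMonic_add_div p (C.g.map (algebraMap F K))]
    rw [map_add, map_mul, hroot, zero_mul, add_zero]
  have h3 : (p %ₘ (C.g.map (algebraMap F K))).natDegree < 3 := by
    rw [← hd']
    refine natDegree_modByMonic_lt _ hmon' ?_
    intro h4
    rw [h4, natDegree_one] at hd'
    exact absurd hd' (by norm_num)
  obtain ⟨q, hq⟩ : ∃ q, q = p %ₘ (C.g.map (algebraMap F K)) := ⟨_, rfl⟩
  rw [← hq] at h2 h3
  refine ⟨algebraMap K Ω (q.coeff 0), IntermediateField.algebraMap_mem _ _,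
    algebraMap K Ω (q.coeff 1), IntermediateField.algebraMap_mem _ _,
    algebraMap K Ω (q.coeff 2), IntermediateField.algebraMap_mem _ _, ?_⟩
  change aeval e p = _
  rw [h2, aeval_eq_sum_range' h3, Finset.sum_range_succ, Finset.sum_range_succ,
    Finset.sum_range_one]
  simp only [Algebra.smul_def, pow_zero, mul_one, pow_one]

/-- The value group of `K(e)`. -/
theorem val_e (h : L.H3 C) {e : Ω} (he : aeval e C.g = 0) {x : Ω}
    (hx : x ∈ Me (⊥ : IntermediateField K Ω) e) (h0 : x ≠ 0) : ∃ n : ℤ, L.nm x = L.nm 2 ^ n := by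
  obtain ⟨a₀, h₀, a₁, h₁, a₂, h₂, rfl⟩ := vg0_exp C he hx
  have h1 := nm_quad C L h he h₀ h₁ h₂
  have hpos := L.pos h0
  obtain ⟨c, hc, hcm⟩ : ∃ c ∈ (⊥ : IntermediateField K Ω),
      L.nm (a₀ + a₁ * e + a₂ * e ^ 2) = L.nm c := by
    rw [h1]
    rcases max_choice (max (L.nm a₀) (L.nm a₁)) (L.nm a₂) with h3 | h3
    · rcases max_choice (L.nm a₀) (L.nm a₁) with h4 | h4
      · exact ⟨a₀, h₀, by rw [h3, h4]⟩
      · exact ⟨a₁, h₁, by rw [h3, h4]⟩
    · exact ⟨a₂, h₂, by rw [h3]⟩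
  rw [hcm] at hpos ⊢
  exact h.val c hc (L.ne_zero hpos)

omit [CharZero K] [IsAlgClosure K Ω] in
/-- Squaring is injective on the residue field. -/
private theorem vg0_sq (h2 : L.nm 2 < 1) {x y : Ω} (hy : L.nm y ≤ 1)
    (h : L.nm (x ^ 2 - y ^ 2) < 1) : L.nm (x - y) < 1 := by
  by_contra hlt
  rw [not_lt] at hlt
  have h3 : L.nm (x + y) = L.nm (x - y) := by
    have h4 : x + y = (x - y) + 2 * y := by ring
    rw [h4]
    refine L.add_eq' ?_
    rw [L.mul]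
    exact ((mul_le_of_le_one_right (L.nonneg _) hy).trans_lt h2).trans_le hlt
  have h5 : x ^ 2 - y ^ 2 = (x + y) * (x - y) := by ring
  rw [h5, L.mul, h3] at h
  exact absurd h (not_lt.2 (one_le_mul_of_one_le_of_one_le hlt hlt))

/-- Units of `K(e)` are squares modulo `2`. Proof: the residue field is finite (`Lf.fin`), so squaring, which is injective on it, is surjective; the difference has norm `< 1`, so
norm `≤ ‖2‖` (`val_e`). -/
theorem exists_sqrt_mod (h : L.H3 C) {e : Ω} (he : aeval e C.g = 0) {γ : Ω}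
    (hγ : γ ∈ Me (⊥ : IntermediateField K Ω) e) (h1 : L.nm γ ≤ 1) :
    ∃ δ ∈ Me (⊥ : IntermediateField K Ω) e, L.nm (γ - δ ^ 2) ≤ L.nm 2 := by
  have hchar : CharZero Ω := charZero_of_injective_algebraMap (algebraMap K Ω).injective
  have hfd : FiniteDimensional K (Me (⊥ : IntermediateField K Ω) e) := by
    rw [Me, bot_sup_eq]
    refine IntermediateField.finiteDimensional_adjoin fun z _ => ?_
    exact (IsAlgClosure.isAlgebraic (R := K) (K := Ω)).isAlgebraic z |>.isIntegral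
  obtain ⟨S, -, hS⟩ := L.fin _ hfd
  have hpw : ∀ i : ℕ, γ ^ i ∈ Me (⊥ : IntermediateField K Ω) e ∧ L.nm (γ ^ i) ≤ 1 := by
    intro i
    refine ⟨pow_mem hγ i, ?_⟩
    rw [L.pow]
    exact pow_le_one₀ (L.nonneg _) h1
  choose s hs hs' using fun i : ℕ => hS (γ ^ (2 ^ i)) (hpw (2 ^ i)).1 (hpw (2 ^ i)).2
  have hclose : ∃ i j : ℕ, i < j ∧ L.nm (γ ^ (2 ^ i) - γ ^ (2 ^ j)) < 1 := by
    have h3 : ¬ Function.Injective (fun i : ℕ => (⟨s i, hs i⟩ : S)) :=
      not_injective_infinite_finite _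
    rw [Function.Injective] at h3
    push Not at h3
    obtain ⟨i, j, h4, h5⟩ := h3
    have h6 : s i = s j := congrArg Subtype.val h4
    have h7 : L.nm (γ ^ (2 ^ i) - γ ^ (2 ^ j)) < 1 := by
      have h8 : γ ^ (2 ^ i) - γ ^ (2 ^ j) = (γ ^ (2 ^ i) - s i) - (γ ^ (2 ^ j) - s j) := by
        rw [h6]
        ring
      rw [h8]
      exact (L.sub _ _).trans_lt (max_lt (hs' i) (hs' j))
    rcases lt_or_gt_of_ne h5 with h9 | h9
    · exact ⟨i, j, h9, h7⟩
    · exact ⟨j, i, h9, by rw [L.sub_comm]; exact h7⟩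
  have hdown : ∀ i k : ℕ, L.nm (γ ^ (2 ^ i) - γ ^ (2 ^ (i + k))) < 1 →
      L.nm (γ - γ ^ (2 ^ k)) < 1 := by
    intro i
    induction i with
    | zero =>
      intro k hk
      rwa [pow_zero, pow_one, zero_add] at hk
    | succ i ih =>
      intro k hk
      refine ih k (vg0_sq L h.two (hpw _).2 ?_)
      rw [← pow_mul, ← pow_mul, ← pow_succ, ← pow_succ]
      rwa [show i + 1 + k = i + k + 1 from by ring] at hk
  obtain ⟨i, j, hij, hlt⟩ := hclose
  obtain ⟨k, rfl⟩ := Nat.exists_eq_add_of_lt hij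
  have h3 := hdown i (k + 1) hlt
  refine ⟨γ ^ (2 ^ k), (hpw _).1, ?_⟩
  rw [← pow_mul, ← pow_succ]
  have hmem : γ - γ ^ (2 ^ (k + 1)) ∈ Me (⊥ : IntermediateField K Ω) e :=
    (Me (⊥ : IntermediateField K Ω) e).sub_mem hγ (hpw _).1
  by_cases h0 : γ - γ ^ (2 ^ (k + 1)) = 0
  · rw [h0, (L.zero_iff 0).2 rfl]
    exact L.nonneg _
  · obtain ⟨n, hn⟩ := val_e C L h he hmem h0
    rw [hn] at h3 ⊢
    have h20 : 0 < L.nm 2 := L.pos two_ne_zero
    have hn1 : 1 ≤ n := by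
      by_contra hcon
      have h4 : n ≤ 0 := by omega
      have h5 : L.nm 2 ^ (0 : ℤ) ≤ L.nm 2 ^ n :=
        zpow_le_zpow_right_of_le_one₀ h20 h.two.le h4
      rw [zpow_zero] at h5
      exact absurd h3 (not_lt.2 h5)
    have h6 : L.nm 2 ^ n ≤ L.nm 2 ^ (1 : ℤ) :=
      zpow_le_zpow_right_of_le_one₀ h20 h.two.le hn1
    rwa [zpow_one] at h6

end BE
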