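import Pool.Agent.Lib.MP_f80667_ag.Be.Vg
import Pool.Agent.Lib.MP_f80667_ag.Be.HfH

/-! Dyadic places: points of `E₂` over `K(e, θ)` with many different classes. -/

open ZC Polynomial IntermediateField

namespace BE

section hens

variable {K : Type} [Field K] {Ω : Type} [Field Ω] [Algebra K Ω] (L : Lf K Ω)

/-- Hensel's lemma for a monic cubic polynomial. -/
theorem Yj_cub (M : IntermediateField K Ω) [FiniteDimensional K M] {a b c : Ω} (ha : a ∈ M)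
    (hb : b ∈ M) (hc : c ∈ M) (ha1 : L.nm a ≤ 1) (hb1 : L.nm b ≤ 1) (hc1 : L.nm c ≤ 1)
    {x : Ω} (hx : x ∈ M) (hx1 : L.nm x ≤ 1) (h0 : L.nm (x ^ 3 + a * x ^ 2 + b * x + c) < 1)
    (h1 : L.nm (3 * x ^ 2 + 2 * a * x + b) = 1) :
    ∃ y ∈ M, y ^ 3 + a * y ^ 2 + b * y + c = 0 ∧ L.nm (y - x) < 1 := by
  have hd : derivative (Polynomial.X ^ 3 + Polynomial.C a * Polynomial.X ^ 2 +
      Polynomial.C b * Polynomial.X + Polynomial.C c : Polynomial Ω) =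
      3 * Polynomial.X ^ 2 + 2 * Polynomial.C a * Polynomial.X + Polynomial.C b := by
    simp only [derivative_add, derivative_mul, derivative_C, derivative_X_pow, derivative_X]
    simp only [Nat.cast_ofNat, map_ofNat]
    ring
  obtain ⟨y, hy, hy0, hyx⟩ := L.hens M inferInstance (Polynomial.X ^ 3 +
    Polynomial.C a * Polynomial.X ^ 2 + Polynomial.C b * Polynomial.X + Polynomial.C c)
    (by monicity!) (by
      intro i
      match i with
      | 0 =>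
        have h2 : (Polynomial.X ^ 3 + Polynomial.C a * Polynomial.X ^ 2 +
            Polynomial.C b * Polynomial.X + Polynomial.C c : Polynomial Ω).coeff 0 = c := by
          simp
        rw [h2]
        exact ⟨hc, hc1⟩
      | 1 =>
        have h2 : (Polynomial.X ^ 3 + Polynomial.C a * Polynomial.X ^ 2 +
            Polynomial.C b * Polynomial.X + Polynomial.C c : Polynomial Ω).coeff 1 = b := by
          simp [coeff_C]
        rw [h2]
        exact ⟨hb, hb1⟩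
      | 2 =>
        have h2 : (Polynomial.X ^ 3 + Polynomial.C a * Polynomial.X ^ 2 +
            Polynomial.C b * Polynomial.X + Polynomial.C c : Polynomial Ω).coeff 2 = a := by
          simp
        rw [h2]
        exact ⟨ha, ha1⟩
      | 3 =>
        have h2 : (Polynomial.X ^ 3 + Polynomial.C a * Polynomial.X ^ 2 +
            Polynomial.C b * Polynomial.X + Polynomial.C c : Polynomial Ω).coeff 3 = 1 := by
          simp
        rw [h2, L.one]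
        exact ⟨one_mem _, le_refl _⟩
      | n + 4 =>
        have h2 : (Polynomial.X ^ 3 + Polynomial.C a * Polynomial.X ^ 2 +
            Polynomial.C b * Polynomial.X + Polynomial.C c : Polynomial Ω).coeff (n + 4) = 0 := by
          simp [coeff_X_pow]
        rw [h2, (L.zero_iff 0).2 rfl]
        exact ⟨zero_mem _, zero_le_one⟩) x hx hx1 (by simpa using h0) (by
      rw [hd]
      simpa using h1)
  exact ⟨y, hy, by simpa using hy0, hyx⟩

end hens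

variable {F : Type} [Field F] {K : Type} [Field K] [CharZero K] [Algebra F K] {Ω : Type} [Field Ω]
  [Algebra K Ω] [Algebra F Ω] [IsScalarTower F K Ω] [IsAlgClosure K Ω] (C : Cf F) (L : Lf K Ω)

/-- `- (c₂ / 3 + e')` is a unit. -/
theorem Yj_gam (h : L.H3 C) {e' : Ω} (he' : aeval e' C.g = 0) :
    L.nm (-(algebraMap F Ω C.c₂ / 3 + e')) = 1 := by
  have h3 : L.nm (3 : Ω) = 1 := by
    have := L.odd_unit h.two (n := 3) (by decide)
    simpa using this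
  have hcΩ : CharZero Ω := charZero_of_injective_algebraMap (algebraMap K Ω).injective
  have h30 : (3 : Ω) ≠ 0 := by norm_num
  have hac : IsAlgClosed Ω := IsAlgClosure.isAlgClosed K
  obtain ⟨e₁, e₂, e₃, h12, h13, h23, k2, k1, k0⟩ := HfH_roots (Ω := Ω) C
  have hae : ∀ x : Ω, aeval x C.g = (x - e₁) * (x - e₂) * (x - e₃) := by
    intro x
    have h1 : aeval x C.g = x ^ 3 + algebraMap F Ω C.c₂ * x ^ 2 + algebraMap F Ω C.c₁ * x +
        algebraMap F Ω C.c₀ := by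
      simp [Cf.g]
    rw [h1, k2, k1, k0]
    ring
  have r1 : aeval e₁ C.g = 0 := by rw [hae]; ring
  have r2 : aeval e₂ C.g = 0 := by rw [hae]; ring
  have r3 : aeval e₃ C.g = 0 := by rw [hae]; ring
  have key : ∀ a b c : Ω, aeval a C.g = 0 → aeval b C.g = 0 → aeval c C.g = 0 → b ≠ c →
      algebraMap F Ω C.c₂ = -(a + b + c) → L.nm (-(algebraMap F Ω C.c₂ / 3 + a)) = 1 := by
    intro a b c ha hb hc hbc hk
    have h4 : -(algebraMap F Ω C.c₂ / 3 + a) = ((2 * (c - a)) + (b - c)) / 3 := by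
      rw [hk]
      field_simp
      ring
    have h5 : L.nm (c - a) ≤ 1 := (L.sub c a).trans (max_le (root_int C L h hc) (root_int C L h ha))
    have h6 : L.nm (2 * (c - a)) < L.nm (b - c) := by
      rw [root_sub C L h hb hc hbc, L.mul]
      calc L.nm 2 * L.nm (c - a) ≤ L.nm 2 * 1 := mul_le_mul_of_nonneg_left h5 (L.nonneg _)
        _ = L.nm 2 := mul_one _
        _ < 1 := h.two
    rw [h4, L.div, L.add_eq h6, root_sub C L h hb hc hbc, h3, div_one]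
  rw [hae, mul_eq_zero, mul_eq_zero, sub_eq_zero, sub_eq_zero, sub_eq_zero] at he'
  rcases he' with (rfl | rfl) | rfl
  · exact key e' e₂ e₃ r1 r2 r3 h23 k2
  · exact key e' e₁ e₃ r2 r1 r3 h13 (by rw [k2]; ring)
  · exact key e' e₁ e₂ r3 r1 r2 h12 (by rw [k2]; ring)

/-- **The points `y_j`.** Let `K₁ = K(e, θ)`, `z = θ^j`. By `Lf.hens` there is a solution `ξ ∈ K₁` of `ξ³ + c₂ z² ξ² + c₁ z⁴ ξ + c₀ z⁶ = 1`, close to `1`:
`ξ = 1 - (c₂/3) z² + O(z⁴)`; `y = (ξ / z², 1 / z³)`. For a root `e'`: `x - e' = z^(-2) (1 + γ z² + O(z⁴))`, `γ = - (c₂/3 + e')`, `‖γ‖ = 1`, since `- c₂ - e'` is the sum of the two other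
roots, `e'' + e''' = (e'' - e''') + 2 e'''` (`root_sub`). `γ = δ² + O(2)` with `δ ∈ K(e)` (`exists_sqrt_mod`), so `1 + γ z² + O(z⁴) = (1 + δ z)² - 2 δ z + O(2 z²) + O(z⁴) = (1 + δ z)² (1 + η)` with
`‖η‖ = ‖2 z‖ = ‖θ‖^(N + j)`, since `3 j > N`. -/
theorem exists_yj (h : L.H3 C) {e θ : Ω} (he : aeval e C.g = 0) {N : ℕ} (hN : Odd N)
    (hθ : θ ^ N = 2) {j : ℕ} (hj : N < 3 * j) (hjN : j < N) :
    ∃ y : Pt C.W₂ Ω,
      (∀ γ ∈ (Me (Me (⊥ : IntermediateField K Ω) e) θ).fixingSubgroup, γ • y = y) ∧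
      ∀ e' : Ω, aeval e' C.g = 0 → ∃ s ∈ Me (Me (⊥ : IntermediateField K Ω) e) θ,
        ∃ η ∈ Me (Me (⊥ : IntermediateField K Ω) e) θ, s ≠ 0 ∧
        C.th0 Ω e' 0 y = s ^ 2 * (1 + η) ∧ L.nm η = L.nm θ ^ (N + j) := by
  classical
  have hcΩ : CharZero Ω := charZero_of_injective_algebraMap (algebraMap K Ω).injective
  have h30 : (3 : Ω) ≠ 0 := by norm_num
  have h20 : (2 : Ω) ≠ 0 := by norm_num
  have h3 : L.nm (3 : Ω) = 1 := by
    have := L.odd_unit h.two (n := 3) (by decide)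
    simpa using this
  have hfd : FiniteDimensional K (Me (Me (⊥ : IntermediateField K Ω) e) θ) := by
    apply FiniteDimensional.of_finrank_pos
    rw [finrank_th C L h he (by omega : 0 < N) hθ]
    omega
  set K₁ := Me (Me (⊥ : IntermediateField K Ω) e) θ with hK₁
  have hle : Me (⊥ : IntermediateField K Ω) e ≤ K₁ := le_sup_left
  have hθM : θ ∈ K₁ := (le_sup_right : _ ≤ K₁) (IntermediateField.mem_adjoin_simple_self K θ)
  have hFM : ∀ c : F, ∀ M : IntermediateField K Ω, algebraMap F Ω c ∈ M := by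
    intro c M
    rw [IsScalarTower.algebraMap_apply F K Ω]
    exact M.algebraMap_mem _
  -- the absolute value of `θ`
  have hr0 : 0 < L.nm θ := by
    refine L.pos ?_
    rintro rfl
    rw [zero_pow (by omega)] at hθ
    exact h20 hθ.symm
  have hrN : L.nm θ ^ N = L.nm 2 := by rw [← L.pow, hθ]
  have hr1 : L.nm θ < 1 := by
    by_contra hcon
    push Not at hcon
    have h1 := one_le_pow₀ hcon (n := N)
    rw [hrN] at h1
    exact absurd h.two (not_lt.2 h1)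
  -- `z`
  obtain ⟨z, hz⟩ : ∃ z : Ω, z = θ ^ j := ⟨_, rfl⟩
  have hzM : z ∈ K₁ := hz ▸ pow_mem hθM j
  have hzn : L.nm z = L.nm θ ^ j := by rw [hz, L.pow]
  have hz0' : 0 < L.nm z := by rw [hzn]; exact pow_pos hr0 j
  have hz0 : z ≠ 0 := L.ne_zero hz0'
  have hz1 : L.nm z < 1 := by
    rw [hzn]
    exact pow_lt_one₀ hr0.le hr1 (by omega)
  have hzp : ∀ k : ℕ, L.nm (z ^ k) ≤ 1 := fun k => by
    rw [L.pow]
    exact pow_le_one₀ hz0'.le hz1.le
  -- bounds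
  have hbd : ∀ (a : Ω) (k m : ℕ), L.nm a ≤ 1 → m ≤ k → L.nm (a * z ^ k) ≤ L.nm z ^ m := by
    intro a k m ha hmk
    rw [L.mul, L.pow]
    calc L.nm a * L.nm z ^ k ≤ 1 * L.nm z ^ k :=
          mul_le_mul_of_nonneg_right ha (pow_nonneg hz0'.le k)
      _ = L.nm z ^ k := one_mul _
      _ ≤ L.nm z ^ m := pow_le_pow_of_le_one hz0'.le hz1.le hmk
  have hbd' : ∀ (a b : Ω) (k m : ℕ), L.nm a ≤ 1 → L.nm b ≤ L.nm z ^ k → m ≤ k →
      L.nm (a * b) ≤ L.nm z ^ m := by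
    intro a b k m ha hb hmk
    rw [L.mul]
    calc L.nm a * L.nm b ≤ 1 * L.nm z ^ k := mul_le_mul ha hb (L.nonneg _) zero_le_one
      _ = L.nm z ^ k := one_mul _
      _ ≤ L.nm z ^ m := pow_le_pow_of_le_one hz0'.le hz1.le hmk
  have hadd : ∀ {x y : Ω} {c : ℝ}, L.nm x ≤ c → L.nm y ≤ c → L.nm (x + y) ≤ c :=
    fun hx hy => (L.add _ _).trans (max_le hx hy)
  obtain ⟨a, ha⟩ : ∃ a, algebraMap F Ω C.c₂ = a := ⟨_, rfl⟩
  obtain ⟨b, hb⟩ : ∃ b, algebraMap F Ω C.c₁ = b := ⟨_, rfl⟩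
  obtain ⟨c, hc⟩ : ∃ c, algebraMap F Ω C.c₀ = c := ⟨_, rfl⟩
  have ha1 : L.nm a ≤ 1 := ha ▸ h.hc₂
  have hb1 : L.nm b ≤ 1 := hb ▸ h.hc₁
  have hc1 : L.nm c ≤ 1 := hc ▸ h.hc₀
  have haM : a ∈ K₁ := ha ▸ hFM C.c₂ K₁
  have hbM : b ∈ K₁ := hb ▸ hFM C.c₁ K₁
  have hcM : c ∈ K₁ := hc ▸ hFM C.c₀ K₁
  have hlt2 : L.nm z ^ 2 < 1 := pow_lt_one₀ hz0'.le hz1 (by norm_num)
  -- Hensel
  obtain ⟨ξ, hξM, hξ, hξ1⟩ := Yj_cub L K₁ (a := a * z ^ 2) (b := b * z ^ 4) (c := c * z ^ 6 - 1)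
    (mul_mem haM (pow_mem hzM 2)) (mul_mem hbM (pow_mem hzM 4))
    (sub_mem (mul_mem hcM (pow_mem hzM 6)) (one_mem _))
    ((hbd a 2 0 ha1 (by norm_num)).trans_eq (pow_zero _))
    ((hbd b 4 0 hb1 (by norm_num)).trans_eq (pow_zero _))
    ((L.sub _ _).trans (max_le ((hbd c 6 0 hc1 (by norm_num)).trans_eq (pow_zero _))
      (L.one).le)) (x := 1) (one_mem _) (L.one).le
    (by
      have h1 : (1 : Ω) ^ 3 + a * z ^ 2 * 1 ^ 2 + b * z ^ 4 * 1 + (c * z ^ 6 - 1) =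
          a * z ^ 2 + b * z ^ 4 + c * z ^ 6 := by ring
      rw [h1]
      exact (hadd (hadd (hbd a 2 2 ha1 (by norm_num)) (hbd b 4 2 hb1 (by norm_num)))
        (hbd c 6 2 hc1 (by norm_num))).trans_lt hlt2)
    (by
      have h1 : 3 * (1 : Ω) ^ 2 + 2 * (a * z ^ 2) * 1 + b * z ^ 4 =
          (2 * a * z ^ 2 + b * z ^ 4) + 3 := by ring
      rw [h1, L.add_eq, h3]
      rw [h3]
      refine (hadd (hbd (2 * a) 2 2 ?_ (by norm_num)) (hbd b 4 2 hb1 (by norm_num))).trans_lt hlt2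
      rw [L.mul]
      exact mul_le_one₀ L.two_le (L.nonneg _) ha1)
  -- the expansion of `ξ`
  obtain ⟨u, hu⟩ : ∃ u, u = ξ - 1 := ⟨_, rfl⟩
  have hξu : ξ = 1 + u := by rw [hu]; ring
  rw [← hu] at hξ1
  have hξn : L.nm ξ = 1 := by rw [hξu]; exact L.one_add hξ1
  have hu1 : u * (3 + u * (3 + u)) =
      -(a * ξ ^ 2 * z ^ 2 + b * ξ * z ^ 4 + c * z ^ 6) := by
    have h1 : u * (3 + u * (3 + u)) = ξ ^ 3 - 1 := by rw [hu]; ring
    rw [h1]
    linear_combination hξ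
  have hc3u : L.nm (3 + u) ≤ 1 := hadd h3.le hξ1.le
  have hunit : L.nm (3 + u * (3 + u)) = 1 := by
    rw [L.add_eq', h3]
    rw [h3, L.mul]
    calc L.nm u * L.nm (3 + u) ≤ L.nm u * 1 := mul_le_mul_of_nonneg_left hc3u (L.nonneg _)
      _ = L.nm u := mul_one _
      _ < 1 := hξ1
  have hξ2 : L.nm (a * ξ ^ 2) ≤ 1 := by
    rw [L.mul, L.pow, hξn, one_pow, mul_one]
    exact ha1
  have hξ3 : L.nm (b * ξ) ≤ 1 := by
    rw [L.mul, hξn, mul_one]
    exact hb1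
  have hu2 : L.nm u ≤ L.nm z ^ 2 := by
    have h1 : L.nm u = L.nm (u * (3 + u * (3 + u))) := by rw [L.mul, hunit, mul_one]
    rw [h1, hu1, L.neg]
    exact hadd (hadd (hbd _ 2 2 hξ2 (by norm_num)) (hbd _ 4 2 hξ3 (by norm_num)))
      (hbd c 6 2 hc1 (by norm_num))
  have huu : L.nm (u ^ 2) ≤ L.nm z ^ 4 := by
    rw [L.pow, show 4 = 2 * 2 from rfl, pow_mul]
    exact pow_le_pow_left₀ (L.nonneg _) hu2 2
  have hc2u : L.nm (2 + u) ≤ 1 := hadd L.two_le hξ1.le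
  have hu3 : L.nm (3 * u + a * z ^ 2) ≤ L.nm z ^ 4 := by
    have h1 : 3 * u + a * z ^ 2 = (-(a * (2 + u))) * (u * z ^ 2) + (-(b * ξ)) * z ^ 4 +
        (-c) * z ^ 6 + (-(3 + u)) * u ^ 2 := by
      have h2 : 3 * u + a * z ^ 2 = -(a * ξ ^ 2 * z ^ 2 + b * ξ * z ^ 4 + c * z ^ 6) +
          a * z ^ 2 - u ^ 2 * (3 + u) := by
        rw [← hu1]
        ring
      rw [h2, hξu]
      ring
    rw [h1]
    refine hadd (hadd (hadd (hbd' _ _ 4 4 ?_ ?_ (le_refl _)) (hbd _ 4 4 ?_ (le_refl _)))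
      (hbd _ 6 4 ?_ (by norm_num))) (hbd' _ _ 4 4 ?_ huu (le_refl _))
    · rw [L.neg, L.mul]
      exact mul_le_one₀ ha1 (L.nonneg _) hc2u
    · rw [L.mul, L.pow, show 4 = 2 + 2 from rfl, pow_add]
      exact mul_le_mul_of_nonneg_right hu2 (pow_nonneg hz0'.le 2)
    · rw [L.neg]
      exact hξ3
    · rw [L.neg]
      exact hc1
    · rw [L.neg]
      exact hc3u
  have huM : u ∈ K₁ := hu ▸ sub_mem hξM (one_mem _)
  have h2M : (2 : Ω) ∈ K₁ := ofNat_mem K₁ 2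
  have h3M : (3 : Ω) ∈ K₁ := ofNat_mem K₁ 3
  -- the point
  have heq : (1 / z ^ 3) ^ 2 = (ξ / z ^ 2) ^ 3 + algebraMap F Ω C.c₂ * (ξ / z ^ 2) ^ 2 +
      algebraMap F Ω C.c₁ * (ξ / z ^ 2) + algebraMap F Ω C.c₀ := by
    rw [ha, hb, hc]
    field_simp
    linear_combination -hξ
  refine ⟨C.pt₂ (ξ / z ^ 2) (1 / z ^ 3) heq, ?_, ?_⟩
  · exact (fix_aff K₁ _).2 ⟨div_mem hξM (pow_mem hzM 2), div_mem (one_mem _) (pow_mem hzM 3)⟩
  intro e' he'
  have he'1 : e' ∈ Me (⊥ : IntermediateField K Ω) e := root_mem C L h he he'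
  obtain ⟨γ, hγ⟩ : ∃ γ : Ω, γ = -(algebraMap F Ω C.c₂ / 3 + e') := ⟨_, rfl⟩
  have hγ1 : L.nm γ = 1 := hγ ▸ Yj_gam C L h he'
  have hγM : γ ∈ Me (⊥ : IntermediateField K Ω) e := by
    rw [hγ]
    exact neg_mem (add_mem (div_mem (hFM _ _) (ofNat_mem _ 3)) he'1)
  obtain ⟨δ, hδM, hδ⟩ := exists_sqrt_mod C L h he hγM hγ1.le
  have hδ2 : L.nm (δ ^ 2) = 1 := by
    have h1 : δ ^ 2 = (-(γ - δ ^ 2)) + γ := by ring
    rw [h1, L.add_eq, hγ1]
    rw [L.neg, hγ1]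
    exact hδ.trans_lt h.two
  have hδ1 : L.nm δ = 1 := by
    rw [L.pow] at hδ2
    exact (pow_eq_one_iff_of_nonneg (L.nonneg _) (by norm_num)).1 hδ2
  obtain ⟨ρ, hρ⟩ : ∃ ρ : Ω, ρ = (3 * u + a * z ^ 2) / 3 := ⟨_, rfl⟩
  have hρ1 : L.nm ρ ≤ L.nm z ^ 4 := by
    rw [hρ, L.div, h3, div_one]
    exact hu3
  have hδK : δ ∈ K₁ := hle hδM
  have hγK : γ ∈ K₁ := hle hγM
  have hρK : ρ ∈ K₁ := by
    rw [hρ]
    exact div_mem (add_mem (mul_mem h3M huM) (mul_mem haM (pow_mem hzM 2))) h3M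
  have hδz : L.nm (1 + δ * z) = 1 := by
    refine L.one_add ?_
    rw [L.mul, hδ1, one_mul]
    exact hz1
  have hδz0 : 1 + δ * z ≠ 0 := L.ne_zero (by rw [hδz]; exact one_pos)
  obtain ⟨ν, hν⟩ : ∃ ν : Ω, ν = ((γ - δ ^ 2) * z ^ 2 + ρ) + (-(2 * δ * z)) := ⟨_, rfl⟩
  have hνn : L.nm ν = L.nm θ ^ (N + j) := by
    have h2z : L.nm (-(2 * δ * z)) = L.nm θ ^ (N + j) := by
      rw [L.neg, L.mul, L.mul, hδ1, mul_one, ← hrN, hzn, pow_add]
    rw [hν, L.add_eq, h2z]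
    rw [h2z]
    refine lt_of_le_of_lt (L.add _ _) (max_lt ?_ ?_)
    · rw [L.mul, L.pow, hzn, ← pow_mul]
      calc L.nm (γ - δ ^ 2) * L.nm θ ^ (j * 2) ≤ L.nm θ ^ N * L.nm θ ^ (j * 2) := by
            rw [hrN]
            exact mul_le_mul_of_nonneg_right hδ (pow_nonneg hr0.le _)
        _ = L.nm θ ^ (N + j * 2) := (pow_add _ _ _).symm
        _ < L.nm θ ^ (N + j) := pow_lt_pow_right_of_lt_one₀ hr0 hr1 (by omega)
    · refine hρ1.trans_lt ?_
      rw [hzn, ← pow_mul]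
      exact pow_lt_pow_right_of_lt_one₀ hr0 hr1 (by omega)
  have hmain : ξ / z ^ 2 - e' = ((1 + δ * z) / z) ^ 2 * (1 + ν / (1 + δ * z) ^ 2) := by
    have h1 : ξ - e' * z ^ 2 = (1 + δ * z) ^ 2 + ν := by
      rw [hν, hρ, hγ, hξu, ha]
      field_simp
      ring
    have h4 : ξ / z ^ 2 - e' = (ξ - e' * z ^ 2) / z ^ 2 := by
      field_simp
    rw [h4, h1]
    field_simp
  have hηn : L.nm (ν / (1 + δ * z) ^ 2) = L.nm θ ^ (N + j) := by
    rw [L.div, L.pow, hδz, one_pow, div_one, hνn]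
  have hs0 : (1 + δ * z) / z ≠ 0 := div_ne_zero hδz0 hz0
  have hsM : (1 + δ * z) / z ∈ K₁ := div_mem (add_mem (one_mem _) (mul_mem hδK hzM)) hzM
  have hηM : ν / (1 + δ * z) ^ 2 ∈ K₁ := by
    refine div_mem ?_ (pow_mem (add_mem (one_mem _) (mul_mem hδK hzM)) 2)
    rw [hν]
    exact add_mem (add_mem (mul_mem (sub_mem hγK (pow_mem hδK 2)) (pow_mem hzM 2)) hρK)
      (neg_mem (mul_mem (mul_mem h2M hδK) hzM))
  refine ⟨_, hsM, _, hηM, hs0, ?_, hηn⟩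
  have hne : ξ / z ^ 2 ≠ e' := by
    intro h0
    rw [← sub_eq_zero, hmain] at h0
    rcases mul_eq_zero.1 h0 with h0 | h0
    · exact hs0 (pow_eq_zero_iff (by norm_num) |>.1 h0)
    · have h5 : L.nm (1 + ν / (1 + δ * z) ^ 2) = 1 := by
        refine L.one_add ?_
        rw [hηn]
        exact pow_lt_one₀ hr0.le hr1 (by omega)
      rw [h0, (L.zero_iff 0).2 rfl] at h5
      exact zero_ne_one h5
  change (if ξ / z ^ 2 = e' then aeval e' (derivative C.g) else C.kap Ω 0 * (ξ / z ^ 2 - e')) = _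
  rw [if_neg hne, hmain]
  change 1 * _ = _
  rw [one_mul]

end BE
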