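import Pool.Agent.Lib.MP_f80667_ag.Be.Yj

/-! Dyadic places: the classes of the points `y_j` are different. -/

open ZC Polynomial IntermediateField

namespace BE

variable {F : Type} [Field F] {K : Type} [Field K] [CharZero K] [Algebra F K] {Ω : Type} [Field Ω]
  [Algebra K Ω] [Algebra F Ω] [IsScalarTower F K Ω] [IsAlgClosure K Ω] (C : Cf F) (L : Lf K Ω)

omit [CharZero K] [IsAlgClosure K Ω] in
theorem ys_theta (L : Lf K Ω) (h2 : L.nm 2 < 1) {θ : Ω} {N : ℕ} (hθ : θ ^ N = 2)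
    (h20 : (2 : Ω) ≠ 0) (hN : 0 < N) : 0 < L.nm θ ∧ L.nm θ < 1 := by
  have h0 : θ ≠ 0 := by
    rintro rfl
    rw [zero_pow hN.ne'] at hθ
    exact h20 hθ.symm
  refine ⟨L.pos h0, ?_⟩
  by_contra h1
  have h3 : 1 ≤ L.nm θ ^ N := one_le_pow₀ (not_lt.1 h1)
  rw [← L.pow, hθ] at h3
  exact absurd h2 (not_lt.2 h3)

/-- The product of two values is not a square. -/
theorem ys_core (h : L.H3 C) {e θ : Ω} (he : aeval e C.g = 0) {N : ℕ} (hN : Odd N)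
    (hθ : θ ^ N = 2) {j j' : ℕ} (hj : Even j) (hjN : j < N) (hjj : j < j')
    {s s' η η' a a' : Ω}
    (hs : s ∈ Me (Me (⊥ : IntermediateField K Ω) e) θ)
    (hs' : s' ∈ Me (Me (⊥ : IntermediateField K Ω) e) θ) (hs0 : s ≠ 0) (hs0' : s' ≠ 0)
    (ha : a = s ^ 2 * (1 + η)) (ha' : a' = s' ^ 2 * (1 + η'))
    (hn : L.nm η = L.nm θ ^ (N + j)) (hn' : L.nm η' = L.nm θ ^ (N + j')) :
    ¬ SqM (Me (Me (⊥ : IntermediateField K Ω) e) θ) (a * a') := by
  intro hsq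
  have i0 : CharZero Ω := charZero_of_injective_algebraMap (algebraMap K Ω).injective
  obtain ⟨t0, t1⟩ := ys_theta L h.two hθ two_ne_zero hN.pos
  have h1 : a * a' = (1 + (η + (η' + η * η'))) * (s * s') ^ 2 := by
    rw [ha, ha']
    ring
  rw [h1] at hsq
  have h2 := SqM.of_sq (mul_mem hs hs') (mul_ne_zero hs0 hs0') hsq
  have hη1 : L.nm η ≤ 1 := by
    rw [hn]
    exact pow_le_one₀ t0.le t1.le
  have h3 : L.nm (η' + η * η') ≤ L.nm η' := by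
    refine (L.add _ _).trans (max_le le_rfl ?_)
    rw [L.mul]
    exact mul_le_of_le_one_left (L.nonneg _) hη1
  have h4 : L.nm η' < L.nm η := by
    rw [hn, hn']
    exact pow_lt_pow_right_of_lt_one₀ t0 t1 (by omega)
  have h5 : L.nm (η + (η' + η * η')) = L.nm θ ^ (N + j) := by
    rw [L.add_eq' (h3.trans_lt h4), hn]
  exact not_sq_odd L h.two hN.pos hθ (fun x hx h0 => val_th C L h he hN.pos hθ hx h0)
    (hN.add_even hj) (by omega) h5 h2

/-- Proof: for two even `j < j'` the product of the two values is a square times `1 + η''`, `‖η''‖ = ‖θ‖^(N + j)`, `N + j` odd, `< 2 N`: `not_sq_odd`, `val_th`. -/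
theorem exists_ys (h : L.H3 C) {e θ : Ω} (he : aeval e C.g = 0) {N : ℕ} (hN : Odd N)
    (hθ : θ ^ N = 2) :
    ∃ y : ℕ → Pt C.W₂ Ω, ∀ j, Even j → N < 3 * j → j < N →
      (∀ γ ∈ (Me (Me (⊥ : IntermediateField K Ω) e) θ).fixingSubgroup, γ • y j = y j) ∧
      ∀ j', Even j' → N < 3 * j' → j' < N → j ≠ j' → ∀ e' : Ω, aeval e' C.g = 0 →
        ¬ SqM (Me (Me (⊥ : IntermediateField K Ω) e) θ)
          (C.th0 Ω e' 0 (y j) * C.th0 Ω e' 0 (y j')) := by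
  classical
  have key : ∀ j : ℕ, ∃ y : Pt C.W₂ Ω, N < 3 * j → j < N →
      (∀ γ ∈ (Me (Me (⊥ : IntermediateField K Ω) e) θ).fixingSubgroup, γ • y = y) ∧
      ∀ e' : Ω, aeval e' C.g = 0 → ∃ s ∈ Me (Me (⊥ : IntermediateField K Ω) e) θ,
        ∃ η ∈ Me (Me (⊥ : IntermediateField K Ω) e) θ, s ≠ 0 ∧
        C.th0 Ω e' 0 y = s ^ 2 * (1 + η) ∧ L.nm η = L.nm θ ^ (N + j) := by
    intro j
    by_cases h1 : N < 3 * j ∧ j < N
    · obtain ⟨y, hy⟩ := exists_yj C L h he hN hθ h1.1 h1.2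
      exact ⟨y, fun _ _ => hy⟩
    · exact ⟨0, fun h2 h3 => absurd ⟨h2, h3⟩ h1⟩
  choose y hy using key
  refine ⟨y, fun j hj h1 h2 => ⟨(hy j h1 h2).1, fun j' hj' h1' h2' hne e' he' => ?_⟩⟩
  obtain ⟨s, hs, η, -, hs0, ha, hn⟩ := (hy j h1 h2).2 e' he'
  obtain ⟨s', hs', η', -, hs0', ha', hn'⟩ := (hy j' h1' h2').2 e' he'
  rcases lt_or_gt_of_ne hne with hlt | hlt
  · exact ys_core C L h he hN hθ hj h2 hlt hs hs' hs0 hs0' ha ha' hn hn'
  · rw [mul_comm]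
    exact ys_core C L h he hN hθ hj' h2' hlt hs' hs hs0' hs0 ha' ha hn' hn

end BE
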